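import Pool.Agent.H306.DS.Op2

/-! Exact boundedness of the projections. -/

noncomputable section

namespace Pool.Agent.H306.DS

open Set MeasureTheory Filter Topology

open scoped Real ContDiff ENNReal ComplexConjugate

open Pool.Agent.H306.CK

/-- Geometric decay off the diagonal. -/
def qd (i j : ℕ) : ℝ := (1 / 2) ^ ((i - j) + (j - i))

theorem qd_pos (i j : ℕ) : 0 < qd i j := by unfold qd; positivity

theorem qd_comm (i j : ℕ) : qd i j = qd j i := by unfold qd; rw [add_comm]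

theorem qd_low (i n : ℕ) (hn : n ≤ i + 1) :
    ∑ j ∈ Finset.range n, qd i j ≤ 2 * (1 / 2) ^ (i + 1 - n) := by
  induction n with
  | zero => simp
  | succ n ih =>
    rw [Finset.sum_range_succ]
    have h1 := ih (by omega)
    have h2 : qd i n = (1 / 2) ^ (i - n) := by
      unfold qd
      rw [show n - i = 0 by omega, add_zero]
    have h3 : i + 1 - n = (i - n) + 1 := by omega
    have h4 : i + 1 - (n + 1) = i - n := by omega
    rw [h3, pow_succ] at h1
    rw [h4, h2]
    linarith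

theorem qd_high (i m : ℕ) :
    ∑ j ∈ Finset.range (i + 1 + m), qd i j ≤ 3 - (1 / 2) ^ m := by
  induction m with
  | zero =>
    have h1 := qd_low i (i + 1) le_rfl
    rw [Nat.sub_self, pow_zero] at h1
    rw [add_zero, pow_zero]
    linarith
  | succ m ih =>
    rw [← add_assoc, Finset.sum_range_succ]
    have h2 : qd i (i + 1 + m) = (1 / 2) ^ (m + 1) := by
      unfold qd
      rw [show i - (i + 1 + m) = 0 by omega, show i + 1 + m - i = m + 1 by omega, zero_add]
    have h3 : ((1 : ℝ) / 2) ^ (m + 1) = (1 / 2) ^ m * (1 / 2) := pow_succ _ _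
    rw [h2, h3]
    linarith

theorem qd_sum (i n : ℕ) : ∑ j ∈ Finset.range n, qd i j ≤ 3 := by
  rcases le_or_gt n (i + 1) with h | h
  · have h1 := qd_low i n h
    have h2 : ((1 : ℝ) / 2) ^ (i + 1 - n) ≤ 1 := pow_le_one₀ (by norm_num) (by norm_num)
    linarith
  · obtain ⟨m, rfl⟩ : ∃ m, n = i + 1 + m := ⟨n - (i + 1), by omega⟩
    have h1 := qd_high i m
    have h2 : (0 : ℝ) < (1 / 2) ^ m := by positivity
    linarith

theorem qd_tsum (i : ℕ) : ∑' j, ENNReal.ofReal (qd i j) ≤ 3 := by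
  refine ENNReal.tsum_le_of_sum_range_le fun n => ?_
  rw [← ENNReal.ofReal_sum_of_nonneg fun j _ => (qd_pos i j).le]
  have := ENNReal.ofReal_le_ofReal (qd_sum i n)
  simpa using this

theorem en_mul_le (x y : ℝ≥0∞) : x * y ≤ x ^ 2 + y ^ 2 := by
  rcases le_total x y with h | h
  · calc x * y ≤ y * y := by gcongr
      _ = y ^ 2 := (sq y).symm
      _ ≤ _ := le_add_self
  · calc x * y ≤ x * x := by gcongr
      _ = x ^ 2 := (sq x).symm
      _ ≤ _ := le_self_add

/-- Schur's test. -/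
theorem schur (X : ℕ → ℝ≥0∞) :
    ∑' j, ∑' i, X j * X i * ENNReal.ofReal (qd j i) ≤ 6 * ∑' j, X j ^ 2 := by
  have h1 : ∀ j i, X j * X i * ENNReal.ofReal (qd j i) ≤
      X j ^ 2 * ENNReal.ofReal (qd j i) + X i ^ 2 * ENNReal.ofReal (qd i j) := by
    intro j i
    rw [qd_comm i j, ← add_mul]
    gcongr
    exact en_mul_le _ _
  calc ∑' j, ∑' i, X j * X i * ENNReal.ofReal (qd j i) ≤
        ∑' j, ∑' i, (X j ^ 2 * ENNReal.ofReal (qd j i) + X i ^ 2 * ENNReal.ofReal (qd i j)) :=
        ENNReal.tsum_le_tsum fun j => ENNReal.tsum_le_tsum fun i => h1 j i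
    _ = ∑' j, ∑' i, X j ^ 2 * ENNReal.ofReal (qd j i) +
        ∑' j, ∑' i, X i ^ 2 * ENNReal.ofReal (qd i j) := by
        rw [← ENNReal.tsum_add]
        exact tsum_congr fun j => ENNReal.tsum_add
    _ = ∑' j, ∑' i, X j ^ 2 * ENNReal.ofReal (qd j i) +
        ∑' i, ∑' j, X i ^ 2 * ENNReal.ofReal (qd i j) := by
        congr 1
        exact ENNReal.tsum_comm
    _ ≤ ∑' j, X j ^ 2 * 3 + ∑' i, X i ^ 2 * 3 := by
        gcongr with j i
        · rw [ENNReal.tsum_mul_left]
          gcongr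
          exact qd_tsum j
        · rw [ENNReal.tsum_mul_left]
          gcongr
          exact qd_tsum i
    _ = _ := by
        rw [ENNReal.tsum_mul_right]
        ring

/-- The multiplier is symmetric. -/
theorem FA_symm {v u : V → V} (hv : SP v) (hu : SP u) (s : ℝ) :
    inner3 (FA s v) u = inner3 v (FA s u) := by
  have hpi := Real.pi_pos
  have h1 := parseval3 (FA_sp hv s).cp hu.cp
  have h2 := parseval3 hv.cp (FA_sp hu s).cp
  have h3 : (fun k => ∑ i, conj (fc (fun x => FA s v x i) k) * fc (fun x => u x i) k) =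
      fun k => ∑ i, conj (fc (fun x => v x i) k) * fc (fun x => FA s u x i) k := by
    ext k
    refine Finset.sum_congr rfl fun i _ => ?_
    rw [fc_FA hv, fc_FA hu, map_mul, Complex.conj_ofReal]
    ring
  rw [h3] at h1
  have h4 := h1.unique h2
  have h5 : (2 * π) ^ 3 * inner3 (FA s v) u = (2 * π) ^ 3 * inner3 v (FA s u) := by
    exact_mod_cast h4
  exact mul_left_cancel₀ (by positivity) h5

section

variable {κ : ℕ → ℝ} {f : ℕ → V → V} {a : ℕ → ℝ} {v : V → V}

theorem four_hr (h : Chain κ f) (s : ℝ) : ∃ C : ℝ, 0 < C ∧ ∀ j, hr s (f j) ≤ C * κ j ^ (2 * s) := by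
  obtain ⟨C, hC0, hC⟩ := h.four s
  refine ⟨C, hC0, fun j => ENNReal.toReal_le_of_le_ofReal ?_ (hC j)⟩
  have := Real.rpow_pos_of_pos (h.pos j) (2 * s)
  positivity

theorem hr_FA (hv : SP v) (s β : ℝ) : hr s (FA β v) = hr (s + 2 * β) v := by
  unfold hr; rw [hs_FA hv]

/-- The Gram matrix. -/
theorem gram (h : Chain κ f) (hg : ∀ i j, i ≤ j → κ i * 2 ^ (j - i) ≤ 4 * κ j) (s : ℝ) :
    ∃ C : ℝ, 0 < C ∧ ∀ i j, |inner3 (f i) (FA s (f j))| ≤ C * (κ i ^ s * κ j ^ s) * qd i j := by
  obtain ⟨C₁, hC₁0, hC₁⟩ := four_hr h (s - 1)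
  obtain ⟨C₂, hC₂0, hC₂⟩ := four_hr h (s + 1)
  set C := Real.sqrt (C₁ * C₂) with hC
  have hC0 : 0 < C := Real.sqrt_pos.2 (by positivity)
  -- one sided bound
  have key : ∀ i j, |inner3 (f i) (FA s (f j))| ≤ C * (κ i ^ s * κ j ^ s) * (κ i / κ j) := by
    intro i j
    have hi := h.pos i
    have hj := h.pos j
    have hsi := Real.rpow_pos_of_pos hi s
    have hsj := Real.rpow_pos_of_pos hj s
    have h1 := pair_hr (h.sf i).sp (FA_sp (h.sf j).sp s) (-(s + 1))
    rw [hr_FA (h.sf j).sp, neg_neg, show -(s + 1) + 2 * s = s - 1 by ring] at h1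
    have h2 : inner3 (f i) (FA s (f j)) ^ 2 ≤ (C * (κ i ^ s * κ j ^ s) * (κ i / κ j)) ^ 2 := by
      have e1 : κ i ^ (2 * (s + 1)) = (κ i ^ s) ^ 2 * κ i ^ 2 := by
        rw [← Real.rpow_natCast, ← Real.rpow_natCast, ← Real.rpow_mul hi.le, ← Real.rpow_add hi]
        congr 1; push_cast; ring
      have e2 : κ j ^ (2 * (s - 1)) * κ j ^ 2 = (κ j ^ s) ^ 2 := by
        rw [← Real.rpow_natCast, ← Real.rpow_natCast, ← Real.rpow_mul hj.le, ← Real.rpow_add hj]
        congr 1; push_cast; ring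
      have e3 : κ j ^ (2 * (s - 1)) = (κ j ^ s) ^ 2 / κ j ^ 2 := by
        rw [eq_div_iff (by positivity)]; exact e2
      calc _ ≤ _ := h1
        _ ≤ (C₂ * κ i ^ (2 * (s + 1))) * (C₁ * κ j ^ (2 * (s - 1))) := by
            have := hr_nonneg (s - 1) (f j)
            gcongr
            · exact hC₂ i
            · exact hC₁ j
        _ = C ^ 2 * ((κ i ^ s) ^ 2 * κ i ^ 2) * ((κ j ^ s) ^ 2 / κ j ^ 2) := by
            rw [hC, Real.sq_sqrt (by positivity), e1, e3]; ring
        _ = _ := by rw [mul_pow, mul_pow, mul_pow, div_pow]; ring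
    exact abs_le_of_sq_le_sq h2 (by positivity)
  refine ⟨4 * C, by positivity, fun i j => ?_⟩
  have hi := h.pos i
  have hj := h.pos j
  have hsi := Real.rpow_pos_of_pos hi s
  have hsj := Real.rpow_pos_of_pos hj s
  rcases le_total i j with hij | hij
  · have h1 := key i j
    have h2 := hg i j hij
    have h3 : qd i j = 1 / 2 ^ (j - i) := by
      unfold qd
      rw [show i - j = 0 by omega, zero_add, one_div_pow]
    have h4 : κ i / κ j ≤ 4 * (1 / 2 ^ (j - i)) := by
      rw [mul_one_div, div_le_div_iff₀ hj (by positivity)]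
      exact h2
    rw [h3]
    calc _ ≤ C * (κ i ^ s * κ j ^ s) * (κ i / κ j) := h1
      _ ≤ C * (κ i ^ s * κ j ^ s) * (4 * (1 / 2 ^ (j - i))) := by gcongr
      _ = _ := by ring
  · have h1 := key j i
    have h2 := hg j i hij
    have h3 : qd i j = 1 / 2 ^ (i - j) := by
      unfold qd
      rw [show j - i = 0 by omega, add_zero, one_div_pow]
    have h4 : κ j / κ i ≤ 4 * (1 / 2 ^ (i - j)) := by
      rw [mul_one_div, div_le_div_iff₀ hi (by positivity)]
      exact h2
    rw [h3, ← FA_symm (h.sf i).sp (h.sf j).sp, inner_comm]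
    calc _ ≤ C * (κ j ^ s * κ i ^ s) * (κ j / κ i) := h1
      _ ≤ C * (κ j ^ s * κ i ^ s) * (4 * (1 / 2 ^ (i - j))) := by gcongr
      _ = _ := by ring

theorem ofReal_abs_hasSum {F : ℕ → ℝ} {S : ℝ} (h : HasSum F S) :
    ENNReal.ofReal |S| ≤ ∑' j, ENNReal.ofReal |F j| := by
  have h1 := enorm_tsum_le_tsum_enorm (f := F)
  rw [h.tsum_eq] at h1
  simpa only [← Real.norm_eq_abs, ofReal_norm] using h1

/-- Almost orthogonality in the Sobolev spaces. -/
theorem ser_hs0 (h : Chain κ f) (hg : ∀ i j, i ≤ j → κ i * 2 ^ (j - i) ≤ 4 * κ j) (s : ℝ) :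
    ∃ C : ℝ, 0 < C ∧ ∀ a, Rapid κ a →
      hs s (ser a f) ≤ ENNReal.ofReal C * ∑' j, ENNReal.ofReal (a j ^ 2 * κ j ^ (2 * s)) := by
  have hpi := Real.pi_pos
  obtain ⟨C, hC0, hC⟩ := gram h hg s
  refine ⟨(2 * π) ^ 3 * C * 6, by positivity, fun a ha => ?_⟩
  have hU := (ser_sf h ha).sp
  set U := ser a f with hUd
  rw [hs_FA_one hU s]
  have h1 : inner3 (FA s U) U = inner3 U (FA s U) := inner_comm _ _
  have h2 := ser_inner h ha (FA_sp hU s).cp
  have h3 : ∀ j, ENNReal.ofReal |inner3 (f j) (FA s U)| ≤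
      ∑' i, ENNReal.ofReal (|a i| * (C * (κ i ^ s * κ j ^ s) * qd i j)) := by
    intro j
    rw [← FA_symm (h.sf j).sp hU, inner_comm]
    refine (ofReal_abs_hasSum (ser_inner h ha (FA_sp (h.sf j).sp s).cp)).trans ?_
    refine ENNReal.tsum_le_tsum fun i => ENNReal.ofReal_le_ofReal ?_
    rw [abs_mul]
    gcongr
    exact hC i j
  set X : ℕ → ℝ≥0∞ := fun j => ENNReal.ofReal (|a j| * κ j ^ s) with hX
  have hX2 : ∀ j, X j ^ 2 = ENNReal.ofReal (a j ^ 2 * κ j ^ (2 * s)) := by
    intro j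
    have hj := h.pos j
    have hsj := Real.rpow_pos_of_pos hj s
    rw [hX]
    simp only
    rw [← ENNReal.ofReal_pow (by positivity), mul_pow, sq_abs, ← Real.rpow_natCast (κ j ^ s),
      ← Real.rpow_mul hj.le]
    congr 3
    push_cast
    ring
  have h4 : ENNReal.ofReal |inner3 U (FA s U)| ≤
      ENNReal.ofReal C * ∑' j, ∑' i, X j * X i * ENNReal.ofReal (qd j i) := by
    refine (ofReal_abs_hasSum h2).trans ?_
    rw [← ENNReal.tsum_mul_left]
    refine ENNReal.tsum_le_tsum fun j => ?_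
    rw [abs_mul, ENNReal.ofReal_mul (abs_nonneg _), ← ENNReal.tsum_mul_left]
    refine (mul_le_mul_right (h3 j) _).trans ?_
    rw [← ENNReal.tsum_mul_left]
    refine ENNReal.tsum_le_tsum fun i => le_of_eq ?_
    have hj := Real.rpow_pos_of_pos (h.pos j) s
    have hi := Real.rpow_pos_of_pos (h.pos i) s
    have hq := qd_pos i j
    rw [hX]
    simp only
    rw [qd_comm j i, ← ENNReal.ofReal_mul (abs_nonneg _), ← ENNReal.ofReal_mul (by positivity),
      ← ENNReal.ofReal_mul (by positivity), ← ENNReal.ofReal_mul hC0.le]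
    congr 1
    ring
  calc ENNReal.ofReal ((2 * π) ^ 3 * inner3 (FA s U) U) ≤
        ENNReal.ofReal ((2 * π) ^ 3) * ENNReal.ofReal |inner3 U (FA s U)| := by
        rw [← ENNReal.ofReal_mul (by positivity), h1]
        gcongr
        exact le_abs_self _
    _ ≤ ENNReal.ofReal ((2 * π) ^ 3) * (ENNReal.ofReal C * (6 * ∑' j, X j ^ 2)) := by
        gcongr
        exact h4.trans (by gcongr; exact schur X)
    _ = _ := by
        simp only [hX2]
        rw [ENNReal.ofReal_mul (p := (2 * π) ^ 3 * C) (by positivity),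
          ENNReal.ofReal_mul (p := (2 * π) ^ 3) (by positivity)]
        rw [show ENNReal.ofReal 6 = 6 by norm_num]
        ring

/-- Bessel's inequality in the Sobolev spaces. -/
theorem coef_sum (h : Chain κ f) (hg : ∀ i j, i ≤ j → κ i * 2 ^ (j - i) ≤ 4 * κ j) (s : ℝ) :
    ∃ C : ℝ, 0 < C ∧ ∀ v, SP v →
      ∑' j, ENNReal.ofReal (coef f v j ^ 2 * κ j ^ (2 * s)) ≤ ENNReal.ofReal C * hs s v := by
  obtain ⟨C, hC0, hC⟩ := ser_hs0 h hg (-s)
  refine ⟨C, hC0, fun v hv => ?_⟩
  refine ENNReal.tsum_le_of_sum_range_le fun n => ?_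
  have hp : ∀ j, 0 < κ j ^ (2 * s) := fun j => Real.rpow_pos_of_pos (h.pos j) _
  rw [← ENNReal.ofReal_sum_of_nonneg fun j _ => by have := hp j; positivity,
    ← ofReal_mul_hr hv hC0.le]
  apply ENNReal.ofReal_le_ofReal
  set S := ∑ j ∈ Finset.range n, coef f v j ^ 2 * κ j ^ (2 * s) with hS
  have hS0 : 0 ≤ S := Finset.sum_nonneg fun j _ => by have := hp j; positivity
  set b : ℕ → ℝ := fun j => if j < n then κ j ^ (2 * s) * coef f v j else 0 with hb
  have hbR : Rapid κ b := by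
    intro N
    refine ⟨∑ j ∈ Finset.range n, |b j| * κ j ^ N, fun j => ?_⟩
    have hk : ∀ j, 0 ≤ |b j| * κ j ^ N := fun j => by have := h.pos j; positivity
    by_cases hj : j < n
    · exact Finset.single_le_sum (f := fun j => |b j| * κ j ^ N) (fun j _ => hk j)
        (Finset.mem_range.2 hj)
    · have : b j = 0 := by rw [hb]; simp [hj]
      rw [this, abs_zero, zero_mul]
      exact Finset.sum_nonneg fun j _ => hk j
  have hw := (ser_sf h hbR).sp
  -- the pairing
  have h1 : inner3 (ser b f) v = S := by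
    have h2 := ser_inner h hbR hv.cp
    have h3 : HasSum (fun j => b j * inner3 (f j) v)
        (∑ j ∈ Finset.range n, b j * inner3 (f j) v) := hasSum_sum_of_ne_finset_zero fun j hj => by
      have hj' : ¬ j < n := fun hh => hj (Finset.mem_range.2 hh)
      rw [hb]; simp [hj']
    rw [h2.unique h3, hS]
    refine Finset.sum_congr rfl fun j hj => ?_
    rw [hb]
    simp only [Finset.mem_range.1 hj, if_true]
    unfold coef
    ring
  have h2 := pair_hr hw hv s
  rw [h1] at h2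
  -- the norm of the series
  have h3 : hr (-s) (ser b f) ≤ C * S := by
    have h4 := hC b hbR
    have h5 : ∑' j, ENNReal.ofReal (b j ^ 2 * κ j ^ (2 * -s)) = ENNReal.ofReal S := by
      rw [tsum_eq_sum (s := Finset.range n) (fun j hj => by
        have hj' : ¬ j < n := fun hh => hj (Finset.mem_range.2 hh)
        rw [hb]; simp [hj']), ← ENNReal.ofReal_sum_of_nonneg fun j _ => by
          have := Real.rpow_pos_of_pos (h.pos j) (2 * -s)
          positivity, hS]
      congr 1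
      refine Finset.sum_congr rfl fun j hj => ?_
      rw [hb]
      simp only [Finset.mem_range.1 hj, if_true]
      have e1 : κ j ^ (2 * s) * κ j ^ (2 * -s) = 1 := by
        rw [← Real.rpow_add (h.pos j)]; simp
      linear_combination (coef f v j ^ 2 * κ j ^ (2 * s)) * e1
    rw [h5, ← ENNReal.ofReal_mul hC0.le] at h4
    exact ENNReal.toReal_le_of_le_ofReal (by positivity) h4
  have h4 : S ^ 2 ≤ C * S * hr s v := h2.trans (by
    have := hr_nonneg s v
    gcongr)
  rcases hS0.eq_or_lt with h0 | h0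
  · rw [← h0]
    have := hr_nonneg s v
    positivity
  · have h5 : S * S ≤ S * (C * hr s v) := by nlinarith
    exact le_of_mul_le_mul_left h5 h0

/-- The projection is bounded. -/
theorem Pr_hs0 (h : Chain κ f) (hg : ∀ i j, i ≤ j → κ i * 2 ^ (j - i) ≤ 4 * κ j) (s : ℝ) :
    ∃ C : ℝ, 0 < C ∧ ∀ v, SP v → hs s (Pr f v) ≤ ENNReal.ofReal C * hs s v := by
  obtain ⟨C₁, hC₁0, hC₁⟩ := ser_hs0 h hg s
  obtain ⟨C₂, hC₂0, hC₂⟩ := coef_sum h hg s
  refine ⟨C₁ * C₂, by positivity, fun v hv => ?_⟩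
  refine (hC₁ _ (coef_rapid h hv)).trans ?_
  rw [ENNReal.ofReal_mul hC₁0.le, mul_assoc]
  gcongr
  exact hC₂ v hv

end

end Pool.Agent.H306.DS
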