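import Pool.Agent.H306.DS.Stage2

/-! The whole cascade. -/

namespace Pool.Agent.H306.DS

open Set Filter Topology

open Pool.Agent.H306.CK

/-- The output of a stage. -/
structure Out (f x y z : ℝ → ℝ) (T τ r R γ' ν a e : ℝ) : Prop where
  act : Act f x y z R ν a e
  a_pos : 0 < a
  a_le : a ≤ 51200 * r
  e_pos : 0 < e
  e_le : e ≤ 3 * R * ep r R
  x0 : 0 < x 0
  grow : ∀ t ∈ Icc 0 T, γ' * x t ≤ R / 8 * (z t - x t)
  bd : ∀ t ∈ Icc 0 T, 0 ≤ x t ∧ x t ≤ 3 / 20 ∧ 0 ≤ z t ∧ z t ≤ 3 / 20 ∧ 0 ≤ y t ∧ y t ≤ 2 ∧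
    y t ≤ 2 * (a * f t)
  early : ∀ t ∈ Icc 0 (τ - th r), x t ≤ ep r R ∧ z t ≤ ep r R
  low : ∀ t, τ + 1 / (2 * R) ≤ t → t ≤ T → 1 / 12800 ≤ x t

theorem stage {f : ℝ → ℝ} {T τ r R γ ν γ' : ℝ} (hi : In f T τ r γ) (hT : Tm T τ r R γ ν)
    (hS : Sm r R) (hγ' : 0 ≤ γ') (hδ : 48 * R * ep r R ^ 2 ≤ γ - γ') (hRγ : 32 * γ' ≤ R) :
    ∃ (x y z : ℝ → ℝ) (a e : ℝ), Out f x y z T τ r R γ' ν a e := by
  obtain ⟨Y, a, hY⟩ := exists_linY hi hT
  obtain ⟨X, Z, e, hh⟩ := exists_hat hY hT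
  obtain ⟨x, y, z, hA, hx0, hy0, hz0⟩ := exists_act hi.cont hT.R_pos.le hT.ν0 hY.a_pos.le
    hh.e_pos.le (X 0) (Y 0) (Z 0)
  have hyn := act_y_nonneg hi hh hY hT hS hA hx0 hy0 hz0
  have hb := act_bounds hi hh hY hT hS hA hx0 hy0 hz0 le_rfl hyn
  have hgr := act_grow hi hh hY hT hS hA hx0 hy0 hz0 hγ' hδ hRγ
  have hR := hT.R_pos
  have h0T : (0 : ℝ) ∈ Icc 0 T := ⟨le_rfl, hT.T_pos.le⟩
  refine ⟨x, y, z, a, e, hA, hY.a_pos, hY.a_le, hh.e_pos, e_le hi hh hY hT, ?_, hgr,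
    fun t ht => ?_, fun t ht => ?_, fun t ht htT => ?_⟩
  · rw [hx0]
    have h1 := hh.initX
    have h2 := hh.initZ
    have h3 : 0 < e * Y 0 := mul_pos hh.e_pos (hY.pos 0 h0T)
    have hγ := hT.γ_ge
    have hRγ : 0 < R / 8 + γ := by positivity
    have h4 : 0 < Z 0 := by
      by_contra hcon
      push Not at hcon
      nlinarith
    have h5 : 0 < R / 8 * Z 0 := by positivity
    by_contra hcon
    push Not at hcon
    nlinarith
  · obtain ⟨⟨h1, h2⟩, ⟨h3, h4⟩, h5, h6, h7, h8⟩ := hb t ht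
    obtain ⟨h9, h10⟩ := hh.nonneg hY hT t ht
    have h11 := U_le hi hh hY hT hS.e1 ht
    have h12 := Y_le_two hi hY hT ht
    have h13 := Y_le_af hi hY hT ht
    exact ⟨h1, by linarith, h2, by linarith, hyn t ht, by linarith, by linarith⟩
  · have htT : t ∈ Icc 0 T := ⟨ht.1, by linarith [ht.2, th_pos hT, hT.τ_le]⟩
    obtain ⟨⟨h1, h2⟩, ⟨h3, h4⟩, -⟩ := hb t htT
    obtain ⟨h9, h10⟩ := hh.nonneg hY hT t htT
    have h11 := U_eps hi hh hY hT ht.1 ht.2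
    constructor <;> linarith
  · refine act_low hi hh hY hT hS hA hx0 hy0 hz0 (fun s hs => ?_) ht htT
    have h1 := hgr s hs
    have h2 := (hb s hs).1.1
    have : 0 ≤ γ' * x s := mul_nonneg hγ' h2
    linarith

theorem Out.next {f x y z : ℝ → ℝ} {T τ r R γ' ν a e τ' : ℝ} (h : Out f x y z T τ r R γ' ν a e)
    (hT1 : T ≤ 1) (hτ : τ' = τ + 1 / R) (hR : 0 < R) (hτT : τ' ≤ T) : In x T τ' R γ' where
  cont := h.act.contx
  pos0 := h.x0
  der := fun t ht => ⟨_, h.act.derx t ⟨by linarith [ht.1], by linarith [ht.2]⟩, h.grow t ht⟩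
  le := fun t ht => (h.bd t ht).2.1
  ge := fun t ht => by
    refine h.low t ?_ (ht.2.trans hτT)
    have h1 := ht.1
    have h2 : 1 / R - 1 / (2 * R) = 1 / (2 * R) := by field_simp; ring
    rw [hτ] at h1
    linarith

/-- The base input. -/
noncomputable def f0 (k : ℝ) (t : ℝ) : ℝ := 1 / 6400 * ((1 + 8 * k * t) * Real.exp (-(k * t)))

/-- The source of the base input. -/
noncomputable def P0 (k : ℝ) (t : ℝ) : ℝ := 1 / 400 * Real.exp (-(k * t))

theorem P0_deriv (k t : ℝ) : HasDerivAt (P0 k) (-k * P0 k t) t := by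
  have h : HasDerivAt (fun t => Real.exp (-(k * t))) (Real.exp (-(k * t)) * (-(k * 1))) t :=
    (((hasDerivAt_id t).const_mul k).neg).exp
  refine (h.const_mul (1 / 400)).congr_deriv ?_
  unfold P0
  ring

theorem f0_deriv (k t : ℝ) : HasDerivAt (f0 k) (-k * f0 k t + k / 2 * P0 k t) t := by
  have h : HasDerivAt (fun t => Real.exp (-(k * t))) (Real.exp (-(k * t)) * (-(k * 1))) t :=
    (((hasDerivAt_id t).const_mul k).neg).exp
  have h2 : HasDerivAt (fun t => 1 + 8 * k * t) (8 * k * 1) t :=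
    ((hasDerivAt_id t).const_mul (8 * k)).const_add 1
  refine ((h2.mul h).const_mul (1 / 6400)).congr_deriv ?_
  unfold f0 P0
  ring

theorem f0_in {k T τ r : ℝ} (hk : 1 ≤ k) (hT : T ≤ 1 / (8 * k)) (hr : 0 < r)
    (hτ : 1 / (2 * r) ≤ τ) (hτT : τ ≤ T) : In (f0 k) T τ r 2 := by
  have hkt : ∀ t ∈ Icc 0 T, 0 ≤ k * t ∧ k * t ≤ 1 / 8 := by
    intro t ht
    refine ⟨by have := ht.1; positivity, ?_⟩
    calc k * t ≤ k * (1 / (8 * k)) := by
          have := ht.2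
          gcongr
          linarith
      _ = 1 / 8 := by field_simp
  have hexp : ∀ t ∈ Icc 0 T, 7 / 8 ≤ Real.exp (-(k * t)) ∧ Real.exp (-(k * t)) ≤ 1 := by
    intro t ht
    obtain ⟨h1, h2⟩ := hkt t ht
    refine ⟨?_, Real.exp_le_one_iff.2 (by linarith)⟩
    have := Real.add_one_le_exp (-(k * t))
    linarith
  constructor
  · exact fun t _ => (f0_deriv k t).continuousAt.continuousWithinAt
  · simp [f0]
  · intro t ht
    refine ⟨_, f0_deriv k t, ?_⟩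
    obtain ⟨h1, h2⟩ := hkt t ht
    obtain ⟨h3, h4⟩ := hexp t ht
    unfold f0 P0
    have h5 : 0 ≤ Real.exp (-(k * t)) * (k * (7 - 8 * (k * t)) - 2 * (1 + 8 * (k * t))) := by
      refine mul_nonneg (by linarith) ?_
      nlinarith
    nlinarith
  · intro t ht
    obtain ⟨h1, h2⟩ := hkt t ht
    obtain ⟨h3, h4⟩ := hexp t ht
    unfold f0
    have : (1 + 8 * k * t) * Real.exp (-(k * t)) ≤ 2 * 1 :=
      mul_le_mul (by linarith) h4 (by linarith) (by norm_num)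
    linarith
  · intro t ht
    have hr2 : 0 < 1 / (2 * r) := by positivity
    have ht' : t ∈ Icc 0 T := ⟨by linarith [ht.1], ht.2.trans hτT⟩
    obtain ⟨h1, h2⟩ := hkt t ht'
    obtain ⟨h3, h4⟩ := hexp t ht'
    unfold f0
    have : 1 * (7 / 8) ≤ (1 + 8 * k * t) * Real.exp (-(k * t)) :=
      mul_le_mul (by linarith) h3 (by norm_num) (by linarith)
    linarith

/-- The rates of the cascade. -/
structure Rates (ρ : ℕ → ℝ) (k : ℝ) : Prop where
  k_ge : 1 ≤ k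
  pos : 64 ≤ ρ 0
  k_le : 32 * k ≤ ρ 0
  ratio : ∀ m, 15360 * ρ m ≤ ρ (m + 1)
  sm1 : ∀ m, 6 * ep (ρ m) (ρ (m + 1)) ≤ 1 / 100
  sm2 : ∀ m, 2 * ρ (m + 1) * (48 * ρ (m + 1) * ep (ρ m) (ρ (m + 1)) ^ 2) ≤ 1 / 8
  sm3 : ∀ m, 48 * ρ (m + 1) * ep (ρ m) (ρ (m + 1)) ^ 2 ≤ 1 / 2 ^ (m + 1)
  fast : ∀ N : ℕ, ∃ C : ℝ, ∀ m, ep (ρ m) (ρ (m + 1)) * ρ (m + 1) ^ N ≤ C
  slow : ∀ m, ρ (m + 1) ≤ ρ m ^ 4

section

variable {ρ : ℕ → ℝ} {k : ℝ} (h : Rates ρ k)

include h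

theorem Rates.ρ_pos (m : ℕ) : 64 ≤ ρ m := by
  induction m with
  | zero => exact h.pos
  | succ m ih => linarith [h.ratio m]

theorem Rates.inv_le (m j : ℕ) : 1 / ρ (m + j) ≤ 1 / ρ m * (1 / 2) ^ j := by
  induction j with
  | zero => simp
  | succ j ih =>
    have h1 := h.ρ_pos (m + j)
    have h2 := h.ratio (m + j)
    have h3 : 1 / ρ (m + (j + 1)) ≤ 1 / ρ (m + j) * (1 / 2) := by
      rw [← add_assoc]
      have : 1 / ρ (m + j) * (1 / 2) = 1 / (ρ (m + j) * 2) := by field_simp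
      rw [this]
      apply one_div_le_one_div_of_le (by positivity)
      linarith
    calc _ ≤ 1 / ρ (m + j) * (1 / 2) := h3
      _ ≤ 1 / ρ m * (1 / 2) ^ j * (1 / 2) := by gcongr
      _ = _ := by rw [pow_succ]; ring

theorem Rates.summable (m : ℕ) : Summable fun j => 1 / ρ (m + j) :=
  Summable.of_nonneg_of_le (fun j => by have := h.ρ_pos (m + j); positivity) (h.inv_le m)
    ((summable_geometric_of_lt_one (by norm_num) (by norm_num)).mul_left _)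

end

/-- The remaining time after `τ m`. -/
noncomputable def rem (ρ : ℕ → ℝ) (m : ℕ) : ℝ := ∑' j, 1 / ρ (m + 1 + j)

/-- The blow-up time. -/
noncomputable def TT (ρ : ℕ → ℝ) : ℝ := rem ρ 0 + 1 / (2 * ρ 0)

/-- The times. -/
noncomputable def ta (ρ : ℕ → ℝ) (m : ℕ) : ℝ := TT ρ - rem ρ m

section

variable {ρ : ℕ → ℝ} {k : ℝ} (h : Rates ρ k)

include h

theorem rem_pos (m : ℕ) : 0 < rem ρ m := by
  have h1 := (h.summable (m + 1)).tsum_pos (fun j => by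
    have := h.ρ_pos (m + 1 + j); positivity) 0 (by
    have := h.ρ_pos (m + 1 + 0); positivity)
  exact h1

theorem rem_le (m : ℕ) : rem ρ m ≤ 2 / ρ (m + 1) := by
  have h1 := (h.summable (m + 1)).tsum_le_tsum (h.inv_le (m + 1))
    ((summable_geometric_of_lt_one (by norm_num) (by norm_num)).mul_left _)
  refine h1.trans (le_of_eq ?_)
  rw [tsum_mul_left, tsum_geometric_two]
  ring

theorem rem_succ (m : ℕ) : rem ρ m = 1 / ρ (m + 1) + rem ρ (m + 1) := by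
  unfold rem
  rw [(h.summable (m + 1)).tsum_eq_zero_add]
  congr 1
  refine tsum_congr fun j => ?_
  congr 2
  ring

theorem ta_succ (m : ℕ) : ta ρ (m + 1) = ta ρ m + 1 / ρ (m + 1) := by
  unfold ta
  have := rem_succ h m
  linarith

theorem TT_pos : 0 < TT ρ := by
  have h1 := rem_pos h 0
  have h2 := h.pos
  have : 0 < 1 / (2 * ρ 0) := by positivity
  unfold TT
  linarith

theorem TT_le : TT ρ ≤ 1 / ρ 0 := by
  have h1 := rem_le h 0
  have h2 := h.ρ_pos 0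
  have h3 := h.ratio 0
  have h4 : 2 / ρ (0 + 1) ≤ 1 / (2 * ρ 0) := by
    rw [div_le_div_iff₀ (by have := h.ρ_pos 1; positivity) (by positivity)]
    have : ρ (0 + 1) = ρ 1 := rfl
    linarith
  unfold TT
  have h5 : 1 / (2 * ρ 0) + 1 / (2 * ρ 0) = 1 / ρ 0 := by field_simp; norm_num
  linarith

theorem TT_k : TT ρ ≤ 1 / (8 * k) := by
  have h1 := TT_le h
  have h2 := h.k_ge
  have h3 := h.k_le
  refine h1.trans (one_div_le_one_div_of_le (by positivity) (by linarith))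

theorem ta_zero : ta ρ 0 = 1 / (2 * ρ 0) := by
  unfold ta TT
  ring

theorem h_le_ta (m : ℕ) : 1 / (2 * ρ m) ≤ ta ρ m := by
  induction m with
  | zero => rw [ta_zero h]
  | succ m ih =>
    rw [ta_succ h]
    have h1 := h.ρ_pos m
    have h2 := h.ρ_pos (m + 1)
    have h3 : 0 < 1 / (2 * ρ m) := by positivity
    have h4 : 1 / (2 * ρ (m + 1)) ≤ 1 / ρ (m + 1) :=
      one_div_le_one_div_of_le (by positivity) (by linarith)
    linarith

theorem ta_lt (m : ℕ) : ta ρ m < TT ρ := by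
  have := rem_pos h m
  unfold ta
  linarith

theorem tm (m : ℕ) : Tm (TT ρ) (ta ρ m) (ρ m) (ρ (m + 1)) (1 + 1 / 2 ^ m) (ρ m) where
  T_le := by
    have h1 := TT_le h
    have h2 := h.pos
    have : 1 / ρ 0 ≤ 1 := by
      rw [div_le_one (by linarith)]; linarith
    linarith
  τ_le := (ta_lt h m).le
  r_pos := by have := h.ρ_pos m; linarith
  h_le := h_le_ta h m
  R_ge := h.ratio m
  T_τ := by
    have := rem_le h m
    unfold ta
    linarith
  γ_ge := by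
    have : (0 : ℝ) < 1 / 2 ^ m := by positivity
    linarith
  ν0 := by have := h.ρ_pos m; linarith
  ν_le := le_rfl

theorem stage_m (m : ℕ) {f : ℝ → ℝ} (hi : In f (TT ρ) (ta ρ m) (ρ m) (1 + 1 / 2 ^ m)) :
    ∃ (x y z : ℝ → ℝ) (a e : ℝ), Out f x y z (TT ρ) (ta ρ m) (ρ m) (ρ (m + 1))
      (1 + 1 / 2 ^ (m + 1)) (ρ m) a e := by
  have h2 : (0 : ℝ) < 1 / 2 ^ (m + 1) := by positivity
  have h3 : (1 : ℝ) / 2 ^ (m + 1) ≤ 1 := by
    rw [div_le_one (by positivity)]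
    exact one_le_pow₀ (by norm_num)
  refine stage hi (tm h m) ⟨by have := h.ρ_pos (m + 1); linarith, h.sm1 m, h.sm2 m⟩
    (by linarith) ?_ (by have := h.ρ_pos (m + 1); linarith)
  refine (h.sm3 m).trans (le_of_eq ?_)
  rw [pow_succ]
  field_simp
  ring

end

/-- The inputs of the stages. -/
noncomputable def inputs {ρ : ℕ → ℝ} {k : ℝ} (h : Rates ρ k) :
    (m : ℕ) → {f : ℝ → ℝ // In f (TT ρ) (ta ρ m) (ρ m) (1 + 1 / 2 ^ m)}
  | 0 => ⟨f0 k, by
      have h1 : (1 : ℝ) + 1 / 2 ^ 0 = 2 := by norm_num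
      rw [h1]
      exact f0_in h.k_ge (TT_k h) (by have := h.pos; linarith) (h_le_ta h 0) (ta_lt h 0).le⟩
  | m + 1 => ⟨(stage_m h m (inputs h m).2).choose, by
      have h1 := (stage_m h m (inputs h m).2).choose_spec
      obtain ⟨y, z, a, e, h2⟩ := h1
      exact h2.next (tm h m).T_le (ta_succ h m) (by have := h.ρ_pos (m + 1); linarith)
        (ta_lt h (m + 1)).le⟩

/-- The cascade. -/
theorem cascade {ρ : ℕ → ℝ} {k : ℝ} (h : Rates ρ k) :
    ∃ (x y z : ℕ → ℝ → ℝ) (a e : ℕ → ℝ), ∀ m,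
      Out (match m with | 0 => f0 k | m + 1 => x m) (x m) (y m) (z m) (TT ρ) (ta ρ m) (ρ m)
        (ρ (m + 1)) (1 + 1 / 2 ^ (m + 1)) (ρ m) (a m) (e m) := by
  have h1 : ∀ m, ∃ (y z : ℝ → ℝ) (a e : ℝ), Out (inputs h m).1 (inputs h (m + 1)).1 y z (TT ρ)
      (ta ρ m) (ρ m) (ρ (m + 1)) (1 + 1 / 2 ^ (m + 1)) (ρ m) a e := fun m =>
    (stage_m h m (inputs h m).2).choose_spec
  choose y z a e h2 using h1
  refine ⟨fun m => (inputs h (m + 1)).1, y, z, a, e, fun m => ?_⟩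
  cases m with
  | zero => exact h2 0
  | succ m => exact h2 (m + 1)

end Pool.Agent.H306.DS
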