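import Pool.Agent.H306.DS.Gex

/-! Comparison for cooperative planar systems. -/

namespace Pool.Agent.H306.DS

open Set Filter Topology

open Pool.Agent.H306.CK

theorem hasDerivAt_negsq (s : ℝ) : HasDerivAt (fun s : ℝ => (min s 0) ^ 2) (2 * min s 0) s := by
  rcases lt_trichotomy s 0 with h | h | h
  · have h1 : HasDerivAt (fun s : ℝ => s ^ 2) (2 * s) s := by
      simpa using hasDerivAt_pow 2 s
    rw [min_eq_left h.le]
    refine h1.congr_of_eventuallyEq ?_
    filter_upwards [Iio_mem_nhds h] with x hx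
    rw [min_eq_left (le_of_lt hx)]
  · subst h
    simp only [min_self, mul_zero]
    rw [hasDerivAt_iff_isLittleO]
    simp only [min_self, smul_zero, sub_zero]
    refine Asymptotics.isLittleO_iff.2 fun c hc => ?_
    filter_upwards [Metric.ball_mem_nhds (0 : ℝ) hc] with x hx
    rw [Metric.mem_ball, dist_zero_right, Real.norm_eq_abs] at hx
    have h1 : (min x 0) ^ 2 ≤ |x| ^ 2 := by
      rcases le_total x 0 with h | h
      · rw [min_eq_left h, sq_abs]
      · rw [min_eq_right h, sq_abs]; nlinarith [sq_nonneg x]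
    simp only [ne_eq, OfNat.ofNat_ne_zero, not_false_eq_true, zero_pow, sub_zero, norm_pow,
      Real.norm_eq_abs, sq_abs]
    calc (min x 0) ^ 2 ≤ |x| ^ 2 := h1
      _ = |x| * |x| := sq _
      _ ≤ c * |x| := by gcongr
  · rw [min_eq_right h.le, mul_zero]
    refine (hasDerivAt_const s (0 : ℝ)).congr_of_eventuallyEq ?_
    filter_upwards [Ioi_mem_nhds h] with x hx
    rw [min_eq_right (le_of_lt hx)]
    simp

theorem coop {p q c : ℝ → ℝ} {A C t₀ t₁ : ℝ} (hA : 0 ≤ A)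
    (hc : ∀ t ∈ Icc t₀ t₁, 0 ≤ c t ∧ c t ≤ C)
    (hp : ∀ t ∈ Icc t₀ t₁, ∃ p', HasDerivAt p p' t ∧ A * (q t - p t) ≤ p')
    (hq : ∀ t ∈ Icc t₀ t₁, ∃ q', HasDerivAt q q' t ∧ -(A * q t) + c t * p t ≤ q')
    (hp0 : 0 ≤ p t₀) (hq0 : 0 ≤ q t₀) : ∀ t ∈ Icc t₀ t₁, 0 ≤ p t ∧ 0 ≤ q t := by
  intro t ht
  set W : ℝ → ℝ := fun s => (min (p s) 0) ^ 2 + (min (q s) 0) ^ 2 with hW
  have key := gron_upper (f := W) (c := A + C) ht.1 fun s hs => by
    have hs' : s ∈ Icc t₀ t₁ := ⟨hs.1, hs.2.trans ht.2⟩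
    obtain ⟨p', hp1, hp2⟩ := hp s hs'
    obtain ⟨q', hq1, hq2⟩ := hq s hs'
    obtain ⟨hc0, hcC⟩ := hc s hs'
    refine ⟨_, ((hasDerivAt_negsq (p s)).comp s hp1).add ((hasDerivAt_negsq (q s)).comp s hq1), ?_⟩
    set m := min (p s) 0 with hm
    set n := min (q s) 0 with hn
    have hm0 : m ≤ 0 := min_le_right _ _
    have hn0 : n ≤ 0 := min_le_right _ _
    have hmp : m * p s = m ^ 2 := by
      rcases le_total (p s) 0 with h | h
      · rw [hm, min_eq_left h, sq]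
      · rw [hm, min_eq_right h]; ring
    have hnq : n * q s = n ^ 2 := by
      rcases le_total (q s) 0 with h | h
      · rw [hn, min_eq_left h, sq]
      · rw [hn, min_eq_right h]; ring
    have h1 : m * p' ≤ m * (A * (q s - p s)) := mul_le_mul_of_nonpos_left hp2 hm0
    have h2 : n * q' ≤ n * (-(A * q s) + c s * p s) := mul_le_mul_of_nonpos_left hq2 hn0
    have h3 : m * q s ≤ m * n := mul_le_mul_of_nonpos_left (min_le_left _ _) hm0
    have h4 : n * p s ≤ n * m := mul_le_mul_of_nonpos_left (min_le_left _ _) hn0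
    have h5 : A * (m * q s) ≤ A * (m * n) := mul_le_mul_of_nonneg_left h3 hA
    have h6 : c s * (n * p s) ≤ c s * (n * m) := mul_le_mul_of_nonneg_left h4 hc0
    have h7 : 0 ≤ c s * (m - n) ^ 2 := by positivity
    have h8 : 0 ≤ A * (m - n) ^ 2 := by positivity
    have h9 : 0 ≤ (C - c s) * (m ^ 2 + n ^ 2) := mul_nonneg (by linarith) (by positivity)
    have h10 : 0 ≤ A * (m ^ 2 + n ^ 2) := by positivity
    simp only [hW]
    nlinarith
  have h0 : W t₀ = 0 := by
    simp only [hW, min_eq_right hp0, min_eq_right hq0]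
    norm_num
  rw [h0, zero_mul] at key
  have h1 : 0 ≤ (min (p t) 0) ^ 2 := sq_nonneg _
  have h2 : 0 ≤ (min (q t) 0) ^ 2 := sq_nonneg _
  simp only [hW] at key
  have h3 : min (p t) 0 = 0 := by
    apply pow_eq_zero_iff (n := 2) (by norm_num) |>.1
    linarith
  have h4 : min (q t) 0 = 0 := by
    apply pow_eq_zero_iff (n := 2) (by norm_num) |>.1
    linarith
  exact ⟨min_eq_right_iff.1 h3, min_eq_right_iff.1 h4⟩

/-- Scalar version: `g' ≥ -ν g` preserves the sign. -/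
theorem nonneg_of_gron {g : ℝ → ℝ} {ν t₀ t₁ : ℝ}
    (h : ∀ t ∈ Icc t₀ t₁, ∃ g', HasDerivAt g g' t ∧ -ν * g t ≤ g') (h0 : 0 ≤ g t₀) :
    ∀ t ∈ Icc t₀ t₁, 0 ≤ g t := by
  intro t ht
  have := gron_lower (f := g) (c := -ν) ht.1 fun s hs => h s ⟨hs.1, hs.2.trans ht.2⟩
  exact (mul_nonneg h0 (Real.exp_pos _).le).trans this

end Pool.Agent.H306.DS
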