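import Pool.Agent.H306.DS.Mom

/-! The solution of the Euler equations with the same initial field. -/

noncomputable section

namespace Pool.Agent.H306.DS

open Set MeasureTheory Filter Topology

open scoped Real ContDiff ENNReal

open Pool.Agent.H306.CK

/-- Rotating coefficients. -/
def rot (P Q w t : ℝ) : ℝ := P * Real.cos (w * t) + Q * Real.sin (w * t)

theorem rot_hasDeriv (P Q w t : ℝ) : HasDerivAt (rot P Q w) (rot (w * Q) (-(w * P)) w t) t := by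
  have h0 : HasDerivAt (fun t : ℝ => w * t) w t := by
    simpa using (hasDerivAt_id t).const_mul w
  have h1 : HasDerivAt (fun t => P * Real.cos (w * t)) (P * (-Real.sin (w * t) * w)) t :=
    ((Real.hasDerivAt_cos _).comp t h0).const_mul P
  have h2 : HasDerivAt (fun t => Q * Real.sin (w * t)) (Q * (Real.cos (w * t) * w)) t :=
    ((Real.hasDerivAt_sin _).comp t h0).const_mul Q
  have h3 := h1.add h2
  refine h3.congr_deriv ?_
  unfold rot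
  ring

theorem rot_deriv (P Q w : ℝ) : deriv (rot P Q w) = rot (w * Q) (-(w * P)) w := by
  ext t
  exact (rot_hasDeriv P Q w t).deriv

theorem rot_smooth (P Q w : ℝ) : ContDiff ℝ ∞ (rot P Q w) := by
  unfold rot
  fun_prop

theorem rot_iter (w : ℝ) (q : ℕ) : ∀ P Q t : ℝ,
    |iteratedDeriv q (rot P Q w) t| ≤ |w| ^ q * (|P| + |Q|) := by
  induction q with
  | zero =>
    intro P Q t
    rw [iteratedDeriv_zero, pow_zero, one_mul]
    unfold rot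
    refine (abs_add_le _ _).trans ?_
    rw [abs_mul, abs_mul]
    have h1 := Real.abs_cos_le_one (w * t)
    have h2 := Real.abs_sin_le_one (w * t)
    have h3 := abs_nonneg P
    have h4 := abs_nonneg Q
    nlinarith
  | succ q ih =>
    intro P Q t
    rw [iteratedDeriv_succ', rot_deriv]
    refine (ih _ _ t).trans (le_of_eq ?_)
    rw [abs_neg, abs_mul, abs_mul]
    ring

theorem rot_TC {κ : ℕ → ℝ} (hκ : ∀ j, 1 ≤ κ j) {P Q Ω : ℕ → ℝ} (hP : Rapid κ P) (hQ : Rapid κ Q)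
    {C : ℝ} {p : ℕ} (hΩ : ∀ j, |Ω j| ≤ C * κ j ^ p) (a b : ℝ) :
    TC κ a b (fun j => rot (P j) (Q j) (Ω j)) where
  smooth := fun j => (rot_smooth _ _ _).contDiffOn
  bd := fun q M a' b' _ _ => by
    obtain ⟨D₁, hD₁⟩ := hP (p * q + M)
    obtain ⟨D₂, hD₂⟩ := hQ (p * q + M)
    refine ⟨|C| ^ q * (D₁ + D₂), fun j t _ => ?_⟩
    have hp : 0 < κ j := by linarith [hκ j]
    have h1 := rot_iter (Ω j) q (P j) (Q j) t
    have h2 : |Ω j| ^ q ≤ (|C| * κ j ^ p) ^ q := by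
      refine pow_le_pow_left₀ (abs_nonneg _) ((hΩ j).trans ?_) q
      gcongr
      exact le_abs_self C
    calc |iteratedDeriv q (rot (P j) (Q j) (Ω j)) t| * κ j ^ M ≤
          ((|C| * κ j ^ p) ^ q * (|P j| + |Q j|)) * κ j ^ M := by
          gcongr
          exact h1.trans (by gcongr)
      _ = |C| ^ q * (|P j| * κ j ^ (p * q + M) + |Q j| * κ j ^ (p * q + M)) := by
          rw [pow_add, pow_mul, mul_pow]
          ring
      _ ≤ |C| ^ q * (D₁ + D₂) := by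
          have := hD₁ j
          have := hD₂ j
          gcongr

section

variable {α β C₁ θ : ℝ} {N : ℕ → ℝ} {φ : Fin 3 → ℕ → V → V} {ϖ : ℕ → V → ℝ} {m₀ : ℕ}
  {ρ A : ℕ → ℝ} {k : ℝ} {x y z : ℕ → ℝ → ℝ} {a e : ℕ → ℝ}

/-- The rotation rates. -/
def om (N : ℕ → ℝ) (m₀ : ℕ) (A : ℕ → ℝ) (k : ℝ) (x : ℕ → ℝ → ℝ) (t₀ : ℝ) (s : ℕ) : ℝ :=
  if s = 0 then 0 else N (s + m₀) * cX A k x s t₀

def eP (A : ℕ → ℝ) (k : ℝ) (x y z : ℕ → ℝ → ℝ) (t₀ : ℝ) (j : ℕ) : ℝ := cc A k x y z j t₀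

def eQ (A : ℕ → ℝ) (k : ℝ) (y z : ℕ → ℝ → ℝ) (t₀ : ℝ) : ℕ → ℝ :=
  t3 (fun s => -cZ A k z s t₀) (fun s => cY A y s t₀) (fun _ => 0)

def eO (N : ℕ → ℝ) (m₀ : ℕ) (A : ℕ → ℝ) (k : ℝ) (x : ℕ → ℝ → ℝ) (t₀ : ℝ) : ℕ → ℝ :=
  t3 (om N m₀ A k x t₀) (om N m₀ A k x t₀) (fun _ => 0)

/-- The coefficients of the Euler solution. -/
def ce (N : ℕ → ℝ) (m₀ : ℕ) (A : ℕ → ℝ) (k : ℝ) (x y z : ℕ → ℝ → ℝ) (t₀ : ℝ) (j : ℕ) : ℝ → ℝ :=
  rot (eP A k x y z t₀ j) (eQ A k y z t₀ j) (eO N m₀ A k x t₀ j)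

theorem eP_0 (t₀ : ℝ) (s : ℕ) : eP A k x y z t₀ (3 * s) = cY A y s t₀ := by
  unfold eP cc; rw [t3_0]

theorem eP_1 (t₀ : ℝ) (s : ℕ) : eP A k x y z t₀ (3 * s + 1) = cZ A k z s t₀ := by
  unfold eP cc; rw [t3_1]

theorem eP_2 (t₀ : ℝ) (s : ℕ) : eP A k x y z t₀ (3 * s + 2) = cX A k x s t₀ := by
  unfold eP cc; rw [t3_2]

theorem ce_0 (t₀ : ℝ) (s : ℕ) : ce N m₀ A k x y z t₀ (3 * s) =
    rot (cY A y s t₀) (-cZ A k z s t₀) (om N m₀ A k x t₀ s) := by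
  unfold ce eQ eO; rw [eP_0, t3_0, t3_0]

theorem ce_1 (t₀ : ℝ) (s : ℕ) : ce N m₀ A k x y z t₀ (3 * s + 1) =
    rot (cZ A k z s t₀) (cY A y s t₀) (om N m₀ A k x t₀ s) := by
  unfold ce eQ eO; rw [eP_1, t3_1, t3_1]

theorem ce_2 (t₀ : ℝ) (s : ℕ) : ce N m₀ A k x y z t₀ (3 * s + 2) = rot (cX A k x s t₀) 0 0 := by
  unfold ce eQ eO; rw [eP_2, t3_2, t3_2]

theorem ce_0_deriv (t₀ : ℝ) (s : ℕ) (t : ℝ) : deriv (ce N m₀ A k x y z t₀ (3 * s)) t =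
    -(om N m₀ A k x t₀ s * ce N m₀ A k x y z t₀ (3 * s + 1) t) := by
  rw [ce_0, ce_1, rot_deriv]
  unfold rot
  ring

theorem ce_1_deriv (t₀ : ℝ) (s : ℕ) (t : ℝ) : deriv (ce N m₀ A k x y z t₀ (3 * s + 1)) t =
    om N m₀ A k x t₀ s * ce N m₀ A k x y z t₀ (3 * s) t := by
  rw [ce_0, ce_1, rot_deriv]
  unfold rot
  ring

theorem ce_2_deriv (t₀ : ℝ) (s : ℕ) (t : ℝ) : deriv (ce N m₀ A k x y z t₀ (3 * s + 2)) t = 0 := by
  rw [ce_2, rot_deriv]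
  unfold rot
  ring

theorem ce_zero (t₀ : ℝ) (j : ℕ) : ce N m₀ A k x y z t₀ j 0 = cc A k x y z j t₀ := by
  unfold ce rot eP
  simp

theorem eQ_rapid (h : Setup β θ N φ ϖ m₀ ρ A k x y z a e) {t₀ : ℝ} (ht : t₀ ∈ Ioo 0 (TT ρ)) :
    Rapid (kc m₀) (eQ A k y z t₀) := by
  intro M
  obtain ⟨C, hC'⟩ := (TC_cc h).rapid ht M
  have hC : ∀ j, |cc A k x y z j t₀| * kc m₀ j ^ M ≤ C := hC'
  have hC0 : 0 ≤ C := (by
    have := hC 0
    have h1 : 0 < kc m₀ 0 := Kf_pos _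
    have h2 : 0 ≤ |cc A k x y z 0 t₀| * kc m₀ 0 ^ M := by positivity
    linarith)
  refine ⟨C, fun j => ?_⟩
  obtain ⟨s, rfl | rfl | rfl⟩ := t3_cases j
  · have h1 := hC (3 * s + 1)
    have h2 : cc A k x y z (3 * s + 1) t₀ = cZ A k z s t₀ := by unfold cc; rw [t3_1]
    have h3 : kc m₀ (3 * s + 1) = kc m₀ (3 * s) := by
      unfold kc
      rw [show (3 * s + 1) / 3 = 3 * s / 3 by omega]
    rw [h2, h3] at h1
    unfold eQ
    rw [t3_0, abs_neg]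
    exact h1
  · have h1 := hC (3 * s)
    have h2 : cc A k x y z (3 * s) t₀ = cY A y s t₀ := by unfold cc; rw [t3_0]
    have h3 : kc m₀ (3 * s) = kc m₀ (3 * s + 1) := by
      unfold kc
      rw [show (3 * s + 1) / 3 = 3 * s / 3 by omega]
    rw [h2, h3] at h1
    unfold eQ
    rw [t3_1]
    exact h1
  · unfold eQ
    rw [t3_2, abs_zero, zero_mul]
    exact hC0

theorem eO_bd (h : Setup β θ N φ ϖ m₀ ρ A k x y z a e) {t₀ : ℝ} (ht : t₀ ∈ Ioo 0 (TT ρ)) :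
    ∃ (C : ℝ) (p : ℕ), ∀ j, |eO N m₀ A k x t₀ j| ≤ C * kc m₀ j ^ p := by
  obtain ⟨CN, hCN, hN⟩ := h.modes.N_le
  obtain ⟨c, hc, hN'⟩ := h.modes.N_ge
  obtain ⟨C, hC⟩ := (TC_fam h (al_cX h)).rapid ht 0
  obtain ⟨p, hp⟩ := exists_nat_ge (2 * θ)
  have hC0 : 0 ≤ C := (abs_nonneg (cX A k x 0 t₀)).trans (by simpa using hC 0)
  have key : ∀ s, |om N m₀ A k x t₀ s| ≤ CN * C * Kf (s + m₀) ^ p := by
    intro s
    have hK := Kf_pos (s + m₀)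
    unfold om
    split_ifs with h0
    · rw [abs_zero]
      positivity
    · have h1 := hN (s + m₀)
      have h2 : 0 ≤ N (s + m₀) := by
        have h3 := hN' (s + m₀)
        have h4 := Real.rpow_pos_of_pos hK (2 * θ)
        have : 0 < c * Kf (s + m₀) ^ (2 * θ) := by positivity
        linarith
      have h3 : |cX A k x s t₀| ≤ C := by simpa using hC s
      have h4 : Kf (s + m₀) ^ (2 * θ) ≤ Kf (s + m₀) ^ p := by
        rw [← Real.rpow_natCast]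
        exact Real.rpow_le_rpow_of_exponent_le (Kf_one_le _) hp
      rw [abs_mul, abs_of_nonneg h2]
      calc N (s + m₀) * |cX A k x s t₀| ≤ (CN * Kf (s + m₀) ^ p) * C := by
            gcongr
            exact h1.trans (by gcongr)
        _ = _ := by ring
  refine ⟨CN * C, p, fun j => ?_⟩
  obtain ⟨s, rfl | rfl | rfl⟩ := t3_cases j
  · have h1 := key s
    unfold eO kc
    rw [t3_0, show 3 * s / 3 = s by omega]
    exact h1
  · have h1 := key s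
    unfold eO kc
    rw [t3_1, show (3 * s + 1) / 3 = s by omega]
    exact h1
  · have hK : 0 < kc m₀ (3 * s + 2) := Kf_pos _
    unfold eO
    rw [t3_2, abs_zero]
    positivity

theorem TC_ce (h : Setup β θ N φ ϖ m₀ ρ A k x y z a e) {t₀ : ℝ} (ht : t₀ ∈ Ioo 0 (TT ρ))
    (b c : ℝ) : TC (kc m₀) b c (ce N m₀ A k x y z t₀) := by
  obtain ⟨C, p, hC⟩ := eO_bd h ht
  exact rot_TC (fun j => Kf_one_le _) ((TC_cc h).rapid ht) (eQ_rapid h ht) hC b c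

/-- The Euler solution. -/
def UE (φ : Fin 3 → ℕ → V → V) (N : ℕ → ℝ) (m₀ : ℕ) (A : ℕ → ℝ) (k : ℝ) (x y z : ℕ → ℝ → ℝ)
    (t₀ t : ℝ) : V → V := ser (fun j => ce N m₀ A k x y z t₀ j t) (cm φ m₀)

theorem UE_zero (t₀ : ℝ) : UE φ N m₀ A k x y z t₀ 0 = UU φ m₀ A k x y z t₀ := by
  unfold UE UU
  simp only [ce_zero]

theorem UE_sf (h : Setup β θ N φ ϖ m₀ ρ A k x y z a e) {t₀ : ℝ} (ht : t₀ ∈ Ioo 0 (TT ρ)) (t : ℝ) :
    SF (UE φ N m₀ A k x y z t₀ t) :=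
  ser_sf h.chain ((TC_ce h ht (t - 1) (t + 1)).rapid ⟨by linarith, by linarith⟩)

theorem UE_hs (h : Setup β θ N φ ϖ m₀ ρ A k x y z a e) {t₀ : ℝ} (ht : t₀ ∈ Ioo 0 (TT ρ)) (s : ℝ) :
    ∃ C : ℝ, ∀ t, hs s (UE φ N m₀ A k x y z t₀ t) ≤ ENNReal.ofReal C := by
  obtain ⟨C, hC0, hC⟩ := ser_hs_bound h.chain (s := s) (t := s + 1) (by linarith)
  obtain ⟨M, hM⟩ := exists_nat_ge (s + 1)
  obtain ⟨D₁, hD₁⟩ := (TC_cc h).rapid ht M
  obtain ⟨D₂, hD₂⟩ := eQ_rapid h ht M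
  refine ⟨C * (D₁ + D₂) ^ 2, fun t => hC _ _ ((TC_ce h ht (t - 1) (t + 1)).rapid
    ⟨by linarith, by linarith⟩) (sq_nonneg _) fun j => ?_⟩
  have hK : 0 < kc m₀ j := Kf_pos _
  have h1 : |ce N m₀ A k x y z t₀ j t| ≤ |eP A k x y z t₀ j| + |eQ A k y z t₀ j| := by
    have := rot_iter (eO N m₀ A k x t₀ j) 0 (eP A k x y z t₀ j) (eQ A k y z t₀ j) t
    rwa [iteratedDeriv_zero, pow_zero, one_mul] at this
  have h2 : |ce N m₀ A k x y z t₀ j t| * kc m₀ j ^ M ≤ D₁ + D₂ := by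
    calc |ce N m₀ A k x y z t₀ j t| * kc m₀ j ^ M ≤
          (|eP A k x y z t₀ j| + |eQ A k y z t₀ j|) * kc m₀ j ^ M := by gcongr
      _ = |eP A k x y z t₀ j| * kc m₀ j ^ M + |eQ A k y z t₀ j| * kc m₀ j ^ M := by ring
      _ ≤ D₁ + D₂ := add_le_add (hD₁ j) (hD₂ j)
  have h3 : (ce N m₀ A k x y z t₀ j t) ^ 2 * (kc m₀ j ^ M) ^ 2 ≤ (D₁ + D₂) ^ 2 := by
    rw [← mul_pow, ← sq_abs, abs_mul, abs_of_pos (by positivity : 0 < kc m₀ j ^ M)]
    exact pow_le_pow_left₀ (by positivity) h2 2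
  have h4 : kc m₀ j ^ (2 * (s + 1)) ≤ (kc m₀ j ^ M) ^ 2 := by
    rw [← pow_mul, ← Real.rpow_natCast]
    apply Real.rpow_le_rpow_of_exponent_le (Kf_one_le _)
    push_cast
    linarith
  have h5 : kc m₀ j ^ (2 * (s + 1)) * kc m₀ j ^ (-(2 * (s + 1))) = 1 := by
    rw [← Real.rpow_add hK, add_neg_cancel, Real.rpow_zero]
  have h6 : 0 < kc m₀ j ^ (-(2 * (s + 1))) := Real.rpow_pos_of_pos hK _
  calc (ce N m₀ A k x y z t₀ j t) ^ 2 = ((ce N m₀ A k x y z t₀ j t) ^ 2 *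
        kc m₀ j ^ (2 * (s + 1))) * kc m₀ j ^ (-(2 * (s + 1))) := by rw [mul_assoc, h5, mul_one]
    _ ≤ ((ce N m₀ A k x y z t₀ j t) ^ 2 * (kc m₀ j ^ M) ^ 2) *
        kc m₀ j ^ (-(2 * (s + 1))) := by gcongr
    _ ≤ _ := by gcongr

theorem UE_smooth (h : Setup β θ N φ ϖ m₀ ρ A k x y z a e) {t₀ : ℝ} (ht : t₀ ∈ Ioo 0 (TT ρ)) :
    ContDiff ℝ ∞ (fun q : ℝ × V => UE φ N m₀ A k x y z t₀ q.1 q.2) := by
  rw [contDiff_iff_contDiffAt]
  intro q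
  have h1 : ContDiffOn ℝ ∞ (fun q : ℝ × V => UE φ N m₀ A k x y z t₀ q.1 q.2)
      (Ioo (q.1 - 1) (q.1 + 1) ×ˢ univ) := by
    refine contDiffOn_pi.2 fun l => ?_
    refine joint_smooth (κ := kc m₀) (fun j => Kf_one_le _) (inv_kc_summable m₀)
      (TC_ce h ht _ _) (f := fun j ξ => cm φ m₀ j ξ l)
      (fun j => ((h.chain.sf j).sp.comp l).1) (fun q => ?_)
    obtain ⟨C, p, hC⟩ := h.chain.bd q
    exact ⟨C, p, fun j ξ => hC j l ξ⟩
  exact h1.contDiffAt ((isOpen_Ioo.prod isOpen_univ).mem_nhds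
    ⟨⟨by linarith, by linarith⟩, mem_univ _⟩)

theorem PE_smooth (h : Setup β θ N φ ϖ m₀ ρ A k x y z a e) {t₀ : ℝ} (ht : t₀ ∈ Ioo 0 (TT ρ)) :
    ContDiff ℝ ∞ (fun q : ℝ × V => PP ϖ m₀ A k x t₀ q.2) := by
  have h1 := PP_smooth h
  have h2 : ContDiff ℝ ∞ (fun q : ℝ × V => ((t₀, q.2) : ℝ × V)) := by fun_prop
  have h3 := h1.comp (s := univ) h2.contDiffOn (fun q _ => ⟨ht, mem_univ _⟩)
  exact contDiffOn_univ.1 h3

theorem euler_at (h : Setup β θ N φ ϖ m₀ ρ A k x y z a e) {t₀ : ℝ} (ht : t₀ ∈ Ioo 0 (TT ρ))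
    (t : ℝ) (ξ : V) (l : Fin 3) :
    HasDerivAt (fun s => UE φ N m₀ A k x y z t₀ s ξ l)
      (-(adv (UE φ N m₀ A k x y z t₀ t) (UE φ N m₀ A k x y z t₀ t) ξ l) -
        pd l (PP ϖ m₀ A k x t₀) ξ) t := by
  have hC := h.chain
  have hT := TC_ce h ht (t - 1) (t + 1)
  have htt : t ∈ Ioo (t - 1) (t + 1) := ⟨by linarith, by linarith⟩
  have hr := hT.rapid htt
  obtain ⟨s, hs1, hs2⟩ := h.modes.loc_chain m₀ ξ
  obtain ⟨C, p, hC1, hCb⟩ := hC.bd0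
  have h1 := ser_time (κ := kc m₀) (fun j => Kf_one_le _) (inv_kc_summable m₀) hT
    (F := fun j => cm φ m₀ j ξ l) (C := C) (p := p) (fun j => hCb j ξ l) htt
  have e0 : (fun s => UE φ N m₀ A k x y z t₀ s ξ l) =
      fun s => ∑' j, ce N m₀ A k x y z t₀ j s * cm φ m₀ j ξ l := rfl
  rw [e0]
  refine h1.congr_deriv ?_
  have hz : ∀ j, j / 3 ≠ s → ∀ l, cm φ m₀ j ξ l = 0 := fun j hj l => (hs1 j hj l 0).1
  rw [tsum_three (s := s) (fun j hj => by rw [hz j hj, mul_zero]), ce_0_deriv, ce_1_deriv,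
    ce_2_deriv]
  set c0 := ce N m₀ A k x y z t₀ (3 * s) t with hc0
  set c1 := ce N m₀ A k x y z t₀ (3 * s + 1) t with hc1
  set c2 := ce N m₀ A k x y z t₀ (3 * s + 2) t with hc2
  have hc2' : c2 = cX A k x s t₀ := by
    rw [hc2, ce_2]
    unfold rot
    simp
  have e2 : ∀ j, UE φ N m₀ A k x y z t₀ t ξ j = c0 * cm φ m₀ (3 * s) ξ j +
      c1 * cm φ m₀ (3 * s + 1) ξ j + c2 * cm φ m₀ (3 * s + 2) ξ j := by
    intro j
    exact tsum_three (F := fun i => ce N m₀ A k x y z t₀ i t * cm φ m₀ i ξ j) (s := s)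
      (fun i hi => by rw [hz i hi, mul_zero])
  have e3 : ∀ j, pd j (fun y' => UE φ N m₀ A k x y z t₀ t y' l) ξ =
      c0 * pd j (fun y' => cm φ m₀ (3 * s) y' l) ξ +
      c1 * pd j (fun y' => cm φ m₀ (3 * s + 1) y' l) ξ +
      c2 * pd j (fun y' => cm φ m₀ (3 * s + 2) y' l) ξ := by
    intro j
    have h2 := (ser_pd hC hr j l ξ).tsum_eq
    unfold UE
    rw [← h2]
    exact tsum_three (F := fun i => ce N m₀ A k x y z t₀ i t *
      pd j (fun y' => cm φ m₀ i y' l) ξ) (s := s)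
      (fun i hi => by rw [(hs1 i hi l j).2, mul_zero])
  rw [adv_expand e2 e3, PP_pd h ht]
  have e4 : ∑' s', cX A k x s' t₀ ^ 2 * (if s' = 0 then 0 else pd l (ϖ (s' + m₀)) ξ) =
      cX A k x s t₀ ^ 2 * (if s = 0 then 0 else pd l (ϖ (s + m₀)) ξ) := by
    refine tsum_eq_single s fun s' hs' => ?_
    by_cases h0 : s' = 0
    · simp [h0]
    · simp only [h0, if_false]
      rw [hs2 s' hs', mul_zero]
  rw [e4, hc2']
  cases s with
  | zero =>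
    have c0' : c0 = 0 := by
      rw [hc0, ce_0]
      unfold rot om
      simp [cY]
    have n1 : cm φ m₀ (3 * 0 + 1) = φ 0 (0 + m₀) := rfl
    have n2 : cm φ m₀ (3 * 0 + 2) = φ 1 (0 + m₀) := rfl
    have o0 : om N m₀ A k x t₀ 0 = 0 := by unfold om; simp
    have a1 := fun i' => h.modes.advV 0 i' (0 + m₀) ξ l (by decide)
    have a2 := fun i' => h.modes.advV 1 i' (0 + m₀) ξ l (by decide)
    rw [c0', n1, n2, o0, a1 0, a1 1, a2 0, a2 1]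
    simp only [if_true]
    ring
  | succ m =>
    obtain ⟨k0, k1, k2⟩ := kd_s m
    have n0 : cm φ m₀ (3 * (m + 1)) = φ 0 (m + 1 + m₀) := by
      unfold cm
      rw [k0, show 3 * (m + 1) / 3 = m + 1 by omega]
    have n1 : cm φ m₀ (3 * (m + 1) + 1) = φ 1 (m + 1 + m₀) := by
      unfold cm
      rw [k1, show (3 * (m + 1) + 1) / 3 = m + 1 by omega]
    have n2 : cm φ m₀ (3 * (m + 1) + 2) = φ 2 (m + 1 + m₀) := by
      unfold cm
      rw [k2, show (3 * (m + 1) + 2) / 3 = m + 1 by omega]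
    have o0 : om N m₀ A k x t₀ (m + 1) = N (m + 1 + m₀) * cX A k x (m + 1) t₀ := by
      unfold om
      rw [if_neg (Nat.succ_ne_zero m)]
    have a1 := fun i' => h.modes.advV 0 i' (m + 1 + m₀) ξ l (by decide)
    have a2 := fun i' => h.modes.advV 1 i' (m + 1 + m₀) ξ l (by decide)
    have a3 := h.modes.advXY (m + 1 + m₀) ξ l
    have a4 := h.modes.advXZ (m + 1 + m₀) ξ l
    have a5 := h.modes.advXX (m + 1 + m₀) ξ l
    rw [n0, n1, n2, o0, a1 0, a1 1, a1 2, a2 0, a2 1, a2 2, a3, a4, a5]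
    simp only [Nat.succ_ne_zero, if_false]
    ring

/-- The global solution of the Euler equations. -/
theorem euler_sol (h : Setup β θ N φ ϖ m₀ ρ A k x y z a e) {t₀ : ℝ} (ht : t₀ ∈ Ioo 0 (TT ρ)) :
    IsSol (fun _ _ => 0) (Ici 0) (UE φ N m₀ A k x y z t₀) (fun _ => PP ϖ m₀ A k x t₀) := by
  refine ⟨((UE_smooth h ht).of_le (by exact_mod_cast le_top)).contDiffOn,
    ((PE_smooth h ht).of_le (by exact_mod_cast le_top)).contDiffOn,
    fun t _ => (UE_sf h ht t).2.1, fun t _ => PP_per h _,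
    fun t _ => (UE_sf h ht t).2.2, fun t htt ξ l => ?_⟩
  have h1 := euler_at h ht t ξ l
  rw [(h1.hasDerivWithinAt).derivWithin ((uniqueDiffOn_Ici 0) t htt)]
  change _ + adv _ _ ξ l + _ = _
  simp only [Pi.zero_apply]
  ring

end

end Pool.Agent.H306.DS
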