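import Pool.Agent.H306.DS.Op2

/-! The linear flow of the chain. -/

noncomputable section

namespace Pool.Agent.H306.DS

open Set MeasureTheory Filter Topology

open scoped Real ContDiff ENNReal ComplexConjugate

open Pool.Agent.H306.CK

/-- The flow of the chain. -/
def fl (d w a : ℕ → ℝ) : ℕ → ℝ → ℝ
  | 0 => fun τ => Real.exp (-(d 0 * τ)) * a 0
  | j + 1 => fun τ => Real.exp (-(d (j + 1) * τ)) *
      (a (j + 1) + w j * ∫ s in (0 : ℝ)..τ, Real.exp (d (j + 1) * s) * fl d w a j s)

section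

variable {d w a : ℕ → ℝ}

theorem fl_cont (d w a : ℕ → ℝ) (j : ℕ) : Continuous (fl d w a j) := by
  induction j with
  | zero => unfold fl; fun_prop
  | succ j ih =>
    unfold fl
    have h1 : Continuous fun s => Real.exp (d (j + 1) * s) * fl d w a j s := by fun_prop
    have h2 : Continuous fun τ => ∫ s in (0 : ℝ)..τ, Real.exp (d (j + 1) * s) * fl d w a j s :=
      continuous_iff_continuousAt.2 fun τ =>
        (h1.integral_hasStrictDerivAt 0 τ).hasDerivAt.continuousAt
    fun_prop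

theorem fl_zero (d w a : ℕ → ℝ) (j : ℕ) : fl d w a j 0 = a j := by
  cases j with
  | zero => simp [fl]
  | succ j => simp [fl]

theorem exp_lin_deriv (c τ : ℝ) : HasDerivAt (fun τ => Real.exp (-(c * τ)))
    (-c * Real.exp (-(c * τ))) τ := by
  have h : HasDerivAt (fun t => Real.exp (-(c * t))) (Real.exp (-(c * τ)) * (-(c * 1))) τ :=
    (((hasDerivAt_id τ).const_mul c).neg).exp
  refine h.congr_deriv ?_
  ring

theorem fl_deriv (d w a : ℕ → ℝ) (j : ℕ) (τ : ℝ) : HasDerivAt (fl d w a j)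
    (-(d j * fl d w a j τ - pw w (fun i => fl d w a i τ) j)) τ := by
  cases j with
  | zero =>
    refine ((exp_lin_deriv (d 0) τ).mul_const (a 0)).congr_deriv ?_
    simp only [fl, pw]
    ring
  | succ j =>
    have hc := fl_cont d w a j
    have h1 : Continuous fun s => Real.exp (d (j + 1) * s) * fl d w a j s := by fun_prop
    have h2 := (h1.integral_hasStrictDerivAt 0 τ).hasDerivAt
    have h3 := (exp_lin_deriv (d (j + 1)) τ).mul ((h2.const_mul (w j)).const_add (a (j + 1)))
    refine h3.congr_deriv ?_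
    have e1 : Real.exp (-(d (j + 1) * τ)) * Real.exp (d (j + 1) * τ) = 1 := by
      rw [← Real.exp_add]; simp
    simp only [fl, pw]
    linear_combination (w j * fl d w a j τ) * e1

/-- The majorants. -/
def bb (r a : ℕ → ℝ) : ℕ → ℝ
  | 0 => |a 0|
  | j + 1 => |a (j + 1)| + r j * bb r a j

/-- The conditions for a tame flow. -/
structure Tame (κ d w r : ℕ → ℝ) : Prop where
  d0 : ∀ j, 0 < d j
  r0 : ∀ j, 0 ≤ r j
  r1 : ∀ j, r j ≤ 1
  wd : ∀ j, |w j| ≤ r j * d (j + 1)
  tm : ∀ t : ℝ, 0 ≤ t → ∃ C : ℝ, ∀ j, r (j + 1) * κ (j + 1) ^ t ≤ C * κ j ^ t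

variable {κ r : ℕ → ℝ}

theorem bb_nonneg (h : Tame κ d w r) (a : ℕ → ℝ) (j : ℕ) : 0 ≤ bb r a j := by
  induction j with
  | zero => exact abs_nonneg _
  | succ j ih =>
    have := h.r0 j
    simp only [bb]
    positivity

theorem fl_le (h : Tame κ d w r) (a : ℕ → ℝ) (j : ℕ) : ∀ τ : ℝ, 0 ≤ τ →
    |fl d w a j τ| ≤ bb r a j := by
  induction j with
  | zero =>
    intro τ hτ
    have hd := h.d0 0
    simp only [fl, bb]
    rw [abs_mul, abs_of_pos (Real.exp_pos _)]
    have h1 : Real.exp (-(d 0 * τ)) ≤ 1 := Real.exp_le_one_iff.2 (by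
      have := mul_nonneg hd.le hτ
      linarith)
    nlinarith [abs_nonneg (a 0)]
  | succ j ih =>
    intro τ hτ
    have hd := h.d0 (j + 1)
    have hb := bb_nonneg h a j
    have hr := h.r0 j
    set D := d (j + 1) with hD
    have hI : ∫ s in (0 : ℝ)..τ, Real.exp (D * s) * bb r a j =
        (Real.exp (D * τ) - 1) / D * bb r a j := by
      have h1 : ∀ s ∈ uIcc (0 : ℝ) τ, HasDerivAt (fun s => Real.exp (D * s) / D * bb r a j)
          (Real.exp (D * s) * bb r a j) s := by
        intro s _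
        have h2 : HasDerivAt (fun t => Real.exp (D * t)) (Real.exp (D * s) * (D * 1)) s :=
          ((hasDerivAt_id s).const_mul D).exp
        refine ((h2.div_const D).mul_const (bb r a j)).congr_deriv ?_
        field_simp
      rw [intervalIntegral.integral_eq_sub_of_hasDerivAt h1
        (Continuous.intervalIntegrable (by fun_prop) _ _)]
      rw [mul_zero, Real.exp_zero]
      ring
    have hN : |∫ s in (0 : ℝ)..τ, Real.exp (D * s) * fl d w a j s| ≤
        (Real.exp (D * τ) - 1) / D * bb r a j := by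
      rw [← hI, ← Real.norm_eq_abs]
      refine intervalIntegral.norm_integral_le_of_norm_le hτ (Eventually.of_forall fun s hs => ?_)
        (Continuous.intervalIntegrable (by fun_prop) _ _)
      rw [norm_mul, Real.norm_eq_abs, Real.norm_eq_abs, abs_of_pos (Real.exp_pos _)]
      have := ih s hs.1.le
      gcongr
    have e1 : Real.exp (-(D * τ)) * Real.exp (D * τ) = 1 := by
      rw [← Real.exp_add]; simp
    have h1 : Real.exp (-(D * τ)) ≤ 1 := Real.exp_le_one_iff.2 (by
      have := mul_nonneg hd.le hτ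
      linarith)
    have hp := Real.exp_pos (-(D * τ))
    have hw := h.wd j
    simp only [fl, bb]
    rw [abs_mul, abs_of_pos hp]
    calc Real.exp (-(D * τ)) * |a (j + 1) + w j * ∫ s in (0 : ℝ)..τ, Real.exp (D * s) *
          fl d w a j s| ≤ Real.exp (-(D * τ)) * (|a (j + 1)| + |w j| *
            ((Real.exp (D * τ) - 1) / D * bb r a j)) := by
          gcongr
          refine (abs_add_le _ _).trans ?_
          rw [abs_mul]
          gcongr
      _ ≤ Real.exp (-(D * τ)) * (|a (j + 1)| + (r j * D) *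
            ((Real.exp (D * τ) - 1) / D * bb r a j)) := by
          have h2 : 0 ≤ Real.exp (D * τ) - 1 := by
            have := Real.add_one_le_exp (D * τ)
            have := mul_nonneg hd.le hτ
            linarith
          gcongr
      _ = Real.exp (-(D * τ)) * |a (j + 1)| + r j * bb r a j *
            (Real.exp (-(D * τ)) * Real.exp (D * τ) - Real.exp (-(D * τ))) := by
          field_simp
      _ ≤ 1 * |a (j + 1)| + r j * bb r a j * 1 := by
          rw [e1]
          gcongr
          linarith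
      _ = _ := by ring

variable {φ : ℕ → V → V}

theorem geo_le (h : Chain κ φ) {G : ℝ} (hG : 0 ≤ G) {ε : ℝ} (hε : 0 < ε) :
    ∃ C : ℝ, 0 < C ∧ ∀ j, G ^ j ≤ C * κ j ^ ε := by
  obtain ⟨p, hp⟩ := pow_unbounded_of_one_lt G (by norm_num : (1 : ℝ) < 4)
  obtain ⟨C, hC⟩ := h.fast (ε / (p + 1)) (by positivity)
  refine ⟨max C 1 ^ (p + 1), by positivity, fun j => ?_⟩
  have hk := h.pos j
  have h1 : G ≤ 4 ^ (p + 1) := hp.le.trans (pow_le_pow_right₀ (by norm_num) (by omega))
  have h2 : (4 : ℝ) ^ j ≤ max C 1 * κ j ^ (ε / (p + 1)) := by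
    have := Real.rpow_pos_of_pos hk (ε / (p + 1))
    exact (hC j).trans (by gcongr; exact le_max_left _ _)
  calc G ^ j ≤ (4 ^ (p + 1)) ^ j := pow_le_pow_left₀ hG h1 j
    _ = (4 ^ j) ^ (p + 1) := by rw [← pow_mul, ← pow_mul, mul_comm]
    _ ≤ (max C 1 * κ j ^ (ε / (p + 1))) ^ (p + 1) := pow_le_pow_left₀ (by positivity) h2 _
    _ = _ := by
        rw [mul_pow, ← Real.rpow_natCast (κ j ^ (ε / (p + 1))), ← Real.rpow_mul hk.le]
        congr 2
        push_cast
        field_simp

/-- The majorants are tame. -/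
theorem bb_le (h : Chain κ φ) (ht : Tame κ d w r) {s t : ℝ} (hst : s < t) : ∃ C : ℝ, 0 < C ∧
    ∀ (a : ℕ → ℝ) (M : ℝ), 0 ≤ M → (∀ j, |a j| ≤ M * κ j ^ (-t)) →
      ∀ j, bb r a j ≤ C * M * κ j ^ (-s) := by
  rcases le_or_gt t 0 with h0 | h0
  · obtain ⟨C, hC0, hC⟩ := geo_le h (by norm_num : (0 : ℝ) ≤ 2) (ε := t - s) (by linarith)
    refine ⟨C, hC0, fun a M hM ha j => ?_⟩
    have key : ∀ j, bb r a j ≤ 2 ^ j * (M * κ j ^ (-t)) := by
      intro j
      induction j with
      | zero => simpa [bb] using ha 0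
      | succ j ih =>
        have h1 := ht.r1 j
        have h2 := bb_nonneg ht a j
        have h3 : κ j ^ (-t) ≤ κ (j + 1) ^ (-t) :=
          Real.rpow_le_rpow (h.pos j).le (h.mono j) (by linarith)
        have h4 : (1 : ℝ) ≤ 2 ^ j := one_le_pow₀ (by norm_num)
        have h5 := Real.rpow_pos_of_pos (h.pos (j + 1)) (-t)
        simp only [bb]
        calc |a (j + 1)| + r j * bb r a j ≤ M * κ (j + 1) ^ (-t) +
              1 * (2 ^ j * (M * κ j ^ (-t))) := by
              gcongr
              exact ha (j + 1)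
          _ ≤ 2 ^ j * (M * κ (j + 1) ^ (-t)) + 1 * (2 ^ j * (M * κ (j + 1) ^ (-t))) :=
              add_le_add (le_mul_of_one_le_left (by positivity) h4) (by gcongr)
          _ = _ := by ring
    have hk := h.pos j
    have h5 := Real.rpow_pos_of_pos hk (-t)
    have e1 : κ j ^ (t - s) * κ j ^ (-t) = κ j ^ (-s) := by
      rw [← Real.rpow_add hk]; congr 1; ring
    calc bb r a j ≤ 2 ^ j * (M * κ j ^ (-t)) := key j
      _ ≤ (C * κ j ^ (t - s)) * (M * κ j ^ (-t)) := by gcongr; exact hC j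
      _ = C * M * (κ j ^ (t - s) * κ j ^ (-t)) := by ring
      _ = _ := by rw [e1]
  · set s₁ := (s + t) / 2 with hs₁
    obtain ⟨C₁, hC₁⟩ := ht.tm t h0.le
    obtain ⟨C₂, hC₂0, hC₂⟩ := shift_pow h (t := s₁ / 2) (τ := t / 2) (by rw [hs₁]; linarith)
    obtain ⟨C₃, hC₃0, hC₃⟩ := geo_le h (by positivity : (0 : ℝ) ≤ 2 + |C₁|) (ε := s₁ - s)
      (by rw [hs₁]; linarith)
    set G := 2 + |C₁| with hG
    have hG2 : 2 ≤ G := by have := abs_nonneg C₁; linarith
    refine ⟨C₂ * C₃ + 1, by positivity, fun a M hM ha j => ?_⟩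
    have hpw : ∀ j, 0 < κ j ^ t := fun j => Real.rpow_pos_of_pos (h.pos j) t
    have ha' : ∀ j, |a j| * κ j ^ t ≤ M := by
      intro j
      have hk := h.pos j
      calc |a j| * κ j ^ t ≤ (M * κ j ^ (-t)) * κ j ^ t := by
            have := hpw j
            gcongr
            exact ha j
        _ = M * (κ j ^ (-t) * κ j ^ t) := by ring
        _ = M := by rw [← Real.rpow_add hk, neg_add_cancel, Real.rpow_zero, mul_one]
    have key : ∀ j, bb r a (j + 1) * κ j ^ t ≤ M * G ^ (j + 1) := by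
      intro j
      induction j with
      | zero =>
        have h1 := ha' 0
        have h2 := ha' 1
        have h3 : κ 0 ^ t ≤ κ 1 ^ t := Real.rpow_le_rpow (h.pos 0).le (h.mono 0) h0.le
        have h4 : |a 1| * κ 0 ^ t ≤ M := (mul_le_mul_of_nonneg_left h3 (abs_nonneg _)).trans h2
        have h5 := ht.r1 0
        have h6 := ht.r0 0
        have h7 : 0 ≤ |a 0| * κ 0 ^ t := by have := hpw 0; positivity
        have h8 : r 0 * (|a 0| * κ 0 ^ t) ≤ 1 * M := mul_le_mul h5 h1 h7 zero_le_one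
        simp only [bb]
        calc (|a (0 + 1)| + r 0 * |a 0|) * κ 0 ^ t = |a 1| * κ 0 ^ t +
              r 0 * (|a 0| * κ 0 ^ t) := by ring
          _ ≤ M * 2 := by linarith
          _ ≤ M * G ^ (0 + 1) := by rw [zero_add, pow_one]; gcongr
      | succ j ih =>
        have h2 := ha' (j + 2)
        have h3 : κ (j + 1) ^ t ≤ κ (j + 2) ^ t :=
          Real.rpow_le_rpow (h.pos _).le (h.mono _) h0.le
        have h4 : |a (j + 2)| * κ (j + 1) ^ t ≤ M :=
          (mul_le_mul_of_nonneg_left h3 (abs_nonneg _)).trans h2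
        have h5 := hC₁ j
        have h6 := bb_nonneg ht a (j + 1)
        have h7 : C₁ ≤ |C₁| := le_abs_self _
        have h8 : (1 : ℝ) ≤ G ^ (j + 1) := one_le_pow₀ (by linarith)
        have h9 := hpw j
        change (|a (j + 2)| + r (j + 1) * bb r a (j + 1)) * κ (j + 1) ^ t ≤ _
        calc (|a (j + 2)| + r (j + 1) * bb r a (j + 1)) * κ (j + 1) ^ t =
              |a (j + 2)| * κ (j + 1) ^ t + (r (j + 1) * κ (j + 1) ^ t) * bb r a (j + 1) := by
              ring
          _ ≤ M + (C₁ * κ j ^ t) * bb r a (j + 1) := by gcongr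
          _ ≤ M + (|C₁| * κ j ^ t) * bb r a (j + 1) := by gcongr
          _ = M + |C₁| * (bb r a (j + 1) * κ j ^ t) := by ring
          _ ≤ M * G ^ (j + 1) + |C₁| * (M * G ^ (j + 1)) := by
              gcongr
              nlinarith
          _ = M * G ^ (j + 1) * (1 + |C₁|) := by ring
          _ ≤ M * G ^ (j + 1) * G := by gcongr; linarith
          _ = _ := by ring
    cases j with
    | zero =>
      have hk := h.pos 0
      have h1 : κ 0 ^ (-t) ≤ κ 0 ^ (-s) :=
        Real.rpow_le_rpow_of_exponent_le (h.one_le 0) (by linarith)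
      have h2 := Real.rpow_pos_of_pos hk (-s)
      simp only [bb]
      calc |a 0| ≤ M * κ 0 ^ (-t) := ha 0
        _ ≤ M * κ 0 ^ (-s) := by gcongr
        _ ≤ (C₂ * C₃ + 1) * M * κ 0 ^ (-s) := by
            have : 0 ≤ C₂ * C₃ * (M * κ 0 ^ (-s)) := by positivity
            nlinarith
    | succ j =>
      have hk := h.pos (j + 1)
      have hk0 := h.pos j
      have h1 : bb r a (j + 1) ≤ M * G ^ (j + 1) * κ j ^ (-t) := by
        rw [Real.rpow_neg hk0.le, ← div_eq_mul_inv, le_div_iff₀ (hpw j)]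
        exact key j
      have h2 := hC₂ j
      rw [show -(2 * (t / 2)) = -t by ring, show -(2 * (s₁ / 2)) = -s₁ by ring] at h2
      have h3 := hC₃ (j + 1)
      have e1 : κ (j + 1) ^ (s₁ - s) * κ (j + 1) ^ (-s₁) = κ (j + 1) ^ (-s) := by
        rw [← Real.rpow_add hk]; congr 1; ring
      have h4 := Real.rpow_pos_of_pos hk (-s₁)
      have h5 := Real.rpow_pos_of_pos hk (-s)
      calc bb r a (j + 1) ≤ M * G ^ (j + 1) * κ j ^ (-t) := h1
        _ ≤ M * (C₃ * κ (j + 1) ^ (s₁ - s)) * (C₂ * κ (j + 1) ^ (-s₁)) := by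
            have := Real.rpow_pos_of_pos hk0 (-t)
            gcongr
        _ = C₂ * C₃ * M * (κ (j + 1) ^ (s₁ - s) * κ (j + 1) ^ (-s₁)) := by ring
        _ = C₂ * C₃ * M * κ (j + 1) ^ (-s) := by rw [e1]
        _ ≤ _ := by
            have : 0 ≤ M * κ (j + 1) ^ (-s) := by positivity
            nlinarith

theorem Rapid.abs (ha : Rapid κ a) : Rapid κ (fun j => |a j|) := fun N => by
  obtain ⟨C, hC⟩ := ha N
  exact ⟨C, fun j => by simpa using hC j⟩

theorem Rapid.of_abs_le {b : ℕ → ℝ} (h : Chain κ φ) (hb : Rapid κ b) (hab : ∀ j, |a j| ≤ |b j|) :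
    Rapid κ a := fun N => by
  obtain ⟨C, hC⟩ := hb N
  exact ⟨C, fun j => (mul_le_mul_of_nonneg_right (hab j) (by
    have := h.pos j; positivity)).trans (hC j)⟩

theorem bb_rapid (h : Chain κ φ) (ht : Tame κ d w r) (ha : Rapid κ a) : Rapid κ (bb r a) := by
  intro N
  obtain ⟨C, hC0, hC⟩ := bb_le h ht (s := (N : ℝ)) (t := ((N + 1 : ℕ) : ℝ)) (by push_cast; linarith)
  obtain ⟨M, hM⟩ := ha (N + 1)
  have hM0 : 0 ≤ M := le_trans (by have := h.pos 0; positivity) (hM 0)
  refine ⟨C * M, fun j => ?_⟩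
  have hk := h.pos j
  have h1 := hC a M hM0 (fun j => by
    have hk := h.pos j
    rw [Real.rpow_neg hk.le, Real.rpow_natCast, ← div_eq_mul_inv, le_div_iff₀ (by positivity)]
    exact hM j) j
  rw [Real.rpow_neg hk.le, Real.rpow_natCast, ← div_eq_mul_inv, le_div_iff₀ (by positivity)] at h1
  rw [abs_of_nonneg (bb_nonneg ht a j)]
  exact h1

end

end Pool.Agent.H306.DS
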