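import Pool.Agent.H306.DS.Ref

/-! The reference modes. -/

noncomputable section

namespace Pool.Agent.H306.DS

open Set MeasureTheory Filter

open scoped Real ContDiff ENNReal ComplexConjugate

open Pool.Agent.H306.CK

/-- The frequencies of the reference modes. -/
def kr (m₀ j : ℕ) : ℕ := 2 ^ ((j / 3 + m₀ + 4) ^ 2) + j % 3

def kv (m₀ j : ℕ) : Fin 3 → ℤ := fun i => if i = 2 then (kr m₀ j : ℤ) else 0

theorem kr_pos (m₀ j : ℕ) : 0 < kr m₀ j := by
  unfold kr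
  have : 0 < 2 ^ ((j / 3 + m₀ + 4) ^ 2) := by positivity
  omega

theorem kr_lt {m₀ i j : ℕ} (h : i / 3 < j / 3) : kr m₀ i < kr m₀ j := by
  unfold kr
  have h1 : (i / 3 + m₀ + 4) ^ 2 + 2 ≤ (j / 3 + m₀ + 4) ^ 2 := by
    have : i / 3 + m₀ + 4 + 1 ≤ j / 3 + m₀ + 4 := by omega
    have h2 := Nat.pow_le_pow_left this 2
    have h3 : (i / 3 + m₀ + 4 + 1) ^ 2 = (i / 3 + m₀ + 4) ^ 2 + 2 * (i / 3 + m₀ + 4) + 1 := by ring
    have h4 : 4 ≤ i / 3 + m₀ + 4 := by omega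
    linarith
  have h2 : 2 ^ ((i / 3 + m₀ + 4) ^ 2 + 2) ≤ 2 ^ ((j / 3 + m₀ + 4) ^ 2) :=
    Nat.pow_le_pow_right (by norm_num) h1
  rw [pow_add] at h2
  have h3 : 0 < 2 ^ ((i / 3 + m₀ + 4) ^ 2) := by positivity
  omega

theorem kr_inj {m₀ i j : ℕ} (h : kr m₀ i = kr m₀ j) : i = j := by
  rcases lt_trichotomy (i / 3) (j / 3) with h1 | h1 | h1
  · exact absurd h (kr_lt h1).ne
  · unfold kr at h
    rw [h1] at h
    omega
  · exact absurd h (kr_lt h1).ne'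

theorem kv_inj {m₀ i j : ℕ} (h : kv m₀ i = kv m₀ j) : i = j := by
  have h1 := congrFun h 2
  simp only [kv, if_true] at h1
  exact kr_inj (by exact_mod_cast h1)

theorem kv_ne_neg (m₀ i j : ℕ) : kv m₀ i ≠ -kv m₀ j := by
  intro h
  have h1 := congrFun h 2
  simp only [kv, if_true, Pi.neg_apply] at h1
  have h2 := kr_pos m₀ i
  have h3 := kr_pos m₀ j
  omega

theorem kc_eq (m₀ j : ℕ) : kc m₀ j = 2 ^ ((j / 3 + m₀ + 4) ^ 2) := rfl

theorem kr_bd (m₀ j : ℕ) : kc m₀ j ≤ kr m₀ j ∧ (kr m₀ j : ℝ) ≤ 3 * kc m₀ j := by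
  have h1 : (1 : ℝ) ≤ kc m₀ j := Kf_one_le _
  have h2 : (kr m₀ j : ℝ) = kc m₀ j + ((j % 3 : ℕ) : ℝ) := by
    rw [kc_eq]; unfold kr; push_cast; ring
  have h3 : ((j % 3 : ℕ) : ℝ) ≤ 2 := by
    have : j % 3 ≤ 2 := by omega
    exact_mod_cast this
  have h4 : (0 : ℝ) ≤ ((j % 3 : ℕ) : ℝ) := Nat.cast_nonneg _
  constructor <;> linarith

theorem W_kv (m₀ j : ℕ) (s : ℝ) : W s (kv m₀ j) = (1 + (kr m₀ j : ℝ) ^ 2) ^ s := by
  unfold W
  congr 2
  rw [Fin.sum_univ_three]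
  simp [kv]

theorem W_kv_le (m₀ : ℕ) (s : ℝ) : ∃ C : ℝ, 0 < C ∧ ∀ j, W s (kv m₀ j) ≤ C * kc m₀ j ^ (2 * s) := by
  refine ⟨10 ^ |s|, by positivity, fun j => ?_⟩
  obtain ⟨h1, h2⟩ := kr_bd m₀ j
  have h0 : (1 : ℝ) ≤ kc m₀ j := Kf_one_le _
  have hp : 0 < kc m₀ j := by linarith
  rw [W_kv]
  have e1 : kc m₀ j ^ (2 * s) = (kc m₀ j ^ 2) ^ s := by
    rw [← Real.rpow_natCast, ← Real.rpow_mul hp.le]; norm_num
  rw [e1]
  have h3 : kc m₀ j ^ 2 ≤ 1 + (kr m₀ j : ℝ) ^ 2 := by nlinarith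
  have h4 : 1 + (kr m₀ j : ℝ) ^ 2 ≤ 10 * kc m₀ j ^ 2 := by nlinarith
  have h5 : 0 < kc m₀ j ^ 2 := by positivity
  rcases le_or_gt 0 s with h | h
  · rw [abs_of_nonneg h, ← Real.mul_rpow (by norm_num) h5.le]
    exact Real.rpow_le_rpow (by positivity) h4 h
  · calc (1 + (kr m₀ j : ℝ) ^ 2) ^ s ≤ (kc m₀ j ^ 2) ^ s :=
          Real.rpow_le_rpow_of_nonpos h5 h3 h.le
      _ ≤ 10 ^ |s| * (kc m₀ j ^ 2) ^ s := by
          have h6 : (1 : ℝ) ≤ 10 ^ |s| := Real.one_le_rpow (by norm_num) (abs_nonneg _)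
          have h7 := Real.rpow_pos_of_pos h5 s
          nlinarith

/-- The amplitude of the reference modes. -/
def cE : ℝ := Real.sqrt (2 / (2 * π) ^ 3)

theorem cE_sq : cE * cE = 2 / (2 * π) ^ 3 := by
  have := Real.pi_pos
  unfold cE
  exact Real.mul_self_sqrt (by positivity)

theorem cE_nonneg : 0 ≤ cE := Real.sqrt_nonneg _

/-- The reference modes. -/
def er (m₀ j : ℕ) (x : V) : V := fun i => if i = 0 then tg (cE : ℂ) (kv m₀ j) x else 0

theorem er_zero (m₀ j : ℕ) : (fun x => er m₀ j x 0) = tg (cE : ℂ) (kv m₀ j) := by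
  ext x; simp [er]

theorem er_ne (m₀ j : ℕ) {i : Fin 3} (hi : i ≠ 0) : (fun x => er m₀ j x i) = fun _ => 0 := by
  ext x; simp [er, hi]

theorem er_comp (m₀ j : ℕ) (i : Fin 3) : SPf (fun x => er m₀ j x i) := by
  by_cases hi : i = 0
  · subst hi
    rw [er_zero]
    exact ⟨tg_contDiff _ _, tg_per _ _⟩
  · rw [er_ne m₀ j hi]
    exact ⟨contDiff_const, fun _ _ => rfl⟩

theorem er_sf (m₀ j : ℕ) : SF (er m₀ j) := by
  refine ⟨contDiff_pi.2 fun i => (er_comp m₀ j i).1, fun l x => ?_, fun x => ?_⟩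
  · ext i
    exact (er_comp m₀ j i).2 l x
  · refine Finset.sum_eq_zero fun i _ => ?_
    by_cases hi : i = 0
    · subst hi
      have h1 : (fun y => er m₀ j y 0) = tg (cE : ℂ) (kv m₀ j) := er_zero m₀ j
      rw [h1, tg_pd]
      have h2 : kv m₀ j 0 = 0 := by simp [kv]
      rw [h2]
      simp [tg]
    · have h1 : (fun y => er m₀ j y i) = fun _ => 0 := er_ne m₀ j hi
      rw [h1]
      simp [CK.pd]

/-- Coefficients with respect to the reference modes. -/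
theorem inner_er (m₀ j : ℕ) {v : V → V} (hv : CP v) :
    inner3 (er m₀ j) v = cE * (fc (fun x => v x 0) (kv m₀ j)).re := by
  have h1 : ∀ x, ∑ i, er m₀ j x i * v x i = cE * (v x 0 * Real.cos (kx (kv m₀ j) x)) := by
    intro x
    rw [Fin.sum_univ_three]
    simp only [er, if_true]
    rw [if_neg (by decide), if_neg (by decide)]
    unfold tg
    rw [Complex.ofReal_re, Complex.ofReal_im]
    ring
  unfold inner3
  simp only [h1]
  rw [integral_const_mul, fc_parts _ (hv.comp_continuous 0)]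
  congr 1
  simp [Complex.sub_re, Complex.mul_re]

theorem er_ortho (m₀ i j : ℕ) : inner3 (er m₀ i) (er m₀ j) = if i = j then 1 else 0 := by
  have hpi := Real.pi_pos
  rw [inner_er m₀ i (er_sf m₀ j).cp, er_zero, fc_tg]
  by_cases hij : i = j
  · subst hij
    rw [if_pos rfl, if_neg (kv_ne_neg m₀ i i), if_pos rfl, add_zero]
    have h1 : (((2 * π : ℝ) : ℂ) ^ 3 / 2 * (cE : ℂ)) = (((2 * π) ^ 3 / 2 * cE : ℝ) : ℂ) := by
      push_cast; ring
    rw [h1, Complex.ofReal_re]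
    have h2 := cE_sq
    have h3 : cE * ((2 * π) ^ 3 / 2 * cE) = (2 * π) ^ 3 / 2 * (cE * cE) := by ring
    rw [h3, h2]
    field_simp
  · rw [if_neg (fun h => hij (kv_inj h)), if_neg (kv_ne_neg m₀ i j), if_neg hij]
    simp

/-- Orthogonality to fields which do not depend on the third variable. -/
theorem er_orth (m₀ j : ℕ) {v : V → V} (hv : SP v) (h : ∀ l x, pd 2 (fun y => v y l) x = 0) :
    inner3 (er m₀ j) v = 0 := by
  rw [inner_er m₀ j hv.cp]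
  have h1 := fc_pd (hv.comp 0).c1 (hv.comp 0).2 2 (kv m₀ j)
  have h2 : pd 2 (fun y => v y 0) = fun _ => 0 := by ext x; exact h 0 x
  have h3 : fc (fun _ => (0 : ℝ)) (kv m₀ j) = 0 := by unfold fc; simp
  rw [h2, h3] at h1
  have h4 : ((kv m₀ j 2 : ℤ) : ℂ) ≠ 0 := by
    have := kr_pos m₀ j
    simp only [kv, if_true]
    exact_mod_cast this.ne'
  have h5 : fc (fun x => v x 0) (kv m₀ j) = 0 := by
    rcases mul_eq_zero.1 h1.symm with h6 | h6
    · exact absurd h6 (mul_ne_zero Complex.I_ne_zero h4)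
    · exact h6
  rw [h5]
  simp

theorem er_hs (m₀ : ℕ) (s : ℝ) : ∃ C : ℝ, 0 < C ∧ ∀ j,
    hs s (er m₀ j) ≤ ENNReal.ofReal (C * kc m₀ j ^ (2 * s)) := by
  have hpi := Real.pi_pos
  obtain ⟨C, hC0, hC⟩ := W_kv_le m₀ s
  set D : ℝ := 4 * ((2 * π) ^ 3 / 2 * cE) ^ 2 + 1 with hD
  refine ⟨D * C, by positivity, fun j => ?_⟩
  set k₀ := kv m₀ j with hk₀
  have hWn : W s (-k₀) = W s k₀ := W_neg s k₀
  have hb : ∀ k, ENNReal.ofReal (W s k * ∑ i, ‖fc (fun x => er m₀ j x i) k‖ ^ 2) ≤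
      (if k = k₀ then ENNReal.ofReal (2 * ((2 * π) ^ 3 / 2 * cE) ^ 2 * W s k₀) else 0) +
      (if k = -k₀ then ENNReal.ofReal (2 * ((2 * π) ^ 3 / 2 * cE) ^ 2 * W s k₀) else 0) := by
    intro k
    have h0 : fc (fun _ => (0 : ℝ)) k = 0 := by unfold fc; simp
    rw [Fin.sum_univ_three, er_zero, er_ne m₀ j (by decide : (1 : Fin 3) ≠ 0),
      er_ne m₀ j (by decide : (2 : Fin 3) ≠ 0), h0, fc_tg]
    have hn : ‖((2 * π : ℝ) : ℂ) ^ 3 / 2‖ = (2 * π) ^ 3 / 2 := by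
      rw [norm_div, norm_pow, Complex.norm_real, Real.norm_eq_abs, abs_of_pos (by positivity)]
      norm_num
    have hcn : ‖(cE : ℂ)‖ = cE := by
      rw [Complex.norm_real, Real.norm_eq_abs, abs_of_nonneg cE_nonneg]
    by_cases h1 : k = k₀
    · have h2 : k ≠ -k₀ := by rw [h1]; exact kv_ne_neg m₀ j j
      rw [if_pos h1, if_neg h2, if_pos h1, if_neg h2, add_zero, add_zero, h1, norm_mul, hn, hcn]
      apply ENNReal.ofReal_le_ofReal
      have hW := W_pos s k₀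
      simp only [norm_zero]
      nlinarith [mul_nonneg hW.le (sq_nonneg ((2 * π) ^ 3 / 2 * cE))]
    · by_cases h2 : k = -k₀
      · rw [if_neg h1, if_pos h2, if_neg h1, if_pos h2, zero_add, zero_add, h2, norm_mul, hn,
          Complex.norm_conj, hcn, hWn]
        apply ENNReal.ofReal_le_ofReal
        have hW := W_pos s k₀
        simp only [norm_zero]
        nlinarith [mul_nonneg hW.le (sq_nonneg ((2 * π) ^ 3 / 2 * cE))]
      · rw [if_neg h1, if_neg h2]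
        simp
  rw [hs_def]
  refine (ENNReal.tsum_le_tsum hb).trans ?_
  rw [ENNReal.tsum_add, tsum_ite_eq, tsum_ite_eq, ← ENNReal.ofReal_add (by
    have := W_pos s k₀; positivity) (by have := W_pos s k₀; positivity)]
  apply ENNReal.ofReal_le_ofReal
  have hW := W_pos s k₀
  have h1 := hC j
  calc 2 * ((2 * π) ^ 3 / 2 * cE) ^ 2 * W s k₀ + 2 * ((2 * π) ^ 3 / 2 * cE) ^ 2 * W s k₀ ≤
        D * W s k₀ := by rw [hD]; nlinarith
    _ ≤ D * (C * kc m₀ j ^ (2 * s)) := by gcongr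
    _ = _ := by ring

section

variable {θ : ℝ} {N : ℕ → ℝ} {φ : Fin 3 → ℕ → V → V} {ϖ : ℕ → V → ℝ}

theorem er_chain (h : Modes θ N φ ϖ) (m₀ : ℕ) : Chain (kc m₀) (er m₀) where
  one_le := (h.chain m₀).one_le
  fast := (h.chain m₀).fast
  next := (h.chain m₀).next
  mono := (h.chain m₀).mono
  sf := er_sf m₀
  bd := fun q => by
    refine ⟨30 ^ q * cE, 2 * q, fun j l x => ?_⟩
    have hc0 := cE_nonneg
    have hk := (h.chain m₀).one_le j
    by_cases hl : l = 0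
    · subst hl
      have h1 : (fun y => er m₀ j y 0) = tg (cE : ℂ) (kv m₀ j) := er_zero m₀ j
      rw [h1]
      refine (tg_iter (kv m₀ j) q _ x).trans ?_
      have h2 : W 1 (kv m₀ j) ≤ 10 * kc m₀ j ^ 2 := by
        rw [W_kv, Real.rpow_one]
        obtain ⟨h3, h4⟩ := kr_bd m₀ j
        nlinarith
      have h3 := W_pos 1 (kv m₀ j)
      rw [Complex.norm_real, Real.norm_eq_abs, abs_of_nonneg hc0, pow_mul]
      calc (3 * W 1 (kv m₀ j)) ^ q * cE ≤ (3 * (10 * kc m₀ j ^ 2)) ^ q * cE := by gcongr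
        _ = 30 ^ q * cE * (kc m₀ j ^ 2) ^ q := by
            rw [show 3 * (10 * kc m₀ j ^ 2) = 30 * kc m₀ j ^ 2 by ring, mul_pow]; ring
    · have h1 : (fun y => er m₀ j y l) = fun _ => 0 := er_ne m₀ j hl
      rw [h1]
      have h2 : iteratedFDeriv ℝ q (fun _ : V => (0 : ℝ)) x = 0 := by
        have := iteratedFDeriv_fun_zero (𝕜 := ℝ) (E := V) (F := ℝ) (n := q)
        exact congrFun this x
      rw [h2, norm_zero]
      positivity
  ortho := er_ortho m₀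
  four := er_hs m₀

theorem cm_er (h : Modes θ N φ ϖ) (m₀ i j : ℕ) : inner3 (cm φ m₀ i) (er m₀ j) = 0 := by
  rw [inner_comm]
  exact er_orth m₀ j (h.sf _ _).sp fun l x => h.z2 _ _ l x

end

/-- Multipliers and the reference modes. -/
theorem coef_er_MG {m : (Fin 3 → ℤ) → ℝ} (hm : Mb m) {v : V → V} (hv : SP v) (m₀ j : ℕ) :
    coef (er m₀) (MG m v) j = m (kv m₀ j) * coef (er m₀) v j := by
  unfold coef
  rw [inner_er m₀ j (MG_sp hm hv).cp, inner_er m₀ j hv.cp, fc_MG hm hv, Complex.re_ofReal_mul]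
  ring

end Pool.Agent.H306.DS
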