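import Pool.Agent.H306.DS.Flow1
import Pool.Agent.H306.DS.Ref2

/-! The linear flow. -/

noncomputable section

namespace Pool.Agent.H306.DS

open Set MeasureTheory Filter Topology

open scoped Real ContDiff ENNReal ComplexConjugate

open Pool.Agent.H306.CK

/-- The remainder of first order. -/
def rmd (G : ℝ → V → V) (g : V → V) (τ τ' : ℝ) (x : V) : V := fun i =>
  1 * (1 * G τ' x i + (-1) * G τ x i) + (-(τ' - τ)) * g x i

/-- Differentiability in all Sobolev spaces. -/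
def SD (G : ℝ → V → V) (g : V → V) (τ : ℝ) : Prop :=
  ∀ s : ℝ, ∃ C : ℝ, 0 ≤ C ∧ ∀ τ' : ℝ, 0 ≤ τ' →
    hs s (rmd G g τ τ') ≤ ENNReal.ofReal (C * (τ' - τ) ^ 4)

section

variable {G G' : ℝ → V → V} {g g' : V → V} {τ : ℝ}

theorem rmd_sp (hG : ∀ τ, 0 ≤ τ → SP (G τ)) (hg : SP g) (hτ : 0 ≤ τ) {τ' : ℝ} (hτ' : 0 ≤ τ') :
    SP (rmd G g τ τ') := comb_sp (comb_sp (hG _ hτ') (hG _ hτ) 1 (-1)) hg 1 (-(τ' - τ))

theorem SD.add (h : SD G g τ) (h' : SD G' g' τ) (hτ : 0 ≤ τ) (hG : ∀ τ, 0 ≤ τ → SP (G τ))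
    (hg : SP g) (hG' : ∀ τ, 0 ≤ τ → SP (G' τ)) (hg' : SP g') :
    SD (fun τ x i => G τ x i + G' τ x i) (fun x i => g x i + g' x i) τ := by
  intro s
  obtain ⟨C, hC0, hC⟩ := h s
  obtain ⟨C', hC'0, hC'⟩ := h' s
  refine ⟨2 * C + 2 * C', by positivity, fun τ' hτ' => ?_⟩
  have h1 := hs_add (t := s) (rmd_sp hG hg hτ hτ').cp (rmd_sp hG' hg' hτ hτ').cp
  have e1 : (fun x => rmd G g τ τ' x + rmd G' g' τ τ' x) =
      rmd (fun τ x i => G τ x i + G' τ x i) (fun x i => g x i + g' x i) τ τ' := by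
    ext x i
    simp only [Pi.add_apply, rmd]
    ring
  rw [e1] at h1
  have h4 : 0 ≤ (τ' - τ) ^ 4 := by positivity
  calc _ ≤ _ := h1
    _ ≤ 2 * ENNReal.ofReal (C * (τ' - τ) ^ 4) + 2 * ENNReal.ofReal (C' * (τ' - τ) ^ 4) := by
        gcongr
        · exact hC τ' hτ'
        · exact hC' τ' hτ'
    _ = _ := by
        rw [two_eq, ← ENNReal.ofReal_mul (by norm_num), ← ENNReal.ofReal_mul (by norm_num),
          ← ENNReal.ofReal_add (by positivity) (by positivity)]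
        congr 1
        ring

theorem SD.uo {κ : ℕ → ℝ} {f : ℕ → V → V} (hf : Chain κ f) (h : SD G g τ) (hτ : 0 ≤ τ)
    (hG : ∀ τ, 0 ≤ τ → SP (G τ)) (hg : SP g) :
    SD (fun τ => Uo f (G τ)) (Uo f g) τ := by
  intro s
  obtain ⟨C₁, hC₁0, hC₁⟩ := Uo_hs hf (s := s) (t := s + 1) (by linarith)
  obtain ⟨C, hC0, hC⟩ := h (s + 1)
  refine ⟨C₁ * C, by positivity, fun τ' hτ' => ?_⟩
  have h1 := hC₁ _ (rmd_sp hG hg hτ hτ')
  have e1 : Uo f (rmd G g τ τ') = rmd (fun τ => Uo f (G τ)) (Uo f g) τ τ' := by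
    have s1 := comb_sp (hG _ hτ') (hG _ hτ) 1 (-1)
    have h2 := Uo_comb hf s1 hg 1 (-(τ' - τ))
    rw [Uo_comb hf (hG _ hτ') (hG _ hτ)] at h2
    exact h2
  rw [e1] at h1
  calc _ ≤ _ := h1
    _ ≤ ENNReal.ofReal C₁ * ENNReal.ofReal (C * (τ' - τ) ^ 4) := by gcongr; exact hC τ' hτ'
    _ = _ := by rw [← ENNReal.ofReal_mul hC₁0.le]; congr 1; ring

theorem SD.point (h : SD G g τ) (hτ : 0 ≤ τ) (hG : ∀ τ, 0 ≤ τ → SP (G τ)) (hg : SP g) (x : V)
    (i : Fin 3) : HasDerivWithinAt (fun τ => G τ x i) (g x i) (Ici 0) τ := by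
  obtain ⟨S, hS0, hS⟩ := sobolev
  obtain ⟨C, hC0, hC⟩ := h 3
  have key : ∀ τ', 0 ≤ τ' → |G τ' x i - G τ x i - (τ' - τ) * g x i| ≤
      Real.sqrt (S * C) * |τ' - τ| ^ 2 := by
    intro τ' hτ'
    have h1 := hS _ (rmd_sp hG hg hτ hτ') x i
    have h2 : hr 3 (rmd G g τ τ') ≤ C * (τ' - τ) ^ 4 :=
      ENNReal.toReal_le_of_le_ofReal (by positivity) (hC τ' hτ')
    have e1 : rmd G g τ τ' x i = G τ' x i - G τ x i - (τ' - τ) * g x i := by
      unfold rmd; ring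
    rw [e1] at h1
    have h3 : (G τ' x i - G τ x i - (τ' - τ) * g x i) ^ 2 ≤
        (Real.sqrt (S * C) * |τ' - τ| ^ 2) ^ 2 := by
      rw [mul_pow, Real.sq_sqrt (by positivity), sq_abs]
      calc _ ≤ S * hr 3 (rmd G g τ τ') := h1
        _ ≤ S * (C * (τ' - τ) ^ 4) := by gcongr
        _ = _ := by ring
    exact abs_le_of_sq_le_sq h3 (by positivity)
  rw [hasDerivWithinAt_iff_isLittleO]
  have h1 : (fun τ' => G τ' x i - G τ x i - (τ' - τ) • g x i) =O[𝓝[Ici 0] τ]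
      fun τ' => (τ' - τ) ^ 2 := by
    refine Asymptotics.IsBigO.of_bound (Real.sqrt (S * C)) ?_
    filter_upwards [self_mem_nhdsWithin] with τ' hτ'
    rw [smul_eq_mul, Real.norm_eq_abs, norm_pow, Real.norm_eq_abs]
    exact key τ' hτ'
  refine h1.trans_isLittleO ?_
  have h2 : Tendsto (fun τ' : ℝ => τ' - τ) (𝓝[Ici 0] τ) (𝓝 0) := by
    have : Tendsto (fun τ' : ℝ => τ' - τ) (𝓝 τ) (𝓝 (τ - τ)) :=
      (continuous_id.sub continuous_const).tendsto τ
    rw [sub_self] at this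
    exact this.mono_left nhdsWithin_le_nhds
  have h3 := Asymptotics.isLittleO_pow_id (𝕜 := ℝ) (n := 2) (by norm_num)
  exact h3.comp_tendsto h2

end

/-! ### The heat part -/

/-- The heat multiplier. -/
def he (ν β τ : ℝ) (k : Fin 3 → ℤ) : ℝ := Real.exp (-(ν * τ * W β k))

theorem he_pos (ν β τ : ℝ) (k : Fin 3 → ℤ) : 0 < he ν β τ k := Real.exp_pos _

theorem he_le {ν τ : ℝ} (hν : 0 ≤ ν) (hτ : 0 ≤ τ) (β : ℝ) (k : Fin 3 → ℤ) : he ν β τ k ≤ 1 := by
  have := W_pos β k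
  exact Real.exp_le_one_iff.2 (by
    have : 0 ≤ ν * τ * W β k := by positivity
    linarith)

theorem Mb_he {ν τ : ℝ} (hν : 0 ≤ ν) (hτ : 0 ≤ τ) (β : ℝ) : Mb (he ν β τ) :=
  ⟨fun k => by unfold he; rw [W_neg], 1, 0, zero_le_one, fun k => by
    rw [abs_of_pos (he_pos _ _ _ _), W_zero, one_mul]; exact he_le hν hτ β k⟩

theorem MG_lin {m m' : (Fin 3 → ℤ) → ℝ} (hm : Mb m) (hm' : Mb m') {a b : ℝ}
    (hc : Mb (fun k => a * m k + b * m' k)) {v : V → V} (hv : SP v) :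
    MG (fun k => a * m k + b * m' k) v = fun x i => a * MG m v x i + b * MG m' v x i := by
  refine fc_ext (MG_sp hc hv) (comb_sp (MG_sp hm hv) (MG_sp hm' hv) a b) fun i k => ?_
  rw [fc_MG hc hv, fc_comb (MG_sp hm hv) (MG_sp hm' hv), fc_MG hm hv, fc_MG hm' hv]
  push_cast
  ring

theorem W_mono0 {M M' : ℝ} (k : Fin 3 → ℤ) : W M k ≤ W (max M M') k ∧ W M' k ≤ W (max M M') k :=
  ⟨W_mono (le_max_left _ _) k, W_mono (le_max_right _ _) k⟩

theorem Mb.comb {m m' : (Fin 3 → ℤ) → ℝ} (hm : Mb m) (hm' : Mb m') (a b : ℝ) :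
    Mb (fun k => a * m k + b * m' k) := by
  obtain ⟨C, M, hC0, hC⟩ := hm.bd
  obtain ⟨C', M', hC'0, hC'⟩ := hm'.bd
  refine ⟨fun k => by rw [hm.even, hm'.even], |a| * C + |b| * C', max M M', by positivity,
    fun k => ?_⟩
  obtain ⟨h1, h2⟩ := W_mono0 (M := M) (M' := M') k
  calc |a * m k + b * m' k| ≤ |a * m k| + |b * m' k| := abs_add_le _ _
    _ = |a| * |m k| + |b| * |m' k| := by rw [abs_mul, abs_mul]
    _ ≤ |a| * (C * W M k) + |b| * (C' * W M' k) := by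
        gcongr
        · exact hC k
        · exact hC' k
    _ ≤ |a| * (C * W (max M M') k) + |b| * (C' * W (max M M') k) := by gcongr
    _ = _ := by ring

theorem exp_rem {x y : ℝ} (hx : 0 ≤ x) (hy : 0 ≤ y) :
    |Real.exp (-y) - Real.exp (-x) + (y - x) * Real.exp (-x)| ≤ (y - x) ^ 2 := by
  set δ := y - x with hδ
  have hyx : y = x + δ := by rw [hδ]; ring
  have e1 : Real.exp (-y) = Real.exp (-x) * Real.exp (-δ) := by
    rw [← Real.exp_add]; congr 1; rw [hyx]; ring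
  have hpx := Real.exp_pos (-x)
  have h0 : 0 ≤ Real.exp (-δ) - 1 + δ := by linarith [Real.add_one_le_exp (-δ)]
  have e2 : Real.exp (-y) - Real.exp (-x) + δ * Real.exp (-x) =
      Real.exp (-x) * (Real.exp (-δ) - 1 + δ) := by rw [e1]; ring
  rw [e2, abs_of_nonneg (by positivity)]
  rcases le_or_gt 0 δ with h | h
  · have h1 : Real.exp (-x) ≤ 1 := Real.exp_le_one_iff.2 (by linarith)
    have h2 : Real.exp (-δ) ≤ 1 - δ + δ ^ 2 := by
      have h3 := Real.add_one_le_exp δ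
      have h4 : Real.exp (-δ) * Real.exp δ = 1 := by rw [← Real.exp_add]; simp
      have h5 := Real.exp_pos (-δ)
      have h6 : Real.exp (-δ) * (δ + 1) ≤ 1 := by
        calc Real.exp (-δ) * (δ + 1) ≤ Real.exp (-δ) * Real.exp δ := by gcongr
          _ = 1 := h4
      have h7 : 1 ≤ (1 - δ + δ ^ 2) * (δ + 1) := by nlinarith [pow_nonneg h 3]
      have h8 : Real.exp (-δ) * (δ + 1) ≤ (1 - δ + δ ^ 2) * (δ + 1) := h6.trans h7
      exact le_of_mul_le_mul_right h8 (by linarith)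
    nlinarith
  · have h1 : Real.exp (-x) ≤ Real.exp δ := Real.exp_le_exp.2 (by linarith)
    have h4 : Real.exp δ * Real.exp (-δ) = 1 := by rw [← Real.exp_add]; simp
    have h5 := Real.add_one_le_exp δ
    have h6 := Real.exp_pos δ
    calc Real.exp (-x) * (Real.exp (-δ) - 1 + δ) ≤ Real.exp δ * (Real.exp (-δ) - 1 + δ) := by
          gcongr
      _ = 1 - Real.exp δ * (1 - δ) := by linear_combination h4
      _ ≤ 1 - (δ + 1) * (1 - δ) := by
          have : 0 ≤ 1 - δ := by linarith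
          nlinarith
      _ = δ ^ 2 := by ring

theorem W_pow4 (β : ℝ) (k : Fin 3 → ℤ) : W β k ^ 4 = W (4 * β) k := by
  have : W β k ^ 4 = W β k * W β k * (W β k * W β k) := by ring
  rw [this, ← W_add, ← W_add]
  congr 1
  ring

theorem SD_heat {ν β τ : ℝ} (hν : 0 ≤ ν) (hτ : 0 ≤ τ) {v : V → V} (hv : SP v) :
    SD (fun τ => MG (he ν β τ) v) (fun x i => (-ν) * FA β (MG (he ν β τ) v) x i +
      0 * FA β (MG (he ν β τ) v) x i) τ := by
  intro s
  refine ⟨ν ^ 4 * hr (s + 4 * β) v, mul_nonneg (by positivity) (hr_nonneg _ _), fun τ' hτ' => ?_⟩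
  have m1 := Mb_he hν hτ β
  have m2 := Mb_he hν hτ' β
  have mW := Mb_W β
  have m3 := mW.mul m1
  have m4 := m2.comb m1 1 (-1)
  have m5 := m4.comb m3 1 ((τ' - τ) * ν)
  have e1 : rmd (fun τ => MG (he ν β τ) v) (fun x i => (-ν) * FA β (MG (he ν β τ) v) x i +
      0 * FA β (MG (he ν β τ) v) x i) τ τ' =
      MG (fun k => 1 * (1 * he ν β τ' k + (-1) * he ν β τ k) +
        ((τ' - τ) * ν) * (W β k * he ν β τ k)) v := by
    rw [MG_lin m4 m3 m5 hv, MG_lin m2 m1 m4 hv]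
    have e2 : FA β (MG (he ν β τ) v) = MG (fun k => W β k * he ν β τ k) v := MG_MG mW m1 hv
    ext x i
    unfold rmd
    rw [e2]
    ring
  rw [e1]
  have h1 := hs_MG_le m5 hv (C := ν ^ 4 * (τ' - τ) ^ 4) (s := s) (t := s + 4 * β) (fun k => ?_)
    (by positivity)
  · refine h1.trans (le_of_eq ?_)
    rw [← ofReal_hr hv, ← ENNReal.ofReal_mul (by positivity)]
    congr 1
    ring
  · have hW := W_pos β k
    have hWs := W_pos s k
    have h2 := exp_rem (x := ν * τ * W β k) (y := ν * τ' * W β k) (by positivity) (by positivity)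
    have e3 : 1 * (1 * he ν β τ' k + (-1) * he ν β τ k) + ((τ' - τ) * ν) * (W β k * he ν β τ k) =
        Real.exp (-(ν * τ' * W β k)) - Real.exp (-(ν * τ * W β k)) +
          (ν * τ' * W β k - ν * τ * W β k) * Real.exp (-(ν * τ * W β k)) := by
      unfold he; ring
    rw [e3, W_add, ← W_pow4]
    have h3 : (Real.exp (-(ν * τ' * W β k)) - Real.exp (-(ν * τ * W β k)) +
          (ν * τ' * W β k - ν * τ * W β k) * Real.exp (-(ν * τ * W β k))) ^ 2 ≤
          ((ν * τ' * W β k - ν * τ * W β k) ^ 2) ^ 2 := by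
      rw [← sq_abs]
      exact pow_le_pow_left₀ (abs_nonneg _) h2 2
    calc _ ≤ ((ν * τ' * W β k - ν * τ * W β k) ^ 2) ^ 2 * W s k := by gcongr
      _ = _ := by ring

end Pool.Agent.H306.DS
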