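import Pool.Agent.H306.DS.Flow2

/-! The linear flow: the whole flow. -/

noncomputable section

namespace Pool.Agent.H306.DS

open Set MeasureTheory Filter Topology

open scoped Real ContDiff ENNReal ComplexConjugate

open Pool.Agent.H306.CK

/-- The chain operator on sequences. -/
def dm (d w c : ℕ → ℝ) (j : ℕ) : ℝ := d j * c j - pw w c j

/-- The majorant of the chain operator. -/
def mj (d w b : ℕ → ℝ) (j : ℕ) : ℝ := |d j * b j| + |pw w b j|

section

variable {β : ℝ} {κ : ℕ → ℝ} {φ : ℕ → V → V} {d w r a : ℕ → ℝ}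

theorem mj_nonneg (d w b : ℕ → ℝ) (j : ℕ) : 0 ≤ mj d w b j := by unfold mj; positivity

theorem dm_le {b c : ℕ → ℝ} (hb : ∀ j, |c j| ≤ b j) (j : ℕ) : |dm d w c j| ≤ mj d w b j := by
  have h0 : ∀ j, |c j| ≤ |b j| := fun j => (hb j).trans (le_abs_self _)
  unfold dm mj
  refine (abs_sub _ _).trans (add_le_add ?_ ?_)
  · rw [abs_mul, abs_mul]
    have := h0 j
    gcongr
  · cases j with
    | zero => simp [pw]
    | succ j =>
      simp only [pw]
      rw [abs_mul, abs_mul]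
      have := h0 j
      gcongr

theorem mj_rapid (h : Chain κ φ) (hc : Coefs β κ d w) {b : ℕ → ℝ} (hb : Rapid κ b) :
    Rapid κ (mj d w b) :=
  (d_rapid h hc hb).abs.add h.one_le (pw_rapid h hc hb).abs

theorem fl_rapid (h : Chain κ φ) (ht : Tame κ d w r) (ha : Rapid κ a) {τ : ℝ} (hτ : 0 ≤ τ) :
    Rapid κ (fun j => fl d w a j τ) :=
  Rapid.of_abs_le h (bb_rapid h ht ha) fun j =>
    (fl_le ht a j τ hτ).trans (le_abs_self _)

theorem dm_deriv (d w a : ℕ → ℝ) (j : ℕ) (τ : ℝ) :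
    HasDerivAt (fun τ => dm d w (fun i => fl d w a i τ) j)
      (-dm d w (dm d w (fun i => fl d w a i τ)) j) τ := by
  cases j with
  | zero =>
    have h1 := fl_deriv d w a 0 τ
    simp only [dm, pw]
    refine ((h1.const_mul (d 0)).sub_const 0).congr_deriv ?_
    simp only [pw]
    ring
  | succ j =>
    have h1 := fl_deriv d w a (j + 1) τ
    have h2 := fl_deriv d w a j τ
    simp only [dm, pw]
    refine ((h1.const_mul (d (j + 1))).sub (h2.const_mul (w j))).congr_deriv ?_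
    simp only [pw]
    ring

theorem fl_rem (ht : Tame κ d w r) (a : ℕ → ℝ) (j : ℕ) {τ τ' : ℝ} (hτ : 0 ≤ τ) (hτ' : 0 ≤ τ') :
    |fl d w a j τ' - fl d w a j τ + (τ' - τ) * dm d w (fun i => fl d w a i τ) j| ≤
      mj d w (mj d w (bb r a)) j * (τ' - τ) ^ 2 := by
  set S := mj d w (mj d w (bb r a)) j with hS
  have hS0 : 0 ≤ S := mj_nonneg _ _ _ _
  have hb : ∀ x, 0 ≤ x → |dm d w (dm d w (fun i => fl d w a i x)) j| ≤ S := fun x hx =>
    dm_le (dm_le fun j => fl_le ht a j x hx) j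
  have h1 : ∀ x, 0 ≤ x → |dm d w (fun i => fl d w a i x) j - dm d w (fun i => fl d w a i τ) j| ≤
      S * |x - τ| := by
    intro x hx
    have := Convex.norm_image_sub_le_of_norm_hasDerivWithin_le (s := Ici (0 : ℝ)) (x := τ) (y := x)
      (f := fun τ => dm d w (fun i => fl d w a i τ) j) (C := S)
      (f' := fun τ => -dm d w (dm d w (fun i => fl d w a i τ)) j)
      (fun y _ => (dm_deriv d w a j y).hasDerivWithinAt)
      (fun y hy => by rw [norm_neg]; exact hb y hy) (convex_Ici 0) hτ hx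
    simpa [Real.norm_eq_abs] using this
  have hseg : ∀ x ∈ uIcc τ τ', 0 ≤ x ∧ |x - τ| ≤ |τ' - τ| := by
    intro x hx
    rw [mem_uIcc] at hx
    constructor
    · rcases hx with h | h <;> linarith [h.1]
    · rcases hx with h | h
      · rw [abs_of_nonneg (by linarith [h.1]), abs_of_nonneg (by linarith [h.1, h.2])]
        linarith [h.2]
      · rw [abs_of_nonpos (by linarith [h.2]), abs_of_nonpos (by linarith [h.1, h.2])]
        linarith [h.1]
  have h2 := Convex.norm_image_sub_le_of_norm_hasDerivWithin_le (s := uIcc τ τ') (x := τ) (y := τ')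
    (f := fun x => fl d w a j x + x * dm d w (fun i => fl d w a i τ) j)
    (f' := fun x => -dm d w (fun i => fl d w a i x) j + dm d w (fun i => fl d w a i τ) j)
    (C := S * |τ' - τ|)
    (fun y _ => (((fl_deriv d w a j y).add
      ((hasDerivAt_id y).mul_const (dm d w (fun i => fl d w a i τ) j))).congr_deriv (by
        simp only [dm, one_mul])).hasDerivWithinAt)
    (fun y hy => by
      obtain ⟨h3, h4⟩ := hseg y hy
      rw [Real.norm_eq_abs, ← abs_neg]
      have h5 := h1 y h3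
      have e1 : -(-dm d w (fun i => fl d w a i y) j + dm d w (fun i => fl d w a i τ) j) =
          dm d w (fun i => fl d w a i y) j - dm d w (fun i => fl d w a i τ) j := by ring
      rw [e1]
      exact h5.trans (by gcongr)) (convex_uIcc τ τ') left_mem_uIcc right_mem_uIcc
  rw [Real.norm_eq_abs, Real.norm_eq_abs] at h2
  have e2 : fl d w a j τ' + τ' * dm d w (fun i => fl d w a i τ) j -
      (fl d w a j τ + τ * dm d w (fun i => fl d w a i τ) j) =
      fl d w a j τ' - fl d w a j τ + (τ' - τ) * dm d w (fun i => fl d w a i τ) j := by ring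
  rw [e2, mul_assoc, ← sq, sq_abs] at h2
  exact h2

theorem rapid_sq (h : Chain κ φ) {S : ℕ → ℝ} (hS : Rapid κ S) (t : ℝ) :
    ∃ C : ℝ, 0 ≤ C ∧ ∀ j, S j ^ 2 ≤ C * κ j ^ (-(2 * t)) := by
  obtain ⟨N, hN⟩ := exists_nat_ge t
  obtain ⟨C, hC⟩ := hS N
  refine ⟨C ^ 2, sq_nonneg _, fun j => ?_⟩
  have hk := h.pos j
  have h1 := hC j
  have h2 : (|S j| * κ j ^ N) ^ 2 ≤ C ^ 2 := pow_le_pow_left₀ (by positivity) h1 2
  have h3 : κ j ^ (-(2 * (N : ℝ))) * (κ j ^ N) ^ 2 = 1 := by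
    rw [← pow_mul, ← Real.rpow_natCast, ← Real.rpow_add hk]
    have : -(2 * (N : ℝ)) + ((N * 2 : ℕ) : ℝ) = 0 := by push_cast; ring
    rw [this, Real.rpow_zero]
  have h4 : 0 < κ j ^ (-(2 * (N : ℝ))) := Real.rpow_pos_of_pos hk _
  calc S j ^ 2 = κ j ^ (-(2 * (N : ℝ))) * (|S j| * κ j ^ N) ^ 2 := by
        rw [mul_pow, sq_abs]; linear_combination (-(S j ^ 2)) * h3
    _ ≤ κ j ^ (-(2 * (N : ℝ))) * C ^ 2 := by gcongr
    _ ≤ κ j ^ (-(2 * t)) * C ^ 2 := by
        gcongr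
        exact h.one_le j
    _ = _ := by ring

/-- The chain part of the flow. -/
def Sfl (φ : ℕ → V → V) (d w a : ℕ → ℝ) (τ : ℝ) : V → V := ser (fun j => fl d w a j τ) φ

theorem SD_ser (h : Chain κ φ) (hc : Coefs β κ d w) (ht : Tame κ d w r) (ha : Rapid κ a) {τ : ℝ}
    (hτ : 0 ≤ τ) : SD (Sfl φ d w a)
      (fun x i => (-1) * ser (dm d w (fun i => fl d w a i τ)) φ x i +
        0 * ser (dm d w (fun i => fl d w a i τ)) φ x i) τ := by
  intro s
  obtain ⟨C, hC0, hC⟩ := ser_hs_bound h (s := s) (t := s + 1) (by linarith)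
  have hS : Rapid κ (mj d w (mj d w (bb r a))) := mj_rapid h hc (mj_rapid h hc (bb_rapid h ht ha))
  obtain ⟨C', hC'0, hC'⟩ := rapid_sq h hS (s + 1)
  refine ⟨C * C', by positivity, fun τ' hτ' => ?_⟩
  have r1 := fl_rapid (d := d) (w := w) h ht ha hτ
  have r2 := fl_rapid (d := d) (w := w) h ht ha hτ'
  have r3 : Rapid κ (dm d w (fun i => fl d w a i τ)) := mc_rapid' h hc r1
  have s1 := ser_comb h r2 r1 1 (-1)
  have r4 : Rapid κ (fun j => 1 * fl d w a j τ' + (-1) * fl d w a j τ) := by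
    have := r2.add h.one_le (Rapid.of_abs_le h (a := fun j => -fl d w a j τ) r1
      (fun j => by rw [abs_neg]))
    refine Rapid.of_abs_le h this fun j => le_of_eq ?_
    congr 1
    ring
  have s2 := ser_comb h r4 r3 1 (τ' - τ)
  rw [s1] at s2
  have e1 : rmd (Sfl φ d w a) (fun x i => (-1) * ser (dm d w (fun i => fl d w a i τ)) φ x i +
        0 * ser (dm d w (fun i => fl d w a i τ)) φ x i) τ τ' =
      ser (fun j => 1 * (1 * fl d w a j τ' + (-1) * fl d w a j τ) +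
        (τ' - τ) * dm d w (fun i => fl d w a i τ) j) φ := by
    rw [s2]
    ext x i
    unfold rmd Sfl
    ring
  rw [e1]
  have hrem : ∀ j, |1 * (1 * fl d w a j τ' + (-1) * fl d w a j τ) +
        (τ' - τ) * dm d w (fun i => fl d w a i τ) j| ≤
      mj d w (mj d w (bb r a)) j * (τ' - τ) ^ 2 := by
    intro j
    have := fl_rem ht a j hτ hτ'
    have e2 : 1 * (1 * fl d w a j τ' + (-1) * fl d w a j τ) +
        (τ' - τ) * dm d w (fun i => fl d w a i τ) j =
        fl d w a j τ' - fl d w a j τ + (τ' - τ) * dm d w (fun i => fl d w a i τ) j := by ring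
    rw [e2]
    exact this
  have h1 := hC _ (C' * (τ' - τ) ^ 4) (Rapid.of_abs_le h (b := fun j =>
      mj d w (mj d w (bb r a)) j * (τ' - τ) ^ 2) (hS.of_le h.one_le (p := 0)
        (C := (τ' - τ) ^ 2) (by positivity) fun j => le_of_eq (by
          rw [abs_mul, abs_of_nonneg (sq_nonneg (τ' - τ))]; ring))
      (fun j => (hrem j).trans (le_abs_self _))) (by positivity) (fun j => ?_)
  · refine h1.trans (le_of_eq ?_)
    congr 1
    ring
  · rw [← sq_abs]
    calc _ ≤ (mj d w (mj d w (bb r a)) j * (τ' - τ) ^ 2) ^ 2 :=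
          pow_le_pow_left₀ (abs_nonneg _) (hrem j) 2
      _ = mj d w (mj d w (bb r a)) j ^ 2 * (τ' - τ) ^ 4 := by ring
      _ ≤ (C' * κ j ^ (-(2 * (s + 1)))) * (τ' - τ) ^ 4 := by gcongr; exact hC' j
      _ = _ := by ring

/-- The bound of the chain part. -/
theorem Sfl_hs (h : Chain κ φ) (ht : Tame κ d w r) {s t : ℝ} (hst : s < t) :
    ∃ C : ℝ, 0 < C ∧ ∀ v, SP v → ∀ τ, 0 ≤ τ →
      hs s (Sfl φ d w (coef φ v) τ) ≤ ENNReal.ofReal C * hs t v := by
  set s₁ := (s + t) / 2 with hs₁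
  obtain ⟨C, hC0, hC⟩ := ser_hs_bound h (s := s) (t := s₁) (by rw [hs₁]; linarith)
  obtain ⟨C₁, hC₁0, hC₁⟩ := bb_le h ht (s := s₁) (t := t) (by rw [hs₁]; linarith)
  obtain ⟨C₂, hC₂0, hC₂⟩ := coef_sq h t
  refine ⟨C * (C₁ ^ 2 * C₂), by positivity, fun v hv τ hτ => ?_⟩
  have hh := hr_nonneg t v
  have ha : ∀ j, |coef φ v j| ≤ Real.sqrt (C₂ * hr t v) * κ j ^ (-t) := by
    intro j
    have hk := h.pos j
    have hkp := Real.rpow_pos_of_pos hk (-t)
    have h1 := hC₂ v hv j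
    have e1 : κ j ^ (-(2 * t)) = (κ j ^ (-t)) ^ 2 := by
      rw [← Real.rpow_natCast, ← Real.rpow_mul hk.le]; congr 1; push_cast; ring
    have h2 : coef φ v j ^ 2 ≤ (Real.sqrt (C₂ * hr t v) * κ j ^ (-t)) ^ 2 := by
      rw [mul_pow, Real.sq_sqrt (by positivity), ← e1]
      linarith
    exact abs_le_of_sq_le_sq h2 (by positivity)
  have h3 := hC₁ (coef φ v) _ (Real.sqrt_nonneg _) ha
  have h4 := hC (fun j => fl d w (coef φ v) j τ) (C₁ ^ 2 * C₂ * hr t v)
    (fl_rapid h ht (coef_rapid h hv) hτ) (by positivity) (fun j => ?_)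
  · refine h4.trans (le_of_eq ?_)
    rw [← ofReal_mul_hr hv (by positivity)]
    congr 1
    ring
  · have hk := h.pos j
    have e1 : κ j ^ (-(2 * s₁)) = (κ j ^ (-s₁)) ^ 2 := by
      rw [← Real.rpow_natCast, ← Real.rpow_mul hk.le]; congr 1; push_cast; ring
    rw [← sq_abs]
    calc |fl d w (coef φ v) j τ| ^ 2 ≤ (C₁ * Real.sqrt (C₂ * hr t v) * κ j ^ (-s₁)) ^ 2 :=
          pow_le_pow_left₀ (abs_nonneg _) ((fl_le ht _ j τ hτ).trans (h3 j)) 2
      _ = C₁ ^ 2 * Real.sqrt (C₂ * hr t v) ^ 2 * (κ j ^ (-s₁)) ^ 2 := by ring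
      _ = _ := by rw [Real.sq_sqrt (by positivity), e1]; ring

end

/-- The linear flow. -/
def Eop (f φ : ℕ → V → V) (ν β : ℝ) (d w : ℕ → ℝ) (τ : ℝ) (v : V → V) (x : V) : V := fun i =>
  Uo f (MG (he ν β τ) (Uo f (Rm φ v))) x i + Sfl φ d w (coef φ v) τ x i

section

variable {β ν : ℝ} {κ : ℕ → ℝ} {φ e : ℕ → V → V} {d w r : ℕ → ℝ} {v : V → V}

theorem coef_Rm (h : Chain κ φ) (hv : SP v) (j : ℕ) : coef φ (Rm φ v) j = 0 := by
  have h1 : (fun x i => 1 * v x i + -1 * Pr φ v x i) = Rm φ v := by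
    ext x i; unfold Rm; ring
  have h2 := coef_comb h hv.cp (Pr_sf h hv).cp 1 (-1) j
  rw [h1] at h2
  have h3 : coef φ (Pr φ v) j = coef φ v j := ser_coef h (coef_rapid h hv) j
  rw [h2, h3]
  ring

theorem he_zero (ν β : ℝ) {v : V → V} (hv : SP v) (hν : 0 ≤ ν) : MG (he ν β 0) v = v := by
  have m := Mb_he hν le_rfl β
  refine fc_ext (MG_sp m hv) hv fun i k => ?_
  rw [fc_MG m hv]
  simp [he]

theorem Eop_zero (h : Chain κ φ) (h' : Chain κ e) (ho : ∀ i j, inner3 (φ i) (e j) = 0)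
    (hν : 0 ≤ ν) (hv : SP v) : Eop (ff2 φ e) φ ν β d w 0 v = v := by
  have hf := ff2_chain h h' ho
  have hR := Rm_sp h hv
  ext x i
  unfold Eop
  rw [he_zero ν β (Uo_sp hf hR) hν, Uo_Uo hf hR]
  have h1 : Sfl φ d w (coef φ v) 0 = Pr φ v := by
    unfold Sfl Pr
    congr 1
    ext j
    exact fl_zero d w _ j
  rw [h1]
  unfold Rm
  ring

theorem Eop_sf (h : Chain κ φ) (h' : Chain κ e) (ho : ∀ i j, inner3 (φ i) (e j) = 0)
    (ht : Tame κ d w r) (hν : 0 ≤ ν) (hv : SF v) {τ : ℝ} (hτ : 0 ≤ τ) :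
    SF (Eop (ff2 φ e) φ ν β d w τ v) := by
  have hf := ff2_chain h h' ho
  have h1 := comb_sf (Uo_sf hf (MG_sf (Mb_he hν hτ β) (Uo_sf hf (Rm_sf h hv))))
    (ser_sf h (fl_rapid (d := d) (w := w) h ht (coef_rapid h hv.sp) hτ)) 1 1
  have h2 : (fun x i => 1 * Uo (ff2 φ e) (MG (he ν β τ) (Uo (ff2 φ e) (Rm φ v))) x i +
      1 * ser (fun j => fl d w (coef φ v) j τ) φ x i) = Eop (ff2 φ e) φ ν β d w τ v := by
    ext x i; unfold Eop Sfl; ring
  rwa [h2] at h1

/-- The bounds of the flow. -/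
theorem Eop_hs (h : Chain κ φ) (h' : Chain κ e) (ho : ∀ i j, inner3 (φ i) (e j) = 0)
    (ht : Tame κ d w r) (hν : 0 ≤ ν) {s t : ℝ} (hst : s < t) :
    ∃ C : ℝ, 0 < C ∧ ∀ v, SP v → ∀ τ, 0 ≤ τ →
      hs s (Eop (ff2 φ e) φ ν β d w τ v) ≤ ENNReal.ofReal C * hs t v := by
  have hf := ff2_chain h h' ho
  set δ := (t - s) / 3 with hδ
  have hδ0 : 0 < δ := by rw [hδ]; linarith
  obtain ⟨C₁, hC₁0, hC₁⟩ := Uo_hs hf (s := s) (t := s + δ) (by linarith)
  obtain ⟨C₂, hC₂0, hC₂⟩ := Uo_hs hf (s := s + δ) (t := s + 2 * δ) (by linarith)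
  obtain ⟨C₃, hC₃0, hC₃⟩ := Rm_hs h (s := s + 2 * δ) (t := t) (by rw [hδ]; linarith)
  obtain ⟨C₄, hC₄0, hC₄⟩ := Sfl_hs (d := d) (w := w) h ht hst
  refine ⟨2 * (C₁ * (C₂ * C₃)) + 2 * C₄, by positivity, fun v hv τ hτ => ?_⟩
  have hR := Rm_sp h hv
  have hU := Uo_sp hf hR
  have hm := Mb_he hν hτ β
  have hM := MG_sp hm hU
  have h1 : hs s (Uo (ff2 φ e) (MG (he ν β τ) (Uo (ff2 φ e) (Rm φ v)))) ≤
      ENNReal.ofReal (C₁ * (C₂ * C₃)) * hs t v := by
    have h2 : hs (s + δ) (MG (he ν β τ) (Uo (ff2 φ e) (Rm φ v))) ≤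
        hs (s + δ) (Uo (ff2 φ e) (Rm φ v)) := by
      have := hs_MG_le hm hU (C := 1) (s := s + δ) (t := s + δ) (fun k => by
        have h3 := he_le hν hτ β k
        have h4 := he_pos ν β τ k
        have h5 := W_pos (s + δ) k
        have h6 : he ν β τ k ^ 2 ≤ 1 := by nlinarith
        gcongr) zero_le_one
      simpa using this
    calc _ ≤ ENNReal.ofReal C₁ * hs (s + δ) (MG (he ν β τ) (Uo (ff2 φ e) (Rm φ v))) := hC₁ _ hM
      _ ≤ ENNReal.ofReal C₁ * (ENNReal.ofReal C₂ * (ENNReal.ofReal C₃ * hs t v)) := by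
          gcongr
          exact h2.trans ((hC₂ _ hR).trans (by gcongr; exact hC₃ v hv))
      _ = _ := by
          rw [ENNReal.ofReal_mul hC₁0.le, ENNReal.ofReal_mul hC₂0.le]
          ring
  have h5 := hs_add (t := s) (Uo_sp hf hM).cp
    (ser_CP h (fl_rapid (d := d) (w := w) h ht (coef_rapid h hv) hτ))
  have e1 : (fun x => Uo (ff2 φ e) (MG (he ν β τ) (Uo (ff2 φ e) (Rm φ v))) x +
      ser (fun j => fl d w (coef φ v) j τ) φ x) = Eop (ff2 φ e) φ ν β d w τ v := by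
    ext x i; simp [Eop, Sfl]
  rw [e1] at h5
  calc _ ≤ _ := h5
    _ ≤ 2 * (ENNReal.ofReal (C₁ * (C₂ * C₃)) * hs t v) + 2 * (ENNReal.ofReal C₄ * hs t v) := by
        gcongr
        exact hC₄ v hv τ hτ
    _ = _ := by
        rw [ENNReal.ofReal_add (by positivity) (by positivity),
          ENNReal.ofReal_mul (p := 2) (by norm_num), ENNReal.ofReal_mul (p := 2) (by norm_num),
          ← two_eq]
        ring

/-- The flow solves the linear equation. -/
theorem Eop_deriv (h : Chain κ φ) (h' : Chain κ e) (ho : ∀ i j, inner3 (φ i) (e j) = 0)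
    (hm : ∀ m, Mb m → ∀ v, SP v → ∀ j, coef e v j = 0 → coef e (MG m v) j = 0)
    (hc : Coefs β κ d w) (ht : Tame κ d w r) (hν : 0 ≤ ν) (hv : SP v) {τ : ℝ} (hτ : 0 ≤ τ) (x : V)
    (i : Fin 3) : HasDerivWithinAt (fun τ => Eop (ff2 φ e) φ ν β d w τ v x i)
      (-Dop (fun v => Uo (ff2 φ e) (FA β (Uo (ff2 φ e) v))) ν φ d w
        (Eop (ff2 φ e) φ ν β d w τ v) x i) (Ici 0) τ := by
  have hf := ff2_chain h h' ho
  set f := ff2 φ e with hfd
  have hR := Rm_sp h hv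
  set g := Uo f (Rm φ v) with hg
  have hgs : SP g := Uo_sp hf hR
  have hge : ∀ j, coef e g j = 0 := fun j => by
    rw [hg, hfd, coef_e_Uo h h' ho hR, coef_Rm h hv]
  have hG : ∀ τ, 0 ≤ τ → SP (MG (he ν β τ) g) := fun τ hτ => MG_sp (Mb_he hν hτ β) hgs
  have hM := hG τ hτ
  have hMe : ∀ j, coef e (MG (he ν β τ) g) j = 0 := fun j => hm _ (Mb_he hν hτ β) g hgs j (hge j)
  have hFe : ∀ j, coef e (FA β (MG (he ν β τ) g)) j = 0 := fun j =>
    hm _ (Mb_W β) _ hM j (hMe j)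
  have ha := coef_rapid h hv
  have hcr := fl_rapid (d := d) (w := w) h ht ha hτ
  set c : ℕ → ℝ := fun j => fl d w (coef φ v) j τ with hcd
  have hS : ∀ τ, 0 ≤ τ → SP (Sfl φ d w (coef φ v) τ) := fun τ hτ =>
    (ser_sf h (fl_rapid (d := d) (w := w) h ht ha hτ)).sp
  -- the derivative
  have d1 := (SD_heat (τ := τ) (β := β) hν hτ hgs).uo hf hτ hG (comb_sp (FA_sp hM β) (FA_sp hM β) _ _)
  have d2 := SD_ser h hc ht ha hτ
  have rdm : Rapid κ (dm d w c) := mc_rapid' h hc hcr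
  have sdm := (ser_sf h rdm).sp
  have d3 := d1.add d2 hτ (fun τ hτ => Uo_sp hf (hG τ hτ))
    (Uo_sp hf (comb_sp (FA_sp hM β) (FA_sp hM β) _ _)) hS (comb_sp sdm sdm _ _)
  have d4 := d3.point hτ (fun τ hτ => by
    have := comb_sp (Uo_sp hf (hG τ hτ)) (hS τ hτ) 1 1
    simpa only [one_mul] using this) (by
    have := comb_sp (Uo_sp hf (comb_sp (FA_sp hM β) (FA_sp hM β) (-ν) 0)) (comb_sp sdm sdm (-1) 0)
      1 1
    simpa only [one_mul] using this) x i
  refine d4.congr_deriv ?_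
  -- the operator
  have hE : ∀ j, coef φ (Eop f φ ν β d w τ v) j = c j := by
    intro j
    have h1 : (fun x i => 1 * Uo f (MG (he ν β τ) g) x i + 1 * Sfl φ d w (coef φ v) τ x i) =
        Eop f φ ν β d w τ v := by
      ext x i; unfold Eop; ring
    have h2 := coef_comb h (Uo_sp hf hM).cp (hS τ hτ).cp 1 1 j
    rw [h1] at h2
    have h3 : coef φ (Uo f (MG (he ν β τ) g)) j = 0 := by
      rw [hfd, coef_phi_Uo h h' ho hM, hMe]
    have h4 : coef φ (Sfl φ d w (coef φ v) τ) j = c j := ser_coef h hcr j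
    rw [h2, h3, h4]
    ring
  have hPr : Pr φ (Eop f φ ν β d w τ v) = Sfl φ d w (coef φ v) τ := by
    unfold Pr Sfl
    congr 1
    ext j
    exact hE j
  have hRm : Rm φ (Eop f φ ν β d w τ v) = Uo f (MG (he ν β τ) g) := by
    ext x i
    unfold Rm
    rw [hPr]
    unfold Eop
    ring
  have hPB : Pr φ (Uo f (FA β (MG (he ν β τ) g))) = fun _ _ => 0 := by
    ext x i
    unfold Pr ser
    have : ∀ j, coef φ (Uo f (FA β (MG (he ν β τ) g))) j = 0 := fun j => by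
      rw [hfd, coef_phi_Uo h h' ho (FA_sp hM β), hFe]
    simp [this]
  have hMop : Mop φ d w (Eop f φ ν β d w τ v) = ser (dm d w c) φ := by
    unfold Mop
    congr 1
    ext j
    unfold mc dm
    have hE' : coef φ (Eop f φ ν β d w τ v) = c := by ext j; exact hE j
    rw [hE']
  unfold Dop
  rw [hRm]
  beta_reduce
  rw [Uo_Uo hf hM, hPB, hMop, Uo_comb hf (FA_sp hM β) (FA_sp hM β)]
  ring

end

end Pool.Agent.H306.DS
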