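import Pool.Agent.H306.DS.Ser
import Pool.Agent.H306.CK.Uniq

/-! Fractional powers of `1 - Δ`. -/

noncomputable section

namespace Pool.Agent.H306.DS

open Set MeasureTheory Filter

open scoped Real ContDiff ENNReal ComplexConjugate

open Pool.Agent.H306.CK

/-- The real part of `c e^{ik·x}`. -/
def tg (c : ℂ) (k : Fin 3 → ℤ) (x : V) : ℝ :=
  c.re * Real.cos (kx k x) - c.im * Real.sin (kx k x)

theorem tg_contDiff (c : ℂ) (k : Fin 3 → ℤ) : ContDiff ℝ ∞ (tg c k) := by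
  unfold tg
  exact (contDiff_const.mul (Real.contDiff_cos.comp (kx_contDiff k))).sub
    (contDiff_const.mul (Real.contDiff_sin.comp (kx_contDiff k)))

theorem tg_per (c : ℂ) (k : Fin 3 → ℤ) : Periodic3 (tg c k) := by
  intro i x
  unfold tg
  rw [kx_per, Real.cos_add_int_mul_two_pi, Real.sin_add_int_mul_two_pi]

theorem tg_pd (c : ℂ) (k : Fin 3 → ℤ) (j : Fin 3) :
    pd j (tg c k) = tg (Complex.I * (k j : ℂ) * c) k := by
  ext x
  have c1 : ContDiff ℝ 1 (fun y => Real.cos (kx k y)) :=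
    (Real.contDiff_cos.comp (kx_contDiff k)).of_le (by exact_mod_cast le_top)
  have c2 : ContDiff ℝ 1 (fun y => Real.sin (kx k y)) :=
    (Real.contDiff_sin.comp (kx_contDiff k)).of_le (by exact_mod_cast le_top)
  have h0 : ∀ b : ℝ, pd j (fun _ : V => b) x = 0 := fun b => by simp [CK.pd]
  have h1 : pd j (tg c k) x = pd j (fun y => c.re * Real.cos (kx k y)) x -
      pd j (fun y => c.im * Real.sin (kx k y)) x :=
    pd_sub (f := fun y => c.re * Real.cos (kx k y)) (g := fun y => c.im * Real.sin (kx k y))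
      (contDiff_const.mul c1) (contDiff_const.mul c2) j x
  rw [h1, pd_mul (f := fun _ => c.re) contDiff_const c1, pd_mul (f := fun _ => c.im) contDiff_const
    c2, h0, h0, pd_cos, pd_sin]
  unfold tg
  have e1 : (Complex.I * (k j : ℂ) * c).re = -((k j : ℝ) * c.im) := by
    simp [Complex.mul_re, Complex.mul_im]
  have e2 : (Complex.I * (k j : ℂ) * c).im = (k j : ℝ) * c.re := by
    simp [Complex.mul_re, Complex.mul_im]
  rw [e1, e2]
  ring

theorem tg_re (c : ℂ) (k : Fin 3 → ℤ) (x : V) : tg c k x = (c * ex k x).re := by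
  unfold tg ex
  have h2 : Complex.I * ((∑ j, (k j : ℝ) * x j : ℝ) : ℂ) = ((kx k x : ℝ) : ℂ) * Complex.I := by
    unfold kx; ring
  rw [h2, Complex.exp_mul_I, ← Complex.ofReal_cos, ← Complex.ofReal_sin, Complex.mul_re]
  have e1 : (((Real.cos (kx k x) : ℝ) : ℂ) + ((Real.sin (kx k x) : ℝ) : ℂ) * Complex.I).re =
      Real.cos (kx k x) := by
    rw [Complex.add_re, Complex.ofReal_re, Complex.re_ofReal_mul, Complex.I_re]; ring
  have e2 : (((Real.cos (kx k x) : ℝ) : ℂ) + ((Real.sin (kx k x) : ℝ) : ℂ) * Complex.I).im =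
      Real.sin (kx k x) := by
    rw [Complex.add_im, Complex.ofReal_im, Complex.im_ofReal_mul, Complex.I_im]; ring
  rw [e1, e2]

theorem tg_le (c : ℂ) (k : Fin 3 → ℤ) (x : V) : |tg c k x| ≤ ‖c‖ := by
  rw [tg_re]
  refine (Complex.abs_re_le_norm _).trans ?_
  rw [norm_mul, norm_ex, mul_one]

theorem iter_pd' {f : V → ℝ} (hf : ContDiff ℝ ∞ f) (q : ℕ) (x : V) :
    ‖iteratedFDeriv ℝ (q + 1) f x‖ ≤ ∑ i, ‖iteratedFDeriv ℝ q (pd i f) x‖ := by
  rw [← norm_iteratedFDeriv_fderiv]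
  have h1 : fderiv ℝ f = fun y => ∑ i : Fin 3, pd i f y •
      (ContinuousLinearMap.proj i : V →L[ℝ] ℝ) := by
    ext y v
    simp only [FunLike.coe_sum, Finset.sum_apply, smul_apply,
      ContinuousLinearMap.proj_apply, smul_eq_mul]
    have h2 : v = ∑ i, v i • (Pi.single i (1 : ℝ) : V) := by
      ext j
      simp [Finset.sum_apply, Pi.single_apply]
    conv_lhs => rw [h2, map_sum]
    refine Finset.sum_congr rfl fun i _ => ?_
    rw [map_smul, smul_eq_mul, mul_comm]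
    rfl
  have h2 : ∀ i : Fin 3, ContDiff ℝ ∞ (fun y => pd i f y •
      (ContinuousLinearMap.proj i : V →L[ℝ] ℝ)) := fun i => (pd_contDiff hf i).smul contDiff_const
  rw [h1, iteratedFDeriv_fun_sum_apply fun i _ => ((h2 i).of_le (by exact_mod_cast le_top)).contDiffAt]
  refine (norm_sum_le _ _).trans (Finset.sum_le_sum fun i _ => ?_)
  have h3 : (fun y => pd i f y • (ContinuousLinearMap.proj i : V →L[ℝ] ℝ)) =
      (ContinuousLinearMap.toSpanSingleton ℝ (ContinuousLinearMap.proj i : V →L[ℝ] ℝ)) ∘ pd i f := by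
    ext y v
    simp
  rw [h3]
  refine ((ContinuousLinearMap.toSpanSingleton ℝ _).norm_iteratedFDeriv_comp_left
    (pd_contDiff hf i).contDiffAt (n := q) (by exact_mod_cast le_top)).trans ?_
  rw [ContinuousLinearMap.norm_toSpanSingleton]
  have h4 : ‖(ContinuousLinearMap.proj i : V →L[ℝ] ℝ)‖ ≤ 1 :=
    ContinuousLinearMap.opNorm_le_bound _ zero_le_one fun v => by
      rw [one_mul]; exact norm_le_pi_norm v i
  have h5 := norm_nonneg (iteratedFDeriv ℝ q (pd i f) x)
  nlinarith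

theorem tg_iter (k : Fin 3 → ℤ) (q : ℕ) : ∀ (c : ℂ) (x : V),
    ‖iteratedFDeriv ℝ q (tg c k) x‖ ≤ (3 * W 1 k) ^ q * ‖c‖ := by
  induction q with
  | zero =>
    intro c x
    rw [norm_iteratedFDeriv_zero, pow_zero, one_mul, Real.norm_eq_abs]
    exact tg_le c k x
  | succ q ih =>
    intro c x
    refine (iter_pd' (tg_contDiff c k) q x).trans ?_
    have h1 : ∀ i, ‖iteratedFDeriv ℝ q (pd i (tg c k)) x‖ ≤ (3 * W 1 k) ^ q * (W 1 k * ‖c‖) := by
      intro i
      rw [tg_pd]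
      refine (ih _ x).trans ?_
      have hW := W_pos 1 k
      gcongr
      rw [norm_mul, norm_mul, Complex.norm_I, one_mul]
      gcongr
      have h2 : ‖((k i : ℤ) : ℂ)‖ = |(k i : ℝ)| := by
        rw [← Complex.ofReal_intCast, Complex.norm_real, Real.norm_eq_abs]
      rw [h2, W_one]
      have h3 : (k i : ℝ) ^ 2 ≤ ∑ j, (k j : ℝ) ^ 2 :=
        Finset.single_le_sum (f := fun j => (k j : ℝ) ^ 2) (fun j _ => sq_nonneg _)
          (Finset.mem_univ i)
      have h4 := sq_abs (k i : ℝ)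
      nlinarith [sq_nonneg (|(k i : ℝ)| - 1), abs_nonneg (k i : ℝ)]
    calc ∑ i, ‖iteratedFDeriv ℝ q (pd i (tg c k)) x‖ ≤
          ∑ _i : Fin 3, (3 * W 1 k) ^ q * (W 1 k * ‖c‖) := Finset.sum_le_sum fun i _ => h1 i
      _ = _ := by
          rw [Finset.sum_const, Finset.card_univ, Fintype.card_fin, nsmul_eq_mul, pow_succ]
          push_cast
          ring

/-- Summability of the negative powers. -/
theorem W_summable : Summable fun k : Fin 3 → ℤ => W (-3) k := by
  have h1 : Summable fun l : ℤ => (1 : ℝ) / (1 + (l : ℝ) ^ 2) := w_summable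
  have h0 : ∀ l : ℤ, 0 ≤ (1 : ℝ) / (1 + (l : ℝ) ^ 2) := fun l => by positivity
  have h2 := h1.mul_of_nonneg (h1.mul_of_nonneg h1 h0 h0) h0
    (fun p => mul_nonneg (h0 _) (h0 _))
  let e : (Fin 3 → ℤ) ≃ ℤ × ℤ × ℤ :=
    { toFun := fun k => (k 0, k 1, k 2)
      invFun := fun p => ![p.1, p.2.1, p.2.2]
      left_inv := fun k => by ext i; fin_cases i <;> rfl
      right_inv := fun p => rfl }
  have h3 := (e.summable_iff (f := fun x : ℤ × ℤ × ℤ => 1 / (1 + (x.1 : ℝ) ^ 2) *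
    (1 / (1 + (x.2.1 : ℝ) ^ 2) * (1 / (1 + (x.2.2 : ℝ) ^ 2))))).2 h2
  refine Summable.of_nonneg_of_le (fun k => (W_pos _ k).le) (fun k => ?_) h3
  change W (-3) k ≤ 1 / (1 + (k 0 : ℝ) ^ 2) * (1 / (1 + (k 1 : ℝ) ^ 2) * (1 / (1 + (k 2 : ℝ) ^ 2)))
  unfold W
  rw [Real.rpow_neg (W_base k).le, show (3 : ℝ) = ((3 : ℕ) : ℝ) by norm_num, Real.rpow_natCast,
    one_div_mul_one_div, one_div_mul_one_div, ← one_div]
  apply one_div_le_one_div_of_le (by positivity)
  have h4 : ∀ i, 1 + (k i : ℝ) ^ 2 ≤ 1 + ∑ j, (k j : ℝ) ^ 2 := fun i => by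
    have := Finset.single_le_sum (f := fun j => (k j : ℝ) ^ 2) (fun j _ => sq_nonneg _)
      (Finset.mem_univ i)
    linarith
  have h5 := W_base k
  calc (1 + (k 0 : ℝ) ^ 2) * ((1 + (k 1 : ℝ) ^ 2) * (1 + (k 2 : ℝ) ^ 2)) ≤
        (1 + ∑ j, (k j : ℝ) ^ 2) * ((1 + ∑ j, (k j : ℝ) ^ 2) * (1 + ∑ j, (k j : ℝ) ^ 2)) := by
        have b0 := h4 0
        have b1 := h4 1
        have b2 := h4 2
        exact mul_le_mul b0 (mul_le_mul b1 b2 (by positivity) h5.le) (by positivity) h5.le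
    _ = _ := by ring

/-- Decay of the Fourier integrals. -/
theorem fc_decay {f : V → ℝ} (hf : SPf f) (M : ℝ) : ∃ C : ℝ, 0 ≤ C ∧ ∀ k, ‖fc f k‖ ≤ C * W M k := by
  have hv : SP (fun x (_ : Fin 3) => f x) :=
    ⟨contDiff_pi.2 fun _ => hf.1, fun i x => by ext; exact hf.2 i x⟩
  have h1 := hs_lt_top hv (-(2 * M))
  refine ⟨Real.sqrt (hr (-(2 * M)) (fun x (_ : Fin 3) => f x)), Real.sqrt_nonneg _, fun k => ?_⟩
  have h2 : ENNReal.ofReal (W (-(2 * M)) k * ∑ _i : Fin 3, ‖fc f k‖ ^ 2) ≤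
      hs (-(2 * M)) (fun x (_ : Fin 3) => f x) := by
    rw [hs_def]
    exact ENNReal.le_tsum k
  rw [← ofReal_hr hv, ENNReal.ofReal_le_ofReal_iff (hr_nonneg _ _)] at h2
  have hW := W_pos M k
  have hW2 : W (-(2 * M)) k * W M k ^ 2 = 1 := by
    rw [sq, ← W_add, ← W_add, show -(2 * M) + (M + M) = 0 by ring, W_zero]
  have h3 : ‖fc f k‖ ^ 2 ≤ hr (-(2 * M)) (fun x (_ : Fin 3) => f x) * W M k ^ 2 := by
    have h4 : ∑ _i : Fin 3, ‖fc f k‖ ^ 2 = 3 * ‖fc f k‖ ^ 2 := by
      rw [Finset.sum_const, Finset.card_univ, Fintype.card_fin, nsmul_eq_mul]; norm_num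
    rw [h4] at h2
    have h5 : 0 ≤ W M k ^ 2 := by positivity
    calc ‖fc f k‖ ^ 2 = (W (-(2 * M)) k * W M k ^ 2) * ‖fc f k‖ ^ 2 := by rw [hW2, one_mul]
      _ ≤ (W (-(2 * M)) k * W M k ^ 2) * (3 * ‖fc f k‖ ^ 2) := by
          rw [hW2]; nlinarith [sq_nonneg ‖fc f k‖]
      _ = (W (-(2 * M)) k * (3 * ‖fc f k‖ ^ 2)) * W M k ^ 2 := by ring
      _ ≤ _ := by gcongr
  have h6 : (Real.sqrt (hr (-(2 * M)) (fun x (_ : Fin 3) => f x)) * W M k) ^ 2 =
      hr (-(2 * M)) (fun x (_ : Fin 3) => f x) * W M k ^ 2 := by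
    rw [mul_pow, Real.sq_sqrt (hr_nonneg _ _)]
  rw [← h6] at h3
  exact abs_le_of_sq_le_sq h3 (by positivity) |>.trans' (le_abs_self _)

/-- Real even multipliers of polynomial growth. -/
structure Mb (m : (Fin 3 → ℤ) → ℝ) : Prop where
  even : ∀ k, m (-k) = m k
  bd : ∃ C M : ℝ, 0 ≤ C ∧ ∀ k, |m k| ≤ C * W M k

/-- The multiplier `m` on functions. -/
def mg (m : (Fin 3 → ℤ) → ℝ) (f : V → ℝ) (x : V) : ℝ :=
  ∑' k, tg (((((2 * π) ^ 3)⁻¹ * m k : ℝ) : ℂ) * fc f k) k x

section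

variable {m : (Fin 3 → ℤ) → ℝ}

theorem mg_coef (hm : Mb m) {f : V → ℝ} (hf : SPf f) (M : ℝ) : ∃ C : ℝ, 0 ≤ C ∧ ∀ k,
    ‖((((2 * π) ^ 3)⁻¹ * m k : ℝ) : ℂ) * fc f k‖ ≤ C * W M k := by
  have hpi := Real.pi_pos
  obtain ⟨C', β, hC'0, hC'⟩ := hm.bd
  obtain ⟨C, hC0, hC⟩ := fc_decay hf (M - β)
  refine ⟨((2 * π) ^ 3)⁻¹ * C' * C, by positivity, fun k => ?_⟩
  have hW := W_pos β k
  rw [norm_mul, Complex.norm_real, Real.norm_eq_abs, abs_mul, abs_of_pos (by positivity)]
  have h1 : W M k = W β k * W (M - β) k := by rw [← W_add]; congr 1; ring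
  rw [h1]
  calc ((2 * π) ^ 3)⁻¹ * |m k| * ‖fc f k‖ ≤
        ((2 * π) ^ 3)⁻¹ * (C' * W β k) * (C * W (M - β) k) := by
        gcongr
        · exact hC' k
        · exact hC k
    _ = _ := by ring

theorem mg_bound (hm : Mb m) {f : V → ℝ} (hf : SPf f) (q : ℕ) : ∃ C : ℝ, ∀ k x,
    ‖iteratedFDeriv ℝ q (tg (((((2 * π) ^ 3)⁻¹ * m k : ℝ) : ℂ) * fc f k) k) x‖ ≤
      C * W (-3) k := by
  obtain ⟨C, hC0, hC⟩ := mg_coef hm hf (-3 - q)
  refine ⟨3 ^ q * C, fun k x => (tg_iter k q _ x).trans ?_⟩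
  have hW := W_pos 1 k
  have h1 : W (-3) k = W 1 k ^ q * W (-3 - q) k := by
    have : W 1 k ^ q = W q k := by
      unfold W
      rw [Real.rpow_one, Real.rpow_natCast]
    rw [this, ← W_add]
    congr 1
    ring
  rw [h1, mul_pow]
  calc 3 ^ q * W 1 k ^ q * ‖((((2 * π) ^ 3)⁻¹ * m k : ℝ) : ℂ) * fc f k‖ ≤
        3 ^ q * W 1 k ^ q * (C * W (-3 - q) k) := by
        gcongr
        exact hC k
    _ = _ := by ring

theorem mg_spf (hm : Mb m) {f : V → ℝ} (hf : SPf f) : SPf (mg m f) := by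
  constructor
  · choose C hC using fun q => mg_bound hm hf q
    exact contDiff_tsum (v := fun q k => C q * W (-3) k) (fun k => tg_contDiff _ k)
      (fun q _ => W_summable.mul_left _) (fun q k x _ => hC q k x)
  · intro i x
    unfold mg
    exact tsum_congr fun k => tg_per _ k i x

end

theorem fc_conj (f : V → ℝ) (k : Fin 3 → ℤ) : conj (fc f (-k)) = fc f k := by
  rw [fc_eq, fc_eq]
  unfold fcC
  rw [← integral_conj]
  congr 1
  ext x
  rw [map_mul, Complex.conj_ofReal, neg_neg]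
  congr 1
  unfold ex
  rw [← Complex.exp_conj]
  congr 1
  rw [map_mul, Complex.conj_I, Complex.conj_ofReal]
  simp only [Pi.neg_apply, Int.cast_neg, neg_mul, Finset.sum_neg_distrib]
  push_cast
  ring

theorem W_neg (β : ℝ) (k : Fin 3 → ℤ) : W β (-k) = W β k := by
  unfold W
  simp

/-- Fourier integrals of the basic functions. -/
theorem fc_tg (c : ℂ) (k l : Fin 3 → ℤ) : fc (tg c k) l =
    ((2 * π : ℝ) : ℂ) ^ 3 / 2 * ((if l = k then c else 0) + (if l = -k then conj c else 0)) := by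
  have h1 : ∀ x, ((tg c k x : ℝ) : ℂ) = (c * ex k x + conj c * ex (-k) x) / 2 := by
    intro x
    rw [tg_re]
    have h2 : conj (c * ex k x) = conj c * ex (-k) x := by
      rw [map_mul]
      congr 1
      unfold ex
      rw [← Complex.exp_conj]
      congr 1
      rw [map_mul, Complex.conj_I, Complex.conj_ofReal]
      simp only [Pi.neg_apply, Int.cast_neg, neg_mul, Finset.sum_neg_distrib]
      push_cast
      ring
    rw [← h2, Complex.add_conj]
    push_cast
    ring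
  rw [fc_eq]
  unfold fcC
  have h3 : ∀ x, ((tg c k x : ℝ) : ℂ) * ex (-l) x =
      c / 2 * ex (k - l) x + conj c / 2 * ex (-k - l) x := by
    intro x
    rw [h1, sub_eq_add_neg, sub_eq_add_neg, ← ex_mul, ← ex_mul]
    ring
  simp only [h3]
  rw [int_addC ((cont_intC (ex_continuous _)).const_mul _)
    ((cont_intC (ex_continuous _)).const_mul _), integral_const_mul, integral_const_mul, int_ex,
    int_ex]
  have e1 : (k - l = 0) = (l = k) := propext ⟨fun h => (sub_eq_zero.1 h).symm, fun h => by rw [h]; simp⟩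
  have e2 : (-k - l = 0) = (l = -k) := propext ⟨fun h => (sub_eq_zero.1 h).symm, fun h => by rw [h]; simp⟩
  simp only [e1, e2]
  split_ifs <;> ring

/-- Exchange of summation and integration. -/
theorem fc_tsum {g : (Fin 3 → ℤ) → V → ℝ} (hg : ∀ k, Continuous (g k)) {B : (Fin 3 → ℤ) → ℝ}
    (hB : Summable B) (hb : ∀ k x, |g k x| ≤ B k) (l : Fin 3 → ℤ) :
    HasSum (fun k => fc (g k) l) (fc (fun x => ∑' k, g k x) l) := by
  have h := hasSum_integral_of_summable_integral_norm (μ := volume.restrict torus)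
    (F := fun k x => (g k x : ℂ) * ex (-l) x)
    (fun k => cont_intC ((Complex.continuous_ofReal.comp (hg k)).mul (ex_continuous _)))
    (Summable.of_nonneg_of_le (fun l => integral_nonneg fun x => norm_nonneg _) (fun k => ?_)
      (hB.mul_right (volume.real torus)))
  · have e1 : fc (fun x => ∑' k, g k x) l = ∫ x in torus, ∑' k, (g k x : ℂ) * ex (-l) x := by
      rw [fc_eq]
      unfold fcC
      congr 1
      ext x
      rw [tsum_mul_right]
      simp only [Complex.ofReal_tsum]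
    rw [e1]
    refine h.congr_fun fun k => ?_
    rw [fc_eq]
    rfl
  · have h1 : ∫ x in torus, ‖(g k x : ℂ) * ex (-l) x‖ ≤ ∫ _ in torus, B k := by
      apply setIntegral_mono_on
      · exact (cont_intC ((Complex.continuous_ofReal.comp (hg k)).mul (ex_continuous _))).norm
      · exact cont_integrableOn continuous_const
      · exact measurableSet_torus
      · intro x hx
        rw [norm_mul, norm_ex, mul_one, Complex.norm_real, Real.norm_eq_abs]
        exact hb k x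
    refine h1.trans (le_of_eq ?_)
    rw [setIntegral_const, smul_eq_mul]
    ring

theorem fc_mg {m : (Fin 3 → ℤ) → ℝ} (hm : Mb m) {f : V → ℝ} (hf : SPf f) (l : Fin 3 → ℤ) :
    fc (mg m f) l = (m l : ℂ) * fc f l := by
  have hpi := Real.pi_pos
  obtain ⟨C, hC⟩ := mg_bound hm hf 0
  have h1 := fc_tsum (g := fun k => tg (((((2 * π) ^ 3)⁻¹ * m k : ℝ) : ℂ) * fc f k) k)
    (fun k => (tg_contDiff _ k).continuous) (W_summable.mul_left C) (fun k x => by
      have := hC k x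
      rwa [norm_iteratedFDeriv_zero, Real.norm_eq_abs] at this) l
  simp only [fc_tg] at h1
  set a : (Fin 3 → ℤ) → ℂ := fun k => ((((2 * π) ^ 3)⁻¹ * m k : ℝ) : ℂ) * fc f k with ha
  have h2 : HasSum (fun k => ((2 * π : ℝ) : ℂ) ^ 3 / 2 *
      ((if l = k then a k else 0) + (if l = -k then conj (a k) else 0)))
      (((2 * π : ℝ) : ℂ) ^ 3 / 2 * (a l + conj (a (-l)))) := by
    refine HasSum.mul_left _ (HasSum.add ?_ ?_)
    · have h3 := hasSum_ite_eq l (a l)
      refine h3.congr_fun fun k => ?_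
      by_cases h : l = k
      · subst h; simp
      · rw [if_neg h, if_neg (fun h' => h h'.symm)]
    · have h3 := hasSum_ite_eq (-l) (conj (a (-l)))
      refine h3.congr_fun fun k => ?_
      by_cases h : l = -k
      · subst h; simp
      · rw [if_neg h, if_neg (fun h' => h (by rw [h', neg_neg]))]
  have h4 : fc (mg m f) l = ((2 * π : ℝ) : ℂ) ^ 3 / 2 * (a l + conj (a (-l))) := h1.unique h2
  rw [h4]
  have h5 : conj (a (-l)) = a l := by
    simp only [ha]
    rw [map_mul, Complex.conj_ofReal, fc_conj, hm.even]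
  rw [h5]
  simp only [ha]
  have h6 : ((2 * π : ℝ) : ℂ) ≠ 0 := by
    exact_mod_cast (by positivity : (2 * π : ℝ) ≠ 0)
  push_cast
  push_cast at h6
  field_simp
  ring

/-- Functions with the same Fourier integrals. -/
theorem fc_inj {f g : V → ℝ} (hf : Continuous f) (hg : Continuous g) (hpf : Periodic3 f)
    (hpg : Periodic3 g) (h : ∀ k, fc f k = fc g k) : f = g := by
  have hcp : CP (fun x (_ : Fin 3) => f x + (-1) * g x) :=
    ⟨continuous_pi fun _ => hf.add (continuous_const.mul hg), fun i x => by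
      ext; simp only; rw [hpf i x, hpg i x]⟩
  have h0 : ∀ k, fc (fun x => f x + (-1) * g x) k = 0 := by
    intro k
    rw [fc_add (g := fun x => (-1) * g x) hf (continuous_const.mul hg), fc_smul, h k]
    push_cast
    ring
  have h1 := hs_zero hcp
  have h2 : hs 0 (fun x (_ : Fin 3) => f x + (-1) * g x) = 0 := by
    rw [hs_def, ENNReal.tsum_eq_zero]
    intro k
    simp only [h0]
    simp
  rw [h2] at h1
  have h3 : inner3 (fun x (_ : Fin 3) => f x + (-1) * g x)
      (fun x (_ : Fin 3) => f x + (-1) * g x) = 0 := by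
    have h4 := ENNReal.ofReal_eq_zero.1 h1.symm
    have hpi := Real.pi_pos
    have h5 : 0 ≤ inner3 (fun x (_ : Fin 3) => f x + (-1) * g x)
        (fun x (_ : Fin 3) => f x + (-1) * g x) := by
      unfold inner3
      exact integral_nonneg fun x => Finset.sum_nonneg fun i _ => mul_self_nonneg _
    have h6 : 0 < (2 * π) ^ 3 := by positivity
    nlinarith
  have h7 := eq_zero_of_int (f := fun x => ∑ _i : Fin 3, (f x + (-1) * g x) * (f x + (-1) * g x))
    (continuous_finsetSum _ fun _ _ => (hf.add (continuous_const.mul hg)).mul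
      (hf.add (continuous_const.mul hg))) (fun x => Finset.sum_nonneg fun i _ => mul_self_nonneg _)
    (fun i x => by simp only; rw [hpf i x, hpg i x]) h3
  ext x
  have h8 := h7 x
  have h9 := (Finset.sum_eq_zero_iff_of_nonneg fun i _ => mul_self_nonneg _).1 h8 0
    (Finset.mem_univ _)
  have h10 := mul_self_eq_zero.1 h9
  linarith

/-- The multiplier `m` on fields. -/
def MG (m : (Fin 3 → ℤ) → ℝ) (v : V → V) (x : V) : V := fun i => mg m (fun y => v y i) x

section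

variable {m m' : (Fin 3 → ℤ) → ℝ} {v u : V → V}

theorem MG_sp (hm : Mb m) (hv : SP v) : SP (MG m v) := by
  constructor
  · exact contDiff_pi.2 fun i => (mg_spf hm (hv.comp i)).1
  · intro j x
    ext i
    exact (mg_spf hm (hv.comp i)).2 j x

theorem fc_MG (hm : Mb m) (hv : SP v) (i : Fin 3) (k : Fin 3 → ℤ) :
    fc (fun x => MG m v x i) k = (m k : ℂ) * fc (fun x => v x i) k := fc_mg hm (hv.comp i) k

theorem fc_div (hv : SP v) (k : Fin 3 → ℤ) : fc (fun x => ∑ i, pd i (fun y => v y i) x) k =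
    ∑ i, Complex.I * (k i : ℂ) * fc (fun x => v x i) k := by
  rw [fc_sum (f := fun i => pd i (fun y => v y i)) fun i => ((hv.comp i).pd i).cont]
  exact Finset.sum_congr rfl fun i _ => fc_pd (hv.comp i).c1 (hv.comp i).2 i k

theorem MG_sf (hm : Mb m) (hv : SF v) : SF (MG m v) := by
  have hA := MG_sp hm hv.sp
  refine ⟨hA.1, hA.2, fun x => ?_⟩
  have h1 : (fun x => ∑ i, pd i (fun y => MG m v y i) x) = fun _ => (0 : ℝ) := by
    refine fc_inj (continuous_finsetSum _ fun i _ => ((hA.comp i).pd i).cont) continuous_const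
      (fun j x => Finset.sum_congr rfl fun i _ => ((hA.comp i).pd i).2 j x) (fun _ _ => rfl)
      fun k => ?_
    have h2 : (fun x => ∑ i, pd i (fun y => v y i) x) = fun _ => (0 : ℝ) := by
      ext x; exact hv.2.2 x
    have h3 := fc_div hv.sp k
    rw [h2] at h3
    have h4 := fc_div hA k
    have h5 : ∀ i, Complex.I * (k i : ℂ) * fc (fun x => MG m v x i) k =
        (m k : ℂ) * (Complex.I * (k i : ℂ) * fc (fun x => v x i) k) := fun i => by
      rw [fc_MG hm hv.sp]; ring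
    simp only [h5] at h4
    rw [← Finset.mul_sum, ← h3] at h4
    have h6 : fc (fun _ => (0 : ℝ)) k = 0 := by
      unfold fc; simp
    rw [h4, h6, mul_zero]
  exact congrFun h1 x

/-- Fields with the same Fourier integrals. -/
theorem fc_ext (hv : SP v) (hu : SP u)
    (h : ∀ i k, fc (fun x => v x i) k = fc (fun x => u x i) k) : v = u := by
  ext x i
  exact congrFun (fc_inj (hv.comp i).cont (hu.comp i).cont (hv.comp i).2 (hu.comp i).2 (h i)) x

theorem comb_sp (hv : SP v) (hu : SP u) (a b : ℝ) : SP (fun x i => a * v x i + b * u x i) := by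
  refine ⟨contDiff_pi.2 fun i => (contDiff_const.mul (contDiff_pi.1 hv.1 i)).add
    (contDiff_const.mul (contDiff_pi.1 hu.1 i)), fun j x => ?_⟩
  ext i
  simp only
  rw [hv.2 j x, hu.2 j x]

theorem fc_comb (hv : SP v) (hu : SP u) (a b : ℝ) (i : Fin 3) (k : Fin 3 → ℤ) :
    fc (fun x => a * v x i + b * u x i) k =
      a * fc (fun x => v x i) k + b * fc (fun x => u x i) k := by
  rw [fc_add (f := fun x => a * v x i) (g := fun x => b * u x i)
    (continuous_const.mul (hv.comp i).cont) (continuous_const.mul (hu.comp i).cont),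
    fc_smul, fc_smul]

theorem MG_comb (hm : Mb m) (hv : SP v) (hu : SP u) (a b : ℝ) :
    MG m (fun x i => a * v x i + b * u x i) = fun x i => a * MG m v x i + b * MG m u x i := by
  have hc := comb_sp hv hu a b
  refine fc_ext (MG_sp hm hc) (comb_sp (MG_sp hm hv) (MG_sp hm hu) a b) fun i k => ?_
  rw [fc_MG hm hc, fc_comb (MG_sp hm hv) (MG_sp hm hu), fc_comb hv hu, fc_MG hm hv, fc_MG hm hu]
  ring

theorem Mb.mul (hm : Mb m) (hm' : Mb m') : Mb (fun k => m k * m' k) := by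
  obtain ⟨C, M, hC0, hC⟩ := hm.bd
  obtain ⟨C', M', hC'0, hC'⟩ := hm'.bd
  refine ⟨fun k => by rw [hm.even, hm'.even], C * C', M + M', by positivity, fun k => ?_⟩
  rw [abs_mul, W_add]
  have h1 := W_pos M k
  calc |m k| * |m' k| ≤ (C * W M k) * (C' * W M' k) :=
        mul_le_mul (hC k) (hC' k) (abs_nonneg _) (by positivity)
    _ = _ := by ring

theorem MG_MG (hm : Mb m) (hm' : Mb m') (hv : SP v) :
    MG m (MG m' v) = MG (fun k => m k * m' k) v := by
  refine fc_ext (MG_sp hm (MG_sp hm' hv)) (MG_sp (hm.mul hm') hv) fun i k => ?_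
  rw [fc_MG hm (MG_sp hm' hv), fc_MG hm' hv, fc_MG (hm.mul hm') hv]
  push_cast
  ring

/-- Norms of multipliers. -/
theorem hs_MG_le (hm : Mb m) (hv : SP v) {C s t : ℝ} (hC : ∀ k, m k ^ 2 * W s k ≤ C * W t k)
    (hC0 : 0 ≤ C) : hs s (MG m v) ≤ ENNReal.ofReal C * hs t v := by
  rw [hs_def, hs_def, ← ENNReal.tsum_mul_left]
  refine ENNReal.tsum_le_tsum fun k => ?_
  rw [← ENNReal.ofReal_mul hC0]
  apply ENNReal.ofReal_le_ofReal
  have h1 : ∀ i, ‖fc (fun x => MG m v x i) k‖ ^ 2 = m k ^ 2 * ‖fc (fun x => v x i) k‖ ^ 2 := by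
    intro i
    rw [fc_MG hm hv, norm_mul, mul_pow, Complex.norm_real, Real.norm_eq_abs, sq_abs]
  simp only [h1]
  rw [← Finset.mul_sum]
  have h2 : 0 ≤ ∑ i, ‖fc (fun x => v x i) k‖ ^ 2 := Finset.sum_nonneg fun i _ => sq_nonneg _
  calc W s k * (m k ^ 2 * ∑ i, ‖fc (fun x => v x i) k‖ ^ 2) =
        (m k ^ 2 * W s k) * ∑ i, ‖fc (fun x => v x i) k‖ ^ 2 := by ring
    _ ≤ (C * W t k) * ∑ i, ‖fc (fun x => v x i) k‖ ^ 2 := mul_le_mul_of_nonneg_right (hC k) h2
    _ = _ := by ring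

end

theorem Mb_W (β : ℝ) : Mb (W β) :=
  ⟨W_neg β, 1, β, zero_le_one, fun k => by rw [abs_of_pos (W_pos β k), one_mul]⟩

/-- The operator `(1 - Δ)^β` on fields. -/
def FA (β : ℝ) (v : V → V) : V → V := MG (W β) v

section

variable {β : ℝ} {v u : V → V}

theorem FA_sp (hv : SP v) (β : ℝ) : SP (FA β v) := MG_sp (Mb_W β) hv

theorem fc_FA (hv : SP v) (β : ℝ) (i : Fin 3) (k : Fin 3 → ℤ) :
    fc (fun x => FA β v x i) k = (W β k : ℂ) * fc (fun x => v x i) k := fc_MG (Mb_W β) hv i k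

theorem FA_sf (hv : SF v) (β : ℝ) : SF (FA β v) := MG_sf (Mb_W β) hv

theorem FA_comb (hv : SP v) (hu : SP u) (β a b : ℝ) :
    FA β (fun x i => a * v x i + b * u x i) = fun x i => a * FA β v x i + b * FA β u x i :=
  MG_comb (Mb_W β) hv hu a b

theorem hs_FA (hv : SP v) (s β : ℝ) : hs s (FA β v) = hs (s + 2 * β) v := by
  rw [hs_def, hs_def]
  refine tsum_congr fun k => ?_
  congr 1
  simp only [fc_FA hv, norm_mul, mul_pow]
  rw [← Finset.mul_sum, W_add, ← mul_assoc]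
  congr 2
  rw [Complex.norm_real, Real.norm_eq_abs, abs_of_pos (W_pos β k), sq, ← W_add]
  congr 1
  ring

theorem FA_form (hv : SP v) (β : ℝ) :
    HasSum (fun k => W β k * ∑ i, ‖fc (fun x => v x i) k‖ ^ 2) ((2 * π) ^ 3 * inner3 (FA β v) v) := by
  have h1 := parseval3 (FA_sp hv β).cp hv.cp
  have h2 : (fun k => ∑ i, conj (fc (fun x => FA β v x i) k) * fc (fun x => v x i) k) =
      fun k => ((W β k * ∑ i, ‖fc (fun x => v x i) k‖ ^ 2 : ℝ) : ℂ) := by
    ext k
    push_cast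
    rw [Finset.mul_sum]
    refine Finset.sum_congr rfl fun i _ => ?_
    have e2 : conj (fc (fun x => v x i) k) * fc (fun x => v x i) k =
        ((‖fc (fun x => v x i) k‖ ^ 2 : ℝ) : ℂ) := by
      rw [mul_comm, Complex.mul_conj, Complex.normSq_eq_norm_sq]
    rw [fc_FA hv, map_mul, Complex.conj_ofReal, mul_assoc, e2]
    push_cast
    ring
  rw [h2] at h1
  exact Complex.hasSum_ofReal.1 h1

theorem hs_FA_one (hv : SP v) (β : ℝ) :
    hs β v = ENNReal.ofReal ((2 * π) ^ 3 * inner3 (FA β v) v) := by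
  have h3 := FA_form hv β
  rw [← h3.tsum_eq, ENNReal.ofReal_tsum_of_nonneg (fun k => mul_nonneg (W_pos _ k).le
    (Finset.sum_nonneg fun i _ => sq_nonneg _)) h3.summable, hs_def]

theorem FA_nonneg (hv : SP v) (β : ℝ) : 0 ≤ inner3 (FA β v) v := by
  have hpi := Real.pi_pos
  have h3 := (FA_form hv β).nonneg fun k => mul_nonneg (W_pos _ k).le
    (Finset.sum_nonneg fun i _ => sq_nonneg _)
  have h4 : 0 < (2 * π) ^ 3 := by positivity
  exact nonneg_of_mul_nonneg_right h3 h4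

/-- Fourier inversion. -/
theorem four_inv {f : V → ℝ} (hf : SPf f) (x : V) :
    HasSum (fun k => tg (((((2 * π) ^ 3)⁻¹ : ℝ) : ℂ) * fc f k) k x) (f x) := by
  have h0 : W 0 = fun _ => 1 := by ext k; exact W_zero k
  have h1 : mg (W 0) f = f := fc_inj (mg_spf (Mb_W 0) hf).cont hf.cont (mg_spf (Mb_W 0) hf).2 hf.2
    fun k => by rw [fc_mg (Mb_W 0) hf, W_zero, Complex.ofReal_one, one_mul]
  obtain ⟨C, hC⟩ := mg_bound (Mb_W 0) hf 0
  have h2 : Summable fun k => tg (((((2 * π) ^ 3)⁻¹ * W 0 k : ℝ) : ℂ) * fc f k) k x :=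
    Summable.of_norm_bounded (W_summable.mul_left C) fun k => by
      have := hC k x
      rwa [norm_iteratedFDeriv_zero] at this
  have h3 := h2.hasSum
  have h4 : ∑' k, tg (((((2 * π) ^ 3)⁻¹ * W 0 k : ℝ) : ℂ) * fc f k) k x = f x := congrFun h1 x
  rw [h4] at h3
  simpa only [h0, mul_one] using h3

/-- The Sobolev inequality. -/
theorem sobolev : ∃ C : ℝ, 0 ≤ C ∧ ∀ v, SP v → ∀ x i, v x i ^ 2 ≤ C * hr 3 v := by
  have hpi := Real.pi_pos
  set S := ∑' k, W (-3) k with hS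
  have hS0 : 0 ≤ S := tsum_nonneg fun k => (W_pos _ k).le
  refine ⟨(((2 * π) ^ 3)⁻¹) ^ 2 * S, by positivity, fun v hv x i => ?_⟩
  have h1 := four_inv (hv.comp i) x
  -- the sequence of squares
  have h2 : Summable fun k => W 3 k * ‖fc (fun y => v y i) k‖ ^ 2 := by
    obtain ⟨C, hC0, hC⟩ := fc_decay (hv.comp i) (-3)
    refine Summable.of_nonneg_of_le (fun k => mul_nonneg (W_pos _ k).le (sq_nonneg _)) (fun k => ?_)
      (W_summable.mul_left (C ^ 2))
    have hW := W_pos (-3) k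
    have hW3 := W_pos 3 k
    have e1 : W 3 k * W (-3) k = 1 := by rw [← W_add]; norm_num [W_zero]
    calc W 3 k * ‖fc (fun y => v y i) k‖ ^ 2 ≤ W 3 k * (C * W (-3) k) ^ 2 := by
          gcongr
          exact hC k
      _ = C ^ 2 * (W 3 k * W (-3) k) * W (-3) k := by ring
      _ = _ := by rw [e1, mul_one]
  have h3 : ∑' k, W 3 k * ‖fc (fun y => v y i) k‖ ^ 2 ≤ hr 3 v := by
    have h4 : ENNReal.ofReal (∑' k, W 3 k * ‖fc (fun y => v y i) k‖ ^ 2) ≤ hs 3 v := by
      rw [ENNReal.ofReal_tsum_of_nonneg (fun k => mul_nonneg (W_pos _ k).le (sq_nonneg _)) h2,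
        hs_def]
      refine ENNReal.tsum_le_tsum fun k => ENNReal.ofReal_le_ofReal ?_
      have := W_pos 3 k
      gcongr
      exact Finset.single_le_sum (f := fun i => ‖fc (fun x => v x i) k‖ ^ 2)
        (fun i _ => sq_nonneg _) (Finset.mem_univ i)
    rw [← ofReal_hr hv, ENNReal.ofReal_le_ofReal_iff (hr_nonneg _ _)] at h4
    exact h4
  have hN : Summable fun k => ‖fc (fun y => v y i) k‖ := by
    obtain ⟨C, hC0, hC⟩ := fc_decay (hv.comp i) (-3)
    exact Summable.of_nonneg_of_le (fun k => norm_nonneg _) hC (W_summable.mul_left C)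
  have h4 : |v x i| ≤ ((2 * π) ^ 3)⁻¹ * ∑' k, ‖fc (fun y => v y i) k‖ := by
    rw [← h1.tsum_eq, ← tsum_mul_left, ← Real.norm_eq_abs]
    have h5 : ∀ k, ‖tg (((((2 * π) ^ 3)⁻¹ : ℝ) : ℂ) * fc (fun y => v y i) k) k x‖ ≤
        ((2 * π) ^ 3)⁻¹ * ‖fc (fun y => v y i) k‖ := by
      intro k
      refine (tg_le _ k x).trans (le_of_eq ?_)
      rw [norm_mul, Complex.norm_real, Real.norm_eq_abs, abs_of_pos (by positivity)]
    exact tsum_of_norm_bounded (hN.mul_left _).hasSum h5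
  have h5 : (∑' k, ‖fc (fun y => v y i) k‖) ^ 2 ≤ S * hr 3 v := by
    refine sq_le_of_forall hS0 (hr_nonneg _ _) (tsum_nonneg fun k => norm_nonneg _) fun l hl => ?_
    have h6 : ∀ k, 2 * ‖fc (fun y => v y i) k‖ ≤
        l * W (-3) k + 1 / l * (W 3 k * ‖fc (fun y => v y i) k‖ ^ 2) := by
      intro k
      set a := ‖fc (fun y => v y i) k‖
      have hW := W_pos (-3) k
      have hW3 := W_pos 3 k
      have e1 : W 3 k * W (-3) k = 1 := by rw [← W_add]; norm_num [W_zero]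
      have h7 : 0 ≤ W (-3) k / l * (l - W 3 k * a) ^ 2 := by positivity
      have h8 : W (-3) k / l * (l - W 3 k * a) ^ 2 = l * W (-3) k - 2 * (W 3 k * W (-3) k) * a +
          1 / l * (W 3 k * (W 3 k * W (-3) k) * a ^ 2) := by
        field_simp
        ring
      rw [e1] at h8
      linarith
    have h7 : Summable fun k => l * W (-3) k + 1 / l * (W 3 k * ‖fc (fun y => v y i) k‖ ^ 2) :=
      (W_summable.mul_left _).add (h2.mul_left _)
    have h8 := (hN.mul_left 2).tsum_le_tsum h6 h7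
    rw [tsum_mul_left, (W_summable.mul_left _).tsum_add (h2.mul_left _), tsum_mul_left,
      tsum_mul_left] at h8
    refine h8.trans ?_
    have h9 : 1 / l * ∑' k, W 3 k * ‖fc (fun y => v y i) k‖ ^ 2 ≤ 1 / l * hr 3 v := by gcongr
    have h10 : 1 / l * hr 3 v = hr 3 v / l := by ring
    linarith
  calc v x i ^ 2 = |v x i| ^ 2 := (sq_abs _).symm
    _ ≤ (((2 * π) ^ 3)⁻¹ * ∑' k, ‖fc (fun y => v y i) k‖) ^ 2 :=
        pow_le_pow_left₀ (abs_nonneg _) h4 2
    _ = (((2 * π) ^ 3)⁻¹) ^ 2 * (∑' k, ‖fc (fun y => v y i) k‖) ^ 2 := by ring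
    _ ≤ (((2 * π) ^ 3)⁻¹) ^ 2 * (S * hr 3 v) := by gcongr
    _ = _ := by ring

end

end Pool.Agent.H306.DS
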