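import Pool.Agent.H306.DS.Hs2

/-! Dilated and periodized functions. -/

noncomputable section

namespace Pool.Agent.H306.DS

open Set MeasureTheory Filter Topology

open scoped Real ContDiff ENNReal

open Pool.Agent.H306.CK

/-- The index of the cell of `t`. -/
def ci (t : ℝ) : ℤ := ⌊(t + π) / (2 * π)⌋

/-- The representative of `t` in `[-π, π)`. -/
def rd (t : ℝ) : ℝ := t - 2 * π * ci t

theorem rd_mem (t : ℝ) : rd t ∈ Ico (-π) π := by
  have hpi := Real.pi_pos
  unfold rd ci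
  have h1 := Int.floor_le ((t + π) / (2 * π))
  have h2 := Int.lt_floor_add_one ((t + π) / (2 * π))
  set n := ⌊(t + π) / (2 * π)⌋
  rw [le_div_iff₀ (by positivity)] at h1
  rw [div_lt_iff₀ (by positivity)] at h2
  constructor <;> nlinarith

theorem ci_eq {t : ℝ} {n : ℤ} (h : |t - 2 * π * n| < π) : ci t = n := by
  have hpi := Real.pi_pos
  unfold ci
  rw [abs_lt] at h
  rw [Int.floor_eq_iff, le_div_iff₀ (by positivity), div_lt_iff₀ (by positivity)]
  constructor <;> nlinarith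

theorem ci_add (t : ℝ) (n : ℤ) : ci (t + 2 * π * n) = ci t + n := by
  have hpi := Real.pi_pos
  unfold ci
  have h : (t + 2 * π * n + π) / (2 * π) = (t + π) / (2 * π) + n := by field_simp; ring
  rw [h, Int.floor_add_intCast]

theorem rd_per (t : ℝ) : rd (t + 2 * π) = rd t := by
  have h := ci_add t 1
  rw [Int.cast_one, mul_one] at h
  unfold rd
  rw [h]
  push_cast
  ring

theorem rd_self {t : ℝ} (h : |t| < π) : rd t = t := by
  have h1 := ci_eq (t := t) (n := 0) (by simpa using h)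
  unfold rd
  rw [h1]
  simp

/-- The scaled point. -/
def sc (W c : ℝ) (x : V) : V := ![W * (rd (x 0) - c), W * rd (x 1), 0]

/-- The scaled point in a given cell. -/
def scn (W c : ℝ) (n₀ n₁ : ℤ) (x : V) : V := ![W * (x 0 - 2 * π * n₀ - c), W * (x 1 - 2 * π * n₁), 0]

/-- The square of the distance to the axis. -/
def sg (X : V) : ℝ := X 0 ^ 2 + X 1 ^ 2

/-- Smooth functions supported in the unit cylinder. -/
def Sm1 (h : V → ℝ) : Prop := ContDiff ℝ ∞ h ∧ ∀ X, 1 < sg X → h X = 0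

/-- The dilated periodized function. -/
def dil (W c : ℝ) (h : V → ℝ) (x : V) : ℝ := h (sc W c x)

theorem sg_contDiff : ContDiff ℝ ∞ sg := by
  unfold sg
  fun_prop

theorem Sm1.pd {h : V → ℝ} (hh : Sm1 h) (i : Fin 3) : Sm1 (pd i h) := by
  refine ⟨pd_contDiff hh.1 i, fun X hX => ?_⟩
  have h1 : h =ᶠ[𝓝 X] fun _ => 0 := by
    have : IsOpen {X : V | 1 < sg X} := isOpen_lt continuous_const sg_contDiff.continuous
    filter_upwards [this.mem_nhds hX] with Y hY
    exact hh.2 Y hY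
  unfold CK.pd
  rw [h1.fderiv_eq]
  simp

/-- The parameters of a disc. -/
structure Dp (W c : ℝ) : Prop where
  W1 : 1 ≤ W
  c1 : |c| ≤ 1

section

variable {W c : ℝ} {h : V → ℝ}

theorem Dp.pos (hp : Dp W c) : 0 < W := by linarith [hp.W1]

/-- Where the dilated function does not vanish. -/
theorem dil_ne (hp : Dp W c) (hh : Sm1 h) {x : V} (hx : dil W c h x ≠ 0) :
    |rd (x 0) - c| ≤ 1 / W ∧ |rd (x 1)| ≤ 1 / W := by
  have hW := hp.pos
  have h1 : ¬ 1 < sg (sc W c x) := fun h => hx (hh.2 _ h)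
  push Not at h1
  have e0 : sg (sc W c x) = (W * (rd (x 0) - c)) ^ 2 + (W * rd (x 1)) ^ 2 := rfl
  rw [e0] at h1
  have h2 : (W * (rd (x 0) - c)) ^ 2 ≤ 1 := by nlinarith [sq_nonneg (W * rd (x 1))]
  have h3 : (W * rd (x 1)) ^ 2 ≤ 1 := by nlinarith [sq_nonneg (W * (rd (x 0) - c))]
  rw [sq_le_one_iff_abs_le_one, abs_mul, abs_of_pos hW] at h2 h3
  rw [le_div_iff₀ hW, le_div_iff₀ hW]
  constructor <;> linarith

theorem Dp.inv_le (hp : Dp W c) : 1 / W ≤ 1 := by
  rw [div_le_one hp.pos]; exact hp.W1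

theorem dil_ne' (hp : Dp W c) (hh : Sm1 h) {x : V} (hx : dil W c h x ≠ 0) :
    |rd (x 0)| ≤ 2 ∧ |rd (x 1)| ≤ 2 := by
  obtain ⟨h1, h2⟩ := dil_ne hp hh hx
  have h3 := hp.inv_le
  have h4 := hp.c1
  constructor
  · have h5 := abs_sub_abs_le_abs_sub (rd (x 0)) c
    linarith
  · linarith

theorem sc_scn {x : V} {n₀ n₁ : ℤ} (h0 : |x 0 - 2 * π * n₀| < π) (h1 : |x 1 - 2 * π * n₁| < π) :
    sc W c x = scn W c n₀ n₁ x := by
  unfold sc scn rd
  rw [ci_eq h0, ci_eq h1]

/-- The local structure of a dilated function. -/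
theorem dil_local (hp : Dp W c) (x : V) :
    (∃ n₀ n₁ : ℤ, |x 0 - 2 * π * n₀| < π ∧ |x 1 - 2 * π * n₁| < π) ∨
      (∀ h : V → ℝ, Sm1 h → dil W c h =ᶠ[𝓝 x] fun _ => 0) := by
  have hpi := Real.pi_gt_three
  by_cases h0 : |rd (x 0)| < π
  · by_cases h1 : |rd (x 1)| < π
    · exact Or.inl ⟨ci (x 0), ci (x 1), h0, h1⟩
    · right
      intro h hh
      have hN : {y : V | |y 1 - x 1| < 1} ∈ 𝓝 x := by
        refine (isOpen_lt (by fun_prop) continuous_const).mem_nhds ?_
        simp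
      filter_upwards [hN] with y hy
      by_contra hcon
      have h2 := (dil_ne' hp hh hcon).2
      apply h1
      unfold rd at h2
      have h3 : |x 1 - 2 * π * ci (y 1)| < π := by
        have h4 : x 1 - 2 * π * ci (y 1) = (y 1 - 2 * π * ci (y 1)) - (y 1 - x 1) := by ring
        rw [h4]
        have h5 := abs_sub (y 1 - 2 * π * ci (y 1)) (y 1 - x 1)
        have h6 : |y 1 - x 1| < 1 := hy
        linarith
      have h7 := ci_eq h3
      unfold rd
      rw [h7]
      exact h3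
  · right
    intro h hh
    have hN : {y : V | |y 0 - x 0| < 1} ∈ 𝓝 x := by
      refine (isOpen_lt (by fun_prop) continuous_const).mem_nhds ?_
      simp
    filter_upwards [hN] with y hy
    by_contra hcon
    have h2 := (dil_ne' hp hh hcon).1
    apply h0
    unfold rd at h2
    have h3 : |x 0 - 2 * π * ci (y 0)| < π := by
      have h4 : x 0 - 2 * π * ci (y 0) = (y 0 - 2 * π * ci (y 0)) - (y 0 - x 0) := by ring
      rw [h4]
      have h5 := abs_sub (y 0 - 2 * π * ci (y 0)) (y 0 - x 0)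
      have h6 : |y 0 - x 0| < 1 := hy
      linarith
    have h7 := ci_eq h3
    unfold rd
    rw [h7]
    exact h3

theorem sc_ev {x : V} {n₀ n₁ : ℤ} (h0 : |x 0 - 2 * π * n₀| < π) (h1 : |x 1 - 2 * π * n₁| < π)
    (h : V → ℝ) : dil W c h =ᶠ[𝓝 x] fun y => h (scn W c n₀ n₁ y) := by
  have hN : {y : V | |y 0 - 2 * π * n₀| < π ∧ |y 1 - 2 * π * n₁| < π} ∈ 𝓝 x := by
    have o1 : IsOpen {y : V | |y 0 - 2 * π * n₀| < π} := isOpen_lt (by fun_prop) continuous_const
    have o2 : IsOpen {y : V | |y 1 - 2 * π * n₁| < π} := isOpen_lt (by fun_prop) continuous_const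
    exact (o1.inter o2).mem_nhds ⟨h0, h1⟩
  filter_upwards [hN] with y hy
  unfold dil
  rw [sc_scn hy.1 hy.2]

theorem scn_contDiff (n₀ n₁ : ℤ) : ContDiff ℝ ∞ (scn W c n₀ n₁) := by
  unfold scn
  refine contDiff_pi.2 fun i => ?_
  fin_cases i
  · change ContDiff ℝ ∞ fun x : V => W * (x 0 - 2 * π * n₀ - c); fun_prop
  · change ContDiff ℝ ∞ fun x : V => W * (x 1 - 2 * π * n₁); fun_prop
  · change ContDiff ℝ ∞ fun _ : V => (0 : ℝ); exact contDiff_const

theorem dil_contDiff (hp : Dp W c) (hh : Sm1 h) : ContDiff ℝ ∞ (dil W c h) := by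
  rw [contDiff_iff_contDiffAt]
  intro x
  rcases dil_local hp x with ⟨n₀, n₁, h0, h1⟩ | h2
  · exact ((hh.1.comp (scn_contDiff n₀ n₁)).contDiffAt).congr_of_eventuallyEq (sc_ev h0 h1 h)
  · exact contDiffAt_const.congr_of_eventuallyEq (h2 h hh)

theorem sc_per (i : Fin 3) (x : V) : sc W c (x + Pi.single i (2 * π)) = sc W c x := by
  unfold sc
  fin_cases i
  · have e0 : (x + Pi.single (0 : Fin 3) (2 * π) : V) 0 = x 0 + 2 * π := by simp
    have e1 : (x + Pi.single (0 : Fin 3) (2 * π) : V) 1 = x 1 := by simp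
    change ![W * (rd ((x + Pi.single (0 : Fin 3) (2 * π) : V) 0) - c),
      W * rd ((x + Pi.single (0 : Fin 3) (2 * π) : V) 1), 0] = _
    rw [e0, e1, rd_per]
  · have e0 : (x + Pi.single (1 : Fin 3) (2 * π) : V) 0 = x 0 := by simp
    have e1 : (x + Pi.single (1 : Fin 3) (2 * π) : V) 1 = x 1 + 2 * π := by simp
    change ![W * (rd ((x + Pi.single (1 : Fin 3) (2 * π) : V) 0) - c),
      W * rd ((x + Pi.single (1 : Fin 3) (2 * π) : V) 1), 0] = _
    rw [e0, e1, rd_per]
  · have e0 : (x + Pi.single (2 : Fin 3) (2 * π) : V) 0 = x 0 := by simp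
    have e1 : (x + Pi.single (2 : Fin 3) (2 * π) : V) 1 = x 1 := by simp
    change ![W * (rd ((x + Pi.single (2 : Fin 3) (2 * π) : V) 0) - c),
      W * rd ((x + Pi.single (2 : Fin 3) (2 * π) : V) 1), 0] = _
    rw [e0, e1]

theorem dil_spf (hp : Dp W c) (hh : Sm1 h) : SPf (dil W c h) :=
  ⟨dil_contDiff hp hh, fun i x => by unfold dil; rw [sc_per]⟩

theorem scn_line (n₀ n₁ : ℤ) (x : V) (i : Fin 3) (s : ℝ) :
    scn W c n₀ n₁ (x + s • (Pi.single i (1 : ℝ) : V)) = scn W c n₀ n₁ x +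
      s • (if i = 2 then 0 else W • (Pi.single i (1 : ℝ) : V)) := by
  unfold scn
  ext l
  fin_cases i <;> fin_cases l <;> simp [Pi.single_apply] <;> ring

/-- Derivatives of dilated functions. -/
theorem pd_dil (hp : Dp W c) (hh : Sm1 h) (i : Fin 3) (x : V) :
    pd i (dil W c h) x = if i = 2 then 0 else W * dil W c (pd i h) x := by
  rcases dil_local hp x with ⟨n₀, n₁, h0, h1⟩ | h2
  · have e1 : pd i (dil W c h) x = pd i (fun y => h (scn W c n₀ n₁ y)) x := by
      unfold CK.pd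
      rw [(sc_ev h0 h1 h).fderiv_eq]
    have e2 : dil W c (pd i h) x = pd i h (scn W c n₀ n₁ x) := (sc_ev h0 h1 _).eq_of_nhds
    rw [e1, e2]
    have hd : Differentiable ℝ h := hh.1.differentiable (by simp)
    refine pd_of_line ((hh.1.comp (scn_contDiff n₀ n₁)).differentiable (by simp) x) ?_
    simp only [scn_line]
    have h3 : HasDerivAt (fun s : ℝ => scn W c n₀ n₁ x +
        s • (if i = 2 then 0 else W • (Pi.single i (1 : ℝ) : V)))
        (if i = 2 then 0 else W • (Pi.single i (1 : ℝ) : V)) 0 := by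
      have := ((hasDerivAt_id (0 : ℝ)).smul_const
        (if i = 2 then (0 : V) else W • (Pi.single i (1 : ℝ) : V))).const_add (scn W c n₀ n₁ x)
      simpa using this
    have h4 : HasFDerivAt h (fderiv ℝ h (scn W c n₀ n₁ x)) (scn W c n₀ n₁ x +
        (0 : ℝ) • (if i = 2 then 0 else W • (Pi.single i (1 : ℝ) : V))) := by
      simpa using (hd (scn W c n₀ n₁ x)).hasFDerivAt
    have h5 := h4.comp_hasDerivAt (0 : ℝ) h3
    refine h5.congr_deriv ?_
    split_ifs with hi
    · simp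
    · rw [map_smul, smul_eq_mul]
      rfl
  · have e1 : pd i (dil W c h) x = 0 := by
      unfold CK.pd
      rw [(h2 h hh).fderiv_eq]
      simp
    have e2 : dil W c (pd i h) x = 0 := (h2 _ (hh.pd i)).eq_of_nhds
    rw [e1, e2]
    simp

end

end Pool.Agent.H306.DS
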