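import Pool.Agent.H306.DS.Hs2
import Pool.Agent.H306.CK.Four4

/-! Sobolev norms of scalar functions. -/

noncomputable section

namespace Pool.Agent.H306.DS

open Set MeasureTheory Filter Topology

open scoped Real ContDiff ENNReal

open Pool.Agent.H306.CK

/-- The square of the scalar Sobolev norm. -/
def hsc (s : ℝ) (f : V → ℝ) : ℝ≥0∞ := ∑' k, ENNReal.ofReal (W s k * ‖fc f k‖ ^ 2)

theorem hs_eq_sum (s : ℝ) (v : V → V) : hs s v = ∑ i, hsc s (fun x => v x i) := by
  rw [hs_def]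
  unfold hsc
  rw [← Summable.tsum_finsetSum fun i _ => ENNReal.summable]
  refine tsum_congr fun k => ?_
  have hW := (W_pos s k).le
  rw [Finset.mul_sum, ENNReal.ofReal_sum_of_nonneg fun i _ => by positivity]

theorem hsc_mono {s t : ℝ} (h : s ≤ t) (f : V → ℝ) : hsc s f ≤ hsc t f := by
  refine ENNReal.tsum_le_tsum fun k => ENNReal.ofReal_le_ofReal ?_
  exact mul_le_mul_of_nonneg_right (W_mono h k) (sq_nonneg _)

theorem hsc_smul (s c : ℝ) (f : V → ℝ) :
    hsc s (fun x => c * f x) = ENNReal.ofReal (c ^ 2) * hsc s f := by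
  unfold hsc
  rw [← ENNReal.tsum_mul_left]
  refine tsum_congr fun k => ?_
  rw [← ENNReal.ofReal_mul (sq_nonneg c), fc_smul, norm_mul, mul_pow, Complex.norm_real,
    Real.norm_eq_abs, sq_abs]
  congr 1
  ring

theorem hsc_zero_fun (s : ℝ) : hsc s (fun _ => 0) = 0 := by
  have h := hsc_smul s 0 (fun _ => 0)
  simpa using h

theorem hsc_add (s : ℝ) {f g : V → ℝ} (hf : Continuous f) (hg : Continuous g) :
    hsc s (fun x => f x + g x) ≤ 2 * hsc s f + 2 * hsc s g := by
  unfold hsc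
  rw [← ENNReal.tsum_mul_left, ← ENNReal.tsum_mul_left, ← ENNReal.tsum_add]
  refine ENNReal.tsum_le_tsum fun k => ?_
  have hW := (W_pos s k).le
  rw [fc_add hf hg, two_eq', ← ENNReal.ofReal_mul (by norm_num), ← ENNReal.ofReal_mul (by norm_num),
    ← ENNReal.ofReal_add (by positivity) (by positivity)]
  apply ENNReal.ofReal_le_ofReal
  have h1 := norm_add_le (fc f k) (fc g k)
  have h2 : ‖fc f k + fc g k‖ ^ 2 ≤ (‖fc f k‖ + ‖fc g k‖) ^ 2 :=
    pow_le_pow_left₀ (norm_nonneg _) h1 2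
  calc W s k * ‖fc f k + fc g k‖ ^ 2 ≤ W s k * (‖fc f k‖ + ‖fc g k‖) ^ 2 := by gcongr
    _ ≤ W s k * (2 * ‖fc f k‖ ^ 2 + 2 * ‖fc g k‖ ^ 2) := by
        gcongr
        nlinarith [sq_nonneg (‖fc f k‖ - ‖fc g k‖)]
    _ = _ := by ring
where
  two_eq' : (2 : ℝ≥0∞) = ENNReal.ofReal 2 := by simp

theorem hsc_zero {f : V → ℝ} (hf : Continuous f) :
    hsc 0 f = ENNReal.ofReal ((2 * π) ^ 3 * ∫ x in torus, f x ^ 2) := by
  have h3 := parseval_sq hf
  rw [← h3.tsum_eq, ENNReal.ofReal_tsum_of_nonneg (fun k => sq_nonneg _) h3.summable]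
  unfold hsc
  refine tsum_congr fun k => ?_
  rw [W_zero, one_mul]

theorem hsc_succ {f : V → ℝ} (hf : SPf f) (s : ℝ) :
    hsc (s + 1) f = hsc s f + ∑ i, hsc s (pd i f) := by
  unfold hsc
  rw [← Summable.tsum_finsetSum fun i _ => ENNReal.summable, ← ENNReal.tsum_add]
  refine tsum_congr fun k => ?_
  have hW := (W_pos s k).le
  rw [← ENNReal.ofReal_sum_of_nonneg fun i _ => by positivity,
    ← ENNReal.ofReal_add (by positivity) (Finset.sum_nonneg fun i _ => by positivity)]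
  congr 1
  have h1 : ∀ i, ‖fc (CK.pd i f) k‖ ^ 2 = (k i : ℝ) ^ 2 * ‖fc f k‖ ^ 2 := by
    intro i
    rw [fc_pd hf.c1 hf.2, norm_mul, norm_mul, Complex.norm_I, one_mul, mul_pow,
      Complex.norm_intCast, sq_abs]
  simp only [h1]
  rw [W_add, W_one, ← Finset.mul_sum, ← Finset.sum_mul]
  ring

theorem hsc_pd_le {f : V → ℝ} (hf : SPf f) (s : ℝ) (i : Fin 3) :
    hsc s (pd i f) ≤ hsc (s + 1) f := by
  rw [hsc_succ hf]
  refine le_trans ?_ le_add_self
  exact Finset.single_le_sum (f := fun i => hsc s (pd i f)) (fun i _ => zero_le) (Finset.mem_univ i)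

theorem hsc_interp (f : V → ℝ) {K n s : ℝ} (hK : 1 ≤ K) (h1 : n ≤ s) (h2 : s ≤ n + 1) :
    hsc s f ≤ ENNReal.ofReal (K ^ (2 * (s - n))) * hsc n f +
      ENNReal.ofReal (K ^ (2 * (s - n - 1))) * hsc (n + 1) f := by
  unfold hsc
  have hK0 : 0 < K := by linarith
  rw [← ENNReal.tsum_mul_left, ← ENNReal.tsum_mul_left, ← ENNReal.tsum_add]
  refine ENNReal.tsum_le_tsum fun k => ?_
  have p1 := Real.rpow_pos_of_pos hK0 (2 * (s - n))
  have p2 := Real.rpow_pos_of_pos hK0 (2 * (s - n - 1))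
  have p3 := W_pos n k
  have p4 := W_pos (n + 1) k
  rw [← ENNReal.ofReal_mul p1.le, ← ENNReal.ofReal_mul p2.le,
    ← ENNReal.ofReal_add (by positivity) (by positivity)]
  apply ENNReal.ofReal_le_ofReal
  have key : W s k ≤ K ^ (2 * (s - n)) * W n k + K ^ (2 * (s - n - 1)) * W (n + 1) k := by
    set w := 1 + ∑ j, (k j : ℝ) ^ 2 with hw
    have hw0 : 0 < w := W_base k
    have e1 : W s k = W (s - n) k * W n k := by rw [← W_add]; congr 1; ring
    have e2 : W s k = W (s - n - 1) k * W (n + 1) k := by rw [← W_add]; congr 1; ring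
    rcases le_or_gt w (K ^ 2) with h | h
    · have h3 : W (s - n) k ≤ K ^ (2 * (s - n)) := by
        unfold W
        rw [← hw]
        calc w ^ (s - n) ≤ (K ^ 2) ^ (s - n) := Real.rpow_le_rpow hw0.le h (by linarith)
          _ = _ := by rw [← Real.rpow_natCast, ← Real.rpow_mul hK0.le]; norm_num
      have h4 : W (s - n) k * W n k ≤ K ^ (2 * (s - n)) * W n k := by gcongr
      have h5 : 0 ≤ K ^ (2 * (s - n - 1)) * W (n + 1) k := by positivity
      linarith
    · have h3 : W (s - n - 1) k ≤ K ^ (2 * (s - n - 1)) := by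
        unfold W
        rw [← hw]
        calc w ^ (s - n - 1) ≤ (K ^ 2) ^ (s - n - 1) :=
              Real.rpow_le_rpow_of_nonpos (by positivity) h.le (by linarith)
          _ = _ := by rw [← Real.rpow_natCast, ← Real.rpow_mul hK0.le]; norm_num
      have h4 : W (s - n - 1) k * W (n + 1) k ≤ K ^ (2 * (s - n - 1)) * W (n + 1) k := by gcongr
      have h5 : 0 ≤ K ^ (2 * (s - n)) * W n k := by positivity
      linarith
  calc W s k * ‖fc f k‖ ^ 2 ≤
        (K ^ (2 * (s - n)) * W n k + K ^ (2 * (s - n - 1)) * W (n + 1) k) * ‖fc f k‖ ^ 2 := by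
        gcongr
    _ = _ := by ring

end Pool.Agent.H306.DS
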