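import Pool.Agent.H306.DS.Geo1
import Pool.Agent.H306.DS.Hsc

/-! Radially oscillating functions. -/

noncomputable section

namespace Pool.Agent.H306.DS

open Set MeasureTheory Filter Topology

open scoped Real ContDiff ENNReal

open Pool.Agent.H306.CK

/-- Smooth functions supported in the annulus `1/4 ≤ σ ≤ 1`. -/
def Ann (a : V → ℝ) : Prop := ContDiff ℝ ∞ a ∧ ∀ X, (sg X < 1 / 4 ∨ 1 < sg X) → a X = 0

/-- Smooth periodic functions of one variable. -/
def Pd (P : ℝ → ℝ) : Prop := ContDiff ℝ ∞ P ∧ Function.Periodic P (2 * π)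

/-- Smooth periodic functions with mean zero. -/
def Mz (P : ℝ → ℝ) : Prop := Pd P ∧ ∫ t in (0)..(2 * π), P t = 0

/-- The oscillating function. -/
def osc (L : ℝ) (a : V → ℝ) (P : ℝ → ℝ) (X : V) : ℝ := a X * P (L * sg X)

/-- The horizontal coordinates. -/
def xc (i : Fin 3) (X : V) : ℝ := if i = 2 then 0 else X i

theorem xc_contDiff (i : Fin 3) : ContDiff ℝ ∞ (xc i) := by
  unfold xc
  split_ifs
  · exact contDiff_const
  · fun_prop

theorem pd_sg (i : Fin 3) (X : V) : pd i sg X = 2 * xc i X := by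
  refine pd_of_line (sg_contDiff.differentiable (by simp) X) ?_
  have h1 : (fun s : ℝ => sg (X + s • (Pi.single i (1 : ℝ) : V))) =
      fun s => sg X + 2 * xc i X * s + (if i = 2 then 0 else s ^ 2) := by
    ext s
    unfold sg xc
    fin_cases i <;> simp <;> ring
  rw [h1]
  have h2 : HasDerivAt (fun s : ℝ => sg X + 2 * xc i X * s) (2 * xc i X * 1) 0 :=
    ((hasDerivAt_id (0 : ℝ)).const_mul _).const_add _
  have h3 : HasDerivAt (fun s : ℝ => if i = 2 then 0 else s ^ 2) 0 0 := by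
    split_ifs
    · exact hasDerivAt_const _ _
    · have := hasDerivAt_pow 2 (0 : ℝ)
      simpa using this
  exact (h2.add h3).congr_deriv (by ring)

theorem Ann.sm1 {a : V → ℝ} (h : Ann a) : Sm1 a := ⟨h.1, fun X hX => h.2 X (Or.inr hX)⟩

theorem Ann.mul {a g : V → ℝ} (h : Ann a) (hg : ContDiff ℝ ∞ g) : Ann (fun X => g X * a X) :=
  ⟨hg.mul h.1, fun X hX => by simp only; rw [h.2 X hX, mul_zero]⟩

theorem Ann.add {a a' : V → ℝ} (h : Ann a) (h' : Ann a') : Ann (fun X => a X + a' X) :=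
  ⟨h.1.add h'.1, fun X hX => by simp only; rw [h.2 X hX, h'.2 X hX, add_zero]⟩

theorem Ann.pd {a : V → ℝ} (h : Ann a) (i : Fin 3) : Ann (pd i a) := by
  refine ⟨pd_contDiff h.1 i, fun X hX => ?_⟩
  have h1 : a =ᶠ[𝓝 X] fun _ => 0 := by
    have o1 : IsOpen {X : V | sg X < 1 / 4} := isOpen_lt sg_contDiff.continuous continuous_const
    have o2 : IsOpen {X : V | 1 < sg X} := isOpen_lt continuous_const sg_contDiff.continuous
    filter_upwards [(o1.union o2).mem_nhds hX] with Y hY
    exact h.2 Y hY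
  unfold CK.pd
  rw [h1.fderiv_eq]
  simp

theorem Ann.zero : Ann (fun _ => 0) := ⟨contDiff_const, fun _ _ => rfl⟩

theorem Sm1.bdd {h : V → ℝ} (hh : Sm1 h) : ∃ C : ℝ, 0 ≤ C ∧ ∀ X : V, X 2 = 0 → |h X| ≤ C := by
  obtain ⟨C, hC⟩ := (isCompact_closedBall (0 : V) 1).exists_bound_of_continuousOn
    hh.1.continuous.continuousOn
  refine ⟨|C|, abs_nonneg _, fun X hX => ?_⟩
  by_cases h1 : 1 < sg X
  · rw [hh.2 X h1, abs_zero]; exact abs_nonneg _
  · push Not at h1
    unfold sg at h1
    refine (hC X ?_).trans (le_abs_self _)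
    rw [mem_closedBall_zero_iff, pi_norm_le_iff_of_nonneg zero_le_one]
    intro i
    rw [Real.norm_eq_abs, ← sq_le_one_iff_abs_le_one]
    fin_cases i
    · change X 0 ^ 2 ≤ 1; nlinarith [sq_nonneg (X 1)]
    · change X 1 ^ 2 ≤ 1; nlinarith [sq_nonneg (X 0)]
    · change X 2 ^ 2 ≤ 1; rw [hX]; norm_num

theorem Pd.bdd {P : ℝ → ℝ} (h : Pd P) : ∃ C : ℝ, 0 ≤ C ∧ ∀ t, |P t| ≤ C := by
  obtain ⟨C, hC⟩ := (isCompact_Icc (a := (0 : ℝ)) (b := 2 * π)).exists_bound_of_continuousOn
    h.1.continuous.continuousOn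
  refine ⟨|C|, abs_nonneg _, fun t => ?_⟩
  obtain ⟨y, hy, hty⟩ := h.2.exists_mem_Ico₀ Real.two_pi_pos t
  rw [hty]
  exact (hC y ⟨hy.1, hy.2.le⟩).trans (le_abs_self _)

theorem Pd.deriv {P : ℝ → ℝ} (h : Pd P) : Pd (deriv P) := by
  refine ⟨(contDiff_infty_iff_deriv.1 h.1).2, fun t => ?_⟩
  have h1 : (fun s => P (s + 2 * π)) = P := by ext s; exact h.2 s
  have h2 := deriv_comp_add_const P (2 * π) t
  rw [h1] at h2
  exact h2.symm

/-- Antiderivatives. -/
theorem Mz.anti {P : ℝ → ℝ} (h : Mz P) : ∃ Q : ℝ → ℝ, Mz Q ∧ deriv Q = P := by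
  have hpi := Real.pi_pos
  set Q₀ : ℝ → ℝ := fun t => ∫ s in (0)..t, P s with hQ₀
  have hd : ∀ t, HasDerivAt Q₀ (P t) t := fun t =>
    intervalIntegral.integral_hasDerivAt_right (h.1.1.continuous.intervalIntegrable _ _)
      (h.1.1.continuous.stronglyMeasurableAtFilter _ _) h.1.1.continuous.continuousAt
  have hdd : deriv Q₀ = P := by ext t; exact (hd t).deriv
  have hs : ContDiff ℝ ∞ Q₀ := by
    rw [contDiff_infty_iff_deriv]
    exact ⟨fun t => (hd t).differentiableAt, by rw [hdd]; exact h.1.1⟩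
  have hp : Function.Periodic Q₀ (2 * π) := by
    intro t
    have h1 : ∫ s in t..(t + 2 * π), P s = 0 := by
      rw [h.1.2.intervalIntegral_add_eq t 0, zero_add]
      exact h.2
    have h2 := intervalIntegral.integral_add_adjacent_intervals
      (h.1.1.continuous.intervalIntegrable (μ := volume) 0 t)
      (h.1.1.continuous.intervalIntegrable (μ := volume) t (t + 2 * π))
    simp only [hQ₀]
    rw [← h2, h1, add_zero]
  set m := (∫ t in (0)..(2 * π), Q₀ t) / (2 * π) with hm
  refine ⟨fun t => Q₀ t - m, ⟨⟨hs.sub contDiff_const, fun t => by simp only; rw [hp t]⟩, ?_⟩, ?_⟩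
  · rw [intervalIntegral.integral_sub (hs.continuous.intervalIntegrable _ _)
      (continuous_const.intervalIntegrable _ _), intervalIntegral.integral_const, hm, smul_eq_mul]
    field_simp
    ring
  · ext t
    have := (hd t).sub_const m
    exact this.deriv

section

variable {a : V → ℝ} {P : ℝ → ℝ} {L : ℝ}

theorem osc_contDiff (ha : ContDiff ℝ ∞ a) (hP : ContDiff ℝ ∞ P) (L : ℝ) :
    ContDiff ℝ ∞ (osc L a P) := by
  unfold osc
  exact ha.mul (hP.comp (contDiff_const.mul sg_contDiff))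

theorem osc_ann (ha : Ann a) (hP : ContDiff ℝ ∞ P) (L : ℝ) : Ann (osc L a P) :=
  ⟨osc_contDiff ha.1 hP L, fun X hX => by unfold osc; rw [ha.2 X hX, zero_mul]⟩

theorem pd_osc (ha : ContDiff ℝ ∞ a) (hP : ContDiff ℝ ∞ P) (L : ℝ) (i : Fin 3) (X : V) :
    pd i (osc L a P) X = osc L (pd i a) P X +
      L * osc L (fun X => 2 * xc i X * a X) (deriv P) X := by
  have h1 : ContDiff ℝ ∞ (fun X => P (L * sg X)) := hP.comp (contDiff_const.mul sg_contDiff)
  have h2 : pd i (fun X => P (L * sg X)) X = deriv P (L * sg X) * (L * (2 * xc i X)) := by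
    have h3 : HasFDerivAt sg (fderiv ℝ sg X) X :=
      (sg_contDiff.differentiable (by simp) X).hasFDerivAt
    have h4 := (h3.const_mul L)
    have h5 : HasDerivAt P (deriv P (L * sg X)) (L * sg X) :=
      (hP.differentiable (by simp) _).hasDerivAt
    have h6 := h5.comp_hasFDerivAt X h4
    have h7 : (fun X => P (L * sg X)) = P ∘ fun y => L * sg y := rfl
    unfold CK.pd
    rw [h7, h6.fderiv]
    have h8 := pd_sg i X
    unfold CK.pd at h8
    simp only [smul_apply, smul_eq_mul, h8]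
  have h3 := pd_mul (ha.of_le (by exact_mod_cast le_top)) (h1.of_le (by exact_mod_cast le_top)) i X
  unfold osc
  rw [h3, h2]
  ring

/-- The coefficients of the antiderivative. -/
def bc (a : V → ℝ) (i : Fin 3) (X : V) : ℝ := xc i X / (2 * sg X) * a X

theorem bc_ann (ha : Ann a) (i : Fin 3) : Ann (bc a i) := by
  constructor
  · rw [contDiff_iff_contDiffAt]
    intro X
    by_cases hX : sg X < 1 / 4
    · have o1 : IsOpen {X : V | sg X < 1 / 4} := isOpen_lt sg_contDiff.continuous continuous_const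
      have h1 : bc a i =ᶠ[𝓝 X] fun _ => 0 := by
        filter_upwards [o1.mem_nhds hX] with Y hY
        unfold bc
        rw [ha.2 Y (Or.inl hY), mul_zero]
      exact contDiffAt_const.congr_of_eventuallyEq h1
    · push Not at hX
      refine ContDiffAt.mul (ContDiffAt.div (xc_contDiff i).contDiffAt
        (contDiff_const.mul sg_contDiff).contDiffAt ?_) ha.1.contDiffAt
      positivity
  · intro X hX
    unfold bc
    rw [ha.2 X hX, mul_zero]

/-- The divergence of the coefficients. -/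
def bd0 (a : V → ℝ) (X : V) : ℝ := ∑ i, pd i (bc a i) X

theorem bd0_ann (ha : Ann a) : Ann (bd0 a) := by
  have h := fun i => (bc_ann ha i).pd i
  have h1 := ((h 0).add (h 1)).add (h 2)
  have h2 : (fun X => (CK.pd 0 (bc a 0) X + CK.pd 1 (bc a 1) X) + CK.pd 2 (bc a 2) X) = bd0 a := by
    ext X
    unfold bd0
    rw [Fin.sum_univ_three]
  rwa [h2] at h1

theorem osc_anti (ha : Ann a) {Q : ℝ → ℝ} (hQ : ContDiff ℝ ∞ Q) (hQP : deriv Q = P) (L : ℝ)
    (X : V) : L * osc L a P X = (∑ i, pd i (osc L (bc a i) Q) X) - osc L (bd0 a) Q X := by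
  have h1 : ∀ i, pd i (osc L (bc a i) Q) X = osc L (pd i (bc a i)) Q X +
      L * osc L (fun X => 2 * xc i X * bc a i X) P X := fun i => by
    rw [pd_osc (bc_ann ha i).1 hQ, hQP]
  simp only [h1]
  have h2 : ∑ i, (2 * xc i X * bc a i X) = a X := by
    unfold bc
    by_cases hX : sg X < 1 / 4
    · simp [ha.2 X (Or.inl hX)]
    · push Not at hX
      have h3 : sg X ≠ 0 := by linarith
      have h4 : ∑ i, xc i X ^ 2 = sg X := by
        rw [Fin.sum_univ_three]
        unfold xc sg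
        simp
      have h5 : ∀ i, 2 * xc i X * (xc i X / (2 * sg X) * a X) = xc i X ^ 2 * (a X / sg X) := by
        intro i; field_simp
      simp only [h5]
      rw [← Finset.sum_mul, h4]
      field_simp
  unfold osc bd0
  rw [Finset.sum_add_distrib, ← Finset.sum_mul, ← Finset.mul_sum, ← Finset.sum_mul, h2]
  ring

end

/-- The bound of iterated derivatives by partial derivatives. -/
theorem iter_pd {f : V → ℝ} (hf : ContDiff ℝ ∞ f) (q : ℕ) (x : V) :
    ‖iteratedFDeriv ℝ (q + 1) f x‖ ≤ ∑ i, ‖iteratedFDeriv ℝ q (pd i f) x‖ := by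
  rw [← norm_iteratedFDeriv_fderiv]
  have h1 : fderiv ℝ f = fun y => ∑ i : Fin 3, pd i f y •
      (ContinuousLinearMap.proj i : V →L[ℝ] ℝ) := by
    ext y v
    simp only [FunLike.coe_sum, Finset.sum_apply, smul_apply,
      ContinuousLinearMap.proj_apply, smul_eq_mul]
    have h2 : v = ∑ i, v i • (Pi.single i (1 : ℝ) : V) := by
      ext j
      simp [Finset.sum_apply, Pi.single_apply]
    conv_lhs => rw [h2, map_sum]
    refine Finset.sum_congr rfl fun i _ => ?_
    rw [map_smul, smul_eq_mul, mul_comm]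
    rfl
  have h2 : ∀ i : Fin 3, ContDiff ℝ ∞ (fun y => pd i f y •
      (ContinuousLinearMap.proj i : V →L[ℝ] ℝ)) := fun i => (pd_contDiff hf i).smul contDiff_const
  rw [h1, iteratedFDeriv_fun_sum_apply fun i _ => ((h2 i).of_le (by exact_mod_cast le_top)).contDiffAt]
  refine (norm_sum_le _ _).trans (Finset.sum_le_sum fun i _ => ?_)
  have h3 : (fun y => pd i f y • (ContinuousLinearMap.proj i : V →L[ℝ] ℝ)) =
      (ContinuousLinearMap.toSpanSingleton ℝ (ContinuousLinearMap.proj i : V →L[ℝ] ℝ)) ∘ pd i f := by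
    ext y v
    simp
  rw [h3]
  refine ((ContinuousLinearMap.toSpanSingleton ℝ _).norm_iteratedFDeriv_comp_left
    (pd_contDiff hf i).contDiffAt (n := q) (by exact_mod_cast le_top)).trans ?_
  rw [ContinuousLinearMap.norm_toSpanSingleton]
  exact mul_le_of_le_one_left (norm_nonneg _) (prj_norm' i)
where
  prj_norm' (j : Fin 3) : ‖(ContinuousLinearMap.proj j : V →L[ℝ] ℝ)‖ ≤ 1 := by
    refine ContinuousLinearMap.opNorm_le_bound _ zero_le_one fun x => ?_
    rw [one_mul]
    exact norm_le_pi_norm x j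

end Pool.Agent.H306.DS
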