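import Pool.Agent.H306.DS.Geo2

/-! Bounds for the oscillating functions in the discs. -/

noncomputable section

namespace Pool.Agent.H306.DS

open Set MeasureTheory Filter Topology

open scoped Real ContDiff ENNReal

open Pool.Agent.H306.CK

/-- The functions of the construction. -/
def ff (W L c : ℝ) (a : V → ℝ) (P : ℝ → ℝ) : V → ℝ := dil W c (osc L a P)

/-- The parameters. -/
structure Fp (W L c : ℝ) : Prop where
  dp : Dp W c
  L1 : 1 ≤ L

section

variable {W L c : ℝ} {a : V → ℝ} {P : ℝ → ℝ}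

theorem Fp.W1 (h : Fp W L c) : 1 ≤ W := h.dp.W1

theorem ff_spf (h : Fp W L c) (ha : Ann a) (hP : Pd P) : SPf (ff W L c a P) :=
  dil_spf h.dp (osc_ann ha hP.1 L).sm1

theorem pd_ff (h : Fp W L c) (ha : Ann a) (hP : Pd P) (i : Fin 3) (x : V) :
    pd i (ff W L c a P) x = if i = 2 then 0 else W * ff W L c (pd i a) P x +
      (W * L) * ff W L c (fun X => 2 * xc i X * a X) (deriv P) x := by
  unfold ff
  rw [pd_dil h.dp (osc_ann ha hP.1 L).sm1]
  split_ifs
  · rfl
  · have h1 : dil W c (pd i (osc L a P)) x = dil W c (osc L (pd i a) P) x +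
        L * dil W c (osc L (fun X => 2 * xc i X * a X) (deriv P)) x :=
      pd_osc ha.1 hP.1 L i (sc W c x)
    rw [h1]
    ring

theorem ann_xc (ha : Ann a) (i : Fin 3) : Ann (fun X => 2 * xc i X * a X) :=
  ha.mul (contDiff_const.mul (xc_contDiff i))

/-- The sup bound. -/
theorem ff_bdd (ha : Ann a) (hP : Pd P) : ∃ C : ℝ, 0 ≤ C ∧ ∀ W L c x, |ff W L c a P x| ≤ C := by
  obtain ⟨C, hC0, hC⟩ := ha.sm1.bdd
  obtain ⟨C', hC'0, hC'⟩ := hP.bdd
  refine ⟨C * C', by positivity, fun W L c x => ?_⟩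
  unfold ff dil osc
  rw [abs_mul]
  have h2 : sc W c x 2 = 0 := rfl
  exact mul_le_mul (hC _ h2) (hC' _) (abs_nonneg _) hC0

/-- The bounds of the derivatives. -/
theorem ff_iter (q : ℕ) : ∀ (a : V → ℝ) (P : ℝ → ℝ), Ann a → Pd P → ∃ C : ℝ, 0 ≤ C ∧
    ∀ W L c, Fp W L c → ∀ x, ‖iteratedFDeriv ℝ q (ff W L c a P) x‖ ≤ C * (W * L) ^ q := by
  induction q with
  | zero =>
    intro a P ha hP
    obtain ⟨C, hC0, hC⟩ := ff_bdd ha hP
    refine ⟨C, hC0, fun W L c _ x => ?_⟩
    rw [norm_iteratedFDeriv_zero, pow_zero, mul_one]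
    exact hC W L c x
  | succ q ih =>
    intro a P ha hP
    choose C₁ hC₁0 hC₁ using fun i => ih (pd i a) P (ha.pd i) hP
    choose C₂ hC₂0 hC₂ using fun i => ih (fun X => 2 * xc i X * a X) (deriv P) (ann_xc ha i) hP.deriv
    refine ⟨∑ i, (C₁ i + C₂ i), Finset.sum_nonneg fun i _ => add_nonneg (hC₁0 i) (hC₂0 i),
      fun W L c h x => ?_⟩
    have hW := h.W1
    have hL := h.L1
    have hWL : W ≤ W * L := by nlinarith
    have hWL0 : 0 ≤ W * L := by nlinarith
    refine (iter_pd (ff_spf h ha hP).1 q x).trans ?_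
    rw [Finset.sum_mul]
    refine Finset.sum_le_sum fun i _ => ?_
    have s1 := (ff_spf h (ha.pd i) hP).1
    have s2 := (ff_spf h (ann_xc ha i) hP.deriv).1
    by_cases hi : i = 2
    · have e1 : pd i (ff W L c a P) = fun _ => 0 := by
        ext y; rw [pd_ff h ha hP, if_pos hi]
      rw [e1, iteratedFDeriv_fun_zero]
      simp only [Pi.zero_apply, norm_zero]
      have := hC₁0 i
      have := hC₂0 i
      positivity
    · have e1 : pd i (ff W L c a P) = (W • ff W L c (pd i a) P) +
          (W * L) • ff W L c (fun X => 2 * xc i X * a X) (deriv P) := by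
        ext y
        rw [pd_ff h ha hP, if_neg hi]
        simp
      have hn : ((q : ℕ) : WithTop ℕ∞) ≤ ((⊤ : ℕ∞) : WithTop ℕ∞) := by exact_mod_cast le_top
      have c1 : ContDiffAt ℝ q (W • ff W L c (pd i a) P) x :=
        ((s1.of_le hn).const_smul W).contDiffAt
      have c2 : ContDiffAt ℝ q ((W * L) • ff W L c (fun X => 2 * xc i X * a X) (deriv P)) x :=
        ((s2.of_le hn).const_smul (W * L)).contDiffAt
      rw [e1, iteratedFDeriv_add_apply c1 c2,
        iteratedFDeriv_const_smul_apply (s1.of_le hn).contDiffAt,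
        iteratedFDeriv_const_smul_apply (s2.of_le hn).contDiffAt]
      refine (norm_add_le _ _).trans ?_
      rw [norm_smul, norm_smul, Real.norm_eq_abs, Real.norm_eq_abs, abs_of_nonneg (by linarith),
        abs_of_nonneg hWL0]
      have h1 := hC₁ i W L c h x
      have h2 := hC₂ i W L c h x
      have h3 := hC₁0 i
      calc W * ‖iteratedFDeriv ℝ q (ff W L c (pd i a) P) x‖ +
            W * L * ‖iteratedFDeriv ℝ q (ff W L c (fun X => 2 * xc i X * a X) (deriv P)) x‖ ≤
            (W * L) * (C₁ i * (W * L) ^ q) + (W * L) * (C₂ i * (W * L) ^ q) := by gcongr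
        _ = _ := by rw [pow_succ]; ring

/-- The box of a disc. -/
def bx (r c : ℝ) : Set V := Icc ![c - r, -r, -π] ![c + r, r, π]

theorem bx_vol {r : ℝ} (hr : 0 ≤ r) (c : ℝ) : (volume (bx r c)).toReal = 8 * π * r ^ 2 := by
  have hpi := Real.pi_pos
  unfold bx
  rw [Real.volume_Icc_pi_toReal]
  · rw [Fin.prod_univ_three]
    simp
    ring
  · intro i
    fin_cases i <;> simp <;> linarith

theorem ff_box (h : Dp W c) {g : V → ℝ} (hg : Sm1 g) {x : V} (hx : x ∈ torus)
    (hne : dil W c g x ≠ 0) : x ∈ bx (1 / W) c := by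
  have hpi := Real.pi_gt_three
  obtain ⟨h1, h2⟩ := dil_ne h hg hne
  obtain ⟨h3, h4⟩ := dil_ne' h hg hne
  have hW := h.pos
  have hr : 0 < 1 / W := by positivity
  have key : ∀ i, |rd (x i)| ≤ 2 → rd (x i) = x i := by
    intro i hi
    have b1 : -π ≤ x i := hx.1 i
    have b2 : x i ≤ π := hx.2 i
    apply rd_self
    rcases b1.eq_or_lt with e | e
    · exfalso
      have : rd (x i) = -π := by
        rw [← e]
        unfold rd ci
        simp
      rw [this, abs_neg, abs_of_pos Real.pi_pos] at hi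
      linarith
    · rcases b2.eq_or_lt with e' | e'
      · exfalso
        have h5 := rd_per (-π)
        have h6 : -π + 2 * π = π := by ring
        have h7 : rd (-π) = -π := by
          unfold rd ci
          simp
        rw [h6, h7] at h5
        rw [e', h5, abs_neg, abs_of_pos Real.pi_pos] at hi
        linarith
      · rw [abs_lt]; constructor <;> linarith
  rw [key 0 h3, abs_le] at h1
  rw [key 1 h4, abs_le] at h2
  constructor
  · intro i
    fin_cases i
    · change c - 1 / W ≤ x 0; linarith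
    · change -(1 / W) ≤ x 1; linarith
    · exact hx.1 2
  · intro i
    fin_cases i
    · change x 0 ≤ c + 1 / W; linarith
    · change x 1 ≤ 1 / W; linarith
    · exact hx.2 2

theorem bx_sub (h : Dp W c) {r : ℝ} (hr : r ≤ 1) : bx r c ⊆ torus := by
  have hpi := Real.pi_gt_three
  have hc := abs_le.1 h.c1
  intro x hx
  constructor
  · intro i
    fin_cases i
    · have : c - r ≤ x 0 := hx.1 0
      change -π ≤ x 0; linarith
    · have : -r ≤ x 1 := hx.1 1
      change -π ≤ x 1; linarith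
    · exact hx.1 2
  · intro i
    fin_cases i
    · have : x 0 ≤ c + r := hx.2 0
      change x 0 ≤ π; linarith
    · have : x 1 ≤ r := hx.2 1
      change x 1 ≤ π; linarith
    · exact hx.2 2

/-- The integral of a dilated function. -/
theorem dil_int (h : Dp W c) {g : V → ℝ} (hg : Sm1 g) {B : ℝ} (hB : ∀ x, |dil W c g x| ≤ B) :
    |∫ x in torus, dil W c g x| ≤ B * (8 * π) / W ^ 2 := by
  have hW := h.pos
  have h1 : ∫ x in torus, dil W c g x = ∫ x in bx (1 / W) c, dil W c g x := by
    refine setIntegral_eq_of_subset_of_forall_sdiff_eq_zero torus_meas (bx_sub h h.inv_le)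
      fun x hx => ?_
    by_contra hcon
    exact hx.2 (ff_box h hg hx.1 hcon)
  rw [h1, ← Real.norm_eq_abs]
  have h2 : volume (bx (1 / W) c) < ⊤ := isCompact_Icc.measure_lt_top
  refine (norm_setIntegral_le_of_norm_le_const h2 fun x _ => hB x).trans (le_of_eq ?_)
  rw [Measure.real, bx_vol (by positivity)]
  field_simp

theorem ff_int (ha : Ann a) (hP : Pd P) : ∃ C : ℝ, 0 ≤ C ∧ ∀ W L c, Fp W L c →
    |∫ x in torus, ff W L c a P x| ≤ C / W ^ 2 := by
  obtain ⟨C, hC0, hC⟩ := ff_bdd ha hP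
  exact ⟨C * (8 * π), by positivity, fun W L c h =>
    dil_int h.dp (osc_ann ha hP.1 L).sm1 (hC W L c)⟩

theorem ff_sq (W L c : ℝ) (a : V → ℝ) (P : ℝ → ℝ) (x : V) :
    ff W L c a P x ^ 2 = ff W L c (fun X => a X * a X) (fun t => P t * P t) x := by
  unfold ff dil osc
  ring

theorem Pd.mul {P Q : ℝ → ℝ} (hP : Pd P) (hQ : Pd Q) : Pd (fun t => P t * Q t) :=
  ⟨hP.1.mul hQ.1, fun t => by simp only; rw [hP.2 t, hQ.2 t]⟩

theorem Ann.sq (ha : Ann a) : Ann (fun X => a X * a X) := ha.mul ha.1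

/-- Positive orders. -/
theorem ff_pos (n : ℕ) : ∀ (a : V → ℝ) (P : ℝ → ℝ), Ann a → Pd P → ∃ C : ℝ, 0 ≤ C ∧
    ∀ W L c, Fp W L c → hsc n (ff W L c a P) ≤ ENNReal.ofReal (C * (W * L) ^ (2 * n) / W ^ 2) := by
  induction n with
  | zero =>
    intro a P ha hP
    obtain ⟨C, hC0, hC⟩ := ff_int ha.sq (hP.mul hP)
    refine ⟨(2 * π) ^ 3 * C, by positivity, fun W L c h => ?_⟩
    rw [Nat.cast_zero, hsc_zero (ff_spf h ha hP).cont]
    apply ENNReal.ofReal_le_ofReal
    have h1 := hC W L c h
    simp only [ff_sq]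
    rw [mul_zero, pow_zero, mul_one, mul_div_assoc]
    gcongr
    exact (le_abs_self _).trans h1
  | succ n ih =>
    intro a P ha hP
    obtain ⟨C₀, hC₀0, hC₀⟩ := ih a P ha hP
    choose C₁ hC₁0 hC₁ using fun i => ih (pd i a) P (ha.pd i) hP
    choose C₂ hC₂0 hC₂ using fun i => ih (fun X => 2 * xc i X * a X) (deriv P) (ann_xc ha i) hP.deriv
    refine ⟨C₀ + ∑ i, (2 * C₁ i + 2 * C₂ i), add_nonneg hC₀0 (Finset.sum_nonneg fun i _ => by
      have := hC₁0 i; have := hC₂0 i; positivity), fun W L c h => ?_⟩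
    have hW := h.W1
    have hL := h.L1
    have hWL : W ≤ W * L := by nlinarith
    have hWL1 : 1 ≤ W * L := by nlinarith
    have hW0 : 0 < W := by linarith
    have hcast : ((n + 1 : ℕ) : ℝ) = (n : ℝ) + 1 := by push_cast; ring
    rw [hcast, hsc_succ (ff_spf h ha hP)]
    have e0 : hsc n (ff W L c a P) ≤ ENNReal.ofReal (C₀ * (W * L) ^ (2 * (n + 1)) / W ^ 2) := by
      refine (hC₀ W L c h).trans (ENNReal.ofReal_le_ofReal ?_)
      gcongr
      omega
    have e1 : ∀ i, hsc n (pd i (ff W L c a P)) ≤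
        ENNReal.ofReal ((2 * C₁ i + 2 * C₂ i) * (W * L) ^ (2 * (n + 1)) / W ^ 2) := by
      intro i
      by_cases hi : i = 2
      · have e1 : pd i (ff W L c a P) = fun _ => 0 := by
          ext y; rw [pd_ff h ha hP, if_pos hi]
        rw [e1, hsc_zero_fun]
        exact zero_le
      · have e1 : pd i (ff W L c a P) = fun y => W * ff W L c (pd i a) P y +
            (W * L) * ff W L c (fun X => 2 * xc i X * a X) (deriv P) y := by
          ext y
          rw [pd_ff h ha hP, if_neg hi]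
        rw [e1]
        have c1 := (ff_spf h (ha.pd i) hP).cont
        have c2 := (ff_spf h (ann_xc ha i) hP.deriv).cont
        refine (hsc_add n (f := fun y => W * ff W L c (pd i a) P y)
          (g := fun y => (W * L) * ff W L c (fun X => 2 * xc i X * a X) (deriv P) y)
          (continuous_const.mul c1) (continuous_const.mul c2)).trans ?_
        rw [hsc_smul, hsc_smul]
        calc 2 * (ENNReal.ofReal (W ^ 2) * hsc n (ff W L c (pd i a) P)) +
              2 * (ENNReal.ofReal ((W * L) ^ 2) *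
                hsc n (ff W L c (fun X => 2 * xc i X * a X) (deriv P))) ≤
              ENNReal.ofReal 2 * (ENNReal.ofReal (W ^ 2) *
                ENNReal.ofReal (C₁ i * (W * L) ^ (2 * n) / W ^ 2)) +
              ENNReal.ofReal 2 * (ENNReal.ofReal ((W * L) ^ 2) *
                ENNReal.ofReal (C₂ i * (W * L) ^ (2 * n) / W ^ 2)) := by
              have e2 : (2 : ℝ≥0∞) = ENNReal.ofReal 2 := by simp
              rw [← e2]
              gcongr
              · exact hC₁ i W L c h
              · exact hC₂ i W L c h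
          _ = ENNReal.ofReal (2 * (W ^ 2 * (C₁ i * (W * L) ^ (2 * n) / W ^ 2)) +
                2 * ((W * L) ^ 2 * (C₂ i * (W * L) ^ (2 * n) / W ^ 2))) := by
              have := hC₁0 i
              have := hC₂0 i
              rw [← ENNReal.ofReal_mul (by positivity), ← ENNReal.ofReal_mul (by positivity),
                ← ENNReal.ofReal_mul (by positivity), ← ENNReal.ofReal_mul (by positivity),
                ← ENNReal.ofReal_add (by positivity) (by positivity)]
          _ ≤ _ := by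
              apply ENNReal.ofReal_le_ofReal
              have := hC₁0 i
              have := hC₂0 i
              calc 2 * (W ^ 2 * (C₁ i * (W * L) ^ (2 * n) / W ^ 2)) +
                    2 * ((W * L) ^ 2 * (C₂ i * (W * L) ^ (2 * n) / W ^ 2)) ≤
                    2 * ((W * L) ^ 2 * (C₁ i * (W * L) ^ (2 * n) / W ^ 2)) +
                    2 * ((W * L) ^ 2 * (C₂ i * (W * L) ^ (2 * n) / W ^ 2)) := by gcongr
                _ = _ := by
                    rw [show 2 * (n + 1) = 2 * n + 2 by ring, pow_add]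
                    ring
    calc hsc n (ff W L c a P) + ∑ i, hsc n (pd i (ff W L c a P)) ≤
          ENNReal.ofReal (C₀ * (W * L) ^ (2 * (n + 1)) / W ^ 2) +
          ∑ i, ENNReal.ofReal ((2 * C₁ i + 2 * C₂ i) * (W * L) ^ (2 * (n + 1)) / W ^ 2) :=
          add_le_add e0 (Finset.sum_le_sum fun i _ => e1 i)
      _ = _ := by
          rw [← ENNReal.ofReal_sum_of_nonneg fun i _ => by
            have := hC₁0 i; have := hC₂0 i; positivity,
            ← ENNReal.ofReal_add (by positivity) (Finset.sum_nonneg fun i _ => by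
              have := hC₁0 i; have := hC₂0 i; positivity), add_mul, add_div, Finset.sum_mul,
            Finset.sum_div]

/-- The antiderivative identity. -/
theorem ff_anti (h : Fp W L c) (ha : Ann a) {Q : ℝ → ℝ} (hQ : Pd Q) (hQP : deriv Q = P) (x : V) :
    ff W L c a P x = (W * L)⁻¹ * (∑ i, pd i (ff W L c (bc a i) Q) x) -
      L⁻¹ * ff W L c (bd0 a) Q x := by
  have hW := h.W1
  have hL := h.L1
  have hW0 : W ≠ 0 := by linarith
  have hL0 : L ≠ 0 := by linarith
  have h1 : ∀ i, pd i (ff W L c (bc a i) Q) x = W * pd i (osc L (bc a i) Q) (sc W c x) := by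
    intro i
    unfold ff
    rw [pd_dil h.dp (osc_ann (bc_ann ha i) hQ.1 L).sm1]
    split_ifs with hi
    · subst hi
      have h2 : bc a 2 = fun _ => 0 := by
        ext X; unfold bc xc; simp
      have h3 : osc L (bc a 2) Q = fun _ => 0 := by
        ext X; unfold osc; rw [h2, zero_mul]
      rw [h3]
      simp [CK.pd]
    · rfl
  simp only [h1]
  rw [← Finset.mul_sum]
  have h2 := osc_anti ha hQ.1 hQP L (sc W c x)
  unfold ff dil
  have h3 : osc L a P (sc W c x) = L⁻¹ * (L * osc L a P (sc W c x)) := by field_simp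
  rw [h3, h2]
  field_simp

theorem ff_neg (n : ℕ) : ∀ (M : ℕ) (a : V → ℝ) (P : ℝ → ℝ), Ann a → Mz P → ∃ C : ℝ, 0 ≤ C ∧
    ∀ W L c, Fp W L c → hsc (-(n : ℝ)) (ff W L c a P) ≤
      ENNReal.ofReal (C * (((W * L) ^ (2 * n))⁻¹ + (L ^ (2 * M))⁻¹) / W ^ 2) := by
  induction n with
  | zero =>
    intro M a P ha hP
    obtain ⟨C, hC0, hC⟩ := ff_pos 0 a P ha hP.1
    refine ⟨C, hC0, fun W L c h => ?_⟩
    have h1 := hC W L c h
    rw [Nat.cast_zero] at h1
    rw [Nat.cast_zero, neg_zero]
    refine h1.trans (ENNReal.ofReal_le_ofReal ?_)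
    have hL := h.L1
    have h2 : 0 ≤ (L ^ (2 * M))⁻¹ := by positivity
    have h3 : C * (W * L) ^ (2 * 0) ≤ C * (((W * L) ^ (2 * 0))⁻¹ + (L ^ (2 * M))⁻¹) := by
      apply mul_le_mul_of_nonneg_left _ hC0
      simp only [mul_zero, pow_zero, inv_one]
      linarith
    exact div_le_div_of_nonneg_right h3 (by positivity)
  | succ n ihn =>
    intro M
    induction M with
    | zero =>
      intro a P ha hP
      obtain ⟨C, hC0, hC⟩ := ff_pos 0 a P ha hP.1
      refine ⟨C, hC0, fun W L c h => ?_⟩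
      have h1 := hC W L c h
      rw [Nat.cast_zero] at h1
      refine (hsc_mono (by push_cast; linarith [Nat.cast_nonneg (α := ℝ) n] :
        -((n + 1 : ℕ) : ℝ) ≤ 0) _).trans (h1.trans (ENNReal.ofReal_le_ofReal ?_))
      have hL := h.L1
      have hW := h.W1
      have h2 : 0 ≤ ((W * L) ^ (2 * (n + 1)))⁻¹ := by positivity
      have h3 : C * (W * L) ^ (2 * 0) ≤
          C * (((W * L) ^ (2 * (n + 1)))⁻¹ + (L ^ (2 * 0))⁻¹) := by
        apply mul_le_mul_of_nonneg_left _ hC0
        simp only [mul_zero, pow_zero, inv_one]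
        linarith
      exact div_le_div_of_nonneg_right h3 (by positivity)
    | succ M ihM =>
      intro a P ha hP
      obtain ⟨Q, hQ, hQP⟩ := hP.anti
      choose C₁ hC₁0 hC₁ using fun i => ihn (M + 1) (bc a i) Q (bc_ann ha i) hQ
      obtain ⟨C₂, hC₂0, hC₂⟩ := ihM (bd0 a) Q (bd0_ann ha) hQ
      refine ⟨4 * (C₁ 0 + C₁ 1 + C₁ 2 + C₂) * 2, by
        have := hC₁0 0; have := hC₁0 1; have := hC₁0 2; positivity, fun W L c h => ?_⟩
      have hW := h.W1
      have hL := h.L1
      have hWL1 : 1 ≤ W * L := by nlinarith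
      have hW0 : 0 < W := by linarith
      have hL0 : 0 < L := by linarith
      have hWL0 : 0 < W * L := by positivity
      have hLWL : L ≤ W * L := by nlinarith
      set s : ℝ := -((n + 1 : ℕ) : ℝ) with hs
      have hs1 : s + 1 = -(n : ℝ) := by rw [hs]; push_cast; ring
      -- the four terms
      set g : Fin 3 → V → ℝ := fun i => ff W L c (bc a i) Q with hg
      have gs : ∀ i, SPf (g i) := fun i => ff_spf h (bc_ann ha i) hQ.1
      set r : V → ℝ := ff W L c (bd0 a) Q with hr
      have rs : SPf r := ff_spf h (bd0_ann ha) hQ.1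
      have e1 : ff W L c a P = fun x => (((W * L)⁻¹ * pd 0 (g 0) x + (W * L)⁻¹ * pd 1 (g 1) x) +
          ((W * L)⁻¹ * pd 2 (g 2) x + (-L⁻¹) * r x)) := by
        ext x
        rw [ff_anti h ha hQ.1 hQP, Fin.sum_univ_three]
        ring
      have p1 : ∀ i, hsc s (fun x => (W * L)⁻¹ * pd i (g i) x) ≤
          ENNReal.ofReal (C₁ i * (((W * L) ^ (2 * (n + 1)))⁻¹ + (L ^ (2 * (M + 1)))⁻¹) / W ^ 2) := by
        intro i
        rw [hsc_smul]
        have h1 := hsc_pd_le (gs i) s i
        rw [hs1] at h1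
        calc ENNReal.ofReal ((W * L)⁻¹ ^ 2) * hsc s (pd i (g i)) ≤
              ENNReal.ofReal ((W * L)⁻¹ ^ 2) *
              ENNReal.ofReal (C₁ i * (((W * L) ^ (2 * n))⁻¹ + (L ^ (2 * (M + 1)))⁻¹) / W ^ 2) := by
              gcongr
              exact h1.trans (hC₁ i W L c h)
          _ = ENNReal.ofReal ((W * L)⁻¹ ^ 2 *
              (C₁ i * (((W * L) ^ (2 * n))⁻¹ + (L ^ (2 * (M + 1)))⁻¹) / W ^ 2)) :=
              (ENNReal.ofReal_mul (by positivity)).symm
          _ ≤ _ := by
              apply ENNReal.ofReal_le_ofReal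
              have h2 := hC₁0 i
              have h3 : (W * L)⁻¹ ^ 2 * (((W * L) ^ (2 * n))⁻¹ + (L ^ (2 * (M + 1)))⁻¹) ≤
                  ((W * L) ^ (2 * (n + 1)))⁻¹ + (L ^ (2 * (M + 1)))⁻¹ := by
                rw [mul_add]
                have h4 : (W * L)⁻¹ ^ 2 * ((W * L) ^ (2 * n))⁻¹ = ((W * L) ^ (2 * (n + 1)))⁻¹ := by
                  rw [show 2 * (n + 1) = 2 * n + 2 by ring, pow_add, inv_pow, ← mul_inv, mul_comm]
                rw [h4]
                have h5 : (W * L)⁻¹ ^ 2 ≤ 1 := pow_le_one₀ (by positivity) (inv_le_one_of_one_le₀ hWL1)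
                have h6 : 0 ≤ (L ^ (2 * (M + 1)))⁻¹ := by positivity
                have h7 : (W * L)⁻¹ ^ 2 * (L ^ (2 * (M + 1)))⁻¹ ≤ 1 * (L ^ (2 * (M + 1)))⁻¹ := by gcongr
                linarith
              have h8 : (W * L)⁻¹ ^ 2 *
                  (C₁ i * (((W * L) ^ (2 * n))⁻¹ + (L ^ (2 * (M + 1)))⁻¹) / W ^ 2) =
                  C₁ i * ((W * L)⁻¹ ^ 2 *
                    (((W * L) ^ (2 * n))⁻¹ + (L ^ (2 * (M + 1)))⁻¹)) / W ^ 2 := by ring
              rw [h8]
              gcongr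
      have p2 : hsc s (fun x => (-L⁻¹) * r x) ≤
          ENNReal.ofReal (C₂ * (((W * L) ^ (2 * (n + 1)))⁻¹ + (L ^ (2 * (M + 1)))⁻¹) / W ^ 2) := by
        rw [hsc_smul]
        calc ENNReal.ofReal ((-L⁻¹) ^ 2) * hsc s r ≤
              ENNReal.ofReal ((-L⁻¹) ^ 2) *
              ENNReal.ofReal (C₂ * (((W * L) ^ (2 * (n + 1)))⁻¹ + (L ^ (2 * M))⁻¹) / W ^ 2) := by
              gcongr
              exact hC₂ W L c h
          _ = ENNReal.ofReal ((-L⁻¹) ^ 2 *
              (C₂ * (((W * L) ^ (2 * (n + 1)))⁻¹ + (L ^ (2 * M))⁻¹) / W ^ 2)) :=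
              (ENNReal.ofReal_mul (by positivity)).symm
          _ ≤ _ := by
              apply ENNReal.ofReal_le_ofReal
              have h3 : (-L⁻¹) ^ 2 * (((W * L) ^ (2 * (n + 1)))⁻¹ + (L ^ (2 * M))⁻¹) ≤
                  ((W * L) ^ (2 * (n + 1)))⁻¹ + (L ^ (2 * (M + 1)))⁻¹ := by
                rw [mul_add]
                have h4 : (-L⁻¹) ^ 2 * (L ^ (2 * M))⁻¹ = (L ^ (2 * (M + 1)))⁻¹ := by
                  rw [show 2 * (M + 1) = 2 * M + 2 by ring, pow_add, neg_sq, inv_pow, ← mul_inv,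
                    mul_comm]
                rw [h4]
                have h5 : (-L⁻¹) ^ 2 ≤ 1 := by
                  rw [neg_sq]
                  exact pow_le_one₀ (by positivity) (inv_le_one_of_one_le₀ hL)
                have h6 : 0 ≤ ((W * L) ^ (2 * (n + 1)))⁻¹ := by positivity
                have h7 : (-L⁻¹) ^ 2 * ((W * L) ^ (2 * (n + 1)))⁻¹ ≤
                    1 * ((W * L) ^ (2 * (n + 1)))⁻¹ := by gcongr
                linarith
              have h8 : (-L⁻¹) ^ 2 *
                  (C₂ * (((W * L) ^ (2 * (n + 1)))⁻¹ + (L ^ (2 * M))⁻¹) / W ^ 2) =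
                  C₂ * ((-L⁻¹) ^ 2 *
                    (((W * L) ^ (2 * (n + 1)))⁻¹ + (L ^ (2 * M))⁻¹)) / W ^ 2 := by ring
              rw [h8]
              gcongr
      have cg : ∀ i, Continuous (fun x => (W * L)⁻¹ * pd i (g i) x) := fun i =>
        continuous_const.mul ((gs i).pd i).cont
      have cr : Continuous (fun x => (-L⁻¹) * r x) := continuous_const.mul rs.cont
      set E := (((W * L) ^ (2 * (n + 1)))⁻¹ + (L ^ (2 * (M + 1)))⁻¹) / W ^ 2 with hE
      have hE0 : 0 ≤ E := by positivity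
      have q1 : ∀ i, hsc s (fun x => (W * L)⁻¹ * pd i (g i) x) ≤ ENNReal.ofReal (C₁ i * E) := by
        intro i; rw [hE, ← mul_div_assoc]; exact p1 i
      have q2 : hsc s (fun x => (-L⁻¹) * r x) ≤ ENNReal.ofReal (C₂ * E) := by
        rw [hE, ← mul_div_assoc]; exact p2
      rw [e1]
      have t1 := hsc_add s ((cg 0).add (cg 1)) ((cg 2).add cr)
      have t2 := hsc_add s (cg 0) (cg 1)
      have t3 := hsc_add s (cg 2) cr
      have e2 : (2 : ℝ≥0∞) = ENNReal.ofReal 2 := by simp
      have d0 := hC₁0 0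
      have d1 := hC₁0 1
      have d2 := hC₁0 2
      calc hsc s (fun x => (((W * L)⁻¹ * pd 0 (g 0) x + (W * L)⁻¹ * pd 1 (g 1) x) +
          ((W * L)⁻¹ * pd 2 (g 2) x + (-L⁻¹) * r x))) ≤ _ := t1
        _ ≤ 2 * (2 * ENNReal.ofReal (C₁ 0 * E) + 2 * ENNReal.ofReal (C₁ 1 * E)) +
            2 * (2 * ENNReal.ofReal (C₁ 2 * E) + 2 * ENNReal.ofReal (C₂ * E)) := by
            gcongr
            · exact t2.trans (by gcongr <;> exact q1 _)
            · exact t3.trans (by gcongr <;> first | exact q1 _ | exact q2)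
        _ = ENNReal.ofReal (2 * (2 * (C₁ 0 * E) + 2 * (C₁ 1 * E)) +
            2 * (2 * (C₁ 2 * E) + 2 * (C₂ * E))) := by
            rw [e2, ← ENNReal.ofReal_mul (by norm_num), ← ENNReal.ofReal_mul (by norm_num),
              ← ENNReal.ofReal_add (by positivity) (by positivity),
              ← ENNReal.ofReal_mul (by norm_num), ← ENNReal.ofReal_mul (by norm_num),
              ← ENNReal.ofReal_mul (by norm_num),
              ← ENNReal.ofReal_add (by positivity) (by positivity),
              ← ENNReal.ofReal_mul (by norm_num),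
              ← ENNReal.ofReal_add (by positivity) (by positivity)]
        _ ≤ _ := by
            apply ENNReal.ofReal_le_ofReal
            rw [mul_div_assoc, ← hE]
            have : 0 ≤ (C₁ 0 + C₁ 1 + C₁ 2 + C₂) * E := by positivity
            linarith

end

end Pool.Agent.H306.DS
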