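import Pool.Agent.H306.DS.Geo3

/-! Sobolev norms of all orders and lower bounds. -/

noncomputable section

namespace Pool.Agent.H306.DS

open Set MeasureTheory Filter Topology

open scoped Real ContDiff ENNReal

open Pool.Agent.H306.CK

section

variable {W L c : ℝ} {a : V → ℝ} {P : ℝ → ℝ}

theorem ff_int_order (q₀ : ℕ) (ha : Ann a) (hP : Mz P) (z : ℤ) : ∃ C : ℝ, 0 ≤ C ∧
    ∀ W L c, Fp W L c → W * L ≤ L ^ q₀ →
      hsc z (ff W L c a P) ≤ ENNReal.ofReal (C * (W * L) ^ (2 * (z : ℝ)) / W ^ 2) := by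
  obtain ⟨n, rfl | rfl⟩ := z.eq_nat_or_neg
  · obtain ⟨C, hC0, hC⟩ := ff_pos n a P ha hP.1
    refine ⟨C, hC0, fun W L c h _ => ?_⟩
    have hW := h.W1
    have hL := h.L1
    have h1 := hC W L c h
    have h2 : (W * L) ^ (2 * ((n : ℤ) : ℝ)) = (W * L) ^ (2 * n) := by
      rw [← Real.rpow_natCast]
      congr 1
      push_cast
      ring
    rw [h2, Int.cast_natCast]
    exact h1
  · obtain ⟨C, hC0, hC⟩ := ff_neg n (q₀ * n) a P ha hP
    refine ⟨C * 2, by positivity, fun W L c h hq => ?_⟩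
    have hW := h.W1
    have hL := h.L1
    have hWL : 0 < W * L := by positivity
    have h1 := hC W L c h
    have h2 : (W * L) ^ (2 * ((-(n : ℤ) : ℤ) : ℝ)) = ((W * L) ^ (2 * n))⁻¹ := by
      rw [← Real.rpow_natCast, ← Real.rpow_neg hWL.le]
      congr 1
      push_cast
      ring
    have h3 : ((-(n : ℤ) : ℤ) : ℝ) = -(n : ℝ) := by push_cast; ring
    rw [h2, h3]
    refine h1.trans (ENNReal.ofReal_le_ofReal ?_)
    have h4 : (L ^ (2 * (q₀ * n)))⁻¹ ≤ ((W * L) ^ (2 * n))⁻¹ := by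
      apply inv_anti₀ (by positivity)
      calc (W * L) ^ (2 * n) ≤ (L ^ q₀) ^ (2 * n) := pow_le_pow_left₀ hWL.le hq _
        _ = _ := by rw [← pow_mul]; congr 1; ring
    have h5 : C * (((W * L) ^ (2 * n))⁻¹ + (L ^ (2 * (q₀ * n)))⁻¹) ≤
        C * 2 * ((W * L) ^ (2 * n))⁻¹ := by nlinarith
    exact div_le_div_of_nonneg_right h5 (by positivity)

theorem ff_order (q₀ : ℕ) (ha : Ann a) (hP : Mz P) (s : ℝ) : ∃ C : ℝ, 0 ≤ C ∧
    ∀ W L c, Fp W L c → W * L ≤ L ^ q₀ →
      hsc s (ff W L c a P) ≤ ENNReal.ofReal (C * (W * L) ^ (2 * s) / W ^ 2) := by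
  obtain ⟨C₁, hC₁0, hC₁⟩ := ff_int_order q₀ ha hP ⌊s⌋
  obtain ⟨C₂, hC₂0, hC₂⟩ := ff_int_order q₀ ha hP (⌊s⌋ + 1)
  refine ⟨C₁ + C₂, by positivity, fun W L c h hq => ?_⟩
  have hW := h.W1
  have hL := h.L1
  have hWL1 : 1 ≤ W * L := by nlinarith
  have hWL : 0 < W * L := by linarith
  have b1 := hC₁ W L c h hq
  have b2 := hC₂ W L c h hq
  have e1 : ((⌊s⌋ + 1 : ℤ) : ℝ) = (⌊s⌋ : ℝ) + 1 := by push_cast; ring
  rw [e1] at b2
  refine (hsc_interp _ hWL1 (Int.floor_le s) (Int.lt_floor_add_one s).le).trans ?_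
  set z : ℝ := (⌊s⌋ : ℝ)
  calc _ ≤ ENNReal.ofReal ((W * L) ^ (2 * (s - z))) *
        ENNReal.ofReal (C₁ * (W * L) ^ (2 * z) / W ^ 2) +
        ENNReal.ofReal ((W * L) ^ (2 * (s - z - 1))) *
        ENNReal.ofReal (C₂ * (W * L) ^ (2 * (z + 1)) / W ^ 2) := by gcongr
    _ = ENNReal.ofReal ((W * L) ^ (2 * (s - z)) * (C₁ * (W * L) ^ (2 * z) / W ^ 2) +
        (W * L) ^ (2 * (s - z - 1)) * (C₂ * (W * L) ^ (2 * (z + 1)) / W ^ 2)) := by
        rw [← ENNReal.ofReal_mul (by positivity), ← ENNReal.ofReal_mul (by positivity),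
          ← ENNReal.ofReal_add (by positivity) (by positivity)]
    _ = _ := by
        congr 1
        have e2 : (W * L) ^ (2 * s) = (W * L) ^ (2 * (s - z)) * (W * L) ^ (2 * z) := by
          rw [← Real.rpow_add hWL]; congr 1; ring
        have e3 : (W * L) ^ (2 * s) = (W * L) ^ (2 * (s - z - 1)) * (W * L) ^ (2 * (z + 1)) := by
          rw [← Real.rpow_add hWL]; congr 1; ring
        have e4 : (C₁ + C₂) * (W * L) ^ (2 * s) / W ^ 2 =
            C₁ * (W * L) ^ (2 * s) / W ^ 2 + C₂ * (W * L) ^ (2 * s) / W ^ 2 := by ring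
        rw [e4]
        conv_rhs => rw [e2]
        conv_rhs => rw [← e2]
        nth_rewrite 1 [e2]
        rw [e3]
        ring

/-- Small integrals of oscillating functions. -/
theorem ff_mean (ha : Ann a) (hP : Mz P) : ∃ C : ℝ, 0 ≤ C ∧ ∀ W L c, Fp W L c →
    |∫ x in torus, ff W L c a P x| ≤ C / (L * W ^ 2) := by
  obtain ⟨Q, hQ, hQP⟩ := hP.anti
  obtain ⟨C, hC0, hC⟩ := ff_int (bd0_ann ha) hQ.1
  refine ⟨C, hC0, fun W L c h => ?_⟩
  have hW := h.W1
  have hL := h.L1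
  have hL0 : 0 < L := by linarith
  have h1 : ∫ x in torus, ff W L c a P x = -(L⁻¹ * ∫ x in torus, ff W L c (bd0 a) Q x) := by
    have e1 : ∀ x, ff W L c a P x = (W * L)⁻¹ * (pd 0 (ff W L c (bc a 0) Q) x +
        pd 1 (ff W L c (bc a 1) Q) x + pd 2 (ff W L c (bc a 2) Q) x) -
        L⁻¹ * ff W L c (bd0 a) Q x := fun x => by
      rw [ff_anti h ha hQ.1 hQP, Fin.sum_univ_three]
    have s := fun i => ff_spf h (bc_ann ha i) hQ.1
    have sr := ff_spf h (bd0_ann ha) hQ.1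
    have i0 := fun i => int_pd (s i).c1 (s i).2 i
    have c0 := fun i => cont_int ((s i).pd i).cont
    simp only [e1]
    rw [integral_sub (f := fun x => (W * L)⁻¹ * (pd 0 (ff W L c (bc a 0) Q) x +
        pd 1 (ff W L c (bc a 1) Q) x + pd 2 (ff W L c (bc a 2) Q) x))
      (g := fun x => L⁻¹ * ff W L c (bd0 a) Q x)
      (((c0 0).add (c0 1)).add (c0 2) |>.const_mul _) ((cont_int sr.cont).const_mul _),
      integral_const_mul, integral_const_mul]
    have h2 : ∫ x in torus, (pd 0 (ff W L c (bc a 0) Q) x + pd 1 (ff W L c (bc a 1) Q) x +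
        pd 2 (ff W L c (bc a 2) Q) x) = 0 := by
      have h3 := integral_add ((c0 0).add (c0 1)) (c0 2)
      have h4 := integral_add (c0 0) (c0 1)
      rw [i0 2, add_zero] at h3
      rw [i0 0, i0 1, add_zero] at h4
      exact h3.trans h4
    rw [h2]
    ring
  rw [h1, abs_neg, abs_mul, abs_of_pos (by positivity)]
  calc L⁻¹ * |∫ x in torus, ff W L c (bd0 a) Q x| ≤ L⁻¹ * (C / W ^ 2) := by
        gcongr
        exact hC W L c h
    _ = _ := by field_simp

/-- The test box. -/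
def tb (W c : ℝ) : Set V := Icc ![c + 18 / 25 / W, -(1 / 10 / W), -π] ![c + 4 / 5 / W, 1 / 10 / W, π]

theorem tb_mem (h : Dp W c) {x : V} (hx : x ∈ tb W c) : x ∈ torus ∧
    sc W c x 0 ∈ Icc (18 / 25 : ℝ) (4 / 5) ∧ |sc W c x 1| ≤ 1 / 10 ∧ sc W c x 2 = 0 := by
  have hpi := Real.pi_gt_three
  have hW := h.pos
  have hc := abs_le.1 h.c1
  have b0 : c + 18 / 25 / W ≤ x 0 := hx.1 0
  have b0' : x 0 ≤ c + 4 / 5 / W := hx.2 0
  have b1 : -(1 / 10 / W) ≤ x 1 := hx.1 1
  have b1' : x 1 ≤ 1 / 10 / W := hx.2 1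
  have u1 : 4 / 5 / W ≤ 4 / 5 := div_le_self (by norm_num) h.W1
  have u2 : 1 / 10 / W ≤ 1 / 10 := div_le_self (by norm_num) h.W1
  have u3 : 0 < 18 / 25 / W := by positivity
  have r0 : rd (x 0) = x 0 := rd_self (by rw [abs_lt]; constructor <;> linarith)
  have r1 : rd (x 1) = x 1 := rd_self (by rw [abs_lt]; constructor <;> linarith)
  have s0 : sc W c x 0 = W * (x 0 - c) := by
    change W * (rd (x 0) - c) = _; rw [r0]
  have s1 : sc W c x 1 = W * x 1 := by
    change W * rd (x 1) = _; rw [r1]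
  refine ⟨⟨fun i => ?_, fun i => ?_⟩, ?_, ?_, rfl⟩
  · fin_cases i
    · change -π ≤ x 0; linarith
    · change -π ≤ x 1; linarith
    · exact hx.1 2
  · fin_cases i
    · change x 0 ≤ π; linarith
    · change x 1 ≤ π; linarith
    · exact hx.2 2
  · rw [s0]
    have e1 : W * (18 / 25 / W) = 18 / 25 := by field_simp
    have e2 : W * (4 / 5 / W) = 4 / 5 := by field_simp
    constructor
    · rw [← e1]; gcongr; linarith
    · rw [← e2]; gcongr; linarith
  · rw [s1, abs_mul, abs_of_pos hW]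
    have e1 : W * (1 / 10 / W) = 1 / 10 := by field_simp
    rw [← e1]
    gcongr
    rw [abs_le]
    constructor <;> linarith

theorem tb_vol (h : Dp W c) : (volume (tb W c)).toReal = 4 * π / 125 / W ^ 2 := by
  have hpi := Real.pi_pos
  have hW := h.pos
  unfold tb
  rw [Real.volume_Icc_pi_toReal]
  · rw [Fin.prod_univ_three]
    simp
    field_simp
    ring
  · intro i
    fin_cases i
    · change c + 18 / 25 / W ≤ c + 4 / 5 / W
      have : (18 / 25 : ℝ) / W ≤ 4 / 5 / W := div_le_div_of_nonneg_right (by norm_num) hW.le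
      linarith
    · change -(1 / 10 / W) ≤ 1 / 10 / W
      have : 0 < 1 / 10 / W := by positivity
      linarith
    · change -π ≤ π; linarith

theorem dil_low (h : Dp W c) {g : V → ℝ} (hg : Sm1 g) (h0 : ∀ X, 0 ≤ g X)
    (hb : ∀ X : V, X 0 ∈ Icc (18 / 25 : ℝ) (4 / 5) → |X 1| ≤ 1 / 10 → X 2 = 0 → 1 / 4 ≤ g X) :
    π / 125 / W ^ 2 ≤ ∫ x in torus, dil W c g x := by
  have hc := (dil_contDiff h hg).continuous
  have hsub : tb W c ⊆ torus := fun x hx => (tb_mem h hx).1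
  have h1 : ∫ x in tb W c, dil W c g x ≤ ∫ x in torus, dil W c g x :=
    setIntegral_mono_set (cont_int hc) (Eventually.of_forall fun x => h0 _)
      (Eventually.of_forall hsub)
  refine le_trans ?_ h1
  have h2 : volume (tb W c) < ⊤ := isCompact_Icc.measure_lt_top
  have h3 : ∫ _ in tb W c, (1 / 4 : ℝ) ≤ ∫ x in tb W c, dil W c g x := by
    refine setIntegral_mono_on (integrableOn_const h2.ne) ((cont_int hc).mono_set hsub)
      measurableSet_Icc fun x hx => ?_
    obtain ⟨-, m0, m1, m2⟩ := tb_mem h hx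
    exact hb _ m0 m1 m2
  rw [setIntegral_const, Measure.real, tb_vol h, smul_eq_mul] at h3
  refine le_trans (le_of_eq ?_) h3
  ring

/-- The lower bound. -/
theorem ff_low (ha : Ann a) (h0 : ∀ X, 0 ≤ a X)
    (hb : ∀ X : V, X 0 ∈ Icc (18 / 25 : ℝ) (4 / 5) → |X 1| ≤ 1 / 10 → X 2 = 0 → 1 / 4 ≤ a X)
    (hP : Pd P) (hm : 0 < ∫ t in (0)..(2 * π), P t) : ∃ L₀ c₀ : ℝ, 1 ≤ L₀ ∧ 0 < c₀ ∧
    ∀ W L c, Fp W L c → L₀ ≤ L → c₀ / W ^ 2 ≤ ∫ x in torus, ff W L c a P x := by
  have hpi := Real.pi_pos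
  set m := (∫ t in (0)..(2 * π), P t) / (2 * π) with hmd
  have hm0 : 0 < m := by positivity
  have hmz : Mz (fun t => P t - m) := by
    refine ⟨⟨hP.1.sub contDiff_const, fun t => by simp only; rw [hP.2 t]⟩, ?_⟩
    rw [intervalIntegral.integral_sub (hP.1.continuous.intervalIntegrable _ _)
      (continuous_const.intervalIntegrable _ _), intervalIntegral.integral_const, hmd, smul_eq_mul]
    field_simp
    ring
  obtain ⟨C, hC0, hC⟩ := ff_mean ha hmz
  refine ⟨max 1 (250 * C / (m * π)), m * π / 250, le_max_left _ _, by positivity,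
    fun W L c h hL => ?_⟩
  have hW := h.W1
  have hL1 := h.L1
  have hL0 : 0 < L := by linarith
  have e1 : ∀ x, ff W L c a P x = m * dil W c a x + ff W L c a (fun t => P t - m) x := by
    intro x
    unfold ff dil osc
    ring
  simp only [e1]
  rw [integral_add ((cont_int (dil_contDiff h.dp ha.sm1).continuous).const_mul _)
    (cont_int (ff_spf h ha hmz.1).cont), integral_const_mul]
  have h1 := dil_low h.dp ha.sm1 h0 hb
  have h2 := (abs_le.1 (hC W L c h)).1
  have h3 : C / (L * W ^ 2) ≤ m * π / 250 / W ^ 2 := by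
    have h4 : 250 * C / (m * π) ≤ L := (le_max_right _ _).trans hL
    rw [div_le_iff₀ (by positivity)] at h4
    rw [div_le_div_iff₀ (by positivity) (by positivity)]
    calc C * W ^ 2 = (250 * C) * W ^ 2 / 250 := by ring
      _ ≤ (L * (m * π)) * W ^ 2 / 250 := by gcongr
      _ = _ := by ring
  have h5 : m * (π / 125 / W ^ 2) ≤ m * ∫ x in torus, dil W c a x := by gcongr
  have h6 : m * (π / 125 / W ^ 2) = 2 * (m * π / 250 / W ^ 2) := by ring
  linarith

end

end Pool.Agent.H306.DS
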