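import Pool.Agent.H306.DS.Geo4

/-! The profiles and the vortices. -/

noncomputable section

namespace Pool.Agent.H306.DS

open Set MeasureTheory Filter Topology

open scoped Real ContDiff ENNReal

open Pool.Agent.H306.CK

/-- The smooth transition. -/
def st (x : ℝ) : ℝ := Real.smoothTransition x

theorem st_smooth : ContDiff ℝ ∞ st := Real.smoothTransition.contDiff

theorem st_zero {x : ℝ} (h : x ≤ 0) : st x = 0 := Real.smoothTransition.zero_of_nonpos h

theorem st_one {x : ℝ} (h : 1 ≤ x) : st x = 1 := Real.smoothTransition.one_of_one_le h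

theorem st_nonneg (x : ℝ) : 0 ≤ st x := Real.smoothTransition.nonneg x

theorem st_pos {x : ℝ} (h : 0 < x) : 0 < st x := Real.smoothTransition.pos_of_pos h

/-- The outer cutoff. -/
def chi (s : ℝ) : ℝ := st (8 * s - 2) * st (8 - 8 * s)

/-- The inner cutoff. -/
def chi2 (s : ℝ) : ℝ := st (8 * s - 3) * st (7 - 8 * s)

/-- The plateau function. -/
def pp (t : ℝ) : ℝ := st (Real.cos t + 1 / 2) - st (1 / 2 - Real.cos t)

/-- The oscillating function on the plateau. -/
def qq (t : ℝ) : ℝ := Real.sin t * st (2 * Real.cos t - 1)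

theorem chi_smooth : ContDiff ℝ ∞ chi := by
  unfold chi
  exact (st_smooth.comp (by fun_prop)).mul (st_smooth.comp (by fun_prop))

theorem chi2_smooth : ContDiff ℝ ∞ chi2 := by
  unfold chi2
  exact (st_smooth.comp (by fun_prop)).mul (st_smooth.comp (by fun_prop))

theorem pp_smooth : ContDiff ℝ ∞ pp := by
  unfold pp
  exact (st_smooth.comp (Real.contDiff_cos.add contDiff_const)).sub
    (st_smooth.comp (contDiff_const.sub Real.contDiff_cos))

theorem qq_smooth : ContDiff ℝ ∞ qq := by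
  unfold qq
  exact Real.contDiff_sin.mul
    (st_smooth.comp ((contDiff_const.mul Real.contDiff_cos).sub contDiff_const))

theorem chi_zero {s : ℝ} (h : s < 1 / 4 ∨ 1 < s) : chi s = 0 := by
  unfold chi
  rcases h with h | h
  · rw [st_zero (by linarith), zero_mul]
  · rw [st_zero (x := 8 - 8 * s) (by linarith), mul_zero]

theorem chi_one {s : ℝ} (h1 : 3 / 8 ≤ s) (h2 : s ≤ 7 / 8) : chi s = 1 := by
  unfold chi
  rw [st_one (by linarith), st_one (by linarith), one_mul]

theorem chi2_zero {s : ℝ} (h : s ≤ 3 / 8 ∨ 7 / 8 ≤ s) : chi2 s = 0 := by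
  unfold chi2
  rcases h with h | h
  · rw [st_zero (by linarith), zero_mul]
  · rw [st_zero (x := 7 - 8 * s) (by linarith), mul_zero]

theorem chi2_one {s : ℝ} (h1 : 1 / 2 ≤ s) (h2 : s ≤ 3 / 4) : chi2 s = 1 := by
  unfold chi2
  rw [st_one (by linarith), st_one (by linarith), one_mul]

theorem chi_chi2 (s : ℝ) : chi s * chi2 s = chi2 s := by
  rcases le_or_gt s (3 / 8) with h | h
  · rw [chi2_zero (Or.inl h), mul_zero]
  · rcases le_or_gt (7 / 8) s with h' | h'
    · rw [chi2_zero (Or.inr h'), mul_zero]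
    · rw [chi_one h.le h'.le, one_mul]

theorem pp_qq (t : ℝ) : pp t * qq t = qq t := by
  rcases le_or_gt (Real.cos t) (1 / 2) with h | h
  · have : qq t = 0 := by
      unfold qq
      rw [st_zero (by linarith), mul_zero]
    rw [this, mul_zero]
  · have : pp t = 1 := by
      unfold pp
      rw [st_one (by linarith), st_zero (by linarith), sub_zero]
    rw [this, one_mul]

theorem pp_pd : Pd pp := ⟨pp_smooth, fun t => by unfold pp; rw [Real.cos_add_two_pi]⟩

theorem qq_pd : Pd qq := ⟨qq_smooth, fun t => by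
  unfold qq; rw [Real.cos_add_two_pi, Real.sin_add_two_pi]⟩

theorem pp_mz : Mz pp := by
  refine ⟨pp_pd, ?_⟩
  have hc := pp_smooth.continuous
  have h1 : ∀ t, pp (t + π) = -pp t := by
    intro t
    unfold pp
    rw [Real.cos_add_pi]
    have e1 : -Real.cos t + 1 / 2 = 1 / 2 - Real.cos t := by ring
    have e2 : 1 / 2 - -Real.cos t = Real.cos t + 1 / 2 := by ring
    rw [e1, e2]
    ring
  have h2 := intervalIntegral.integral_add_adjacent_intervals
    (hc.intervalIntegrable (μ := volume) 0 π) (hc.intervalIntegrable (μ := volume) π (2 * π))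
  have h3 : ∫ t in π..(2 * π), pp t = -∫ t in (0)..π, pp t := by
    have h4 := intervalIntegral.integral_comp_add_right (a := 0) (b := π) pp π
    rw [zero_add, show π + π = 2 * π by ring] at h4
    rw [← h4]
    simp only [h1]
    rw [intervalIntegral.integral_neg]
  rw [← h2, h3]
  ring

theorem qq_mz : Mz qq := by
  refine ⟨qq_pd, ?_⟩
  have h1 : ∀ t, qq (-t) = -qq t := by
    intro t
    unfold qq
    rw [Real.cos_neg, Real.sin_neg]
    ring
  have h2 : ∫ t in (0)..(2 * π), qq t = ∫ t in (-π)..(-π + 2 * π), qq t := by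
    have := qq_pd.2.intervalIntegral_add_eq 0 (-π)
    rwa [zero_add] at this
  have h3 := intervalIntegral.integral_comp_neg (a := -π) (b := π) qq
  rw [neg_neg] at h3
  simp only [h1] at h3
  rw [intervalIntegral.integral_neg] at h3
  rw [h2, show -π + 2 * π = π by ring]
  linarith

theorem mean_pos {P : ℝ → ℝ} (hP : Pd P) {t : ℝ} (ht : t ∈ Icc 0 (2 * π)) (h : P t ≠ 0) :
    0 < ∫ t in (0)..(2 * π), P t * P t := by
  have hc := hP.1.continuous
  refine intervalIntegral.integral_pos Real.two_pi_pos (hc.mul hc).continuousOn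
    (fun s _ => mul_self_nonneg _) ⟨t, ht, ?_⟩
  exact mul_self_pos.2 h

theorem pp_mean : 0 < ∫ t in (0)..(2 * π), pp t * pp t := by
  refine mean_pos pp_pd (t := 0) ⟨le_rfl, Real.two_pi_pos.le⟩ ?_
  unfold pp
  rw [Real.cos_zero, st_one (by norm_num), st_zero (by norm_num)]
  norm_num

theorem qq_mean : 0 < ∫ t in (0)..(2 * π), qq t * qq t := by
  have hpi := Real.pi_pos
  refine mean_pos qq_pd (t := π / 6) ⟨by positivity, by linarith⟩ ?_
  unfold qq
  rw [Real.cos_pi_div_six, Real.sin_pi_div_six]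
  have h3 : (1 : ℝ) < Real.sqrt 3 := by
    rw [Real.lt_sqrt (by norm_num)]; norm_num
  have := st_pos (x := 2 * (Real.sqrt 3 / 2) - 1) (by linarith)
  positivity

/-- Functions `x_j F(σ)`. -/
def rf (j : Fin 3) (F : ℝ → ℝ) (X : V) : ℝ := xc j X * F (sg X)

theorem rf_smooth {F : ℝ → ℝ} (hF : ContDiff ℝ ∞ F) (j : Fin 3) : ContDiff ℝ ∞ (rf j F) := by
  unfold rf
  exact (xc_contDiff j).mul (hF.comp sg_contDiff)

theorem pd_xc (i j : Fin 3) (X : V) : pd i (xc j) X = if i = j ∧ i ≠ 2 then 1 else 0 := by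
  refine pd_of_line ((xc_contDiff j).differentiable (by simp) X) ?_
  have h1 : (fun s : ℝ => xc j (X + s • (Pi.single i (1 : ℝ) : V))) =
      fun s => xc j X + (if i = j ∧ i ≠ 2 then 1 else 0) * s := by
    ext s
    unfold xc
    fin_cases i <;> fin_cases j <;> simp
  rw [h1]
  have h2 := ((hasDerivAt_id (0 : ℝ)).const_mul
    (if i = j ∧ i ≠ 2 then (1 : ℝ) else 0)).const_add (xc j X)
  simpa using h2

theorem pd_rad {F : ℝ → ℝ} (hF : ContDiff ℝ ∞ F) (i : Fin 3) (X : V) :
    pd i (fun X => F (sg X)) X = 2 * xc i X * deriv F (sg X) := by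
  have h3 : HasFDerivAt sg (fderiv ℝ sg X) X :=
    (sg_contDiff.differentiable (by simp) X).hasFDerivAt
  have h5 : HasDerivAt F (deriv F (sg X)) (sg X) := (hF.differentiable (by simp) _).hasDerivAt
  have h6 := h5.comp_hasFDerivAt X h3
  have h7 : (fun X => F (sg X)) = F ∘ sg := rfl
  unfold CK.pd
  rw [h7, h6.fderiv]
  have h8 := pd_sg i X
  unfold CK.pd at h8
  simp only [smul_apply, smul_eq_mul, h8]
  ring

theorem pd_rf {F : ℝ → ℝ} (hF : ContDiff ℝ ∞ F) (i j : Fin 3) (X : V) :
    pd i (rf j F) X = (if i = j ∧ i ≠ 2 then 1 else 0) * F (sg X) +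
      xc j X * (2 * xc i X * deriv F (sg X)) := by
  have h1 := pd_mul (f := xc j) (g := fun X => F (sg X))
    ((xc_contDiff j).of_le (by exact_mod_cast le_top))
    ((hF.comp sg_contDiff).of_le (by exact_mod_cast le_top)) i X
  have h2 : pd i (rf j F) X = pd i (fun y => xc j y * F (sg y)) X := rfl
  rw [h2, h1, pd_xc, pd_rad hF]
  ring

/-- The profile of the vortex. -/
def FX (L s : ℝ) : ℝ := chi s * pp (L * s)

/-- The profile of the vertical velocity. -/
def GY (L s : ℝ) : ℝ := chi2 s * qq (L * s)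

theorem FX_smooth (L : ℝ) : ContDiff ℝ ∞ (FX L) := by
  unfold FX
  exact chi_smooth.mul (pp_smooth.comp (contDiff_const.mul contDiff_id))

theorem GY_smooth (L : ℝ) : ContDiff ℝ ∞ (GY L) := by
  unfold GY
  exact chi2_smooth.mul (qq_smooth.comp (contDiff_const.mul contDiff_id))

theorem FX_GY (L s : ℝ) : FX L s * GY L s = GY L s := by
  unfold FX GY
  have h1 := chi_chi2 s
  have h2 := pp_qq (L * s)
  calc chi s * pp (L * s) * (chi2 s * qq (L * s)) =
        (chi s * chi2 s) * (pp (L * s) * qq (L * s)) := by ring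
    _ = _ := by rw [h1, h2]

/-- The amplitude functions. -/
def aX (j : Fin 3) (X : V) : ℝ := xc j X * chi (sg X)

def aY (j : Fin 3) (X : V) : ℝ := xc j X * chi2 (sg X)

theorem aX_ann (j : Fin 3) : Ann (aX j) :=
  ⟨(xc_contDiff j).mul (chi_smooth.comp sg_contDiff), fun X hX => by
    unfold aX; rw [chi_zero hX, mul_zero]⟩

theorem aY_ann (j : Fin 3) : Ann (aY j) :=
  ⟨(xc_contDiff j).mul (chi2_smooth.comp sg_contDiff), fun X hX => by
    unfold aY
    rw [chi2_zero (hX.imp (fun h => by linarith) (fun h => by linarith)), mul_zero]⟩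

theorem osc_aX (L : ℝ) (j : Fin 3) : osc L (aX j) pp = rf j (FX L) := by
  ext X
  unfold osc aX rf FX
  ring

theorem osc_aY (L : ℝ) (j : Fin 3) : osc L (aY j) qq = rf j (GY L) := by
  ext X
  unfold osc aY rf GY
  ring

theorem rfX_sm1 (L : ℝ) (j : Fin 3) : Sm1 (rf j (FX L)) := by
  rw [← osc_aX]
  exact (osc_ann (aX_ann j) pp_smooth L).sm1

theorem rfY_sm1 (L : ℝ) (j : Fin 3) : Sm1 (rf j (GY L)) := by
  rw [← osc_aY]
  exact (osc_ann (aY_ann j) qq_smooth L).sm1

/-- The horizontal components. -/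
def hX (W L c : ℝ) (j : Fin 3) : V → ℝ := dil W c (rf j (FX L))

/-- The vertical components. -/
def hY (W L c : ℝ) (j : Fin 3) : V → ℝ := dil W c (rf j (GY L))

/-- The vortex. -/
def pX (W L c : ℝ) (x : V) : V := ![-hX W L c 1 x, hX W L c 0 x, 0]

/-- The vertical velocities. -/
def pY (W L c : ℝ) (j : Fin 3) (x : V) : V := ![0, 0, hY W L c j x]

theorem hX_eq (W L c : ℝ) (j : Fin 3) : hX W L c j = ff W L c (aX j) pp := by
  unfold hX ff; rw [osc_aX]

theorem hY_eq (W L c : ℝ) (j : Fin 3) : hY W L c j = ff W L c (aY j) qq := by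
  unfold hY ff; rw [osc_aY]

section

variable {W L c : ℝ}

theorem hX_spf (h : Dp W c) (L : ℝ) (j : Fin 3) : SPf (hX W L c j) := dil_spf h (rfX_sm1 L j)

theorem hY_spf (h : Dp W c) (L : ℝ) (j : Fin 3) : SPf (hY W L c j) := dil_spf h (rfY_sm1 L j)

theorem pd_hX (h : Dp W c) (L : ℝ) (i j : Fin 3) (x : V) : pd i (hX W L c j) x =
    W * ((if i = j ∧ i ≠ 2 then 1 else 0) * FX L (sg (sc W c x)) +
      xc j (sc W c x) * (2 * xc i (sc W c x) * deriv (FX L) (sg (sc W c x)))) := by
  unfold hX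
  rw [pd_dil h (rfX_sm1 L j)]
  split_ifs with hi h2 h2
  · exact absurd hi h2.2
  · subst hi
    simp [xc]
  · rw [dil, pd_rf (FX_smooth L), if_pos h2]
  · rw [dil, pd_rf (FX_smooth L), if_neg h2]

theorem pd_hY (h : Dp W c) (L : ℝ) (i j : Fin 3) (x : V) : pd i (hY W L c j) x =
    W * ((if i = j ∧ i ≠ 2 then 1 else 0) * GY L (sg (sc W c x)) +
      xc j (sc W c x) * (2 * xc i (sc W c x) * deriv (GY L) (sg (sc W c x)))) := by
  unfold hY
  rw [pd_dil h (rfY_sm1 L j)]
  split_ifs with hi h2 h2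
  · exact absurd hi h2.2
  · subst hi
    simp [xc]
  · rw [dil, pd_rf (GY_smooth L), if_pos h2]
  · rw [dil, pd_rf (GY_smooth L), if_neg h2]

theorem xc0 (X : V) : xc 0 X = X 0 := by simp [xc]

theorem xc1 (X : V) : xc 1 X = X 1 := by simp [xc]

theorem xc2 (X : V) : xc 2 X = 0 := by simp [xc]

theorem hX_apply (W L c : ℝ) (j : Fin 3) (x : V) :
    hX W L c j x = xc j (sc W c x) * FX L (sg (sc W c x)) := rfl

theorem hY_apply (W L c : ℝ) (j : Fin 3) (x : V) :
    hY W L c j x = xc j (sc W c x) * GY L (sg (sc W c x)) := rfl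

theorem pX_sf (h : Dp W c) (L : ℝ) : SF (pX W L c) := by
  have s := hX_spf h L
  refine ⟨contDiff_pi.2 fun i => ?_, fun i x => ?_, fun x => ?_⟩
  · fin_cases i
    · exact (s 1).1.neg
    · exact (s 0).1
    · exact contDiff_const
  · unfold pX
    rw [(s 1).2 i x, (s 0).2 i x]
  · rw [Fin.sum_univ_three]
    have e0 : (fun y => pX W L c y 0) = fun y => -hX W L c 1 y := rfl
    have e1 : (fun y => pX W L c y 1) = hX W L c 0 := rfl
    have e2 : (fun y => pX W L c y 2) = fun _ => 0 := rfl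
    have e3 : pd 0 (fun y => -hX W L c 1 y) x = -pd 0 (hX W L c 1) x := by
      have := pd_sub (f := fun _ => 0) (g := hX W L c 1) contDiff_const (s 1).c1 0 x
      simp only [zero_sub] at this
      rw [this]
      simp [CK.pd]
    rw [e0, e1, e2, e3, pd_hX h, pd_hX h]
    simp only [xc0, xc1]
    simp [CK.pd]
    ring

theorem pY_sf (h : Dp W c) (L : ℝ) (j : Fin 3) : SF (pY W L c j) := by
  have s := hY_spf h L j
  refine ⟨contDiff_pi.2 fun i => ?_, fun i x => ?_, fun x => ?_⟩
  · fin_cases i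
    · exact contDiff_const
    · exact contDiff_const
    · exact s.1
  · unfold pY
    rw [s.2 i x]
  · rw [Fin.sum_univ_three]
    have e0 : (fun y => pY W L c j y 0) = fun _ => 0 := rfl
    have e1 : (fun y => pY W L c j y 1) = fun _ => 0 := rfl
    have e2 : (fun y => pY W L c j y 2) = hY W L c j := rfl
    rw [e0, e1, e2, pd_hY h, xc2]
    simp [CK.pd]

end

end Pool.Agent.H306.DS
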