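import Pool.Agent.H306.DS.Ser

/-! Joint smoothness of series `∑ c_j(t) f_j(x)`. -/

noncomputable section

namespace Pool.Agent.H306.DS

open Set MeasureTheory Filter Topology

open scoped Real ContDiff

open Pool.Agent.H306.CK

/-- The coefficients are smooth and decay rapidly with all derivatives on compact subintervals. -/
structure TC (κ : ℕ → ℝ) (a b : ℝ) (c : ℕ → ℝ → ℝ) : Prop where
  smooth : ∀ j, ContDiffOn ℝ ∞ (c j) (Ioo a b)
  bd : ∀ (q N : ℕ) (a' b' : ℝ), a < a' → b' < b → ∃ C : ℝ, ∀ j, ∀ t ∈ Icc a' b',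
    |iteratedDeriv q (c j) t| * κ j ^ N ≤ C

section

variable {κ : ℕ → ℝ} {a b : ℝ} {c : ℕ → ℝ → ℝ} {f : ℕ → V → ℝ}

theorem nat_le_inf (n : ℕ) : (n : WithTop ℕ∞) ≤ ∞ := by exact_mod_cast le_top

theorem cut_smooth (hc : TC κ a b c) {t₀ : ℝ} (η : ContDiffBump t₀)
    (hη : Metric.closedBall t₀ η.rOut ⊆ Ioo a b) (j : ℕ) :
    ContDiff ℝ ∞ (fun t => η t * c j t) := by
  rw [contDiff_iff_contDiffAt]
  intro t
  by_cases ht : t ∈ Ioo a b
  · exact (η.contDiff.contDiffAt).mul ((hc.smooth j).contDiffAt (isOpen_Ioo.mem_nhds ht))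
  · have h1 : t ∉ Metric.closedBall t₀ η.rOut := fun h => ht (hη h)
    have h2 : (fun t => η t * c j t) =ᶠ[𝓝 t] fun _ => 0 := by
      filter_upwards [Metric.isClosed_closedBall.isOpen_compl.mem_nhds h1] with s hs
      have : η s = 0 := η.zero_of_le_dist (by
        simp only [mem_compl_iff, Metric.mem_closedBall, not_le] at hs
        exact hs.le)
      rw [this, zero_mul]
    exact contDiffAt_const.congr_of_eventuallyEq h2

theorem bump_bd {t₀ : ℝ} (η : ContDiffBump t₀) (n : ℕ) :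
    ∃ C : ℝ, 0 ≤ C ∧ ∀ y, ‖iteratedFDeriv ℝ n η y‖ ≤ C := by
  have hc : Continuous (iteratedFDeriv ℝ n η) :=
    (η.contDiff (n := n)).continuous_iteratedFDeriv le_rfl
  have hs : HasCompactSupport (iteratedFDeriv ℝ n η) := η.hasCompactSupport.iteratedFDeriv n
  obtain ⟨C, hC⟩ := hs.exists_bound_of_continuous hc
  exact ⟨C, (norm_nonneg _).trans (hC 0), hC⟩

theorem cut_bound (hκ : ∀ j, 1 ≤ κ j) (hc : TC κ a b c) {t₀ : ℝ} (η : ContDiffBump t₀)
    (hη : Metric.closedBall t₀ η.rOut ⊆ Ioo a b) (q N : ℕ) :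
    ∃ C : ℝ, 0 ≤ C ∧ ∀ j t, ‖iteratedFDeriv ℝ q (fun t => η t * c j t) t‖ * κ j ^ N ≤ C := by
  choose E hE0 hE using bump_bd η
  have hIcc : Metric.closedBall t₀ η.rOut = Icc (t₀ - η.rOut) (t₀ + η.rOut) :=
    Real.closedBall_eq_Icc
  have hr := η.rOut_pos
  have ha : a < t₀ - η.rOut := (hη (by rw [hIcc]; exact ⟨le_rfl, by linarith⟩)).1
  have hb : t₀ + η.rOut < b := (hη (by rw [hIcc]; exact ⟨by linarith, le_rfl⟩)).2
  choose C hC using fun i => hc.bd i N _ _ ha hb
  refine ⟨∑ i ∈ Finset.range (q + 1), (q.choose i : ℝ) * E i * |C (q - i)|,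
    Finset.sum_nonneg fun i _ => by have := hE0 i; positivity, fun j t => ?_⟩
  have hp : 0 < κ j := by linarith [hκ j]
  by_cases ht : t ∈ Metric.closedBall t₀ η.rOut
  · have htab := hη ht
    have ho : IsOpen (Ioo a b) := isOpen_Ioo
    have h1 := norm_iteratedFDerivWithin_mul_le (𝕜 := ℝ) (n := q) (N := (∞ : WithTop ℕ∞))
      (η.contDiff.contDiffOn) (hc.smooth j) ho.uniqueDiffOn htab (by exact_mod_cast le_top)
    rw [iteratedFDerivWithin_of_isOpen q ho htab] at h1
    have h2 : ∀ i, ‖iteratedFDerivWithin ℝ i (c j) (Ioo a b) t‖ * κ j ^ N ≤ |C i| := by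
      intro i
      rw [iteratedFDerivWithin_of_isOpen i ho htab, norm_iteratedFDeriv_eq_norm_iteratedDeriv,
        Real.norm_eq_abs]
      exact (hC i j t (by rw [← hIcc]; exact ht)).trans (le_abs_self _)
    calc ‖iteratedFDeriv ℝ q (fun t => η t * c j t) t‖ * κ j ^ N ≤
          (∑ i ∈ Finset.range (q + 1), (q.choose i : ℝ) *
            ‖iteratedFDerivWithin ℝ i η (Ioo a b) t‖ *
            ‖iteratedFDerivWithin ℝ (q - i) (c j) (Ioo a b) t‖) * κ j ^ N := by gcongr
      _ = ∑ i ∈ Finset.range (q + 1), (q.choose i : ℝ) *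
            ‖iteratedFDerivWithin ℝ i η (Ioo a b) t‖ *
            (‖iteratedFDerivWithin ℝ (q - i) (c j) (Ioo a b) t‖ * κ j ^ N) := by
          rw [Finset.sum_mul]
          exact Finset.sum_congr rfl fun i _ => by ring
      _ ≤ _ := by
          refine Finset.sum_le_sum fun i _ => ?_
          have h3 : ‖iteratedFDerivWithin ℝ i η (Ioo a b) t‖ ≤ E i := by
            rw [iteratedFDerivWithin_of_isOpen i ho htab]
            exact hE i t
          have h4 := h2 (q - i)
          have h5 := hE0 i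
          gcongr
  · have h2 : (fun t => η t * c j t) =ᶠ[𝓝 t] fun _ => 0 := by
      filter_upwards [Metric.isClosed_closedBall.isOpen_compl.mem_nhds ht] with s hs
      have : η s = 0 := η.zero_of_le_dist (by
        simp only [mem_compl_iff, Metric.mem_closedBall, not_le] at hs
        exact hs.le)
      rw [this, zero_mul]
    have h3 : iteratedFDeriv ℝ q (fun t => η t * c j t) t = 0 := by
      rw [h2.iteratedFDeriv ℝ q |>.eq_of_nhds]
      have := iteratedFDeriv_fun_zero (𝕜 := ℝ) (E := ℝ) (F := ℝ) (n := q)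
      exact congrFun this t
    rw [h3, norm_zero, zero_mul]
    exact Finset.sum_nonneg fun i _ => by have := hE0 i; positivity

theorem joint_smooth (hκ : ∀ j, 1 ≤ κ j) (hs : Summable fun j => 1 / κ j) (hc : TC κ a b c)
    (hf : ∀ j, ContDiff ℝ ∞ (f j))
    (hfb : ∀ q : ℕ, ∃ (C : ℝ) (p : ℕ), ∀ j x, ‖iteratedFDeriv ℝ q (f j) x‖ ≤ C * κ j ^ p) :
    ContDiffOn ℝ ∞ (fun z : ℝ × V => ∑' j, c j z.1 * f j z.2) (Ioo a b ×ˢ univ) := by
  rintro ⟨t₀, x₀⟩ ⟨ht₀, -⟩
  simp only at ht₀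
  obtain ⟨r, hr0, hr⟩ := Metric.isOpen_iff.1 (isOpen_Ioo (a := a) (b := b)) t₀ ht₀
  let η : ContDiffBump t₀ := ⟨r / 4, r / 2, by positivity, by linarith⟩
  have hη : Metric.closedBall t₀ η.rOut ⊆ Ioo a b :=
    (Metric.closedBall_subset_ball (by change r / 2 < r; linarith)).trans hr
  choose Cf pf hCf using hfb
  -- the global function
  have key : ContDiff ℝ ∞ (fun z : ℝ × V => ∑' j, (η z.1 * c j z.1) * f j z.2) := by
    have hbound : ∀ n : ℕ, ∃ M : ℝ, ∀ j (z : ℝ × V),
        ‖iteratedFDeriv ℝ n (fun z : ℝ × V => (η z.1 * c j z.1) * f j z.2) z‖ ≤ M * (1 / κ j) := by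
      intro n
      choose Cc hCc0 hCc using fun i => cut_bound hκ hc η hη i (pf (n - i) + 1)
      refine ⟨∑ i ∈ Finset.range (n + 1), (n.choose i : ℝ) * Cc i * |Cf (n - i)|, fun j z => ?_⟩
      have hp : 0 < κ j := by linarith [hκ j]
      have s1 : ContDiff ℝ ∞ (fun z : ℝ × V => η z.1 * c j z.1) :=
        (cut_smooth hc η hη j).comp contDiff_fst
      have s2 : ContDiff ℝ ∞ (fun z : ℝ × V => f j z.2) := (hf j).comp contDiff_snd
      refine (norm_iteratedFDeriv_mul_le s1 s2 z (n := n) (by exact_mod_cast le_top)).trans ?_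
      rw [Finset.sum_mul]
      refine Finset.sum_le_sum fun i _ => ?_
      have b1 : ‖iteratedFDeriv ℝ i (fun z : ℝ × V => η z.1 * c j z.1) z‖ ≤
          ‖iteratedFDeriv ℝ i (fun t => η t * c j t) z.1‖ := by
        have h1 := (ContinuousLinearMap.fst ℝ ℝ V).iteratedFDeriv_comp_right
          (cut_smooth hc η hη j) z (i := i) (by exact_mod_cast le_top)
        have h2 : (fun z : ℝ × V => η z.1 * c j z.1) =
            (fun t => η t * c j t) ∘ (ContinuousLinearMap.fst ℝ ℝ V) := rfl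
        rw [h2, h1]
        refine (ContinuousMultilinearMap.norm_compContinuousLinearMap_le _ _).trans ?_
        rw [Finset.prod_const]
        refine mul_le_of_le_one_right (norm_nonneg _) (pow_le_one₀ (norm_nonneg _) ?_)
        exact ContinuousLinearMap.norm_fst_le ℝ ℝ V
      have b2 : ‖iteratedFDeriv ℝ (n - i) (fun z : ℝ × V => f j z.2) z‖ ≤
          ‖iteratedFDeriv ℝ (n - i) (f j) z.2‖ := by
        have h1 := (ContinuousLinearMap.snd ℝ ℝ V).iteratedFDeriv_comp_right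
          (hf j) z (i := n - i) (nat_le_inf (n - i))
        have h2 : (fun z : ℝ × V => f j z.2) = (f j) ∘ (ContinuousLinearMap.snd ℝ ℝ V) := rfl
        rw [h2, h1]
        refine (ContinuousMultilinearMap.norm_compContinuousLinearMap_le _ _).trans ?_
        rw [Finset.prod_const]
        refine mul_le_of_le_one_right (norm_nonneg _) (pow_le_one₀ (norm_nonneg _) ?_)
        exact ContinuousLinearMap.norm_snd_le ℝ ℝ V
      have b3 := hCc i j z.1
      have b4 := hCf (n - i) j z.2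
      have b5 := hCc0 i
      rw [← le_div_iff₀ (by positivity)] at b3
      calc (n.choose i : ℝ) * ‖iteratedFDeriv ℝ i (fun z : ℝ × V => η z.1 * c j z.1) z‖ *
            ‖iteratedFDeriv ℝ (n - i) (fun z : ℝ × V => f j z.2) z‖ ≤
            (n.choose i : ℝ) * (Cc i / κ j ^ (pf (n - i) + 1)) *
              (|Cf (n - i)| * κ j ^ pf (n - i)) := by
            gcongr
            · exact b1.trans b3
            · exact (b2.trans b4).trans (by gcongr; exact le_abs_self _)
        _ = _ := by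
            rw [pow_succ]
            field_simp
    choose M hM using hbound
    exact contDiff_tsum (N := ⊤) (v := fun n j => M n * (1 / κ j))
      (fun j => ((cut_smooth hc η hη j).comp contDiff_fst).mul ((hf j).comp contDiff_snd))
      (fun n _ => hs.mul_left _) (fun n j z _ => hM n j z)
  have heq : (fun z : ℝ × V => ∑' j, c j z.1 * f j z.2) =ᶠ[𝓝 (t₀, x₀)]
      fun z : ℝ × V => ∑' j, (η z.1 * c j z.1) * f j z.2 := by
    have h1 : Metric.ball t₀ (r / 4) ×ˢ (univ : Set V) ∈ 𝓝 (t₀, x₀) :=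
      prod_mem_nhds (Metric.ball_mem_nhds t₀ (by positivity)) univ_mem
    filter_upwards [h1] with z hz
    have h2 : η z.1 = 1 := η.one_of_mem_closedBall (Metric.ball_subset_closedBall hz.1)
    simp only [h2, one_mul]
  exact ((key.contDiffAt).congr_of_eventuallyEq heq).contDiffWithinAt

theorem ser_time (hκ : ∀ j, 1 ≤ κ j) (hs : Summable fun j => 1 / κ j) (hc : TC κ a b c)
    {F : ℕ → ℝ} {C : ℝ} {p : ℕ} (hF : ∀ j, |F j| ≤ C * κ j ^ p) {t : ℝ} (ht : t ∈ Ioo a b) :
    HasDerivAt (fun s => ∑' j, c j s * F j) (∑' j, deriv (c j) t * F j) t := by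
  obtain ⟨a', ha', ha''⟩ := exists_between ht.1
  obtain ⟨b', hb', hb''⟩ := exists_between ht.2
  obtain ⟨C₀, hC₀⟩ := hc.bd 0 (p + 1) a' b' ha' hb''
  obtain ⟨C₁, hC₁⟩ := hc.bd 1 (p + 1) a' b' ha' hb''
  have hC0 : 0 ≤ C := by
    have h1 := (abs_nonneg _).trans (hF 0)
    have h2 : 0 < κ 0 ^ p := by have := hκ 0; positivity
    exact nonneg_of_mul_nonneg_left h1 h2
  have hb : ∀ (g : ℝ) (D : ℝ) (j : ℕ), |g| * κ j ^ (p + 1) ≤ D →
      ‖g * F j‖ ≤ D * C * (1 / κ j) := by
    intro g D j h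
    have hp : 0 < κ j := by linarith [hκ j]
    rw [Real.norm_eq_abs, abs_mul, mul_one_div, le_div_iff₀ hp]
    calc |g| * |F j| * κ j ≤ |g| * (C * κ j ^ p) * κ j := by gcongr; exact hF j
      _ = (|g| * κ j ^ (p + 1)) * C := by ring
      _ ≤ D * C := by gcongr
  have htI : t ∈ Ioo a' b' := ⟨ha'', hb'⟩
  have hs0 : Summable fun j => c j t * F j := by
    refine Summable.of_norm_bounded (hs.mul_left (C₀ * C)) fun j => ?_
    have h1 := hC₀ j t ⟨ha''.le, hb'.le⟩
    rw [iteratedDeriv_zero] at h1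
    exact hb _ _ j h1
  refine hasDerivAt_tsum_of_isPreconnected (𝕜 := ℝ) (F := ℝ) (u := fun j => C₁ * C * (1 / κ j))
    (g := fun j s => c j s * F j) (g' := fun j s => deriv (c j) s * F j) (hs.mul_left _)
    isOpen_Ioo isPreconnected_Ioo (fun j s hs' => ?_) (fun j s hs' => ?_) htI hs0 htI
  · have h1 := ((hc.smooth j).contDiffAt (isOpen_Ioo.mem_nhds
      (⟨ha'.trans hs'.1, hs'.2.trans hb''⟩ : s ∈ Ioo a b)))
    exact ((h1.differentiableAt (by simp)).hasDerivAt).mul_const (F j)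
  · have h1 := hC₁ j s ⟨hs'.1.le, hs'.2.le⟩
    rw [iteratedDeriv_one] at h1
    exact hb _ _ j h1

end

end Pool.Agent.H306.DS
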