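import Pool.Agent.H306.DS.Casc

/-! Rapid decay of the cascade before the blow-up time, with all derivatives. -/

namespace Pool.Agent.H306.DS

open Set Filter Topology

open scoped ContDiff

open Pool.Agent.H306.CK

/-- The input of stage `m`. -/
noncomputable def inp (k : ℝ) (x : ℕ → ℝ → ℝ) (m : ℕ) : ℝ → ℝ :=
  match m with
  | 0 => f0 k
  | m + 1 => x m

/-- A shifted family. -/
def shf (h : ℝ → ℝ) (g : ℕ → ℝ → ℝ) (m : ℕ) (t : ℝ) : ℝ :=
  match m with
  | 0 => h t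
  | m + 1 => g m t

/-- The whole cascade. -/
structure Cas (ρ : ℕ → ℝ) (k : ℝ) (x y z : ℕ → ℝ → ℝ) (a e : ℕ → ℝ) : Prop where
  rates : Rates ρ k
  out : ∀ m, Out (inp k x m) (x m) (y m) (z m) (TT ρ) (ta ρ m) (ρ m)
        (ρ (m + 1)) (1 + 1 / 2 ^ (m + 1)) (ρ m) (a m) (e m)

theorem exists_cas {ρ : ℕ → ℝ} {k : ℝ} (h : Rates ρ k) : ∃ x y z a e, Cas ρ k x y z a e := by
  obtain ⟨x, y, z, a, e, h1⟩ := cascade h
  refine ⟨x, y, z, a, e, h, fun m => ?_⟩
  have h2 := h1 m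
  cases m with
  | zero => exact h2
  | succ m => exact h2

/-- Families that decay rapidly before the blow-up time. -/
def RT (ρ : ℕ → ℝ) (g : ℕ → ℝ → ℝ) : Prop :=
  ∀ T' < TT ρ, ∀ N : ℕ, ∃ C : ℝ, ∀ m, ∀ t ∈ Icc 0 T', |g m t| * ρ (m + 1) ^ N ≤ C

/-- The algebra of families. -/
inductive Al (ρ : ℕ → ℝ) (x y z : ℕ → ℝ → ℝ) : (ℕ → ℝ → ℝ) → Prop
  | x : Al ρ x y z x
  | y : Al ρ x y z y
  | z : Al ρ x y z z
  | shift (h : ℝ → ℝ) (hh : ContDiff ℝ ∞ h) {g : ℕ → ℝ → ℝ} (hg : Al ρ x y z g) :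
      Al ρ x y z (shf h g)
  | add {g g' : ℕ → ℝ → ℝ} (hg : Al ρ x y z g) (hg' : Al ρ x y z g') :
      Al ρ x y z (fun m t => g m t + g' m t)
  | mul {g g' : ℕ → ℝ → ℝ} (hg : Al ρ x y z g) (hg' : Al ρ x y z g') :
      Al ρ x y z (fun m t => g m t * g' m t)
  | coef (c : ℕ → ℝ) (C : ℝ) (p : ℕ) (hc : ∀ m, |c m| ≤ C * ρ (m + 1) ^ p) {g : ℕ → ℝ → ℝ}
      (hg : Al ρ x y z g) : Al ρ x y z (fun m t => c m * g m t)

section

variable {ρ : ℕ → ℝ} {k : ℝ} {x y z : ℕ → ℝ → ℝ} {a e : ℕ → ℝ}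

theorem Rates.mono (h : Rates ρ k) (m : ℕ) : ρ m ≤ ρ (m + 1) := by
  have h1 := h.ratio m
  have h2 := h.ρ_pos m
  linarith

theorem Rates.monotone (h : Rates ρ k) : Monotone ρ := monotone_nat_of_le_succ h.mono

theorem rem_tendsto (h : Rates ρ k) : Tendsto (rem ρ) atTop (𝓝 0) := by
  have h1 : ∀ m, rem ρ m ≤ 2 * (1 / 2 : ℝ) ^ m := by
    intro m
    have h2 := rem_le h m
    have h3 := h.inv_le 0 m
    rw [zero_add] at h3
    have h4 := h.ρ_pos 0
    have h5 : 1 / ρ 0 ≤ 1 := by rw [div_le_one (by linarith)]; linarith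
    have h6 : 1 / ρ (m + 1) ≤ 1 / ρ m :=
      one_div_le_one_div_of_le (by linarith [h.ρ_pos m]) (h.mono m)
    have h7 : (0 : ℝ) < (1 / 2) ^ m := by positivity
    have h8 : 1 / ρ 0 * (1 / 2) ^ m ≤ 1 * (1 / 2 : ℝ) ^ m := by gcongr
    have h9 : 2 / ρ (m + 1) = 2 * (1 / ρ (m + 1)) := by ring
    rw [h9] at h2
    linarith
  have h2 : Tendsto (fun m : ℕ => 2 * (1 / 2 : ℝ) ^ m) atTop (𝓝 0) := by
    have := (tendsto_pow_atTop_nhds_zero_of_lt_one (by norm_num : (0 : ℝ) ≤ 1 / 2)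
      (by norm_num)).const_mul 2
    simpa using this
  exact squeeze_zero (fun m => (rem_pos h m).le) h1 h2

theorem early_index (h : Rates ρ k) {T' : ℝ} (hT' : T' < TT ρ) :
    ∃ m₁ : ℕ, ∀ m, m₁ ≤ m → T' ≤ ta ρ m - th (ρ m) := by
  have h1 : Tendsto (fun m => ta ρ m - th (ρ m)) atTop (𝓝 (TT ρ - 0 - 0)) := by
    refine Tendsto.sub (Tendsto.sub tendsto_const_nhds (rem_tendsto h)) ?_
    have h2 : ∀ m, th (ρ m) ≤ (1 / 2 : ℝ) ^ m := by
      intro m
      have h3 := h.inv_le 0 m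
      rw [zero_add] at h3
      have h4 := h.ρ_pos 0
      have h5 : 1 / ρ 0 ≤ 1 := by rw [div_le_one (by linarith)]; linarith
      have h6 := h.ρ_pos m
      have h7 : th (ρ m) ≤ 1 / ρ m := by
        unfold th
        apply one_div_le_one_div_of_le (by linarith)
        linarith
      have h8 : 1 / ρ 0 * (1 / 2) ^ m ≤ 1 * (1 / 2 : ℝ) ^ m := by gcongr
      linarith
    refine squeeze_zero (fun m => ?_) h2
      (tendsto_pow_atTop_nhds_zero_of_lt_one (by norm_num : (0 : ℝ) ≤ 1 / 2) (by norm_num))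
    have := h.ρ_pos m
    unfold th
    positivity
  rw [sub_zero, sub_zero] at h1
  obtain ⟨m₁, hm₁⟩ := eventually_atTop.1 (h1.eventually (lt_mem_nhds hT'))
  exact ⟨m₁, fun m hm => (hm₁ m hm).le⟩

/-- A criterion for rapid decay. -/
theorem RT_of_tail (h : Rates ρ k) {g : ℕ → ℝ → ℝ}
    (hb : ∃ B : ℝ, ∀ m, ∀ t ∈ Icc 0 (TT ρ), |g m t| ≤ B)
    (ht : ∀ T' < TT ρ, ∃ m₁ : ℕ, ∀ N : ℕ, ∃ C : ℝ, ∀ m, m₁ ≤ m → ∀ t ∈ Icc 0 T',
      |g m t| * ρ (m + 1) ^ N ≤ C) : RT ρ g := by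
  intro T' hT' N
  obtain ⟨B, hB⟩ := hb
  obtain ⟨m₁, hm₁⟩ := ht T' hT'
  obtain ⟨C, hC⟩ := hm₁ N
  refine ⟨max C (|B| * ρ (m₁ + 1) ^ N), fun m t ht => ?_⟩
  rcases le_or_gt m₁ m with hm | hm
  · exact (hC m hm t ht).trans (le_max_left _ _)
  · refine le_trans ?_ (le_max_right _ _)
    have h1 := hB m t ⟨ht.1, ht.2.trans hT'.le⟩
    have h2 := h.ρ_pos (m + 1)
    have h3 : ρ (m + 1) ≤ ρ (m₁ + 1) := h.monotone (by omega)
    calc |g m t| * ρ (m + 1) ^ N ≤ |B| * ρ (m + 1) ^ N :=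
          mul_le_mul_of_nonneg_right (h1.trans (le_abs_self _)) (by positivity)
      _ ≤ |B| * ρ (m₁ + 1) ^ N := by gcongr

theorem RT_x (h : Cas ρ k x y z a e) : RT ρ x := by
  refine RT_of_tail h.rates ⟨3 / 20, fun m t ht => ?_⟩ (fun T' hT' => ?_)
  · have h1 := (h.out m).bd t ht
    rw [abs_of_nonneg h1.1]
    exact h1.2.1
  · obtain ⟨m₁, hm₁⟩ := early_index h.rates hT'
    refine ⟨m₁, fun N => ?_⟩
    obtain ⟨C, hC⟩ := h.rates.fast N
    refine ⟨C, fun m hm t ht => ?_⟩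
    have h1 := (h.out m).bd t ⟨ht.1, ht.2.trans hT'.le⟩
    have h2 := (h.out m).early t ⟨ht.1, ht.2.trans (hm₁ m hm)⟩
    have h3 := h.rates.ρ_pos (m + 1)
    rw [abs_of_nonneg h1.1]
    exact (mul_le_mul_of_nonneg_right h2.1 (by positivity)).trans (hC m)

theorem RT_z (h : Cas ρ k x y z a e) : RT ρ z := by
  refine RT_of_tail h.rates ⟨3 / 20, fun m t ht => ?_⟩ (fun T' hT' => ?_)
  · have h1 := (h.out m).bd t ht
    rw [abs_of_nonneg h1.2.2.1]
    exact h1.2.2.2.1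
  · obtain ⟨m₁, hm₁⟩ := early_index h.rates hT'
    refine ⟨m₁, fun N => ?_⟩
    obtain ⟨C, hC⟩ := h.rates.fast N
    refine ⟨C, fun m hm t ht => ?_⟩
    have h1 := (h.out m).bd t ⟨ht.1, ht.2.trans hT'.le⟩
    have h2 := (h.out m).early t ⟨ht.1, ht.2.trans (hm₁ m hm)⟩
    have h3 := h.rates.ρ_pos (m + 1)
    rw [abs_of_nonneg h1.2.2.1]
    exact (mul_le_mul_of_nonneg_right h2.2 (by positivity)).trans (hC m)

theorem slow_pow (h : Rates ρ k) (m N : ℕ) : ρ (m + 1) ^ N ≤ ρ m ^ (4 * N) := by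
  have h1 := h.ρ_pos (m + 1)
  rw [pow_mul]
  exact pow_le_pow_left₀ (by linarith) (h.slow m) N

theorem RT_shift (h : Rates ρ k) {g : ℕ → ℝ → ℝ} (hg : RT ρ g) {f : ℝ → ℝ}
    (hf : ContinuousOn f (Icc 0 (TT ρ))) : RT ρ (shf f g) := by
  intro T' hT' N
  obtain ⟨C, hC⟩ := hg T' hT' (4 * N)
  obtain ⟨B, hB⟩ := (isCompact_Icc.exists_bound_of_continuousOn hf)
  refine ⟨max C (B * ρ 1 ^ N), fun m t ht => ?_⟩
  cases m with
  | zero =>
    refine le_trans ?_ (le_max_right _ _)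
    have h1 := hB t ⟨ht.1, ht.2.trans hT'.le⟩
    have h3 := h.ρ_pos 1
    simp only [shf, zero_add]
    exact mul_le_mul_of_nonneg_right h1 (by positivity)
  | succ m =>
    refine le_trans ?_ (le_max_left _ _)
    simp only [shf]
    refine le_trans ?_ (hC m t ht)
    gcongr
    exact slow_pow h (m + 1) N

theorem inp_eq (k : ℝ) (x : ℕ → ℝ → ℝ) : inp k x = shf (f0 k) x := by
  ext m t
  cases m <;> rfl

theorem f0_smooth (k : ℝ) : ContDiff ℝ ∞ (f0 k) := by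
  unfold f0
  fun_prop

theorem RT_y (h : Cas ρ k x y z a e) : RT ρ y := by
  have hf : RT ρ (inp k x) := by
    rw [inp_eq]
    exact RT_shift h.rates (RT_x h) (f0_smooth k).continuous.continuousOn
  intro T' hT' N
  obtain ⟨C, hC⟩ := hf T' hT' (N + 1)
  refine ⟨102400 * C, fun m t ht => ?_⟩
  have h1 := (h.out m).bd t ⟨ht.1, ht.2.trans hT'.le⟩
  have h2 := (h.out m).a_le
  have h3 := h.rates.ρ_pos (m + 1)
  have h4 := h.rates.mono m
  have h5 := hC m t ht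
  rw [abs_of_nonneg h1.2.2.2.2.1]
  have h6 : a m * inp k x m t ≤ 51200 * ρ (m + 1) * |inp k x m t| := by
    calc a m * inp k x m t ≤ a m * |inp k x m t| := by
          have := (h.out m).a_pos
          gcongr
          exact le_abs_self _
      _ ≤ (51200 * ρ (m + 1)) * |inp k x m t| := by
          gcongr
          linarith
  calc y m t * ρ (m + 1) ^ N ≤ (2 * (51200 * ρ (m + 1) * |inp k x m t|)) * ρ (m + 1) ^ N := by
        gcongr
        linarith [h1.2.2.2.2.2.2]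
    _ = 102400 * (|inp k x m t| * ρ (m + 1) ^ (N + 1)) := by rw [pow_succ]; ring
    _ ≤ _ := by linarith

/-- All families of the algebra have a derivative in the algebra. -/
theorem Al.deriv (h : Cas ρ k x y z a e) {g : ℕ → ℝ → ℝ} (hg : Al ρ x y z g) :
    ∃ g', Al ρ x y z g' ∧ ∀ m, ∀ t ∈ Ioo (-1 : ℝ) 2, HasDerivAt (g m) (g' m t) t := by
  have hp : ∀ m, 64 ≤ ρ m := h.rates.ρ_pos
  have hneg1 : ∀ m, |(-1 : ℝ)| ≤ 1 * ρ (m + 1) ^ 0 := by intro m; simp
  induction hg with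
  | x =>
    refine ⟨fun m t => ρ (m + 1) / 8 * (z m t + (-1) * x m t),
      .coef _ 1 1 (fun m => ?_) (.add .z (.coef (fun _ => -1) 1 0 hneg1 .x)), fun m t ht => ?_⟩
    · have := hp (m + 1)
      rw [abs_of_pos (by positivity)]
      linarith
    · exact ((h.out m).act.derx t ht).congr_deriv (by ring)
  | y =>
    refine ⟨fun m t => (-ρ m) * y m t + ((-ρ (m + 1)) * (x m t * z m t) + a m * inp k x m t),
      .add (.coef _ 1 1 (fun m => ?_) .y) (.add (.coef _ 1 1 (fun m => ?_) (.mul .x .z))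
        (.coef a 51200 1 (fun m => ?_) (by rw [inp_eq]; exact .shift _ (f0_smooth k) .x))),
      fun m t ht => ?_⟩
    · have := hp m
      have := h.rates.mono m
      rw [abs_neg, abs_of_pos (by linarith)]
      linarith
    · have := hp (m + 1)
      rw [abs_neg, abs_of_pos (by linarith)]
      linarith
    · have h1 := (h.out m).a_pos
      have h2 := (h.out m).a_le
      have := h.rates.mono m
      rw [abs_of_pos h1, pow_one]
      linarith
    · exact ((h.out m).act.dery t ht).congr_deriv (by ring)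
  | z =>
    refine ⟨fun m t => (-(ρ (m + 1) / 8)) * z m t +
        (ρ (m + 1) * (x m t * y m t) + e m * y m t),
      .add (.coef _ 1 1 (fun m => ?_) .z) (.add (.coef _ 1 1 (fun m => ?_) (.mul .x .y))
        (.coef e 3 1 (fun m => ?_) .y)), fun m t ht => ?_⟩
    · have := hp (m + 1)
      rw [abs_neg, abs_of_pos (by positivity)]
      linarith
    · have := hp (m + 1)
      rw [abs_of_pos (by linarith)]
      linarith
    · have h1 := (h.out m).e_pos
      have h2 := (h.out m).e_le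
      have h3 := h.rates.sm1 m
      have h4 := hp (m + 1)
      have h5 := ep_pos (ρ m) (ρ (m + 1))
      rw [abs_of_pos h1, pow_one]
      nlinarith
    · exact ((h.out m).act.derz t ht).congr_deriv (by ring)
  | shift f hf hg ih =>
    obtain ⟨g', h1, h2⟩ := ih
    have hf' : ContDiff ℝ ∞ (_root_.deriv f) := by
      have := contDiff_infty_iff_deriv.1 hf
      exact this.2
    refine ⟨shf (_root_.deriv f) g', .shift _ hf' h1, fun m t ht => ?_⟩
    cases m with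
    | zero => exact (hf.differentiable (by simp) t).hasDerivAt
    | succ m => exact h2 m t ht
  | add hg hg' ih ih' =>
    obtain ⟨g₁, h1, h2⟩ := ih
    obtain ⟨g₂, h3, h4⟩ := ih'
    exact ⟨_, .add h1 h3, fun m t ht => (h2 m t ht).add (h4 m t ht)⟩
  | mul hg hg' ih ih' =>
    obtain ⟨g₁, h1, h2⟩ := ih
    obtain ⟨g₂, h3, h4⟩ := ih'
    exact ⟨_, .add (.mul h1 hg') (.mul hg h3), fun m t ht => (h2 m t ht).mul (h4 m t ht)⟩
  | coef c C p hc hg ih =>
    obtain ⟨g₁, h1, h2⟩ := ih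
    exact ⟨_, .coef c C p hc h1, fun m t ht => (h2 m t ht).const_mul (c m)⟩

theorem Al.rt (h : Cas ρ k x y z a e) {g : ℕ → ℝ → ℝ} (hg : Al ρ x y z g) : RT ρ g := by
  have hp : ∀ m, 64 ≤ ρ m := h.rates.ρ_pos
  induction hg with
  | x => exact RT_x h
  | y => exact RT_y h
  | z => exact RT_z h
  | shift f hf hg ih => exact RT_shift h.rates ih hf.continuous.continuousOn
  | add hg hg' ih ih' =>
    intro T' hT' N
    obtain ⟨C, hC⟩ := ih T' hT' N
    obtain ⟨C', hC'⟩ := ih' T' hT' N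
    refine ⟨C + C', fun m t ht => ?_⟩
    have := hp (m + 1)
    refine (mul_le_mul_of_nonneg_right (abs_add_le _ _) (by positivity)).trans ?_
    rw [add_mul]
    exact add_le_add (hC m t ht) (hC' m t ht)
  | mul hg hg' ih ih' =>
    intro T' hT' N
    obtain ⟨C, hC⟩ := ih T' hT' N
    obtain ⟨C', hC'⟩ := ih' T' hT' 0
    refine ⟨C * C', fun m t ht => ?_⟩
    have := hp (m + 1)
    have h1 := hC m t ht
    have h2 := hC' m t ht
    rw [pow_zero, mul_one] at h2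
    rw [abs_mul, mul_right_comm]
    exact mul_le_mul h1 h2 (abs_nonneg _) (le_trans (by positivity) h1)
  | @coef c C p hc g₀ hg ih =>
    intro T' hT' N
    obtain ⟨C', hC'⟩ := ih T' hT' (N + p)
    refine ⟨|C| * C', fun m t ht => ?_⟩
    have h0 := hp (m + 1)
    have h1 := hC' m t ht
    rw [abs_mul]
    calc |c m| * |g₀ m t| * ρ (m + 1) ^ N ≤
          (|C| * ρ (m + 1) ^ p) * |g₀ m t| * ρ (m + 1) ^ N := by
          gcongr
          exact (hc m).trans (by gcongr; exact le_abs_self _)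
      _ = |C| * (|g₀ m t| * ρ (m + 1) ^ (N + p)) := by rw [pow_add]; ring
      _ ≤ _ := mul_le_mul_of_nonneg_left h1 (abs_nonneg _)

theorem Al.iter (h : Cas ρ k x y z a e) {g : ℕ → ℝ → ℝ} (hg : Al ρ x y z g) (q : ℕ) :
    ∃ g', Al ρ x y z g' ∧ ∀ m, ∀ t ∈ Ioo (-1 : ℝ) 2, iteratedDeriv q (g m) t = g' m t := by
  induction q with
  | zero => exact ⟨g, hg, fun m t _ => by rw [iteratedDeriv_zero]⟩
  | succ q ih =>
    obtain ⟨g₁, h1, h2⟩ := ih
    obtain ⟨g₂, h3, h4⟩ := h1.deriv h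
    refine ⟨g₂, h3, fun m t ht => ?_⟩
    rw [iteratedDeriv_succ, ← (h4 m t ht).deriv]
    refine Filter.EventuallyEq.deriv_eq ?_
    filter_upwards [isOpen_Ioo.mem_nhds ht] with s hs
    exact h2 m s hs

theorem Al.smooth (h : Cas ρ k x y z a e) {g : ℕ → ℝ → ℝ} (hg : Al ρ x y z g) (m : ℕ) :
    ContDiffOn ℝ ∞ (g m) (Ioo (-1 : ℝ) 2) := by
  rw [contDiffOn_infty]
  intro n
  induction n generalizing g with
  | zero =>
    obtain ⟨g', h1, h2⟩ := hg.deriv h
    exact contDiffOn_zero.2 fun t ht => (h2 m t ht).continuousAt.continuousWithinAt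
  | succ n ih =>
    obtain ⟨g', h1, h2⟩ := hg.deriv h
    have h3 : ((n + 1 : ℕ) : WithTop ℕ∞) = (n : WithTop ℕ∞) + 1 := by norm_cast
    rw [h3, contDiffOn_succ_iff_deriv_of_isOpen isOpen_Ioo]
    refine ⟨fun t ht => (h2 m t ht).differentiableAt.differentiableWithinAt, by simp, ?_⟩
    exact (ih h1).congr fun t ht => (h2 m t ht).deriv

end

end Pool.Agent.H306.DS
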