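import Pool.Agent.H306.DS.Op2
import Pool.Agent.H306.DS.Rap
import Pool.Agent.H306.DS.Jt

/-! The interface between the modes and the chain. -/

noncomputable section

namespace Pool.Agent.H306.DS

open Set MeasureTheory Filter Topology

open scoped Real ContDiff ENNReal

open Pool.Agent.H306.CK

/-- The frequencies. -/
def Kf (n : ℕ) : ℝ := 2 ^ ((n + 4) ^ 2)

theorem Kf_pos (n : ℕ) : 0 < Kf n := by unfold Kf; positivity

theorem Kf_one_le (n : ℕ) : 1 ≤ Kf n := one_le_pow₀ (by norm_num)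

theorem Kf_mono : Monotone Kf := by
  intro m n h
  unfold Kf
  gcongr
  norm_num

theorem Kf_rpow (n : ℕ) (s : ℝ) : Kf n ^ s = 2 ^ (s * ((n : ℝ) + 4) ^ 2) := by
  unfold Kf
  rw [← Real.rpow_natCast, ← Real.rpow_mul (by norm_num)]
  congr 1
  push_cast
  ring

/-- The advection term. -/
def adv (v w : V → V) (x : V) (l : Fin 3) : ℝ := ∑ j, v x j * pd j (fun y => w y l) x

/-- The modes. -/
structure Modes (θ : ℝ) (N : ℕ → ℝ) (φ : Fin 3 → ℕ → V → V) (ϖ : ℕ → V → ℝ) : Prop where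
  sf : ∀ i n, SF (φ i n)
  bd : ∀ q : ℕ, ∃ (C : ℝ) (p : ℕ), ∀ i n l x,
    ‖iteratedFDeriv ℝ q (fun y => φ i n y l) x‖ ≤ C * Kf n ^ p
  ps : ∀ n, SPf (ϖ n)
  pb : ∀ q : ℕ, ∃ (C : ℝ) (p : ℕ), ∀ n x, ‖iteratedFDeriv ℝ q (ϖ n) x‖ ≤ C * Kf n ^ p
  ortho : ∀ i n i' n', inner3 (φ i n) (φ i' n') = if i = i' ∧ n = n' then 1 else 0
  four : ∀ s : ℝ, ∃ C : ℝ, 0 < C ∧ ∀ i n, hs s (φ i n) ≤ ENNReal.ofReal (C * Kf n ^ (2 * s))
  loc : ∀ x, ∃ n, ∀ n', n' ≠ n → ∀ i l j, φ i n' x l = 0 ∧ pd j (fun y => φ i n' y l) x = 0 ∧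
    pd j (ϖ n') x = 0
  advV : ∀ i i' n x l, i ≠ 2 → adv (φ i n) (φ i' n) x l = 0
  advXY : ∀ n x l, adv (φ 2 n) (φ 0 n) x l = -(N n * φ 1 n x l)
  advXZ : ∀ n x l, adv (φ 2 n) (φ 1 n) x l = N n * φ 0 n x l
  advXX : ∀ n x l, adv (φ 2 n) (φ 2 n) x l = -pd l (ϖ n) x
  point : ∃ c : ℝ, 0 < c ∧ ∀ n, ∃ x, c * Kf n ^ θ ≤ φ 2 n x 1 ∧
    ∀ i n', ¬ (i = 2 ∧ n' = n) → φ i n' x 1 = 0
  N_ge : ∃ c : ℝ, 0 < c ∧ ∀ n, c * Kf n ^ (2 * θ) ≤ N n
  N_le : ∃ C : ℝ, 0 < C ∧ ∀ n, N n ≤ C * Kf n ^ (2 * θ)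
  z2 : ∀ i n l x, pd 2 (fun y => φ i n y l) x = 0

/-- Sequences with three kinds of terms. -/
def t3 {α : Type} (a b c : ℕ → α) (j : ℕ) : α :=
  if j % 3 = 0 then a (j / 3) else if j % 3 = 1 then b (j / 3) else c (j / 3)

section t3

variable {α : Type} (a b c : ℕ → α) (s : ℕ)

theorem t3_0 : t3 a b c (3 * s) = a s := by
  unfold t3
  have h1 : 3 * s % 3 = 0 := by omega
  have h2 : 3 * s / 3 = s := by omega
  rw [if_pos h1, h2]

theorem t3_1 : t3 a b c (3 * s + 1) = b s := by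
  unfold t3
  have h1 : (3 * s + 1) % 3 = 1 := by omega
  have h2 : (3 * s + 1) / 3 = s := by omega
  rw [if_neg (by omega), if_pos h1, h2]

theorem t3_2 : t3 a b c (3 * s + 2) = c s := by
  unfold t3
  have h1 : (3 * s + 2) % 3 = 2 := by omega
  have h2 : (3 * s + 2) / 3 = s := by omega
  rw [if_neg (by omega), if_neg (by omega), h2]

theorem t3_cases (j : ℕ) : ∃ s, j = 3 * s ∨ j = 3 * s + 1 ∨ j = 3 * s + 2 := ⟨j / 3, by omega⟩

theorem t3_forall {p : α → ℕ → Prop} (h0 : ∀ s, p (a s) (3 * s)) (h1 : ∀ s, p (b s) (3 * s + 1))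
    (h2 : ∀ s, p (c s) (3 * s + 2)) (j : ℕ) : p (t3 a b c j) j := by
  obtain ⟨s, rfl | rfl | rfl⟩ := t3_cases j
  · rw [t3_0]; exact h0 s
  · rw [t3_1]; exact h1 s
  · rw [t3_2]; exact h2 s

end t3

/-- The frequencies of the chain. -/
def kc (m₀ : ℕ) (j : ℕ) : ℝ := Kf (j / 3 + m₀)

/-- The kind of a mode of the chain. -/
def kd (j : ℕ) : Fin 3 := if j = 0 then 2 else if j = 1 then 0 else if j = 2 then 1 else
  if j % 3 = 0 then 0 else if j % 3 = 1 then 1 else 2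

/-- The modes of the chain. -/
def cm (φ : Fin 3 → ℕ → V → V) (m₀ : ℕ) (j : ℕ) : V → V := φ (kd j) (j / 3 + m₀)

theorem kd_inj {i j : ℕ} (h : kd i = kd j) (h' : i / 3 = j / 3) : i = j := by
  unfold kd at h
  have h1 : (2 : Fin 3) ≠ 0 := by decide
  have h2 : (2 : Fin 3) ≠ 1 := by decide
  have h3 : (1 : Fin 3) ≠ 0 := by decide
  split_ifs at h <;> first | omega | exact absurd h (by decide)

theorem kd_s (s : ℕ) : kd (3 * (s + 1)) = 0 ∧ kd (3 * (s + 1) + 1) = 1 ∧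
    kd (3 * (s + 1) + 2) = 2 := by
  refine ⟨?_, ?_, ?_⟩
  · unfold kd
    rw [if_neg (by omega), if_neg (by omega), if_neg (by omega), if_pos (by omega)]
  · unfold kd
    rw [if_neg (by omega), if_neg (by omega), if_neg (by omega), if_neg (by omega),
      if_pos (by omega)]
  · unfold kd
    rw [if_neg (by omega), if_neg (by omega), if_neg (by omega), if_neg (by omega),
      if_neg (by omega)]

theorem kc_fast (m₀ : ℕ) (ε : ℝ) (hε : 0 < ε) : ∃ C : ℝ, ∀ j, (4 : ℝ) ^ j ≤ C * kc m₀ j ^ ε := by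
  refine ⟨2 ^ (9 / ε + 4), fun j => ?_⟩
  unfold kc
  rw [Kf_rpow, ← Real.rpow_add (by norm_num)]
  have h1 : (4 : ℝ) ^ j = 2 ^ (2 * (j : ℝ)) := by
    rw [Real.rpow_mul (by norm_num)]
    norm_num
  rw [h1]
  apply Real.rpow_le_rpow_of_exponent_le (by norm_num)
  set s : ℕ := j / 3 with hs
  have h2 : (j : ℝ) ≤ 3 * s + 2 := by
    have : j ≤ 3 * s + 2 := by omega
    exact_mod_cast this
  have h3 : (s : ℝ) ^ 2 ≤ (((s + m₀ : ℕ) : ℝ) + 4) ^ 2 := by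
    have h4 : (0 : ℝ) ≤ s := Nat.cast_nonneg s
    have h5 : (0 : ℝ) ≤ m₀ := Nat.cast_nonneg m₀
    push_cast
    gcongr
    linarith
  have h4 : 6 * (s : ℝ) ≤ ε * (s : ℝ) ^ 2 + 9 / ε := by
    have h5 : 0 ≤ (ε * s - 3) ^ 2 / ε := by positivity
    have h6 : (ε * s - 3) ^ 2 / ε = ε * (s : ℝ) ^ 2 - 6 * s + 9 / ε := by field_simp; ring
    linarith
  have h5 : ε * (s : ℝ) ^ 2 ≤ ε * (((s + m₀ : ℕ) : ℝ) + 4) ^ 2 := by gcongr
  linarith

theorem Kf_next (ε : ℝ) (hε : 0 < ε) : ∃ C : ℝ, 0 < C ∧ ∀ n, Kf (n + 1) ≤ C * Kf n ^ (1 + ε) := by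
  refine ⟨2 ^ (1 / ε + 1), by positivity, fun n => ?_⟩
  have h0 := Kf_rpow (n + 1) 1
  rw [Real.rpow_one] at h0
  rw [h0, Kf_rpow, ← Real.rpow_add (by norm_num)]
  apply Real.rpow_le_rpow_of_exponent_le (by norm_num)
  push_cast
  set s : ℝ := (n : ℝ) + 4 with hs
  have h4 : 2 * s ≤ ε * s ^ 2 + 1 / ε := by
    have h5 : 0 ≤ (ε * s - 1) ^ 2 / ε := by positivity
    have h6 : (ε * s - 1) ^ 2 / ε = ε * s ^ 2 - 2 * s + 1 / ε := by field_simp; ring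
    linarith
  have h5 : (n : ℝ) + 1 + 4 = s + 1 := by rw [hs]; ring
  rw [h5]
  nlinarith

theorem kc_next (m₀ : ℕ) (ε : ℝ) (hε : 0 < ε) :
    ∃ C : ℝ, ∀ j, kc m₀ (j + 1) ≤ C * kc m₀ j ^ (1 + ε) := by
  obtain ⟨C, hC0, hC⟩ := Kf_next ε hε
  refine ⟨C + 1, fun j => ?_⟩
  unfold kc
  have h1 : (j + 1) / 3 = j / 3 ∨ (j + 1) / 3 = j / 3 + 1 := by omega
  have h2 := Kf_one_le (j / 3 + m₀)
  have h3 : Kf (j / 3 + m₀) ≤ Kf (j / 3 + m₀) ^ (1 + ε) := by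
    calc Kf (j / 3 + m₀) = Kf (j / 3 + m₀) ^ (1 : ℝ) := (Real.rpow_one _).symm
      _ ≤ _ := Real.rpow_le_rpow_of_exponent_le h2 (by linarith)
  have h4 : 0 < Kf (j / 3 + m₀) ^ (1 + ε) := Real.rpow_pos_of_pos (Kf_pos _) _
  rcases h1 with h | h
  · rw [h]
    have : 0 < C * Kf (j / 3 + m₀) ^ (1 + ε) := by positivity
    linarith
  · rw [h, show j / 3 + 1 + m₀ = j / 3 + m₀ + 1 by ring]
    have := hC (j / 3 + m₀)
    linarith

theorem kc_mono (m₀ : ℕ) (j : ℕ) : kc m₀ j ≤ kc m₀ (j + 1) := by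
  unfold kc
  apply Kf_mono
  omega

section

variable {θ : ℝ} {N : ℕ → ℝ} {φ : Fin 3 → ℕ → V → V} {ϖ : ℕ → V → ℝ}

theorem Modes.chain (h : Modes θ N φ ϖ) (m₀ : ℕ) : Chain (kc m₀) (cm φ m₀) where
  one_le := fun j => Kf_one_le _
  fast := kc_fast m₀
  next := kc_next m₀
  mono := kc_mono m₀
  sf := fun j => h.sf _ _
  bd := fun q => by
    obtain ⟨C, p, hC⟩ := h.bd q
    exact ⟨C, p, fun j l x => hC _ _ l x⟩
  ortho := fun i j => by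
    unfold cm
    rw [h.ortho]
    by_cases hij : i = j
    · subst hij
      rw [if_pos ⟨rfl, rfl⟩, if_pos rfl]
    · rw [if_neg hij, if_neg]
      rintro ⟨h1, h2⟩
      exact hij (kd_inj h1 (by omega))
  four := fun s => by
    obtain ⟨C, hC0, hC⟩ := h.four s
    exact ⟨C, hC0, fun j => hC _ _⟩

/-- The location of a point. -/
theorem Modes.loc_chain (h : Modes θ N φ ϖ) (m₀ : ℕ) (x : V) : ∃ s, (∀ j, j / 3 ≠ s → ∀ l i,
    cm φ m₀ j x l = 0 ∧ pd i (fun y => cm φ m₀ j y l) x = 0) ∧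
    ∀ s', s' ≠ s → ∀ i, pd i (ϖ (s' + m₀)) x = 0 := by
  obtain ⟨n, hn⟩ := h.loc x
  rcases le_or_gt m₀ n with hm | hm
  · refine ⟨n - m₀, fun j hj l i => ?_, fun s' hs' i => ?_⟩
    · have h1 := hn (j / 3 + m₀) (by omega) (kd j) l i
      exact ⟨h1.1, h1.2.1⟩
    · exact (hn (s' + m₀) (by omega) 0 0 i).2.2
  · refine ⟨0, fun j hj l i => ?_, fun s' hs' i => ?_⟩
    · have h1 := hn (j / 3 + m₀) (by omega) (kd j) l i
      exact ⟨h1.1, h1.2.1⟩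
    · exact (hn (s' + m₀) (by omega) 0 0 i).2.2

end

theorem tsum_three {F : ℕ → ℝ} {s : ℕ} (h : ∀ j, j / 3 ≠ s → F j = 0) :
    ∑' j, F j = F (3 * s) + F (3 * s + 1) + F (3 * s + 2) := by
  rw [tsum_eq_sum (s := {3 * s, 3 * s + 1, 3 * s + 2}) (fun j hj => h j (by
    simp only [Finset.mem_insert, Finset.mem_singleton, not_or] at hj
    omega))]
  rw [Finset.sum_insert (by simp), Finset.sum_insert (by simp), Finset.sum_singleton]
  ring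

end Pool.Agent.H306.DS
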