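import Pool.Agent.H306.DS.Geo5
import Pool.Agent.H306.DS.Modes

/-! Identities of the vortices. -/

noncomputable section

namespace Pool.Agent.H306.DS

open Set MeasureTheory Filter Topology

open scoped Real ContDiff ENNReal

open Pool.Agent.H306.CK

section

variable {W L c : ℝ}

/-- Transport of a scalar by a field. -/
def tr1 (v : V → V) (f : V → ℝ) (x : V) : ℝ := ∑ j, v x j * pd j f x

theorem skew {v : V → V} (hv : SF v) {f g : V → ℝ} (hf : SPf f) (hg : SPf g) :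
    ∫ x in torus, (tr1 v f x * g x + f x * tr1 v g x) = 0 := by
  have hvj := fun j => hv.sp.comp j
  have h1 := div_int (F := fun x j => v x j * (f x * g x))
    (contDiff_pi.2 fun j => (hvj j).c1.mul (hf.c1.mul hg.c1)) (fun i x => by
      ext j
      simp only
      rw [hv.2.1 i x, hf.2 i x, hg.2 i x])
  rw [← h1]
  congr 1
  ext x
  have h2 : ∀ j, pd j (fun y => v y j * (f y * g y)) x =
      v x j * (f x * pd j g x + g x * pd j f x) + (f x * g x) * pd j (fun y => v y j) x := by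
    intro j
    rw [pd_mul (hvj j).c1 (hf.c1.mul hg.c1), pd_mul hf.c1 hg.c1]
  simp only [h2]
  rw [Finset.sum_add_distrib, ← Finset.mul_sum, hv.2.2 x, mul_zero, add_zero]
  unfold tr1
  rw [Finset.sum_mul, Finset.mul_sum, ← Finset.sum_add_distrib]
  exact Finset.sum_congr rfl fun j _ => by ring

theorem tr_hY0 (h : Dp W c) (L : ℝ) (x : V) : tr1 (pX W L c) (hY W L c 0) x = -(W * hY W L c 1 x) := by
  unfold tr1
  rw [Fin.sum_univ_three]
  have e0 : pX W L c x 0 = -hX W L c 1 x := rfl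
  have e1 : pX W L c x 1 = hX W L c 0 x := rfl
  have e2 : pX W L c x 2 = 0 := rfl
  rw [e0, e1, e2, pd_hY h, pd_hY h, hX_apply, hX_apply, hY_apply]
  have h1 := FX_GY L (sg (sc W c x))
  have n1 : (1 : Fin 3) ≠ 0 := by decide
  have n2 : (0 : Fin 3) ≠ 2 := by decide
  simp only [n1, n2, xc0, xc1, if_false, if_true, false_and, true_and, ne_eq, not_false_eq_true]
  linear_combination (-(W * sc W c x 1)) * h1

theorem tr_hY1 (h : Dp W c) (L : ℝ) (x : V) : tr1 (pX W L c) (hY W L c 1) x = W * hY W L c 0 x := by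
  unfold tr1
  rw [Fin.sum_univ_three]
  have e0 : pX W L c x 0 = -hX W L c 1 x := rfl
  have e1 : pX W L c x 1 = hX W L c 0 x := rfl
  have e2 : pX W L c x 2 = 0 := rfl
  rw [e0, e1, e2, pd_hY h, pd_hY h, hX_apply, hX_apply, hY_apply]
  have h1 := FX_GY L (sg (sc W c x))
  have n1 : (0 : Fin 3) ≠ 1 := by decide
  have n2 : (1 : Fin 3) ≠ 2 := by decide
  simp only [n1, n2, xc0, xc1, if_false, if_true, false_and, true_and, ne_eq, not_false_eq_true]
  linear_combination (W * sc W c x 0) * h1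

theorem tr_hX0 (h : Dp W c) (L : ℝ) (x : V) : tr1 (pX W L c) (hX W L c 0) x =
    -(W * (xc 1 (sc W c x) * FX L (sg (sc W c x)) ^ 2)) := by
  unfold tr1
  rw [Fin.sum_univ_three]
  have e0 : pX W L c x 0 = -hX W L c 1 x := rfl
  have e1 : pX W L c x 1 = hX W L c 0 x := rfl
  have e2 : pX W L c x 2 = 0 := rfl
  rw [e0, e1, e2, pd_hX h, pd_hX h, hX_apply, hX_apply]
  have n1 : (1 : Fin 3) ≠ 0 := by decide
  have n2 : (0 : Fin 3) ≠ 2 := by decide
  simp only [n1, n2, xc0, xc1, if_false, if_true, false_and, true_and, ne_eq, not_false_eq_true]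
  ring

theorem tr_hX1 (h : Dp W c) (L : ℝ) (x : V) : tr1 (pX W L c) (hX W L c 1) x =
    W * (xc 0 (sc W c x) * FX L (sg (sc W c x)) ^ 2) := by
  unfold tr1
  rw [Fin.sum_univ_three]
  have e0 : pX W L c x 0 = -hX W L c 1 x := rfl
  have e1 : pX W L c x 1 = hX W L c 0 x := rfl
  have e2 : pX W L c x 2 = 0 := rfl
  rw [e0, e1, e2, pd_hX h, pd_hX h, hX_apply, hX_apply]
  have n1 : (0 : Fin 3) ≠ 1 := by decide
  have n2 : (1 : Fin 3) ≠ 2 := by decide
  simp only [n1, n2, xc0, xc1, if_false, if_true, false_and, true_and, ne_eq, not_false_eq_true]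
  ring

theorem pd_neg' {f : V → ℝ} (hf : ContDiff ℝ 1 f) (j : Fin 3) (x : V) :
    pd j (fun y => -f y) x = -pd j f x := by
  have := pd_sub (f := fun _ => 0) (g := f) contDiff_const hf j x
  simp only [zero_sub] at this
  rw [this]
  simp [CK.pd]

theorem pd_zero' (j : Fin 3) (x : V) : pd j (fun _ => (0 : ℝ)) x = 0 := by simp [CK.pd]

theorem adv_XX (h : Dp W c) (L : ℝ) (x : V) (l : Fin 3) : adv (pX W L c) (pX W L c) x l =
    -(W * (xc l (sc W c x) * FX L (sg (sc W c x)) ^ 2)) := by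
  have hl : l = 0 ∨ l = 1 ∨ l = 2 := by fin_cases l <;> simp
  rcases hl with rfl | rfl | rfl
  · have h1 : ∀ j, pd j (fun y => pX W L c y 0) x = -pd j (hX W L c 1) x := fun j =>
      pd_neg' (hX_spf h L 1).c1 j x
    unfold adv
    simp only [h1]
    have h2 := tr_hX1 h L x
    unfold tr1 at h2
    rw [Fin.sum_univ_three] at h2 ⊢
    linarith
  · exact tr_hX0 h L x
  · have h1 : ∀ j, pd j (fun y => pX W L c y 2) x = 0 := fun j => pd_zero' j x
    unfold adv
    simp only [h1, mul_zero, Finset.sum_const_zero, xc2, zero_mul, neg_zero]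

theorem adv_XY (W c L : ℝ) (j : Fin 3) (x : V) (l : Fin 3) :
    adv (pX W L c) (pY W L c j) x l = if l = 2 then tr1 (pX W L c) (hY W L c j) x else 0 := by
  have hl : l = 0 ∨ l = 1 ∨ l = 2 := by fin_cases l <;> simp
  rcases hl with rfl | rfl | rfl
  · have h1 : ∀ i, pd i (fun y => pY W L c j y 0) x = 0 := fun i => pd_zero' i x
    unfold adv
    simp [h1]
  · have h1 : ∀ i, pd i (fun y => pY W L c j y 1) x = 0 := fun i => pd_zero' i x
    unfold adv
    simp [h1]
  · rfl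

theorem pd2_dil (h : Dp W c) {g : V → ℝ} (hg : Sm1 g) (x : V) : pd 2 (dil W c g) x = 0 := by
  rw [pd_dil h hg, if_pos rfl]

/-- The pressure profile. -/
def Eh (L s : ℝ) : ℝ := -(1 / 2 * ∫ τ in s..2, FX L τ ^ 2)

def EL (L : ℝ) (X : V) : ℝ := Eh L (sg X)

theorem Eh_deriv (L s : ℝ) : HasDerivAt (Eh L) (1 / 2 * FX L s ^ 2) s := by
  have hc : Continuous fun τ => FX L τ ^ 2 := (FX_smooth L).continuous.pow 2
  have h1 := intervalIntegral.integral_hasDerivAt_left (hc.intervalIntegrable s 2)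
    (hc.stronglyMeasurableAtFilter _ _) hc.continuousAt
  have h2 := (h1.const_mul (1 / 2)).neg
  exact h2.congr_deriv (by ring)

theorem Eh_smooth (L : ℝ) : ContDiff ℝ ∞ (Eh L) := by
  rw [contDiff_infty_iff_deriv]
  refine ⟨fun s => (Eh_deriv L s).differentiableAt, ?_⟩
  have : deriv (Eh L) = fun s => 1 / 2 * FX L s ^ 2 := by ext s; exact (Eh_deriv L s).deriv
  rw [this]
  exact contDiff_const.mul ((FX_smooth L).pow 2)

theorem FX_zero (L : ℝ) {s : ℝ} (h : s < 1 / 4 ∨ 1 < s) : FX L s = 0 := by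
  unfold FX; rw [chi_zero h, zero_mul]

theorem EL_sm1 (L : ℝ) : Sm1 (EL L) := by
  refine ⟨(Eh_smooth L).comp sg_contDiff, fun X hX => ?_⟩
  unfold EL Eh
  have h1 : ∫ τ in (sg X)..2, FX L τ ^ 2 = ∫ τ in (sg X)..2, (0 : ℝ) := by
    refine intervalIntegral.integral_congr fun τ hτ => ?_
    have h2 : 1 < τ := by
      have h3 : min (sg X) 2 ≤ τ := hτ.1
      have h4 : 1 < min (sg X) 2 := lt_min hX (by norm_num)
      linarith
    rw [FX_zero L (Or.inr h2)]
    norm_num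
  rw [h1]
  simp

theorem pd_EL (L : ℝ) (i : Fin 3) (X : V) : pd i (EL L) X = xc i X * FX L (sg X) ^ 2 := by
  have h1 : pd i (EL L) X = pd i (fun X => Eh L (sg X)) X := rfl
  rw [h1, pd_rad (Eh_smooth L), (Eh_deriv L _).deriv]
  ring

theorem pd_dEL (h : Dp W c) (L : ℝ) (i : Fin 3) (x : V) : pd i (dil W c (EL L)) x =
    W * (xc i (sc W c x) * FX L (sg (sc W c x)) ^ 2) := by
  rw [pd_dil h (EL_sm1 L)]
  split_ifs with hi
  · subst hi
    rw [xc2]
    ring
  · rw [dil, pd_EL]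

theorem pd_dEL' (h : Dp W c) (L : ℝ) (i : Fin 3) : pd i (dil W c (EL L)) =
    fun x => W * ff W L c (fun X => xc i X * (chi (sg X) * chi (sg X)))
      (fun t => pp t * pp t) x := by
  ext x
  rw [pd_dEL h]
  unfold ff dil osc FX
  ring

theorem aP_ann (i : Fin 3) : Ann (fun X => xc i X * (chi (sg X) * chi (sg X))) :=
  ⟨(xc_contDiff i).mul ((chi_smooth.comp sg_contDiff).mul (chi_smooth.comp sg_contDiff)),
    fun X hX => by simp only; rw [chi_zero hX]; ring⟩

theorem EL_bdd : ∃ C : ℝ, 0 ≤ C ∧ ∀ L X, |EL L X| ≤ C := by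
  obtain ⟨C, hC0, hC⟩ := pp_pd.bdd
  refine ⟨C ^ 2, by positivity, fun L X => ?_⟩
  by_cases hX : 1 < sg X
  · rw [(EL_sm1 L).2 X hX, abs_zero]; positivity
  · push Not at hX
    have h0 : 0 ≤ sg X := by unfold sg; positivity
    unfold EL Eh
    have hb : ∀ τ ∈ Set.uIoc (sg X) 2, ‖FX L τ ^ 2‖ ≤ C ^ 2 := by
      intro τ _
      rw [Real.norm_eq_abs, abs_pow]
      apply pow_le_pow_left₀ (abs_nonneg _)
      unfold FX
      rw [abs_mul]
      have h1 : |chi τ| ≤ 1 := by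
        unfold chi
        rw [abs_mul, abs_of_nonneg (st_nonneg _), abs_of_nonneg (st_nonneg _)]
        exact mul_le_one₀ (Real.smoothTransition.le_one _) (st_nonneg _)
          (Real.smoothTransition.le_one _)
      calc |chi τ| * |pp (L * τ)| ≤ 1 * C := mul_le_mul h1 (hC _) (abs_nonneg _) zero_le_one
        _ = C := one_mul C
    have h1 := intervalIntegral.norm_integral_le_of_norm_le_const hb
    rw [abs_neg, abs_mul, abs_of_pos (by norm_num : (0 : ℝ) < 1 / 2), ← Real.norm_eq_abs]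
    have h2 : |2 - sg X| ≤ 2 := by rw [abs_le]; constructor <;> linarith
    calc 1 / 2 * ‖∫ τ in (sg X)..2, FX L τ ^ 2‖ ≤ 1 / 2 * (C ^ 2 * 2) := by
          gcongr
          exact h1.trans (by gcongr)
      _ = _ := by ring

/-- Orthogonality of the vertical velocities. -/
theorem YY (h : Dp W c) (L : ℝ) : ∫ x in torus, hY W L c 0 x * hY W L c 1 x = 0 := by
  have h1 := skew (pX_sf h L) (hY_spf h L 0) (hY_spf h L 0)
  have hW := h.pos.ne'
  have e1 : ∀ x, tr1 (pX W L c) (hY W L c 0) x * hY W L c 0 x +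
      hY W L c 0 x * tr1 (pX W L c) (hY W L c 0) x = (-(2 * W)) * (hY W L c 0 x * hY W L c 1 x) := by
    intro x
    rw [tr_hY0 h]
    ring
  simp only [e1] at h1
  rw [integral_const_mul] at h1
  have h2 : -(2 * W) ≠ 0 := by simp [hW]
  exact (mul_eq_zero.1 h1).resolve_left h2

theorem YZ (h : Dp W c) (L : ℝ) :
    ∫ x in torus, hY W L c 1 x ^ 2 = ∫ x in torus, hY W L c 0 x ^ 2 := by
  have h1 := skew (pX_sf h L) (hY_spf h L 0) (hY_spf h L 1)
  have hW := h.pos.ne'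
  have e1 : ∀ x, tr1 (pX W L c) (hY W L c 0) x * hY W L c 1 x +
      hY W L c 0 x * tr1 (pX W L c) (hY W L c 1) x =
        W * (hY W L c 0 x ^ 2 - hY W L c 1 x ^ 2) := by
    intro x
    rw [tr_hY0 h, tr_hY1 h]
    ring
  simp only [e1] at h1
  rw [integral_const_mul, integral_sub (f := fun x => hY W L c 0 x ^ 2)
    (g := fun x => hY W L c 1 x ^ 2) (cont_int ((hY_spf h L 0).cont.pow 2))
    (cont_int ((hY_spf h L 1).cont.pow 2))] at h1
  have h2 := (mul_eq_zero.1 h1).resolve_left hW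
  linarith

theorem inner_YY (W L c : ℝ) (i j : Fin 3) :
    inner3 (pY W L c i) (pY W L c j) = ∫ x in torus, hY W L c i x * hY W L c j x := by
  unfold inner3
  congr 1
  ext x
  rw [Fin.sum_univ_three]
  change 0 * 0 + 0 * 0 + hY W L c i x * hY W L c j x = _
  ring

theorem inner_XY (W L c : ℝ) (j : Fin 3) : inner3 (pX W L c) (pY W L c j) = 0 := by
  unfold inner3
  have : ∀ x, ∑ i, pX W L c x i * pY W L c j x i = 0 := by
    intro x
    rw [Fin.sum_univ_three]
    change -hX W L c 1 x * 0 + hX W L c 0 x * 0 + 0 * hY W L c j x = _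
    ring
  simp [this]

theorem inner_XX (W L c : ℝ) : inner3 (pX W L c) (pX W L c) =
    ∫ x in torus, (hX W L c 1 x ^ 2 + hX W L c 0 x ^ 2) := by
  unfold inner3
  congr 1
  ext x
  rw [Fin.sum_univ_three]
  change -hX W L c 1 x * -hX W L c 1 x + hX W L c 0 x * hX W L c 0 x + 0 * 0 = _
  ring

end

/-- Bounds of the norms. -/
theorem norm_bounds : ∃ L₀ c₀ C₀ : ℝ, 64 ≤ L₀ ∧ 0 < c₀ ∧ 0 < C₀ ∧ ∀ W L c, Fp W L c → L₀ ≤ L →
    c₀ / W ^ 2 ≤ inner3 (pX W L c) (pX W L c) ∧ inner3 (pX W L c) (pX W L c) ≤ C₀ / W ^ 2 ∧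
    c₀ / W ^ 2 ≤ inner3 (pY W L c 0) (pY W L c 0) ∧
    inner3 (pY W L c 0) (pY W L c 0) ≤ C₀ / W ^ 2 := by
  obtain ⟨L₁, c₁, hL₁, hc₁, h1⟩ := ff_low (aX_ann 0).sq (fun X => mul_self_nonneg _)
    (fun X h0 h1 h2 => by
      have b1 := abs_le.1 h1
      have b2 : X 1 ^ 2 ≤ 1 / 100 := by nlinarith
      have b3 : (18 / 25 : ℝ) ^ 2 ≤ X 0 ^ 2 := by nlinarith [h0.1]
      have b4 : X 0 ^ 2 ≤ (4 / 5 : ℝ) ^ 2 := by nlinarith [h0.1, h0.2]
      have b5 : chi (sg X) = 1 := chi_one (by unfold sg; nlinarith [sq_nonneg (X 1)])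
        (by unfold sg; nlinarith)
      unfold aX
      rw [b5, xc0]
      nlinarith) (pp_pd.mul pp_pd) pp_mean
  obtain ⟨L₂, c₂, hL₂, hc₂, h2⟩ := ff_low (aY_ann 0).sq (fun X => mul_self_nonneg _)
    (fun X h0 h1 h2 => by
      have b1 := abs_le.1 h1
      have b2 : X 1 ^ 2 ≤ 1 / 100 := by nlinarith
      have b3 : (18 / 25 : ℝ) ^ 2 ≤ X 0 ^ 2 := by nlinarith [h0.1]
      have b4 : X 0 ^ 2 ≤ (4 / 5 : ℝ) ^ 2 := by nlinarith [h0.1, h0.2]
      have b5 : chi2 (sg X) = 1 := chi2_one (by unfold sg; nlinarith [sq_nonneg (X 1)])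
        (by unfold sg; nlinarith)
      unfold aY
      rw [b5, xc0]
      nlinarith) (qq_pd.mul qq_pd) qq_mean
  obtain ⟨C₁, hC₁, u1⟩ := ff_int (aX_ann 0).sq (pp_pd.mul pp_pd)
  obtain ⟨C₂, hC₂, u2⟩ := ff_int (aX_ann 1).sq (pp_pd.mul pp_pd)
  obtain ⟨C₃, hC₃, u3⟩ := ff_int (aY_ann 0).sq (qq_pd.mul qq_pd)
  refine ⟨max 64 (max L₁ L₂), min c₁ c₂, C₁ + C₂ + C₃ + 1, le_max_left _ _, lt_min hc₁ hc₂,
    by positivity, fun W L c h hL => ?_⟩
  have hW := h.dp.pos
  have g1 := h1 W L c h (((le_max_left _ _).trans (le_max_right _ _)).trans hL)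
  have g2 := h2 W L c h (((le_max_right _ _).trans (le_max_right _ _)).trans hL)
  have v1 := (le_abs_self _).trans (u1 W L c h)
  have v2 := (le_abs_self _).trans (u2 W L c h)
  have v3 := (le_abs_self _).trans (u3 W L c h)
  have e1 : ∀ j x, hX W L c j x ^ 2 = ff W L c (fun X => aX j X * aX j X)
      (fun t => pp t * pp t) x := fun j x => by rw [hX_eq, ff_sq]
  have e2 : ∀ x, hY W L c 0 x * hY W L c 0 x = ff W L c (fun X => aY 0 X * aY 0 X)
      (fun t => qq t * qq t) x := fun x => by rw [← sq, hY_eq, ff_sq]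
  have i1 : ∀ j, IntegrableOn (fun x => ff W L c (fun X => aX j X * aX j X)
      (fun t => pp t * pp t) x) torus := fun j =>
    cont_int (ff_spf h (aX_ann j).sq (pp_pd.mul pp_pd)).cont
  have eX : inner3 (pX W L c) (pX W L c) =
      (∫ x in torus, ff W L c (fun X => aX 1 X * aX 1 X) (fun t => pp t * pp t) x) +
      ∫ x in torus, ff W L c (fun X => aX 0 X * aX 0 X) (fun t => pp t * pp t) x := by
    rw [inner_XX]
    simp only [e1]
    exact integral_add (i1 1) (i1 0)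
  have eY : inner3 (pY W L c 0) (pY W L c 0) =
      ∫ x in torus, ff W L c (fun X => aY 0 X * aY 0 X) (fun t => qq t * qq t) x := by
    rw [inner_YY]
    simp only [e2]
  have p1 : 0 ≤ ∫ x in torus, ff W L c (fun X => aX 1 X * aX 1 X) (fun t => pp t * pp t) x := by
    refine integral_nonneg fun x => ?_
    simp only
    rw [← e1]
    positivity
  rw [eX, eY]
  have k1 : min c₁ c₂ / W ^ 2 ≤ c₁ / W ^ 2 := by gcongr; exact min_le_left _ _
  have k2 : min c₁ c₂ / W ^ 2 ≤ c₂ / W ^ 2 := by gcongr; exact min_le_right _ _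
  have k3 : C₁ / W ^ 2 + C₂ / W ^ 2 ≤ (C₁ + C₂ + C₃ + 1) / W ^ 2 := by
    rw [← add_div]; exact div_le_div_of_nonneg_right (by linarith) (by positivity)
  have k4 : C₃ / W ^ 2 ≤ (C₁ + C₂ + C₃ + 1) / W ^ 2 :=
    div_le_div_of_nonneg_right (by linarith) (by positivity)
  refine ⟨by linarith, by linarith, by linarith, by linarith⟩

end Pool.Agent.H306.DS
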