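import Pool.Agent.H306.DS.Geo6

/-! The modes. -/

noncomputable section

namespace Pool.Agent.H306.DS

open Set MeasureTheory Filter Topology

open scoped Real ContDiff ENNReal

open Pool.Agent.H306.CK

theorem pd_const' (b : ℝ) (j : Fin 3) (x : V) : pd j (fun _ => b) x = 0 := by
  simp [CK.pd]

/-- The vortex (`i = 2`) and the vertical velocities. -/
def md (W L c : ℝ) (i : Fin 3) : V → V := if i = 2 then pX W L c else pY W L c i

/-- The normalization. -/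
def nb (W L c : ℝ) (i : Fin 3) : ℝ :=
  if i = 2 then (Real.sqrt (inner3 (pX W L c) (pX W L c)))⁻¹ else
    (Real.sqrt (inner3 (pY W L c 0) (pY W L c 0)))⁻¹

/-- The normalized modes. -/
def nm (W L c : ℝ) (i : Fin 3) (x : V) : V := fun l => nb W L c i * md W L c i x l

/-- Admissible parameters with constants. -/
structure Ad (L₀ c₀ C₀ W L c : ℝ) : Prop where
  fp : Fp W L c
  c0 : 0 < c₀
  C0 : 0 < C₀
  L64 : 64 ≤ L
  x1 : c₀ / W ^ 2 ≤ inner3 (pX W L c) (pX W L c)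
  x2 : inner3 (pX W L c) (pX W L c) ≤ C₀ / W ^ 2
  y1 : c₀ / W ^ 2 ≤ inner3 (pY W L c 0) (pY W L c 0)
  y2 : inner3 (pY W L c 0) (pY W L c 0) ≤ C₀ / W ^ 2

section

variable {L₀ c₀ C₀ W L c : ℝ}

theorem Ad.W0 (h : Ad L₀ c₀ C₀ W L c) : 0 < W := h.fp.dp.pos

theorem Ad.nb_pos (h : Ad L₀ c₀ C₀ W L c) (i : Fin 3) : 0 < nb W L c i := by
  have hW := h.W0
  have hc := h.c0
  have h1 := h.x1
  have h2 := h.y1
  have : 0 < c₀ / W ^ 2 := by positivity
  unfold nb
  split_ifs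
  · exact inv_pos.2 (Real.sqrt_pos.2 (by linarith))
  · exact inv_pos.2 (Real.sqrt_pos.2 (by linarith))

theorem Ad.nb_sq (h : Ad L₀ c₀ C₀ W L c) (i : Fin 3) :
    W ^ 2 / C₀ ≤ nb W L c i ^ 2 ∧ nb W L c i ^ 2 ≤ W ^ 2 / c₀ := by
  have hW := h.W0
  have hc := h.c0
  have hC := h.C0
  have key : ∀ I : ℝ, c₀ / W ^ 2 ≤ I → I ≤ C₀ / W ^ 2 →
      W ^ 2 / C₀ ≤ (Real.sqrt I)⁻¹ ^ 2 ∧ (Real.sqrt I)⁻¹ ^ 2 ≤ W ^ 2 / c₀ := by
    intro I h1 h2
    have h0 : 0 < c₀ / W ^ 2 := by positivity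
    have hI : 0 < I := by linarith
    rw [inv_pow, Real.sq_sqrt hI.le]
    constructor
    · rw [div_le_iff₀ hC, inv_mul_eq_div, le_div_iff₀ hI]
      rw [le_div_iff₀ (by positivity)] at h2
      linarith
    · rw [inv_eq_one_div, div_le_div_iff₀ hI hc]
      rw [div_le_iff₀ (by positivity)] at h1
      linarith
  unfold nb
  split_ifs
  · exact key _ h.x1 h.x2
  · exact key _ h.y1 h.y2

theorem Ad.nb_self (h : Ad L₀ c₀ C₀ W L c) (i : Fin 3) :
    nb W L c i ^ 2 * inner3 (md W L c i) (md W L c i) = 1 := by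
  have hW := h.W0
  have hc := h.c0
  have h1 := h.x1
  have h2 := h.y1
  have h0 : 0 < c₀ / W ^ 2 := by positivity
  have hi : i = 0 ∨ i = 1 ∨ i = 2 := by fin_cases i <;> simp
  have e1 : inner3 (pY W L c 1) (pY W L c 1) = inner3 (pY W L c 0) (pY W L c 0) := by
    rw [inner_YY, inner_YY]
    have := YZ h.fp.dp L
    simp only [sq] at this
    exact this
  have n1 : (0 : Fin 3) ≠ 2 := by decide
  have n2 : (1 : Fin 3) ≠ 2 := by decide
  rcases hi with rfl | rfl | rfl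
  · unfold nb md
    rw [if_neg n1, if_neg n1, inv_pow, Real.sq_sqrt (by linarith)]
    exact inv_mul_cancel₀ (by linarith)
  · unfold nb md
    rw [if_neg n2, if_neg n2, e1, inv_pow, Real.sq_sqrt (by linarith)]
    exact inv_mul_cancel₀ (by linarith)
  · unfold nb md
    rw [if_pos rfl, if_pos rfl, inv_pow, Real.sq_sqrt (by linarith)]
    exact inv_mul_cancel₀ (by linarith)

theorem inner_scale (a b : ℝ) (v w : V → V) :
    inner3 (fun x l => a * v x l) (fun x l => b * w x l) = a * b * inner3 v w := by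
  unfold inner3
  rw [← integral_const_mul]
  congr 1
  ext x
  rw [Finset.mul_sum]
  exact Finset.sum_congr rfl fun i _ => by ring

theorem md_orth (h : Ad L₀ c₀ C₀ W L c) {i j : Fin 3} (hij : i ≠ j) :
    inner3 (md W L c i) (md W L c j) = 0 := by
  have hi : i = 0 ∨ i = 1 ∨ i = 2 := by fin_cases i <;> simp
  have hj : j = 0 ∨ j = 1 ∨ j = 2 := by fin_cases j <;> simp
  have n1 : (0 : Fin 3) ≠ 2 := by decide
  have n2 : (1 : Fin 3) ≠ 2 := by decide
  have y := YY h.fp.dp L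
  have y' : ∫ x in torus, hY W L c 1 x * hY W L c 0 x = 0 := by
    simp only [mul_comm (hY W L c 1 _)]
    exact y
  unfold md
  rcases hi with rfl | rfl | rfl <;> rcases hj with rfl | rfl | rfl
  · exact absurd rfl hij
  · rw [if_neg n1, if_neg n2, inner_YY]; exact y
  · rw [if_neg n1, if_pos rfl, inner_comm, inner_XY]
  · rw [if_neg n1, if_neg n2, inner_YY]; exact y'
  · exact absurd rfl hij
  · rw [if_neg n2, if_pos rfl, inner_comm, inner_XY]
  · rw [if_neg n1, if_pos rfl, inner_XY]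
  · rw [if_neg n2, if_pos rfl, inner_XY]
  · exact absurd rfl hij

theorem nm_ortho (h : Ad L₀ c₀ C₀ W L c) (i j : Fin 3) :
    inner3 (nm W L c i) (nm W L c j) = if i = j then 1 else 0 := by
  have h1 : inner3 (nm W L c i) (nm W L c j) =
      nb W L c i * nb W L c j * inner3 (md W L c i) (md W L c j) := inner_scale _ _ _ _
  rw [h1]
  split_ifs with hij
  · subst hij
    rw [← sq]
    exact h.nb_self i
  · rw [md_orth h hij, mul_zero]

theorem md_sf (h : Dp W c) (L : ℝ) (i : Fin 3) : SF (md W L c i) := by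
  unfold md
  split_ifs
  · exact pX_sf h L
  · exact pY_sf h L i

theorem smul_sf {v : V → V} (hv : SF v) (b : ℝ) : SF (fun x l => b * v x l) := by
  refine ⟨contDiff_pi.2 fun i => contDiff_const.mul (hv.sp.comp i).1, fun j x => ?_, fun x => ?_⟩
  · ext i
    simp only
    rw [hv.2.1 j x]
  · have h1 : ∀ i, pd i (fun y => b * v y i) x = b * pd i (fun y => v y i) x := by
      intro i
      have h2 := pd_mul (f := fun _ => b) (g := fun y => v y i) contDiff_const (hv.sp.comp i).c1 i x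
      rw [h2, pd_const']
      ring
    simp only [h1]
    rw [← Finset.mul_sum, hv.2.2 x, mul_zero]

theorem nm_sf (h : Dp W c) (L : ℝ) (i : Fin 3) : SF (nm W L c i) := smul_sf (md_sf h L i) _

/-- The components of the modes. -/
theorem md_comp (W L c : ℝ) (i l : Fin 3) : (fun x => md W L c i x l) = (fun _ => 0) ∨
    (∃ j, (fun x => md W L c i x l) = ff W L c (aX j) pp) ∨
    (∃ j, (fun x => md W L c i x l) = fun x => (-1) * ff W L c (aX j) pp x) ∨
    (∃ j, (fun x => md W L c i x l) = ff W L c (aY j) qq) := by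
  have hl : l = 0 ∨ l = 1 ∨ l = 2 := by fin_cases l <;> simp
  unfold md
  split_ifs
  · rcases hl with rfl | rfl | rfl
    · right; right; left
      refine ⟨1, ?_⟩
      ext x
      rw [← hX_eq]
      change -hX W L c 1 x = _
      ring
    · right; left
      refine ⟨0, ?_⟩
      rw [← hX_eq]
      rfl
    · left; rfl
  · rcases hl with rfl | rfl | rfl
    · left; rfl
    · left; rfl
    · right; right; right
      refine ⟨i, ?_⟩
      rw [← hY_eq]
      rfl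

theorem md_iter (q : ℕ) : ∃ C : ℝ, 0 ≤ C ∧ ∀ W L c, Fp W L c → ∀ i l x,
    ‖iteratedFDeriv ℝ q (fun x => md W L c i x l) x‖ ≤ C * (W * L) ^ q := by
  choose C₁ hC₁0 hC₁ using fun j => ff_iter q (aX j) pp (aX_ann j) pp_pd
  choose C₂ hC₂0 hC₂ using fun j => ff_iter q (aY j) qq (aY_ann j) qq_pd
  have k1 : ∀ j, C₁ j ≤ ∑ j, (C₁ j + C₂ j) := fun j =>
    (by linarith [hC₂0 j] : C₁ j ≤ C₁ j + C₂ j).trans
      (Finset.single_le_sum (f := fun j => C₁ j + C₂ j)
        (fun j _ => add_nonneg (hC₁0 j) (hC₂0 j)) (Finset.mem_univ j))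
  have k2 : ∀ j, C₂ j ≤ ∑ j, (C₁ j + C₂ j) := fun j =>
    (by linarith [hC₁0 j] : C₂ j ≤ C₁ j + C₂ j).trans
      (Finset.single_le_sum (f := fun j => C₁ j + C₂ j)
        (fun j _ => add_nonneg (hC₁0 j) (hC₂0 j)) (Finset.mem_univ j))
  have k0 : 0 ≤ ∑ j, (C₁ j + C₂ j) := Finset.sum_nonneg fun j _ => add_nonneg (hC₁0 j) (hC₂0 j)
  refine ⟨_, k0, fun W L c h i l x => ?_⟩
  have hW := h.W1
  have hL := h.L1
  have hWL : 0 < W * L := by positivity
  rcases md_comp W L c i l with e | ⟨j, e⟩ | ⟨j, e⟩ | ⟨j, e⟩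
  · rw [e, iteratedFDeriv_fun_zero]
    simp only [Pi.zero_apply, norm_zero]
    positivity
  · rw [e]
    exact (hC₁ j W L c h x).trans (by gcongr; exact k1 j)
  · rw [e]
    have e2 : (fun x => (-1) * ff W L c (aX j) pp x) = (-1 : ℝ) • ff W L c (aX j) pp := by
      ext x; simp
    have s := (ff_spf h (aX_ann j) pp_pd).1
    rw [e2, iteratedFDeriv_const_smul_apply (s.of_le (nat_le_inf q)).contDiffAt, norm_smul]
    rw [norm_neg, norm_one, one_mul]
    exact (hC₁ j W L c h x).trans (by gcongr; exact k1 j)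
  · rw [e]
    exact (hC₂ j W L c h x).trans (by gcongr; exact k2 j)

theorem md_hsc (q₀ : ℕ) (s : ℝ) : ∃ C : ℝ, 0 ≤ C ∧ ∀ W L c, Fp W L c → W * L ≤ L ^ q₀ → ∀ i l,
    hsc s (fun x => md W L c i x l) ≤ ENNReal.ofReal (C * (W * L) ^ (2 * s) / W ^ 2) := by
  choose C₁ hC₁0 hC₁ using fun j => ff_order q₀ (aX_ann j) pp_mz s
  choose C₂ hC₂0 hC₂ using fun j => ff_order q₀ (aY_ann j) qq_mz s
  have k1 : ∀ j, C₁ j ≤ ∑ j, (C₁ j + C₂ j) := fun j =>
    (by linarith [hC₂0 j] : C₁ j ≤ C₁ j + C₂ j).trans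
      (Finset.single_le_sum (f := fun j => C₁ j + C₂ j)
        (fun j _ => add_nonneg (hC₁0 j) (hC₂0 j)) (Finset.mem_univ j))
  have k2 : ∀ j, C₂ j ≤ ∑ j, (C₁ j + C₂ j) := fun j =>
    (by linarith [hC₁0 j] : C₂ j ≤ C₁ j + C₂ j).trans
      (Finset.single_le_sum (f := fun j => C₁ j + C₂ j)
        (fun j _ => add_nonneg (hC₁0 j) (hC₂0 j)) (Finset.mem_univ j))
  have k0 : 0 ≤ ∑ j, (C₁ j + C₂ j) := Finset.sum_nonneg fun j _ => add_nonneg (hC₁0 j) (hC₂0 j)
  refine ⟨_, k0, fun W L c h hq i l => ?_⟩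
  have hW := h.W1
  have hL := h.L1
  have hWL : 0 < W * L := by positivity
  have hP := Real.rpow_pos_of_pos hWL (2 * s)
  rcases md_comp W L c i l with e | ⟨j, e⟩ | ⟨j, e⟩ | ⟨j, e⟩
  · rw [e, hsc_zero_fun]
    exact zero_le
  · rw [e]
    exact (hC₁ j W L c h hq).trans (ENNReal.ofReal_le_ofReal (by gcongr; exact k1 j))
  · rw [e, hsc_smul]
    norm_num
    exact (hC₁ j W L c h hq).trans (ENNReal.ofReal_le_ofReal (by gcongr; exact k1 j))
  · rw [e]
    exact (hC₂ j W L c h hq).trans (ENNReal.ofReal_le_ofReal (by gcongr; exact k2 j))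

end

/-- A constant. -/
def Bc (θ : ℝ) : ℝ := 2 ^ (1 / (4 * θ))

/-- The scales. -/
def Wn (θ : ℝ) (n : ℕ) : ℝ := Bc θ * Kf n ^ θ

def Ln (L₀ θ : ℝ) (n : ℕ) : ℝ := L₀ * Kf n ^ (1 - θ)

def cn (n : ℕ) : ℝ := (1 / 2) ^ n

section

variable {L₀ c₀ C₀ θ : ℝ}

theorem Bc_one (hθ : 0 < θ) : 1 ≤ Bc θ := Real.one_le_rpow (by norm_num) (by positivity)

theorem Wn_one (hθ : 0 < θ) (n : ℕ) : 1 ≤ Wn θ n := by
  have h1 := Bc_one hθ
  have h2 : 1 ≤ Kf n ^ θ := Real.one_le_rpow (Kf_one_le n) hθ.le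
  unfold Wn
  nlinarith

theorem Wn_big (hθ : 0 < θ) (n : ℕ) : 1 / Wn θ n ≤ 1 / 16 * (1 / 2) ^ n := by
  have h1 : (2 : ℝ) ^ (n + 4) ≤ Wn θ n := by
    unfold Wn Bc
    rw [Kf_rpow, ← Real.rpow_natCast, ← Real.rpow_add (by norm_num)]
    apply Real.rpow_le_rpow_of_exponent_le (by norm_num)
    have h0 : (0 : ℝ) ≤ n := Nat.cast_nonneg _
    push_cast
    set X : ℝ := (n : ℝ) + 4
    have h3 : 0 ≤ (2 * θ * X - 1) ^ 2 / (4 * θ) := by positivity
    have h4 : (2 * θ * X - 1) ^ 2 / (4 * θ) = θ * X ^ 2 - X + 1 / (4 * θ) := by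
      field_simp
      ring
    linarith
  have h2 : (1 : ℝ) / 16 * (1 / 2) ^ n = 1 / 2 ^ (n + 4) := by
    rw [one_div_pow, pow_add]; norm_num
  rw [h2]
  exact one_div_le_one_div_of_le (by positivity) h1

theorem dp_n (hθ : 0 < θ) (n : ℕ) : Dp (Wn θ n) (cn n) where
  W1 := Wn_one hθ n
  c1 := by
    unfold cn
    rw [abs_of_pos (by positivity)]
    exact pow_le_one₀ (by norm_num) (by norm_num)

theorem Ln_ge (hL : 64 ≤ L₀) (hθ1 : θ ≤ 1) (n : ℕ) : L₀ ≤ Ln L₀ θ n := by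
  unfold Ln
  have : 1 ≤ Kf n ^ (1 - θ) := Real.one_le_rpow (Kf_one_le n) (by linarith)
  nlinarith

theorem fp_n (hL : 64 ≤ L₀) (hθ : 0 < θ) (hθ1 : θ ≤ 1) (n : ℕ) :
    Fp (Wn θ n) (Ln L₀ θ n) (cn n) where
  dp := dp_n hθ n
  L1 := by have := Ln_ge hL hθ1 n; linarith

theorem WL_n (n : ℕ) : Wn θ n * Ln L₀ θ n = Bc θ * L₀ * Kf n := by
  unfold Wn Ln
  have h1 : Kf n ^ θ * Kf n ^ (1 - θ) = Kf n := by
    rw [← Real.rpow_add (Kf_pos n)]
    have : θ + (1 - θ) = 1 := by ring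
    rw [this, Real.rpow_one]
  calc Bc θ * Kf n ^ θ * (L₀ * Kf n ^ (1 - θ)) = Bc θ * L₀ * (Kf n ^ θ * Kf n ^ (1 - θ)) := by ring
    _ = _ := by rw [h1]

theorem q_n (hL : 64 ≤ L₀) (hθ : 0 < θ) (hθ1 : θ < 1) :
    ∃ q₀ : ℕ, ∀ n, Wn θ n * Ln L₀ θ n ≤ Ln L₀ θ n ^ q₀ := by
  obtain ⟨q, hq⟩ := exists_nat_ge (1 / (1 - θ))
  obtain ⟨p, hp⟩ := exists_nat_ge (1 / (4 * θ))
  refine ⟨p + 1 + q, fun n => ?_⟩
  rw [WL_n]
  unfold Ln
  have h1 : Bc θ * L₀ ≤ L₀ ^ (p + 1) := by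
    have h2 : Bc θ ≤ L₀ ^ p := by
      unfold Bc
      calc (2 : ℝ) ^ (1 / (4 * θ)) ≤ 2 ^ (p : ℝ) :=
            Real.rpow_le_rpow_of_exponent_le (by norm_num) hp
        _ = 2 ^ p := Real.rpow_natCast _ _
        _ ≤ L₀ ^ p := pow_le_pow_left₀ (by norm_num) (by linarith) p
    rw [pow_succ]
    gcongr
  have h4 : 1 ≤ Kf n ^ (1 - θ) := Real.one_le_rpow (Kf_one_le n) (by linarith)
  have h2 : Kf n ≤ (L₀ * Kf n ^ (1 - θ)) ^ q := by
    calc Kf n = Kf n ^ (1 : ℝ) := (Real.rpow_one _).symm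
      _ ≤ (Kf n ^ (1 - θ)) ^ q := by
        rw [← Real.rpow_natCast, ← Real.rpow_mul (Kf_pos n).le]
        apply Real.rpow_le_rpow_of_exponent_le (Kf_one_le n)
        have h3 : 0 < 1 - θ := by linarith
        rw [div_le_iff₀ h3] at hq
        linarith
      _ ≤ _ := by
        apply pow_le_pow_left₀ (by linarith)
        nlinarith
  have h5 : L₀ ^ (p + 1) ≤ (L₀ * Kf n ^ (1 - θ)) ^ (p + 1) := by
    apply pow_le_pow_left₀ (by linarith)
    nlinarith
  have h3 := Kf_pos n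
  have h6 := Bc_one hθ
  rw [pow_add]
  calc Bc θ * L₀ * Kf n ≤ (L₀ * Kf n ^ (1 - θ)) ^ (p + 1) * (L₀ * Kf n ^ (1 - θ)) ^ q := by
        apply mul_le_mul (h1.trans h5) h2 h3.le (by positivity)

/-- The discs are disjoint. -/
theorem disj (hθ : 0 < θ) {n n' : ℕ} (hn : n < n') {t : ℝ} (h1 : |t - cn n| ≤ 1 / Wn θ n)
    (h2 : |t - cn n'| ≤ 1 / Wn θ n') : False := by
  have h3 := Wn_big hθ n
  have h4 := Wn_big hθ n'
  have h5 : cn n' ≤ 1 / 2 * cn n := by
    unfold cn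
    calc (1 / 2 : ℝ) ^ n' ≤ (1 / 2) ^ (n + 1) :=
          pow_le_pow_of_le_one (by norm_num) (by norm_num) (by omega)
      _ = _ := by rw [pow_succ]; ring
  have h6 : (0 : ℝ) < (1 / 2) ^ n := by positivity
  have h7 : (1 / 2 : ℝ) ^ n' ≤ (1 / 2) ^ n :=
    pow_le_pow_of_le_one (by norm_num) (by norm_num) hn.le
  have h8 : cn n = (1 / 2) ^ n := rfl
  have b1 := abs_le.1 (h1.trans h3)
  have b2 := abs_le.1 (h2.trans h4)
  rw [h8] at h5 b1
  linarith [b1.1, b1.2, b2.1, b2.2]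

/-- The index of a point. -/
theorem loc_n (hθ : 0 < θ) (x : V) : ∃ n, ∀ n', n' ≠ n → ∀ g, Sm1 g →
    dil (Wn θ n') (cn n') g x = 0 := by
  by_cases h : ∃ n, ∃ g, Sm1 g ∧ dil (Wn θ n) (cn n) g x ≠ 0
  · obtain ⟨n, g, hg, hne⟩ := h
    refine ⟨n, fun n' hn' g' hg' => ?_⟩
    by_contra hcon
    have h1 := (dil_ne (dp_n hθ n) hg hne).1
    have h2 := (dil_ne (dp_n hθ n') hg' hcon).1
    rcases lt_or_gt_of_ne hn' with h | h
    · exact disj hθ h h2 h1
    · exact disj hθ h h1 h2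
  · push Not at h
    exact ⟨0, fun n' _ g hg => h n' g hg⟩

/-- The modes of the construction. -/
def phi (L₀ θ : ℝ) (i : Fin 3) (n : ℕ) : V → V := nm (Wn θ n) (Ln L₀ θ n) (cn n) i

/-- The angular velocities. -/
def Nn (L₀ θ : ℝ) (n : ℕ) : ℝ := nb (Wn θ n) (Ln L₀ θ n) (cn n) 2 * Wn θ n

/-- The pressures. -/
def vp (L₀ θ : ℝ) (n : ℕ) (x : V) : ℝ :=
  nb (Wn θ n) (Ln L₀ θ n) (cn n) 2 ^ 2 * dil (Wn θ n) (cn n) (EL (Ln L₀ θ n)) x

theorem md_dil (W L c : ℝ) (i l : Fin 3) : ∃ g, Sm1 g ∧ (fun x => md W L c i x l) = dil W c g := by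
  rcases md_comp W L c i l with e | ⟨j, e⟩ | ⟨j, e⟩ | ⟨j, e⟩
  · exact ⟨fun _ => 0, ⟨contDiff_const, fun _ _ => rfl⟩, e⟩
  · exact ⟨_, (osc_ann (aX_ann j) pp_smooth L).sm1, e⟩
  · refine ⟨fun X => (-1) * osc L (aX j) pp X, ⟨contDiff_const.mul
      (osc_contDiff (aX_ann j).1 pp_smooth L), fun X hX => ?_⟩, e⟩
    simp only
    rw [(osc_ann (aX_ann j) pp_smooth L).sm1.2 X hX, mul_zero]
  · exact ⟨_, (osc_ann (aY_ann j) qq_smooth L).sm1, e⟩

theorem exists_modes {θ : ℝ} (hθ : 0 < θ) (hθ1 : θ < 1) :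
    ∃ (N : ℕ → ℝ) (φ : Fin 3 → ℕ → V → V) (ϖ : ℕ → V → ℝ), Modes θ N φ ϖ := by
  obtain ⟨L₀, c₀, C₀, hL, hc, hC, hb⟩ := norm_bounds
  have had : ∀ n, Ad L₀ c₀ C₀ (Wn θ n) (Ln L₀ θ n) (cn n) := fun n => by
    have h1 := Ln_ge hL hθ1.le n
    obtain ⟨b1, b2, b3, b4⟩ := hb _ _ _ (fp_n hL hθ hθ1.le n) h1
    exact ⟨fp_n hL hθ hθ1.le n, hc, hC, by linarith, b1, b2, b3, b4⟩
  have hdp : ∀ n, Dp (Wn θ n) (cn n) := dp_n hθ
  have hW1 : ∀ n, 1 ≤ Wn θ n := Wn_one hθ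
  set B := Bc θ with hB
  have hB1 : 1 ≤ B := Bc_one hθ
  have hWK : ∀ n, Wn θ n ≤ B * Kf n := fun n => by
    unfold Wn
    have h1 : Kf n ^ θ ≤ Kf n := by
      calc Kf n ^ θ ≤ Kf n ^ (1 : ℝ) := Real.rpow_le_rpow_of_exponent_le (Kf_one_le n) hθ1.le
        _ = _ := Real.rpow_one _
    gcongr
  set K₀ := B ^ 2 / c₀ with hK₀
  have hK₀0 : 0 < K₀ := by positivity
  have hnb : ∀ n i, 0 < nb (Wn θ n) (Ln L₀ θ n) (cn n) i := fun n i => (had n).nb_pos i
  have hnb2 : ∀ n i, nb (Wn θ n) (Ln L₀ θ n) (cn n) i ^ 2 ≤ K₀ * Kf n ^ 2 := fun n i => by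
    refine ((had n).nb_sq i).2.trans ?_
    have h1 : Wn θ n ^ 2 ≤ (B * Kf n) ^ 2 := pow_le_pow_left₀ (by linarith [hW1 n]) (hWK n) 2
    rw [hK₀, div_mul_eq_mul_div, ← mul_pow]
    gcongr
  have hnb1 : ∀ n i, nb (Wn θ n) (Ln L₀ θ n) (cn n) i ≤ (K₀ + 1) * Kf n ^ 2 := fun n i => by
    have h1 := hnb2 n i
    have h2 := hnb n i
    have h3 : 1 ≤ Kf n ^ 2 := one_le_pow₀ (Kf_one_le n)
    set b := nb (Wn θ n) (Ln L₀ θ n) (cn n) i
    have h4 : b ≤ b ^ 2 + 1 := by nlinarith [sq_nonneg (b - 1)]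
    linarith
  have hphi : ∀ i n l, (fun y => phi L₀ θ i n y l) =
      nb (Wn θ n) (Ln L₀ θ n) (cn n) i • (fun y => md (Wn θ n) (Ln L₀ θ n) (cn n) i y l) :=
    fun i n l => by ext y; rfl
  refine ⟨Nn L₀ θ, phi L₀ θ, vp L₀ θ, ⟨fun i n => nm_sf (hdp n) _ i, fun q => ?_, fun n => ?_,
    fun q => ?_, fun i n i' n' => ?_, fun s => ?_, fun x => ?_, ?_, fun n x l => ?_,
    fun n x l => ?_, fun n x l => ?_, ?_, ?_, ?_, fun i n l x => ?_⟩⟩
  · -- bounds of the modes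
    obtain ⟨C, hC0, hCb⟩ := md_iter q
    refine ⟨(K₀ + 1) * C * (B * L₀) ^ q, q + 2, fun i n l x => ?_⟩
    have h1 := hCb _ _ _ (had n).fp i l x
    rw [WL_n] at h1
    have hs : ContDiff ℝ q (fun y => md (Wn θ n) (Ln L₀ θ n) (cn n) i y l) :=
      ((md_sf (hdp n) _ i).sp.comp l).1.of_le (nat_le_inf q)
    rw [hphi, iteratedFDeriv_const_smul_apply hs.contDiffAt, norm_smul, Real.norm_eq_abs,
      abs_of_pos (hnb n i)]
    have hK := Kf_pos n
    calc nb (Wn θ n) (Ln L₀ θ n) (cn n) i * _ ≤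
          ((K₀ + 1) * Kf n ^ 2) * (C * (B * L₀ * Kf n) ^ q) := by
          gcongr
          exact hnb1 n i
      _ = _ := by rw [mul_pow, pow_add]; ring
  · -- smoothness of the pressures
    have h1 := dil_spf (hdp n) (EL_sm1 (Ln L₀ θ n))
    exact ⟨contDiff_const.mul h1.1, fun i x => by unfold vp; rw [h1.2 i x]⟩
  · -- bounds of the pressures
    have hs : ∀ n, ContDiff ℝ ∞ (dil (Wn θ n) (cn n) (EL (Ln L₀ θ n))) := fun n =>
      dil_contDiff (hdp n) (EL_sm1 _)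
    have hvp : ∀ n, vp L₀ θ n = nb (Wn θ n) (Ln L₀ θ n) (cn n) 2 ^ 2 •
        dil (Wn θ n) (cn n) (EL (Ln L₀ θ n)) := fun n => by ext y; rfl
    cases q with
    | zero =>
      obtain ⟨C, hC0, hCb⟩ := EL_bdd
      refine ⟨K₀ * C, 2, fun n x => ?_⟩
      rw [norm_iteratedFDeriv_zero, Real.norm_eq_abs]
      unfold vp
      rw [abs_mul, abs_of_nonneg (sq_nonneg _)]
      have hK := Kf_pos n
      calc _ ≤ (K₀ * Kf n ^ 2) * C := by
            gcongr
            · exact hnb2 n 2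
            · exact hCb _ _
        _ = _ := by ring
    | succ q =>
      choose C hC0 hCb using fun i => ff_iter q (fun X => xc i X * (chi (sg X) * chi (sg X)))
        (fun t => pp t * pp t) (aP_ann i) (pp_pd.mul pp_pd)
      refine ⟨K₀ * (B * (∑ i, C i) * (B * L₀) ^ q), q + 3, fun n x => ?_⟩
      have hK := Kf_pos n
      have hL0 : 0 < L₀ := by linarith
      rw [hvp, iteratedFDeriv_const_smul_apply ((hs n).of_le (nat_le_inf _)).contDiffAt, norm_smul,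
        Real.norm_eq_abs, abs_of_nonneg (sq_nonneg _)]
      have h1 := iter_pd (hs n) q x
      have h2 : ∀ i, ‖iteratedFDeriv ℝ q (pd i (dil (Wn θ n) (cn n) (EL (Ln L₀ θ n)))) x‖ ≤
          (B * Kf n) * (C i * (B * L₀ * Kf n) ^ q) := by
        intro i
        have s := (ff_spf (had n).fp (aP_ann i) (pp_pd.mul pp_pd)).1
        have e1 : pd i (dil (Wn θ n) (cn n) (EL (Ln L₀ θ n))) = Wn θ n • ff (Wn θ n) (Ln L₀ θ n)
            (cn n) (fun X => xc i X * (chi (sg X) * chi (sg X))) (fun t => pp t * pp t) := by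
          rw [pd_dEL' (hdp n)]
          ext y
          rfl
        rw [e1, iteratedFDeriv_const_smul_apply (s.of_le (nat_le_inf q)).contDiffAt, norm_smul,
          Real.norm_eq_abs, abs_of_pos (by linarith [hW1 n])]
        have h3 := hCb i _ _ _ (had n).fp x
        rw [WL_n] at h3
        have := hC0 i
        gcongr
        exact hWK n
      have hCs : 0 ≤ ∑ i, C i := Finset.sum_nonneg fun i _ => hC0 i
      calc _ ≤ (K₀ * Kf n ^ 2) * ∑ i, (B * Kf n) * (C i * (B * L₀ * Kf n) ^ q) := by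
            gcongr
            · exact hnb2 n 2
            · exact h1.trans (Finset.sum_le_sum fun i _ => h2 i)
        _ = _ := by
            rw [← Finset.mul_sum, ← Finset.sum_mul, mul_pow, pow_add]
            ring
  · -- orthonormality
    by_cases hn : n = n'
    · subst hn
      have h1 := nm_ortho (had n) i i'
      unfold phi
      rw [h1]
      simp
    · rw [if_neg (fun h => hn h.2)]
      have h0 : ∀ x, ∑ l, phi L₀ θ i n x l * phi L₀ θ i' n' x l = 0 := by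
        intro x
        refine Finset.sum_eq_zero fun l _ => ?_
        obtain ⟨k, hk⟩ := loc_n hθ x
        obtain ⟨g, hg, e⟩ := md_dil (Wn θ n) (Ln L₀ θ n) (cn n) i l
        obtain ⟨g', hg', e'⟩ := md_dil (Wn θ n') (Ln L₀ θ n') (cn n') i' l
        have d1 : phi L₀ θ i n x l = nb (Wn θ n) (Ln L₀ θ n) (cn n) i *
            dil (Wn θ n) (cn n) g x := by
          rw [← e]; rfl
        have d2 : phi L₀ θ i' n' x l = nb (Wn θ n') (Ln L₀ θ n') (cn n') i' *
            dil (Wn θ n') (cn n') g' x := by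
          rw [← e']; rfl
        rw [d1, d2]
        by_cases hkn : n = k
        · rw [hk n' (by omega) g' hg']; ring
        · rw [hk n hkn g hg]; ring
      unfold inner3
      simp [h0]
  · -- Sobolev norms
    obtain ⟨q₀, hq⟩ := q_n hL hθ hθ1
    obtain ⟨C, hC0, hCb⟩ := md_hsc q₀ s
    have hBL : 0 < B * L₀ := by positivity
    refine ⟨3 * (1 / c₀ * (C * (B * L₀) ^ (2 * s))) + 1, by
      have := Real.rpow_pos_of_pos hBL (2 * s); positivity, fun i n => ?_⟩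
    have hK := Kf_pos n
    have hKp := Real.rpow_pos_of_pos hK (2 * s)
    have hLp := Real.rpow_pos_of_pos hBL (2 * s)
    have hWp : 0 < Wn θ n := by linarith [hW1 n]
    have h1 : hs s (phi L₀ θ i n) = ENNReal.ofReal (nb (Wn θ n) (Ln L₀ θ n) (cn n) i ^ 2) *
        hs s (md (Wn θ n) (Ln L₀ θ n) (cn n) i) := hs_smul _ _ _
    rw [h1, hs_eq_sum]
    calc _ ≤ ENNReal.ofReal (nb (Wn θ n) (Ln L₀ θ n) (cn n) i ^ 2) * ∑ _l : Fin 3,
          ENNReal.ofReal (C * (Wn θ n * Ln L₀ θ n) ^ (2 * s) / Wn θ n ^ 2) := by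
          gcongr with l
          exact hCb _ _ _ (had n).fp (hq n) i l
      _ = ENNReal.ofReal (nb (Wn θ n) (Ln L₀ θ n) (cn n) i ^ 2 *
          (3 * (C * (B * L₀ * Kf n) ^ (2 * s) / Wn θ n ^ 2))) := by
          rw [WL_n, ← hB, Finset.sum_const, Finset.card_univ, Fintype.card_fin, nsmul_eq_mul,
            ENNReal.ofReal_mul (sq_nonneg _), ENNReal.ofReal_mul (p := 3) (by norm_num)]
          norm_num
      _ ≤ _ := by
          apply ENNReal.ofReal_le_ofReal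
          have h2 := ((had n).nb_sq i).2
          have h3 : (B * L₀ * Kf n) ^ (2 * s) = (B * L₀) ^ (2 * s) * Kf n ^ (2 * s) :=
            Real.mul_rpow hBL.le hK.le
          rw [h3]
          calc _ ≤ (Wn θ n ^ 2 / c₀) *
                (3 * (C * ((B * L₀) ^ (2 * s) * Kf n ^ (2 * s)) / Wn θ n ^ 2)) := by
                gcongr
            _ = 3 * (1 / c₀ * (C * (B * L₀) ^ (2 * s))) * Kf n ^ (2 * s) := by
                field_simp
            _ ≤ _ := by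
                gcongr
                linarith
  · -- localization
    obtain ⟨n, hn⟩ := loc_n hθ x
    refine ⟨n, fun n' hn' i l j => ?_⟩
    obtain ⟨g, hg, e⟩ := md_dil (Wn θ n') (Ln L₀ θ n') (cn n') i l
    have d0 := hn n' hn'
    refine ⟨?_, ?_, ?_⟩
    · have d1 : phi L₀ θ i n' x l = nb (Wn θ n') (Ln L₀ θ n') (cn n') i *
          dil (Wn θ n') (cn n') g x := by rw [← e]; rfl
      rw [d1, d0 g hg, mul_zero]
    · have d1 : (fun y => phi L₀ θ i n' y l) = fun y => nb (Wn θ n') (Ln L₀ θ n') (cn n') i *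
          dil (Wn θ n') (cn n') g y := by rw [← e]; rfl
      rw [d1, pd_mul (f := fun _ => nb (Wn θ n') (Ln L₀ θ n') (cn n') i) contDiff_const
        (dil_spf (hdp n') hg).c1, pd_const', pd_dil (hdp n') hg, d0 _ (hg.pd j)]
      simp
    · have d1 : vp L₀ θ n' = fun y => nb (Wn θ n') (Ln L₀ θ n') (cn n') 2 ^ 2 *
          dil (Wn θ n') (cn n') (EL (Ln L₀ θ n')) y := rfl
      rw [d1, pd_mul (f := fun _ => nb (Wn θ n') (Ln L₀ θ n') (cn n') 2 ^ 2) contDiff_const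
        (dil_spf (hdp n') (EL_sm1 _)).c1, pd_const', pd_dil (hdp n') (EL_sm1 _),
        d0 _ ((EL_sm1 _).pd j)]
      simp
  · -- advection by vertical velocities
    intro i i' n x l hi
    have e0 : phi L₀ θ i n x 0 = 0 := by
      change nb _ _ _ i * md _ _ _ i x 0 = 0
      unfold md
      rw [if_neg hi]
      change _ * 0 = 0
      ring
    have e1 : phi L₀ θ i n x 1 = 0 := by
      change nb _ _ _ i * md _ _ _ i x 1 = 0
      unfold md
      rw [if_neg hi]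
      change _ * 0 = 0
      ring
    obtain ⟨g, hg, e⟩ := md_dil (Wn θ n) (Ln L₀ θ n) (cn n) i' l
    have d1 : (fun y => phi L₀ θ i' n y l) = fun y => nb (Wn θ n) (Ln L₀ θ n) (cn n) i' *
        dil (Wn θ n) (cn n) g y := by rw [← e]; rfl
    have d2 : pd 2 (fun y => phi L₀ θ i' n y l) x = 0 := by
      rw [d1, pd_mul (f := fun _ => nb (Wn θ n) (Ln L₀ θ n) (cn n) i') contDiff_const
        (dil_spf (hdp n) hg).c1, pd_const', pd2_dil (hdp n) hg]
      simp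
    unfold adv
    rw [Fin.sum_univ_three, e0, e1, d2]
    ring
  · -- advection of `Y`
    have h1 := adv_scale (pX (Wn θ n) (Ln L₀ θ n) (cn n)) (pY_sf (hdp n) (Ln L₀ θ n) 0)
      (nb (Wn θ n) (Ln L₀ θ n) (cn n) 2) (nb (Wn θ n) (Ln L₀ θ n) (cn n) 0) x l
    have h2 : adv (phi L₀ θ 2 n) (phi L₀ θ 0 n) x l = _ := h1
    rw [h2, adv_XY, tr_hY0 (hdp n)]
    have h3 : nb (Wn θ n) (Ln L₀ θ n) (cn n) 1 = nb (Wn θ n) (Ln L₀ θ n) (cn n) 0 := rfl
    have h4 : phi L₀ θ 1 n x l = nb (Wn θ n) (Ln L₀ θ n) (cn n) 0 *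
        pY (Wn θ n) (Ln L₀ θ n) (cn n) 1 x l := rfl
    rw [h4]
    have hl : l = 0 ∨ l = 1 ∨ l = 2 := by fin_cases l <;> simp
    rcases hl with rfl | rfl | rfl
    · change _ = -(_ * (_ * 0)); simp
    · change _ = -(_ * (_ * 0)); simp
    · change _ = -(_ * (_ * hY _ _ _ 1 x))
      rw [if_pos rfl]
      unfold Nn
      ring
  · -- advection of `Z`
    have h1 := adv_scale (pX (Wn θ n) (Ln L₀ θ n) (cn n)) (pY_sf (hdp n) (Ln L₀ θ n) 1)
      (nb (Wn θ n) (Ln L₀ θ n) (cn n) 2) (nb (Wn θ n) (Ln L₀ θ n) (cn n) 0) x l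
    have h2 : adv (phi L₀ θ 2 n) (phi L₀ θ 1 n) x l = _ := h1
    rw [h2, adv_XY, tr_hY1 (hdp n)]
    have h4 : phi L₀ θ 0 n x l = nb (Wn θ n) (Ln L₀ θ n) (cn n) 0 *
        pY (Wn θ n) (Ln L₀ θ n) (cn n) 0 x l := rfl
    rw [h4]
    have hl : l = 0 ∨ l = 1 ∨ l = 2 := by fin_cases l <;> simp
    rcases hl with rfl | rfl | rfl
    · change _ = _ * (_ * 0); simp
    · change _ = _ * (_ * 0); simp
    · change _ = _ * (_ * hY _ _ _ 0 x)
      rw [if_pos rfl]
      unfold Nn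
      ring
  · -- self-advection
    have h1 := adv_scale (pX (Wn θ n) (Ln L₀ θ n) (cn n)) (pX_sf (hdp n) (Ln L₀ θ n))
      (nb (Wn θ n) (Ln L₀ θ n) (cn n) 2) (nb (Wn θ n) (Ln L₀ θ n) (cn n) 2) x l
    have h2 : adv (phi L₀ θ 2 n) (phi L₀ θ 2 n) x l = _ := h1
    rw [h2, adv_XX (hdp n)]
    have d1 : vp L₀ θ n = fun y => nb (Wn θ n) (Ln L₀ θ n) (cn n) 2 ^ 2 *
        dil (Wn θ n) (cn n) (EL (Ln L₀ θ n)) y := rfl
    rw [d1, pd_mul (f := fun _ => nb (Wn θ n) (Ln L₀ θ n) (cn n) 2 ^ 2) contDiff_const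
      (dil_spf (hdp n) (EL_sm1 _)).c1, pd_const', pd_dEL (hdp n)]
    ring
  · -- the test points
    refine ⟨Real.sqrt (1 / C₀) * (3 / 8), by positivity, fun n => ?_⟩
    have hWp : 0 < Wn θ n := by linarith [hW1 n]
    have hLn : 64 ≤ Ln L₀ θ n := (had n).L64
    have hLn0 : 0 < Ln L₀ θ n := by linarith
    have hpi := Real.pi_pos
    -- the radius
    obtain ⟨k, hk1, hk2⟩ : ∃ k : ℤ, 3 / 8 ≤ 2 * π * k / Ln L₀ θ n ∧
        2 * π * k / Ln L₀ θ n ≤ 7 / 8 := by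
      refine ⟨⌈3 / 8 * Ln L₀ θ n / (2 * π)⌉, ?_, ?_⟩
      · rw [le_div_iff₀ hLn0]
        have h1 := Int.le_ceil (3 / 8 * Ln L₀ θ n / (2 * π))
        rw [div_le_iff₀ (by positivity)] at h1
        linarith
      · rw [div_le_iff₀ hLn0]
        have h1 := (Int.ceil_lt_add_one (3 / 8 * Ln L₀ θ n / (2 * π))).le
        have h2 : 3 / 8 * Ln L₀ θ n / (2 * π) * (2 * π) = 3 / 8 * Ln L₀ θ n := by field_simp
        have h3 : (⌈3 / 8 * Ln L₀ θ n / (2 * π)⌉ : ℝ) * (2 * π) ≤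
            (3 / 8 * Ln L₀ θ n / (2 * π) + 1) * (2 * π) := by gcongr
        have h4 : π ≤ 4 := Real.pi_le_four
        nlinarith
    set σ := 2 * π * k / Ln L₀ θ n with hσ
    have hσ0 : 0 ≤ σ := by linarith
    set r := Real.sqrt σ with hr
    have hr2 : r ^ 2 = σ := Real.sq_sqrt hσ0
    have hr1 : 3 / 8 ≤ r := by
      apply Real.le_sqrt_of_sq_le
      nlinarith
    have hr3 : r ≤ 1 := by
      rw [hr, ← Real.sqrt_one]
      exact Real.sqrt_le_sqrt (by linarith)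
    set x : V := ![cn n + r / Wn θ n, 0, 0] with hx
    have hc1 : |cn n| ≤ 1 := (hdp n).c1
    have hc2 := abs_le.1 hc1
    have hrW : r / Wn θ n ≤ 1 := by
      rw [div_le_one hWp]
      exact hr3.trans (hW1 n)
    have hrW0 : 0 ≤ r / Wn θ n := by positivity
    have hpi3 := Real.pi_gt_three
    have x0 : x 0 = cn n + r / Wn θ n := rfl
    have x1 : x 1 = 0 := rfl
    have rd0 : rd (x 0) = cn n + r / Wn θ n := by
      rw [x0]
      apply rd_self
      rw [abs_lt]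
      constructor <;> linarith
    have rd1 : rd (x 1) = 0 := by
      rw [x1]
      apply rd_self
      rw [abs_zero]
      exact hpi
    have s0 : sc (Wn θ n) (cn n) x 0 = r := by
      change Wn θ n * (rd (x 0) - cn n) = r
      rw [rd0]
      field_simp
      ring
    have s1 : sc (Wn θ n) (cn n) x 1 = 0 := by
      change Wn θ n * rd (x 1) = 0
      rw [rd1, mul_zero]
    have sgx : sg (sc (Wn θ n) (cn n) x) = σ := by
      unfold sg
      rw [s0, s1, hr2]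
      ring
    have hF : FX (Ln L₀ θ n) σ = 1 := by
      unfold FX
      have h1 : Ln L₀ θ n * σ = k * (2 * π) := by rw [hσ]; field_simp
      have h2 : pp (Ln L₀ θ n * σ) = 1 := by
        unfold pp
        rw [h1, Real.cos_int_mul_two_pi, st_one (by norm_num), st_zero (by norm_num), sub_zero]
      rw [h2, chi_one hk1 hk2, one_mul]
    have hv : hX (Wn θ n) (Ln L₀ θ n) (cn n) 0 x = r := by
      rw [hX_apply, sgx, hF, xc0, s0, mul_one]
    refine ⟨x, ?_, fun i n' hne => ?_⟩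
    · have h1 : phi L₀ θ 2 n x 1 = nb (Wn θ n) (Ln L₀ θ n) (cn n) 2 *
          hX (Wn θ n) (Ln L₀ θ n) (cn n) 0 x := rfl
      rw [h1, hv]
      have h2 : Real.sqrt (1 / C₀) * Wn θ n ≤ nb (Wn θ n) (Ln L₀ θ n) (cn n) 2 := by
        have h3 := ((had n).nb_sq 2).1
        apply le_of_sq_le_sq' _ (hnb n 2).le
        rw [mul_pow, Real.sq_sqrt (by positivity)]
        refine le_trans (le_of_eq ?_) h3
        ring
      have hKθ := Real.rpow_pos_of_pos (Kf_pos n) θ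
      calc Real.sqrt (1 / C₀) * (3 / 8) * Kf n ^ θ ≤ (Real.sqrt (1 / C₀) * Wn θ n) * (3 / 8) := by
            unfold Wn
            have h4 : 1 * Kf n ^ θ ≤ B * Kf n ^ θ := by gcongr
            have h5 : 0 ≤ Real.sqrt (1 / C₀) := Real.sqrt_nonneg _
            nlinarith [mul_le_mul_of_nonneg_left h4 h5]
        _ ≤ _ := mul_le_mul h2 hr1 (by norm_num) (hnb n 2).le
    · by_cases hi : i = 2
      · have hn' : n' ≠ n := fun h => hne ⟨hi, h⟩
        obtain ⟨m, hm⟩ := loc_n hθ x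
        have hmn : n = m := by
          by_contra hcon
          have h1 := hm n hcon _ (rfX_sm1 (Ln L₀ θ n) 0)
          have h2 : dil (Wn θ n) (cn n) (rf 0 (FX (Ln L₀ θ n))) x = r := hv
          rw [h2] at h1
          linarith
        obtain ⟨g, hg, e⟩ := md_dil (Wn θ n') (Ln L₀ θ n') (cn n') i 1
        have d1 : phi L₀ θ i n' x 1 = nb (Wn θ n') (Ln L₀ θ n') (cn n') i *
            dil (Wn θ n') (cn n') g x := by rw [← e]; rfl
        rw [d1, hm n' (by omega) g hg, mul_zero]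
      · change nb _ _ _ i * md _ _ _ i x 1 = 0
        unfold md
        rw [if_neg hi]
        change _ * 0 = 0
        ring
  · -- lower bound for the angular velocities
    refine ⟨Real.sqrt (1 / C₀), by positivity, fun n => ?_⟩
    have hWp : 0 < Wn θ n := by linarith [hW1 n]
    have h3 := ((had n).nb_sq 2).1
    have h2 : Real.sqrt (1 / C₀) * Wn θ n ≤ nb (Wn θ n) (Ln L₀ θ n) (cn n) 2 := by
      apply le_of_sq_le_sq' _ (hnb n 2).le
      rw [mul_pow, Real.sq_sqrt (by positivity)]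
      refine le_trans (le_of_eq ?_) h3
      ring
    have h4 : B ^ 2 * Kf n ^ (2 * θ) = Wn θ n * Wn θ n := by
      have h5 : Kf n ^ (2 * θ) = Kf n ^ θ * Kf n ^ θ := by
        rw [← Real.rpow_add (Kf_pos n)]
        congr 1
        ring
      unfold Wn
      rw [h5]
      ring
    have hKθ := Real.rpow_pos_of_pos (Kf_pos n) (2 * θ)
    have h6 : Kf n ^ (2 * θ) ≤ Wn θ n * Wn θ n := by
      rw [← h4]
      have : 1 ≤ B ^ 2 := one_le_pow₀ hB1
      nlinarith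
    calc Real.sqrt (1 / C₀) * Kf n ^ (2 * θ) ≤ Real.sqrt (1 / C₀) * (Wn θ n * Wn θ n) := by gcongr
      _ = Real.sqrt (1 / C₀) * Wn θ n * Wn θ n := by ring
      _ ≤ _ := by
        unfold Nn
        gcongr
  · -- upper bound for the angular velocities
    refine ⟨Real.sqrt (1 / c₀) * B ^ 2, by positivity, fun n => ?_⟩
    have hWp : 0 < Wn θ n := by linarith [hW1 n]
    have h3 := ((had n).nb_sq 2).2
    have h2 : nb (Wn θ n) (Ln L₀ θ n) (cn n) 2 ≤ Real.sqrt (1 / c₀) * Wn θ n := by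
      apply le_of_sq_le_sq' _ (by positivity)
      rw [mul_pow, Real.sq_sqrt (by positivity)]
      refine h3.trans (le_of_eq ?_)
      ring
    have h4 : B ^ 2 * Kf n ^ (2 * θ) = Wn θ n * Wn θ n := by
      have h5 : Kf n ^ (2 * θ) = Kf n ^ θ * Kf n ^ θ := by
        rw [← Real.rpow_add (Kf_pos n)]
        congr 1
        ring
      unfold Wn
      rw [h5]
      ring
    rw [mul_assoc, h4, ← mul_assoc]
    unfold Nn
    gcongr
  · -- the fields do not depend on the third variable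
    obtain ⟨g, hg, e⟩ := md_dil (Wn θ n) (Ln L₀ θ n) (cn n) i l
    have d1 : (fun y => phi L₀ θ i n y l) = fun y => nb (Wn θ n) (Ln L₀ θ n) (cn n) i *
        dil (Wn θ n) (cn n) g y := by rw [← e]; rfl
    rw [d1, pd_mul (f := fun _ => nb (Wn θ n) (Ln L₀ θ n) (cn n) i) contDiff_const
      (dil_spf (hdp n) hg).c1, pd_const', pd2_dil (hdp n) hg]
    simp
where
  adv_scale (v : V → V) {w : V → V} (hw : SF w) (a b : ℝ) (x : V) (l : Fin 3) :
      adv (fun y l => a * v y l) (fun y l => b * w y l) x l = a * b * adv v w x l := by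
    unfold adv
    have h1 : ∀ j, pd j (fun y => b * w y l) x = b * pd j (fun y => w y l) x := by
      intro j
      rw [pd_mul (f := fun _ => b) contDiff_const (hw.sp.comp l).c1, pd_const']
      ring
    simp only [h1]
    rw [Finset.mul_sum]
    exact Finset.sum_congr rfl fun j _ => by ring
  le_of_sq_le_sq' {a b : ℝ} (h : a ^ 2 ≤ b ^ 2) (hb : 0 ≤ b) : a ≤ b :=
    le_of_not_gt fun hlt => by nlinarith

end

end Pool.Agent.H306.DS
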