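import Pool.Agent.H306.CK.Cmp

/-! Global solutions of differential equations in `ℝ³` with an energy estimate. -/

namespace Pool.Agent.H306.DS

open Set Metric
open scoped NNReal

open Pool.Agent.H306.CK

/-- `ℝ³`. -/
abbrev E3 : Type := ℝ × ℝ × ℝ

/-- The square of the Euclidean norm. -/
def nrg (v : E3) : ℝ := v.1 ^ 2 + v.2.1 ^ 2 + v.2.2 ^ 2

/-- The Euclidean inner product. -/
def dot (v w : E3) : ℝ := v.1 * w.1 + v.2.1 * w.2.1 + v.2.2 * w.2.2

theorem nrg_nonneg (v : E3) : 0 ≤ nrg v := by unfold nrg; positivity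

theorem norm_sq_le (v : E3) : ‖v‖ ^ 2 ≤ nrg v := by
  obtain ⟨x, y, z⟩ := v
  unfold nrg
  rw [Prod.norm_mk, Prod.norm_mk]
  simp only [Real.norm_eq_abs]
  rcases le_total |x| (max |y| |z|) with h | h
  · rw [max_eq_right h]
    rcases le_total |y| |z| with h' | h'
    · rw [max_eq_right h', sq_abs]; nlinarith [sq_nonneg x, sq_nonneg y]
    · rw [max_eq_left h', sq_abs]; nlinarith [sq_nonneg x, sq_nonneg z]
  · rw [max_eq_left h, sq_abs]; nlinarith [sq_nonneg y, sq_nonneg z]

theorem nrg_deriv {v : ℝ → E3} {v' : E3} {t : ℝ} (h : HasDerivAt v v' t) :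
    HasDerivAt (fun s => nrg (v s)) (2 * dot (v t) v') t := by
  have h1 : HasDerivAt (fun s => (v s).1) v'.1 t := h.fst
  have h2 : HasDerivAt (fun s => (v s).2.1) v'.2.1 t := h.snd.fst
  have h3 : HasDerivAt (fun s => (v s).2.2) v'.2.2 t := h.snd.snd
  have h4 := ((h1.pow 2).add (h2.pow 2)).add (h3.pow 2)
  refine h4.congr_deriv ?_
  unfold dot
  simp
  ring

theorem gexist {P0 P1 : E3 → E3} (h0 : ContDiff ℝ 1 P0) (h1 : ContDiff ℝ 1 P1) {g : ℝ → ℝ}
    (hg : ContinuousOn g (Icc (-1) 2)) {C : ℝ} (hC0 : ∀ v, |dot v (P0 v)| ≤ C * (1 + nrg v))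
    (hC1 : ∀ v, |dot v (P1 v)| ≤ C * (1 + nrg v)) (v0 : E3) :
    ∃ v : ℝ → E3, v 0 = v0 ∧ ContinuousOn v (Icc (-1) 2) ∧
      ∀ t ∈ Ioo (-1 : ℝ) 2, HasDerivAt v (P0 (v t) + g t • P1 (v t)) t := by
  obtain ⟨G, hG⟩ := isCompact_Icc.exists_bound_of_continuousOn hg
  have hG0 : 0 ≤ G := (norm_nonneg _).trans (hG 0 (by norm_num))
  have hC : 0 ≤ C := by
    have h := (abs_nonneg _).trans (hC0 (0 : E3))
    simpa [nrg] using h
  set Λ : ℝ := 2 * (C + G * C) with hΛ
  have hΛ0 : 0 ≤ Λ := by positivity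
  set N0 : ℝ := 1 + nrg v0 with hN0
  have hN0' : 1 ≤ N0 := by have := nrg_nonneg v0; linarith
  set B : ℝ := Real.sqrt (N0 * Real.exp (Λ * 2)) with hB
  have hB0 : 0 ≤ B := Real.sqrt_nonneg _
  let θ : ContDiffBump (0 : E3) := ⟨B + 1, B + 2, by linarith, by linarith⟩
  have hθ1 : ∀ v : E3, ‖v‖ ≤ B → θ v = 1 := by
    intro v hv
    refine θ.one_of_mem_closedBall ?_
    rw [mem_closedBall, dist_zero_right]
    change ‖v‖ ≤ B + 1
    linarith
  have c0 : ContDiff ℝ 1 (fun v => θ v • P0 v) := θ.contDiff.smul h0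
  have c1 : ContDiff ℝ 1 (fun v => θ v • P1 v) := θ.contDiff.smul h1
  have s0 : HasCompactSupport (fun v => θ v • P0 v) := θ.hasCompactSupport.smul_right
  have s1 : HasCompactSupport (fun v => θ v • P1 v) := θ.hasCompactSupport.smul_right
  obtain ⟨K0, hK0⟩ := c0.lipschitzWith_of_hasCompactSupport s0 (by norm_num)
  obtain ⟨K1, hK1⟩ := c1.lipschitzWith_of_hasCompactSupport s1 (by norm_num)
  obtain ⟨M0, hM0⟩ := s0.exists_bound_of_continuous c0.continuous
  obtain ⟨M1, hM1⟩ := s1.exists_bound_of_continuous c1.continuous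
  have hM0' : 0 ≤ M0 := (norm_nonneg _).trans (hM0 0)
  have hM1' : 0 ≤ M1 := (norm_nonneg _).trans (hM1 0)
  set L : ℝ≥0 := (M0 + G * M1).toNNReal with hL
  have hLc : (L : ℝ) = M0 + G * M1 := Real.coe_toNNReal _ (by positivity)
  set F : ℝ → E3 → E3 := fun t v => θ v • P0 v + g t • (θ v • P1 v) with hF
  have hpl : IsPicardLindelof F (tmin := -1) (tmax := 2) ⟨0, by norm_num⟩ v0 (2 * L) 0 L
      (K0 + G.toNNReal * K1) := by
    constructor
    · intro t ht
      refine LipschitzWith.lipschitzOnWith ?_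
      refine hK0.add ?_
      refine LipschitzWith.of_dist_le_mul fun v w => ?_
      rw [dist_eq_norm, ← smul_sub, norm_smul]
      have h3 := hK1.dist_le_mul v w
      rw [dist_eq_norm] at h3
      rw [NNReal.coe_mul, Real.coe_toNNReal _ hG0, mul_assoc]
      exact mul_le_mul (hG t ht) h3 (norm_nonneg _) hG0
    · intro v _
      exact continuousOn_const.add (hg.smul continuousOn_const)
    · intro t ht v _
      refine (norm_add_le _ _).trans ?_
      rw [norm_smul (g t), hLc]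
      exact add_le_add (hM0 v) (mul_le_mul (hG t ht) (hM1 v) (norm_nonneg _) hG0)
    · simp only [sub_zero, zero_sub, neg_neg]
      have : max (2 : ℝ) 1 = 2 := by norm_num
      rw [this]
      push_cast
      linarith
  obtain ⟨v, hv0, hv⟩ := hpl.exists_eq_forall_mem_Icc_hasDerivWithinAt₀
  have hv0' : v 0 = v0 := hv0
  have hvI : ∀ t ∈ Ioo (-1 : ℝ) 2, HasDerivAt v (F t (v t)) t := fun t ht =>
    (hv t (Ioo_subset_Icc_self ht)).hasDerivAt (Icc_mem_nhds ht.1 ht.2)
  have hen : ∀ t ∈ Ioo (-1 : ℝ) 2, ∃ D, HasDerivAt (fun s => 1 + nrg (v s)) D t ∧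
      |D| ≤ Λ * (1 + nrg (v t)) := by
    intro t ht
    refine ⟨_, (nrg_deriv (hvI t ht)).const_add 1, ?_⟩
    have e1 : dot (v t) (F t (v t)) = θ (v t) * (dot (v t) (P0 (v t)) +
        g t * dot (v t) (P1 (v t))) := by
      simp only [hF, dot, Prod.fst_add, Prod.snd_add, Prod.smul_fst, Prod.smul_snd, smul_eq_mul]
      ring
    have h3 := hC0 (v t)
    have h4 := hC1 (v t)
    have h5 : |g t| ≤ G := hG t (Ioo_subset_Icc_self ht)
    have h6 : |θ (v t)| ≤ 1 := by
      rw [abs_of_nonneg θ.nonneg]; exact θ.le_one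
    have hn := nrg_nonneg (v t)
    rw [e1, abs_mul, abs_mul, abs_two]
    have h7 : |dot (v t) (P0 (v t)) + g t * dot (v t) (P1 (v t))| ≤
        (C + G * C) * (1 + nrg (v t)) := by
      refine (abs_add_le _ _).trans ?_
      rw [abs_mul]
      calc |dot (v t) (P0 (v t))| + |g t| * |dot (v t) (P1 (v t))| ≤
            C * (1 + nrg (v t)) + G * (C * (1 + nrg (v t))) := by gcongr
        _ = _ := by ring
    calc 2 * (|θ (v t)| * |dot (v t) (P0 (v t)) + g t * dot (v t) (P1 (v t))|) ≤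
          2 * (1 * ((C + G * C) * (1 + nrg (v t)))) := by gcongr
      _ = _ := by rw [hΛ]; ring
  have hbd : ∀ t ∈ Ioo (-1 : ℝ) 2, ‖v t‖ ≤ B := by
    intro t ht
    have key : 1 + nrg (v t) ≤ N0 * Real.exp (Λ * 2) := by
      rcases le_total 0 t with h | h
      · have h3 := gron_upper (f := fun s => 1 + nrg (v s)) (c := Λ) h fun s hs => by
          obtain ⟨D, hD, hD'⟩ := hen s ⟨by linarith [hs.1], by linarith [hs.2, ht.2]⟩
          exact ⟨D, hD, (le_abs_self D).trans hD'⟩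
        simp only [hv0'] at h3
        refine h3.trans ?_
        gcongr
        linarith [ht.2]
      · have h3 := gron_lower (f := fun s => 1 + nrg (v s)) (c := -Λ) h fun s hs => by
          obtain ⟨D, hD, hD'⟩ := hen s ⟨by linarith [hs.1, ht.1], by linarith [hs.2]⟩
          exact ⟨D, hD, by linarith [neg_abs_le D]⟩
        simp only [hv0'] at h3
        have h4 : 1 + nrg (v t) = (1 + nrg (v t)) * Real.exp (-Λ * (0 - t)) *
            Real.exp (Λ * (0 - t)) := by
          rw [mul_assoc, ← Real.exp_add]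
          have : -Λ * (0 - t) + Λ * (0 - t) = 0 := by ring
          rw [this, Real.exp_zero, mul_one]
        rw [h4]
        calc (1 + nrg (v t)) * Real.exp (-Λ * (0 - t)) * Real.exp (Λ * (0 - t)) ≤
              N0 * Real.exp (Λ * (0 - t)) := by gcongr
          _ ≤ _ := by
            gcongr
            linarith [ht.1]
    refine Real.le_sqrt_of_sq_le ?_
    have := norm_sq_le (v t)
    linarith
  refine ⟨v, hv0', fun t ht => (hv t ht).continuousWithinAt, fun t ht => ?_⟩
  have h3 := hvI t ht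
  have h4 := hθ1 (v t) (hbd t ht)
  simp only [hF, h4, one_smul] at h3
  exact h3

end Pool.Agent.H306.DS
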