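import Pool.Agent.H306.DS.Lin

/-! The linearised growth of one stage. -/

namespace Pool.Agent.H306.DS

open Set Filter Topology

open Pool.Agent.H306.CK

/-- The linearised system. -/
structure Hat (Y X Z : ℝ → ℝ) (T τ R γ e : ℝ) : Prop where
  contX : ContinuousOn X (Icc (-1) 2)
  contZ : ContinuousOn Z (Icc (-1) 2)
  derX : ∀ t ∈ Ioo (-1 : ℝ) 2, HasDerivAt X (R / 8 * (Z t - X t)) t
  derZ : ∀ t ∈ Ioo (-1 : ℝ) 2, HasDerivAt Z (-(R / 8 * Z t) + (R * X t + e) * Y t) t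
  initX : (R / 8 + γ) * X 0 = R / 8 * Z 0
  initZ : (R / 8 + γ) * Z 0 = e * Y 0
  one : 2 * X τ + Z τ = 1 / 100
  e_pos : 0 < e

section

variable {f Y X Z : ℝ → ℝ} {T τ r R γ ν a e : ℝ}

theorem hat_nonneg (hY : LinY f Y T τ r γ ν a) (hT : Tm T τ r R γ ν) (he : 0 ≤ e)
    (derX : ∀ t ∈ Ioo (-1 : ℝ) 2, HasDerivAt X (R / 8 * (Z t - X t)) t)
    (derZ : ∀ t ∈ Ioo (-1 : ℝ) 2, HasDerivAt Z (-(R / 8 * Z t) + (R * X t + e) * Y t) t)
    (hX0 : 0 ≤ X 0) (hZ0 : 0 ≤ Z 0) : ∀ t ∈ Icc 0 T, 0 ≤ X t ∧ 0 ≤ Z t := by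
  have hR := hT.R_pos
  have hsub : ∀ t ∈ Icc 0 T, t ∈ Ioo (-1 : ℝ) 2 := fun t ht => hT.sub ht
  have hYb : ContinuousOn Y (Icc 0 T) := hY.cont.mono fun t ht => Ioo_subset_Icc_self (hsub t ht)
  obtain ⟨C, hC⟩ := isCompact_Icc.exists_bound_of_continuousOn hYb
  refine coop (A := R / 8) (c := fun t => R * Y t) (C := R * C) (by positivity)
    (fun t ht => ⟨mul_nonneg hR.le (hY.pos t ht).le, ?_⟩)
    (fun t ht => ⟨_, derX t (hsub t ht), le_rfl⟩)
    (fun t ht => ⟨_, derZ t (hsub t ht), ?_⟩) hX0 hZ0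
  · have := hC t ht
    rw [Real.norm_eq_abs] at this
    exact mul_le_mul_of_nonneg_left ((le_abs_self _).trans this) hR.le
  · have h1 : 0 ≤ e * Y t := mul_nonneg he (hY.pos t ht).le
    nlinarith

theorem exists_hat (hY : LinY f Y T τ r γ ν a) (hT : Tm T τ r R γ ν) :
    ∃ (X Z : ℝ → ℝ) (e : ℝ), Hat Y X Z T τ R γ e := by
  have hR := hT.R_pos
  have hγ := hT.γ_ge
  have hTp := hT.T_pos
  have hRγ : 0 < R / 8 + γ := by positivity
  have c0 : ContDiff ℝ 1 (fun v : E3 => ((R / 8 * (v.2.1 - v.1), -(R / 8 * v.2.1), 0) : E3)) := by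
    fun_prop
  have c1 : ContDiff ℝ 1 (fun v : E3 => ((0, R * v.1 + 1, 0) : E3)) := by fun_prop
  set Z0 : ℝ := Y 0 / (R / 8 + γ) with hZ0
  have h0T : (0 : ℝ) ∈ Icc 0 T := ⟨le_rfl, hTp.le⟩
  have hY0 := hY.pos 0 h0T
  have hZ0p : 0 < Z0 := div_pos hY0 hRγ
  obtain ⟨v, hv0, hvc, hv⟩ := gexist (C := R + 1) c0 c1 hY.cont (fun v => by
    unfold dot nrg
    rw [abs_le]
    constructor <;> nlinarith [sq_nonneg v.1, sq_nonneg v.2.1, sq_nonneg v.2.2,
      mul_nonneg hR.le (sq_nonneg (v.1 - v.2.1)), mul_nonneg hR.le (sq_nonneg (v.1 + v.2.1)),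
      mul_nonneg hR.le (sq_nonneg v.1), mul_nonneg hR.le (sq_nonneg v.2.1),
      mul_nonneg hR.le (sq_nonneg v.2.2)]) (fun v => by
    unfold dot nrg
    rw [abs_le]
    constructor <;> nlinarith [sq_nonneg (v.2.1 + 1), sq_nonneg (v.2.1 - 1), sq_nonneg v.1,
      sq_nonneg v.2.1, sq_nonneg v.2.2,
      mul_nonneg hR.le (sq_nonneg (v.1 - v.2.1)), mul_nonneg hR.le (sq_nonneg (v.1 + v.2.1)),
      mul_nonneg hR.le (sq_nonneg v.2.2)])
    (R / 8 * Z0 / (R / 8 + γ), Z0, 0)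
  set X : ℝ → ℝ := fun t => (v t).1 with hX
  set Z : ℝ → ℝ := fun t => (v t).2.1 with hZ
  have hXc : ContinuousOn X (Icc (-1) 2) := hvc.fst
  have hZc : ContinuousOn Z (Icc (-1) 2) := hvc.snd.fst
  have hXd : ∀ t ∈ Ioo (-1 : ℝ) 2, HasDerivAt X (R / 8 * (Z t - X t)) t := by
    intro t ht
    have h5 : HasDerivAt X (((R / 8 * ((v t).2.1 - (v t).1), -(R / 8 * (v t).2.1), 0) : E3) +
      Y t • ((0, R * (v t).1 + 1, 0) : E3)).1 t := (hv t ht).fst
    refine h5.congr_deriv ?_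
    simp [hX, hZ]
  have hZd : ∀ t ∈ Ioo (-1 : ℝ) 2, HasDerivAt Z (-(R / 8 * Z t) + (R * X t + 1) * Y t) t := by
    intro t ht
    have h5 : HasDerivAt Z (((R / 8 * ((v t).2.1 - (v t).1), -(R / 8 * (v t).2.1), 0) : E3) +
      Y t • ((0, R * (v t).1 + 1, 0) : E3)).2.1 t := (hv t ht).snd.fst
    refine h5.congr_deriv ?_
    simp [hX, hZ]
    ring
  have hX0v : X 0 = R / 8 * Z0 / (R / 8 + γ) := by simp [hX, hv0]
  have hZ0v : Z 0 = Z0 := by simp [hZ, hv0]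
  have hnn := hat_nonneg (e := 1) hY hT zero_le_one hXd hZd
    (by rw [hX0v]; positivity) (by rw [hZ0v]; positivity)
  have hτ : τ ∈ Icc 0 T := ⟨hT.τ_pos.le, hT.τ_le⟩
  have hZτ : 0 < Z τ := by
    have h1 := gron_lower (f := Z) (c := -(R / 8)) hτ.1 fun s hs => by
      have hs' : s ∈ Icc 0 T := ⟨hs.1, hs.2.trans hτ.2⟩
      refine ⟨_, hZd s (hT.sub hs'), ?_⟩
      have h2 := (hnn s hs').1
      have h3 := (hY.pos s hs').le
      have : 0 ≤ (R * X s + 1) * Y s := by positivity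
      linarith
    rw [hZ0v] at h1
    exact (mul_pos hZ0p (Real.exp_pos _)).trans_le h1
  have hXτ := (hnn τ hτ).1
  set u : ℝ := 2 * X τ + Z τ with hu
  have hup : 0 < u := by linarith
  set c : ℝ := 1 / (100 * u) with hc
  have hcp : 0 < c := by positivity
  refine ⟨fun t => c * X t, fun t => c * Z t, c, continuousOn_const.mul hXc,
    continuousOn_const.mul hZc, fun t ht => ?_, fun t ht => ?_, ?_, ?_, ?_, hcp⟩
  · refine ((hXd t ht).const_mul c).congr_deriv ?_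
    ring
  · refine ((hZd t ht).const_mul c).congr_deriv ?_
    ring
  · rw [hX0v, hZ0v]
    field_simp
  · rw [hZ0v, hZ0]
    field_simp
  · have : 2 * (c * X τ) + c * Z τ = c * u := by rw [hu]; ring
    rw [this, hc]
    field_simp

/-- The consequences of the linearised system. -/
theorem Hat.nonneg (h : Hat Y X Z T τ R γ e) (hY : LinY f Y T τ r γ ν a) (hT : Tm T τ r R γ ν) :
    ∀ t ∈ Icc 0 T, 0 ≤ X t ∧ 0 ≤ Z t := by
  have hR := hT.R_pos
  have hγ := hT.γ_ge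
  have h0T : (0 : ℝ) ∈ Icc 0 T := ⟨le_rfl, hT.T_pos.le⟩
  have hY0 := hY.pos 0 h0T
  have hRγ : 0 < R / 8 + γ := by positivity
  have hZ0 : 0 ≤ Z 0 := by
    have h1 := h.initZ
    have h2 : 0 < e * Y 0 := mul_pos h.e_pos hY0
    by_contra hcon
    push Not at hcon
    nlinarith
  have hX0 : 0 ≤ X 0 := by
    have h1 := h.initX
    have h2 : 0 ≤ R / 8 * Z 0 := by positivity
    by_contra hcon
    push Not at hcon
    nlinarith
  exact hat_nonneg hY hT h.e_pos.le h.derX h.derZ hX0 hZ0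

theorem Hat.grow (h : Hat Y X Z T τ R γ e) (hY : LinY f Y T τ r γ ν a) (hT : Tm T τ r R γ ν) :
    ∀ t ∈ Icc 0 T, γ * X t ≤ R / 8 * (Z t - X t) ∧
      γ * Z t ≤ -(R / 8 * Z t) + (R * X t + e) * Y t := by
  have hR := hT.R_pos
  have hγ := hT.γ_ge
  have hsub : ∀ t ∈ Icc 0 T, t ∈ Ioo (-1 : ℝ) 2 := fun t ht => hT.sub ht
  have hnn := h.nonneg hY hT
  have hYb : ContinuousOn Y (Icc 0 T) := hY.cont.mono fun t ht => Ioo_subset_Icc_self (hsub t ht)
  obtain ⟨C, hC⟩ := isCompact_Icc.exists_bound_of_continuousOn hYb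
  have key := coop (p := fun t => R / 8 * (Z t - X t) - γ * X t)
    (q := fun t => (-(R / 8 * Z t) + (R * X t + e) * Y t) - γ * Z t)
    (A := R / 8) (c := fun t => R * Y t) (C := R * C) (t₀ := 0) (t₁ := T) (by positivity)
    (fun t ht => ⟨mul_nonneg hR.le (hY.pos t ht).le, ?_⟩)
    (fun t ht => ?_) (fun t ht => ?_) ?_ ?_
  · intro t ht
    obtain ⟨h1, h2⟩ := key t ht
    exact ⟨by linarith, by linarith⟩
  · have := hC t ht
    rw [Real.norm_eq_abs] at this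
    exact mul_le_mul_of_nonneg_left ((le_abs_self _).trans this) hR.le
  · have hx := h.derX t (hsub t ht)
    have hz := h.derZ t (hsub t ht)
    refine ⟨_, ((hz.sub hx).const_mul (R / 8)).sub (hx.const_mul γ), le_of_eq ?_⟩
    ring
  · have hx := h.derX t (hsub t ht)
    have hz := h.derZ t (hsub t ht)
    have hy := hY.der t (hsub t ht)
    refine ⟨_, ((hz.const_mul (R / 8)).neg.add (((hx.const_mul R).add_const e).mul hy)).sub
      (hz.const_mul γ), ?_⟩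
    have h1 := hY.grow t ht
    have h2 := (hnn t ht).1
    have h3 := (hY.pos t ht).le
    have h4 : 0 ≤ R * X t + e := by
      have := h.e_pos
      positivity
    have h5 : 0 ≤ (R * X t + e) * ((-ν * Y t + a * f t) - γ * Y t) :=
      mul_nonneg h4 (by linarith)
    have h6 : 0 ≤ γ * (R * X t * Y t) := by positivity
    nlinarith
  · have := h.initX
    nlinarith
  · have h1 := h.initZ
    have h0T : (0 : ℝ) ∈ Icc 0 T := ⟨le_rfl, hT.T_pos.le⟩
    have h2 := (hnn 0 h0T).1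
    have h3 := (hY.pos 0 h0T).le
    have h4 : 0 ≤ R * X 0 * Y 0 := by positivity
    nlinarith

end

end Pool.Agent.H306.DS
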