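import Pool.Agent.H306.DS.Hat

/-! Quantitative bounds of the linear comparison functions. -/

namespace Pool.Agent.H306.DS

open Set Filter Topology

open Pool.Agent.H306.CK

/-- The length of the last part of the window. -/
noncomputable def th (r : ℝ) : ℝ := 1 / (15360 * r)

/-- The small amplitude before the last part of the window. -/
noncomputable def ep (r R : ℝ) : ℝ := 1 / 100 * Real.exp (-(R / (122880 * r)))

theorem ep_pos (r R : ℝ) : 0 < ep r R := by unfold ep; positivity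

section

variable {f Y X Z : ℝ → ℝ} {T τ r R γ ν a e : ℝ}

theorem th_pos (hT : Tm T τ r R γ ν) : 0 < th r := by
  have := hT.r_pos
  unfold th
  positivity

theorem th_le (hT : Tm T τ r R γ ν) : th r ≤ τ := by
  have h1 := hT.r_pos
  have h2 := hT.h_le
  have h3 : th r ≤ 1 / (2 * r) := by
    unfold th
    apply one_div_le_one_div_of_le (by positivity)
    linarith
  linarith

theorem R_th (hT : Tm T τ r R γ ν) : 1 / R ≤ th r := by
  unfold th
  exact one_div_le_one_div_of_le (by have := hT.r_pos; positivity) hT.R_ge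

theorem Ymono (hi : In f T τ r γ) (hY : LinY f Y T τ r γ ν a) (hT : Tm T τ r R γ ν) {s t : ℝ}
    (hs : 0 ≤ s) (hst : s ≤ t) (ht : t ≤ T) : Y s ≤ Y t :=
  le_of_deriv hst fun x hx => by
    have hx' : x ∈ Icc 0 T := ⟨hs.trans hx.1, hx.2.trans ht⟩
    refine ⟨_, hY.der x (hT.sub hx'), ?_⟩
    have h1 := hY.grow x hx'
    have h2 := (hY.pos x hx').le
    have h3 := hT.γ_ge
    have h4 : 0 ≤ γ * Y x := by positivity
    linarith

theorem Yder_le (hi : In f T τ r γ) (hY : LinY f Y T τ r γ ν a) (hT : Tm T τ r R γ ν) {t : ℝ}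
    (ht : t ∈ Icc 0 T) : -ν * Y t + a * f t ≤ 7680 * r := by
  have h1 := hi.le t ht
  have h2 := (hi.pos ht).le
  have h3 := hY.a_le
  have h4 := hY.a_pos.le
  have h5 : a * f t ≤ 51200 * r * (3 / 20) := mul_le_mul h3 h1 h2 (h4.trans h3)
  have h6 : 0 ≤ ν * Y t := mul_nonneg hT.ν0 (hY.pos t ht).le
  linarith

theorem Y_ge_half (hi : In f T τ r γ) (hY : LinY f Y T τ r γ ν a) (hT : Tm T τ r R γ ν) {t : ℝ}
    (ht : τ - th r ≤ t) (htT : t ≤ T) : 1 / 2 ≤ Y t := by
  have h0 : 0 ≤ τ - th r := by linarith [th_le hT]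
  have hr := hT.r_pos
  have h1 := deriv_le_const (f := Y) (c := 7680 * r) (a := τ - th r) (b := τ)
    (by linarith [th_pos hT]) fun x hx => by
      have hx' : x ∈ Icc 0 T := ⟨h0.trans hx.1, hx.2.trans hT.τ_le⟩
      exact ⟨_, hY.der x (hT.sub hx'), Yder_le hi hY hT hx'⟩
  have h2 : 7680 * r * (τ - (τ - th r)) = 1 / 2 := by
    unfold th
    field_simp
    norm_num
  rw [h2, hY.one] at h1
  have h3 := Ymono hi hY hT h0 ht htT
  linarith

theorem Y_le_two (hi : In f T τ r γ) (hY : LinY f Y T τ r γ ν a) (hT : Tm T τ r R γ ν) {t : ℝ}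
    (ht : t ∈ Icc 0 T) : Y t ≤ 2 := by
  have hτ := hT.τ_pos
  have hr := hT.r_pos
  have hR := hT.R_pos
  have h0 : Y t ≤ Y T := Ymono hi hY hT ht.1 ht.2 le_rfl
  have h1 := deriv_le_const (f := Y) (c := 7680 * r) (a := τ) (b := T) hT.τ_le fun x hx => by
      have hx' : x ∈ Icc 0 T := ⟨hτ.le.trans hx.1, hx.2⟩
      exact ⟨_, hY.der x (hT.sub hx'), Yder_le hi hY hT hx'⟩
  rw [hY.one] at h1
  have h2 : 7680 * r * (T - τ) ≤ 1 := by
    calc 7680 * r * (T - τ) ≤ 7680 * r * (2 / R) := by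
          have := hT.T_τ
          gcongr
      _ = 15360 * r / R := by ring
      _ ≤ 1 := by rw [div_le_one hR]; exact hT.R_ge
  linarith

theorem Y_le_af (hi : In f T τ r γ) (hY : LinY f Y T τ r γ ν a) (hT : Tm T τ r R γ ν) {t : ℝ}
    (ht : t ∈ Icc 0 T) : Y t ≤ 2 * (a * f t) := by
  have hγ := hT.γ_ge
  have ha := hY.a_pos.le
  have h1 := deriv_le_const (f := Y) (c := a * f t) (a := 0) (b := t) ht.1 fun x hx => by
      have hx' : x ∈ Icc 0 T := ⟨hx.1, hx.2.trans ht.2⟩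
      refine ⟨_, hY.der x (hT.sub hx'), ?_⟩
      have h2 := hi.mono (by linarith : (0 : ℝ) ≤ γ) hx.1 hx.2 ht.2
      have h3 : 0 ≤ ν * Y x := mul_nonneg hT.ν0 (hY.pos x hx').le
      have h4 : a * f x ≤ a * f t := mul_le_mul_of_nonneg_left h2 ha
      linarith
  have h0T : (0 : ℝ) ∈ Icc 0 T := ⟨le_rfl, hT.T_pos.le⟩
  have h2 := hi.mono (by linarith : (0 : ℝ) ≤ γ) le_rfl ht.1 ht.2
  have h3 := hY.init
  have h4 := (hY.pos 0 h0T).le
  have h5 : Y 0 ≤ a * f 0 := by
    rw [← h3]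
    have := hT.ν0
    nlinarith
  have h6 : a * f 0 ≤ a * f t := mul_le_mul_of_nonneg_left h2 ha
  have h7 : a * f t * (t - 0) ≤ a * f t * 1 := by
    apply mul_le_mul_of_nonneg_left _ (mul_nonneg ha (hi.pos ht).le)
    linarith [ht.2, hT.T_le]
  linarith

theorem XleZ (hh : Hat Y X Z T τ R γ e) (hY : LinY f Y T τ r γ ν a) (hT : Tm T τ r R γ ν) {t : ℝ}
    (ht : t ∈ Icc 0 T) : X t ≤ Z t := by
  have h1 := (hh.grow hY hT t ht).1
  have h2 := (hh.nonneg hY hT t ht).1
  have h3 := hT.γ_ge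
  have h4 : 0 ≤ γ * X t := by positivity
  have hR := hT.R_pos
  by_contra hcon
  push Not at hcon
  nlinarith

theorem Uder (hh : Hat Y X Z T τ R γ e) (hT : Tm T τ r R γ ν) {t : ℝ} (ht : t ∈ Icc 0 T) :
    HasDerivAt (fun s => 2 * X s + Z s)
      (2 * (R / 8 * (Z t - X t)) + (-(R / 8 * Z t) + (R * X t + e) * Y t)) t :=
  ((hh.derX t (hT.sub ht)).const_mul 2).add (hh.derZ t (hT.sub ht))

theorem Umono (hh : Hat Y X Z T τ R γ e) (hY : LinY f Y T τ r γ ν a) (hT : Tm T τ r R γ ν)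
    {s t : ℝ} (hs : 0 ≤ s) (hst : s ≤ t) (ht : t ≤ T) : 2 * X s + Z s ≤ 2 * X t + Z t :=
  le_of_deriv (f := fun s => 2 * X s + Z s) hst fun x hx => by
    have hx' : x ∈ Icc 0 T := ⟨hs.trans hx.1, hx.2.trans ht⟩
    refine ⟨_, Uder hh hT hx', ?_⟩
    obtain ⟨h1, h2⟩ := hh.grow hY hT x hx'
    obtain ⟨h3, h4⟩ := hh.nonneg hY hT x hx'
    have h5 := hT.γ_ge
    have h6 : 0 ≤ γ * X x := by positivity
    have h7 : 0 ≤ γ * Z x := by positivity
    linarith

/-- Growth when `Y ≥ 1/2`. -/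
theorem Ugrow (hi : In f T τ r γ) (hh : Hat Y X Z T τ R γ e) (hY : LinY f Y T τ r γ ν a)
    (hT : Tm T τ r R γ ν) {t : ℝ} (ht : τ - th r ≤ t) (htT : t ≤ T) :
    R / 8 * (2 * X t + Z t) + e / 2 ≤
      2 * (R / 8 * (Z t - X t)) + (-(R / 8 * Z t) + (R * X t + e) * Y t) := by
  have h0 : 0 ≤ τ - th r := by linarith [th_le hT]
  have hR := hT.R_pos
  have h1 := Y_ge_half hi hY hT ht htT
  obtain ⟨h2, h3⟩ := hh.nonneg hY hT t ⟨h0.trans ht, htT⟩
  have h4 := hh.e_pos
  have h5 : (R * X t + e) * (1 / 2) ≤ (R * X t + e) * Y t :=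
    mul_le_mul_of_nonneg_left h1 (by positivity)
  nlinarith [mul_nonneg hR.le h2, mul_nonneg hR.le h3]

theorem U_eps (hi : In f T τ r γ) (hh : Hat Y X Z T τ R γ e) (hY : LinY f Y T τ r γ ν a)
    (hT : Tm T τ r R γ ν) {t : ℝ} (ht : 0 ≤ t) (htT : t ≤ τ - th r) :
    2 * X t + Z t ≤ ep r R := by
  have h0 : 0 ≤ τ - th r := by linarith [th_le hT]
  have hr := hT.r_pos
  have hR := hT.R_pos
  have h1 := gron_lower (f := fun s => 2 * X s + Z s) (c := R / 8) (a := τ - th r) (b := τ)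
    (by linarith [th_pos hT]) fun x hx => by
      have hxT := hx.2.trans hT.τ_le
      refine ⟨_, Uder hh hT ⟨h0.trans hx.1, hxT⟩, ?_⟩
      have := Ugrow hi hh hY hT hx.1 hxT
      have := hh.e_pos
      linarith
  have h2 : R / 8 * (τ - (τ - th r)) = R / (122880 * r) := by
    unfold th
    field_simp
    norm_num
  rw [h2, hh.one] at h1
  have h3 := Umono hh hY hT ht htT (by linarith [th_pos hT, hT.τ_le])
  unfold ep
  rw [Real.exp_neg]
  have h4 := Real.exp_pos (R / (122880 * r))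
  rw [← div_eq_mul_inv]
  refine h3.trans ?_
  rw [le_div_iff₀ h4]
  exact h1

theorem e_le (hi : In f T τ r γ) (hh : Hat Y X Z T τ R γ e) (hY : LinY f Y T τ r γ ν a)
    (hT : Tm T τ r R γ ν) : e ≤ 3 * R * ep r R := by
  have h0 : 0 ≤ τ - th r := by linarith [th_le hT]
  have hr := hT.r_pos
  have hR := hT.R_pos
  have hRt := R_th hT
  have hR1 : 0 < 1 / R := by positivity
  have he := hh.e_pos
  have h1 := deriv_ge_const (f := fun s => 2 * X s + Z s) (c := e / 2) (a := τ - th r)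
    (b := τ - th r + 1 / R) (by linarith) fun x hx => by
      have hxT : x ≤ T := by linarith [hx.2, hT.τ_le]
      have hx0 := h0.trans hx.1
      refine ⟨_, Uder hh hT ⟨hx0, hxT⟩, ?_⟩
      have h2 := Ugrow hi hh hY hT hx.1 hxT
      obtain ⟨h3, h4⟩ := hh.nonneg hY hT x ⟨hx0, hxT⟩
      have : 0 ≤ R / 8 * (2 * X x + Z x) := by positivity
      linarith
  have h2 := gron_lower (f := fun s => 2 * X s + Z s) (c := R / 8) (a := τ - th r + 1 / R) (b := τ)
    (by linarith) fun x hx => by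
      have hxT := hx.2.trans hT.τ_le
      have hx1 : τ - th r ≤ x := by linarith [hx.1]
      refine ⟨_, Uder hh hT ⟨h0.trans hx1, hxT⟩, ?_⟩
      have := Ugrow hi hh hY hT hx1 hxT
      linarith
  have h3 : R / 8 * (τ - (τ - th r + 1 / R)) = R / (122880 * r) - 1 / 8 := by
    unfold th
    field_simp
    ring
  rw [h3, hh.one] at h2
  obtain ⟨h4, h5⟩ := hh.nonneg hY hT (τ - th r) ⟨h0, by linarith [th_pos hT, hT.τ_le]⟩
  have h6 : e / (2 * R) ≤ 2 * X (τ - th r + 1 / R) + Z (τ - th r + 1 / R) := by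
    have : e / 2 * (τ - th r + 1 / R - (τ - th r)) = e / (2 * R) := by
      field_simp
      ring
    linarith
  have h7 : e / (2 * R) * Real.exp (R / (122880 * r) - 1 / 8) ≤ 1 / 100 :=
    (mul_le_mul_of_nonneg_right h6 (Real.exp_pos _).le).trans h2
  rw [Real.exp_sub] at h7
  have h8 : Real.exp (1 / 8) ≤ 3 / 2 := by
    have h9 : Real.exp (1 / 8) ≤ Real.exp 1 ^ (1 / 8 : ℝ) := by
      rw [← Real.exp_mul]; norm_num
    have h10 : Real.exp (1 / 8) ^ 2 ≤ 3 / 2 := by
      rw [← Real.exp_nat_mul]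
      have := Real.exp_bound' (x := ((2 : ℕ) : ℝ) * (1 / 8)) (by norm_num) (by norm_num) (n := 3)
        (by norm_num)
      refine this.trans ?_
      norm_num [Finset.sum_range_succ, Nat.factorial]
    nlinarith [Real.exp_pos (1 / 8), Real.one_le_exp (show (0 : ℝ) ≤ 1 / 8 by norm_num)]
  unfold ep
  rw [Real.exp_neg]
  set E := Real.exp (R / (122880 * r)) with hE
  have hEp : 0 < E := Real.exp_pos _
  have h8p := Real.exp_pos (1 / 8)
  have h9 : e / (2 * R) * (E / Real.exp (1 / 8)) = e * E / (2 * R * Real.exp (1 / 8)) := by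
    field_simp
  rw [h9, div_le_iff₀ (by positivity)] at h7
  have h10 : 3 * R * (1 / 100 * E⁻¹) = 3 * R / 100 / E := by
    field_simp
  rw [h10, le_div_iff₀ hEp]
  nlinarith

theorem U_le (hi : In f T τ r γ) (hh : Hat Y X Z T τ R γ e) (hY : LinY f Y T τ r γ ν a)
    (hT : Tm T τ r R γ ν) (hε : 6 * ep r R ≤ 1 / 100) {t : ℝ} (ht : t ∈ Icc 0 T) :
    2 * X t + Z t ≤ 3 / 20 := by
  have hr := hT.r_pos
  have hR := hT.R_pos
  have he := e_le hi hh hY hT
  have hep := hh.e_pos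
  refine (Umono hh hY hT ht.1 ht.2 le_rfl).trans ?_
  have h1 := gron_upper (f := fun s => 2 * X s + Z s + 2 * e / R) (c := R) (a := τ) (b := T)
    hT.τ_le fun x hx => by
      have hx' : x ∈ Icc 0 T := ⟨hT.τ_pos.le.trans hx.1, hx.2⟩
      refine ⟨_, (Uder hh hT hx').add_const (2 * e / R), ?_⟩
      have h2 := Y_le_two hi hY hT hx'
      obtain ⟨h3, h4⟩ := hh.nonneg hY hT x hx'
      have h5 : (R * X x + e) * Y x ≤ (R * X x + e) * 2 :=
        mul_le_mul_of_nonneg_left h2 (by positivity)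
      have h6 : R * (2 * e / R) = 2 * e := by field_simp
      nlinarith [mul_nonneg hR.le h3, mul_nonneg hR.le h4]
  rw [hh.one] at h1
  have h2 : 2 * e / R ≤ 1 / 100 := by
    rw [div_le_iff₀ hR]
    nlinarith
  have h3 : 0 < 2 * e / R := by positivity
  have h4 : R * (T - τ) ≤ 2 := by
    have := hT.T_τ
    calc R * (T - τ) ≤ R * (2 / R) := by gcongr
      _ = 2 := by field_simp
  have h5 : Real.exp (R * (T - τ)) ≤ Real.exp 2 := Real.exp_le_exp.2 h4
  have h6 : Real.exp 2 ≤ 7.4 := by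
    have h7 : Real.exp 2 = Real.exp 1 ^ 2 := by
      rw [← Real.exp_nat_mul]; norm_num
    rw [h7]
    have h8 := Real.exp_one_lt_d9
    have h9 := Real.exp_pos 1
    nlinarith
  have h7 : (1 / 100 + 2 * e / R) * Real.exp (R * (T - τ)) ≤ (1 / 100 + 1 / 100) * 7.4 :=
    mul_le_mul (by linarith) (h5.trans h6) (Real.exp_pos _).le (by norm_num)
  linarith

theorem early (hi : In f T τ r γ) (hh : Hat Y X Z T τ R γ e) (hY : LinY f Y T τ r γ ν a)
    (hT : Tm T τ r R γ ν) {t : ℝ} (ht : 0 ≤ t) (htT : t ≤ τ - th r) :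
    R * (X t * Z t) ≤ 48 * R * ep r R ^ 2 * Y t := by
  have hr := hT.r_pos
  have hR := hT.R_pos
  have hγ := hT.γ_ge
  have he := e_le hi hh hY hT
  have hep := hh.e_pos
  have hεp := ep_pos r R
  have htT' : t ≤ T := by linarith [th_pos hT, hT.τ_le]
  have ht' : t ∈ Icc 0 T := ⟨ht, htT'⟩
  have hU := U_eps hi hh hY hT ht htT
  obtain ⟨hX, hZ⟩ := hh.nonneg hY hT t ht'
  have hYp := hY.pos t ht'
  rcases le_total (Y t) (1 / 16) with h | h
  · set b : ℝ := 16 * e / R with hb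
    have hbp : 0 < b := by positivity
    have hbR : R * b = 16 * e := by rw [hb]; field_simp
    have key := coop (p := fun s => b * Y s - X s) (q := fun s => b * Y s - Z s) (A := R / 8)
      (c := fun s => R * Y s) (C := R * 2) (t₀ := 0) (t₁ := t) (by positivity)
      (fun s hs => by
        have hs' : s ∈ Icc 0 T := ⟨hs.1, hs.2.trans htT'⟩
        exact ⟨mul_nonneg hR.le (hY.pos s hs').le,
          mul_le_mul_of_nonneg_left (Y_le_two hi hY hT hs') hR.le⟩)
      (fun s hs => by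
        have hs' : s ∈ Icc 0 T := ⟨hs.1, hs.2.trans htT'⟩
        refine ⟨_, ((hY.der s (hT.sub hs')).const_mul b).sub (hh.derX s (hT.sub hs')), ?_⟩
        have h1 := hY.grow s hs'
        have h2 : 0 ≤ γ * Y s := mul_nonneg (by linarith) (hY.pos s hs').le
        have h3 : 0 ≤ b * (-ν * Y s + a * f s) := mul_nonneg hbp.le (by linarith)
        nlinarith)
      (fun s hs => by
        have hs' : s ∈ Icc 0 T := ⟨hs.1, hs.2.trans htT'⟩
        refine ⟨_, ((hY.der s (hT.sub hs')).const_mul b).sub (hh.derZ s (hT.sub hs')), ?_⟩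
        have h1 := hY.grow s hs'
        have h0 := (hY.pos s hs').le
        have h2 : 0 ≤ γ * Y s := mul_nonneg (by linarith) h0
        have h3 : 0 ≤ b * (-ν * Y s + a * f s) := mul_nonneg hbp.le (by linarith)
        have h4 : Y s ≤ 1 / 16 := (Ymono hi hY hT hs.1 hs.2 htT').trans h
        have h5 : 0 ≤ (1 / 16 - Y s) * (e * Y s) := mul_nonneg (by linarith) (by positivity)
        have h6 : R * b * Y s = 16 * e * Y s := by rw [hbR]
        have h7 : R * b * Y s * Y s = 16 * e * Y s * Y s := by rw [hbR]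
        nlinarith)
      (by
        have h0T : (0 : ℝ) ∈ Icc 0 T := ⟨le_rfl, hT.T_pos.le⟩
        have h1 := hh.initZ
        have h2 := XleZ hh hY hT h0T
        have h3 := (hY.pos 0 h0T).le
        obtain ⟨h4, h5⟩ := hh.nonneg hY hT 0 h0T
        have h6 : R * (b * Y 0) = 16 * (e * Y 0) := by rw [← mul_assoc, hbR]; ring
        have h7 : 0 ≤ e * Y 0 := by positivity
        have h8 : 0 ≤ γ * Z 0 := by positivity
        have h9 : R * Z 0 ≤ R * (b * Y 0) := by nlinarith
        have := le_of_mul_le_mul_left h9 hR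
        linarith)
      (by
        have h0T : (0 : ℝ) ∈ Icc 0 T := ⟨le_rfl, hT.T_pos.le⟩
        have h1 := hh.initZ
        have h3 := (hY.pos 0 h0T).le
        obtain ⟨h4, h5⟩ := hh.nonneg hY hT 0 h0T
        have h6 : R * (b * Y 0) = 16 * (e * Y 0) := by rw [← mul_assoc, hbR]; ring
        have h7 : 0 ≤ e * Y 0 := by positivity
        have h8 : 0 ≤ γ * Z 0 := by positivity
        have h9 : R * Z 0 ≤ R * (b * Y 0) := by nlinarith
        have := le_of_mul_le_mul_left h9 hR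
        linarith)
    have h1 := (key t ⟨ht, le_rfl⟩).1
    have h2 : Z t ≤ ep r R := by linarith
    calc R * (X t * Z t) ≤ R * (b * Y t * ep r R) := by
          have : X t ≤ b * Y t := by linarith
          gcongr
      _ = 16 * e * Y t * ep r R := by
          have : R * (b * Y t * ep r R) = R * b * Y t * ep r R := by ring
          rw [this, hbR]
      _ ≤ 16 * (3 * R * ep r R) * Y t * ep r R := by gcongr
      _ = _ := by ring
  · have h1 : X t * Z t ≤ ep r R ^ 2 := by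
      have h2 : Z t ≤ ep r R := by linarith
      have h3 : X t ≤ ep r R := by linarith
      rw [sq]
      exact mul_le_mul h3 h2 hZ hεp.le
    calc R * (X t * Z t) ≤ R * ep r R ^ 2 := by gcongr
      _ = 16 * R * ep r R ^ 2 * (1 / 16) := by ring
      _ ≤ 16 * R * ep r R ^ 2 * Y t := by gcongr
      _ ≤ _ := by
        gcongr
        norm_num

end

end Pool.Agent.H306.DS
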