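import Pool.Agent.H306.DS.Pars

/-! Sobolev norms of smooth fields. -/

noncomputable section

namespace Pool.Agent.H306.DS

open Set MeasureTheory Filter

open scoped Real ContDiff ENNReal ComplexConjugate

open Pool.Agent.H306.CK

theorem W_one_le (k : Fin 3 → ℤ) : (1 : ℝ) ≤ 1 + ∑ j, (k j : ℝ) ^ 2 := by
  have : 0 ≤ ∑ j, (k j : ℝ) ^ 2 := Finset.sum_nonneg fun j _ => sq_nonneg _
  linarith

theorem W_mono {s t : ℝ} (h : s ≤ t) (k : Fin 3 → ℤ) : W s k ≤ W t k :=
  Real.rpow_le_rpow_of_exponent_le (W_one_le k) h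

theorem W_zero (k : Fin 3 → ℤ) : W 0 k = 1 := Real.rpow_zero _

theorem W_one (k : Fin 3 → ℤ) : W 1 k = 1 + ∑ j, (k j : ℝ) ^ 2 := Real.rpow_one _

theorem hs_def (s : ℝ) (v : V → V) : hs s v = ∑' k, ENNReal.ofReal (W s k *
    ∑ i, ‖fc (fun x => v x i) k‖ ^ 2) := rfl

theorem hs_mono {s t : ℝ} (h : s ≤ t) (v : V → V) : hs s v ≤ hs t v := by
  rw [hs_def, hs_def]
  refine ENNReal.tsum_le_tsum fun k => ENNReal.ofReal_le_ofReal ?_
  exact mul_le_mul_of_nonneg_right (W_mono h k) (Finset.sum_nonneg fun i _ => sq_nonneg _)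

theorem fc_smul (c : ℝ) (f : V → ℝ) (k : Fin 3 → ℤ) : fc (fun x => c * f x) k = c * fc f k := by
  rw [fc_eq, fc_eq, ← fcC_smul]
  congr 1
  ext x
  push_cast
  rfl

theorem fc_add {f g : V → ℝ} (hf : Continuous f) (hg : Continuous g) (k : Fin 3 → ℤ) :
    fc (fun x => f x + g x) k = fc f k + fc g k := by
  rw [fc_eq, fc_eq, fc_eq]
  have h := fcC_add (f := fun x => (f x : ℂ)) (g := fun x => (g x : ℂ))
    (Complex.continuous_ofReal.comp hf) (Complex.continuous_ofReal.comp hg) k
  rw [← h]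
  congr 1
  ext x
  push_cast
  rfl

theorem hs_smul (s c : ℝ) (v : V → V) :
    hs s (fun x i => c * v x i) = ENNReal.ofReal (c ^ 2) * hs s v := by
  rw [hs_def, hs_def, ← ENNReal.tsum_mul_left]
  refine tsum_congr fun k => ?_
  rw [← ENNReal.ofReal_mul (sq_nonneg c)]
  congr 1
  simp only [fc_smul, norm_mul, mul_pow, Complex.norm_real, Real.norm_eq_abs, sq_abs]
  rw [← Finset.mul_sum]
  ring

/-- A convenient criterion. -/
theorem sq_le_of_forall {x A B : ℝ} (hA : 0 ≤ A) (hB : 0 ≤ B) (hx : 0 ≤ x)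
    (h : ∀ l : ℝ, 0 < l → 2 * x ≤ l * A + B / l) : x ^ 2 ≤ A * B := by
  rcases hA.eq_or_lt with hA0 | hA0
  · -- `A = 0`
    rw [← hA0, zero_mul]
    rcases hx.eq_or_lt with hx0 | hx0
    · rw [← hx0]; norm_num
    · have h1 := h ((B + 1) / x) (by positivity)
      rw [← hA0, mul_zero, zero_add, div_div_eq_mul_div, le_div_iff₀ (by positivity)] at h1
      nlinarith
  · rcases hx.eq_or_lt with hx0 | hx0
    · rw [← hx0]; nlinarith [mul_nonneg hA hB]
    · have h2 := h (x / A) (by positivity)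
      have h3 : x / A * A = x := by field_simp
      rw [h3, div_div_eq_mul_div] at h2
      have h4 : x ≤ B * A / x := by linarith
      rw [le_div_iff₀ hx0] at h4
      nlinarith

theorem pairing {v w : V → V} (hv : CP v) (hw : CP w) {s H₁ H₂ : ℝ} (h1 : 0 ≤ H₁) (h2 : 0 ≤ H₂)
    (hv' : hs (-s) v ≤ ENNReal.ofReal H₁) (hw' : hs s w ≤ ENNReal.ofReal H₂) :
    inner3 v w ^ 2 ≤ H₁ * H₂ := by
  have hpi := Real.pi_pos
  have hpi1 : (1 : ℝ) ≤ (2 * π) ^ 3 := one_le_pow₀ (by linarith [Real.pi_gt_three])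
  -- summability
  have sm : ∀ {t : ℝ} {u : V → V} {H : ℝ}, hs t u ≤ ENNReal.ofReal H →
      Summable (fun k => W t k * ∑ i, ‖fc (fun x => u x i) k‖ ^ 2) := by
    intro t u H hu
    have h3 : ∑' k, ENNReal.ofReal (W t k * ∑ i, ‖fc (fun x => u x i) k‖ ^ 2) ≠ ⊤ := by
      rw [← hs_def]
      exact ne_top_of_le_ne_top ENNReal.ofReal_ne_top hu
    have h4 := ENNReal.summable_toReal h3
    refine h4.congr fun k => ?_
    rw [ENNReal.toReal_ofReal (mul_nonneg (W_pos t k).le
      (Finset.sum_nonneg fun i _ => sq_nonneg _))]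
  have ts : ∀ {t : ℝ} {u : V → V} {H : ℝ}, 0 ≤ H → hs t u ≤ ENNReal.ofReal H →
      ∑' k, W t k * ∑ i, ‖fc (fun x => u x i) k‖ ^ 2 ≤ H := by
    intro t u H hH hu
    rw [hs_def, ← ENNReal.ofReal_tsum_of_nonneg (fun k => mul_nonneg (W_pos t k).le
      (Finset.sum_nonneg fun i _ => sq_nonneg _)) (sm (by rw [hs_def]; exact hu))] at hu
    exact (ENNReal.ofReal_le_ofReal_iff hH).1 hu
  have s1 := sm hv'
  have s2 := sm hw'
  have t1 := ts h1 hv'
  have t2 := ts h2 hw'
  have key : ∀ l : ℝ, 0 < l → 2 * |inner3 v w| ≤ l * H₁ + H₂ / l := by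
    intro l hl
    have p := fun i => parseval (hv.comp_continuous i) (hw.comp_continuous i)
    have p' : HasSum (fun k => ∑ i, conj (fc (fun x => v x i) k) * fc (fun x => w x i) k)
        (∑ i, (((2 * π) ^ 3 * ∫ x in torus, v x i * w x i : ℝ) : ℂ)) :=
      hasSum_sum fun i _ => p i
    have e1 : (∑ i, (((2 * π) ^ 3 * ∫ x in torus, v x i * w x i : ℝ) : ℂ)) =
        (((2 * π) ^ 3 * inner3 v w : ℝ) : ℂ) := by
      rw [← Complex.ofReal_sum]
      congr 1
      unfold inner3
      rw [integral_finsetSum (f := fun (i : Fin 3) (x : V) => v x i * w x i) _ fun i _ =>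
        cont_int ((hv.comp_continuous i).mul (hw.comp_continuous i)), Finset.mul_sum]
    rw [e1] at p'
    have hpt : ∀ k, ‖∑ i, conj (fc (fun x => v x i) k) * fc (fun x => w x i) k‖ ≤
        (l / 2) * (W (-s) k * ∑ i, ‖fc (fun x => v x i) k‖ ^ 2) +
        (1 / (2 * l)) * (W s k * ∑ i, ‖fc (fun x => w x i) k‖ ^ 2) := by
      intro k
      refine (norm_sum_le _ _).trans ?_
      rw [Finset.mul_sum, Finset.mul_sum, Finset.mul_sum, Finset.mul_sum, ← Finset.sum_add_distrib]
      refine Finset.sum_le_sum fun i _ => ?_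
      rw [norm_mul, RCLike.norm_conj]
      set a := ‖fc (fun x => v x i) k‖
      set b := ‖fc (fun x => w x i) k‖
      have hW : W (-s) k * W s k = 1 := by
        rw [← W_add, neg_add_cancel, W_zero]
      have hW1 := W_pos (-s) k
      have hW2 := W_pos s k
      have h3 : 0 ≤ (l * W (-s) k * a - b) ^ 2 := sq_nonneg _
      have h4 : l / 2 * (W (-s) k * a ^ 2) + 1 / (2 * l) * (W s k * b ^ 2) - a * b =
          (1 / (2 * l)) * W s k * ((l * W (-s) k * a - b) ^ 2) := by
        field_simp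
        have h5 : W s k * W (-s) k = 1 := by rw [mul_comm]; exact hW
        linear_combination (-(l ^ 2 * a ^ 2 * W (-s) k) + 2 * l * a * b) * h5
      have h5 : 0 ≤ (1 / (2 * l)) * W s k * ((l * W (-s) k * a - b) ^ 2) := by positivity
      linarith
    have hsm := (s1.mul_left (l / 2)).add (s2.mul_left (1 / (2 * l)))
    have h3 : ‖(((2 * π) ^ 3 * inner3 v w : ℝ) : ℂ)‖ ≤ l / 2 * H₁ + 1 / (2 * l) * H₂ := by
      rw [← p'.tsum_eq]
      have h4 : Summable fun k => ‖∑ i, conj (fc (fun x => v x i) k) * fc (fun x => w x i) k‖ :=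
        Summable.of_nonneg_of_le (fun k => norm_nonneg _) hpt hsm
      refine (norm_tsum_le_tsum_norm h4).trans ((h4.tsum_le_tsum hpt hsm).trans ?_)
      rw [(s1.mul_left (l / 2)).tsum_add (s2.mul_left (1 / (2 * l))), tsum_mul_left, tsum_mul_left]
      gcongr
    rw [Complex.norm_real, Real.norm_eq_abs, abs_mul, abs_of_pos (by positivity)] at h3
    have h4 : |inner3 v w| ≤ (2 * π) ^ 3 * |inner3 v w| := by
      nlinarith [abs_nonneg (inner3 v w)]
    have h5 : 2 * (l / 2 * H₁ + 1 / (2 * l) * H₂) = l * H₁ + H₂ / l := by field_simp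
    linarith
  have := sq_le_of_forall h1 h2 (abs_nonneg _) key
  rwa [sq_abs] at this

/-- The function `k · x`. -/
def kx (k : Fin 3 → ℤ) (x : V) : ℝ := ∑ j, (k j : ℝ) * x j

theorem kx_contDiff (k : Fin 3 → ℤ) : ContDiff ℝ ∞ (kx k) := by
  unfold kx
  fun_prop

theorem kx_per (k : Fin 3 → ℤ) (i : Fin 3) (x : V) :
    kx k (x + Pi.single i (2 * π)) = kx k x + (k i : ℝ) * (2 * π) := by
  unfold kx
  have h : ∀ j, (k j : ℝ) * (x + Pi.single i (2 * π) : V) j =
      (k j : ℝ) * x j + if j = i then (k i : ℝ) * (2 * π) else 0 := by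
    intro j
    simp only [Pi.add_apply, Pi.single_apply]
    split_ifs with hj
    · subst hj; ring
    · ring
  simp only [h]
  rw [Finset.sum_add_distrib]
  simp

theorem kx_pd (k : Fin 3 → ℤ) (j : Fin 3) (x : V) :
    HasDerivAt (fun s : ℝ => kx k (x + s • (Pi.single j (1 : ℝ) : V))) (k j : ℝ) 0 := by
  have h : (fun s : ℝ => kx k (x + s • (Pi.single j (1 : ℝ) : V))) =
      fun s => kx k x + (k j : ℝ) * s := by
    ext s
    unfold kx
    have h : ∀ l, (k l : ℝ) * (x + s • (Pi.single j (1 : ℝ) : V)) l =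
        (k l : ℝ) * x l + if l = j then (k j : ℝ) * s else 0 := by
      intro l
      simp only [Pi.add_apply, Pi.smul_apply, Pi.single_apply, smul_eq_mul]
      split_ifs with hj
      · subst hj; ring
      · ring
    simp only [h]
    rw [Finset.sum_add_distrib]
    simp
  rw [h]
  have := ((hasDerivAt_id (0 : ℝ)).const_mul (k j : ℝ)).const_add (kx k x)
  simpa using this

theorem pd_cos (k : Fin 3 → ℤ) (j : Fin 3) (x : V) :
    pd j (fun y => Real.cos (kx k y)) x = -(k j : ℝ) * Real.sin (kx k x) := by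
  have hc : ContDiff ℝ ∞ (fun y => Real.cos (kx k y)) := Real.contDiff_cos.comp (kx_contDiff k)
  refine pd_of_line ((hc.differentiable (by simp)) x) ?_
  have h := (kx_pd k j x).cos
  refine h.congr_deriv ?_
  simp only [zero_smul, add_zero]
  ring

theorem pd_sin (k : Fin 3 → ℤ) (j : Fin 3) (x : V) :
    pd j (fun y => Real.sin (kx k y)) x = (k j : ℝ) * Real.cos (kx k x) := by
  have hc : ContDiff ℝ ∞ (fun y => Real.sin (kx k y)) := Real.contDiff_sin.comp (kx_contDiff k)
  refine pd_of_line ((hc.differentiable (by simp)) x) ?_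
  have h := (kx_pd k j x).sin
  refine h.congr_deriv ?_
  simp only [zero_smul, add_zero]
  ring

/-- Integration by parts. -/
theorem int_pd {f : V → ℝ} (hf : ContDiff ℝ 1 f) (hper : Periodic3 f) (j : Fin 3) :
    ∫ x in torus, pd j f x = 0 := by
  have h := div_int (F := fun x => Pi.single j (f x)) (by
    refine contDiff_pi.2 fun i => ?_
    by_cases hij : i = j
    · subst hij; simpa using hf
    · simp [hij, contDiff_const]) (fun i x => by simp only; rw [hper])
  rw [← h]
  congr 1
  ext x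
  rw [Finset.sum_eq_single j]
  · simp
  · intro i _ hij
    have : (fun y : V => (Pi.single j (f y) : V) i) = fun _ => (0 : ℝ) := by
      ext y; simp [hij]
    rw [this]
    simp [pd]
  · intro h; exact absurd (Finset.mem_univ j) h

theorem fc_parts (f : V → ℝ) (hf : Continuous f) (k : Fin 3 → ℤ) : fc f k =
    ((∫ x in torus, f x * Real.cos (kx k x) : ℝ) : ℂ) -
      Complex.I * ((∫ x in torus, f x * Real.sin (kx k x) : ℝ) : ℂ) := by
  have hc : Continuous fun x => Real.cos (kx k x) := Real.continuous_cos.comp (kx_contDiff k).continuous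
  have hs : Continuous fun x => Real.sin (kx k x) := Real.continuous_sin.comp (kx_contDiff k).continuous
  rw [← integral_complex_ofReal, ← integral_complex_ofReal, ← integral_const_mul, ← integral_sub]
  · unfold fc
    congr 1
    ext x
    have h1 : Complex.exp (-(Complex.I * ((∑ j, (k j : ℝ) * x j : ℝ) : ℂ))) =
        Complex.cos (kx k x) - Complex.I * Complex.sin (kx k x) := by
      have h2 : -(Complex.I * ((∑ j, (k j : ℝ) * x j : ℝ) : ℂ)) =
          (-(kx k x : ℂ)) * Complex.I := by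
        unfold kx; ring
      rw [h2, Complex.exp_mul_I, Complex.cos_neg, Complex.sin_neg]
      ring
    rw [h1]
    push_cast
    ring
  · exact cont_intC (Complex.continuous_ofReal.comp (hf.mul hc))
  · exact (cont_intC (Complex.continuous_ofReal.comp (hf.mul hs))).const_mul _

theorem fc_pd {f : V → ℝ} (hf : ContDiff ℝ 1 f) (hper : Periodic3 f) (j : Fin 3)
    (k : Fin 3 → ℤ) : fc (pd j f) k = Complex.I * (k j : ℂ) * fc f k := by
  have c1 : ContDiff ℝ 1 (fun y => Real.cos (kx k y)) :=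
    (Real.contDiff_cos.comp (kx_contDiff k)).of_le (by exact_mod_cast le_top)
  have c2 : ContDiff ℝ 1 (fun y => Real.sin (kx k y)) :=
    (Real.contDiff_sin.comp (kx_contDiff k)).of_le (by exact_mod_cast le_top)
  have hpc : ∀ i x, Real.cos (kx k (x + Pi.single i (2 * π))) = Real.cos (kx k x) := by
    intro i x
    rw [kx_per, Real.cos_add_int_mul_two_pi]
  have hps : ∀ i x, Real.sin (kx k (x + Pi.single i (2 * π))) = Real.sin (kx k x) := by
    intro i x
    rw [kx_per, Real.sin_add_int_mul_two_pi]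
  have i1 := int_pd (f := fun y => f y * Real.cos (kx k y)) (hf.mul c1)
    (fun i x => by simp only; rw [hper, hpc]) j
  have i2 := int_pd (f := fun y => f y * Real.sin (kx k y)) (hf.mul c2)
    (fun i x => by simp only; rw [hper, hps]) j
  have e1 : ∀ x, pd j (fun y => f y * Real.cos (kx k y)) x =
      pd j f x * Real.cos (kx k x) - (k j : ℝ) * (f x * Real.sin (kx k x)) := by
    intro x
    rw [pd_mul hf c1, pd_cos]
    ring
  have e2 : ∀ x, pd j (fun y => f y * Real.sin (kx k y)) x =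
      pd j f x * Real.sin (kx k x) + (k j : ℝ) * (f x * Real.cos (kx k x)) := by
    intro x
    rw [pd_mul hf c2, pd_sin]
    ring
  simp only [e1] at i1
  simp only [e2] at i2
  have hfc := hf.continuous
  have hpf := pd_continuous hf j
  rw [integral_sub (f := fun x => pd j f x * Real.cos (kx k x))
    (g := fun x => (k j : ℝ) * (f x * Real.sin (kx k x))) (cont_int (hpf.mul c1.continuous))
    ((cont_int (hfc.mul c2.continuous)).const_mul _), integral_const_mul] at i1
  rw [integral_add (f := fun x => pd j f x * Real.sin (kx k x))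
    (g := fun x => (k j : ℝ) * (f x * Real.cos (kx k x))) (cont_int (hpf.mul c2.continuous))
    ((cont_int (hfc.mul c1.continuous)).const_mul _), integral_const_mul] at i2
  rw [fc_parts _ hpf, fc_parts _ hfc]
  have j1 : ∫ x in torus, pd j f x * Real.cos (kx k x) =
      (k j : ℝ) * ∫ x in torus, f x * Real.sin (kx k x) := by linarith
  have j2 : ∫ x in torus, pd j f x * Real.sin (kx k x) =
      -((k j : ℝ) * ∫ x in torus, f x * Real.cos (kx k x)) := by linarith
  rw [j1, j2]
  push_cast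
  linear_combination (((k j : ℂ) * ((∫ x in torus, f x * Real.sin (kx k x) : ℝ) : ℂ))) *
    Complex.I_mul_I

end Pool.Agent.H306.DS
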