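import Pool.Agent.H306.DS.Hs

/-! Smooth fields and the operator `1 - Δ`. -/

noncomputable section

namespace Pool.Agent.H306.DS

open Set MeasureTheory Filter

open scoped Real ContDiff ENNReal ComplexConjugate

open Pool.Agent.H306.CK

/-- Smooth periodic functions. -/
def SPf (f : V → ℝ) : Prop := ContDiff ℝ ∞ f ∧ Periodic3 f

/-- Smooth periodic fields. -/
def SP (v : V → V) : Prop := ContDiff ℝ ∞ v ∧ Periodic3 v

/-- Smooth periodic divergence-free fields. -/
def SF (v : V → V) : Prop :=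
  ContDiff ℝ ∞ v ∧ Periodic3 v ∧ ∀ x, ∑ i, pd i (fun y => v y i) x = 0

theorem SF.sp {v : V → V} (h : SF v) : SP v := ⟨h.1, h.2.1⟩

theorem SP.cp {v : V → V} (h : SP v) : CP v := ⟨h.1.continuous, h.2⟩

theorem SF.cp {v : V → V} (h : SF v) : CP v := h.sp.cp

theorem SP.comp {v : V → V} (h : SP v) (i : Fin 3) : SPf (fun x => v x i) :=
  ⟨contDiff_pi.1 h.1 i, fun j x => by simp only; rw [h.2 j x]⟩

theorem SPf.c1 {f : V → ℝ} (h : SPf f) : ContDiff ℝ 1 f := h.1.of_le (by exact_mod_cast le_top)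

theorem SPf.cont {f : V → ℝ} (h : SPf f) : Continuous f := h.1.continuous

theorem pd_contDiff {f : V → ℝ} (h : ContDiff ℝ ∞ f) (j : Fin 3) : ContDiff ℝ ∞ (pd j f) := by
  unfold pd
  exact (h.fderiv_right (m := ∞) (by simp)).clm_apply contDiff_const

theorem pd_per {f : V → ℝ} (hf : Periodic3 f) (j : Fin 3) : Periodic3 (pd j f) := by
  intro i x
  unfold pd
  have h1 : (fun y => f (y + Pi.single i (2 * π))) = f := by
    ext y; exact hf i y
  have h2 := fderiv_comp_add_right (𝕜 := ℝ) (f := f) (x := x) (Pi.single i (2 * π))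
  rw [h1] at h2
  rw [h2]

theorem SPf.pd {f : V → ℝ} (h : SPf f) (j : Fin 3) : SPf (pd j f) :=
  ⟨pd_contDiff h.1 j, pd_per h.2 j⟩

theorem pd_comm {f : V → ℝ} (hf : ContDiff ℝ ∞ f) (i j : Fin 3) (x : V) :
    pd i (pd j f) x = pd j (pd i f) x := by
  have h2 : ∀ (a b : Fin 3), CK.pd a (CK.pd b f) x =
      fderiv ℝ (fderiv ℝ f) x (Pi.single a 1) (Pi.single b 1) := by
    intro a b
    have h3 : DifferentiableAt ℝ (fderiv ℝ f) x :=
      ((hf.fderiv_right (m := ∞) (by simp)).differentiable (by simp)) x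
    have h4 : HasFDerivAt (CK.pd b f) ((fderiv ℝ (fderiv ℝ f) x).flip (Pi.single b 1)) x := by
      have := h3.hasFDerivAt.clm_apply (hasFDerivAt_const (Pi.single b (1 : ℝ) : V) x)
      refine this.congr_fderiv ?_
      ext w
      simp
    change fderiv ℝ (CK.pd b f) x (Pi.single a 1) = _
    rw [h4.fderiv]
    rfl
  rw [h2, h2]
  have h5 : IsSymmSndFDerivAt ℝ f x := (hf.contDiffAt (x := x)).isSymmSndFDerivAt (by
    simp only [minSmoothness_of_isRCLikeNormedField]
    exact WithTop.coe_le_coe.2 (le_top : (2 : ℕ∞) ≤ ⊤))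
  exact h5 _ _

/-- The operator `1 - Δ` on functions. -/
def lapA (f : V → ℝ) (x : V) : ℝ := f x - ∑ j, pd j (pd j f) x

/-- The operator `1 - Δ` on fields. -/
def AA (v : V → V) (x : V) : V := fun i => lapA (fun y => v y i) x

theorem lapA_spf {f : V → ℝ} (h : SPf f) : SPf (lapA f) := by
  constructor
  · exact h.1.sub (ContDiff.sum fun j _ => ((h.pd j).pd j).1)
  · intro i x
    unfold lapA
    rw [h.2 i x]
    congr 1
    exact Finset.sum_congr rfl fun j _ => ((h.pd j).pd j).2 i x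

theorem fc_sum {f : Fin 3 → V → ℝ} (hf : ∀ i, Continuous (f i)) (k : Fin 3 → ℤ) :
    fc (fun x => ∑ i, f i x) k = ∑ i, fc (f i) k := by
  simp only [Fin.sum_univ_three]
  rw [fc_add (f := fun x => f 0 x + f 1 x) ((hf 0).add (hf 1)) (hf 2), fc_add (hf 0) (hf 1)]

theorem fc_neg (f : V → ℝ) (k : Fin 3 → ℤ) : fc (fun x => -f x) k = -fc f k := by
  have h := fc_smul (-1) f k
  simpa using h

theorem fc_lapA {f : V → ℝ} (h : SPf f) (k : Fin 3 → ℤ) :
    fc (lapA f) k = ((1 + ∑ j, (k j : ℝ) ^ 2 : ℝ) : ℂ) * fc f k := by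
  have e1 : lapA f = fun x => f x + -(∑ j, CK.pd j (CK.pd j f) x) := by
    ext x; unfold lapA; ring
  rw [e1, fc_add (g := fun x => -(∑ j, CK.pd j (CK.pd j f) x)) h.cont
    (continuous_finsetSum _ fun j _ => ((h.pd j).pd j).cont).neg, fc_neg,
    fc_sum fun j => ((h.pd j).pd j).cont]
  have e2 : ∀ j, fc (CK.pd j (CK.pd j f)) k = -((k j : ℂ) ^ 2 * fc f k) := by
    intro j
    rw [fc_pd (h.pd j).c1 (h.pd j).2, fc_pd h.c1 h.2]
    linear_combination ((k j : ℂ) ^ 2 * fc f k) * Complex.I_mul_I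
  simp only [e2]
  push_cast
  rw [Finset.sum_neg_distrib, ← Finset.sum_mul]
  ring

theorem AA_sp {v : V → V} (h : SP v) : SP (AA v) := by
  constructor
  · exact contDiff_pi.2 fun i => (lapA_spf (h.comp i)).1
  · intro j x
    ext i
    exact (lapA_spf (h.comp i)).2 j x

theorem pd_lapA {f : V → ℝ} (h : SPf f) (i : Fin 3) : pd i (lapA f) = lapA (pd i f) := by
  ext x
  have e1 : CK.pd i (lapA f) x = CK.pd i f x - ∑ j, CK.pd i (CK.pd j (CK.pd j f)) x := by
    have h1 := pd_sub (f := f) (g := fun y => ∑ j, CK.pd j (CK.pd j f) y) h.c1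
      ((ContDiff.sum fun j _ => ((h.pd j).pd j).c1)) i x
    have h2 := pd_sum (f := fun j => CK.pd j (CK.pd j f)) (fun j => ((h.pd j).pd j).c1) i x
    rw [← h2]
    exact h1
  rw [e1]
  unfold lapA
  congr 1
  refine Finset.sum_congr rfl fun j _ => ?_
  rw [pd_comm (h.pd j).1]
  have : CK.pd i (CK.pd j f) = CK.pd j (CK.pd i f) := by
    ext y; exact pd_comm h.1 i j y
  rw [this]

theorem AA_sf {v : V → V} (h : SF v) : SF (AA v) := by
  refine ⟨(AA_sp h.sp).1, (AA_sp h.sp).2, fun x => ?_⟩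
  have e1 : ∀ i, CK.pd i (fun y => AA v y i) = lapA (CK.pd i (fun y => v y i)) := fun i =>
    pd_lapA (h.sp.comp i) i
  simp only [e1]
  have e2 : ∑ i, lapA (CK.pd i (fun y => v y i)) x =
      lapA (fun y => ∑ i, CK.pd i (fun z => v z i) y) x := by
    unfold lapA
    rw [Finset.sum_sub_distrib]
    congr 1
    rw [Finset.sum_comm]
    refine Finset.sum_congr rfl fun j _ => ?_
    have h1 : (CK.pd j fun y => ∑ i, CK.pd i (fun z => v z i) y) =
        fun y => ∑ i, CK.pd j (CK.pd i (fun z => v z i)) y := by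
      ext y
      exact pd_sum (fun i => ((h.sp.comp i).pd i).c1) j y
    rw [h1]
    exact (pd_sum (fun i => (((h.sp.comp i).pd i).pd j).c1) j x).symm
  rw [e2]
  have e3 : (fun y => ∑ i, CK.pd i (fun z => v z i) y) = fun _ => (0 : ℝ) := by
    ext y; exact h.2.2 y
  rw [e3]
  have e4 : ∀ j, CK.pd j (fun _ : V => (0 : ℝ)) = fun _ => 0 := by
    intro j; ext y; simp [CK.pd]
  unfold lapA
  simp [e4]

theorem hs_AA {v : V → V} (h : SP v) (s : ℝ) : hs s (AA v) = hs (s + 2) v := by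
  rw [hs_def, hs_def]
  refine tsum_congr fun k => ?_
  congr 1
  have e1 : ∀ i, fc (fun x => AA v x i) k = ((1 + ∑ j, (k j : ℝ) ^ 2 : ℝ) : ℂ) *
      fc (fun x => v x i) k := fun i => fc_lapA (h.comp i) k
  simp only [e1, norm_mul, mul_pow]
  rw [← Finset.mul_sum, W_add, ← mul_assoc]
  congr 2
  have h1 := W_base k
  rw [Complex.norm_real, Real.norm_eq_abs, abs_of_pos h1]
  unfold W
  rw [← Real.rpow_natCast]
  norm_num

theorem inner_eq_sum {v w : V → V} (hv : CP v) (hw : CP w) :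
    inner3 v w = ∑ i, ∫ x in torus, v x i * w x i := by
  unfold inner3
  rw [integral_finsetSum (f := fun (i : Fin 3) (x : V) => v x i * w x i) _ fun i _ =>
    cont_int ((hv.comp_continuous i).mul (hw.comp_continuous i))]

/-- Parseval's identity for fields. -/
theorem parseval3 {v w : V → V} (hv : CP v) (hw : CP w) :
    HasSum (fun k => ∑ i, conj (fc (fun x => v x i) k) * fc (fun x => w x i) k)
      (((2 * π) ^ 3 * inner3 v w : ℝ) : ℂ) := by
  have p := fun i => parseval (hv.comp_continuous i) (hw.comp_continuous i)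
  have p' : HasSum (fun k => ∑ i, conj (fc (fun x => v x i) k) * fc (fun x => w x i) k)
      (∑ i, (((2 * π) ^ 3 * ∫ x in torus, v x i * w x i : ℝ) : ℂ)) :=
    hasSum_sum fun i _ => p i
  rw [← Complex.ofReal_sum, ← Finset.mul_sum, ← inner_eq_sum hv hw] at p'
  exact p'

theorem hs_zero {v : V → V} (hv : CP v) : hs 0 v = ENNReal.ofReal ((2 * π) ^ 3 * inner3 v v) := by
  have h1 := parseval3 hv hv
  have h2 : (fun k => ∑ i, conj (fc (fun x => v x i) k) * fc (fun x => v x i) k) =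
      fun k => ((∑ i, ‖fc (fun x => v x i) k‖ ^ 2 : ℝ) : ℂ) := by
    ext k
    push_cast
    refine Finset.sum_congr rfl fun i _ => ?_
    rw [mul_comm, Complex.mul_conj, Complex.normSq_eq_norm_sq]
    push_cast
    rfl
  rw [h2] at h1
  have h3 := Complex.hasSum_ofReal.1 h1
  rw [← h3.tsum_eq, ENNReal.ofReal_tsum_of_nonneg (fun k => Finset.sum_nonneg fun i _ => sq_nonneg _)
    h3.summable, hs_def]
  refine tsum_congr fun k => ?_
  rw [W_zero, one_mul]

theorem hs_one {v : V → V} (hv : SP v) :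
    hs 1 v = ENNReal.ofReal ((2 * π) ^ 3 * inner3 (AA v) v) := by
  have h1 := parseval3 (AA_sp hv).cp hv.cp
  have h2 : (fun k => ∑ i, conj (fc (fun x => AA v x i) k) * fc (fun x => v x i) k) =
      fun k => ((W 1 k * ∑ i, ‖fc (fun x => v x i) k‖ ^ 2 : ℝ) : ℂ) := by
    ext k
    rw [W_one]
    push_cast
    rw [Finset.mul_sum]
    refine Finset.sum_congr rfl fun i _ => ?_
    have e1 : fc (fun x => AA v x i) k = ((1 + ∑ j, (k j : ℝ) ^ 2 : ℝ) : ℂ) *
      fc (fun x => v x i) k := fc_lapA (hv.comp i) k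
    have e2 : conj (fc (fun x => v x i) k) * fc (fun x => v x i) k =
        ((‖fc (fun x => v x i) k‖ ^ 2 : ℝ) : ℂ) := by
      rw [mul_comm, Complex.mul_conj, Complex.normSq_eq_norm_sq]
    rw [e1, map_mul, Complex.conj_ofReal, mul_assoc, e2]
    push_cast
    ring
  rw [h2] at h1
  have h3 := Complex.hasSum_ofReal.1 h1
  rw [← h3.tsum_eq, ENNReal.ofReal_tsum_of_nonneg (fun k => mul_nonneg (W_pos _ k).le
    (Finset.sum_nonneg fun i _ => sq_nonneg _)) h3.summable, hs_def]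

theorem hs_nat_lt_top (n : ℕ) : ∀ v, SP v → hs (2 * (n : ℝ)) v < ⊤ := by
  induction n with
  | zero =>
    intro v hv
    simp only [Nat.cast_zero, mul_zero]
    rw [hs_zero hv.cp]
    exact ENNReal.ofReal_lt_top
  | succ n ih =>
    intro v hv
    have h1 := ih (AA v) (AA_sp hv)
    rw [hs_AA hv] at h1
    have h2 : (2 : ℝ) * ((n + 1 : ℕ) : ℝ) = 2 * (n : ℝ) + 2 := by push_cast; ring
    rw [h2]
    exact h1

theorem hs_lt_top {v : V → V} (hv : SP v) (s : ℝ) : hs s v < ⊤ := by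
  obtain ⟨n, hn⟩ := exists_nat_ge s
  have h0 : (0 : ℝ) ≤ n := Nat.cast_nonneg n
  exact (hs_mono (by linarith : s ≤ 2 * (n : ℝ)) v).trans_lt (hs_nat_lt_top n v hv)

/-- The real version. -/
def hr (s : ℝ) (v : V → V) : ℝ := (hs s v).toReal

theorem hr_nonneg (s : ℝ) (v : V → V) : 0 ≤ hr s v := ENNReal.toReal_nonneg

theorem ofReal_hr {v : V → V} (hv : SP v) (s : ℝ) : ENNReal.ofReal (hr s v) = hs s v :=
  ENNReal.ofReal_toReal (hs_lt_top hv s).ne

theorem pair_hr {v w : V → V} (hv : SP v) (hw : SP w) (s : ℝ) :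
    inner3 v w ^ 2 ≤ hr (-s) v * hr s w :=
  pairing hv.cp hw.cp (hr_nonneg _ _) (hr_nonneg _ _) (ofReal_hr hv _).ge (ofReal_hr hw _).ge

end Pool.Agent.H306.DS
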