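import Pool.Agent.H306.DS.Coop

/-! The linear comparison functions of one stage. -/

namespace Pool.Agent.H306.DS

open Set Filter Topology

open Pool.Agent.H306.CK

/-- The properties of the input of a stage. -/
structure In (f : ℝ → ℝ) (T τ r γ : ℝ) : Prop where
  cont : ContinuousOn f (Icc (-1) 2)
  pos0 : 0 < f 0
  der : ∀ t ∈ Icc 0 T, ∃ f', HasDerivAt f f' t ∧ γ * f t ≤ f'
  le : ∀ t ∈ Icc 0 T, f t ≤ 3 / 20
  ge : ∀ t ∈ Icc (τ - 1 / (2 * r)) τ, 1 / 12800 ≤ f t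

/-- The relations between the times and the rates. -/
structure Tm (T τ r R γ ν : ℝ) : Prop where
  T_le : T ≤ 1
  τ_le : τ ≤ T
  r_pos : 0 < r
  h_le : 1 / (2 * r) ≤ τ
  R_ge : 15360 * r ≤ R
  T_τ : T - τ ≤ 2 / R
  γ_ge : 1 ≤ γ
  ν0 : 0 ≤ ν
  ν_le : ν ≤ r

section

variable {f : ℝ → ℝ} {T τ r R γ ν : ℝ}

theorem Tm.R_pos (h : Tm T τ r R γ ν) : 0 < R := by
  have := h.r_pos
  have := h.R_ge
  linarith

theorem Tm.τ_pos (h : Tm T τ r R γ ν) : 0 < τ := by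
  have h1 := h.r_pos
  have h2 := h.h_le
  have h3 : 0 < 1 / (2 * r) := by positivity
  linarith

theorem Tm.T_pos (h : Tm T τ r R γ ν) : 0 < T := h.τ_pos.trans_le h.τ_le

theorem Tm.sub (h : Tm T τ r R γ ν) {t : ℝ} (ht : t ∈ Icc 0 T) : t ∈ Ioo (-1 : ℝ) 2 :=
  ⟨by linarith [ht.1], by linarith [ht.2, h.T_le]⟩

theorem In.pos (h : In f T τ r γ) {t : ℝ} (ht : t ∈ Icc 0 T) : 0 < f t := by
  have := gron_lower (f := f) (c := γ) ht.1 fun s hs => h.der s ⟨hs.1, hs.2.trans ht.2⟩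
  exact (mul_pos h.pos0 (Real.exp_pos _)).trans_le this

theorem In.mono (h : In f T τ r γ) (hγ : 0 ≤ γ) {s t : ℝ} (hs : 0 ≤ s) (hst : s ≤ t) (ht : t ≤ T) :
    f s ≤ f t :=
  le_of_deriv hst fun x hx => by
    have hx' : x ∈ Icc 0 T := ⟨hs.trans hx.1, hx.2.trans ht⟩
    obtain ⟨f', h1, h2⟩ := h.der x hx'
    exact ⟨f', h1, (mul_nonneg hγ (h.pos hx').le).trans h2⟩

/-- The linear response `Y`. -/
structure LinY (f Y : ℝ → ℝ) (T τ r γ ν a : ℝ) : Prop where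
  cont : ContinuousOn Y (Icc (-1) 2)
  der : ∀ t ∈ Ioo (-1 : ℝ) 2, HasDerivAt Y (-ν * Y t + a * f t) t
  init : (ν + γ) * Y 0 = a * f 0
  grow : ∀ t ∈ Icc 0 T, γ * Y t ≤ -ν * Y t + a * f t
  pos : ∀ t ∈ Icc 0 T, 0 < Y t
  one : Y τ = 1
  a_pos : 0 < a
  a_le : a ≤ 51200 * r

theorem exists_linY (hi : In f T τ r γ) (hT : Tm T τ r R γ ν) :
    ∃ (Y : ℝ → ℝ) (a : ℝ), LinY f Y T τ r γ ν a := by
  have hγ := hT.γ_ge
  have hν := hT.ν0
  have hr := hT.r_pos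
  have hTp := hT.T_pos
  have hT1 := hT.T_le
  have hνγ : 0 < ν + γ := by linarith
  have c0 : ContDiff ℝ 1 (fun v : E3 => ((-ν * v.1, 0, 0) : E3)) := by fun_prop
  have c1 : ContDiff ℝ 1 (fun _ : E3 => ((1, 0, 0) : E3)) := by fun_prop
  obtain ⟨v, hv0, hvc, hv⟩ := gexist (C := ν + 1) c0 c1 hi.cont (fun v => by
    unfold dot nrg
    rw [abs_le]
    constructor <;> nlinarith [sq_nonneg v.1, sq_nonneg v.2.1, sq_nonneg v.2.2,
      mul_nonneg hν (sq_nonneg v.1), mul_nonneg hν (sq_nonneg v.2.1),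
      mul_nonneg hν (sq_nonneg v.2.2)]) (fun v => by
    unfold dot nrg
    rw [abs_le]
    constructor <;> nlinarith [sq_nonneg (v.1 + 1), sq_nonneg (v.1 - 1), sq_nonneg v.2.1,
      sq_nonneg v.2.2, mul_nonneg hν (sq_nonneg v.1), mul_nonneg hν (sq_nonneg v.2.1),
      mul_nonneg hν (sq_nonneg v.2.2)]) (f 0 / (ν + γ), 0, 0)
  set Y : ℝ → ℝ := fun t => (v t).1 with hY
  have hYd : ∀ t ∈ Ioo (-1 : ℝ) 2, HasDerivAt Y (-ν * Y t + f t) t := by
    intro t ht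
    have h5 : HasDerivAt Y (((-ν * (v t).1, 0, 0) : E3) + f t • ((1, 0, 0) : E3)).1 t := (hv t ht).fst
    refine h5.congr_deriv ?_
    simp [hY]
  have hYc : ContinuousOn Y (Icc (-1) 2) := hvc.fst
  have hY0 : Y 0 = f 0 / (ν + γ) := by simp [hY, hv0]
  have hY0p : 0 < Y 0 := by rw [hY0]; exact div_pos hi.pos0 hνγ
  have hsub : ∀ t ∈ Icc 0 T, t ∈ Ioo (-1 : ℝ) 2 := fun t ht => hT.sub ht
  have hYgrow : ∀ t ∈ Icc 0 T, 0 ≤ (-ν * Y t + f t) - γ * Y t := by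
    refine nonneg_of_gron (ν := ν) (fun t ht => ?_) ?_
    · obtain ⟨f', h1, h2⟩ := hi.der t ht
      have h3 := hYd t (hsub t ht)
      refine ⟨_, ((h3.const_mul (-ν)).add h1).sub (h3.const_mul γ), ?_⟩
      nlinarith
    · have h1 : (ν + γ) * Y 0 = f 0 := by rw [hY0]; field_simp
      nlinarith
  have hYpos : ∀ t ∈ Icc 0 T, 0 < Y t := by
    intro t ht
    have := gron_lower (f := Y) (c := γ) ht.1 fun s hs => by
      have hs' : s ∈ Icc 0 T := ⟨hs.1, hs.2.trans ht.2⟩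
      exact ⟨_, hYd s (hsub s hs'), by linarith [hYgrow s hs']⟩
    exact (mul_pos hY0p (Real.exp_pos _)).trans_le this
  have hτ : τ ∈ Icc 0 T := ⟨hT.τ_pos.le, hT.τ_le⟩
  have hh := hT.h_le
  have hh0 : 0 < 1 / (2 * r) := by positivity
  -- lower bound of `Y τ`
  have hlow : 1 / (51200 * r) ≤ Y τ := by
    have h1 := nonneg_of_gron (g := fun t => Y t - (1 / 25600) * (t - (τ - 1 / (2 * r))))
      (ν := ν) (t₀ := τ - 1 / (2 * r)) (t₁ := τ) (fun t ht => by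
        have ht' : t ∈ Icc 0 T := ⟨by linarith [ht.1], ht.2.trans hT.τ_le⟩
        have h2 := hYd t (hsub t ht')
        refine ⟨_, h2.sub (((hasDerivAt_id t).sub_const _).const_mul _), ?_⟩
        have h3 := hi.ge t ht
        have h4 : ν * (t - (τ - 1 / (2 * r))) ≤ 1 / 2 := by
          have h5 : t - (τ - 1 / (2 * r)) ≤ 1 / (2 * r) := by linarith [ht.2]
          have h6 : 0 ≤ t - (τ - 1 / (2 * r)) := by linarith [ht.1]
          calc ν * (t - (τ - 1 / (2 * r))) ≤ r * (1 / (2 * r)) :=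
                mul_le_mul hT.ν_le h5 h6 hr.le
            _ = 1 / 2 := by field_simp
        nlinarith) (by
        rw [sub_self, mul_zero, sub_zero]
        exact (hYpos _ ⟨by linarith, by linarith [hT.τ_le]⟩).le)
    have h2 := h1 τ ⟨by linarith, le_rfl⟩
    have h3 : (1 : ℝ) / 25600 * (τ - (τ - 1 / (2 * r))) = 1 / (51200 * r) := by
      field_simp
      norm_num
    linarith
  have hYτ : 0 < Y τ := hYpos τ hτ
  refine ⟨fun t => (1 / Y τ) * Y t, 1 / Y τ, continuousOn_const.mul hYc, fun t ht => ?_, ?_,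
    fun t ht => ?_, fun t ht => ?_, ?_, by positivity, ?_⟩
  · refine ((hYd t ht).const_mul (1 / Y τ)).congr_deriv ?_
    ring
  · rw [hY0]
    field_simp
  · have h1 := hYgrow t ht
    have h2 : 0 ≤ (1 / Y τ) * ((-ν * Y t + f t) - γ * Y t) := mul_nonneg (by positivity) h1
    nlinarith
  · have := hYpos t ht
    positivity
  · field_simp
  · rw [div_le_iff₀ hYτ]
    have h1 : 1 / (51200 * r) * (51200 * r) = 1 := by field_simp
    nlinarith

end

end Pool.Agent.H306.DS
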