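import Pool.Agent.H306.DS.Sol

/-! The momentum equation. -/

noncomputable section

namespace Pool.Agent.H306.DS

open Set MeasureTheory Filter Topology

open scoped Real ContDiff ENNReal

open Pool.Agent.H306.CK

section

variable {α β C₁ : ℝ} {B : (V → V) → V → V} {κ : ℕ → ℝ} {ψ : ℕ → V → V} {d w : ℕ → ℝ}
  {c : ℕ → ℝ}

theorem coef_ser (h : Chain κ ψ) (hc : Rapid κ c) : coef ψ (ser c ψ) = c := by
  ext j
  exact ser_coef h hc j

theorem Dop_ser (h : Chain κ ψ) (hB : Bop α β C₁ B) (hc : Rapid κ c) (ν : ℝ) :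
    Dop B ν ψ d w (ser c ψ) = ser (fun j => d j * c j - pw w c j) ψ := by
  have h1 : Pr ψ (ser c ψ) = ser c ψ := by
    unfold Pr; rw [coef_ser h hc]
  have h2 : Rm ψ (ser c ψ) = fun _ _ => 0 := by
    ext x i
    unfold Rm
    rw [h1, sub_self]
  have h3 : B (fun _ _ => 0) = fun _ _ => 0 := hB.zero
  have h4 : coef ψ (fun _ _ => 0) = fun _ => 0 := by
    ext j
    unfold coef inner3
    simp
  have h5 : Pr ψ (fun _ _ => 0) = fun _ _ => 0 := by
    unfold Pr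
    rw [h4]
    ext x i
    unfold ser
    simp
  have h6 : mc ψ d w (ser c ψ) = fun j => d j * c j - pw w c j := by
    ext j
    unfold mc
    rw [coef_ser h hc]
  ext x i
  unfold Dop Mop
  rw [h2, h3, h5, h6]
  ring

end

theorem adv_expand {u p q r : V → V} {x : V} {l : Fin 3} {a b c : ℝ}
    (h1 : ∀ j, u x j = a * p x j + b * q x j + c * r x j)
    (h2 : ∀ j, pd j (fun y => u y l) x = a * pd j (fun y => p y l) x +
      b * pd j (fun y => q y l) x + c * pd j (fun y => r y l) x) :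
    adv u u x l = a * a * adv p p x l + a * b * adv p q x l + a * c * adv p r x l +
      b * a * adv q p x l + b * b * adv q q x l + b * c * adv q r x l +
      c * a * adv r p x l + c * b * adv r q x l + c * c * adv r r x l := by
  unfold adv
  simp only [h1, h2, Fin.sum_univ_three]
  ring

section

variable {α β C₁ θ : ℝ} {B : (V → V) → V → V} {N : ℕ → ℝ} {φ : Fin 3 → ℕ → V → V} {ϖ : ℕ → V → ℝ} {m₀ : ℕ}
  {ρ A : ℕ → ℝ} {k : ℝ} {x y z : ℕ → ℝ → ℝ} {a e : ℕ → ℝ}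

/-- Term-by-term differentiation of scalar series. -/
theorem pd_series {κ : ℕ → ℝ} (hκ : ∀ j, 1 ≤ κ j) (hs : Summable fun j => 1 / κ j) {c : ℕ → ℝ}
    (hc : Rapid κ c) {f : ℕ → V → ℝ} (hf : ∀ j, ContDiff ℝ ∞ (f j))
    (hfb : ∀ q : ℕ, ∃ (C : ℝ) (p : ℕ), ∀ j x, ‖iteratedFDeriv ℝ q (f j) x‖ ≤ C * κ j ^ p)
    (i : Fin 3) (ξ : V) :
    pd i (fun y => ∑' j, c j * f j y) ξ = ∑' j, c j * pd i (f j) ξ := by
  obtain ⟨C₀, p₀, hC₀⟩ := hfb 0
  obtain ⟨C₁, p₁, hC₁⟩ := hfb 1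
  obtain ⟨D₀, hD₀⟩ := hc (p₀ + 1)
  obtain ⟨D₁, hD₁⟩ := hc (p₁ + 1)
  have key : ∀ (C D n g : ℝ) (p : ℕ) (j : ℕ), 0 ≤ n → n ≤ C * κ j ^ p →
      |g| * κ j ^ (p + 1) ≤ D → |g| * n ≤ D * |C| * (1 / κ j) := by
    intro C D n g p j hn h1 h2
    have hp : 0 < κ j := by linarith [hκ j]
    rw [mul_one_div, le_div_iff₀ hp]
    calc |g| * n * κ j ≤ |g| * (|C| * κ j ^ p) * κ j := by
          gcongr
          exact h1.trans (by gcongr; exact le_abs_self _)
      _ = (|g| * κ j ^ (p + 1)) * |C| := by ring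
      _ ≤ D * |C| := by gcongr
  have hfd : ∀ j x, ‖fderiv ℝ (fun x => c j * f j x) x‖ ≤ D₁ * |C₁| * (1 / κ j) := by
    intro j x
    have h1 : (fun x => c j * f j x) = c j • (f j) := by
      ext x; simp
    rw [h1, fderiv_const_smul (((hf j).differentiable (by simp)) x), norm_smul,
      Real.norm_eq_abs, ← norm_iteratedFDeriv_one]
    exact key _ _ _ _ _ j (norm_nonneg _) (hC₁ j x) (hD₁ j)
  have h0 : Summable fun j => c j * f j ξ := by
    refine Summable.of_norm_bounded (hs.mul_left (D₀ * |C₀|)) fun j => ?_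
    have h1 := hC₀ j ξ
    rw [norm_iteratedFDeriv_zero] at h1
    rw [norm_mul]
    exact key _ _ _ _ _ j (norm_nonneg _) h1 (hD₀ j)
  have hsm : Summable fun j => D₁ * |C₁| * (1 / κ j) := hs.mul_left _
  have h2 := hasFDerivAt_tsum (𝕜 := ℝ) (f := fun j x => c j * f j x) (x₀ := ξ) hsm
    (fun j y => ((contDiff_const.mul (hf j)).differentiable (by simp) y).hasFDerivAt) hfd h0 ξ
  have h3 : Summable fun j => fderiv ℝ (fun x => c j * f j x) ξ :=
    Summable.of_norm_bounded hsm fun j => hfd j ξ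
  have h4 := h3.hasSum.mapL (ContinuousLinearMap.apply ℝ ℝ (Pi.single i (1 : ℝ) : V))
  have h5 : pd i (fun y => ∑' j, c j * f j y) ξ =
      (∑' j, fderiv ℝ (fun x => c j * f j x) ξ) (Pi.single i 1) := by
    change fderiv ℝ (fun y => ∑' j, c j * f j y) ξ (Pi.single i 1) = _
    rw [h2.fderiv]
  rw [h5]
  refine h4.tsum_eq.symm.trans (tsum_congr fun j => ?_)
  have h1 : (fun x => c j * f j x) = c j • (f j) := by
    ext x; simp
  simp only [ContinuousLinearMap.apply_apply]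
  rw [h1, fderiv_const_smul (((hf j).differentiable (by simp)) ξ)]
  rfl

theorem PP_pd (h : Setup β θ N φ ϖ m₀ ρ A k x y z a e) {t : ℝ} (ht : t ∈ Ioo 0 (TT ρ)) (i : Fin 3)
    (ξ : V) : pd i (PP ϖ m₀ A k x t) ξ =
      ∑' s, cX A k x s t ^ 2 * (if s = 0 then 0 else pd i (ϖ (s + m₀)) ξ) := by
  have hr := (TC_fam h (al_sq h)).rapid ht
  have h1 := pd_series (κ := fun s => Kf (s + m₀)) (fun j => Kf_one_le _) (inv_Kf_summable m₀)
    hr (f := fun s ξ => if s = 0 then 0 else ϖ (s + m₀) ξ) (fun s => by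
      by_cases hs : s = 0
      · simp only [hs, if_true]; exact contDiff_const
      · simp only [hs, if_false]; exact (h.modes.ps _).1) (fun q => by
      obtain ⟨C, p, hC⟩ := h.modes.pb q
      refine ⟨|C|, p, fun s ξ => ?_⟩
      have h2 := Kf_pos (s + m₀)
      by_cases hs : s = 0
      · simp only [hs, if_true]
        rw [iteratedFDeriv_fun_zero]
        simp only [Pi.zero_apply, norm_zero]
        rw [hs] at h2
        positivity
      · simp only [hs, if_false]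
        exact (hC _ ξ).trans (by gcongr; exact le_abs_self _)) i ξ
  have e1 : PP ϖ m₀ A k x t = fun ξ => ∑' s, cX A k x s t * cX A k x s t *
      (if s = 0 then 0 else ϖ (s + m₀) ξ) := by
    ext ξ
    unfold PP
    exact tsum_congr fun s => by rw [sq]
  rw [e1, h1]
  refine tsum_congr fun s => ?_
  rw [sq]
  by_cases hs : s = 0
  · simp [hs, CK.pd]
  · simp [hs]

theorem momentum_at (h : Setup β θ N φ ϖ m₀ ρ A k x y z a e) (hB : Bop α β C₁ B) {t : ℝ} (ht : t ∈ Ioo 0 (TT ρ))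
    (ν : ℝ) (ξ : V) (l : Fin 3) :
    HasDerivAt (fun s => UU φ m₀ A k x y z s ξ l)
      (-(adv (UU φ m₀ A k x y z t) (UU φ m₀ A k x y z t) ξ l) - pd l (PP ϖ m₀ A k x t) ξ -
        Dop B ν (cm φ m₀) (dd ρ k) (ww ρ A k a e) (UU φ m₀ A k x y z t) ξ l) t := by
  have hC := h.chain
  have hT := TC_cc h
  have hr := hT.rapid ht
  obtain ⟨s, hs1, hs2⟩ := h.modes.loc_chain m₀ ξ
  obtain ⟨C, p, hC1, hCb⟩ := hC.bd0
  have h1 := ser_time (κ := kc m₀) (fun j => Kf_one_le _) (inv_kc_summable m₀) hT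
    (F := fun j => cm φ m₀ j ξ l) (C := C) (p := p) (fun j => hCb j ξ l) ht
  have e0 : (fun s => UU φ m₀ A k x y z s ξ l) =
      fun s => ∑' j, cc A k x y z j s * cm φ m₀ j ξ l := rfl
  rw [e0]
  refine h1.congr_deriv ?_
  have hz : ∀ j, j / 3 ≠ s → ∀ l, cm φ m₀ j ξ l = 0 := fun j hj l => (hs1 j hj l 0).1
  -- time derivative
  rw [tsum_three (s := s) (fun j hj => by rw [hz j hj, mul_zero]),
    (cc_deriv h ht (3 * s)).deriv, (cc_deriv h ht (3 * s + 1)).deriv,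
    (cc_deriv h ht (3 * s + 2)).deriv]
  -- the operator
  have e1 : Dop B ν (cm φ m₀) (dd ρ k) (ww ρ A k a e) (UU φ m₀ A k x y z t) ξ l =
      ∑' j, (dd ρ k j * cc A k x y z j t - pw (ww ρ A k a e) (fun j => cc A k x y z j t) j) *
        cm φ m₀ j ξ l := by
    unfold UU
    rw [Dop_ser hC hB hr]
    rfl
  rw [e1, tsum_three (s := s) (fun j hj => by rw [hz j hj, mul_zero])]
  -- the velocity near the point
  have e2 : ∀ j, UU φ m₀ A k x y z t ξ j = cc A k x y z (3 * s) t * cm φ m₀ (3 * s) ξ j +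
      cc A k x y z (3 * s + 1) t * cm φ m₀ (3 * s + 1) ξ j +
      cc A k x y z (3 * s + 2) t * cm φ m₀ (3 * s + 2) ξ j := by
    intro j
    exact tsum_three (F := fun i => cc A k x y z i t * cm φ m₀ i ξ j) (s := s)
      (fun i hi => by rw [hz i hi, mul_zero])
  have e3 : ∀ j, pd j (fun y' => UU φ m₀ A k x y z t y' l) ξ =
      cc A k x y z (3 * s) t * pd j (fun y' => cm φ m₀ (3 * s) y' l) ξ +
      cc A k x y z (3 * s + 1) t * pd j (fun y' => cm φ m₀ (3 * s + 1) y' l) ξ +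
      cc A k x y z (3 * s + 2) t * pd j (fun y' => cm φ m₀ (3 * s + 2) y' l) ξ := by
    intro j
    have h2 := (ser_pd hC hr j l ξ).tsum_eq
    unfold UU
    rw [← h2]
    exact tsum_three (F := fun i => cc A k x y z i t * pd j (fun y' => cm φ m₀ i y' l) ξ) (s := s)
      (fun i hi => by rw [(hs1 i hi l j).2, mul_zero])
  rw [adv_expand e2 e3, PP_pd h ht]
  -- the pressure
  have e4 : ∑' s', cX A k x s' t ^ 2 * (if s' = 0 then 0 else pd l (ϖ (s' + m₀)) ξ) =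
      cX A k x s t ^ 2 * (if s = 0 then 0 else pd l (ϖ (s + m₀)) ξ) := by
    refine tsum_eq_single s fun s' hs' => ?_
    by_cases h0 : s' = 0
    · simp [h0]
    · simp only [h0, if_false]
      rw [hs2 s' hs', mul_zero]
  rw [e4]
  cases s with
  | zero =>
    have c0 : cc A k x y z (3 * 0) t = 0 := by unfold cc; rw [t3_0]; rfl
    have n1 : cm φ m₀ (3 * 0 + 1) = φ 0 (0 + m₀) := rfl
    have n2 : cm φ m₀ (3 * 0 + 2) = φ 1 (0 + m₀) := rfl
    have E0 : EE N A m₀ k x y z (3 * 0) t = 0 := by unfold EE; rw [t3_0]; rfl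
    have E1 : EE N A m₀ k x y z (3 * 0 + 1) t = 0 := by unfold EE; rw [t3_1]; rfl
    have E2 : EE N A m₀ k x y z (3 * 0 + 2) t = 0 := by unfold EE; rw [t3_2]
    have a1 := fun i' => h.modes.advV 0 i' (0 + m₀) ξ l (by decide)
    have a2 := fun i' => h.modes.advV 1 i' (0 + m₀) ξ l (by decide)
    rw [c0, n1, n2, E0, E1, E2, a1 0, a1 1, a2 0, a2 1]
    simp only [if_true]
    ring
  | succ m =>
    obtain ⟨k0, k1, k2⟩ := kd_s m
    have n0 : cm φ m₀ (3 * (m + 1)) = φ 0 (m + 1 + m₀) := by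
      unfold cm
      rw [k0, show 3 * (m + 1) / 3 = m + 1 by omega]
    have n1 : cm φ m₀ (3 * (m + 1) + 1) = φ 1 (m + 1 + m₀) := by
      unfold cm
      rw [k1, show (3 * (m + 1) + 1) / 3 = m + 1 by omega]
    have n2 : cm φ m₀ (3 * (m + 1) + 2) = φ 2 (m + 1 + m₀) := by
      unfold cm
      rw [k2, show (3 * (m + 1) + 2) / 3 = m + 1 by omega]
    have c0 : cc A k x y z (3 * (m + 1)) t = cY A y (m + 1) t := by unfold cc; rw [t3_0]
    have c1 : cc A k x y z (3 * (m + 1) + 1) t = cZ A k z (m + 1) t := by unfold cc; rw [t3_1]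
    have c2 : cc A k x y z (3 * (m + 1) + 2) t = cX A k x (m + 1) t := by unfold cc; rw [t3_2]
    have E0 : EE N A m₀ k x y z (3 * (m + 1)) t =
        -(N (m + 1 + m₀) * (cX A k x (m + 1) t * cZ A k z (m + 1) t)) := by
      unfold EE; rw [t3_0]; rfl
    have E1 : EE N A m₀ k x y z (3 * (m + 1) + 1) t =
        N (m + 1 + m₀) * (cX A k x (m + 1) t * cY A y (m + 1) t) := by
      unfold EE; rw [t3_1]; rfl
    have E2 : EE N A m₀ k x y z (3 * (m + 1) + 2) t = 0 := by unfold EE; rw [t3_2]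
    have a1 := fun i' => h.modes.advV 0 i' (m + 1 + m₀) ξ l (by decide)
    have a2 := fun i' => h.modes.advV 1 i' (m + 1 + m₀) ξ l (by decide)
    have a3 := h.modes.advXY (m + 1 + m₀) ξ l
    have a4 := h.modes.advXZ (m + 1 + m₀) ξ l
    have a5 := h.modes.advXX (m + 1 + m₀) ξ l
    rw [n0, n1, n2, c0, c1, c2, E0, E1, E2, a1 0, a1 1, a1 2, a2 0, a2 1, a2 2, a3, a4, a5]
    simp only [Nat.succ_ne_zero, if_false]
    ring

theorem PP_per (h : Setup β θ N φ ϖ m₀ ρ A k x y z a e) (t : ℝ) : Periodic3 (PP ϖ m₀ A k x t) := by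
  intro i ξ
  unfold PP
  refine tsum_congr fun s => ?_
  by_cases hs : s = 0
  · simp [hs]
  · simp only [hs, if_false]
    rw [(h.modes.ps _).2 i ξ]

/-- The solution. -/
theorem is_sol (h : Setup β θ N φ ϖ m₀ ρ A k x y z a e) (hB : Bop α β C₁ B) (ν : ℝ) :
    IsSol (fun v ξ => -Dop B ν (cm φ m₀) (dd ρ k) (ww ρ A k a e) v ξ) (Ico 0 (TT ρ / 2))
      (fun t => UU φ m₀ A k x y z (t + TT ρ / 2)) (fun t => PP ϖ m₀ A k x (t + TT ρ / 2)) ∧
    ContDiffOn ℝ ∞ (fun q : ℝ × V => UU φ m₀ A k x y z (q.1 + TT ρ / 2) q.2)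
      (Ico 0 (TT ρ / 2) ×ˢ univ) ∧
    ContDiffOn ℝ ∞ (fun q : ℝ × V => PP ϖ m₀ A k x (q.1 + TT ρ / 2) q.2)
      (Ico 0 (TT ρ / 2) ×ˢ univ) := by
  have hT := TT_pos h.rates
  have hin : ∀ t ∈ Ico 0 (TT ρ / 2), t + TT ρ / 2 ∈ Ioo 0 (TT ρ) := fun t ht =>
    ⟨by linarith [ht.1], by linarith [ht.2]⟩
  have hmap : ContDiff ℝ ∞ (fun q : ℝ × V => ((q.1 + TT ρ / 2, q.2) : ℝ × V)) := by fun_prop
  have hmaps : MapsTo (fun q : ℝ × V => ((q.1 + TT ρ / 2, q.2) : ℝ × V))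
      (Ico 0 (TT ρ / 2) ×ˢ univ) (Ioo 0 (TT ρ) ×ˢ univ) := fun q hq =>
    ⟨hin q.1 hq.1, mem_univ _⟩
  have s1 : ContDiffOn ℝ ∞ (fun q : ℝ × V => UU φ m₀ A k x y z (q.1 + TT ρ / 2) q.2)
      (Ico 0 (TT ρ / 2) ×ˢ univ) := (UU_smooth h).comp hmap.contDiffOn hmaps
  have s2 : ContDiffOn ℝ ∞ (fun q : ℝ × V => PP ϖ m₀ A k x (q.1 + TT ρ / 2) q.2)
      (Ico 0 (TT ρ / 2) ×ˢ univ) := (PP_smooth h).comp hmap.contDiffOn hmaps
  refine ⟨⟨s1.of_le (by exact_mod_cast le_top), s2.of_le (by exact_mod_cast le_top),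
    fun t ht => (UU_sf h (hin t ht)).2.1, fun t ht => PP_per h _,
    fun t ht => (UU_sf h (hin t ht)).2.2, fun t ht ξ l => ?_⟩, s1, s2⟩
  have h1 := momentum_at h hB (hin t ht) ν ξ l
  have h2 : HasDerivAt (fun s => UU φ m₀ A k x y z (s + TT ρ / 2) ξ l) _ t :=
    h1.comp_add_const t (TT ρ / 2)
  have h3 : UniqueDiffWithinAt ℝ (Ico 0 (TT ρ / 2)) t := (uniqueDiffOn_Ico 0 (TT ρ / 2)) t ht
  rw [(h2.hasDerivWithinAt).derivWithin h3]
  change _ + adv _ _ ξ l + _ = _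
  simp only [Pi.neg_apply]
  ring

end

end Pool.Agent.H306.DS
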