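import Pool.Agent.H306.DS.Sol

/-! The choice of the parameters. -/

noncomputable section

namespace Pool.Agent.H306.DS

open Set MeasureTheory Filter Topology

open scoped Real ContDiff ENNReal

open Pool.Agent.H306.CK

theorem quad_ev {δ : ℝ} (hδ : 0 < δ) (p q : ℝ) : ∃ n₀ : ℕ, ∀ n : ℕ, n₀ ≤ n →
    p * n + q ≤ δ * ((n : ℝ) + 4) ^ 2 := by
  obtain ⟨n₀, hn₀⟩ := exists_nat_ge ((|p| + |q|) / δ)
  refine ⟨n₀ + 1, fun n hn => ?_⟩
  have h1 : ((n₀ : ℝ) + 1) ≤ n := by exact_mod_cast hn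
  have h0 : (0 : ℝ) ≤ n₀ := Nat.cast_nonneg _
  rw [div_le_iff₀ hδ] at hn₀
  have h2 : |p| + |q| ≤ n * δ := hn₀.trans (by gcongr; linarith)
  have h3 : (1 : ℝ) ≤ n := by linarith
  calc p * n + q ≤ |p| * n + |q| * n := by
        have := le_abs_self p
        have := le_abs_self q
        have := abs_nonneg q
        nlinarith
    _ = (|p| + |q|) * n := by ring
    _ ≤ (n * δ) * n := by gcongr
    _ ≤ _ := by nlinarith

theorem lin_ev {δ : ℝ} (hδ : 0 < δ) (q : ℝ) : ∃ n₀ : ℕ, ∀ n : ℕ, n₀ ≤ n → q ≤ δ * n := by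
  obtain ⟨n₀, hn₀⟩ := exists_nat_ge (q / δ)
  refine ⟨n₀, fun n hn => ?_⟩
  have h1 : (n₀ : ℝ) ≤ n := by exact_mod_cast hn
  rw [div_le_iff₀ hδ] at hn₀
  nlinarith

theorem exists_pow_ge (x : ℝ) : ∃ q : ℝ, 0 ≤ q ∧ x ≤ 2 ^ q := by
  obtain ⟨n, hn⟩ := exists_nat_ge x
  refine ⟨n, Nat.cast_nonneg _, hn.trans ?_⟩
  rw [Real.rpow_natCast]
  exact_mod_cast Nat.lt_two_pow_self.le

/-- The rates of the cascade. -/
def rr (a γ : ℝ) (n : ℕ) : ℝ := 2 ^ (a * ((n : ℝ) + 4) ^ 2 + γ * ((n : ℝ) + 4))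

section

variable {a γ : ℝ}

theorem rr_pos (a γ : ℝ) (n : ℕ) : 0 < rr a γ n := Real.rpow_pos_of_pos (by norm_num) _

theorem rr_succ (a γ : ℝ) (n : ℕ) : rr a γ (n + 1) = 2 ^ (a * (2 * n + 9) + γ) * rr a γ n := by
  unfold rr
  rw [← Real.rpow_add (by norm_num)]
  congr 1
  push_cast
  ring

theorem rr_split (a γ : ℝ) (n : ℕ) : rr a γ n = Kf n ^ a * 2 ^ (γ * ((n : ℝ) + 4)) := by
  unfold rr
  rw [Kf_rpow, ← Real.rpow_add (by norm_num)]

theorem two_quart (ha : 0 < a) (hγ : 0 ≤ γ) : ∃ c : ℝ, 0 < c ∧ ∀ n : ℕ,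
    (c * ((n : ℝ) + 5)) ^ 4 ≤ 2 ^ (a * (2 * n + 9) + γ) := by
  have hl : 0 < Real.log 2 := Real.log_pos (by norm_num)
  refine ⟨min (1 / 5) (a / 2 * Real.log 2), by positivity, fun n => ?_⟩
  set c := min (1 / 5) (a / 2 * Real.log 2) with hc
  have hc1 : c ≤ 1 / 5 := min_le_left _ _
  have hc2 : c ≤ a / 2 * Real.log 2 := min_le_right _ _
  have hc0 : 0 < c := by positivity
  have h0 : (0 : ℝ) ≤ n := Nat.cast_nonneg n
  have h1 : c * ((n : ℝ) + 5) ≤ 2 ^ (a / 2 * n) := by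
    rw [Real.rpow_def_of_pos (by norm_num)]
    refine le_trans ?_ (Real.add_one_le_exp _)
    nlinarith
  calc (c * ((n : ℝ) + 5)) ^ 4 ≤ (2 ^ (a / 2 * n)) ^ 4 := pow_le_pow_left₀ (by positivity) h1 4
    _ = 2 ^ (2 * a * n) := by
        rw [← Real.rpow_natCast, ← Real.rpow_mul (by norm_num)]
        congr 1
        push_cast
        ring
    _ ≤ _ := by
        apply Real.rpow_le_rpow_of_exponent_le (by norm_num)
        nlinarith

/-- The basic estimate of the exponentially small quantity. -/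
theorem ep_gen (ha : 0 < a) (hγ : 0 ≤ γ) {P : ℝ} (hP : 0 ≤ P) : ∃ C : ℝ, 0 < C ∧ ∀ n : ℕ,
    ep (rr a γ n) (rr a γ (n + 1)) * 2 ^ (P * ((n : ℝ) + 5) ^ 2) ≤ C := by
  obtain ⟨c, hc0, hc⟩ := two_quart ha hγ
  refine ⟨Real.exp (30720 * P ^ 2 / c ^ 4), Real.exp_pos _, fun n => ?_⟩
  have hr := rr_pos a γ n
  have h1 : rr a γ (n + 1) / (122880 * rr a γ n) = 2 ^ (a * (2 * n + 9) + γ) / 122880 := by
    rw [rr_succ]
    field_simp
  unfold ep
  rw [h1, Real.rpow_def_of_pos (by norm_num : (0 : ℝ) < 2) (P * ((n : ℝ) + 5) ^ 2)]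
  have h2 := hc n
  have hl : Real.log 2 ≤ 1 := by
    have := Real.log_two_lt_d9
    linarith
  set X : ℝ := ((n : ℝ) + 5) ^ 2 with hX
  have hX0 : 0 ≤ X := sq_nonneg _
  have h3 : (c * ((n : ℝ) + 5)) ^ 4 = c ^ 4 * X ^ 2 := by rw [hX]; ring
  rw [h3] at h2
  have h4 : Real.log 2 * (P * X) ≤ P * X := by
    have : 0 ≤ P * X := by positivity
    nlinarith
  have h5 : P * X - c ^ 4 * X ^ 2 / 122880 ≤ 30720 * P ^ 2 / c ^ 4 := by
    have h6 : 0 ≤ (c ^ 4 * X / 61440 - P) ^ 2 * (30720 / c ^ 4) := by positivity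
    have h7 : (c ^ 4 * X / 61440 - P) ^ 2 * (30720 / c ^ 4) =
        c ^ 4 * X ^ 2 / 122880 - P * X + 30720 * P ^ 2 / c ^ 4 := by
      field_simp
      ring
    linarith
  have e0 := Real.exp_pos (-(2 ^ (a * (2 * (n : ℝ) + 9) + γ) / 122880))
  have e1 := Real.exp_pos (Real.log 2 * (P * X))
  calc 1 / 100 * Real.exp (-(2 ^ (a * (2 * (n : ℝ) + 9) + γ) / 122880)) *
        Real.exp (Real.log 2 * (P * X)) ≤
        1 * Real.exp (-(2 ^ (a * (2 * (n : ℝ) + 9) + γ) / 122880)) *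
        Real.exp (Real.log 2 * (P * X)) := by
        gcongr
        norm_num
    _ = Real.exp (-(2 ^ (a * (2 * (n : ℝ) + 9) + γ) / 122880) + Real.log 2 * (P * X)) := by
        rw [one_mul, Real.exp_add]
    _ ≤ _ := by
        apply Real.exp_le_exp.2
        have h8 : c ^ 4 * X ^ 2 / 122880 ≤ 2 ^ (a * (2 * (n : ℝ) + 9) + γ) / 122880 := by
          gcongr
        linarith

theorem rr_le (hγ : 0 ≤ γ) (n : ℕ) : rr a γ (n + 1) ≤ 2 ^ ((a + γ) * ((n : ℝ) + 5) ^ 2) := by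
  unfold rr
  apply Real.rpow_le_rpow_of_exponent_le (by norm_num)
  have h0 : (0 : ℝ) ≤ n := Nat.cast_nonneg n
  push_cast
  have h1 : (n : ℝ) + 1 + 4 = n + 5 := by ring
  rw [h1]
  have h2 : (n : ℝ) + 5 ≤ ((n : ℝ) + 5) ^ 2 := by nlinarith
  have h3 := mul_le_mul_of_nonneg_left h2 hγ
  linarith

theorem ep_small (ha : 0 < a) (hγ : 0 ≤ γ) : ∃ n₀ : ℕ, ∀ n, n₀ ≤ n →
    rr a γ (n + 1) * ep (rr a γ n) (rr a γ (n + 1)) ≤ 1 / 2 ^ (n + 25) := by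
  obtain ⟨C, hC0, hC⟩ := ep_gen ha hγ (P := a + γ + 1) (by positivity)
  obtain ⟨q, hq0, hq⟩ := exists_pow_ge C
  obtain ⟨n₀, hn₀⟩ := exists_nat_ge q
  refine ⟨n₀, fun n hn => ?_⟩
  have h0 : (0 : ℝ) ≤ n := Nat.cast_nonneg n
  have hqn : q ≤ n := hn₀.trans (by exact_mod_cast hn)
  have h1 := rr_le (a := a) hγ n
  have h2 := ep_pos (rr a γ n) (rr a γ (n + 1))
  have h3 := (hC n).trans hq
  have h4 : (2 : ℝ) ^ ((a + γ + 1) * ((n : ℝ) + 5) ^ 2) =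
      2 ^ ((a + γ) * ((n : ℝ) + 5) ^ 2) * 2 ^ (((n : ℝ) + 5) ^ 2) := by
    rw [← Real.rpow_add (by norm_num)]
    congr 1
    ring
  rw [h4] at h3
  have h5 : (0 : ℝ) < 2 ^ (((n : ℝ) + 5) ^ 2) := Real.rpow_pos_of_pos (by norm_num) _
  have h6 : rr a γ (n + 1) * ep (rr a γ n) (rr a γ (n + 1)) * 2 ^ (((n : ℝ) + 5) ^ 2) ≤ 2 ^ q := by
    calc rr a γ (n + 1) * ep (rr a γ n) (rr a γ (n + 1)) * 2 ^ (((n : ℝ) + 5) ^ 2) ≤
          2 ^ ((a + γ) * ((n : ℝ) + 5) ^ 2) * ep (rr a γ n) (rr a γ (n + 1)) *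
            2 ^ (((n : ℝ) + 5) ^ 2) := by gcongr
      _ = ep (rr a γ n) (rr a γ (n + 1)) *
          (2 ^ ((a + γ) * ((n : ℝ) + 5) ^ 2) * 2 ^ (((n : ℝ) + 5) ^ 2)) := by ring
      _ ≤ _ := h3
  have h7 : (2 : ℝ) ^ q * 2 ^ (n + 25) ≤ 2 ^ (((n : ℝ) + 5) ^ 2) := by
    rw [← Real.rpow_natCast, ← Real.rpow_add (by norm_num)]
    apply Real.rpow_le_rpow_of_exponent_le (by norm_num)
    push_cast
    nlinarith
  rw [le_div_iff₀ (by positivity)]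
  have h8 : (0 : ℝ) < 2 ^ q := Real.rpow_pos_of_pos (by norm_num) _
  set T := rr a γ (n + 1) * ep (rr a γ n) (rr a γ (n + 1)) with hT
  have hT0 : 0 < T := by
    rw [hT]
    exact mul_pos (rr_pos _ _ _) h2
  have h9 : T * (2 ^ q * 2 ^ (n + 25)) ≤ 2 ^ q := (mul_le_mul_of_nonneg_left h7 hT0.le).trans h6
  have h10 : 2 ^ q * (T * 2 ^ (n + 25)) ≤ 2 ^ q * 1 := by linarith
  exact le_of_mul_le_mul_left h10 h8

theorem ep_fast (ha : 0 < a) (hγ : 0 ≤ γ) (M : ℕ) : ∃ C : ℝ, ∀ n,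
    ep (rr a γ n) (rr a γ (n + 1)) * rr a γ (n + 1) ^ M ≤ C := by
  obtain ⟨C, hC0, hC⟩ := ep_gen ha hγ (P := (a + γ) * M) (by positivity)
  refine ⟨C, fun n => le_trans ?_ (hC n)⟩
  have h2 := ep_pos (rr a γ n) (rr a γ (n + 1))
  have h3 := rr_pos a γ (n + 1)
  gcongr
  calc rr a γ (n + 1) ^ M ≤ (2 ^ ((a + γ) * ((n : ℝ) + 5) ^ 2)) ^ M :=
        pow_le_pow_left₀ h3.le (rr_le hγ n) M
    _ = _ := by
        rw [← Real.rpow_natCast, ← Real.rpow_mul (by norm_num)]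
        congr 1
        ring

theorem rates_of (ha : 0 < a) (hγ : 0 ≤ γ) : ∃ n₀ : ℕ, ∀ m₀, n₀ ≤ m₀ →
    Rates (fun s => rr a γ (s + m₀)) (rr a γ (0 + m₀) / 32) := by
  obtain ⟨n₁, hn₁⟩ := ep_small ha hγ
  obtain ⟨n₂, hn₂⟩ := quad_ev ha 0 6
  obtain ⟨n₃, hn₃⟩ := lin_ev ha 14
  refine ⟨n₁ + n₂ + n₃, fun m₀ hm => ?_⟩
  have hbig : ∀ n, m₀ ≤ n → (64 : ℝ) ≤ rr a γ n := by
    intro n hn
    have h1 := hn₂ n (by omega)
    have h0 : (0 : ℝ) ≤ n := Nat.cast_nonneg n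
    unfold rr
    calc (64 : ℝ) = 2 ^ (6 : ℝ) := by norm_num
      _ ≤ _ := by
        apply Real.rpow_le_rpow_of_exponent_le (by norm_num)
        nlinarith
  have hG : ∀ m, rr a γ (m + m₀ + 1) * ep (rr a γ (m + m₀)) (rr a γ (m + m₀ + 1)) ≤
      1 / 2 ^ (m + m₀ + 25) := fun m => hn₁ _ (by omega)
  have hG' : ∀ m : ℕ, (1 : ℝ) / 2 ^ (m + m₀ + 25) ≤ 1 / 2 ^ (m + 25) := by
    intro m
    apply one_div_le_one_div_of_le (by positivity)
    exact pow_le_pow_right₀ (by norm_num) (by omega)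
  have hG1 : ∀ m : ℕ, (1 : ℝ) / 2 ^ (m + 25) ≤ 1 / 1000 := by
    intro m
    apply one_div_le_one_div_of_le (by positivity)
    calc (1000 : ℝ) ≤ 2 ^ 25 := by norm_num
      _ ≤ 2 ^ (m + 25) := pow_le_pow_right₀ (by norm_num) (by omega)
  have hidx : ∀ m, m + 1 + m₀ = m + m₀ + 1 := fun m => by omega
  refine ⟨?_, hbig _ (by omega), ?_, fun m => ?_, fun m => ?_, fun m => ?_, fun m => ?_,
    fun M => ?_, fun m => ?_⟩
  · have := hbig (0 + m₀) (by omega); linarith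
  · simp only [zero_add]; linarith
  · simp only [hidx]
    rw [rr_succ]
    have h2 := rr_pos a γ (m + m₀)
    have h3 : (15360 : ℝ) ≤ 2 ^ (a * (2 * ((m + m₀ : ℕ) : ℝ) + 9) + γ) := by
      calc (15360 : ℝ) ≤ 2 ^ (14 : ℝ) := by norm_num
        _ ≤ _ := by
          apply Real.rpow_le_rpow_of_exponent_le (by norm_num)
          have h4 := hn₃ (m + m₀) (by omega)
          have h5 : (0 : ℝ) ≤ ((m + m₀ : ℕ) : ℝ) := Nat.cast_nonneg _
          nlinarith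
    gcongr
  · simp only [hidx]
    have h1 := (hG m).trans ((hG' m).trans (hG1 m))
    have h2 := hbig (m + m₀ + 1) (by omega)
    have h3 := ep_pos (rr a γ (m + m₀)) (rr a γ (m + m₀ + 1))
    nlinarith
  · simp only [hidx]
    have h1 := (hG m).trans ((hG' m).trans (hG1 m))
    have h2 := hbig (m + m₀ + 1) (by omega)
    have h3 := ep_pos (rr a γ (m + m₀)) (rr a γ (m + m₀ + 1))
    have h4 : 0 < rr a γ (m + m₀ + 1) * ep (rr a γ (m + m₀)) (rr a γ (m + m₀ + 1)) := by positivity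
    nlinarith
  · simp only [hidx]
    have h1 := (hG m).trans (hG' m)
    have h2 := hbig (m + m₀ + 1) (by omega)
    have h3 := ep_pos (rr a γ (m + m₀)) (rr a γ (m + m₀ + 1))
    set E := ep (rr a γ (m + m₀)) (rr a γ (m + m₀ + 1))
    set R := rr a γ (m + m₀ + 1)
    have h4 : E ≤ R * E := by nlinarith
    have h5 : (1 : ℝ) / 2 ^ (m + 25) ≤ 1 / 2 ^ (m + 1) := by
      apply one_div_le_one_div_of_le (by positivity)
      exact pow_le_pow_right₀ (by norm_num) (by omega)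
    have h6 : R * E ≤ 1 / 1000 := h1.trans (hG1 m)
    calc 48 * R * E ^ 2 = 48 * (R * E) * E := by ring
      _ ≤ 48 * (R * E) * (R * E) := by gcongr
      _ ≤ 48 * (1 / 1000) * (R * E) := by gcongr
      _ ≤ R * E := by nlinarith
      _ ≤ _ := h1.trans h5
  · obtain ⟨C, hC⟩ := ep_fast ha hγ M
    refine ⟨C, fun m => ?_⟩
    simp only [hidx]
    exact hC (m + m₀)
  · simp only [hidx]
    have h1 : rr a γ (m + m₀) ^ 4 = 2 ^ ((a * (((m + m₀ : ℕ) : ℝ) + 4) ^ 2 +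
        γ * (((m + m₀ : ℕ) : ℝ) + 4)) * ((4 : ℕ) : ℝ)) := by
      unfold rr
      rw [Real.rpow_mul (by norm_num), Real.rpow_natCast]
    rw [h1]
    unfold rr
    apply Real.rpow_le_rpow_of_exponent_le (by norm_num)
    push_cast
    have h0 : (0 : ℝ) ≤ m := Nat.cast_nonneg _
    have h0' : (0 : ℝ) ≤ m₀ := Nat.cast_nonneg _
    have h2 : ((m : ℝ) + m₀ + 1 + 4) ^ 2 ≤ 4 * ((m : ℝ) + m₀ + 4) ^ 2 := by nlinarith
    have h3 : ((m : ℝ) + m₀ + 1 + 4) ≤ 4 * ((m : ℝ) + m₀ + 4) := by nlinarith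
    nlinarith

end

section

variable {θ : ℝ} {N : ℕ → ℝ} {φ : Fin 3 → ℕ → V → V} {ϖ : ℕ → V → ℝ}

/-- The construction of the data. -/
theorem exists_setup (hM : Modes θ N φ ϖ) {β ν C : ℝ} (hβ : 0 < β) (hβθ : β < θ) (hθ : θ ≤ 1)
    (hν : 0 < ν) (hC : 0 < C) {η : ℝ} (hη : 0 < η) (hη1 : η ≤ 1) :
    ∃ (m₀ : ℕ) (ρ A : ℕ → ℝ) (k : ℝ) (x y z : ℕ → ℝ → ℝ) (a e : ℕ → ℝ),
      Setup β θ N φ ϖ m₀ ρ A k x y z a e ∧
      (∀ s, ρ s = rr (2 * β) (4 * β + 4) (s + m₀)) ∧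
      (∀ s, A s ≤ η) ∧ 1 / η ≤ ρ 0 ∧
      ∀ j, 8 * ν * 2 ^ j * (C * kc m₀ j ^ (2 * β)) ≤ dd ρ k j := by
  set b := 2 * β with hb
  set γ := 4 * β + 4 with hγ
  have hb0 : 0 < b := by linarith
  have hγ0 : 0 ≤ γ := by linarith
  obtain ⟨cN, hcN, hN1⟩ := hM.N_ge
  obtain ⟨CN, hCN, hN2⟩ := hM.N_le
  set δ := 2 * θ - b with hδ
  have hδ0 : 0 < δ := by linarith
  -- the amplitudes are small
  obtain ⟨q₁, hq₁, hq₁'⟩ := exists_pow_ge (1 / (cN * η))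
  obtain ⟨n₁, hn₁⟩ := quad_ev hδ0 γ (q₁ + 4 * γ)
  -- the ratios are small
  obtain ⟨q₂, hq₂, hq₂'⟩ := exists_pow_ge (CN / cN * 10 ^ 7)
  obtain ⟨n₂, hn₂⟩ := lin_ev hδ0 (q₂ + γ)
  -- domination
  obtain ⟨q₃, hq₃, hq₃'⟩ := exists_pow_ge (512 * ν * C)
  obtain ⟨n₃, hn₃⟩ := exists_nat_ge (q₃ + 6 + 18 * β)
  obtain ⟨n₄, hn₄⟩ := rates_of hb0 hγ0
  obtain ⟨q₅, hq₅, hq₅'⟩ := exists_pow_ge (1 / η)
  obtain ⟨n₅, hn₅⟩ := quad_ev hb0 0 q₅
  set m₀ := n₁ + n₂ + n₃ + n₄ + n₅ with hm₀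
  have hR := hn₄ m₀ (by omega)
  obtain ⟨x, y, z, a, e, hcas⟩ := exists_cas hR
  have hN0 : ∀ n, 0 < N n := fun n => by
    have := Real.rpow_pos_of_pos (Kf_pos n) (2 * θ)
    exact (by positivity : 0 < cN * Kf n ^ (2 * θ)).trans_le (hN1 n)
  have hD : ∀ n, m₀ ≤ n → 512 * ν * C * 2 ^ (3 * n + 6) * Kf (n + 1) ^ (2 * β) ≤ rr b γ n := by
    intro n hn
    have h1 : q₃ + 6 + 18 * β ≤ n := hn₃.trans (by exact_mod_cast (by omega : n₃ ≤ n))
    calc 512 * ν * C * 2 ^ (3 * n + 6) * Kf (n + 1) ^ (2 * β) ≤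
          2 ^ q₃ * 2 ^ (3 * n + 6) * Kf (n + 1) ^ (2 * β) := by
          have := Real.rpow_pos_of_pos (Kf_pos (n + 1)) (2 * β)
          gcongr
      _ = 2 ^ (q₃ + (3 * n + 6) + 2 * β * ((n : ℝ) + 5) ^ 2) := by
          rw [Kf_rpow, ← Real.rpow_natCast, ← Real.rpow_add (by norm_num),
            ← Real.rpow_add (by norm_num)]
          congr 1
          push_cast
          ring
      _ ≤ rr b γ n := by
          unfold rr
          apply Real.rpow_le_rpow_of_exponent_le (by norm_num)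
          have h0 : (0 : ℝ) ≤ n := Nat.cast_nonneg n
          rw [hb, hγ]
          nlinarith
  have hmono : ∀ n, m₀ ≤ n → rr b γ n ≤ rr b γ (n + 1) := fun n hn => by
    have h1 := hR.ratio (n - m₀)
    have h2 := rr_pos b γ n
    rw [show n - m₀ + m₀ = n by omega, show n - m₀ + 1 + m₀ = n + 1 by omega] at h1
    linarith
  have hA : ∀ s, rr b γ (s + m₀) / N (s + m₀) ≤ η := by
    intro s
    rw [div_le_iff₀ (hN0 _)]
    have h1 := hn₁ (s + m₀) (by omega)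
    have h2 : rr b γ (s + m₀) * (1 / (cN * η)) ≤ Kf (s + m₀) ^ (2 * θ) := by
      calc rr b γ (s + m₀) * (1 / (cN * η)) ≤ rr b γ (s + m₀) * 2 ^ q₁ := by
            have := rr_pos b γ (s + m₀)
            gcongr
        _ = 2 ^ (b * (((s + m₀ : ℕ) : ℝ) + 4) ^ 2 + γ * (((s + m₀ : ℕ) : ℝ) + 4) + q₁) := by
            unfold rr
            rw [← Real.rpow_add (by norm_num)]
        _ ≤ _ := by
            rw [Kf_rpow]
            apply Real.rpow_le_rpow_of_exponent_le (by norm_num)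
            rw [hδ] at h1
            nlinarith
    rw [mul_one_div, div_le_iff₀ (by positivity)] at h2
    have h3 := hN1 (s + m₀)
    calc rr b γ (s + m₀) ≤ Kf (s + m₀) ^ (2 * θ) * (cN * η) := h2
      _ = η * (cN * Kf (s + m₀) ^ (2 * θ)) := by ring
      _ ≤ η * N (s + m₀) := by gcongr
  have hρ0 : 1 / η ≤ rr b γ (0 + m₀) := by
    refine hq₅'.trans ?_
    unfold rr
    apply Real.rpow_le_rpow_of_exponent_le (by norm_num)
    have h1 := hn₅ (0 + m₀) (by omega)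
    have h2 : (0 : ℝ) ≤ ((0 + m₀ : ℕ) : ℝ) := Nat.cast_nonneg _
    nlinarith [mul_nonneg hγ0 h2]
  refine ⟨m₀, fun s => rr b γ (s + m₀), fun s => rr b γ (s + m₀) / N (s + m₀),
    rr b γ (0 + m₀) / 32, x, y, z, a, e, ⟨hM, hcas, by linarith, ?_, fun t ht => ?_, fun s => ?_,
    fun s => (hA s).trans hη1, fun s => ?_, rfl, fun s => ?_⟩, fun s => rfl, hA, hρ0, ?_⟩
  · obtain ⟨p, hp⟩ := exists_nat_ge (1 / b)
    refine ⟨p, fun s => ?_⟩
    rw [div_le_iff₀ hb0] at hp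
    unfold rr
    rw [← Real.rpow_natCast, ← Real.rpow_mul (by norm_num)]
    have h1 := Kf_rpow (s + m₀) 1
    rw [Real.rpow_one] at h1
    rw [h1]
    apply Real.rpow_le_rpow_of_exponent_le (by norm_num)
    have h0 : (0 : ℝ) ≤ ((s + m₀ : ℕ) : ℝ) := Nat.cast_nonneg _
    have hp0 : (0 : ℝ) ≤ p := Nat.cast_nonneg _
    set X : ℝ := ((s + m₀ : ℕ) : ℝ) + 4
    have hX : 0 ≤ X := by positivity
    have h2 : 0 ≤ γ * X * p := by positivity
    have h3 : 1 * X ^ 2 ≤ (p * b) * X ^ 2 := by gcongr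
    nlinarith
  · -- the order
    have hε : 0 < t - b := by linarith
    refine ⟨2 ^ (γ ^ 2 / (4 * (t - b))), fun s => ?_⟩
    rw [Kf_rpow, ← Real.rpow_add (by norm_num)]
    unfold rr
    apply Real.rpow_le_rpow_of_exponent_le (by norm_num)
    set X : ℝ := ((s + m₀ : ℕ) : ℝ) + 4
    have h1 : 0 ≤ (2 * (t - b) * X - γ) ^ 2 / (4 * (t - b)) := by positivity
    have h2 : (2 * (t - b) * X - γ) ^ 2 / (4 * (t - b)) =
        (t - b) * X ^ 2 - γ * X + γ ^ 2 / (4 * (t - b)) := by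
      field_simp
      ring
    nlinarith
  · exact div_pos (rr_pos _ _ _) (hN0 _)
  · have := (hN0 (s + m₀)).ne'
    field_simp
  · -- the ratio of amplitudes
    have e1 : s + 1 + m₀ = s + m₀ + 1 := by omega
    simp only [e1]
    set n := s + m₀ with hn
    have h1 := hn₂ n (by omega)
    have p1 := rr_pos b γ n
    have p3 := Real.rpow_pos_of_pos (Kf_pos n) (2 * θ)
    have p4 := Real.rpow_pos_of_pos (Kf_pos (n + 1)) (2 * θ)
    have h0 : (0 : ℝ) ≤ n := Nat.cast_nonneg n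
    -- the growth of the frequencies
    have u1 : Kf (n + 1) ^ (2 * θ) = 2 ^ (2 * θ * (2 * n + 9)) * Kf n ^ (2 * θ) := by
      rw [Kf_rpow, Kf_rpow, ← Real.rpow_add (by norm_num)]
      congr 1
      push_cast
      ring
    have u2 : (CN / cN * 10 ^ 7) * 2 ^ (b * (2 * (n : ℝ) + 9) + γ) ≤ 2 ^ (2 * θ * (2 * n + 9)) := by
      calc (CN / cN * 10 ^ 7) * 2 ^ (b * (2 * (n : ℝ) + 9) + γ) ≤
            2 ^ q₂ * 2 ^ (b * (2 * (n : ℝ) + 9) + γ) := by gcongr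
        _ = 2 ^ (q₂ + (b * (2 * (n : ℝ) + 9) + γ)) := by rw [← Real.rpow_add (by norm_num)]
        _ ≤ _ := by
            apply Real.rpow_le_rpow_of_exponent_le (by norm_num)
            rw [hδ] at h1
            nlinarith
    have u3 : N n ≤ CN * Kf n ^ (2 * θ) := hN2 n
    have u4 : cN * Kf (n + 1) ^ (2 * θ) ≤ N (n + 1) := hN1 (n + 1)
    rw [rr_succ, div_le_iff₀ (hN0 _)]
    have q1 := hN0 n
    have q2 : (0 : ℝ) < 2 ^ (b * (2 * (n : ℝ) + 9) + γ) := Real.rpow_pos_of_pos (by norm_num) _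
    -- main inequality
    have u5 : 10 ^ 7 * 2 ^ (b * (2 * (n : ℝ) + 9) + γ) * N n ≤ N (n + 1) := by
      calc 10 ^ 7 * 2 ^ (b * (2 * (n : ℝ) + 9) + γ) * N n ≤
            10 ^ 7 * 2 ^ (b * (2 * (n : ℝ) + 9) + γ) * (CN * Kf n ^ (2 * θ)) := by gcongr
        _ = cN * (((CN / cN * 10 ^ 7) * 2 ^ (b * (2 * (n : ℝ) + 9) + γ)) * Kf n ^ (2 * θ)) := by
            field_simp
        _ ≤ cN * (2 ^ (2 * θ * (2 * n + 9)) * Kf n ^ (2 * θ)) := by gcongr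
        _ = cN * Kf (n + 1) ^ (2 * θ) := by rw [u1]
        _ ≤ _ := u4
    calc 2 ^ (b * (2 * (n : ℝ) + 9) + γ) * rr b γ n =
          1 / 10 ^ 7 * (rr b γ n / N n) * (10 ^ 7 * 2 ^ (b * (2 * (n : ℝ) + 9) + γ) * N n) := by
          field_simp
      _ ≤ 1 / 10 ^ 7 * (rr b γ n / N n) * N (n + 1) := by gcongr
  · -- coercivity
    have key : ∀ n, m₀ ≤ n → ∀ (Q : ℝ), Q ≤ 512 * 2 ^ (3 * n + 6) →
        Q * (ν * (C * Kf (n + 1) ^ (2 * β))) ≤ rr b γ n := by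
      intro n hn Q hQ
      refine le_trans ?_ (hD n hn)
      have := Real.rpow_pos_of_pos (Kf_pos (n + 1)) (2 * β)
      calc Q * (ν * (C * Kf (n + 1) ^ (2 * β))) ≤
            (512 * 2 ^ (3 * n + 6)) * (ν * (C * Kf (n + 1) ^ (2 * β))) := by gcongr
        _ = _ := by ring
    have k0 : ∀ (j : ℕ), j ≤ 2 → 8 * ν * 2 ^ j * (C * Kf (0 + m₀) ^ (2 * β)) ≤
        rr b γ (0 + m₀) / 32 := by
      intro j hj
      have h1 := key (0 + m₀) (by omega) 1024 (by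
        calc (1024 : ℝ) ≤ 512 * 2 ^ 6 := by norm_num
          _ ≤ _ := by gcongr <;> [norm_num; omega])
      have h2 : Kf (0 + m₀) ^ (2 * β) ≤ Kf (0 + m₀ + 1) ^ (2 * β) :=
        Real.rpow_le_rpow (Kf_pos _).le (Kf_mono (by omega)) (by positivity)
      have h3 : (2 : ℝ) ^ j ≤ 2 ^ 2 := pow_le_pow_right₀ (by norm_num) hj
      have h4 := Real.rpow_pos_of_pos (Kf_pos (0 + m₀)) (2 * β)
      rw [le_div_iff₀ (by norm_num)]
      calc 8 * ν * 2 ^ j * (C * Kf (0 + m₀) ^ (2 * β)) * 32 ≤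
            8 * ν * 2 ^ 2 * (C * Kf (0 + m₀ + 1) ^ (2 * β)) * 32 := by gcongr
        _ = 1024 * (ν * (C * Kf (0 + m₀ + 1) ^ (2 * β))) := by ring
        _ ≤ _ := h1
    have kZ : ∀ (m j : ℕ), j ≤ 3 * (m + 1) + 2 → 8 * ν * 2 ^ j * (C * Kf (m + 1 + m₀) ^ (2 * β)) ≤
        rr b γ (m + 1 + m₀) / 8 := by
      intro m j hj
      have h1 := key (m + m₀) (by omega) (64 * 2 ^ (3 * (m + 1) + 2)) (by
        have h2 : (2 : ℝ) ^ (3 * (m + 1) + 2) ≤ 2 ^ (3 * (m + m₀) + 6) :=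
          pow_le_pow_right₀ (by norm_num) (by omega)
        have h3 : (0 : ℝ) < 2 ^ (3 * (m + m₀) + 6) := by positivity
        linarith)
      have e1 : m + m₀ + 1 = m + 1 + m₀ := by omega
      rw [e1] at h1
      have h2 : rr b γ (m + m₀) ≤ rr b γ (m + 1 + m₀) := by
        rw [← e1]
        exact hmono _ (by omega)
      have h3 : (2 : ℝ) ^ j ≤ 2 ^ (3 * (m + 1) + 2) := pow_le_pow_right₀ (by norm_num) hj
      have h4 := Real.rpow_pos_of_pos (Kf_pos (m + 1 + m₀)) (2 * β)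
      rw [le_div_iff₀ (by norm_num)]
      calc 8 * ν * 2 ^ j * (C * Kf (m + 1 + m₀) ^ (2 * β)) * 8 ≤
            8 * ν * 2 ^ (3 * (m + 1) + 2) * (C * Kf (m + 1 + m₀) ^ (2 * β)) * 8 := by gcongr
        _ = 64 * 2 ^ (3 * (m + 1) + 2) * (ν * (C * Kf (m + 1 + m₀) ^ (2 * β))) := by ring
        _ ≤ _ := h1.trans h2
    have kY : ∀ (m j : ℕ), j ≤ 3 * (m + 1) → 8 * ν * 2 ^ j * (C * Kf (m + 1 + m₀) ^ (2 * β)) ≤
        rr b γ (m + m₀) := by
      intro m j hj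
      have h1 := key (m + m₀) (by omega) (8 * 2 ^ (3 * (m + 1))) (by
        have h2 : (2 : ℝ) ^ (3 * (m + 1)) ≤ 2 ^ (3 * (m + m₀) + 6) :=
          pow_le_pow_right₀ (by norm_num) (by omega)
        have h3 : (0 : ℝ) < 2 ^ (3 * (m + m₀) + 6) := by positivity
        linarith)
      have e1 : m + m₀ + 1 = m + 1 + m₀ := by omega
      rw [e1] at h1
      have h3 : (2 : ℝ) ^ j ≤ 2 ^ (3 * (m + 1)) := pow_le_pow_right₀ (by norm_num) hj
      have h4 := Real.rpow_pos_of_pos (Kf_pos (m + 1 + m₀)) (2 * β)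
      calc 8 * ν * 2 ^ j * (C * Kf (m + 1 + m₀) ^ (2 * β)) ≤
            8 * ν * 2 ^ (3 * (m + 1)) * (C * Kf (m + 1 + m₀) ^ (2 * β)) := by gcongr
        _ = 8 * 2 ^ (3 * (m + 1)) * (ν * (C * Kf (m + 1 + m₀) ^ (2 * β))) := by ring
        _ ≤ _ := h1
    refine t3_forall _ _ _ (p := fun r j => 8 * ν * 2 ^ j * (C * kc m₀ j ^ (2 * β)) ≤ r)
      (fun s => ?_) (fun s => ?_) (fun s => ?_)
    · unfold kc
      rw [show 3 * s / 3 = s by omega]
      cases s with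
      | zero => exact k0 _ (by omega)
      | succ m => exact kY m _ le_rfl
    · unfold kc
      rw [show (3 * s + 1) / 3 = s by omega]
      cases s with
      | zero => exact k0 _ (by omega)
      | succ m => exact kZ m _ (by omega)
    · unfold kc
      rw [show (3 * s + 2) / 3 = s by omega]
      cases s with
      | zero => exact k0 _ (by omega)
      | succ m => exact kZ m _ (by omega)

end

end Pool.Agent.H306.DS
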