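import Pool.Agent.H306.DS.Ref2
import Pool.Agent.H306.DS.Bes

/-! The conjugated operator: sharp bounds. -/

noncomputable section

namespace Pool.Agent.H306.DS

open Set MeasureTheory Filter

open scoped Real ContDiff ENNReal ComplexConjugate

open Pool.Agent.H306.CK

theorem kc_grow (m₀ : ℕ) (i j : ℕ) (hij : i ≤ j) :
    kc m₀ i * 2 ^ (j - i) ≤ 4 * kc m₀ j := by
  rw [kc_eq, kc_eq, ← pow_add, show (4 : ℝ) = 2 ^ 2 by norm_num, ← pow_add]
  apply pow_le_pow_right₀ (by norm_num)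
  obtain ⟨d, hd⟩ : ∃ d, j / 3 = i / 3 + d := ⟨j / 3 - i / 3, by omega⟩
  have h1 : j - i ≤ 3 * d + 2 := by omega
  have h2 : (j / 3 + m₀ + 4) ^ 2 = (i / 3 + m₀ + 4) ^ 2 + (2 * (i / 3 + m₀) + 8 + d) * d := by
    rw [hd]; ring
  have h3 : 3 * d ≤ (2 * (i / 3 + m₀) + 8 + d) * d := Nat.mul_le_mul_right d (by omega)
  omega

section

variable {κ : ℕ → ℝ} {f : ℕ → V → V} {v u : V → V}

theorem Uo_hs0 (h : Chain κ f) (hg : ∀ i j, i ≤ j → κ i * 2 ^ (j - i) ≤ 4 * κ j) (s : ℝ) :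
    ∃ C : ℝ, 0 < C ∧ ∀ v, SP v → hs s (Uo f v) ≤ ENNReal.ofReal C * hs s v := by
  obtain ⟨C, hC0, hC⟩ := Pr_hs0 h hg s
  refine ⟨2 + 8 * C, by positivity, fun v hv => ?_⟩
  have hP := (Pr_sf h hv).sp
  have hN : CP (fun x i => (-2) * Pr f v x i) := by
    have := (comb_sp hP hP (-2) 0).cp
    simpa using this
  have h1 := hs_add (t := s) hv.cp hN
  have e1 : (fun x => v x + fun i => (-2) * Pr f v x i) = Uo f v := by
    ext x i
    simp [Uo]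
  rw [e1, hs_scale] at h1
  calc hs s (Uo f v) ≤ 2 * hs s v + 2 * (ENNReal.ofReal ((-2) ^ 2) * hs s (Pr f v)) := h1
    _ ≤ 2 * hs s v + 2 * (ENNReal.ofReal ((-2) ^ 2) * (ENNReal.ofReal C * hs s v)) := by
        gcongr
        exact hC v hv
    _ = _ := by
        rw [ENNReal.ofReal_add (by norm_num) (by positivity),
          ENNReal.ofReal_mul (p := 8) (by norm_num),
          show ENNReal.ofReal ((-2) ^ 2) = 4 by norm_num, show ENNReal.ofReal 8 = 8 by norm_num,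
          ← two_eq]
        ring

/-- The conjugated operator. -/
theorem conj_bop0 (h : Chain κ f) (hg : ∀ i j, i ≤ j → κ i * 2 ^ (j - i) ≤ 4 * κ j) (α : ℝ) :
    ∃ C₁ : ℝ, Bop α α C₁ (fun v => Uo f (FA α (Uo f v))) := by
  obtain ⟨C, hC0, hC⟩ := Uo_hs0 h hg α
  have hpi := Real.pi_pos
  refine ⟨C * (2 * π) ^ 3, by positivity, fun v hv => Uo_sp h (FA_sp (Uo_sp h hv) α),
    fun v hv => Uo_sf h (FA_sf (Uo_sf h hv) α), fun v u hv hu a b => ?_, fun v hv => ?_,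
    fun v hv => ?_, fun s t hst => ?_⟩
  · rw [Uo_comb h hv hu, FA_comb (Uo_sp h hv) (Uo_sp h hu),
      Uo_comb h (FA_sp (Uo_sp h hv) α) (FA_sp (Uo_sp h hu) α)]
  · rw [inner_Uo h (FA_sp (Uo_sp h hv) α) hv]
    exact FA_nonneg (Uo_sp h hv) α
  · rw [inner_Uo h (FA_sp (Uo_sp h hv) α) hv]
    have h1 := hC _ (Uo_sp h hv)
    rw [Uo_Uo h hv, hs_FA_one (Uo_sp h hv), ← ENNReal.ofReal_mul hC0.le] at h1
    rwa [← mul_assoc] at h1
  · obtain ⟨C₁, hC₁0, hC₁⟩ := Uo_hs0 h hg s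
    obtain ⟨C₂, hC₂0, hC₂⟩ := Uo_hs0 h hg t
    refine ⟨C₁ * C₂, by positivity, fun v hv => ?_⟩
    calc hs s (Uo f (FA α (Uo f v))) ≤ ENNReal.ofReal C₁ * hs s (FA α (Uo f v)) :=
          hC₁ _ (FA_sp (Uo_sp h hv) α)
      _ = ENNReal.ofReal C₁ * hs (s + 2 * α) (Uo f v) := by rw [hs_FA (Uo_sp h hv)]
      _ ≤ ENNReal.ofReal C₁ * hs t (Uo f v) := by gcongr; exact hs_mono hst.le _
      _ ≤ ENNReal.ofReal C₁ * (ENNReal.ofReal C₂ * hs t v) := by gcongr; exact hC₂ v hv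
      _ = _ := by rw [ENNReal.ofReal_mul hC₁0.le, mul_assoc]

end

end Pool.Agent.H306.DS
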