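import Pool.Agent.H306.DS.Mom

/-! The energy of the solution. -/

noncomputable section

namespace Pool.Agent.H306.DS

open Set MeasureTheory Filter Topology

open scoped Real ContDiff ENNReal

open Pool.Agent.H306.CK

section

variable {α β C₁ θ : ℝ} {N : ℕ → ℝ} {φ : Fin 3 → ℕ → V → V} {ϖ : ℕ → V → ℝ} {m₀ : ℕ}
  {ρ A : ℕ → ℝ} {k : ℝ} {x y z : ℕ → ℝ → ℝ} {a e : ℕ → ℝ}

theorem A_geo (h : Setup β θ N φ ϖ m₀ ρ A k x y z a e) {η : ℝ} (hη : ∀ s, A s ≤ η) (s : ℕ) :
    A s ≤ η * (1 / 8) ^ s := by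
  induction s with
  | zero => simpa using hη 0
  | succ s ih =>
    have h1 := h.ratio s
    have h2 := h.A_pos s
    calc A (s + 1) ≤ 1 / 10 ^ 7 * A s := h1
      _ ≤ 1 / 8 * A s := by nlinarith
      _ ≤ 1 / 8 * (η * (1 / 8) ^ s) := by gcongr
      _ = _ := by ring

theorem P0_bd {k t : ℝ} (hk : 0 ≤ k) (ht : 0 ≤ t) : |P0 k t| ≤ 1 := by
  have h1 : Real.exp (-(k * t)) ≤ 1 := Real.exp_le_one_iff.2 (by nlinarith [mul_nonneg hk ht])
  have h2 := Real.exp_pos (-(k * t))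
  unfold P0
  rw [abs_of_pos (by positivity)]
  linarith

theorem f0_bd {k t : ℝ} (hk : 0 ≤ k) (ht : 0 ≤ t) : |f0 k t| ≤ 1 := by
  have h0 := mul_nonneg hk ht
  have h1 : Real.exp (-(k * t)) ≤ 1 := Real.exp_le_one_iff.2 (by linarith)
  have h2 := Real.exp_pos (-(k * t))
  have h3 : (k * t) * Real.exp (-(k * t)) ≤ 1 := by
    have h4 := Real.add_one_le_exp (k * t)
    have h5 : Real.exp (k * t) * Real.exp (-(k * t)) = 1 := by
      rw [← Real.exp_add, add_neg_cancel, Real.exp_zero]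
    nlinarith
  unfold f0
  rw [abs_of_nonneg (by
    have : 0 ≤ 8 * k * t := by nlinarith
    positivity)]
  nlinarith

theorem cc_bd (h : Setup β θ N φ ϖ m₀ ρ A k x y z a e) {t : ℝ} (ht : t ∈ Ioo 0 (TT ρ)) (j : ℕ) :
    |cc A k x y z j t| ≤ 4 * A (j / 3) := by
  have hk : 0 ≤ k := by linarith [h.rates.k_ge]
  have htI : t ∈ Icc 0 (TT ρ) := ⟨ht.1.le, ht.2.le⟩
  obtain ⟨s, rfl | rfl | rfl⟩ := t3_cases j
  · unfold cc
    rw [t3_0, show 3 * s / 3 = s by omega]
    have hA := h.A_pos s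
    cases s with
    | zero => simp only [cY, abs_zero]; positivity
    | succ m =>
      obtain ⟨b1, b2, b3, b4, b5, b6, b7⟩ := (h.cas.out m).bd t htI
      simp only [cY]
      rw [abs_of_nonneg (by positivity)]
      nlinarith
  · unfold cc
    rw [t3_1, show (3 * s + 1) / 3 = s by omega]
    have hA := h.A_pos s
    cases s with
    | zero =>
      simp only [cZ]
      rw [abs_mul, abs_of_pos hA]
      have := P0_bd hk ht.1.le
      nlinarith [abs_nonneg (P0 k t)]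
    | succ m =>
      obtain ⟨b1, b2, b3, b4, b5, b6, b7⟩ := (h.cas.out m).bd t htI
      simp only [cZ]
      rw [abs_of_nonneg (by positivity)]
      nlinarith
  · unfold cc
    rw [t3_2, show (3 * s + 2) / 3 = s by omega]
    have hA := h.A_pos s
    cases s with
    | zero =>
      simp only [cX, inp]
      rw [abs_mul, abs_of_pos hA]
      have := f0_bd hk ht.1.le
      nlinarith [abs_nonneg (f0 k t)]
    | succ m =>
      obtain ⟨b1, b2, b3, b4, b5, b6, b7⟩ := (h.cas.out m).bd t htI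
      simp only [cX, inp]
      rw [abs_of_nonneg (by positivity)]
      nlinarith

theorem UU_energy (h : Setup β θ N φ ϖ m₀ ρ A k x y z a e) {η : ℝ} (hη0 : 0 < η)
    (hη : ∀ s, A s ≤ η) {t : ℝ} (ht : t ∈ Ioo 0 (TT ρ)) :
    inner3 (UU φ m₀ A k x y z t) (UU φ m₀ A k x y z t) ≤ 512 * η ^ 2 := by
  have hr := (TC_cc h).rapid ht
  have h1 := ser_inner h.chain hr (v := UU φ m₀ A k x y z t) (ser_sf h.chain hr).cp
  have h2 : ∀ j, inner3 (cm φ m₀ j) (UU φ m₀ A k x y z t) = cc A k x y z j t :=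
    fun j => ser_coef h.chain hr j
  simp only [h2] at h1
  have h3 : HasSum (fun j : ℕ => 256 * η ^ 2 * (1 / 2 : ℝ) ^ j) (256 * η ^ 2 * 2) :=
    hasSum_geometric_two.mul_left _
  have h4 : ∀ j, cc A k x y z j t * cc A k x y z j t ≤ 256 * η ^ 2 * (1 / 2 : ℝ) ^ j := by
    intro j
    have h5 := cc_bd h ht j
    have h6 := A_geo h hη (j / 3)
    have h7 : (1 / 8 : ℝ) ^ (j / 3) ≤ 4 * (1 / 2) ^ j := by
      have h8 : (1 / 8 : ℝ) ^ (j / 3) = (1 / 2) ^ (3 * (j / 3)) := by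
        rw [pow_mul]; norm_num
      have h9 : (1 / 2 : ℝ) ^ (3 * (j / 3) + 2) ≤ (1 / 2) ^ j :=
        pow_le_pow_of_le_one (by norm_num) (by norm_num) (by omega)
      rw [pow_add] at h9
      rw [h8]
      linarith
    have h8 : |cc A k x y z j t| ≤ 16 * η * (1 / 2) ^ j := by
      calc |cc A k x y z j t| ≤ 4 * A (j / 3) := h5
        _ ≤ 4 * (η * (1 / 8) ^ (j / 3)) := by gcongr
        _ ≤ 4 * (η * (4 * (1 / 2) ^ j)) := by gcongr
        _ = _ := by ring
    have h9 : (1 / 2 : ℝ) ^ j ≤ 1 := pow_le_one₀ (by norm_num) (by norm_num)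
    have h10 : (0 : ℝ) < (1 / 2) ^ j := by positivity
    calc cc A k x y z j t * cc A k x y z j t = |cc A k x y z j t| * |cc A k x y z j t| :=
          (abs_mul_abs_self _).symm
      _ ≤ (16 * η * (1 / 2) ^ j) * (16 * η * (1 / 2) ^ j) := by gcongr
      _ = 256 * η ^ 2 * ((1 / 2) ^ j * (1 / 2) ^ j) := by ring
      _ ≤ 256 * η ^ 2 * (1 * (1 / 2) ^ j) := by gcongr
      _ = _ := by ring
  have h5 := hasSum_le h4 h1 h3
  unfold UU at h5 ⊢
  linarith

end

end Pool.Agent.H306.DS
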