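import Pool.Agent.H306.DS.Sol
import Pool.Agent.H306.DS.Flow1

/-! The chain of the construction is tame. -/

noncomputable section

namespace Pool.Agent.H306.DS

open Set MeasureTheory Filter Topology

open scoped Real ContDiff ENNReal

open Pool.Agent.H306.CK

def rY (ρ e : ℕ → ℝ) (s : ℕ) : ℝ :=
  match s with
  | 0 => 0
  | m + 1 => e m / (ρ (m + 1) / 8)

/-- The ratios. -/
def rt (ρ e : ℕ → ℝ) : ℕ → ℝ := t3 (rY ρ e) (fun _ => 1 / 2) (fun _ => 11 / 1000)

section

variable {β θ : ℝ} {N : ℕ → ℝ} {φ : Fin 3 → ℕ → V → V} {ϖ : ℕ → V → ℝ} {m₀ : ℕ}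
  {ρ A : ℕ → ℝ} {k : ℝ} {x y z : ℕ → ℝ → ℝ} {a e : ℕ → ℝ}

theorem rY_bd (h : Setup β θ N φ ϖ m₀ ρ A k x y z a e) (s : ℕ) : 0 ≤ rY ρ e s ∧ rY ρ e s ≤ 1 := by
  cases s with
  | zero => simp [rY]
  | succ m =>
    obtain ⟨h1, h2, h3⟩ := h.e_bd m
    have h4 := h.rates.ρ_pos (m + 1)
    have h5 := h.rates.sm1 m
    have h6 := (h.cas.out m).e_le
    simp only [rY]
    refine ⟨by positivity, ?_⟩
    rw [div_le_one (by positivity)]
    have h7 : 3 * ρ (m + 1) * ep (ρ m) (ρ (m + 1)) ≤ 3 * ρ (m + 1) * (1 / 600) := by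
      gcongr
      linarith
    linarith

theorem Setup.tame (h : Setup β θ N φ ϖ m₀ ρ A k x y z a e) :
    Tame (kc m₀) (dd ρ k) (ww ρ A k a e) (rt ρ e) where
  d0 := by
    have hk : 0 < k := by linarith [h.rates.k_ge]
    have hd : ∀ s, 0 < dY ρ k s := fun s => by
      cases s with
      | zero => exact hk
      | succ m => have := h.rates.ρ_pos m; simp only [dY]; linarith
    have hz : ∀ s, 0 < dZ ρ k s := fun s => by
      cases s with
      | zero => exact hk
      | succ m => have := h.rates.ρ_pos (m + 1); simp only [dZ]; linarith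
    exact t3_forall _ _ _ (p := fun r _ => 0 < r) hd hz hz
  r0 := t3_forall _ _ _ (p := fun r _ => 0 ≤ r) (fun s => (rY_bd h s).1) (fun _ => by norm_num)
    (fun _ => by norm_num)
  r1 := t3_forall _ _ _ (p := fun r _ => r ≤ 1) (fun s => (rY_bd h s).2) (fun _ => by norm_num)
    (fun _ => by norm_num)
  wd := by
    intro j
    obtain ⟨s, rfl | rfl | rfl⟩ := t3_cases j
    · unfold dd ww rt
      rw [t3_0, t3_0, t3_1]
      cases s with
      | zero => simp [wY, rY]
      | succ m =>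
        obtain ⟨h1, h2, h3⟩ := h.e_bd m
        have h4 := h.rates.ρ_pos (m + 1)
        simp only [wY, rY, dZ]
        rw [abs_of_pos h1, div_mul_cancel₀ _ (by positivity)]
    · unfold dd ww rt
      rw [t3_1, t3_1, show 3 * s + 1 + 1 = 3 * s + 2 by ring, t3_2]
      cases s with
      | zero =>
        have := h.rates.k_ge
        simp only [wZ, dZ]
        rw [abs_of_nonneg (by linarith)]
        linarith
      | succ m =>
        have := h.rates.ρ_pos (m + 1)
        simp only [wZ, dZ]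
        rw [abs_of_nonneg (by linarith)]
        linarith
    · unfold dd ww rt
      rw [t3_2, t3_2, show 3 * s + 2 + 1 = 3 * (s + 1) by ring, t3_0]
      obtain ⟨h1, h2⟩ := h.wX_bd s
      simp only [dY]
      rw [abs_of_nonneg h1]
      exact h2
  tm := by
    intro t ht
    obtain ⟨p, hp⟩ := h.Kρ
    obtain ⟨n, hn⟩ := exists_nat_ge t
    obtain ⟨C, hC⟩ := h.rates.fast (p * n)
    refine ⟨24 * |C| + 1, fun j => ?_⟩
    have hk1 : 1 ≤ kc m₀ j := Kf_one_le _
    have hkt : 1 ≤ kc m₀ j ^ t := Real.one_le_rpow hk1 ht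
    have hC0 := abs_nonneg C
    obtain ⟨s, rfl | rfl | rfl⟩ := t3_cases j
    · -- the step `Z`
      have e1 : kc m₀ (3 * s + 1) = kc m₀ (3 * s) := by
        unfold kc; congr 2; omega
      have e2 : rt ρ e (3 * s + 1) = 1 / 2 := by unfold rt; rw [t3_1]
      rw [e1, e2]
      nlinarith
    · have e1 : kc m₀ (3 * s + 1 + 1) = kc m₀ (3 * s + 1) := by
        unfold kc; congr 2; omega
      have e2 : rt ρ e (3 * s + 1 + 1) = 11 / 1000 := by
        unfold rt; rw [show 3 * s + 1 + 1 = 3 * s + 2 by ring, t3_2]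
      rw [e1, e2]
      nlinarith
    · have e1 : kc m₀ (3 * s + 2 + 1) = Kf (s + 1 + m₀) := by
        unfold kc; congr 2; omega
      have e2 : rt ρ e (3 * s + 2 + 1) = e s / (ρ (s + 1) / 8) := by
        unfold rt; rw [show 3 * s + 2 + 1 = 3 * (s + 1) by ring, t3_0]; rfl
      have h4 := h.rates.ρ_pos (s + 1)
      have h6 := (h.cas.out s).e_le
      have h7 := hC s
      have h8 := ep_pos (ρ s) (ρ (s + 1))
      have hK := Kf_one_le (s + 1 + m₀)
      have h9 : Kf (s + 1 + m₀) ^ t ≤ ρ (s + 1) ^ (p * n) := by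
        calc Kf (s + 1 + m₀) ^ t ≤ Kf (s + 1 + m₀) ^ (n : ℝ) :=
              Real.rpow_le_rpow_of_exponent_le hK hn
          _ = Kf (s + 1 + m₀) ^ n := Real.rpow_natCast _ _
          _ ≤ (ρ (s + 1) ^ p) ^ n := pow_le_pow_left₀ (Kf_pos _).le (hp (s + 1)) n
          _ = _ := (pow_mul _ _ _).symm
      have h10 := Real.rpow_pos_of_pos (Kf_pos (s + 1 + m₀)) t
      rw [e1, e2]
      calc e s / (ρ (s + 1) / 8) * Kf (s + 1 + m₀) ^ t ≤
            (3 * ρ (s + 1) * ep (ρ s) (ρ (s + 1))) / (ρ (s + 1) / 8) * ρ (s + 1) ^ (p * n) := by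
            gcongr
        _ = 24 * (ep (ρ s) (ρ (s + 1)) * ρ (s + 1) ^ (p * n)) := by
            field_simp
            ring
        _ ≤ 24 * C := by gcongr
        _ ≤ (24 * |C| + 1) * 1 := by linarith [le_abs_self C]
        _ ≤ _ := by gcongr

end

end Pool.Agent.H306.DS
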