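import Pool.Agent.H306.DS.Op
import Pool.Agent.H306.CK.Uniq

/-! Uniqueness of classical solutions that are smooth in space. -/

noncomputable section

namespace Pool.Agent.H306.DS

open Set MeasureTheory Filter Topology

open scoped Real ContDiff

open Pool.Agent.H306.CK

/-- The properties of the linear term. -/
structure LinS (K : (V → V) → V → V) : Prop where
  sub : ∀ v w, SF v → SF w → K (v - w) = K v - K w
  cont : ∀ v, SF v → Continuous (K v)
  dis : ∀ v, SF v → inner3 v (K v) ≤ 0

theorem sf_sub {v w : V → V} (hv : SF v) (hw : SF w) : SF (v - w) := by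
  have h := comb_sf hv hw 1 (-1)
  have h1 : (fun x i => 1 * v x i + -1 * w x i) = v - w := by
    ext x i
    simp only [Pi.sub_apply]
    ring
  rwa [h1] at h

section

variable {K : (V → V) → V → V} {T : ℝ} {u v : ℝ → V → V} {p q : ℝ → V → ℝ}

/-- The energy balance of the difference of two solutions. -/
theorem diff_energyS (hK : LinS K) (hu : IsSol K (Ico 0 T) u p) (hv : IsSol K (Ico 0 T) v q)
    (hus : ∀ t ∈ Ico 0 T, SF (u t)) (hvs : ∀ t ∈ Ico 0 T, SF (v t)) {t : ℝ}
    (ht : t ∈ Ioo 0 T) :
    HasDerivAt (fun s => ∫ x in torus, ∑ i, (u s x i - v s x i) ^ 2)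
      (2 * inner3 (u t - v t) (K (u t - v t)) - 2 * ∫ x in torus, ∑ i, ∑ j,
        (u t x i - v t x i) * (u t x j - v t x j) * pd j (fun y => u t y i) x) t := by
  have htI := Ioo_subset_Ico_self ht
  have hf : ContDiffOn ℝ 1 (fun z : ℝ × V => ∑ i, (u z.1 z.2 i - v z.1 z.2 i) ^ 2)
      (Ico 0 T ×ˢ univ) :=
    ContDiffOn.sum fun i _ => ((hu.comp_contDiffOn i).sub (hv.comp_contDiffOn i)).pow 2
  have h1 := param_deriv hf ht
  refine h1.congr_deriv ?_
  have hui := fun i => hu.comp_contDiff htI i
  have hvi := fun i => hv.comp_contDiff htI i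
  have hp := slice_contDiff hu.c1_p htI
  have hq := slice_contDiff hv.c1_p htI
  have hwi : ∀ i, ContDiff ℝ 1 (fun y => u t y i - v t y i) := fun i => (hui i).sub (hvi i)
  have hr : ContDiff ℝ 1 (fun y => p t y - q t y) := hp.sub hq
  have hW : ContDiff ℝ 1 (fun y => ∑ i, (u t y i - v t y i) ^ 2) :=
    ContDiff.sum fun i _ => (hwi i).pow 2
  -- the two divergences
  set F : V → V := fun y j => v t y j * ∑ i, (u t y i - v t y i) ^ 2 with hF
  set H : V → V := fun y j => (u t y j - v t y j) * (p t y - q t y) with hH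
  have hFc : ContDiff ℝ 1 F := contDiff_pi.2 fun j => (hvi j).mul hW
  have hHc : ContDiff ℝ 1 H := contDiff_pi.2 fun j => (hwi j).mul hr
  have hFp : Periodic3 F := fun i y => by
    simp only [hF]; rw [hu.per_u t htI, hv.per_u t htI]
  have hHp : Periodic3 H := fun i y => by
    simp only [hH]; rw [hu.per_u t htI, hv.per_u t htI, hu.per_p t htI, hv.per_p t htI]
  have hF0 := div_int hFc hFp
  have hH0 := div_int hHc hHp
  have hKw : K (u t - v t) = K (u t) - K (v t) := hK.sub _ _ (hus t htI) (hvs t htI)
  have hpt : ∀ x, deriv (fun s => ∑ i, (u s x i - v s x i) ^ 2) t =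
      2 * (∑ i, (u t - v t) x i * K (u t - v t) x i) -
      2 * (∑ i, ∑ j, (u t x i - v t x i) * (u t x j - v t x j) * pd j (fun y => u t y i) x) -
      (∑ i, pd i (fun y => F y i) x) - 2 * ∑ i, pd i (fun y => H y i) x := by
    intro x
    have hd : HasDerivAt (fun s => ∑ i, (u s x i - v s x i) ^ 2)
        (∑ i, 2 * (u t x i - v t x i) * ((K (u t) x i -
          ∑ j, u t x j * pd j (fun y => u t y i) x - pd i (p t) x) -
          (K (v t) x i - ∑ j, v t x j * pd j (fun y => v t y i) x - pd i (q t) x))) t := by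
      refine HasDerivAt.fun_sum fun i _ => ?_
      have h2 := ((hu.time_deriv ht x i).sub (hv.time_deriv ht x i)).pow 2
      refine h2.congr_deriv ?_
      simp
    rw [hd.deriv, hKw]
    have hFd : ∑ i, pd i (fun y => F y i) x =
        ∑ j, (v t x j * ∑ i, 2 * (u t x i - v t x i) *
          (pd j (fun y => u t y i) x - pd j (fun y => v t y i) x)) := by
      have h3 : ∀ j, pd j (fun y => F y j) x = v t x j * (∑ i, 2 * (u t x i - v t x i) *
          (pd j (fun y => u t y i) x - pd j (fun y => v t y i) x)) +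
          (∑ i, (u t x i - v t x i) ^ 2) * pd j (fun y => v t y j) x := by
        intro j
        simp only [hF]
        rw [pd_mul (hvi j) hW]
        congr 2
        have h4 : ∀ i, ContDiff ℝ 1 (fun y => (u t y i - v t y i) ^ 2) := fun i => (hwi i).pow 2
        rw [pd_sum h4]
        refine Finset.sum_congr rfl fun i _ => ?_
        have h5 : (fun y => (u t y i - v t y i) ^ 2) =
            fun y => (u t y i - v t y i) * (u t y i - v t y i) := by
          ext y; ring
        rw [h5, pd_mul (hwi i) (hwi i), pd_sub (hui i) (hvi i)]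
        ring
      simp only [h3]
      rw [Finset.sum_add_distrib, ← Finset.mul_sum, hv.div_free t htI x, mul_zero, add_zero]
    have hHd : ∑ i, pd i (fun y => H y i) x =
        ∑ i, (u t x i - v t x i) * (pd i (p t) x - pd i (q t) x) := by
      have h3 : ∀ i, pd i (fun y => H y i) x = (u t x i - v t x i) *
          (pd i (p t) x - pd i (q t) x) + (p t x - q t x) *
          (pd i (fun y => u t y i) x - pd i (fun y => v t y i) x) := by
        intro i
        simp only [hH]
        rw [pd_mul (hwi i) hr, pd_sub (hui i) (hvi i), pd_sub hp hq]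
      simp only [h3]
      rw [Finset.sum_add_distrib, ← Finset.mul_sum, Finset.sum_sub_distrib,
        hu.div_free t htI x, hv.div_free t htI x]
      ring
    rw [hFd, hHd]
    simp only [Fin.sum_univ_three, Pi.sub_apply]
    ring
  simp only [hpt]
  have hKc : Continuous (K (u t - v t)) := hK.cont _ (sf_sub (hus t htI) (hvs t htI))
  have hcu := (hu.cp htI).1
  have hcv := (hv.cp htI).1
  have c1 : Continuous fun x => ∑ i, (u t - v t) x i * K (u t - v t) x i := by
    have : Continuous (u t - v t) := hcu.sub hcv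
    fun_prop
  have c2 : Continuous fun x => ∑ i, ∑ j, (u t x i - v t x i) * (u t x j - v t x j) *
      pd j (fun y => u t y i) x := by
    have := fun i j => pd_continuous (hui i) j
    fun_prop
  have c3 : Continuous fun x => ∑ i, pd i (fun y => F y i) x := by
    refine continuous_finsetSum _ fun i _ => pd_continuous (contDiff_pi.1 hFc i) i
  have c4 : Continuous fun x => ∑ i, pd i (fun y => H y i) x := by
    refine continuous_finsetSum _ fun i _ => pd_continuous (contDiff_pi.1 hHc i) i
  have i1 := cont_int c1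
  have i2 := cont_int c2
  have i3 := cont_int c3
  have i4 := cont_int c4
  rw [int_comb i1 i2 i3 i4, hF0, hH0]
  unfold inner3
  ring

/-- Uniqueness of classical solutions. -/
theorem uniqueS (hK : LinS K) (hu : IsSol K (Ico 0 T) u p) (hv : IsSol K (Ico 0 T) v q)
    (hus : ∀ t ∈ Ico 0 T, SF (u t)) (hvs : ∀ t ∈ Ico 0 T, SF (v t)) (h0 : u 0 = v 0) : ∀ t ∈ Ico 0 T, u t = v t := by
  intro t ht
  rcases ht.1.eq_or_lt with h | htpos
  · rw [← h]; exact h0
  obtain ⟨t₁, ht1, ht1T⟩ := exists_between ht.2
  have hc : IsCompact (Icc 0 t₁ ×ˢ torus) := isCompact_Icc.prod torus_compact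
  have hb : ∀ i j, ∃ C, ∀ z ∈ Icc 0 t₁ ×ˢ torus, ‖pd j (fun y => u z.1 y i) z.2‖ ≤ C := fun i j =>
    hc.exists_bound_of_continuousOn
      ((pd_continuousOn (f := fun t y => u t y i) (hu.comp_contDiffOn i) j).mono
        (cell_subset ht1T))
  choose C hC using hb
  set M : ℝ := ∑ i, ∑ j, |C i j| with hM
  have hM0 : 0 ≤ M := Finset.sum_nonneg fun i _ => Finset.sum_nonneg fun j _ => abs_nonneg _
  have hCM : ∀ i j, ∀ z ∈ Icc 0 t₁ ×ˢ torus, |pd j (fun y => u z.1 y i) z.2| ≤ M := by
    intro i j z hz
    refine (hC i j z hz).trans ((le_abs_self _).trans ?_)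
    exact (Finset.single_le_sum (f := fun j => |C i j|) (fun j _ => abs_nonneg _)
      (Finset.mem_univ j)).trans (Finset.single_le_sum (f := fun i => ∑ j, |C i j|)
      (fun i _ => Finset.sum_nonneg fun j _ => abs_nonneg _) (Finset.mem_univ i))
  set E : ℝ → ℝ := fun s => ∫ x in torus, ∑ i, (u s x i - v s x i) ^ 2 with hE
  have hEc : ContinuousOn E (Ico 0 T) := by
    refine param_continuousOn (f := fun z : ℝ × V => ∑ i, (u z.1 z.2 i - v z.1 z.2 i) ^ 2) ?_
    exact (ContDiffOn.sum fun i _ =>
      ((hu.comp_contDiffOn i).sub (hv.comp_contDiffOn i)).pow 2).continuousOn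
  have hE0 : E 0 = 0 := by
    simp only [hE, h0]
    simp
  have hcs : ∀ s ∈ Ico 0 T, Continuous fun x => ∑ i, (u s x i - v s x i) ^ 2 := by
    intro s hs
    have h1 := (hu.cp hs).1
    have h2 := (hv.cp hs).1
    fun_prop
  have hgrow : ∀ a, 0 < a → a ≤ t → E t ≤ E a * Real.exp (6 * M * (t - a)) := by
    intro a ha hat
    refine gron_upper hat fun s hs => ?_
    have hsT : s ∈ Ioo 0 T := ⟨ha.trans_le hs.1, hs.2.trans_lt ht.2⟩
    have hsI := Ioo_subset_Ico_self hsT
    refine ⟨_, diff_energyS hK hu hv hus hvs hsT, ?_⟩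
    have h1 := hK.dis (u s - v s) (sf_sub (hus s hsI) (hvs s hsI))
    have hcu := (hu.cp hsI).1
    have hcv := (hv.cp hsI).1
    have c2 : Continuous fun x => ∑ i, ∑ j, (u s x i - v s x i) * (u s x j - v s x j) *
        pd j (fun y => u s y i) x := by
      have := fun i j => pd_continuous (hu.comp_contDiff hsI i) j
      fun_prop
    have h2 : -∫ x in torus, ∑ i, ∑ j, (u s x i - v s x i) * (u s x j - v s x j) *
        pd j (fun y => u s y i) x ≤ 3 * M * E s := by
      rw [← integral_neg, hE, ← integral_const_mul]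
      refine setIntegral_mono_on (cont_int c2).neg ((cont_int (hcs s hsI)).const_mul _)
        torus_meas fun x hx => ?_
      have h3 : ∀ i j, |(u s x i - v s x i) * (u s x j - v s x j) *
          pd j (fun y => u s y i) x| ≤ M * ((u s x i - v s x i) ^ 2 +
            (u s x j - v s x j) ^ 2) / 2 := by
        intro i j
        rw [abs_mul]
        have h4 := hCM i j (s, x) ⟨⟨hsT.1.le, hs.2.trans ht1.le⟩, hx⟩
        simp only at h4
        have h5 : |(u s x i - v s x i) * (u s x j - v s x j)| ≤
            ((u s x i - v s x i) ^ 2 + (u s x j - v s x j) ^ 2) / 2 := by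
          rw [abs_le]
          constructor <;> nlinarith [sq_nonneg ((u s x i - v s x i) + (u s x j - v s x j)),
            sq_nonneg ((u s x i - v s x i) - (u s x j - v s x j))]
        calc _ ≤ (((u s x i - v s x i) ^ 2 + (u s x j - v s x j) ^ 2) / 2) * M :=
              mul_le_mul h5 h4 (abs_nonneg _) (by positivity)
          _ = _ := by ring
      have h6 : -∑ i, ∑ j, (u s x i - v s x i) * (u s x j - v s x j) *
          pd j (fun y => u s y i) x ≤ ∑ i, ∑ j, M * ((u s x i - v s x i) ^ 2 +
            (u s x j - v s x j) ^ 2) / 2 := by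
        rw [← Finset.sum_neg_distrib]
        refine Finset.sum_le_sum fun i _ => ?_
        rw [← Finset.sum_neg_distrib]
        exact Finset.sum_le_sum fun j _ => (neg_le_abs _).trans (h3 i j)
      refine h6.trans (le_of_eq ?_)
      simp only [Fin.sum_univ_three]
      ring
    linarith
  have hlim : Tendsto (fun a => E a * Real.exp (6 * M * (t - a))) (𝓝[>] 0) (𝓝 0) := by
    have h1 : Tendsto E (𝓝[>] 0) (𝓝 (E 0)) := by
      have h2 : ContinuousWithinAt E (Ico 0 T) 0 := hEc 0 ⟨le_rfl, htpos.trans ht.2⟩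
      exact h2.mono_left (by
        rw [nhdsWithin_le_iff]
        filter_upwards [self_mem_nhdsWithin,
          mem_nhdsWithin_of_mem_nhds (Iio_mem_nhds (htpos.trans ht.2))] with s h3 h4
        exact ⟨le_of_lt h3, h4⟩)
    rw [hE0] at h1
    have h2 : Tendsto (fun a => Real.exp (6 * M * (t - a))) (𝓝[>] 0)
        (𝓝 (Real.exp (6 * M * (t - 0)))) := by
      have : Continuous fun a => Real.exp (6 * M * (t - a)) := by fun_prop
      exact this.continuousAt.continuousWithinAt
    have h3 := h1.mul h2
    rwa [zero_mul] at h3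
  have hEt : E t ≤ 0 := by
    refine ge_of_tendsto hlim ?_
    filter_upwards [self_mem_nhdsWithin,
      mem_nhdsWithin_of_mem_nhds (Iic_mem_nhds htpos)] with a h1 h2
    exact hgrow a h1 h2
  have hEnn : 0 ≤ E t := integral_nonneg fun x => Finset.sum_nonneg fun i _ => sq_nonneg _
  have hEz : ∫ x in torus, ∑ i, (u t x i - v t x i) ^ 2 = 0 := le_antisymm hEt hEnn
  have hz := eq_zero_of_int (hcs t ht) (fun x => Finset.sum_nonneg fun i _ => sq_nonneg _)
    (fun i y => by rw [hu.per_u t ht, hv.per_u t ht]) hEz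
  ext x i
  have h1 := (Finset.sum_eq_zero_iff_of_nonneg fun i _ => sq_nonneg _).1 (hz x) i
    (Finset.mem_univ i)
  have h2 := pow_eq_zero_iff (n := 2) (by norm_num) |>.1 h1
  linarith

end

end Pool.Agent.H306.DS
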