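import Pool.Agent.H306.DS.Geo7
import Pool.Agent.H306.DS.Parm
import Pool.Agent.H306.DS.Mom
import Pool.Agent.H306.DS.Uniq2
import Pool.Agent.H306.DS.Flow3
import Pool.Agent.H306.DS.Tam
import Pool.Agent.H306.DS.Ref3
import Pool.Agent.H306.DS.Eul
import Pool.Agent.H306.DS.Small

/-! Blow-up. -/

noncomputable section

namespace Pool.Agent.H306.DS

open Set MeasureTheory Filter Topology

open scoped Real ContDiff ENNReal

open Pool.Agent.H306.CK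

section

variable {K : (V → V) → V → V} {T : ℝ} {u : ℝ → V → V} {p : ℝ → V → ℝ}

theorem sol_restrict {T' : ℝ} (hv : IsSol K (Ico 0 T') u p) (h : T ≤ T') :
    IsSol K (Ico 0 T) u p := by
  rcases h.eq_or_lt with h | hcon
  · rw [h]; exact hv
  have hs : Ico 0 T ⊆ Ico 0 T' := Ico_subset_Ico_right hcon.le
  refine ⟨hv.c1_u.mono (prod_mono hs Subset.rfl), hv.c1_p.mono (prod_mono hs Subset.rfl),
    fun t ht => hv.per_u t (hs ht), fun t ht => hv.per_p t (hs ht),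
    fun t ht => hv.div_free t (hs ht), fun t ht y i => ?_⟩
  have h1 := hv.momentum t (hs ht) y i
  rw [← h1]
  congr 2
  have hnb : Ico 0 T =ᶠ[𝓝 t] Ico 0 T' := by
    filter_upwards [Iio_mem_nhds ht.2] with s hs2
    have hs3 : s < T := hs2
    change (0 ≤ s ∧ s < T) = (0 ≤ s ∧ s < T')
    rw [eq_iff_iff]
    constructor
    · rintro ⟨a, b⟩; exact ⟨a, b.trans hcon⟩
    · rintro ⟨a, -⟩; exact ⟨a, hs3⟩
  exact derivWithin_congr_set hnb

/-- The velocity is bounded on compact time intervals. -/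
theorem vel_bounded (hu : IsSol K (Ico 0 T) u p) {t₁ : ℝ} (ht : t₁ < T) :
    ∃ M : ℝ, ∀ t ∈ Icc 0 t₁, ∀ x, ‖u t x‖ ≤ M := by
  have hc : IsCompact (Icc 0 t₁ ×ˢ torus) := isCompact_Icc.prod torus_compact
  obtain ⟨M, hM⟩ := hc.exists_bound_of_continuousOn
    (f := fun z : ℝ × V => u z.1 z.2) (hu.c1_u.continuousOn.mono (cell_subset ht))
  refine ⟨M, fun t htt x => ?_⟩
  have htT : t ∈ Ico 0 T := ⟨htt.1, htt.2.trans_lt ht⟩
  obtain ⟨y, hy, hrep⟩ := exists_rep x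
  have h1 := hrep (fun x => ‖u t x‖) (fun i x => by simp only; rw [hu.per_u t htT])
  rw [h1]
  exact hM (t, y) ⟨htt, hy⟩

end

section

variable {α β θ : ℝ} {N : ℕ → ℝ} {φ : Fin 3 → ℕ → V → V} {ϖ : ℕ → V → ℝ} {m₀ : ℕ}
  {ρ A : ℕ → ℝ} {k : ℝ} {x y z : ℕ → ℝ → ℝ} {a e : ℕ → ℝ}

/-- The dissipative linear term. -/
theorem linS {C₁ : ℝ} {B : (V → V) → V → V} (hB : Bop α β C₁ B)
    (h : Chain (kc m₀) (cm φ m₀)) {d w : ℕ → ℝ} (hc : Coefs β (kc m₀) d w) {ν C : ℝ}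
    (hν : 0 < ν) (hC0 : 0 < C)
    (hC : ∀ j, hs α (cm φ m₀ j) ≤ ENNReal.ofReal (C * kc m₀ j ^ (2 * α)))
    (hd : ∀ j, 8 * ν * 2 ^ j * (C * kc m₀ j ^ (2 * α)) ≤ d j) :
    LinS (fun v x => -Dop B (2 * ν * C₁) (cm φ m₀) d w v x) where
  sub := fun v u hv hu => by
    have h1 := Dop_comb h hc hB hv.sp hu.sp (2 * ν * C₁) 1 (-1)
    have h2 : (fun x i => 1 * v x i + -1 * u x i) = v - u := by
      ext x i
      simp only [Pi.sub_apply]
      ring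
    rw [h2] at h1
    ext x i
    have h3 := congrFun (congrFun h1 x) i
    simp only [Pi.neg_apply, Pi.sub_apply]
    rw [h3]
    ring
  cont := fun v hv => (Dop_sf h hc hB hv _).cp.1.neg
  dis := fun v hv => by
    have h1 := Dop_coercive h hc hB hν hC0 hC hd hv.sp
    have h2 : inner3 v (fun x => -Dop B (2 * ν * C₁) (cm φ m₀) d w v x) =
        -inner3 (Dop B (2 * ν * C₁) (cm φ m₀) d w v) v := by
      unfold inner3
      rw [← MeasureTheory.integral_neg]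
      congr 1
      ext x
      rw [← Finset.sum_neg_distrib]
      exact Finset.sum_congr rfl fun i _ => by
        simp only [Pi.neg_apply]
        ring
    rw [h2]
    by_contra hcon
    push Not at hcon
    have h3 : inner3 (Dop B (2 * ν * C₁) (cm φ m₀) d w v) v < 0 := by linarith
    rw [ENNReal.ofReal_of_nonpos h3.le] at h1
    have h4 : hs α v = 0 := by
      have h5 := le_antisymm h1 zero_le
      rcases mul_eq_zero.1 h5 with h6 | h6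
      · have := ENNReal.ofReal_eq_zero.1 h6
        linarith
      · exact h6
    -- then all Fourier integrals vanish
    have h5 : ∀ i k, fc (fun x => v x i) k = 0 := by
      intro i k
      rw [hs_def, ENNReal.tsum_eq_zero] at h4
      have h6 := ENNReal.ofReal_eq_zero.1 (h4 k)
      have h7 : ‖fc (fun x => v x i) k‖ ^ 2 ≤ ∑ i, ‖fc (fun x => v x i) k‖ ^ 2 :=
        Finset.single_le_sum (f := fun i => ‖fc (fun x => v x i) k‖ ^ 2)
          (fun i _ => sq_nonneg _) (Finset.mem_univ i)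
      have h8 : ∑ i, ‖fc (fun x => v x i) k‖ ^ 2 ≤ 0 := by
        by_contra h9
        push Not at h9
        have := mul_pos (W_pos α k) h9
        linarith
      have h9 := (sq_nonneg _).antisymm' (h7.trans h8)
      exact norm_eq_zero.1 ((pow_eq_zero_iff two_ne_zero).1 h9)
    have h6 := parseval3 (Dop_sf h hc hB hv (2 * ν * C₁)).cp hv.cp
    simp only [h5, mul_zero, Finset.sum_const_zero] at h6
    have h7 := h6.unique hasSum_zero
    rw [Complex.ofReal_eq_zero] at h7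
    have hpi := Real.pi_pos
    have : (2 * π) ^ 3 * inner3 (Dop B (2 * ν * C₁) (cm φ m₀) d w v) v < 0 :=
      mul_neg_of_pos_of_neg (by positivity) h3
    linarith

/-- The value of the solution at the test points. -/
theorem UU_point (h : Setup β θ N φ ϖ m₀ ρ A k x y z a e) {m : ℕ} {ξ : V}
    (hξ : ∀ i n', ¬(i = 2 ∧ n' = m + 1 + m₀) → φ i n' ξ 1 = 0) (t : ℝ) :
    UU φ m₀ A k x y z t ξ 1 = A (m + 1) * x m t * φ 2 (m + 1 + m₀) ξ 1 := by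
  obtain ⟨k0, k1, k2⟩ := kd_s m
  have n2 : cm φ m₀ (3 * (m + 1) + 2) = φ 2 (m + 1 + m₀) := by
    unfold cm
    rw [k2, show (3 * (m + 1) + 2) / 3 = m + 1 by omega]
  have c2 : cc A k x y z (3 * (m + 1) + 2) t = A (m + 1) * x m t := by
    unfold cc; rw [t3_2]; rfl
  unfold UU ser
  refine (tsum_eq_single (3 * (m + 1) + 2) (fun j hj => ?_)).trans ?_
  · have h1 : cm φ m₀ j ξ 1 = 0 := by
      unfold cm
      apply hξ
      rintro ⟨h2, h3⟩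
      apply hj
      apply kd_inj
      · rw [h2, k2]
      · omega
    rw [h1, mul_zero]
  · simp only
    rw [c2, n2]

/-- Growth of the amplitudes. -/
theorem amp_grow (h : Setup β θ N φ ϖ m₀ ρ A k x y z a e) (hβ : 0 < β) (hθ : θ ≤ 2 * β)
    (hρ : ∀ s, ρ s = rr (2 * β) (4 * β + 4) (s + m₀)) (M : ℝ) :
    ∃ s₀ : ℕ, ∀ s, s₀ ≤ s → M ≤ A s * Kf (s + m₀) ^ θ := by
  obtain ⟨CN, hCN, hN2⟩ := h.modes.N_le
  obtain ⟨s₀, hs₀⟩ := exists_nat_ge (M * CN)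
  refine ⟨s₀, fun s hs => ?_⟩
  have hs1 : M * CN ≤ s := hs₀.trans (by exact_mod_cast hs)
  have h1 := h.NA s
  have h2 := hN2 (s + m₀)
  have h3 := h.A_pos s
  have hK := Kf_pos (s + m₀)
  have hKθ := Real.rpow_pos_of_pos hK θ
  have h4 : Kf (s + m₀) ^ (2 * θ) = Kf (s + m₀) ^ θ * Kf (s + m₀) ^ θ := by
    rw [← Real.rpow_add hK]; congr 1; ring
  -- `ρ ≤ C_N A K^{2θ}`
  have h5 : ρ s ≤ CN * (A s * Kf (s + m₀) ^ θ) * Kf (s + m₀) ^ θ := by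
    calc ρ s = N (s + m₀) * A s := h1.symm
      _ ≤ CN * Kf (s + m₀) ^ (2 * θ) * A s := by gcongr
      _ = _ := by rw [h4]; ring
  have h6 : (s : ℝ) * Kf (s + m₀) ^ θ ≤ ρ s := by
    rw [hρ, rr_split, mul_comm]
    have h7 : Kf (s + m₀) ^ θ ≤ Kf (s + m₀) ^ (2 * β) :=
      Real.rpow_le_rpow_of_exponent_le (Kf_one_le _) hθ
    have h8 : (s : ℝ) ≤ 2 ^ ((4 * β + 4) * (((s + m₀ : ℕ) : ℝ) + 4)) := by
      have h9 : (s : ℝ) ≤ 2 ^ s := by exact_mod_cast Nat.lt_two_pow_self.le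
      refine h9.trans ?_
      rw [← Real.rpow_natCast]
      apply Real.rpow_le_rpow_of_exponent_le (by norm_num)
      have h10 : (0 : ℝ) ≤ s := Nat.cast_nonneg s
      have h11 : (0 : ℝ) ≤ m₀ := Nat.cast_nonneg m₀
      push_cast
      nlinarith [mul_nonneg hβ.le h10, mul_nonneg hβ.le h11]
    gcongr
  have h7 : (s : ℝ) * Kf (s + m₀) ^ θ ≤ (CN * (A s * Kf (s + m₀) ^ θ)) * Kf (s + m₀) ^ θ :=
    h6.trans h5
  have h8 := le_of_mul_le_mul_right h7 hKθ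
  have h9 : CN * M ≤ CN * (A s * Kf (s + m₀) ^ θ) := by linarith
  exact le_of_mul_le_mul_left h9 hCN

/-- The velocity blows up. -/
theorem UU_blow (h : Setup β θ N φ ϖ m₀ ρ A k x y z a e) (hβ : 0 < β) (hθ : θ ≤ 2 * β)
    (hρ : ∀ s, ρ s = rr (2 * β) (4 * β + 4) (s + m₀)) (M : ℝ) :
    ∃ t₀ < TT ρ, ∀ t, t₀ ≤ t → t < TT ρ → ∃ ξ, M < ‖UU φ m₀ A k x y z t ξ‖ := by
  obtain ⟨c, hc, hpt⟩ := h.modes.point
  obtain ⟨s₀, hs₀⟩ := amp_grow h hβ hθ hρ ((|M| + 1) * 12800 / c)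
  set m := s₀ with hm
  have hR := h.rates
  have h1 := ta_lt hR (m + 1)
  rw [ta_succ hR m] at h1
  have hr := hR.ρ_pos (m + 1)
  have h2 : 1 / (2 * ρ (m + 1)) ≤ 1 / ρ (m + 1) :=
    one_div_le_one_div_of_le (by linarith) (by linarith)
  refine ⟨ta ρ m + 1 / (2 * ρ (m + 1)), by linarith, fun t ht htT => ?_⟩
  obtain ⟨ξ, hξ1, hξ2⟩ := hpt (m + 1 + m₀)
  refine ⟨ξ, ?_⟩
  have h3 := (h.cas.out m).low t ht htT.le
  have h4 := UU_point h hξ2 t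
  have h5 := hs₀ (m + 1) (by omega)
  have h6 := h.A_pos (m + 1)
  have hKθ := Real.rpow_pos_of_pos (Kf_pos (m + 1 + m₀)) θ
  have h7 : |M| + 1 ≤ UU φ m₀ A k x y z t ξ 1 := by
    rw [h4]
    calc |M| + 1 = ((|M| + 1) * 12800 / c) * (1 / 12800 * c) := by field_simp
      _ ≤ (A (m + 1) * Kf (m + 1 + m₀) ^ θ) * (1 / 12800 * c) := by gcongr
      _ = A (m + 1) * (1 / 12800) * (c * Kf (m + 1 + m₀) ^ θ) := by ring
      _ ≤ A (m + 1) * x m t * φ 2 (m + 1 + m₀) ξ 1 := by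
          gcongr
  have h8 := norm_le_pi_norm (UU φ m₀ A k x y z t ξ) 1
  rw [Real.norm_eq_abs] at h8
  have h9 := le_abs_self M
  have h10 := le_abs_self (UU φ m₀ A k x y z t ξ 1)
  linarith

end

/-- The main theorem. -/
theorem main (ν α ε : ℝ) (hν : 0 < ν) (hα : 0 < α) (hα1 : α < 1) (hε : 0 < ε) :
    ∃ D : (V → V) → V → V,
      (∀ v, SF v → SF (D v)) ∧
      (∀ v w, SF v → SF w → ∀ a b : ℝ,
        D (fun x i => a * v x i + b * w x i) = fun x i => a * D v x i + b * D w x i) ∧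
      (∀ v, SF v → ENNReal.ofReal ν * hs α v ≤ ENNReal.ofReal (inner3 (D v) v)) ∧
      (∀ s t : ℝ, s + 2 * α < t → ∃ C : ℝ, ∀ v, SF v → hs s (D v) ≤ ENNReal.ofReal C * hs t v) ∧
      (∃ E : ℝ → (V → V) → V → V,
        (∀ v, SF v → E 0 v = v) ∧
        (∀ v, SF v → ∀ τ : ℝ, 0 ≤ τ → SF (E τ v) ∧ ∀ x i,
          HasDerivWithinAt (fun σ => E σ v x i) (-D (E τ v) x i) (Ici 0) τ) ∧
        ∀ s t : ℝ, s < t → ∃ C : ℝ, ∀ v, SF v → ∀ τ : ℝ, 0 ≤ τ →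
          hs s (E τ v) ≤ ENNReal.ofReal C * hs t v) ∧
      ∃ (T : ℝ) (u : ℝ → V → V) (p : ℝ → V → ℝ), 0 < T ∧ T ≤ ε ∧ inner3 (u 0) (u 0) ≤ ε ∧
        ContDiffOn ℝ ∞ (fun z : ℝ × V => u z.1 z.2) (Ico 0 T ×ˢ univ) ∧
        ContDiffOn ℝ ∞ (fun z : ℝ × V => p z.1 z.2) (Ico 0 T ×ˢ univ) ∧
        IsSol (fun v x => -D v x) (Ico 0 T) u p ∧
        (∀ t ∈ Ico 0 T, SF (u t)) ∧
        (∀ M : ℝ, ∃ t₀ < T, ∀ t, t₀ ≤ t → t < T → ∃ x, M < ‖u t x‖) ∧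
        (∀ (T' : ℝ) (v : ℝ → V → V) (q : ℝ → V → ℝ), 0 < T' →
          IsSol (fun v x => -D v x) (Ico 0 T') v q → (∀ t ∈ Ico 0 T', SF (v t)) →
          v 0 = u 0 → T' ≤ T ∧ ∀ t ∈ Ico 0 T', v t = u t) ∧
        ∃ (w : ℝ → V → V) (r : ℝ → V → ℝ), w 0 = u 0 ∧
          ContDiffOn ℝ ∞ (fun z : ℝ × V => w z.1 z.2) (Ici 0 ×ˢ univ) ∧
          ContDiffOn ℝ ∞ (fun z : ℝ × V => r z.1 z.2) (Ici 0 ×ˢ univ) ∧
          IsSol (fun _ _ => 0) (Ici 0) w r ∧ (∀ t ∈ Ici (0 : ℝ), SF (w t)) ∧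
          ∀ s : ℝ, ∃ C : ℝ, ∀ t ∈ Ici (0 : ℝ), hs s (w t) ≤ ENNReal.ofReal C := by
  set θ := min (2 * α) ((1 + α) / 2) with hθ
  have hθ1 : θ ≤ 2 * α := min_le_left _ _
  have hθ2 : θ < 1 := (min_le_right _ _).trans_lt (by linarith)
  have hθ3 : α < θ := lt_min (by linarith) (by linarith)
  obtain ⟨N, φ, ϖ, hM⟩ := exists_modes (θ := θ) (by linarith) hθ2
  obtain ⟨C, hC0, hC⟩ := hM.four α
  set η := min 1 (ε / 512) with hηd
  have hη0 : 0 < η := lt_min one_pos (by positivity)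
  have hη1 : η ≤ 1 := min_le_left _ _
  have hηε : η ≤ ε / 512 := min_le_right _ _
  obtain ⟨m₀, ρ, A, k, x, y, z, a, e, h, hρ, hAη, hρη, hd⟩ :=
    exists_setup hM hα hθ3 hθ2.le hν hC0 hη0 hη1
  have hTη : TT ρ ≤ η := by
    refine (TT_le h.rates).trans ?_
    rw [one_div_le (by have := h.rates.pos; linarith) hη0]
    exact hρη
  have hCh := h.chain
  have hCo := h.coefs
  have hCr := er_chain hM m₀
  have ho := cm_er hM m₀
  have hCf := ff2_chain hCh hCr ho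
  obtain ⟨C₁, hB⟩ := conj_bop0 hCf (kc_grow m₀) α
  have hC₁ := hB.pos
  have hν₁ : 0 ≤ 2 * ν * C₁ := by positivity
  have hmg : ∀ m, Mb m → ∀ v, SP v → ∀ j, coef (er m₀) v j = 0 → coef (er m₀) (MG m v) j = 0 :=
    fun m hm v hv j h0 => by rw [coef_er_MG hm hv, h0, mul_zero]
  have hC' : ∀ j, hs α (cm φ m₀ j) ≤ ENNReal.ofReal (C * kc m₀ j ^ (2 * α)) := fun j => hC _ _
  have hL := linS hB hCh hCo hν hC0 hC' hd
  obtain ⟨hsol, hs1, hs2⟩ := is_sol h hB (2 * ν * C₁)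
  have hTT := TT_pos h.rates
  have hin : ∀ t ∈ Ico 0 (TT ρ / 2), t + TT ρ / 2 ∈ Ioo 0 (TT ρ) := fun t ht =>
    ⟨by linarith [ht.1], by linarith [ht.2]⟩
  have husf : ∀ t ∈ Ico 0 (TT ρ / 2), SF (UU φ m₀ A k x y z (t + TT ρ / 2)) := fun t ht =>
    UU_sf h (hin t ht)
  have ht0 : 0 + TT ρ / 2 ∈ Ioo 0 (TT ρ) := hin 0 ⟨le_rfl, by linarith⟩
  have hblow : ∀ M : ℝ, ∃ t₀ < TT ρ / 2, ∀ t, t₀ ≤ t → t < TT ρ / 2 →
      ∃ ξ, M < ‖UU φ m₀ A k x y z (t + TT ρ / 2) ξ‖ := by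
    intro M
    obtain ⟨t₀, h1, h2⟩ := UU_blow h hα hθ1 hρ M
    exact ⟨t₀ - TT ρ / 2, by linarith, fun t ht htT => h2 _ (by linarith) (by linarith)⟩
  refine ⟨Dop (fun v => Uo (ff2 (cm φ m₀) (er m₀)) (FA α (Uo (ff2 (cm φ m₀) (er m₀)) v)))
      (2 * ν * C₁) (cm φ m₀) (dd ρ k) (ww ρ A k a e),
    fun v hv => Dop_sf hCh hCo hB hv _, fun v w hv hw a b => Dop_comb hCh hCo hB hv.sp hw.sp _ a b,
    fun v hv => Dop_coercive hCh hCo hB hν hC0 hC' hd hv.sp, fun s t hst => ?_,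
    ⟨Eop (ff2 (cm φ m₀) (er m₀)) (cm φ m₀) (2 * ν * C₁) α (dd ρ k) (ww ρ A k a e),
      fun v hv => Eop_zero hCh hCr ho hν₁ hv.sp, fun v hv τ hτ =>
        ⟨Eop_sf hCh hCr ho h.tame hν₁ hv hτ, fun x i =>
          Eop_deriv hCh hCr ho hmg hCo h.tame hν₁ hv.sp hτ x i⟩, fun s t hst => ?_⟩,
    TT ρ / 2, _, _, by linarith, by linarith, ?_, hs1, hs2, hsol, husf, hblow,
    fun T' v q hT' hv hvs h0 => ?_, UE φ N m₀ A k x y z (0 + TT ρ / 2),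
    fun _ => PP ϖ m₀ A k x (0 + TT ρ / 2), UE_zero _, (UE_smooth h ht0).contDiffOn,
    (PE_smooth h ht0).contDiffOn, euler_sol h ht0, fun t _ => UE_sf h ht0 t, fun s => ?_⟩
  · obtain ⟨C', hC'0, hC'⟩ := Dop_hs hCh hCo hB (2 * ν * C₁) hst
    exact ⟨C', fun v hv => hC' v hv.sp⟩
  · obtain ⟨C', hC'0, hC'⟩ := Eop_hs (β := α) hCh hCr ho h.tame hν₁ hst
    exact ⟨C', fun v hv τ hτ => hC' v hv.sp τ hτ⟩
  · have h1 := UU_energy h hη0 hAη ht0
    have h2 : 512 * η ^ 2 ≤ ε := by nlinarith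
    exact h1.trans h2
  · have hle : T' ≤ TT ρ / 2 := by
      by_contra hcon
      push Not at hcon
      have hv' := sol_restrict hv hcon.le
      have huv := uniqueS hL hv' hsol (fun t ht => hvs t ⟨ht.1, ht.2.trans hcon⟩) husf h0
      obtain ⟨M, hM⟩ := vel_bounded hv hcon
      obtain ⟨t₀, h1, h2⟩ := hblow M
      have hm : max t₀ 0 < TT ρ / 2 := max_lt h1 (by linarith)
      obtain ⟨ξ, hξ⟩ := h2 (max t₀ 0) (le_max_left _ _) hm
      have h3 := hM (max t₀ 0) ⟨le_max_right _ _, hm.le⟩ ξ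
      rw [huv _ ⟨le_max_right _ _, hm⟩] at h3
      linarith
    exact ⟨hle, uniqueS hL hv (sol_restrict hsol hle) hvs
      (fun t ht => husf t ⟨ht.1, ht.2.trans_le hle⟩) h0⟩
  · obtain ⟨C', hC'⟩ := UE_hs h ht0 s
    exact ⟨C', fun t _ => hC' t⟩

end Pool.Agent.H306.DS
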