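import Pool.Agent.H306.DS.Frac
import Pool.Agent.H306.CK.Four4

/-! The dissipation operator. -/

noncomputable section

namespace Pool.Agent.H306.DS

open Set MeasureTheory Filter

open scoped Real ContDiff ENNReal ComplexConjugate

open Pool.Agent.H306.CK

/-- The shifted products. -/
def pw (w c : ℕ → ℝ) : ℕ → ℝ
  | 0 => 0
  | j + 1 => w j * c j

/-- The projection on the modes. -/
def Pr (φ : ℕ → V → V) (v : V → V) : V → V := ser (coef φ v) φ

/-- The remaining part of a field. -/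
def Rm (φ : ℕ → V → V) (v : V → V) (x : V) : V := fun i => v x i - Pr φ v x i

/-- The coefficients of the chain operator. -/
def mc (φ : ℕ → V → V) (d w : ℕ → ℝ) (v : V → V) (j : ℕ) : ℝ :=
  d j * coef φ v j - pw w (coef φ v) j

/-- The chain operator. -/
def Mop (φ : ℕ → V → V) (d w : ℕ → ℝ) (v : V → V) : V → V := ser (mc φ d w v) φ

/-- The dissipation operator. -/
def Dop (B : (V → V) → V → V) (ν : ℝ) (φ : ℕ → V → V) (d w : ℕ → ℝ) (v : V → V) (x : V) : V :=
  fun i => ν * (B (Rm φ v) x i - Pr φ (B (Rm φ v)) x i) + Mop φ d w v x i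

/-- The conditions on the operator on the complement. -/
structure Bop (α β C₁ : ℝ) (B : (V → V) → V → V) : Prop where
  pos : 0 < C₁
  sp : ∀ v, SP v → SP (B v)
  sf : ∀ v, SF v → SF (B v)
  comb : ∀ v u, SP v → SP u → ∀ a b : ℝ,
    B (fun x i => a * v x i + b * u x i) = fun x i => a * B v x i + b * B u x i
  nn : ∀ v, SP v → 0 ≤ inner3 (B v) v
  coer : ∀ v, SP v → hs α v ≤ ENNReal.ofReal (C₁ * inner3 (B v) v)
  ord : ∀ s t : ℝ, s + 2 * β < t → ∃ C : ℝ, 0 < C ∧ ∀ v, SP v →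
    hs s (B v) ≤ ENNReal.ofReal C * hs t v

theorem Bop.zero {α β C₁ : ℝ} {B : (V → V) → V → V} (hB : Bop α β C₁ B) :
    B (fun _ _ => 0) = fun _ _ => 0 := by
  have h0 : SP (fun _ _ => 0) := ⟨contDiff_const, fun _ _ => rfl⟩
  have h1 := hB.comb _ _ h0 h0 0 0
  simpa using h1

/-- The conditions on the coefficients. -/
structure Coefs (β : ℝ) (κ d w : ℕ → ℝ) : Prop where
  lt : β < 1
  d_nn : ∀ j, 0 ≤ d j
  d_le : ∀ t : ℝ, 2 * β < t → ∃ C : ℝ, ∀ j, d j ≤ C * κ j ^ t
  w_le : ∀ t : ℝ, 2 * β < t → ∃ C : ℝ, ∀ j, |w j| ≤ C * κ j ^ t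
  dom : ∀ j, 4 * w j ^ 2 ≤ d j * d (j + 1)

theorem Coefs.d_le2 {β : ℝ} {κ d w : ℕ → ℝ} (h : Coefs β κ d w) :
    ∃ C : ℝ, ∀ j, d j ≤ C * κ j ^ 2 := by
  obtain ⟨C, hC⟩ := h.d_le 2 (by linarith [h.lt])
  exact ⟨C, fun j => by have := hC j; rwa [Real.rpow_two] at this⟩

theorem Coefs.w_le2 {β : ℝ} {κ d w : ℕ → ℝ} (h : Coefs β κ d w) :
    ∃ C : ℝ, ∀ j, |w j| ≤ C * κ j ^ 2 := by
  obtain ⟨C, hC⟩ := h.w_le 2 (by linarith [h.lt])
  exact ⟨C, fun j => by have := hC j; rwa [Real.rpow_two] at this⟩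

section

variable {α β C₁ : ℝ} {B : (V → V) → V → V} {κ : ℕ → ℝ} {φ : ℕ → V → V} {d w : ℕ → ℝ}
  {v u : V → V}

theorem pd_comb {f g : V → ℝ} (hf : ContDiff ℝ ∞ f) (hg : ContDiff ℝ ∞ g) (a b : ℝ) (j : Fin 3)
    (x : V) : pd j (fun y => a * f y + b * g y) x = a * pd j f x + b * pd j g x := by
  have h1 := (hf.differentiable (by simp) x).hasFDerivAt
  have h2 := (hg.differentiable (by simp) x).hasFDerivAt
  have h3 := (h1.const_mul a).add (h2.const_mul b)
  unfold CK.pd
  have h4 : HasFDerivAt (fun y => a * f y + b * g y) (a • fderiv ℝ f x + b • fderiv ℝ g x) x := h3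
  rw [h4.fderiv]
  simp

theorem comb_sf (hv : SF v) (hu : SF u) (a b : ℝ) : SF (fun x i => a * v x i + b * u x i) := by
  have h := comb_sp hv.sp hu.sp a b
  refine ⟨h.1, h.2, fun x => ?_⟩
  have h1 : ∀ i, pd i (fun y => a * v y i + b * u y i) x =
      a * pd i (fun y => v y i) x + b * pd i (fun y => u y i) x := fun i =>
    pd_comb (hv.sp.comp i).1 (hu.sp.comp i).1 a b i x
  simp only [h1]
  rw [Finset.sum_add_distrib, ← Finset.mul_sum, ← Finset.mul_sum, hv.2.2 x, hu.2.2 x]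
  ring

theorem inner_comb' {z : V → V} (hv : CP v) (hu : CP u) (hz : CP z) (a b : ℝ) :
    inner3 z (fun x i => a * v x i + b * u x i) = a * inner3 z v + b * inner3 z u :=
  inner_comb hv hu hz a b

theorem coef_comb (h : Chain κ φ) (hv : CP v) (hu : CP u) (a b : ℝ) (j : ℕ) :
    coef φ (fun x i => a * v x i + b * u x i) j = a * coef φ v j + b * coef φ u j :=
  inner_comb' hv hu (h.sf j).cp a b

theorem ser_comb (h : Chain κ φ) {a b : ℕ → ℝ} (ha : Rapid κ a) (hb : Rapid κ b) (p q : ℝ) :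
    ser (fun j => p * a j + q * b j) φ = fun x i => p * ser a φ x i + q * ser b φ x i := by
  ext x i
  unfold ser
  rw [← tsum_mul_left, ← tsum_mul_left,
    ← ((ser_sum h ha x i).mul_left p).tsum_add ((ser_sum h hb x i).mul_left q)]
  exact tsum_congr fun j => by ring

theorem Pr_sf (h : Chain κ φ) (hv : SP v) : SF (Pr φ v) := ser_sf h (coef_rapid h hv)

theorem Pr_comb (h : Chain κ φ) (hv : SP v) (hu : SP u) (a b : ℝ) :
    Pr φ (fun x i => a * v x i + b * u x i) = fun x i => a * Pr φ v x i + b * Pr φ u x i := by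
  unfold Pr
  rw [← ser_comb h (coef_rapid h hv) (coef_rapid h hu)]
  congr 1
  ext j
  exact coef_comb h hv.cp hu.cp a b j

theorem Rm_sf (h : Chain κ φ) (hv : SF v) : SF (Rm φ v) := by
  have h1 := comb_sf hv (Pr_sf h hv.sp) 1 (-1)
  have h2 : (fun x i => 1 * v x i + -1 * Pr φ v x i) = Rm φ v := by
    ext x i; unfold Rm; ring
  rwa [h2] at h1

theorem Rm_sp (h : Chain κ φ) (hv : SP v) : SP (Rm φ v) := by
  have h1 := comb_sp hv (Pr_sf h hv).sp 1 (-1)
  have h2 : (fun x i => 1 * v x i + -1 * Pr φ v x i) = Rm φ v := by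
    ext x i; unfold Rm; ring
  rwa [h2] at h1

theorem Rm_comb (h : Chain κ φ) (hv : SP v) (hu : SP u) (a b : ℝ) :
    Rm φ (fun x i => a * v x i + b * u x i) = fun x i => a * Rm φ v x i + b * Rm φ u x i := by
  ext x i
  unfold Rm
  rw [Pr_comb h hv hu]
  ring

theorem pw_rapid (h : Chain κ φ) (hc : Coefs β κ d w) {c : ℕ → ℝ} (ha : Rapid κ c) :
    Rapid κ (pw w c) := by
  intro N
  obtain ⟨C, hC⟩ := hc.w_le2
  obtain ⟨C', hC'⟩ := h.next 1 one_pos
  obtain ⟨C'', hC''⟩ := ha (2 + 2 * N)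
  have hC'' : ∀ j, |c j| * κ j ^ (2 + 2 * N) ≤ |C''| := fun j => (hC'' j).trans (le_abs_self _)
  refine ⟨|C| * |C'| ^ N * |C''|, fun j => ?_⟩
  cases j with
  | zero => simp only [pw, abs_zero, zero_mul]; positivity
  | succ j =>
    have hp := h.pos j
    have hp' := h.pos (j + 1)
    have h1 : κ (j + 1) ^ N ≤ (|C'| * κ j ^ 2) ^ N := by
      refine pow_le_pow_left₀ hp'.le ((hC' j).trans ?_) N
      have : κ j ^ ((1 : ℝ) + 1) = κ j ^ 2 := by
        rw [← Real.rpow_natCast]; norm_num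
      rw [this]
      gcongr
      exact le_abs_self _
    simp only [pw]
    rw [abs_mul]
    calc |w j| * |c j| * κ (j + 1) ^ N ≤ (|C| * κ j ^ 2) * |c j| * (|C'| * κ j ^ 2) ^ N := by
          gcongr
          exact (hC j).trans (by gcongr; exact le_abs_self _)
      _ = |C| * |C'| ^ N * (|c j| * κ j ^ (2 + 2 * N)) := by
          rw [mul_pow, pow_add, ← pow_mul]; ring
      _ ≤ _ := by gcongr; exact hC'' j

theorem d_rapid (h : Chain κ φ) (hc : Coefs β κ d w) {c : ℕ → ℝ} (ha : Rapid κ c) :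
    Rapid κ (fun j => d j * c j) := by
  obtain ⟨C, hC⟩ := hc.d_le2
  refine ha.of_le h.one_le (abs_nonneg C) (p := 2) fun j => ?_
  rw [abs_mul, abs_of_nonneg (hc.d_nn j)]
  gcongr
  have := h.pos j
  exact (hC j).trans (by gcongr; exact le_abs_self _)

theorem mc_rapid' (h : Chain κ φ) (hc : Coefs β κ d w) {c : ℕ → ℝ} (ha : Rapid κ c) :
    Rapid κ (fun j => d j * c j - pw w c j) := by
  have h1 : Rapid κ (fun j => -pw w c j) := by
    intro N
    obtain ⟨C, hC⟩ := pw_rapid h hc ha N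
    exact ⟨C, fun j => by rw [abs_neg]; exact hC j⟩
  exact (d_rapid h hc ha).add h.one_le h1

theorem mc_rapid (h : Chain κ φ) (hc : Coefs β κ d w) (hv : SP v) : Rapid κ (mc φ d w v) :=
  mc_rapid' h hc (coef_rapid h hv)

theorem Mop_sf (h : Chain κ φ) (hc : Coefs β κ d w) (hv : SP v) : SF (Mop φ d w v) :=
  ser_sf h (mc_rapid h hc hv)

theorem mc_comb (h : Chain κ φ) (hv : SP v) (hu : SP u) (a b : ℝ) (j : ℕ) :
    mc φ d w (fun x i => a * v x i + b * u x i) j = a * mc φ d w v j + b * mc φ d w u j := by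
  unfold mc
  rw [coef_comb h hv.cp hu.cp]
  cases j with
  | zero => simp only [pw]; ring
  | succ j =>
    simp only [pw]
    rw [coef_comb h hv.cp hu.cp]
    ring

theorem Mop_comb (h : Chain κ φ) (hc : Coefs β κ d w) (hv : SP v) (hu : SP u) (a b : ℝ) :
    Mop φ d w (fun x i => a * v x i + b * u x i) =
      fun x i => a * Mop φ d w v x i + b * Mop φ d w u x i := by
  unfold Mop
  rw [← ser_comb h (mc_rapid h hc hv) (mc_rapid h hc hu)]
  congr 1
  ext j
  exact mc_comb h hv hu a b j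

theorem Dop_comb (h : Chain κ φ) (hc : Coefs β κ d w) (hB : Bop α β C₁ B) (hv : SP v) (hu : SP u)
    (ν a b : ℝ) : Dop B ν φ d w (fun x i => a * v x i + b * u x i) =
      fun x i => a * Dop B ν φ d w v x i + b * Dop B ν φ d w u x i := by
  ext x i
  unfold Dop
  rw [Rm_comb h hv hu, hB.comb _ _ (Rm_sp h hv) (Rm_sp h hu),
    Pr_comb h (hB.sp _ (Rm_sp h hv)) (hB.sp _ (Rm_sp h hu)), Mop_comb h hc hv hu]
  ring

theorem Dop_sf (h : Chain κ φ) (hc : Coefs β κ d w) (hB : Bop α β C₁ B) (hv : SF v) (ν : ℝ) :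
    SF (Dop B ν φ d w v) := by
  have h1 := comb_sf (hB.sf _ (Rm_sf h hv)) (Pr_sf h (hB.sf _ (Rm_sf h hv)).sp) ν (-ν)
  have h2 := comb_sf h1 (Mop_sf h hc hv.sp) 1 1
  have h3 : (fun x i => 1 * (ν * B (Rm φ v) x i + -ν * Pr φ (B (Rm φ v)) x i) +
      1 * Mop φ d w v x i) = Dop B ν φ d w v := by
    ext x i; unfold Dop; ring
  rwa [h3] at h2

theorem inner_Pr (h : Chain κ φ) (hv : SP v) (hu : SP u) :
    inner3 (Pr φ v) u = inner3 v (Pr φ u) := by
  have h1 := ser_inner h (coef_rapid h hv) hu.cp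
  have h2 := ser_inner h (coef_rapid h hu) hv.cp
  rw [inner_comm v]
  refine h1.unique (h2.congr_fun fun j => ?_)
  unfold coef
  ring

theorem inner_Dop (h : Chain κ φ) (hc : Coefs β κ d w) (hB : Bop α β C₁ B) (hv : SP v) (ν : ℝ) :
    inner3 (Dop B ν φ d w v) v = ν * inner3 (B (Rm φ v)) (Rm φ v) +
      ∑' j, mc φ d w v j * coef φ v j := by
  have hR := Rm_sp h hv
  have hA := hB.sp _ hR
  have hP := (Pr_sf h hA).sp
  have hM := (Mop_sf h hc hv).sp
  have h1 := comb_sp hA hP ν (-ν)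
  have h3 : (fun x i => 1 * (ν * B (Rm φ v) x i + -ν * Pr φ (B (Rm φ v)) x i) +
      1 * Mop φ d w v x i) = Dop B ν φ d w v := by
    ext x i; unfold Dop; ring
  have h4 : inner3 (Mop φ d w v) v = ∑' j, mc φ d w v j * coef φ v j :=
    (ser_inner h (mc_rapid h hc hv) hv.cp).tsum_eq.symm
  have h5 : (fun x i => 1 * v x i + -1 * Pr φ v x i) = Rm φ v := by
    ext x i; unfold Rm; ring
  rw [← h3, inner_comm, inner_comb' h1.cp hM.cp hv.cp, inner_comb' hA.cp hP.cp hv.cp,
    inner_comm v (Mop φ d w v), h4, inner_comm v (Pr φ _), inner_Pr h hA hv]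
  have h6 : inner3 (B (Rm φ v)) (Rm φ v) =
      1 * inner3 (B (Rm φ v)) v + -1 * inner3 (B (Rm φ v)) (Pr φ v) := by
    conv_lhs => rw [← h5]
    rw [← inner_comb' hv.cp (Pr_sf h hv).cp (hB.sp _ (Rm_sp h hv)).cp]
    rw [h5]
  rw [h6, inner_comm v (B _)]
  ring

theorem rapid_sq_sum (h : Chain κ φ) (hc : Coefs β κ d w) {c : ℕ → ℝ} (ha : Rapid κ c) :
    Summable fun j => d j * c j ^ 2 := by
  have h1 := (d_rapid h hc ha).summable0 h
  obtain ⟨C, hC⟩ := ha 0
  refine Summable.of_norm_bounded (h1.mul_right C) fun j => ?_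
  have h2 := hC j
  rw [pow_zero, mul_one] at h2
  rw [Real.norm_eq_abs, sq, ← mul_assoc, abs_mul]
  gcongr

theorem chain_form (h : Chain κ φ) (hc : Coefs β κ d w) {c : ℕ → ℝ} (ha : Rapid κ c) :
    1 / 2 * ∑' j, d j * c j ^ 2 ≤ ∑' j, (d j * c j - pw w c j) * c j := by
  have s1 := rapid_sq_sum h hc ha
  set e : ℕ → ℝ := fun j => d j * c j ^ 2 with he
  set e' : ℕ → ℝ := fun j => match j with | 0 => 0 | j + 1 => e j with he'
  have s2 : Summable e' := (summable_nat_add_iff 1).1 s1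
  have t2 : ∑' j, e' j = ∑' j, e j := by
    rw [s2.tsum_eq_zero_add]
    simp [he']
  have hpt : ∀ j, e j - (1 / 4 * e' j + 1 / 4 * e j) ≤ (d j * c j - pw w c j) * c j := by
    intro j
    have h0 : (d j * c j - pw w c j) * c j = e j - pw w c j * c j := by rw [he]; ring
    rw [h0]
    have h1 : pw w c j * c j ≤ 1 / 4 * e' j + 1 / 4 * e j := by
      cases j with
      | zero =>
        simp only [pw, he', zero_mul, he]
        have := hc.d_nn 0
        positivity
      | succ j =>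
        simp only [pw, he', he]
        have h2 := hc.dom j
        have h3 := hc.d_nn j
        have h4 := hc.d_nn (j + 1)
        set A := d j
        set B := d (j + 1)
        set p := c j
        set q := c (j + 1)
        set b := w j
        -- `b p q ≤ (A p² + B q²) / 4`
        have h5 : (4 * (b * p * q)) ^ 2 ≤ (A * p ^ 2 + B * q ^ 2) ^ 2 := by
          have h6 : (4 * (b * p * q)) ^ 2 = 4 * (4 * b ^ 2) * (p * q) ^ 2 := by ring
          have h7 : 4 * (4 * b ^ 2) * (p * q) ^ 2 ≤ 4 * (A * B) * (p * q) ^ 2 := by gcongr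
          have h8 : 0 ≤ (A * p ^ 2 - B * q ^ 2) ^ 2 := sq_nonneg _
          nlinarith
        have h9 : 0 ≤ A * p ^ 2 + B * q ^ 2 := by positivity
        have h10 := abs_le_of_sq_le_sq h5 h9
        have h11 := le_abs_self (4 * (b * p * q))
        linarith
    linarith
  have s3 : Summable fun j => (d j * c j - pw w c j) * c j := by
    have h1 := (mc_rapid' h hc ha).summable0 h
    obtain ⟨C, hC⟩ := ha 0
    refine Summable.of_norm_bounded (h1.mul_right C) fun j => ?_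
    have h2 := hC j
    rw [pow_zero, mul_one] at h2
    rw [Real.norm_eq_abs, abs_mul]
    gcongr
  have s4 : Summable fun j => e j - (1 / 4 * e' j + 1 / 4 * e j) :=
    s1.sub ((s2.mul_left _).add (s1.mul_left _))
  have h1 := s4.tsum_le_tsum hpt s3
  rw [s1.tsum_sub ((s2.mul_left _).add (s1.mul_left _)),
    (s2.mul_left (1 / 4)).tsum_add (s1.mul_left (1 / 4)), tsum_mul_left, tsum_mul_left, t2] at h1
  change 1 / 2 * ∑' j, e j ≤ _
  linarith

/-- Coercivity. -/
theorem Dop_coercive (h : Chain κ φ) (hc : Coefs β κ d w) (hB : Bop α β C₁ B) {ν C : ℝ}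
    (hν : 0 < ν) (hC0 : 0 < C) (hC : ∀ j, hs α (φ j) ≤ ENNReal.ofReal (C * κ j ^ (2 * α)))
    (hd : ∀ j, 8 * ν * 2 ^ j * (C * κ j ^ (2 * α)) ≤ d j) (hv : SP v) :
    ENNReal.ofReal ν * hs α v ≤
      ENNReal.ofReal (inner3 (Dop B (2 * ν * C₁) φ d w v) v) := by
  have hC₁ := hB.pos
  have hR := Rm_sp h hv
  have hP := (Pr_sf h hv).sp
  have hcr := coef_rapid h hv
  have s1 := rapid_sq_sum h hc hcr
  have e1 : (fun x => Rm φ v x + Pr φ v x) = v := by
    ext x i
    simp [Rm]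
  have h1 : hs α v ≤ 2 * hs α (Rm φ v) + 2 * hs α (Pr φ v) := by
    have := hs_add (t := α) hR.cp hP.cp
    rwa [e1] at this
  have h2 : hs α (Rm φ v) ≤ ENNReal.ofReal (C₁ * inner3 (B (Rm φ v)) (Rm φ v)) := by
    exact hB.coer _ hR
  have h3 : hs α (Pr φ v) ≤ ENNReal.ofReal (1 / (4 * ν) * ∑' j, d j * coef φ v j ^ 2) := by
    refine (ser_hs h hcr α).trans ?_
    rw [← tsum_mul_left, ENNReal.ofReal_tsum_of_nonneg (fun j => by
      have := hc.d_nn j; positivity) (s1.mul_left _)]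
    refine ENNReal.tsum_le_tsum fun j => ?_
    calc ENNReal.ofReal (2 * 2 ^ j * coef φ v j ^ 2) * hs α (φ j) ≤
          ENNReal.ofReal (2 * 2 ^ j * coef φ v j ^ 2) * ENNReal.ofReal (C * κ j ^ (2 * α)) := by
          gcongr
          exact hC j
      _ = ENNReal.ofReal ((2 * 2 ^ j * coef φ v j ^ 2) * (C * κ j ^ (2 * α))) :=
          (ENNReal.ofReal_mul (by positivity)).symm
      _ ≤ _ := by
          apply ENNReal.ofReal_le_ofReal
          have h4 := hd j
          have h5 : 1 / (4 * ν) * (8 * ν * 2 ^ j * (C * κ j ^ (2 * α))) =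
              2 * 2 ^ j * (C * κ j ^ (2 * α)) := by
            field_simp
            ring
          calc (2 * 2 ^ j * coef φ v j ^ 2) * (C * κ j ^ (2 * α)) =
                1 / (4 * ν) * (8 * ν * 2 ^ j * (C * κ j ^ (2 * α))) * coef φ v j ^ 2 := by
                rw [h5]; ring
            _ ≤ 1 / (4 * ν) * d j * coef φ v j ^ 2 := by gcongr
            _ = _ := by ring
  have h5 := chain_form h hc hcr
  have h6 : 0 ≤ inner3 (B (Rm φ v)) (Rm φ v) := hB.nn _ hR
  rw [inner_Dop h hc hB hv]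
  calc ENNReal.ofReal ν * hs α v ≤ ENNReal.ofReal ν *
        (2 * ENNReal.ofReal (C₁ * inner3 (B (Rm φ v)) (Rm φ v)) +
          2 * ENNReal.ofReal (1 / (4 * ν) * ∑' j, d j * coef φ v j ^ 2)) := by
        gcongr
        exact h1.trans (by gcongr)
    _ = ENNReal.ofReal (ν * (2 * (C₁ * inner3 (B (Rm φ v)) (Rm φ v)) +
          2 * (1 / (4 * ν) * ∑' j, d j * coef φ v j ^ 2))) := by
        have h7 : 0 ≤ 1 / (4 * ν) * ∑' j, d j * coef φ v j ^ 2 := by
          have : 0 ≤ ∑' j, d j * coef φ v j ^ 2 := tsum_nonneg fun j => by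
            have := hc.d_nn j; positivity
          positivity
        rw [ENNReal.ofReal_mul hν.le, ENNReal.ofReal_add (by positivity) (by positivity),
          ENNReal.ofReal_mul (p := 2) (by norm_num), ENNReal.ofReal_mul (p := 2) (by norm_num)]
        simp
    _ ≤ _ := by
        apply ENNReal.ofReal_le_ofReal
        have h8 : ν * (2 * (C₁ * inner3 (B (Rm φ v)) (Rm φ v)) +
          2 * (1 / (4 * ν) * ∑' j, d j * coef φ v j ^ 2)) =
          2 * ν * C₁ * inner3 (B (Rm φ v)) (Rm φ v) +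
            1 / 2 * ∑' j, d j * coef φ v j ^ 2 := by
          field_simp
          ring
        rw [h8]
        have h9 : ∑' j, mc φ d w v j * coef φ v j =
            ∑' j, (d j * coef φ v j - pw w (coef φ v) j) * coef φ v j := rfl
        rw [h9]
        linarith

end

end Pool.Agent.H306.DS
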