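import Pool.Agent.H306.DS.Op

/-! The order of the dissipation operator. -/

noncomputable section

namespace Pool.Agent.H306.DS

open Set MeasureTheory Filter

open scoped Real ContDiff ENNReal ComplexConjugate

open Pool.Agent.H306.CK

section

variable {α β C₁ : ℝ} {B : (V → V) → V → V} {κ : ℕ → ℝ} {φ : ℕ → V → V} {d w : ℕ → ℝ}
  {v u : V → V}

theorem shift_pow (h : Chain κ φ) {t τ : ℝ} (htτ : t < τ) : ∃ C : ℝ, 0 < C ∧ ∀ j,
    κ j ^ (-(2 * τ)) ≤ C * κ (j + 1) ^ (-(2 * t)) := by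
  rcases le_or_gt t 0 with ht | ht
  · refine ⟨1, one_pos, fun j => ?_⟩
    rw [one_mul]
    calc κ j ^ (-(2 * τ)) ≤ κ j ^ (-(2 * t)) :=
          Real.rpow_le_rpow_of_exponent_le (h.one_le j) (by linarith)
      _ ≤ κ (j + 1) ^ (-(2 * t)) := Real.rpow_le_rpow (h.pos j).le (h.mono j) (by linarith)
  · have hε : 0 < τ / t - 1 := by
      rw [sub_pos, lt_div_iff₀ ht]; linarith
    obtain ⟨C, hC⟩ := h.next _ hε
    have hC1 : ∀ j, κ (j + 1) ≤ max C 1 * κ j ^ (τ / t) := fun j => by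
      have h1 := hC j
      rw [show 1 + (τ / t - 1) = τ / t by ring] at h1
      have := Real.rpow_pos_of_pos (h.pos j) (τ / t)
      exact h1.trans (by gcongr; exact le_max_left _ _)
    have hm : 0 < max C 1 := by positivity
    refine ⟨max C 1 ^ (2 * t), Real.rpow_pos_of_pos hm _, fun j => ?_⟩
    have hp := h.pos j
    have hp' := h.pos (j + 1)
    have h1 : κ (j + 1) ^ (2 * t) ≤ max C 1 ^ (2 * t) * κ j ^ (2 * τ) := by
      calc κ (j + 1) ^ (2 * t) ≤ (max C 1 * κ j ^ (τ / t)) ^ (2 * t) :=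
            Real.rpow_le_rpow hp'.le (hC1 j) (by linarith)
        _ = _ := by
            rw [Real.mul_rpow hm.le (Real.rpow_nonneg hp.le _), ← Real.rpow_mul hp.le]
            congr 2
            field_simp
    rw [Real.rpow_neg hp.le, Real.rpow_neg hp'.le, ← div_eq_mul_inv,
      inv_eq_one_div, div_le_div_iff₀ (Real.rpow_pos_of_pos hp _) (Real.rpow_pos_of_pos hp' _),
      one_mul]
    exact h1

/-- Series with power bounds. -/
theorem ser_hs_bound (h : Chain κ φ) {s t : ℝ} (hst : s < t) : ∃ C : ℝ, 0 < C ∧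
    ∀ (a : ℕ → ℝ) (Q : ℝ), Rapid κ a → 0 ≤ Q → (∀ j, a j ^ 2 ≤ Q * κ j ^ (-(2 * t))) →
      hs s (ser a φ) ≤ ENNReal.ofReal (C * Q) := by
  obtain ⟨C, hC0, hC⟩ := h.four s
  obtain ⟨C', hC'0, hC'⟩ := h.inv_sum (ε := 2 * (t - s)) (by linarith)
  refine ⟨C * C' * 2, by positivity, fun a Q ha hQ hb => ?_⟩
  have hg := summable_geometric_of_lt_one (by norm_num : (0 : ℝ) ≤ 1 / 2) (by norm_num)
  have e1 : C * C' * 2 * Q = ∑' j, C * C' * Q * (1 / 2 : ℝ) ^ j := by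
    rw [tsum_mul_left, tsum_geometric_two]; ring
  rw [e1, ENNReal.ofReal_tsum_of_nonneg (fun j => by positivity) (hg.mul_left _)]
  refine (ser_hs h ha s).trans (ENNReal.tsum_le_tsum fun j => ?_)
  have hp := h.pos j
  calc ENNReal.ofReal (2 * 2 ^ j * a j ^ 2) * hs s (φ j) ≤
        ENNReal.ofReal (2 * 2 ^ j * a j ^ 2) * ENNReal.ofReal (C * κ j ^ (2 * s)) := by
        gcongr
        exact hC j
    _ = ENNReal.ofReal ((2 * 2 ^ j * a j ^ 2) * (C * κ j ^ (2 * s))) :=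
        (ENNReal.ofReal_mul (by positivity)).symm
    _ ≤ _ := by
        apply ENNReal.ofReal_le_ofReal
        have h1 : κ j ^ (-(2 * t)) * κ j ^ (2 * s) = κ j ^ (-(2 * (t - s))) := by
          rw [← Real.rpow_add hp]; congr 1; ring
        have h2 := Real.rpow_pos_of_pos hp (2 * s)
        calc (2 * 2 ^ j * a j ^ 2) * (C * κ j ^ (2 * s)) ≤
              (2 * 2 ^ j * (Q * κ j ^ (-(2 * t)))) * (C * κ j ^ (2 * s)) := by
              gcongr
              exact hb j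
          _ = C * Q * (2 * 2 ^ j * (κ j ^ (-(2 * t)) * κ j ^ (2 * s))) := by ring
          _ = C * Q * (2 * 2 ^ j * κ j ^ (-(2 * (t - s)))) := by rw [h1]
          _ ≤ C * Q * (C' * (1 / 2) ^ j) := mul_le_mul_of_nonneg_left (hC' j) (by positivity)
          _ = _ := by ring

theorem ofReal_mul_hr (hv : SP v) {C : ℝ} (hC : 0 ≤ C) (s : ℝ) :
    ENNReal.ofReal (C * hr s v) = ENNReal.ofReal C * hs s v := by
  rw [ENNReal.ofReal_mul hC, ofReal_hr hv]

theorem Pr_hs (h : Chain κ φ) {s t : ℝ} (hst : s < t) : ∃ C : ℝ, 0 < C ∧ ∀ v, SP v →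
    hs s (Pr φ v) ≤ ENNReal.ofReal C * hs t v := by
  obtain ⟨C, hC0, hC⟩ := ser_hs_bound h hst
  obtain ⟨C', hC'0, hC'⟩ := coef_sq h t
  refine ⟨C * C', by positivity, fun v hv => ?_⟩
  have h1 := hC (coef φ v) (C' * hr t v) (coef_rapid h hv)
    (mul_nonneg hC'0.le (hr_nonneg _ _)) (fun j => (hC' v hv j).trans (le_of_eq (by ring)))
  rw [← mul_assoc] at h1
  rwa [ofReal_mul_hr hv (by positivity)] at h1

theorem two_eq : (2 : ℝ≥0∞) = ENNReal.ofReal 2 := by simp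

theorem Rm_hs (h : Chain κ φ) {s t : ℝ} (hst : s < t) : ∃ C : ℝ, 0 < C ∧ ∀ v, SP v →
    hs s (Rm φ v) ≤ ENNReal.ofReal C * hs t v := by
  obtain ⟨C, hC0, hC⟩ := Pr_hs h hst
  refine ⟨2 + 2 * C, by positivity, fun v hv => ?_⟩
  have hP := (Pr_sf h hv).sp
  have hN : CP (fun x i => (-1) * Pr φ v x i) := by
    have := (comb_sp hP hP (-1) 0).cp
    simpa using this
  have h1 := hs_add (t := s) hv.cp hN
  have e1 : (fun x => v x + fun i => (-1) * Pr φ v x i) = Rm φ v := by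
    ext x i
    simp [Rm]
    ring
  rw [e1] at h1
  have e2 : hs s (fun x i => (-1) * Pr φ v x i) = hs s (Pr φ v) := by
    rw [hs_scale]; norm_num
  rw [e2] at h1
  calc hs s (Rm φ v) ≤ 2 * hs s v + 2 * hs s (Pr φ v) := h1
    _ ≤ 2 * hs t v + 2 * (ENNReal.ofReal C * hs t v) := by
        gcongr
        · exact hs_mono hst.le v
        · exact hC v hv
    _ = _ := by
        rw [ENNReal.ofReal_add (by norm_num) (by positivity), ENNReal.ofReal_mul (p := 2) (by norm_num),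
          ← two_eq]
        ring

theorem Mop_hs (h : Chain κ φ) (hc : Coefs β κ d w) {s t : ℝ} (hst : s + 2 * β < t) :
    ∃ C : ℝ, 0 < C ∧ ∀ v, SP v → hs s (Mop φ d w v) ≤ ENNReal.ofReal C * hs t v := by
  -- the exponents
  set r := (2 * β + (t - s)) / 2 with hr
  have hr1 : 2 * β < r := by rw [hr]; linarith
  have hr2 : r < t - s := by rw [hr]; linarith
  set τ := (s + (t - r)) / 2 with hτ
  have hsτ : s < τ := by rw [hτ]; linarith
  have hτt : τ < t - r := by rw [hτ]; linarith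
  obtain ⟨C, hC0, hC⟩ := ser_hs_bound h hsτ
  obtain ⟨C₁, hC₁0, hC₁⟩ := coef_sq h t
  obtain ⟨C₂, hC₂0, hC₂⟩ := shift_pow h hτt
  obtain ⟨C₃, hC₃⟩ := hc.d_le r hr1
  obtain ⟨C₄, hC₄⟩ := hc.w_le r hr1
  refine ⟨C * (2 * C₃ ^ 2 * C₁ + 2 * C₄ ^ 2 * C₁ * C₂ + 1), by positivity, fun v hv => ?_⟩
  have hh := hr_nonneg t v
  have key : ∀ j, (κ j ^ r) ^ 2 * κ j ^ (-(2 * t)) = κ j ^ (-(2 * (t - r))) := by
    intro j
    have hp := h.pos j
    rw [← Real.rpow_natCast, ← Real.rpow_mul hp.le, ← Real.rpow_add hp]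
    congr 1
    push_cast
    ring
  have h1 := hC (mc φ d w v) ((2 * C₃ ^ 2 * C₁ + 2 * C₄ ^ 2 * C₁ * C₂ + 1) * DS.hr t v)
    (mc_rapid h hc hv) (by positivity) (fun j => ?_)
  · rw [← mul_assoc] at h1
    rwa [ofReal_mul_hr hv (by positivity)] at h1
  · have hp := h.pos j
    have hP := Real.rpow_pos_of_pos hp (-(2 * τ))
    have b1 : (d j * coef φ v j) ^ 2 ≤ C₃ ^ 2 * C₁ * DS.hr t v * κ j ^ (-(2 * τ)) := by
      have h2 : d j ^ 2 ≤ (C₃ * κ j ^ r) ^ 2 := pow_le_pow_left₀ (hc.d_nn j) (hC₃ j) 2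
      calc (d j * coef φ v j) ^ 2 = d j ^ 2 * coef φ v j ^ 2 := by ring
        _ ≤ (C₃ * κ j ^ r) ^ 2 * (C₁ * κ j ^ (-(2 * t)) * DS.hr t v) := by
            gcongr
            exact hC₁ v hv j
        _ = C₃ ^ 2 * C₁ * DS.hr t v * ((κ j ^ r) ^ 2 * κ j ^ (-(2 * t))) := by ring
        _ = C₃ ^ 2 * C₁ * DS.hr t v * κ j ^ (-(2 * (t - r))) := by rw [key]
        _ ≤ C₃ ^ 2 * C₁ * DS.hr t v * κ j ^ (-(2 * τ)) := by
            gcongr
            exact h.one_le j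
    have b2 : pw w (coef φ v) j ^ 2 ≤ C₄ ^ 2 * C₁ * C₂ * DS.hr t v * κ j ^ (-(2 * τ)) := by
      cases j with
      | zero =>
        rw [show (pw w (coef φ v) 0) ^ 2 = 0 by simp [pw]]
        positivity
      | succ j =>
        have hp0 := h.pos j
        simp only [pw]
        have h2 : w j ^ 2 ≤ (C₄ * κ j ^ r) ^ 2 := by
          rw [← sq_abs]
          exact pow_le_pow_left₀ (abs_nonneg _) (hC₄ j) 2
        calc (w j * coef φ v j) ^ 2 = w j ^ 2 * coef φ v j ^ 2 := by ring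
          _ ≤ (C₄ * κ j ^ r) ^ 2 * (C₁ * κ j ^ (-(2 * t)) * DS.hr t v) := by
              gcongr
              exact hC₁ v hv j
          _ = C₄ ^ 2 * C₁ * DS.hr t v * ((κ j ^ r) ^ 2 * κ j ^ (-(2 * t))) := by ring
          _ = C₄ ^ 2 * C₁ * DS.hr t v * κ j ^ (-(2 * (t - r))) := by rw [key]
          _ ≤ C₄ ^ 2 * C₁ * DS.hr t v * (C₂ * κ (j + 1) ^ (-(2 * τ))) := by
              gcongr
              exact hC₂ j
          _ = _ := by ring
    have b3 : mc φ d w v j ^ 2 ≤ 2 * (d j * coef φ v j) ^ 2 + 2 * pw w (coef φ v) j ^ 2 := by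
      unfold mc
      nlinarith [sq_nonneg (d j * coef φ v j + pw w (coef φ v) j)]
    calc mc φ d w v j ^ 2 ≤ _ := b3
      _ ≤ 2 * (C₃ ^ 2 * C₁ * DS.hr t v * κ j ^ (-(2 * τ))) +
          2 * (C₄ ^ 2 * C₁ * C₂ * DS.hr t v * κ j ^ (-(2 * τ))) := by gcongr
      _ ≤ 2 * (C₃ ^ 2 * C₁ * DS.hr t v * κ j ^ (-(2 * τ))) +
          2 * (C₄ ^ 2 * C₁ * C₂ * DS.hr t v * κ j ^ (-(2 * τ))) + DS.hr t v * κ j ^ (-(2 * τ)) := by
          have : 0 ≤ DS.hr t v * κ j ^ (-(2 * τ)) := by positivity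
          linarith
      _ = _ := by ring

/-- The operator has order `2β`. -/
theorem Dop_hs (h : Chain κ φ) (hc : Coefs β κ d w) (hB : Bop α β C₁ B) (ν : ℝ) {s t : ℝ}
    (hst : s + 2 * β < t) :
    ∃ C : ℝ, 0 < C ∧ ∀ v, SP v → hs s (Dop B ν φ d w v) ≤ ENNReal.ofReal C * hs t v := by
  set t₁ := (s + 2 * β + t) / 2 with ht₁
  have ht1 : s + 2 * β < t₁ := by rw [ht₁]; linarith
  have ht2 : t₁ < t := by rw [ht₁]; linarith
  set τ := (s + (t₁ - 2 * β)) / 2 with hτ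
  have hsτ : s < τ := by rw [hτ]; linarith
  have hτt : τ + 2 * β < t₁ := by rw [hτ]; linarith
  obtain ⟨C₂, hC₂0, hC₂⟩ := Rm_hs h (s := t₁) (t := t) ht2
  obtain ⟨C₃, hC₃0, hC₃⟩ := hB.ord s t₁ ht1
  obtain ⟨C₄, hC₄0, hC₄⟩ := hB.ord τ t₁ hτt
  obtain ⟨C₅, hC₅0, hC₅⟩ := Pr_hs h hsτ
  obtain ⟨C₆, hC₆0, hC₆⟩ := Mop_hs h hc hst
  refine ⟨4 * ν ^ 2 * (C₃ * C₂) + 4 * ν ^ 2 * (C₅ * C₄ * C₂) + 2 * C₆, by positivity,
    fun v hv => ?_⟩
  have hR := Rm_sp h hv
  have hA := hB.sp _ hR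
  have hP := (Pr_sf h hA).sp
  have hM := (Mop_sf h hc hv).sp
  have c1 : CP (fun x i => ν * B (Rm φ v) x i) := by
    have := (comb_sp hA hA ν 0).cp
    simpa using this
  have c2 : CP (fun x i => (-ν) * Pr φ (B (Rm φ v)) x i) := by
    have := (comb_sp hP hP (-ν) 0).cp
    simpa using this
  have c3 : CP (fun x => (fun i => ν * B (Rm φ v) x i) +
      fun i => (-ν) * Pr φ (B (Rm φ v)) x i) := (comb_sp hA hP ν (-ν)).cp
  have h1 := hs_add (t := s) c3 hM.cp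
  have h2 := hs_add (t := s) c1 c2
  have e1 : (fun x => ((fun i => ν * B (Rm φ v) x i) +
      fun i => (-ν) * Pr φ (B (Rm φ v)) x i) + Mop φ d w v x) = Dop B ν φ d w v := by
    ext x i
    simp [Dop]
    ring
  rw [e1] at h1
  rw [hs_scale, hs_scale] at h2
  have h4 : hs s (B (Rm φ v)) ≤ ENNReal.ofReal (C₃ * C₂) * hs t v := by
    refine (hC₃ _ hR).trans ?_
    rw [ENNReal.ofReal_mul hC₃0.le, mul_assoc]
    gcongr
    exact hC₂ v hv
  have h3 : hs s (Pr φ (B (Rm φ v))) ≤ ENNReal.ofReal (C₅ * C₄ * C₂) * hs t v := by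
    refine (hC₅ _ hA).trans ?_
    rw [ENNReal.ofReal_mul (by positivity), ENNReal.ofReal_mul hC₅0.le, mul_assoc, mul_assoc]
    gcongr
    refine (hC₄ _ hR).trans ?_
    gcongr
    exact hC₂ v hv
  calc hs s (Dop B ν φ d w v) ≤ _ := h1
    _ ≤ 2 * (2 * (ENNReal.ofReal (ν ^ 2) * (ENNReal.ofReal (C₃ * C₂) * hs t v)) +
          2 * (ENNReal.ofReal ((-ν) ^ 2) * (ENNReal.ofReal (C₅ * C₄ * C₂) * hs t v))) +
        2 * (ENNReal.ofReal C₆ * hs t v) := by
        gcongr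
        · refine h2.trans ?_
          gcongr
        · exact hC₆ v hv
    _ = _ := by
        rw [ENNReal.ofReal_add (by positivity) (by positivity),
          ENNReal.ofReal_add (by positivity) (by positivity),
          ENNReal.ofReal_mul (p := 4 * ν ^ 2) (by positivity),
          ENNReal.ofReal_mul (p := 4 * ν ^ 2) (by positivity),
          ENNReal.ofReal_mul (p := 4) (by norm_num), ENNReal.ofReal_mul (p := 2) (by norm_num),
          neg_sq]
        have e4 : ENNReal.ofReal 4 = 4 := by simp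
        rw [e4, ← two_eq]
        ring

end

end Pool.Agent.H306.DS
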