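import Pool.Agent.H306.CK.Four4
import Mathlib.Analysis.Fourier.AddCircleMulti

/-! Parseval's identity on the torus. -/

noncomputable section

namespace Pool.Agent.H306.DS

open Set MeasureTheory Filter

open scoped Real ContDiff ENNReal ComplexConjugate Pointwise

open Pool.Agent.H306.CK

local instance : MeasureSpace UnitAddCircle := ⟨AddCircle.haarAddCircle⟩

local instance : Measure.IsAddHaarMeasure (volume : Measure UnitAddCircle) :=
  inferInstanceAs (Measure.IsAddHaarMeasure AddCircle.haarAddCircle)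

local instance : IsProbabilityMeasure (volume : Measure UnitAddCircle) :=
  inferInstanceAs (IsProbabilityMeasure AddCircle.haarAddCircle)

/-- The representative in the cell. -/
def rp (y : UnitAddTorus (Fin 3)) : V := fun i =>
  2 * π * (AddCircle.measurableEquivIoc 1 (-1 / 2) (y i) : ℝ)

theorem rp_measurable : Measurable rp := by
  refine measurable_pi_lambda _ fun i => ?_
  refine measurable_const.mul ?_
  exact measurable_subtype_coe.comp
    ((AddCircle.measurableEquivIoc 1 (-1 / 2)).measurable.comp (measurable_pi_apply i))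

/-- A function on the unit torus. -/
def lf (f : V → ℝ) (y : UnitAddTorus (Fin 3)) : ℂ := (f (rp y) : ℂ)

theorem rp_mem (y : UnitAddTorus (Fin 3)) : rp y ∈ torus := by
  have hpi := Real.pi_pos
  unfold torus
  rw [← pi_univ_Icc, mem_univ_pi]
  intro i
  have h := (AddCircle.measurableEquivIoc 1 (-1 / 2) (y i)).2
  have h1 : (-1 / 2 : ℝ) < _ := h.1
  have h2 : _ ≤ (-1 / 2 : ℝ) + 1 := h.2
  unfold rp
  constructor
  · nlinarith
  · nlinarith

theorem lf_memLp {f : V → ℝ} (hf : Continuous f) : MemLp (lf f) 2 volume := by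
  obtain ⟨C, hC⟩ := isCompact_torus.exists_bound_of_continuousOn hf.continuousOn
  refine MemLp.of_bound ?_ C (Eventually.of_forall fun y => ?_)
  · exact (Complex.measurable_ofReal.comp (hf.measurable.comp rp_measurable)).aestronglyMeasurable
  · unfold lf
    rw [Complex.norm_real]
    exact hC _ (rp_mem y)

theorem rp_coe {x : Fin 3 → ℝ} (hx : ∀ i, x i ∈ Ioc ((fun _ => (-1 / 2 : ℝ)) i)
    ((fun _ => (-1 / 2 : ℝ)) i + 1)) : rp (fun i => (x i : UnitAddCircle)) = (2 * π) • x := by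
  ext i
  unfold rp
  have h : (AddCircle.measurableEquivIoc 1 (-1 / 2) ((x i : UnitAddCircle)) : ℝ) = x i := by
    have := AddCircle.equivIoc_coe_eq (p := (1 : ℝ)) (a := -1 / 2) (hx i)
    exact congrArg Subtype.val this
  rw [h]
  rfl

/-- Integrals over the unit torus. -/
theorem int_unit (G : V → ℂ) : ∫ y : UnitAddTorus (Fin 3), G (rp y) =
    (((2 * π) ^ 3)⁻¹ : ℝ) • ∫ x in torus, G x := by
  have hpi := Real.pi_pos
  rw [UnitAddTorus.integral_preimage (fun y => G (rp y)) (fun _ => (-1 / 2 : ℝ))]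
  have hms : MeasurableSet {x : Fin 3 → ℝ | ∀ i, x i ∈ Ioc ((fun _ => (-1 / 2 : ℝ)) i)
    ((fun _ => (-1 / 2 : ℝ)) i + 1)} := MeasurableSet.univ_pi' fun i => measurableSet_Ioc
  rw [setIntegral_congr_fun (g := fun x => G ((2 * π) • x)) hms fun x hx => by
    simp only
    rw [rp_coe hx]]
  rw [Measure.setIntegral_comp_smul _ _ _ (by positivity : (2 * π) ≠ 0)]
  have h1 : |((2 * π) ^ Module.finrank ℝ (Fin 3 → ℝ))⁻¹| = ((2 * π) ^ 3)⁻¹ := by
    rw [Module.finrank_fin_fun, abs_of_pos (by positivity)]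
  rw [h1]
  congr 1
  have h2 : (2 * π) • {x : Fin 3 → ℝ | ∀ i, x i ∈ Ioc ((fun _ => (-1 / 2 : ℝ)) i)
    ((fun _ => (-1 / 2 : ℝ)) i + 1)} = Set.pi univ fun _ => Ioc (-π) π := by
    ext x
    rw [Set.mem_smul_set_iff_inv_smul_mem₀ (by positivity : (2 * π) ≠ 0)]
    simp only [mem_setOf_eq, Pi.smul_apply, smul_eq_mul, mem_univ_pi, mem_Ioc]
    refine forall_congr' fun i => ?_
    rw [inv_mul_eq_div, lt_div_iff₀ (by positivity), div_le_iff₀ (by positivity)]
    constructor
    · rintro ⟨h1, h2⟩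
      constructor <;> linarith
    · rintro ⟨h1, h2⟩
      constructor <;> linarith
  rw [h2]
  unfold torus
  exact setIntegral_congr_set (Measure.univ_pi_Ioc_ae_eq_Icc (μ := fun _ : Fin 3 => volume))

theorem coef_lf {f : V → ℝ} (hf : Continuous f) (n : Fin 3 → ℤ) :
    UnitAddTorus.mFourierCoeff (lf f) n = (((2 * π) ^ 3)⁻¹ : ℝ) • fc f n := by
  unfold UnitAddTorus.mFourierCoeff
  have h : ∀ y : UnitAddTorus (Fin 3), UnitAddTorus.mFourier (-n) y • lf f y =
      (fun x : V => (f x : ℂ) * ex (-n) x) (rp y) := by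
    intro y
    simp only [smul_eq_mul, lf]
    rw [mul_comm]
    congr 1
    unfold UnitAddTorus.mFourier
    simp only [ContinuousMap.coe_mk]
    unfold ex
    rw [Complex.ofReal_sum, Finset.mul_sum, Complex.exp_sum]
    refine Finset.prod_congr rfl fun i _ => ?_
    have h1 : (y i) = (((AddCircle.measurableEquivIoc 1 (-1 / 2) (y i) : ℝ)) : UnitAddCircle) := by
      exact ((AddCircle.equivIoc 1 (-1 / 2 : ℝ)).symm_apply_apply (y i)).symm
    conv_lhs => rw [h1]
    rw [fourier_coe_apply]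
    congr 1
    unfold rp
    push_cast
    ring
  simp only [h]
  refine (int_unit (fun x : V => (f x : ℂ) * ex (-n) x)).trans ?_
  congr 1
  rw [fc_eq]
  rfl

/-- Parseval's identity. -/
theorem parseval {f g : V → ℝ} (hf : Continuous f) (hg : Continuous g) :
    HasSum (fun k => conj (fc f k) * fc g k) (((2 * π) ^ 3 * ∫ x in torus, f x * g x : ℝ) : ℂ) := by
  have hpi := Real.pi_pos
  set F := MemLp.toLp (lf f) (lf_memLp hf) with hF
  set G := MemLp.toLp (lf g) (lf_memLp hg) with hG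
  have h1 := UnitAddTorus.hasSum_prod_mFourierCoeff F G
  have h2 : ∀ {f : V → ℝ} (hf : Continuous f) (k : Fin 3 → ℤ),
      UnitAddTorus.mFourierCoeff (MemLp.toLp (lf f) (lf_memLp hf)) k =
        (((2 * π) ^ 3)⁻¹ : ℝ) • fc f k := by
    intro f hf k
    rw [← coef_lf hf]
    refine integral_congr_ae ?_
    filter_upwards [(lf_memLp hf).coeFn_toLp] with y hy
    rw [hy]
  have h3 : ∫ t, conj (F t) * G t =
      (((2 * π) ^ 3)⁻¹ : ℝ) • ((∫ x in torus, f x * g x : ℝ) : ℂ) := by
    rw [← integral_complex_ofReal]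
    refine Eq.trans ?_ (int_unit (fun x : V => ((f x * g x : ℝ) : ℂ)))
    refine integral_congr_ae ?_
    filter_upwards [(lf_memLp hf).coeFn_toLp, (lf_memLp hg).coeFn_toLp] with y hy hy'
    rw [hF, hG, hy, hy']
    simp only [lf, Complex.conj_ofReal]
    push_cast
    rfl
  rw [h3] at h1
  simp only [hF, hG, h2 hf, h2 hg] at h1
  have h4 := h1.mul_left (((2 * π) ^ 6 : ℝ) : ℂ)
  have h5 : (((2 * π) ^ 6 : ℝ) : ℂ) * ((((2 * π) ^ 3)⁻¹ : ℝ) •
      ((∫ x in torus, f x * g x : ℝ) : ℂ)) = (((2 * π) ^ 3 * ∫ x in torus, f x * g x : ℝ) : ℂ) := by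
    rw [Complex.real_smul, ← Complex.ofReal_mul, ← Complex.ofReal_mul]
    congr 1
    field_simp
  rw [h5] at h4
  refine h4.congr_fun fun k => ?_
  rw [Complex.real_smul, Complex.real_smul, map_mul, Complex.conj_ofReal]
  have h6 : (((2 * π) ^ 6 : ℝ) : ℂ) * ((((2 * π) ^ 3)⁻¹ : ℝ) : ℂ) * ((((2 * π) ^ 3)⁻¹ : ℝ) : ℂ) = 1 := by
    rw [← Complex.ofReal_mul, ← Complex.ofReal_mul]
    have : (2 * π) ^ 6 * ((2 * π) ^ 3)⁻¹ * ((2 * π) ^ 3)⁻¹ = 1 := by field_simp
    rw [this, Complex.ofReal_one]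
  linear_combination (-(conj (fc f k) * fc g k)) * h6

theorem parseval_sq {f : V → ℝ} (hf : Continuous f) :
    HasSum (fun k => ‖fc f k‖ ^ 2) ((2 * π) ^ 3 * ∫ x in torus, f x ^ 2) := by
  have h := parseval hf hf
  have h1 : (fun k => conj (fc f k) * fc f k) = fun k => ((‖fc f k‖ ^ 2 : ℝ) : ℂ) := by
    ext k
    rw [mul_comm, Complex.mul_conj, Complex.normSq_eq_norm_sq]
  rw [h1] at h
  have h2 := Complex.hasSum_ofReal.1 h
  have h3 : ∀ x, f x ^ 2 = f x * f x := fun x => sq _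
  simp only [h3]
  exact h2

end Pool.Agent.H306.DS
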