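import Pool.Agent.H306.DS.Op2
import Pool.Agent.H306.DS.Modes

/-! Reference modes and the involution. -/

noncomputable section

namespace Pool.Agent.H306.DS

open Set MeasureTheory Filter

open scoped Real ContDiff ENNReal ComplexConjugate

open Pool.Agent.H306.CK

/-! ### Two orthogonal chains -/

/-- The normalized differences. -/
def ff2 (φ e : ℕ → V → V) (j : ℕ) (x : V) : V :=
  fun l => (Real.sqrt 2)⁻¹ * φ j x l + (-(Real.sqrt 2)⁻¹) * e j x l

theorem sqrt2_sq : (Real.sqrt 2)⁻¹ * (Real.sqrt 2)⁻¹ = 1 / 2 := by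
  rw [← mul_inv, Real.mul_self_sqrt (by norm_num)]; norm_num

section

variable {κ : ℕ → ℝ} {φ e : ℕ → V → V} {v u : V → V}

theorem ff2_chain (h : Chain κ φ) (h' : Chain κ e) (ho : ∀ i j, inner3 (φ i) (e j) = 0) :
    Chain κ (ff2 φ e) where
  one_le := h.one_le
  fast := h.fast
  next := h.next
  mono := h.mono
  sf := fun j => comb_sf (h.sf j) (h'.sf j) _ _
  bd := fun q => by
    obtain ⟨C, p, hC⟩ := h.bd q
    obtain ⟨C', p', hC'⟩ := h'.bd q
    refine ⟨|C| + |C'|, p + p', fun j l x => ?_⟩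
    have e1 : (fun y => ff2 φ e j y l) = (Real.sqrt 2)⁻¹ • (fun y => φ j y l) +
        (-(Real.sqrt 2)⁻¹) • (fun y => e j y l) := by
      ext y; simp [ff2]
    have s1 : ContDiff ℝ q (fun y => φ j y l) :=
      ((h.sf j).sp.comp l).1.of_le (by exact_mod_cast le_top)
    have s2 : ContDiff ℝ q (fun y => e j y l) :=
      ((h'.sf j).sp.comp l).1.of_le (by exact_mod_cast le_top)
    have hs2 : (Real.sqrt 2)⁻¹ ≤ 1 := by
      apply inv_le_one_of_one_le₀
      rw [Real.one_le_sqrt]; norm_num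
    have hs0 : 0 ≤ (Real.sqrt 2)⁻¹ := by positivity
    have s1' : ContDiff ℝ q ((Real.sqrt 2)⁻¹ • (fun y => φ j y l)) :=
      contDiff_const.mul s1 (f := fun _ => (Real.sqrt 2)⁻¹)
    have s2' : ContDiff ℝ q ((-(Real.sqrt 2)⁻¹) • (fun y => e j y l)) :=
      contDiff_const.mul s2 (f := fun _ => -(Real.sqrt 2)⁻¹)
    rw [e1, iteratedFDeriv_add_apply s1'.contDiffAt s2'.contDiffAt,
      iteratedFDeriv_const_smul_apply s1.contDiffAt, iteratedFDeriv_const_smul_apply s2.contDiffAt]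
    have hp := h.pos j
    have h1 := h.one_le j
    have b1 : κ j ^ p ≤ κ j ^ (p + p') := pow_le_pow_right₀ h1 (by omega)
    have b2 : κ j ^ p' ≤ κ j ^ (p + p') := pow_le_pow_right₀ h1 (by omega)
    refine (norm_add_le _ _).trans ?_
    rw [norm_smul, norm_smul, norm_neg, Real.norm_eq_abs, abs_of_nonneg hs0]
    have n1 := (hC j l x).trans (mul_le_mul_of_nonneg_right (le_abs_self C) (by positivity))
    have n2 := (hC' j l x).trans (mul_le_mul_of_nonneg_right (le_abs_self C') (by positivity))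
    have n3 := norm_nonneg (iteratedFDeriv ℝ q (fun y => φ j y l) x)
    have n4 := norm_nonneg (iteratedFDeriv ℝ q (fun y => e j y l) x)
    calc (Real.sqrt 2)⁻¹ * ‖iteratedFDeriv ℝ q (fun y => φ j y l) x‖ +
          (Real.sqrt 2)⁻¹ * ‖iteratedFDeriv ℝ q (fun y => e j y l) x‖ ≤
          1 * ‖iteratedFDeriv ℝ q (fun y => φ j y l) x‖ +
          1 * ‖iteratedFDeriv ℝ q (fun y => e j y l) x‖ := by gcongr
      _ ≤ |C| * κ j ^ p + |C'| * κ j ^ p' := by rw [one_mul, one_mul]; exact add_le_add n1 n2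
      _ ≤ |C| * κ j ^ (p + p') + |C'| * κ j ^ (p + p') := by gcongr
      _ = _ := by ring
  ortho := fun i j => by
    have c1 := (h.sf i).cp
    have c2 := (h'.sf i).cp
    have c3 := (h.sf j).cp
    have c4 := (h'.sf j).cp
    have hci : CP (ff2 φ e i) := (comb_sf (h.sf i) (h'.sf i) _ _).cp
    have e1 : inner3 (ff2 φ e i) (ff2 φ e j) = (Real.sqrt 2)⁻¹ * inner3 (ff2 φ e i) (φ j) +
        (-(Real.sqrt 2)⁻¹) * inner3 (ff2 φ e i) (e j) := inner_comb' c3 c4 hci _ _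
    have e2 : inner3 (φ j) (ff2 φ e i) = (Real.sqrt 2)⁻¹ * inner3 (φ j) (φ i) +
        (-(Real.sqrt 2)⁻¹) * inner3 (φ j) (e i) := inner_comb' c1 c2 c3 _ _
    have e3 : inner3 (e j) (ff2 φ e i) = (Real.sqrt 2)⁻¹ * inner3 (e j) (φ i) +
        (-(Real.sqrt 2)⁻¹) * inner3 (e j) (e i) := inner_comb' c1 c2 c4 _ _
    have hs := sqrt2_sq
    rw [e1, inner_comm _ (φ j), inner_comm _ (e j), e2, e3, inner_comm (e j) (φ i), ho, ho,
      h.ortho, h'.ortho]
    by_cases hij : i = j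
    · subst hij
      simp only [if_true]
      linarith
    · rw [if_neg (fun h => hij h.symm), if_neg hij]
      ring
  four := fun s => by
    obtain ⟨C, hC0, hC⟩ := h.four s
    obtain ⟨C', hC'0, hC'⟩ := h'.four s
    refine ⟨C + C', by positivity, fun j => ?_⟩
    have c1 : CP (fun x l => (Real.sqrt 2)⁻¹ * φ j x l) := by
      have := (comb_sf (h.sf j) (h.sf j) (Real.sqrt 2)⁻¹ 0).cp
      simpa using this
    have c2 : CP (fun x l => (-(Real.sqrt 2)⁻¹) * e j x l) := by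
      have := (comb_sf (h'.sf j) (h'.sf j) (-(Real.sqrt 2)⁻¹) 0).cp
      simpa using this
    have h1 := hs_add (t := s) c1 c2
    have e1 : (fun x => (fun l => (Real.sqrt 2)⁻¹ * φ j x l) +
        fun l => (-(Real.sqrt 2)⁻¹) * e j x l) = ff2 φ e j := by
      ext x l; simp [ff2]
    rw [e1, hs_scale, hs_scale] at h1
    have e2 : (Real.sqrt 2)⁻¹ ^ 2 = 1 / 2 := by rw [sq]; exact sqrt2_sq
    have e3 : (-(Real.sqrt 2)⁻¹) ^ 2 = 1 / 2 := by rw [neg_sq]; exact e2
    rw [e2, e3] at h1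
    have e4 : (2 : ℝ≥0∞) * (ENNReal.ofReal (1 / 2) * hs s (φ j)) = hs s (φ j) := by
      rw [← mul_assoc, two_eq, ← ENNReal.ofReal_mul (by norm_num)]
      norm_num
    have e5 : (2 : ℝ≥0∞) * (ENNReal.ofReal (1 / 2) * hs s (e j)) = hs s (e j) := by
      rw [← mul_assoc, two_eq, ← ENNReal.ofReal_mul (by norm_num)]
      norm_num
    rw [e4, e5] at h1
    have hp := Real.rpow_pos_of_pos (h.pos j) (2 * s)
    calc hs s (ff2 φ e j) ≤ _ := h1
      _ ≤ ENNReal.ofReal (C * κ j ^ (2 * s)) + ENNReal.ofReal (C' * κ j ^ (2 * s)) :=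
          add_le_add (hC j) (hC' j)
      _ = _ := by
          rw [← ENNReal.ofReal_add (by positivity) (by positivity)]
          congr 1
          ring

/-- The involution exchanging the two chains. -/
def Uo (f : ℕ → V → V) (v : V → V) (x : V) : V := fun i => 1 * v x i + (-2) * Pr f v x i

section one

variable {f : ℕ → V → V} (h : Chain κ f)

include h

theorem Uo_sp (hv : SP v) : SP (Uo f v) := comb_sp hv (Pr_sf h hv).sp _ _

theorem Uo_sf (hv : SF v) : SF (Uo f v) := comb_sf hv (Pr_sf h hv.sp) _ _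

theorem Uo_comb (hv : SP v) (hu : SP u) (a b : ℝ) :
    Uo f (fun x i => a * v x i + b * u x i) = fun x i => a * Uo f v x i + b * Uo f u x i := by
  ext x i
  unfold Uo
  rw [Pr_comb h hv hu]
  ring

theorem Uo_hs {s t : ℝ} (hst : s < t) : ∃ C : ℝ, 0 < C ∧ ∀ v, SP v →
    hs s (Uo f v) ≤ ENNReal.ofReal C * hs t v := by
  obtain ⟨C, hC0, hC⟩ := Pr_hs h hst
  refine ⟨2 + 8 * C, by positivity, fun v hv => ?_⟩
  have hP := (Pr_sf h hv).sp
  have hN : CP (fun x i => (-2) * Pr f v x i) := by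
    have := (comb_sp hP hP (-2) 0).cp
    simpa using this
  have h1 := hs_add (t := s) hv.cp hN
  have e1 : (fun x => v x + fun i => (-2) * Pr f v x i) = Uo f v := by
    ext x i
    simp [Uo]
  rw [e1, hs_scale] at h1
  calc hs s (Uo f v) ≤ 2 * hs s v + 2 * (ENNReal.ofReal ((-2) ^ 2) * hs s (Pr f v)) := h1
    _ ≤ 2 * hs t v + 2 * (ENNReal.ofReal ((-2) ^ 2) * (ENNReal.ofReal C * hs t v)) := by
        gcongr
        · exact hs_mono hst.le v
        · exact hC v hv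
    _ = _ := by
        rw [ENNReal.ofReal_add (by norm_num) (by positivity),
          ENNReal.ofReal_mul (p := 8) (by norm_num),
          show ENNReal.ofReal ((-2) ^ 2) = 4 by norm_num, show ENNReal.ofReal 8 = 8 by norm_num,
          ← two_eq]
        ring

theorem coef_Uo (hv : SP v) (j : ℕ) : coef f (Uo f v) j = -coef f v j := by
  have h1 : coef f (Uo f v) j = 1 * coef f v j + (-2) * coef f (Pr f v) j :=
    inner_comb' hv.cp (Pr_sf h hv).cp (h.sf j).cp _ _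
  have h2 : coef f (Pr f v) j = coef f v j := ser_coef h (coef_rapid h hv) j
  rw [h1, h2]
  ring

theorem Uo_Uo (hv : SP v) : Uo f (Uo f v) = v := by
  have h1 : Pr f (Uo f v) = fun x i => (-1) * Pr f v x i + 0 * Pr f v x i := by
    unfold Pr
    rw [← ser_comb h (coef_rapid h hv) (coef_rapid h hv)]
    congr 1
    ext j
    rw [coef_Uo h hv]
    ring
  ext x i
  change 1 * (1 * v x i + (-2) * Pr f v x i) + (-2) * Pr f (Uo f v) x i = v x i
  rw [h1]
  ring

theorem inner_Uo (hv : SP v) (hu : SP u) : inner3 (Uo f v) u = inner3 v (Uo f u) := by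
  have h1 : inner3 u (Uo f v) = 1 * inner3 u v + (-2) * inner3 u (Pr f v) :=
    inner_comb' hv.cp (Pr_sf h hv).cp hu.cp _ _
  have h2 : inner3 v (Uo f u) = 1 * inner3 v u + (-2) * inner3 v (Pr f u) :=
    inner_comb' hu.cp (Pr_sf h hu).cp hv.cp _ _
  rw [inner_comm, h1, h2, inner_comm u v, inner_comm u (Pr f v), inner_Pr h hv hu]

/-- The conjugated operator. -/
theorem conj_bop {α β : ℝ} (hαβ : α < β) : ∃ C₁ : ℝ, Bop α β C₁ (fun v => Uo f (FA β (Uo f v))) := by
  obtain ⟨C, hC0, hC⟩ := Uo_hs h hαβ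
  have hpi := Real.pi_pos
  refine ⟨C * (2 * π) ^ 3, by positivity, fun v hv => Uo_sp h (FA_sp (Uo_sp h hv) β),
    fun v hv => Uo_sf h (FA_sf (Uo_sf h hv) β), fun v u hv hu a b => ?_, fun v hv => ?_,
    fun v hv => ?_, fun s t hst => ?_⟩
  · rw [Uo_comb h hv hu, FA_comb (Uo_sp h hv) (Uo_sp h hu),
      Uo_comb h (FA_sp (Uo_sp h hv) β) (FA_sp (Uo_sp h hu) β)]
  · rw [inner_Uo h (FA_sp (Uo_sp h hv) β) hv]
    exact FA_nonneg (Uo_sp h hv) β
  · rw [inner_Uo h (FA_sp (Uo_sp h hv) β) hv]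
    have h1 := hC _ (Uo_sp h hv)
    rw [Uo_Uo h hv, hs_FA_one (Uo_sp h hv), ← ENNReal.ofReal_mul hC0.le] at h1
    rwa [← mul_assoc] at h1
  · set s₁ := (s + (t - 2 * β)) / 2 with hs₁
    have h1 : s < s₁ := by rw [hs₁]; linarith
    have h2 : s₁ + 2 * β < t := by rw [hs₁]; linarith
    obtain ⟨C₁, hC₁0, hC₁⟩ := Uo_hs h h1
    obtain ⟨C₂, hC₂0, hC₂⟩ := Uo_hs h h2
    refine ⟨C₁ * C₂, by positivity, fun v hv => ?_⟩
    calc hs s (Uo f (FA β (Uo f v))) ≤ ENNReal.ofReal C₁ * hs s₁ (FA β (Uo f v)) :=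
          hC₁ _ (FA_sp (Uo_sp h hv) β)
      _ = ENNReal.ofReal C₁ * hs (s₁ + 2 * β) (Uo f v) := by rw [hs_FA (Uo_sp h hv)]
      _ ≤ ENNReal.ofReal C₁ * (ENNReal.ofReal C₂ * hs t v) := by gcongr; exact hC₂ v hv
      _ = _ := by rw [ENNReal.ofReal_mul hC₁0.le, mul_assoc]

end one

section two

variable (h : Chain κ φ) (h' : Chain κ e) (ho : ∀ i j, inner3 (φ i) (e j) = 0)

include h h' ho

theorem coef_ff_phi (i j : ℕ) : coef (ff2 φ e) (φ j) i = if i = j then (Real.sqrt 2)⁻¹ else 0 := by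
  unfold coef
  have e1 : inner3 (φ j) (ff2 φ e i) = (Real.sqrt 2)⁻¹ * inner3 (φ j) (φ i) +
      (-(Real.sqrt 2)⁻¹) * inner3 (φ j) (e i) :=
    inner_comb' (h.sf i).cp (h'.sf i).cp (h.sf j).cp _ _
  rw [inner_comm, e1, ho, h.ortho]
  by_cases hij : i = j
  · subst hij; simp
  · rw [if_neg (fun h => hij h.symm), if_neg hij]; ring

/-- The involution maps the modes to the reference modes. -/
theorem Uo_phi (j : ℕ) : Uo (ff2 φ e) (φ j) = e j := by
  have hP : Pr (ff2 φ e) (φ j) = fun x i => (Real.sqrt 2)⁻¹ * ff2 φ e j x i := by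
    ext x i
    unfold Pr ser
    rw [tsum_eq_single j (fun i' hi' => by rw [coef_ff_phi h h' ho, if_neg hi', zero_mul]),
      coef_ff_phi h h' ho, if_pos rfl]
  ext x i
  unfold Uo
  rw [hP]
  simp only [ff2]
  have hs := sqrt2_sq
  have e1 : (Real.sqrt 2)⁻¹ * ((Real.sqrt 2)⁻¹ * φ j x i + (-(Real.sqrt 2)⁻¹) * e j x i) =
      ((Real.sqrt 2)⁻¹ * (Real.sqrt 2)⁻¹) * (φ j x i - e j x i) := by ring
  rw [e1, hs]
  ring

theorem coef_e_Uo (hv : SP v) (j : ℕ) : coef e (Uo (ff2 φ e) v) j = coef φ v j := by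
  have hc := ff2_chain h h' ho
  unfold coef
  rw [← Uo_phi h h' ho j, inner_Uo hc (h.sf j).sp (Uo_sp hc hv), Uo_Uo hc hv]

theorem coef_phi_Uo (hv : SP v) (j : ℕ) : coef φ (Uo (ff2 φ e) v) j = coef e v j := by
  have hc := ff2_chain h h' ho
  have h1 := coef_e_Uo h h' ho (Uo_sp hc hv) j
  rw [Uo_Uo hc hv] at h1
  exact h1.symm

end two

end

end Pool.Agent.H306.DS
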