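import Pool.Agent.H306.DS.Hs2

/-! Series of modes. -/

noncomputable section

namespace Pool.Agent.H306.DS

open Set MeasureTheory Filter

open scoped Real ContDiff ENNReal ComplexConjugate

open Pool.Agent.H306.CK

/-- A chain of orthonormal modes with rapidly growing frequencies. -/
structure Chain (κ : ℕ → ℝ) (φ : ℕ → V → V) : Prop where
  one_le : ∀ j, 1 ≤ κ j
  fast : ∀ ε : ℝ, 0 < ε → ∃ C : ℝ, ∀ j, (4 : ℝ) ^ j ≤ C * κ j ^ ε
  next : ∀ ε : ℝ, 0 < ε → ∃ C : ℝ, ∀ j, κ (j + 1) ≤ C * κ j ^ (1 + ε)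
  mono : ∀ j, κ j ≤ κ (j + 1)
  sf : ∀ j, SF (φ j)
  bd : ∀ q : ℕ, ∃ (C : ℝ) (p : ℕ), ∀ j l x,
    ‖iteratedFDeriv ℝ q (fun y => φ j y l) x‖ ≤ C * κ j ^ p
  ortho : ∀ i j, inner3 (φ i) (φ j) = if i = j then 1 else 0
  four : ∀ s : ℝ, ∃ C : ℝ, 0 < C ∧ ∀ j, hs s (φ j) ≤ ENNReal.ofReal (C * κ j ^ (2 * s))

/-- Rapidly decreasing sequences. -/
def Rapid (κ : ℕ → ℝ) (a : ℕ → ℝ) : Prop := ∀ N : ℕ, ∃ C : ℝ, ∀ j, |a j| * κ j ^ N ≤ C

section

variable {κ : ℕ → ℝ} {φ : ℕ → V → V} {a b : ℕ → ℝ}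

theorem Chain.pos (h : Chain κ φ) (j : ℕ) : 0 < κ j := by linarith [h.one_le j]

theorem Chain.inv_sum (h : Chain κ φ) {ε : ℝ} (hε : 0 < ε) :
    ∃ C : ℝ, 0 < C ∧ ∀ j, 2 * 2 ^ j * κ j ^ (-ε) ≤ C * (1 / 2) ^ j := by
  obtain ⟨C, hC⟩ := h.fast ε hε
  refine ⟨2 * max C 1, by positivity, fun j => ?_⟩
  have h1 : 0 < κ j ^ ε := Real.rpow_pos_of_pos (h.pos j) _
  have h2 : (4 : ℝ) ^ j ≤ max C 1 * κ j ^ ε := (hC j).trans (by gcongr; exact le_max_left _ _)
  rw [Real.rpow_neg (h.pos j).le, ← div_eq_mul_inv, div_le_iff₀ h1]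
  have h3 : (2 : ℝ) ^ j * (1 / 2) ^ j = 1 := by rw [← mul_pow]; norm_num
  have h4 : (2 : ℝ) ^ j = 4 ^ j * (1 / 2) ^ j := by
    rw [← mul_pow]; norm_num
  calc 2 * 2 ^ j = 2 * (4 ^ j * (1 / 2) ^ j) := by rw [← h4]
    _ ≤ 2 * ((max C 1 * κ j ^ ε) * (1 / 2) ^ j) := by gcongr
    _ = _ := by ring

theorem Rapid.summable (h : Chain κ φ) (ha : Rapid κ a) (p : ℕ) :
    Summable fun j => |a j| * κ j ^ p := by
  obtain ⟨C, hC⟩ := ha (p + 1)
  obtain ⟨C', hC'0, hC'⟩ := h.inv_sum (ε := 1) one_pos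
  have hC0 : 0 ≤ C := le_trans (by have := h.pos 0; positivity) (hC 0)
  refine Summable.of_nonneg_of_le (fun j => by have := h.pos j; positivity) (fun j => ?_)
    ((summable_geometric_of_lt_one (by norm_num) (by norm_num : (1 / 2 : ℝ) < 1)).mul_left
      (C * C'))
  have h1 := hC' j
  have hp := h.pos j
  have h2 : |a j| * κ j ^ p ≤ C * κ j ^ (-1 : ℝ) := by
    rw [Real.rpow_neg hp.le, Real.rpow_one, ← div_eq_mul_inv, le_div_iff₀ hp]
    calc _ = |a j| * κ j ^ (p + 1) := by ring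
      _ ≤ C := hC j
  have h3 : κ j ^ (-1 : ℝ) ≤ 2 * 2 ^ j * κ j ^ (-1 : ℝ) := by
    have h4 : (1 : ℝ) ≤ 2 ^ j := one_le_pow₀ (by norm_num)
    have h5 : 0 < κ j ^ (-1 : ℝ) := Real.rpow_pos_of_pos hp _
    nlinarith
  calc |a j| * κ j ^ p ≤ C * κ j ^ (-1 : ℝ) := h2
    _ ≤ C * (C' * (1 / 2) ^ j) := by gcongr; exact h3.trans h1
    _ = _ := by ring

theorem Rapid.summable0 (h : Chain κ φ) (ha : Rapid κ a) : Summable fun j => |a j| := by
  simpa using ha.summable h 0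

theorem Rapid.of_le (hκ : ∀ j, 1 ≤ κ j) (ha : Rapid κ a) {C : ℝ} {p : ℕ} (hC : 0 ≤ C)
    (hb : ∀ j, |b j| ≤ C * κ j ^ p * |a j|) : Rapid κ b := by
  intro N
  obtain ⟨C', hC'⟩ := ha (p + N)
  refine ⟨C * C', fun j => ?_⟩
  have hp : 0 < κ j := by linarith [hκ j]
  calc |b j| * κ j ^ N ≤ (C * κ j ^ p * |a j|) * κ j ^ N := by gcongr; exact hb j
    _ = C * (|a j| * κ j ^ (p + N)) := by rw [pow_add]; ring
    _ ≤ C * C' := by gcongr; exact hC' j

theorem Rapid.add (hκ : ∀ j, 1 ≤ κ j) (ha : Rapid κ a) (hb : Rapid κ b) :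
    Rapid κ (fun j => a j + b j) := by
  intro N
  obtain ⟨C, hC⟩ := ha N
  obtain ⟨C', hC'⟩ := hb N
  refine ⟨C + C', fun j => ?_⟩
  have hp : 0 < κ j := by linarith [hκ j]
  calc |a j + b j| * κ j ^ N ≤ (|a j| + |b j|) * κ j ^ N := by gcongr; exact abs_add_le _ _
    _ = |a j| * κ j ^ N + |b j| * κ j ^ N := by ring
    _ ≤ _ := add_le_add (hC j) (hC' j)

/-- The bounds of the modes. -/
theorem Chain.bd0 (h : Chain κ φ) : ∃ (C : ℝ) (p : ℕ), 1 ≤ C ∧ ∀ j x l, |φ j x l| ≤ C * κ j ^ p := by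
  obtain ⟨C, p, hC⟩ := h.bd 0
  refine ⟨max C 1, p, le_max_right _ _, fun j x l => ?_⟩
  have h1 := hC j l x
  rw [norm_iteratedFDeriv_zero, Real.norm_eq_abs] at h1
  have hp := h.pos j
  exact h1.trans (by gcongr; exact le_max_left _ _)

theorem scaled (h : Chain κ φ) : ∃ (B : ℕ → ℝ) (C : ℝ) (p : ℕ), (∀ j, 0 < B j) ∧
    (∀ j, B j = C * κ j ^ p) ∧ 1 ≤ C ∧ ∀ j x l, |(B j)⁻¹ * φ j x l| ≤ 1 := by
  obtain ⟨C, p, hC1, hC⟩ := h.bd0
  have hB : ∀ j, 0 < C * κ j ^ p := fun j => by have := h.pos j; positivity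
  refine ⟨fun j => C * κ j ^ p, C, p, hB, fun j => rfl, hC1, fun j x l => ?_⟩
  rw [abs_mul, abs_inv, abs_of_pos (hB j), inv_mul_le_iff₀ (hB j), mul_one]
  exact hC j x l

theorem ser_scaled (a : ℕ → ℝ) (φ : ℕ → V → V) {B : ℕ → ℝ} (hB : ∀ j, 0 < B j) :
    ser a φ = ser (fun j => a j * B j) (fun j x l => (B j)⁻¹ * φ j x l) := by
  ext x l
  unfold ser
  refine tsum_congr fun j => ?_
  have := (hB j).ne'
  field_simp

theorem scaled_cp (h : Chain κ φ) (c : ℕ → ℝ) (j : ℕ) : CP (fun x l => c j * φ j x l) := by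
  refine ⟨continuous_pi fun l => continuous_const.mul ((h.sf j).cp.comp_continuous l), ?_⟩
  intro i x
  ext l
  simp only
  rw [(h.sf j).2.1 i x]

theorem scaled_sum (h : Chain κ φ) (ha : Rapid κ a) {B : ℕ → ℝ} {C : ℝ} {p : ℕ}
    (hB : ∀ j, B j = C * κ j ^ p) (hC : 1 ≤ C) : Summable fun j => |a j * B j| := by
  refine ((ha.summable h p).mul_left C).congr fun j => ?_
  have hp := h.pos j
  rw [hB, abs_mul, abs_of_pos (by positivity : 0 < C * κ j ^ p)]
  ring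

theorem ser_sum (h : Chain κ φ) (ha : Rapid κ a) (x : V) (i : Fin 3) :
    Summable fun j => a j * φ j x i := by
  obtain ⟨B, C, p, hB0, hB, hC, hb⟩ := scaled h
  refine (ser_summable (scaled_sum h ha hB hC) hb x i).congr fun j => ?_
  have := (hB0 j).ne'
  field_simp

theorem ser_CP (h : Chain κ φ) (ha : Rapid κ a) : CP (ser a φ) := by
  obtain ⟨B, C, p, hB0, hB, hC, hb⟩ := scaled h
  rw [ser_scaled a φ hB0]
  exact ser_cp (scaled_sum h ha hB hC) (fun j => scaled_cp h (fun j => (B j)⁻¹) j) hb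

theorem inner_smul_left (c : ℝ) (v w : V → V) : inner3 (fun x l => c * v x l) w = c * inner3 v w := by
  unfold inner3
  rw [← integral_const_mul]
  congr 1
  ext x
  rw [Finset.mul_sum]
  exact Finset.sum_congr rfl fun i _ => by ring

theorem ser_inner (h : Chain κ φ) (ha : Rapid κ a) {v : V → V} (hv : CP v) :
    HasSum (fun j => a j * inner3 (φ j) v) (inner3 (ser a φ) v) := by
  obtain ⟨B, C, p, hB0, hB, hC, hb⟩ := scaled h
  rw [ser_scaled a φ hB0]
  refine (inner_ser (scaled_sum h ha hB hC) (fun j => scaled_cp h (fun j => (B j)⁻¹) j)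
    hb hv).congr_fun fun j => ?_
  rw [inner_smul_left]
  have := (hB0 j).ne'
  field_simp

theorem ser_coef (h : Chain κ φ) (ha : Rapid κ a) (i : ℕ) : inner3 (φ i) (ser a φ) = a i := by
  have h1 := ser_inner h ha (h.sf i).cp
  rw [inner_comm]
  have h2 : HasSum (fun j => a j * inner3 (φ j) (φ i)) (a i) := by
    have h3 := hasSum_single (f := fun j => a j * inner3 (φ j) (φ i)) i (fun j hj => by
      rw [h.ortho, if_neg hj, mul_zero])
    rwa [h.ortho, if_pos rfl, mul_one] at h3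
  exact h1.unique h2

theorem hs_scale (s c : ℝ) (v : V → V) :
    hs s (fun x l => c * v x l) = ENNReal.ofReal (c ^ 2) * hs s v := hs_smul s c v

theorem ser_hs (h : Chain κ φ) (ha : Rapid κ a) (t : ℝ) :
    hs t (ser a φ) ≤ ∑' j, ENNReal.ofReal (2 * 2 ^ j * a j ^ 2) * hs t (φ j) := by
  obtain ⟨B, C, p, hB0, hB, hC, hb⟩ := scaled h
  rw [ser_scaled a φ hB0]
  refine (hs_ser (scaled_sum h ha hB hC) (fun j => scaled_cp h (fun j => (B j)⁻¹) j)
    hb t).trans (le_of_eq ?_)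
  refine tsum_congr fun j => ?_
  rw [hs_scale, ← mul_assoc, ← ENNReal.ofReal_mul (by positivity)]
  congr 2
  have := (hB0 j).ne'
  field_simp

theorem ser_contDiff (h : Chain κ φ) (ha : Rapid κ a) (l : Fin 3) :
    ContDiff ℝ ∞ (fun x => ∑' j, a j * φ j x l) := by
  choose C p hC using h.bd
  refine contDiff_tsum (N := ⊤) (v := fun q j => |a j| * (|C q| * κ j ^ p q))
    (fun j => contDiff_const.mul ((h.sf j).sp.comp l).1) (fun q _ => ?_) (fun q j x _ => ?_)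
  · refine ((ha.summable h (p q)).mul_left |C q|).congr fun j => ?_
    ring
  · have h1 : (fun x => a j * φ j x l) = a j • (fun x => φ j x l) := by
      ext x; simp
    rw [h1, iteratedFDeriv_const_smul_apply
      ((((h.sf j).sp.comp l).1.of_le (by exact_mod_cast le_top)).contDiffAt),
      norm_smul, Real.norm_eq_abs]
    have hp := h.pos j
    gcongr
    exact (hC q j l x).trans (by gcongr; exact le_abs_self _)

theorem pd_bound (h : Chain κ φ) : ∃ (C : ℝ) (p : ℕ), 0 ≤ C ∧ ∀ j i l x,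
    |pd i (fun y => φ j y l) x| ≤ C * κ j ^ p := by
  obtain ⟨C, p, hC⟩ := h.bd 1
  refine ⟨|C|, p, abs_nonneg _, fun j i l x => ?_⟩
  have h1 := hC j l x
  have h2 : ‖fderiv ℝ (fun y => φ j y l) x‖ = ‖iteratedFDeriv ℝ 1 (fun y => φ j y l) x‖ := by
    rw [norm_iteratedFDeriv_one]
  have hp := h.pos j
  unfold CK.pd
  have h3 : ‖(Pi.single i (1 : ℝ) : V)‖ ≤ 1 := by
    rw [pi_norm_le_iff_of_nonneg zero_le_one]
    intro k
    by_cases hk : k = i
    · subst hk; simp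
    · simp [hk]
  calc |fderiv ℝ (fun y => φ j y l) x (Pi.single i 1)| ≤
        ‖fderiv ℝ (fun y => φ j y l) x‖ * ‖(Pi.single i 1 : V)‖ := by
        rw [← Real.norm_eq_abs]
        exact (fderiv ℝ (fun y => φ j y l) x).le_opNorm _
    _ ≤ (C * κ j ^ p) * 1 := by
        rw [h2]
        gcongr
        exact (norm_nonneg _).trans h1
    _ ≤ |C| * κ j ^ p := by rw [mul_one]; gcongr; exact le_abs_self _

theorem ser_pd (h : Chain κ φ) (ha : Rapid κ a) (i l : Fin 3) (x : V) :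
    HasSum (fun j => a j * pd i (fun y => φ j y l) x) (pd i (fun y => ser a φ y l) x) := by
  obtain ⟨C, p, hC0, hC⟩ := pd_bound h
  choose C' p' hC' using h.bd
  have hdiff : ∀ j, Differentiable ℝ (fun x => a j * φ j x l) := fun j =>
    ((contDiff_const.mul ((h.sf j).sp.comp l).1).differentiable (by simp))
  have hfd : ∀ j x, ‖fderiv ℝ (fun x => a j * φ j x l) x‖ ≤ |a j| * (|C' 1| * κ j ^ p' 1) := by
    intro j x
    have h1 : (fun x => a j * φ j x l) = a j • (fun x => φ j x l) := by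
      ext x; simp
    have hp := h.pos j
    rw [h1, fderiv_const_smul ((((h.sf j).sp.comp l).1.differentiable (by simp)) x), norm_smul,
      Real.norm_eq_abs, ← norm_iteratedFDeriv_one]
    gcongr
    exact (hC' 1 j l x).trans (by gcongr; exact le_abs_self _)
  have hsm : Summable fun j => |a j| * (|C' 1| * κ j ^ p' 1) := by
    refine ((ha.summable h (p' 1)).mul_left |C' 1|).congr fun j => ?_
    ring
  have h0 : Summable fun j => a j * φ j x l := ser_sum h ha x l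
  have h2 := hasFDerivAt_tsum (𝕜 := ℝ) (f := fun j x => a j * φ j x l) (x₀ := x) hsm
    (fun j y => (hdiff j y).hasFDerivAt) hfd h0 x
  have h3 : Summable fun j => fderiv ℝ (fun x => a j * φ j x l) x :=
    Summable.of_norm_bounded hsm fun j => hfd j x
  have h4 := h3.hasSum.mapL (ContinuousLinearMap.apply ℝ ℝ (Pi.single i (1 : ℝ) : V))
  have h5 : pd i (fun y => ser a φ y l) x =
      (∑' j, fderiv ℝ (fun x => a j * φ j x l) x) (Pi.single i 1) := by
    change fderiv ℝ (fun y => ∑' j, a j * φ j y l) x (Pi.single i 1) = _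
    rw [h2.fderiv]
  rw [h5]
  refine h4.congr_fun fun j => ?_
  have h1 : (fun x => a j * φ j x l) = a j • (fun x => φ j x l) := by
    ext x; simp
  simp only [ContinuousLinearMap.apply_apply]
  rw [h1, fderiv_const_smul ((((h.sf j).sp.comp l).1.differentiable (by simp)) x)]
  rfl

theorem ser_sf (h : Chain κ φ) (ha : Rapid κ a) : SF (ser a φ) := by
  refine ⟨contDiff_pi.2 fun l => ser_contDiff h ha l, (ser_CP h ha).2, fun x => ?_⟩
  have h1 := hasSum_sum (f := fun (i : Fin 3) j => a j * pd i (fun y => φ j y i) x)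
    (s := Finset.univ) fun i _ => ser_pd h ha i i x
  have h2 : (fun j => ∑ i, a j * pd i (fun y => φ j y i) x) = fun _ => 0 := by
    ext j
    rw [← Finset.mul_sum, (h.sf j).2.2 x, mul_zero]
  rw [h2] at h1
  exact h1.unique hasSum_zero

/-- The coefficients of a field. -/
def coef (φ : ℕ → V → V) (v : V → V) (j : ℕ) : ℝ := inner3 (φ j) v

theorem coef_sq (h : Chain κ φ) (s : ℝ) : ∃ C : ℝ, 0 < C ∧ ∀ v, SP v → ∀ j,
    coef φ v j ^ 2 ≤ C * κ j ^ (-(2 * s)) * hr s v := by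
  obtain ⟨C, hC0, hC⟩ := h.four (-s)
  refine ⟨C, hC0, fun v hv j => ?_⟩
  refine (pair_hr (h.sf j).sp hv s).trans ?_
  have h1 : hr (-s) (φ j) ≤ C * κ j ^ (-(2 * s)) := by
    refine ENNReal.toReal_le_of_le_ofReal ?_ ?_
    · have := Real.rpow_pos_of_pos (h.pos j) (-(2 * s))
      positivity
    · have h2 := hC j
      rwa [show 2 * -s = -(2 * s) by ring] at h2
  have := hr_nonneg s v
  gcongr

theorem coef_rapid (h : Chain κ φ) {v : V → V} (hv : SP v) : Rapid κ (coef φ v) := by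
  intro N
  obtain ⟨C, hC0, hC⟩ := coef_sq h N
  refine ⟨Real.sqrt (C * hr N v), fun j => ?_⟩
  have hp := h.pos j
  have h1 := hC v hv j
  apply Real.le_sqrt_of_sq_le
  rw [mul_pow, sq_abs]
  have h2 : κ j ^ (-(2 * (N : ℝ))) * (κ j ^ N) ^ 2 = 1 := by
    rw [← pow_mul, ← Real.rpow_natCast, ← Real.rpow_add hp]
    have : -(2 * (N : ℝ)) + ((N * 2 : ℕ) : ℝ) = 0 := by push_cast; ring
    rw [this, Real.rpow_zero]
  calc coef φ v j ^ 2 * (κ j ^ N) ^ 2 ≤ (C * κ j ^ (-(2 * (N : ℝ))) * hr N v) * (κ j ^ N) ^ 2 := by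
        gcongr
    _ = C * hr N v * (κ j ^ (-(2 * (N : ℝ))) * (κ j ^ N) ^ 2) := by ring
    _ = _ := by rw [h2, mul_one]

end

end Pool.Agent.H306.DS
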