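import Pool.Agent.H306.DS.Modes

/-! The solution. -/

noncomputable section

namespace Pool.Agent.H306.DS

open Set MeasureTheory Filter Topology

open scoped Real ContDiff ENNReal

open Pool.Agent.H306.CK

/-- The data of the construction. -/
structure Setup (β θ : ℝ) (N : ℕ → ℝ) (φ : Fin 3 → ℕ → V → V) (ϖ : ℕ → V → ℝ) (m₀ : ℕ)
    (ρ A : ℕ → ℝ) (k : ℝ) (x y z : ℕ → ℝ → ℝ) (a e : ℕ → ℝ) : Prop where
  modes : Modes θ N φ ϖ
  cas : Cas ρ k x y z a e
  lt : β < 1
  Kρ : ∃ p : ℕ, ∀ s, Kf (s + m₀) ≤ ρ s ^ p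
  ρK : ∀ t : ℝ, 2 * β < t → ∃ C : ℝ, ∀ s, ρ s ≤ C * Kf (s + m₀) ^ t
  A_pos : ∀ s, 0 < A s
  A_le : ∀ s, A s ≤ 1
  NA : ∀ s, N (s + m₀) * A s = ρ s
  kρ : k = ρ 0 / 32
  ratio : ∀ s, A (s + 1) ≤ 1 / 10 ^ 7 * A s

def cY (A : ℕ → ℝ) (y : ℕ → ℝ → ℝ) (s : ℕ) (t : ℝ) : ℝ :=
  match s with
  | 0 => 0
  | m + 1 => 2 * A (m + 1) * y m t

def cZ (A : ℕ → ℝ) (k : ℝ) (z : ℕ → ℝ → ℝ) (s : ℕ) (t : ℝ) : ℝ :=
  match s with
  | 0 => A 0 * P0 k t
  | m + 1 => 2 * A (m + 1) * z m t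

def cX (A : ℕ → ℝ) (k : ℝ) (x : ℕ → ℝ → ℝ) (s : ℕ) (t : ℝ) : ℝ := A s * inp k x s t

/-- The coefficients of the solution. -/
def cc (A : ℕ → ℝ) (k : ℝ) (x y z : ℕ → ℝ → ℝ) : ℕ → ℝ → ℝ := t3 (cY A y) (cZ A k z) (cX A k x)

def dY (ρ : ℕ → ℝ) (k : ℝ) (s : ℕ) : ℝ :=
  match s with
  | 0 => k
  | m + 1 => ρ m

def dZ (ρ : ℕ → ℝ) (k : ℝ) (s : ℕ) : ℝ :=
  match s with
  | 0 => k
  | m + 1 => ρ (m + 1) / 8

/-- The damping rates. -/
def dd (ρ : ℕ → ℝ) (k : ℝ) : ℕ → ℝ := t3 (dY ρ k) (dZ ρ k) (dZ ρ k)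

def wY (e : ℕ → ℝ) (s : ℕ) : ℝ :=
  match s with
  | 0 => 0
  | m + 1 => e m

def wZ (ρ : ℕ → ℝ) (k : ℝ) (s : ℕ) : ℝ :=
  match s with
  | 0 => k / 2
  | m + 1 => ρ (m + 1) / 16

def wX (A a : ℕ → ℝ) (s : ℕ) : ℝ := 2 * a s * A (s + 1) / A s

/-- The transfer rates. -/
def ww (ρ A : ℕ → ℝ) (k : ℝ) (a e : ℕ → ℝ) : ℕ → ℝ := t3 (wY e) (wZ ρ k) (wX A a)

section

variable {β θ : ℝ} {N : ℕ → ℝ} {φ : Fin 3 → ℕ → V → V} {ϖ : ℕ → V → ℝ} {m₀ : ℕ}
  {ρ A : ℕ → ℝ} {k : ℝ} {x y z : ℕ → ℝ → ℝ} {a e : ℕ → ℝ}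

theorem Setup.rates (h : Setup β θ N φ ϖ m₀ ρ A k x y z a e) : Rates ρ k := h.cas.rates

theorem Setup.chain (h : Setup β θ N φ ϖ m₀ ρ A k x y z a e) : Chain (kc m₀) (cm φ m₀) :=
  h.modes.chain m₀

theorem Setup.a_bd (h : Setup β θ N φ ϖ m₀ ρ A k x y z a e) (s : ℕ) :
    0 < a s ∧ a s ≤ 51200 * ρ s := ⟨(h.cas.out s).a_pos, (h.cas.out s).a_le⟩

theorem Setup.wX_bd (h : Setup β θ N φ ϖ m₀ ρ A k x y z a e) (s : ℕ) :
    0 ≤ wX A a s ∧ wX A a s ≤ 11 / 1000 * ρ s := by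
  obtain ⟨h1, h2⟩ := h.a_bd s
  have h3 := h.A_pos s
  have h4 := h.A_pos (s + 1)
  have h5 := h.ratio s
  have h6 := h.rates.ρ_pos s
  unfold wX
  refine ⟨by positivity, ?_⟩
  rw [div_le_iff₀ h3]
  calc 2 * a s * A (s + 1) ≤ 2 * (51200 * ρ s) * (1 / 10 ^ 7 * A s) := by gcongr
    _ ≤ _ := by nlinarith [mul_pos (by linarith : 0 < ρ s) h3]

theorem Setup.e_bd (h : Setup β θ N φ ϖ m₀ ρ A k x y z a e) (m : ℕ) :
    0 < e m ∧ 4 * e m ^ 2 ≤ ρ m * (ρ (m + 1) / 8) ∧ e m ≤ ρ (m + 1) := by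
  have h1 := (h.cas.out m).e_pos
  have h2 := (h.cas.out m).e_le
  have h3 := h.rates.sm2 m
  have h4 := h.rates.ρ_pos m
  have h5 := h.rates.ρ_pos (m + 1)
  have h6 := h.rates.sm1 m
  have h7 := ep_pos (ρ m) (ρ (m + 1))
  refine ⟨h1, ?_, ?_⟩
  · set E := ep (ρ m) (ρ (m + 1))
    set R := ρ (m + 1)
    have h8 : e m ^ 2 ≤ (3 * R * E) ^ 2 := pow_le_pow_left₀ h1.le h2 2
    have h9 : (R * E) ^ 2 ≤ 1 := by nlinarith
    have h10 : (64 : ℝ) * 64 ≤ ρ m * R := mul_le_mul h4 h5 (by norm_num) (by linarith)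
    nlinarith
  · nlinarith

theorem Setup.coefs (h : Setup β θ N φ ϖ m₀ ρ A k x y z a e) :
    Coefs β (kc m₀) (dd ρ k) (ww ρ A k a e) where
  lt := h.lt
  d_nn := by
    have hk : 0 ≤ k := by linarith [h.rates.k_ge]
    have hd : ∀ s, 0 ≤ dY ρ k s := fun s => by
      cases s with
      | zero => exact hk
      | succ m => have := h.rates.ρ_pos m; simp only [dY]; linarith
    have hz : ∀ s, 0 ≤ dZ ρ k s := fun s => by
      cases s with
      | zero => exact hk
      | succ m => have := h.rates.ρ_pos (m + 1); simp only [dZ]; linarith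
    exact t3_forall _ _ _ (p := fun r _ => 0 ≤ r) hd hz hz
  d_le := by
    intro t ht
    obtain ⟨C, hC⟩ := h.ρK t ht
    have hk : k ≤ ρ 0 := by have := h.rates.ρ_pos 0; rw [h.kρ]; linarith
    have hz : ∀ s, dZ ρ k s ≤ C * Kf (s + m₀) ^ t := fun s => by
      cases s with
      | zero => exact hk.trans (hC 0)
      | succ m =>
        have := h.rates.ρ_pos (m + 1)
        have h2 := hC (m + 1)
        simp only [dZ]
        linarith
    have hd : ∀ s, dY ρ k s ≤ C * Kf (s + m₀) ^ t := fun s => by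
      cases s with
      | zero => exact hk.trans (hC 0)
      | succ m =>
        have h1 := h.rates.mono m
        have h2 := hC (m + 1)
        simp only [dY]
        linarith
    refine ⟨C, t3_forall _ _ _ (p := fun r j => r ≤ C * kc m₀ j ^ t) (fun s => ?_)
      (fun s => ?_) (fun s => ?_)⟩
    · unfold kc
      rw [show 3 * s / 3 = s by omega]
      exact hd s
    · unfold kc
      rw [show (3 * s + 1) / 3 = s by omega]
      exact hz s
    · unfold kc
      rw [show (3 * s + 2) / 3 = s by omega]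
      exact hz s
  w_le := by
    intro t ht
    obtain ⟨C, hC⟩ := h.ρK t ht
    have hC0 : ∀ s, 0 ≤ C * Kf (s + m₀) ^ t := fun s => by
      have := h.rates.ρ_pos s
      linarith [hC s]
    refine ⟨C, t3_forall _ _ _ (p := fun r j => |r| ≤ C * kc m₀ j ^ t) (fun s => ?_)
      (fun s => ?_) (fun s => ?_)⟩
    · unfold kc
      rw [show 3 * s / 3 = s by omega]
      cases s with
      | zero => simp only [wY, abs_zero]; exact hC0 0
      | succ m =>
        obtain ⟨h1, h2, h3⟩ := h.e_bd m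
        simp only [wY]
        rw [abs_of_pos h1]
        exact h3.trans (hC (m + 1))
    · unfold kc
      rw [show (3 * s + 1) / 3 = s by omega]
      cases s with
      | zero =>
        have h1 := h.rates.k_ge
        have h2 := h.rates.ρ_pos 0
        have h3 := h.kρ
        have h4 := hC 0
        simp only [wZ]
        rw [abs_of_nonneg (by linarith)]
        linarith
      | succ m =>
        have h2 := h.rates.ρ_pos (m + 1)
        have h4 := hC (m + 1)
        simp only [wZ]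
        rw [abs_of_nonneg (by linarith)]
        linarith
    · unfold kc
      rw [show (3 * s + 2) / 3 = s by omega]
      obtain ⟨h1, h2⟩ := h.wX_bd s
      have h3 := h.rates.ρ_pos s
      have h4 := hC s
      rw [abs_of_nonneg h1]
      linarith
  dom := by
    intro j
    obtain ⟨s, rfl | rfl | rfl⟩ := t3_cases j
    · -- `Y → Z`
      unfold dd ww
      rw [t3_0, t3_0, t3_1]
      cases s with
      | zero =>
        simp only [wY, dY, dZ]
        have := h.rates.k_ge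
        nlinarith
      | succ m =>
        obtain ⟨h1, h2, h3⟩ := h.e_bd m
        exact h2
    · -- `Z → X`
      unfold dd ww
      rw [t3_1, t3_1, show 3 * s + 1 + 1 = 3 * s + 2 by ring, t3_2]
      cases s with
      | zero =>
        simp only [wZ, dZ]
        nlinarith
      | succ m =>
        simp only [wZ, dZ]
        nlinarith
    · -- `X → Y`
      unfold dd ww
      rw [t3_2, t3_2, show 3 * s + 2 + 1 = 3 * (s + 1) by ring, t3_0]
      obtain ⟨h1, h2⟩ := h.wX_bd s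
      have h3 := h.rates.ρ_pos s
      have h4 : 4 * wX A a s ^ 2 ≤ 1 / 32 * ρ s ^ 2 := by
        have h5 : wX A a s ^ 2 ≤ (11 / 1000 * ρ s) ^ 2 := pow_le_pow_left₀ h1 h2 2
        nlinarith [sq_nonneg (ρ s)]
      refine h4.trans ?_
      cases s with
      | zero =>
        simp only [dZ, dY]
        rw [h.kρ]
        nlinarith
      | succ m =>
        simp only [dZ, dY]
        nlinarith [sq_nonneg (ρ (m + 1))]

theorem al_cX (h : Setup β θ N φ ϖ m₀ ρ A k x y z a e) : Al ρ x y z (cX A k x) := by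
  have h1 : cX A k x = shf (fun t => A 0 * f0 k t) (fun m t => A (m + 1) * x m t) := by
    ext s t
    cases s <;> rfl
  rw [h1]
  exact .shift _ (contDiff_const.mul (f0_smooth k)) (.coef _ 1 0 (fun m => by
    rw [abs_of_pos (h.A_pos _)]; simpa using h.A_le (m + 1)) .x)

theorem al_cY (h : Setup β θ N φ ϖ m₀ ρ A k x y z a e) : Al ρ x y z (cY A y) := by
  have h1 : cY A y = shf (fun _ => 0) (fun m t => (2 * A (m + 1)) * y m t) := by
    ext s t
    cases s <;> rfl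
  rw [h1]
  exact .shift _ contDiff_const (.coef _ 2 0 (fun m => by
    have := h.A_pos (m + 1)
    rw [abs_of_pos (by positivity)]
    have := h.A_le (m + 1)
    simp only [pow_zero, mul_one]
    linarith) .y)

theorem P0_smooth (k : ℝ) : ContDiff ℝ ∞ (P0 k) := by
  unfold P0
  fun_prop

theorem al_cZ (h : Setup β θ N φ ϖ m₀ ρ A k x y z a e) : Al ρ x y z (cZ A k z) := by
  have h1 : cZ A k z = shf (fun t => A 0 * P0 k t) (fun m t => (2 * A (m + 1)) * z m t) := by
    ext s t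
    cases s <;> rfl
  rw [h1]
  exact .shift _ (contDiff_const.mul (P0_smooth k)) (.coef _ 2 0 (fun m => by
    have := h.A_pos (m + 1)
    rw [abs_of_pos (by positivity)]
    have := h.A_le (m + 1)
    simp only [pow_zero, mul_one]
    linarith) .z)

theorem TT_le_one (h : Rates ρ k) : TT ρ ≤ 1 := by
  have h1 := TT_le h
  have h2 := h.pos
  have : 1 / ρ 0 ≤ 1 := by
    rw [div_le_one (by linarith)]; linarith
  linarith

theorem sub_Ioo (h : Rates ρ k) : Ioo 0 (TT ρ) ⊆ Ioo (-1 : ℝ) 2 := fun t ht =>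
  ⟨by linarith [ht.1], by linarith [ht.2, TT_le_one h]⟩

/-- Families of the algebra as coefficients. -/
theorem TC_fam (h : Setup β θ N φ ϖ m₀ ρ A k x y z a e) {g : ℕ → ℝ → ℝ} (hg : Al ρ x y z g) :
    TC (fun s => Kf (s + m₀)) 0 (TT ρ) g where
  smooth := fun j => (hg.smooth h.cas j).mono (sub_Ioo h.rates)
  bd := fun q M a' b' ha' hb' => by
    obtain ⟨g', h1, h2⟩ := hg.iter h.cas q
    obtain ⟨p, hp⟩ := h.Kρ
    obtain ⟨C, hC⟩ := h1.rt h.cas b' hb' (p * M)
    refine ⟨C, fun j t ht => ?_⟩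
    have ht' : t ∈ Ioo (-1 : ℝ) 2 := sub_Ioo h.rates ⟨by linarith [ht.1], by linarith [ht.2]⟩
    rw [h2 j t ht']
    refine le_trans ?_ (hC j t ⟨by linarith [ht.1], ht.2⟩)
    have h3 := hp j
    have h4 := h.rates.mono j
    have h5 := Kf_pos (j + m₀)
    have h6 := h.rates.ρ_pos j
    rw [pow_mul]
    gcongr
    exact h3.trans (pow_le_pow_left₀ (by linarith) (by linarith) p)

theorem TC_cc (h : Setup β θ N φ ϖ m₀ ρ A k x y z a e) :
    TC (kc m₀) 0 (TT ρ) (cc A k x y z) where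
  smooth := t3_forall _ _ _ (p := fun g _ => ContDiffOn ℝ ∞ g (Ioo 0 (TT ρ)))
    (TC_fam h (al_cY h)).smooth (TC_fam h (al_cZ h)).smooth (TC_fam h (al_cX h)).smooth
  bd := fun q M a' b' ha' hb' => by
    obtain ⟨C₀, hC₀⟩ := (TC_fam h (al_cY h)).bd q M a' b' ha' hb'
    obtain ⟨C₁, hC₁⟩ := (TC_fam h (al_cZ h)).bd q M a' b' ha' hb'
    obtain ⟨C₂, hC₂⟩ := (TC_fam h (al_cX h)).bd q M a' b' ha' hb'
    refine ⟨max C₀ (max C₁ C₂), t3_forall _ _ _ (p := fun g j => ∀ t ∈ Icc a' b',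
      |iteratedDeriv q g t| * kc m₀ j ^ M ≤ max C₀ (max C₁ C₂)) (fun s t ht => ?_)
      (fun s t ht => ?_) (fun s t ht => ?_)⟩
    · unfold kc
      rw [show 3 * s / 3 = s by omega]
      exact (hC₀ s t ht).trans (le_max_left _ _)
    · unfold kc
      rw [show (3 * s + 1) / 3 = s by omega]
      exact (hC₁ s t ht).trans ((le_max_left _ _).trans (le_max_right _ _))
    · unfold kc
      rw [show (3 * s + 2) / 3 = s by omega]
      exact (hC₂ s t ht).trans ((le_max_right _ _).trans (le_max_right _ _))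

theorem TC.rapid {κ : ℕ → ℝ} {a b : ℝ} {c : ℕ → ℝ → ℝ} (h : TC κ a b c) {t : ℝ}
    (ht : t ∈ Ioo a b) : Rapid κ (fun j => c j t) := by
  intro M
  obtain ⟨C, hC⟩ := h.bd 0 M t t ht.1 ht.2
  refine ⟨C, fun j => ?_⟩
  have := hC j t ⟨le_rfl, le_rfl⟩
  rwa [iteratedDeriv_zero] at this

/-- The nonlinear couplings. -/
def EY (N A : ℕ → ℝ) (m₀ : ℕ) (k : ℝ) (x z : ℕ → ℝ → ℝ) (s : ℕ) (t : ℝ) : ℝ :=
  match s with
  | 0 => 0
  | m + 1 => -(N (m + 1 + m₀) * (cX A k x (m + 1) t * cZ A k z (m + 1) t))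

def EZ (N A : ℕ → ℝ) (m₀ : ℕ) (k : ℝ) (x y : ℕ → ℝ → ℝ) (s : ℕ) (t : ℝ) : ℝ :=
  match s with
  | 0 => 0
  | m + 1 => N (m + 1 + m₀) * (cX A k x (m + 1) t * cY A y (m + 1) t)

def EE (N A : ℕ → ℝ) (m₀ : ℕ) (k : ℝ) (x y z : ℕ → ℝ → ℝ) : ℕ → ℝ → ℝ :=
  t3 (EY N A m₀ k x z) (EZ N A m₀ k x y) (fun _ _ => 0)

theorem cc_deriv (h : Setup β θ N φ ϖ m₀ ρ A k x y z a e) {t : ℝ} (ht : t ∈ Ioo 0 (TT ρ)) (j : ℕ) :
    HasDerivAt (cc A k x y z j) (-(dd ρ k j * cc A k x y z j t -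
      pw (ww ρ A k a e) (fun j => cc A k x y z j t) j) + EE N A m₀ k x y z j t) t := by
  have ht' := sub_Ioo h.rates ht
  obtain ⟨s, rfl | rfl | rfl⟩ := t3_cases j
  · cases s with
    | zero =>
      have e1 : cc A k x y z (3 * 0) = fun _ => 0 := by
        unfold cc; rw [t3_0]; rfl
      have e2 : EE N A m₀ k x y z (3 * 0) t = 0 := by
        unfold EE; rw [t3_0]; rfl
      rw [e1, e2]
      refine (hasDerivAt_const t (0 : ℝ)).congr_deriv ?_
      simp [pw]
    | succ m =>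
      have e1 : cc A k x y z (3 * (m + 1)) = fun t => 2 * A (m + 1) * y m t := by
        unfold cc; rw [t3_0]; rfl
      have e2 : EE N A m₀ k x y z (3 * (m + 1)) t =
          -(N (m + 1 + m₀) * ((A (m + 1) * x m t) * (2 * A (m + 1) * z m t))) := by
        unfold EE; rw [t3_0]; rfl
      have e3 : dd ρ k (3 * (m + 1)) = ρ m := by
        unfold dd; rw [t3_0]; rfl
      have e4 : pw (ww ρ A k a e) (fun j => cc A k x y z j t) (3 * (m + 1)) =
          (2 * a m * A (m + 1) / A m) * (A m * inp k x m t) := by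
        rw [show 3 * (m + 1) = 3 * m + 2 + 1 by ring]
        simp only [pw]
        unfold ww cc
        rw [t3_2, t3_2]
        rfl
      rw [e1, e2, e3, e4]
      refine (((h.cas.out m).act.dery t ht').const_mul (2 * A (m + 1))).congr_deriv ?_
      have h1 := h.NA (m + 1)
      have h2 := (h.A_pos m).ne'
      have h3 : (2 * a m * A (m + 1) / A m) * (A m * inp k x m t) =
          2 * a m * A (m + 1) * inp k x m t := by field_simp
      rw [h3, ← h1]
      ring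
  · cases s with
    | zero =>
      have e1 : cc A k x y z (3 * 0 + 1) = fun t => A 0 * P0 k t := by
        unfold cc; rw [t3_1]; rfl
      have e2 : EE N A m₀ k x y z (3 * 0 + 1) t = 0 := by
        unfold EE; rw [t3_1]; rfl
      have e3 : dd ρ k (3 * 0 + 1) = k := by
        unfold dd; rw [t3_1]; rfl
      have e4 : pw (ww ρ A k a e) (fun j => cc A k x y z j t) (3 * 0 + 1) = 0 := by
        simp only [pw]
        have : cc A k x y z (3 * 0) t = 0 := by unfold cc; rw [t3_0]; rfl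
        rw [this, mul_zero]
      rw [e1, e2, e3, e4]
      exact ((P0_deriv k t).const_mul (A 0)).congr_deriv (by ring)
    | succ m =>
      have e1 : cc A k x y z (3 * (m + 1) + 1) = fun t => 2 * A (m + 1) * z m t := by
        unfold cc; rw [t3_1]; rfl
      have e2 : EE N A m₀ k x y z (3 * (m + 1) + 1) t =
          N (m + 1 + m₀) * ((A (m + 1) * x m t) * (2 * A (m + 1) * y m t)) := by
        unfold EE; rw [t3_1]; rfl
      have e3 : dd ρ k (3 * (m + 1) + 1) = ρ (m + 1) / 8 := by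
        unfold dd; rw [t3_1]; rfl
      have e4 : pw (ww ρ A k a e) (fun j => cc A k x y z j t) (3 * (m + 1) + 1) =
          e m * (2 * A (m + 1) * y m t) := by
        simp only [pw]
        unfold ww cc
        rw [t3_0, t3_0]
        rfl
      rw [e1, e2, e3, e4]
      refine (((h.cas.out m).act.derz t ht').const_mul (2 * A (m + 1))).congr_deriv ?_
      have h1 := h.NA (m + 1)
      rw [← h1]
      ring
  · cases s with
    | zero =>
      have e1 : cc A k x y z (3 * 0 + 2) = fun t => A 0 * f0 k t := by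
        unfold cc; rw [t3_2]; rfl
      have e2 : EE N A m₀ k x y z (3 * 0 + 2) t = 0 := by
        unfold EE; rw [t3_2]
      have e3 : dd ρ k (3 * 0 + 2) = k := by
        unfold dd; rw [t3_2]; rfl
      have e4 : pw (ww ρ A k a e) (fun j => cc A k x y z j t) (3 * 0 + 2) =
          k / 2 * (A 0 * P0 k t) := by
        have q1 : ww ρ A k a e 1 = k / 2 := t3_1 _ _ _ 0
        have q2 : cc A k x y z 1 t = A 0 * P0 k t := congrFun (t3_1 _ _ _ 0) t
        change ww ρ A k a e 1 * cc A k x y z 1 t = _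
        rw [q1, q2]
      rw [e1, e2, e3, e4]
      exact ((f0_deriv k t).const_mul (A 0)).congr_deriv (by ring)
    | succ m =>
      have e1 : cc A k x y z (3 * (m + 1) + 2) = fun t => A (m + 1) * x m t := by
        unfold cc; rw [t3_2]; rfl
      have e2 : EE N A m₀ k x y z (3 * (m + 1) + 2) t = 0 := by
        unfold EE; rw [t3_2]
      have e3 : dd ρ k (3 * (m + 1) + 2) = ρ (m + 1) / 8 := by
        unfold dd; rw [t3_2]; rfl
      have e4 : pw (ww ρ A k a e) (fun j => cc A k x y z j t) (3 * (m + 1) + 2) =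
          ρ (m + 1) / 16 * (2 * A (m + 1) * z m t) := by
        rw [show 3 * (m + 1) + 2 = (3 * (m + 1) + 1) + 1 by ring]
        simp only [pw]
        unfold ww cc
        rw [t3_1, t3_1]
        rfl
      rw [e1, e2, e3, e4]
      refine (((h.cas.out m).act.derx t ht').const_mul (A (m + 1))).congr_deriv ?_
      ring

/-- The velocity. -/
def UU (φ : Fin 3 → ℕ → V → V) (m₀ : ℕ) (A : ℕ → ℝ) (k : ℝ) (x y z : ℕ → ℝ → ℝ) (t : ℝ) :
    V → V := ser (fun j => cc A k x y z j t) (cm φ m₀)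

/-- The pressure. -/
def PP (ϖ : ℕ → V → ℝ) (m₀ : ℕ) (A : ℕ → ℝ) (k : ℝ) (x : ℕ → ℝ → ℝ) (t : ℝ) (ξ : V) : ℝ :=
  ∑' s, cX A k x s t ^ 2 * (if s = 0 then 0 else ϖ (s + m₀) ξ)

theorem UU_sf (h : Setup β θ N φ ϖ m₀ ρ A k x y z a e) {t : ℝ} (ht : t ∈ Ioo 0 (TT ρ)) :
    SF (UU φ m₀ A k x y z t) := ser_sf h.chain ((TC_cc h).rapid ht)

theorem inv_kc_summable (m₀ : ℕ) : Summable fun j => 1 / kc m₀ j := by
  obtain ⟨C, hC⟩ := kc_fast m₀ 1 one_pos
  refine Summable.of_nonneg_of_le (fun j => by have := Kf_pos (j / 3 + m₀); unfold kc; positivity)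
    (fun j => ?_) ((summable_geometric_of_lt_one (by norm_num) (by norm_num : (1 / 4 : ℝ) < 1)).mul_left C)
  have h1 := hC j
  rw [Real.rpow_one] at h1
  have h2 : 0 < kc m₀ j := Kf_pos _
  rw [div_le_iff₀ h2]
  have h3 : (4 : ℝ) ^ j * (1 / 4) ^ j = 1 := by rw [← mul_pow]; norm_num
  calc (1 : ℝ) = 4 ^ j * (1 / 4) ^ j := h3.symm
    _ ≤ (C * kc m₀ j) * (1 / 4) ^ j := by gcongr
    _ = _ := by ring

theorem inv_Kf_summable (m₀ : ℕ) : Summable fun s => 1 / Kf (s + m₀) := by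
  have h1 : ∀ s, 1 / Kf (s + m₀) ≤ (1 / 2 : ℝ) ^ s := by
    intro s
    rw [one_div_pow]
    apply one_div_le_one_div_of_le (by positivity)
    unfold Kf
    apply pow_le_pow_right₀ (by norm_num)
    calc s ≤ s + m₀ + 4 := by omega
      _ ≤ (s + m₀ + 4) ^ 2 := Nat.le_self_pow two_ne_zero _
  exact Summable.of_nonneg_of_le (fun s => by have := Kf_pos (s + m₀); positivity) h1
    (summable_geometric_of_lt_one (by norm_num) (by norm_num))

theorem UU_smooth (h : Setup β θ N φ ϖ m₀ ρ A k x y z a e) :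
    ContDiffOn ℝ ∞ (fun q : ℝ × V => UU φ m₀ A k x y z q.1 q.2) (Ioo 0 (TT ρ) ×ˢ univ) := by
  refine contDiffOn_pi.2 fun l => ?_
  refine joint_smooth (κ := kc m₀) (fun j => Kf_one_le _) (inv_kc_summable m₀) (TC_cc h)
    (f := fun j ξ => cm φ m₀ j ξ l) (fun j => ((h.chain.sf j).sp.comp l).1) (fun q => ?_)
  obtain ⟨C, p, hC⟩ := h.chain.bd q
  exact ⟨C, p, fun j ξ => hC j l ξ⟩

theorem al_sq (h : Setup β θ N φ ϖ m₀ ρ A k x y z a e) :
    Al ρ x y z (fun s t => cX A k x s t * cX A k x s t) := .mul (al_cX h) (al_cX h)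

theorem PP_smooth (h : Setup β θ N φ ϖ m₀ ρ A k x y z a e) :
    ContDiffOn ℝ ∞ (fun q : ℝ × V => PP ϖ m₀ A k x q.1 q.2) (Ioo 0 (TT ρ) ×ˢ univ) := by
  have h1 := joint_smooth (κ := fun s => Kf (s + m₀)) (fun j => Kf_one_le _) (inv_Kf_summable m₀)
    (TC_fam h (al_sq h)) (f := fun s ξ => if s = 0 then 0 else ϖ (s + m₀) ξ) (fun s => by
      by_cases hs : s = 0
      · simp only [hs, if_true]; exact contDiff_const
      · simp only [hs, if_false]; exact (h.modes.ps _).1) (fun q => by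
      obtain ⟨C, p, hC⟩ := h.modes.pb q
      refine ⟨|C|, p, fun s ξ => ?_⟩
      have h2 := Kf_pos (s + m₀)
      by_cases hs : s = 0
      · simp only [hs, if_true]
        rw [iteratedFDeriv_fun_zero]
        simp only [Pi.zero_apply, norm_zero]
        rw [hs] at h2
        positivity
      · simp only [hs, if_false]
        exact (hC _ ξ).trans (by gcongr; exact le_abs_self _))
  refine h1.congr fun q hq => ?_
  unfold PP
  refine tsum_congr fun s => ?_
  rw [sq]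

end

end Pool.Agent.H306.DS
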