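import Pool.Agent.H306.DS.HatQ

/-! One stage of the cascade. -/

namespace Pool.Agent.H306.DS

open Set Filter Topology

open Pool.Agent.H306.CK

/-- The equations of one stage. -/
structure Act (f x y z : ℝ → ℝ) (R ν a e : ℝ) : Prop where
  contx : ContinuousOn x (Icc (-1) 2)
  conty : ContinuousOn y (Icc (-1) 2)
  contz : ContinuousOn z (Icc (-1) 2)
  derx : ∀ t ∈ Ioo (-1 : ℝ) 2, HasDerivAt x (R / 8 * (z t - x t)) t
  dery : ∀ t ∈ Ioo (-1 : ℝ) 2, HasDerivAt y (-ν * y t - R * (x t * z t) + a * f t) t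
  derz : ∀ t ∈ Ioo (-1 : ℝ) 2, HasDerivAt z (-(R / 8 * z t) + (R * x t + e) * y t) t

theorem exists_act {f : ℝ → ℝ} {R ν a e : ℝ} (hf : ContinuousOn f (Icc (-1) 2)) (hR : 0 ≤ R)
    (hν : 0 ≤ ν) (ha : 0 ≤ a) (he : 0 ≤ e) (x₀ y₀ z₀ : ℝ) : ∃ x y z : ℝ → ℝ,
    Act f x y z R ν a e ∧ x 0 = x₀ ∧ y 0 = y₀ ∧ z 0 = z₀ := by
  have c0 : ContDiff ℝ 1 (fun v : E3 => ((R / 8 * (v.2.1 - v.1),
      -(R / 8 * v.2.1) + (R * v.1 + e) * v.2.2, -ν * v.2.2 - R * (v.1 * v.2.1)) : E3)) := by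
    fun_prop
  have c1 : ContDiff ℝ 1 (fun _ : E3 => ((0, 0, a) : E3)) := by fun_prop
  obtain ⟨v, hv0, hvc, hv⟩ := gexist (C := R + e + ν + a) c0 c1 hf (fun v => by
    have e1 : dot v (R / 8 * (v.2.1 - v.1), -(R / 8 * v.2.1) + (R * v.1 + e) * v.2.2,
        -ν * v.2.2 - R * (v.1 * v.2.1)) = R * ((v.1 * v.2.1 - v.1 ^ 2 - v.2.1 ^ 2) / 8) +
        e * (v.2.1 * v.2.2) - ν * v.2.2 ^ 2 := by
      unfold dot; ring
    rw [e1]
    set p := v.1
    set q := v.2.1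
    set s := v.2.2
    have hn : nrg v = p ^ 2 + q ^ 2 + s ^ 2 := rfl
    rw [hn]
    have b1 : |(p * q - p ^ 2 - q ^ 2) / 8| ≤ 1 + (p ^ 2 + q ^ 2 + s ^ 2) := by
      rw [abs_le]
      constructor <;> nlinarith [sq_nonneg (p + q), sq_nonneg (p - q), sq_nonneg s]
    have b2 : |q * s| ≤ 1 + (p ^ 2 + q ^ 2 + s ^ 2) := by
      rw [abs_le]
      constructor <;> nlinarith [sq_nonneg (q + s), sq_nonneg (q - s), sq_nonneg p]
    have b3 : |s ^ 2| ≤ 1 + (p ^ 2 + q ^ 2 + s ^ 2) := by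
      rw [abs_of_nonneg (sq_nonneg s)]
      nlinarith [sq_nonneg p, sq_nonneg q]
    have b0 : 0 ≤ 1 + (p ^ 2 + q ^ 2 + s ^ 2) := by positivity
    calc |R * ((p * q - p ^ 2 - q ^ 2) / 8) + e * (q * s) - ν * s ^ 2| ≤
          |R * ((p * q - p ^ 2 - q ^ 2) / 8) + e * (q * s)| + |ν * s ^ 2| := abs_sub _ _
      _ ≤ |R * ((p * q - p ^ 2 - q ^ 2) / 8)| + |e * (q * s)| + |ν * s ^ 2| := by
          gcongr
          exact abs_add_le _ _
      _ = R * |(p * q - p ^ 2 - q ^ 2) / 8| + e * |q * s| + ν * |s ^ 2| := by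
          rw [abs_mul R, abs_mul e, abs_mul ν, abs_of_nonneg hR, abs_of_nonneg he, abs_of_nonneg hν]
      _ ≤ R * (1 + (p ^ 2 + q ^ 2 + s ^ 2)) + e * (1 + (p ^ 2 + q ^ 2 + s ^ 2)) +
          ν * (1 + (p ^ 2 + q ^ 2 + s ^ 2)) := by gcongr
      _ ≤ _ := by nlinarith [mul_nonneg ha b0]) (fun v => by
    have e1 : dot v (0, 0, a) = a * v.2.2 := by unfold dot; ring
    rw [e1]
    have hn : nrg v = v.1 ^ 2 + v.2.1 ^ 2 + v.2.2 ^ 2 := rfl
    rw [hn]
    have b1 : |v.2.2| ≤ 1 + (v.1 ^ 2 + v.2.1 ^ 2 + v.2.2 ^ 2) := by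
      rw [abs_le]
      constructor <;> nlinarith [sq_nonneg (v.2.2 + 1), sq_nonneg (v.2.2 - 1), sq_nonneg v.1,
        sq_nonneg v.2.1]
    have b0 : 0 ≤ 1 + (v.1 ^ 2 + v.2.1 ^ 2 + v.2.2 ^ 2) := by positivity
    rw [abs_mul, abs_of_nonneg ha]
    calc a * |v.2.2| ≤ a * (1 + (v.1 ^ 2 + v.2.1 ^ 2 + v.2.2 ^ 2)) := by gcongr
      _ ≤ _ := by nlinarith [mul_nonneg hR b0, mul_nonneg he b0, mul_nonneg hν b0])
    (x₀, z₀, y₀)
  refine ⟨fun t => (v t).1, fun t => (v t).2.2, fun t => (v t).2.1,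
    ⟨hvc.fst, hvc.snd.snd, hvc.snd.fst, fun t ht => ?_, fun t ht => ?_, fun t ht => ?_⟩,
    by simp [hv0], by simp [hv0], by simp [hv0]⟩
  · have h5 : HasDerivAt (fun t => (v t).1) (((R / 8 * ((v t).2.1 - (v t).1),
      -(R / 8 * (v t).2.1) + (R * (v t).1 + e) * (v t).2.2,
      -ν * (v t).2.2 - R * ((v t).1 * (v t).2.1)) : E3) + f t • ((0, 0, a) : E3)).1 t :=
      (hv t ht).fst
    refine h5.congr_deriv ?_
    simp
  · have h5 : HasDerivAt (fun t => (v t).2.2) (((R / 8 * ((v t).2.1 - (v t).1),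
      -(R / 8 * (v t).2.1) + (R * (v t).1 + e) * (v t).2.2,
      -ν * (v t).2.2 - R * ((v t).1 * (v t).2.1)) : E3) + f t • ((0, 0, a) : E3)).2.2 t :=
      (hv t ht).snd.snd
    refine h5.congr_deriv ?_
    simp
    ring
  · have h5 : HasDerivAt (fun t => (v t).2.1) (((R / 8 * ((v t).2.1 - (v t).1),
      -(R / 8 * (v t).2.1) + (R * (v t).1 + e) * (v t).2.2,
      -ν * (v t).2.2 - R * ((v t).1 * (v t).2.1)) : E3) + f t • ((0, 0, a) : E3)).2.1 t :=
      (hv t ht).snd.fst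
    refine h5.congr_deriv ?_
    simp

/-- The smallness conditions. -/
structure Sm (r R : ℝ) : Prop where
  R1 : 1 ≤ R
  e1 : 6 * ep r R ≤ 1 / 100
  e2 : 2 * R * (48 * R * ep r R ^ 2) ≤ 1 / 8

section

variable {f Y X Z x y z : ℝ → ℝ} {T τ r R γ ν a e : ℝ}

theorem act_bounds (hi : In f T τ r γ) (hh : Hat Y X Z T τ R γ e) (hY : LinY f Y T τ r γ ν a)
    (hT : Tm T τ r R γ ν) (hS : Sm r R) (hA : Act f x y z R ν a e) (hx0 : x 0 = X 0)
    (hy0 : y 0 = Y 0) (hz0 : z 0 = Z 0) {t' : ℝ} (ht' : t' ≤ T)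
    (hyn : ∀ s ∈ Icc 0 t', 0 ≤ y s) : ∀ t ∈ Icc 0 t', (0 ≤ x t ∧ 0 ≤ z t) ∧ (x t ≤ X t ∧ z t ≤ Z t) ∧
      y t ≤ Y t ∧ (3 / 4) * Y t ≤ y t ∧ (t ≤ τ - th r → Y t - y t ≤ 48 * R * ep r R ^ 2 * Y t) ∧
      Y t - y t ≤ 48 * R * ep r R ^ 2 * Y t + (2 * X t + Z t) ^ 2 / 2 := by
  have hR := hT.R_pos
  have hr := hT.r_pos
  have hγ := hT.γ_ge
  have he := hh.e_pos.le
  have hsubT : ∀ t ∈ Icc 0 t', t ∈ Icc 0 T := fun t ht => ⟨ht.1, ht.2.trans ht'⟩
  have hsub : ∀ t ∈ Icc 0 t', t ∈ Ioo (-1 : ℝ) 2 := fun t ht => hT.sub (hsubT t ht)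
  obtain ⟨C, hC⟩ := isCompact_Icc.exists_bound_of_continuousOn
    (hA.conty.mono fun t ht => Ioo_subset_Icc_self (hsub t ht))
  have h0T : (0 : ℝ) ∈ Icc 0 T := ⟨le_rfl, hT.T_pos.le⟩
  have hXZ0 := hh.nonneg hY hT 0 h0T
  -- positivity
  have s1 := coop (p := x) (q := z) (A := R / 8) (c := fun t => R * y t) (C := R * C) (t₀ := 0)
    (t₁ := t') (by positivity)
    (fun t ht => ⟨mul_nonneg hR.le (hyn t ht), by
      have := hC t ht
      rw [Real.norm_eq_abs] at this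
      exact mul_le_mul_of_nonneg_left ((le_abs_self _).trans this) hR.le⟩)
    (fun t ht => ⟨_, hA.derx t (hsub t ht), le_rfl⟩)
    (fun t ht => ⟨_, hA.derz t (hsub t ht), by
      have : 0 ≤ e * y t := mul_nonneg he (hyn t ht)
      linarith⟩) (by rw [hx0]; exact hXZ0.1) (by rw [hz0]; exact hXZ0.2)
  -- the loss is nonnegative
  have s2 := nonneg_of_gron (g := fun t => Y t - y t) (ν := ν) (t₀ := 0) (t₁ := t')
    (fun t ht => ⟨_, (hY.der t (hsub t ht)).sub (hA.dery t (hsub t ht)), by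
      obtain ⟨h1, h2⟩ := s1 t ht
      have : 0 ≤ R * (x t * z t) := by positivity
      linarith⟩) (by rw [hy0, sub_self])
  -- comparison with the linear system
  have s3 := coop (p := fun t => X t - x t) (q := fun t => Z t - z t) (A := R / 8)
    (c := fun t => R * Y t) (C := R * 2) (t₀ := 0) (t₁ := t') (by positivity)
    (fun t ht => ⟨mul_nonneg hR.le (hY.pos t (hsubT t ht)).le,
      mul_le_mul_of_nonneg_left (Y_le_two hi hY hT (hsubT t ht)) hR.le⟩)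
    (fun t ht => ⟨_, (hh.derX t (hsub t ht)).sub (hA.derx t (hsub t ht)), le_of_eq (by ring)⟩)
    (fun t ht => ⟨_, (hh.derZ t (hsub t ht)).sub (hA.derz t (hsub t ht)), by
      obtain ⟨h1, h2⟩ := s1 t ht
      have h3 := s2 t ht
      have : 0 ≤ (R * x t + e) * (Y t - y t) := mul_nonneg (by positivity) h3
      nlinarith⟩) (by rw [hx0, sub_self]) (by rw [hz0, sub_self])
  have hep := ep_pos r R
  have hdh : 48 * R * ep r R ^ 2 ≤ 1 / 16 := by
    have h1 := hS.e2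
    have h2 := hS.R1
    have h3 : 0 ≤ 48 * R * ep r R ^ 2 := by positivity
    nlinarith
  have hdh0 : 0 ≤ 48 * R * ep r R ^ 2 := by positivity
  have hth := th_pos hT
  have hthle := th_le hT
  -- the early bound of the loss
  have s4 : ∀ t ∈ Icc 0 t', t ≤ τ - th r → Y t - y t ≤ 48 * R * ep r R ^ 2 * Y t := by
    intro t ht htth
    have h1 := le_of_deriv (f := fun s => 48 * R * ep r R ^ 2 * Y s - (Y s - y s)) ht.1
      fun s hs => by
        have hs' : s ∈ Icc 0 t' := ⟨hs.1, hs.2.trans ht.2⟩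
        refine ⟨_, ((hY.der s (hsub s hs')).const_mul _).sub
          ((hY.der s (hsub s hs')).sub (hA.dery s (hsub s hs'))), ?_⟩
        obtain ⟨h1, h2⟩ := s1 s hs'
        obtain ⟨h3, h4⟩ := s3 s hs'
        have h5 := s2 s hs'
        have h6 := early hi hh hY hT hs.1 (hs.2.trans htth)
        have h7 : R * (x s * z s) ≤ R * (X s * Z s) := by
          exact mul_le_mul_of_nonneg_left
            (mul_le_mul (by linarith) (by linarith) h2 (by linarith)) hR.le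
        have h8 := hY.grow s (hsubT s hs')
        have h9 := (hY.pos s (hsubT s hs')).le
        have h10 : 48 * R * ep r R ^ 2 * Y s ≤ 48 * R * ep r R ^ 2 * (-ν * Y s + a * f s) := by
          refine mul_le_mul_of_nonneg_left ?_ hdh0
          nlinarith
        have h11 : 0 ≤ ν * (Y s - y s) := mul_nonneg hT.ν0 h5
        linarith
    simp only [hy0, sub_self, sub_zero] at h1
    have h2 : 0 ≤ 48 * R * ep r R ^ 2 * Y 0 := mul_nonneg hdh0 (hY.pos 0 h0T).le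
    linarith
  have s5 : ∀ t ∈ Icc 0 t',
      Y t - y t ≤ 48 * R * ep r R ^ 2 * Y t + (2 * X t + Z t) ^ 2 / 2 := by
    intro t ht
    rcases le_total t (τ - th r) with h | h
    · have := s4 t ht h
      nlinarith [sq_nonneg (2 * X t + Z t)]
    · have h0 : 0 ≤ τ - th r := by linarith
      have hm : τ - th r ∈ Icc 0 t' := ⟨h0, h.trans ht.2⟩
      have h1 := le_of_deriv (f := fun s => (2 * X s + Z s) ^ 2 / 2 - (Y s - y s)) h
        fun s hs => by
          have hs' : s ∈ Icc 0 t' := ⟨h0.trans hs.1, hs.2.trans ht.2⟩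
          refine ⟨_, (((Uder hh hT (hsubT s hs')).pow 2).div_const 2).sub
            ((hY.der s (hsub s hs')).sub (hA.dery s (hsub s hs'))), ?_⟩
          obtain ⟨h1, h2⟩ := s1 s hs'
          obtain ⟨h3, h4⟩ := s3 s hs'
          have h5 := s2 s hs'
          have h6 := Ugrow hi hh hY hT hs.1 (hs'.2.trans ht')
          obtain ⟨h7, h8⟩ := hh.nonneg hY hT s (hsubT s hs')
          have h9 : R * (x s * z s) ≤ R * (X s * Z s) := by
            exact mul_le_mul_of_nonneg_left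
              (mul_le_mul (by linarith) (by linarith) h2 (by linarith)) hR.le
          have h11 : 0 ≤ ν * (Y s - y s) := mul_nonneg hT.ν0 h5
          have h12 : (2 * X s + Z s) * (R / 8 * (2 * X s + Z s)) ≤ (2 * X s + Z s) *
              (2 * (R / 8 * (Z s - X s)) + (-(R / 8 * Z s) + (R * X s + e) * Y s)) :=
            mul_le_mul_of_nonneg_left (by linarith) (by positivity)
          have h13 : 0 ≤ R * (2 * X s - Z s) ^ 2 := by positivity
          simp only [Nat.cast_ofNat, Nat.add_one_sub_one, pow_one]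
          nlinarith
      have h2 := s4 _ hm le_rfl
      have h3 := Ymono hi hY hT h0 h (ht.2.trans ht')
      have h4 : 48 * R * ep r R ^ 2 * Y (τ - th r) ≤ 48 * R * ep r R ^ 2 * Y t :=
        mul_le_mul_of_nonneg_left h3 hdh0
      have h5 := sq_nonneg (2 * X (τ - th r) + Z (τ - th r))
      linarith
  intro t ht
  obtain ⟨h1, h2⟩ := s1 t ht
  obtain ⟨h3, h4⟩ := s3 t ht
  have h5 := s2 t ht
  have hYp := (hY.pos t (hsubT t ht)).le
  have h6 : Y t - y t ≤ 1 / 4 * Y t := by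
    rcases le_total t (τ - th r) with h | h
    · have := s4 t ht h
      nlinarith
    · have h7 := s5 t ht
      have h8 := Y_ge_half hi hY hT h (hsubT t ht).2
      have h9 := U_le hi hh hY hT hS.e1 (hsubT t ht)
      obtain ⟨h10, h11⟩ := hh.nonneg hY hT t (hsubT t ht)
      have h12 : (2 * X t + Z t) ^ 2 ≤ (3 / 20) ^ 2 := pow_le_pow_left₀ (by positivity) h9 2
      nlinarith
  exact ⟨⟨h1, h2⟩, ⟨by linarith, by linarith⟩, by linarith, by linarith, s4 t ht, s5 t ht⟩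

/-- The positivity of `y` on the whole interval. -/
theorem act_y_nonneg (hi : In f T τ r γ) (hh : Hat Y X Z T τ R γ e) (hY : LinY f Y T τ r γ ν a)
    (hT : Tm T τ r R γ ν) (hS : Sm r R) (hA : Act f x y z R ν a e) (hx0 : x 0 = X 0)
    (hy0 : y 0 = Y 0) (hz0 : z 0 = Z 0) : ∀ s ∈ Icc 0 T, 0 ≤ y s := by
  have h0T : (0 : ℝ) ∈ Icc 0 T := ⟨le_rfl, hT.T_pos.le⟩
  have hyc : ContinuousOn y (Icc 0 T) :=
    hA.conty.mono fun t ht => Ioo_subset_Icc_self (hT.sub ht)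
  by_contra hcon
  push Not at hcon
  obtain ⟨s₁, hs₁, hs₁y⟩ := hcon
  set S : Set ℝ := {t ∈ Icc 0 T | y t ≤ 0} with hS'
  have hScl : IsClosed S := hyc.preimage_isClosed_of_isClosed isClosed_Icc isClosed_Iic
  have hSb : BddBelow S := ⟨0, fun t ht => ht.1.1⟩
  have hSn : S.Nonempty := ⟨s₁, hs₁, hs₁y.le⟩
  have hm := hScl.csInf_mem hSn hSb
  set t₁ := sInf S with ht₁
  have hpos : ∀ s ∈ Icc 0 t₁, 0 ≤ y s := by
    intro s hs
    rcases hs.2.eq_or_lt with h | h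
    · -- continuity at `t₁`
      subst h
      by_contra hneg
      push Not at hneg
      -- `y 0 > 0` and `y t₁ < 0` give an earlier zero
      have h1 : 0 < y 0 := by rw [hy0]; exact hY.pos 0 h0T
      have h2 : (0 : ℝ) ∈ Icc (y t₁) (y 0) := ⟨hneg.le, h1.le⟩
      obtain ⟨c, hc, hc0⟩ := intermediate_value_Icc' hs.1
        (hyc.mono (Icc_subset_Icc_right hm.1.2)) h2
      have h3 : c ∈ S := ⟨⟨hc.1, hc.2.trans hm.1.2⟩, hc0.le⟩
      have h4 : t₁ ≤ c := csInf_le hSb h3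
      have h5 : c = t₁ := le_antisymm hc.2 h4
      rw [h5] at hc0
      linarith
    · by_contra hneg
      push Not at hneg
      exact absurd (csInf_le hSb ⟨⟨hs.1, hs.2.trans hm.1.2⟩, hneg.le⟩) (not_le.2 h)
  have h1 := act_bounds hi hh hY hT hS hA hx0 hy0 hz0 hm.1.2 hpos t₁ ⟨hm.1.1, le_rfl⟩
  have h2 := h1.2.2.2.1
  have h3 := hY.pos t₁ hm.1
  have h4 := hm.2
  linarith

end

end Pool.Agent.H306.DS
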