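import Pool.Agent.H306.DS.Stage

/-! The output of one stage. -/

namespace Pool.Agent.H306.DS

open Set Filter Topology

open Pool.Agent.H306.CK

section

variable {f Y X Z x y z : ℝ → ℝ} {T τ r R γ ν a e : ℝ}

theorem act_half (hi : In f T τ r γ) (hh : Hat Y X Z T τ R γ e) (hY : LinY f Y T τ r γ ν a)
    (hT : Tm T τ r R γ ν) (hS : Sm r R) (hA : Act f x y z R ν a e) (hx0 : x 0 = X 0)
    (hy0 : y 0 = Y 0) (hz0 : z 0 = Z 0) : ∀ t ∈ Icc 0 T, X t / 2 ≤ x t ∧ Z t / 2 ≤ z t := by
  have hR := hT.R_pos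
  have hr := hT.r_pos
  have hγ := hT.γ_ge
  have he := hh.e_pos.le
  have hep := ep_pos r R
  have hyn := act_y_nonneg hi hh hY hT hS hA hx0 hy0 hz0
  have hb := act_bounds hi hh hY hT hS hA hx0 hy0 hz0 le_rfl hyn
  set dh : ℝ := 48 * R * ep r R ^ 2 with hdh
  have hdh0 : 0 ≤ dh := by positivity
  have h0T : (0 : ℝ) ∈ Icc 0 T := ⟨le_rfl, hT.T_pos.le⟩
  have hth := th_pos hT
  have hthle := th_le hT
  set G : ℝ → ℝ := fun t => 1 / 4 + R * dh * Y t + 2 * (2 * X t + Z t) ^ 2 with hG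
  set G' : ℝ → ℝ := fun t => R * dh * (-ν * Y t + a * f t) + 2 * (2 * (2 * X t + Z t) *
    (2 * (R / 8 * (Z t - X t)) + (-(R / 8 * Z t) + (R * X t + e) * Y t))) with hG'
  have hGd : ∀ t ∈ Icc 0 T, HasDerivAt G (G' t) t := by
    intro t ht
    refine (((hY.der t (hT.sub ht)).const_mul (R * dh)).const_add (1 / 4)).add
      (((Uder hh hT ht).pow 2).const_mul 2) |>.congr_deriv ?_
    simp only [hG', Nat.cast_ofNat, Nat.add_one_sub_one, pow_one]
  have hG0 : ∀ t ∈ Icc 0 T, 1 / 4 ≤ G t := by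
    intro t ht
    have h1 := (hY.pos t ht).le
    have : 0 ≤ R * dh * Y t + 2 * (2 * X t + Z t) ^ 2 := by positivity
    simp only [hG]
    linarith
  have hG1 : ∀ t ∈ Icc 0 T, G t ≤ 1 / 2 := by
    intro t ht
    have h1 := Y_le_two hi hY hT ht
    have h2 := U_le hi hh hY hT hS.e1 ht
    obtain ⟨h3, h4⟩ := hh.nonneg hY hT t ht
    have h5 : (2 * X t + Z t) ^ 2 ≤ (3 / 20) ^ 2 := pow_le_pow_left₀ (by positivity) h2 2
    have h6 : R * dh * Y t ≤ R * dh * 2 := mul_le_mul_of_nonneg_left h1 (by positivity)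
    have h7 := hS.e2
    have h8 : R * dh * 2 ≤ 1 / 8 := by
      calc R * dh * 2 = 2 * R * (48 * R * ep r R ^ 2) := by rw [hdh]; ring
        _ ≤ _ := h7
    simp only [hG]
    linarith
  have hGR : ∀ t ∈ Icc 0 T, R * (Y t - y t) ≤ G' t := by
    intro t ht
    obtain ⟨h1, h2, h3, h4, h5, h6⟩ := hb t ht
    have h7 := hY.grow t ht
    have h8 := (hY.pos t ht).le
    have h9 : R * dh * Y t ≤ R * dh * (-ν * Y t + a * f t) :=
      mul_le_mul_of_nonneg_left (by nlinarith) (by positivity)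
    obtain ⟨h10, h11⟩ := hh.nonneg hY hT t ht
    rcases le_total t (τ - th r) with h | h
    · have h12 := h5 h
      obtain ⟨h13, h14⟩ := hh.grow hY hT t ht
      have h15 : 0 ≤ γ * X t := by positivity
      have h16 : 0 ≤ γ * Z t := by positivity
      have h17 : 0 ≤ 2 * (2 * (2 * X t + Z t) *
          (2 * (R / 8 * (Z t - X t)) + (-(R / 8 * Z t) + (R * X t + e) * Y t))) := by
        have : 0 ≤ 2 * (R / 8 * (Z t - X t)) + (-(R / 8 * Z t) + (R * X t + e) * Y t) := by
          linarith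
        positivity
      have h18 : R * (Y t - y t) ≤ R * (dh * Y t) := mul_le_mul_of_nonneg_left h12 hR.le
      simp only [hG']
      linarith
    · have h12 := Ugrow hi hh hY hT h ht.2
      have h13 : 2 * (2 * (2 * X t + Z t) * (R / 8 * (2 * X t + Z t))) ≤
          2 * (2 * (2 * X t + Z t) *
          (2 * (R / 8 * (Z t - X t)) + (-(R / 8 * Z t) + (R * X t + e) * Y t))) := by
        have : R / 8 * (2 * X t + Z t) ≤
          2 * (R / 8 * (Z t - X t)) + (-(R / 8 * Z t) + (R * X t + e) * Y t) := by linarith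
        gcongr
      have h18 : R * (Y t - y t) ≤ R * (dh * Y t + (2 * X t + Z t) ^ 2 / 2) :=
        mul_le_mul_of_nonneg_left h6 hR.le
      simp only [hG']
      nlinarith
  have key := coop (p := fun t => G t * X t - (X t - x t)) (q := fun t => G t * Z t - (Z t - z t))
    (A := R / 8) (c := fun t => R * Y t) (C := R * 2) (t₀ := 0) (t₁ := T) (by positivity)
    (fun t ht => ⟨mul_nonneg hR.le (hY.pos t ht).le,
      mul_le_mul_of_nonneg_left (Y_le_two hi hY hT ht) hR.le⟩)
    (fun t ht => ⟨_, ((hGd t ht).mul (hh.derX t (hT.sub ht))).sub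
        ((hh.derX t (hT.sub ht)).sub (hA.derx t (hT.sub ht))), by
      have h1 := hGR t ht
      obtain ⟨h2, h3, h4, h5, h6, h7⟩ := hb t ht
      have h8 : 0 ≤ G' t := le_trans (mul_nonneg hR.le (by linarith)) h1
      have h9 := (hh.nonneg hY hT t ht).1
      have h10 : 0 ≤ G' t * X t := mul_nonneg h8 h9
      nlinarith⟩)
    (fun t ht => ⟨_, ((hGd t ht).mul (hh.derZ t (hT.sub ht))).sub
        ((hh.derZ t (hT.sub ht)).sub (hA.derz t (hT.sub ht))), by
      have h1 := hGR t ht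
      obtain ⟨h2, h3, h4, h5, h6, h7⟩ := hb t ht
      obtain ⟨h9, h10⟩ := hh.nonneg hY hT t ht
      have h11 := XleZ hh hY hT ht
      have h12 := (hY.pos t ht).le
      have hl : 0 ≤ Y t - y t := by linarith
      -- `G' Z ≥ R ℓ x`
      have h13 : R * (Y t - y t) * x t ≤ G' t * Z t :=
        mul_le_mul h1 (by linarith [h3.1]) h2.1 (le_trans (mul_nonneg hR.le hl) h1)
      -- `G e Y ≥ e ℓ`
      have h14 : e * (Y t - y t) ≤ G t * (e * Y t) := by
        have h15 := hG0 t ht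
        have h16 : 1 / 4 * (e * Y t) ≤ G t * (e * Y t) :=
          mul_le_mul_of_nonneg_right h15 (mul_nonneg he h12)
        have h17 : e * (Y t - y t) ≤ e * (1 / 4 * Y t) :=
          mul_le_mul_of_nonneg_left (by linarith) he
        linarith
      nlinarith⟩)
    (by
      have h1 := (hh.nonneg hY hT 0 h0T).1
      have h2 := hG0 0 h0T
      rw [hx0, sub_self, sub_zero]
      exact mul_nonneg (by linarith) h1)
    (by
      have h1 := (hh.nonneg hY hT 0 h0T).2
      have h2 := hG0 0 h0T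
      rw [hz0, sub_self, sub_zero]
      exact mul_nonneg (by linarith) h1)
  intro t ht
  obtain ⟨h1, h2⟩ := key t ht
  obtain ⟨h3, h4⟩ := hh.nonneg hY hT t ht
  have h5 := hG1 t ht
  have h6 : G t * X t ≤ 1 / 2 * X t := mul_le_mul_of_nonneg_right h5 h3
  have h7 : G t * Z t ≤ 1 / 2 * Z t := mul_le_mul_of_nonneg_right h5 h4
  constructor <;> linarith

theorem act_grow (hi : In f T τ r γ) (hh : Hat Y X Z T τ R γ e) (hY : LinY f Y T τ r γ ν a)
    (hT : Tm T τ r R γ ν) (hS : Sm r R) (hA : Act f x y z R ν a e) (hx0 : x 0 = X 0)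
    (hy0 : y 0 = Y 0) (hz0 : z 0 = Z 0) {γ' : ℝ} (hγ' : 0 ≤ γ')
    (hδ : 48 * R * ep r R ^ 2 ≤ γ - γ') (hRγ : 32 * γ' ≤ R) :
    ∀ t ∈ Icc 0 T, γ' * x t ≤ R / 8 * (z t - x t) := by
  have hR := hT.R_pos
  have hr := hT.r_pos
  have hγ := hT.γ_ge
  have he := hh.e_pos.le
  have hyn := act_y_nonneg hi hh hY hT hS hA hx0 hy0 hz0
  have hb := act_bounds hi hh hY hT hS hA hx0 hy0 hz0 le_rfl hyn
  have h0T : (0 : ℝ) ∈ Icc 0 T := ⟨le_rfl, hT.T_pos.le⟩
  have hth := th_pos hT
  have hthle := th_le hT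
  have hτT := hT.τ_le
  have h0 : 0 ≤ τ - th r := by linarith
  have hsub : ∀ t ∈ Icc 0 (τ - th r), t ∈ Icc 0 T := fun t ht => ⟨ht.1, by linarith [ht.2]⟩
  obtain ⟨hX0, hZ0⟩ := hh.nonneg hY hT 0 h0T
  have hY0 := (hY.pos 0 h0T).le
  -- the early phase
  have s1 := coop (p := fun t => R / 8 * (z t - x t) - γ' * x t)
    (q := fun t => (-(R / 8 * z t) + (R * x t + e) * y t) - γ' * z t)
    (A := R / 8) (c := fun t => R * y t) (C := R * 2) (t₀ := 0) (t₁ := τ - th r) (by positivity)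
    (fun t ht => ⟨mul_nonneg hR.le (hyn t (hsub t ht)), by
      have h1 := (hb t (hsub t ht)).2.2.1
      have h2 := Y_le_two hi hY hT (hsub t ht)
      exact mul_le_mul_of_nonneg_left (h1.trans h2) hR.le⟩)
    (fun t ht => by
      have hx := hA.derx t (hT.sub (hsub t ht))
      have hz := hA.derz t (hT.sub (hsub t ht))
      refine ⟨_, ((hz.sub hx).const_mul (R / 8)).sub (hx.const_mul γ'), le_of_eq ?_⟩
      ring)
    (fun t ht => by
      have hx := hA.derx t (hT.sub (hsub t ht))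
      have hz := hA.derz t (hT.sub (hsub t ht))
      have hy := hA.dery t (hT.sub (hsub t ht))
      refine ⟨_, ((hz.const_mul (R / 8)).neg.add (((hx.const_mul R).add_const e).mul hy)).sub
        (hz.const_mul γ'), ?_⟩
      obtain ⟨⟨h1, h2⟩, ⟨h3, h4⟩, h5, h6, h7, h8⟩ := hb t (hsub t ht)
      obtain ⟨hXn, hZn⟩ := hh.nonneg hY hT t (hsub t ht)
      have h9 := early hi hh hY hT ht.1 ht.2
      have h10 : R * (x t * z t) ≤ R * (X t * Z t) :=
        mul_le_mul_of_nonneg_left (mul_le_mul h3 h4 h2 hXn) hR.le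
      have h11 := hY.grow t (hsub t ht)
      have hYp := (hY.pos t (hsub t ht)).le
      have h12 : 48 * R * ep r R ^ 2 * Y t ≤ (γ - γ') * Y t := mul_le_mul_of_nonneg_right hδ hYp
      have h13 := hyn t (hsub t ht)
      have h14 : γ' * y t ≤ γ' * Y t := mul_le_mul_of_nonneg_left h5 hγ'
      have h15 : 0 ≤ ν * (Y t - y t) := mul_nonneg hT.ν0 (by linarith)
      -- `y' ≥ γ' y`
      have h16 : 0 ≤ (-ν * y t - R * (x t * z t) + a * f t) - γ' * y t := by nlinarith
      have h17 : 0 ≤ (R * x t + e) * ((-ν * y t - R * (x t * z t) + a * f t) - γ' * y t) :=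
        mul_nonneg (by positivity) h16
      have h18 : 0 ≤ γ' * (R * x t * y t) := by positivity
      nlinarith)
    (by
      have h1 := hh.initX
      have h2 : 0 ≤ (γ - γ') * X 0 := by
        have : 0 ≤ γ - γ' := le_trans (by have := ep_pos r R; positivity) hδ
        positivity
      rw [hx0, hz0]
      nlinarith)
    (by
      have h1 := hh.initZ
      have h2 : 0 ≤ (γ - γ') * Z 0 := by
        have : 0 ≤ γ - γ' := le_trans (by have := ep_pos r R; positivity) hδ
        positivity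
      have h3 : 0 ≤ R * X 0 * Y 0 := by positivity
      rw [hx0, hz0, hy0]
      nlinarith)
  intro t ht
  rcases le_total t (τ - th r) with h | h
  · have := (s1 t ⟨ht.1, h⟩).1
    linarith
  · have h1 := nonneg_of_gron (g := fun t => R / 8 * (z t - x t) - γ' * x t)
      (ν := R / 4 + γ') (t₀ := τ - th r) (t₁ := t) (fun s hs => by
        have hs' : s ∈ Icc 0 T := ⟨h0.trans hs.1, hs.2.trans ht.2⟩
        have hx := hA.derx s (hT.sub hs')
        have hz := hA.derz s (hT.sub hs')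
        refine ⟨_, ((hz.sub hx).const_mul (R / 8)).sub (hx.const_mul γ'), ?_⟩
        obtain ⟨⟨h1, h2⟩, ⟨h3, h4⟩, h5, h6, h7, h8⟩ := hb s hs'
        have h9 := Y_ge_half hi hY hT hs.1 hs'.2
        have h10 : 1 / 4 ≤ y s := by linarith
        have h11 : 0 ≤ e * y s := mul_nonneg he (hyn s hs')
        have h12 : 0 ≤ R * (e * y s) := mul_nonneg hR.le h11
        have h13 : 0 ≤ (y s - 1 / 4) * (R * R * x s) := mul_nonneg (by linarith) (by positivity)
        have h14 : (R / 4 + γ') * γ' * x s ≤ R * R / 64 * x s := by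
          refine mul_le_mul_of_nonneg_right ?_ h1
          nlinarith
        nlinarith) (s1 _ ⟨h0, le_rfl⟩).1
    have := h1 t ⟨h, le_rfl⟩
    linarith

theorem act_low (hi : In f T τ r γ) (hh : Hat Y X Z T τ R γ e) (hY : LinY f Y T τ r γ ν a)
    (hT : Tm T τ r R γ ν) (hS : Sm r R) (hA : Act f x y z R ν a e) (hx0 : x 0 = X 0)
    (hy0 : y 0 = Y 0) (hz0 : z 0 = Z 0)
    (hgr : ∀ t ∈ Icc 0 T, 0 ≤ R / 8 * (z t - x t)) {t : ℝ}
    (ht : τ + 1 / (2 * R) ≤ t) (htT : t ≤ T) : 1 / 12800 ≤ x t := by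
  have hR := hT.R_pos
  have hr := hT.r_pos
  have hτ := hT.τ_pos
  have hyn := act_y_nonneg hi hh hY hT hS hA hx0 hy0 hz0
  have hb := act_bounds hi hh hY hT hS hA hx0 hy0 hz0 le_rfl hyn
  have hha := act_half hi hh hY hT hS hA hx0 hy0 hz0
  have hRp : 0 < 1 / (2 * R) := by positivity
  set t₁ : ℝ := τ + 1 / (2 * R) with ht₁
  have ht₁T : t₁ ≤ T := ht.trans htT
  have hτT : τ ∈ Icc 0 T := ⟨hτ.le, hT.τ_le⟩
  obtain ⟨h1, h2⟩ := hha τ hτT
  have h3 := hh.one
  have h4 := hgr τ hτT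
  have h5 : x τ ≤ z τ := by
    by_contra hcon
    push Not at hcon
    nlinarith
  have h6 : 1 / 600 ≤ z τ := by linarith
  -- `z` stays large
  have h7 : ∀ s ∈ Icc τ t₁, 1 / 640 ≤ z s := by
    intro s hs
    have h8 := deriv_ge_const (f := fun s => z s * Real.exp (R / 8 * (s - τ))) (c := 0) hs.1
      fun w hw => by
        have hw' : w ∈ Icc 0 T := ⟨hτ.le.trans hw.1, (hw.2.trans hs.2).trans ht₁T⟩
        have he : HasDerivAt (fun s => Real.exp (R / 8 * (s - τ)))
            (Real.exp (R / 8 * (w - τ)) * (R / 8 * 1)) w :=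
          (((hasDerivAt_id w).sub_const τ).const_mul (R / 8)).exp
        refine ⟨_, (hA.derz w (hT.sub hw')).mul he, ?_⟩
        obtain ⟨⟨g1, g2⟩, -⟩ := hb w hw'
        have g3 := hyn w hw'
        have g4 := hh.e_pos
        have g5 : 0 ≤ (R * x w + e) * y w := by positivity
        have g6 := Real.exp_pos (R / 8 * (w - τ))
        have g7 : (-(R / 8 * z w) + (R * x w + e) * y w) * Real.exp (R / 8 * (w - τ)) +
            z w * (Real.exp (R / 8 * (w - τ)) * (R / 8 * 1)) =
            (R * x w + e) * y w * Real.exp (R / 8 * (w - τ)) := by ring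
        rw [g7]
        positivity
    simp only [zero_mul, sub_self, mul_zero, Real.exp_zero, mul_one, sub_nonneg] at h8
    have h9 : R / 8 * (s - τ) ≤ 1 / 16 := by
      have : s - τ ≤ 1 / (2 * R) := by rw [ht₁] at hs; linarith [hs.2]
      calc R / 8 * (s - τ) ≤ R / 8 * (1 / (2 * R)) := by gcongr
        _ = 1 / 16 := by field_simp; norm_num
    have h10 : Real.exp (R / 8 * (s - τ)) ≤ 16 / 15 := by
      have h11 := Real.add_one_le_exp (-(1 / 16 : ℝ))
      have h12 : Real.exp (1 / 16) * Real.exp (-(1 / 16)) = 1 := by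
        rw [← Real.exp_add]; norm_num
      have h13 : Real.exp (1 / 16) ≤ 16 / 15 := by
        have := Real.exp_pos (1 / 16)
        nlinarith
      exact (Real.exp_le_exp.2 h9).trans h13
    have h11 : 0 ≤ z s := (hb s ⟨hτ.le.trans hs.1, hs.2.trans ht₁T⟩).1.2
    have h12 : z s * Real.exp (R / 8 * (s - τ)) ≤ z s * (16 / 15) :=
      mul_le_mul_of_nonneg_left h10 h11
    linarith
  -- `x` at time `t₁`
  have h8 : 1 / 12800 ≤ x t₁ := by
    have hτt : τ ≤ t₁ := by linarith
    have h9 := nonneg_of_gron (g := fun s => x s - 1 / 12800 * (2 * R * (s - τ))) (ν := R / 8)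
      (t₀ := τ) (t₁ := t₁) (fun s hs => by
        have hs' : s ∈ Icc 0 T := ⟨hτ.le.trans hs.1, hs.2.trans ht₁T⟩
        refine ⟨_, (hA.derx s (hT.sub hs')).sub
          ((((hasDerivAt_id s).sub_const τ).const_mul (2 * R)).const_mul (1 / 12800)), ?_⟩
        have g1 := h7 s hs
        have g2 : 2 * R * (s - τ) ≤ 1 := by
          have : s - τ ≤ 1 / (2 * R) := by rw [ht₁] at hs; linarith [hs.2]
          calc 2 * R * (s - τ) ≤ 2 * R * (1 / (2 * R)) := by gcongr
            _ = 1 := by field_simp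
        have g3 : 0 ≤ 2 * R * (s - τ) := by
          have : 0 ≤ s - τ := by linarith [hs.1]
          positivity
        have g4 : R * (2 * R * (s - τ)) ≤ R * 1 := mul_le_mul_of_nonneg_left g2 hR.le
        have g5 : R * (1 / 640) ≤ R * z s := mul_le_mul_of_nonneg_left g1 hR.le
        nlinarith) (by
        rw [sub_self, mul_zero, mul_zero, sub_zero]
        exact (hb τ hτT).1.1)
    have g1 := h9 t₁ ⟨hτt, le_rfl⟩
    have g2 : 2 * R * (t₁ - τ) = 1 := by rw [ht₁]; field_simp; ring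
    rw [g2] at g1
    linarith
  have h9 := le_of_deriv (f := x) ht fun s hs => by
    have hs' : s ∈ Icc 0 T := ⟨by linarith [hs.1], hs.2.trans htT⟩
    exact ⟨_, hA.derx s (hT.sub hs'), hgr s hs'⟩
  linarith

end

end Pool.Agent.H306.DS
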